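import Pool.Agent.Work.MP_6a50bc_pr.ConcAux

namespace Pool.Agent.Work.MP_6a50bc_pr

open MeasureTheory ProbabilityTheory Matrix Finset
open scoped ENNReal

variable {ι κ : Type*} [Fintype ι] [DecidableEq ι] [Fintype κ] [DecidableEq κ]

/-! Gaussian concentration for Lipschitz functions. -/

omit [DecidableEq κ] in
theorem conc_mgf {f : (κ → ℝ) → ℝ} {L : ℝ} (hf : ∀ x y, |f x - f y| ≤ L * nrm (x - y)) (t : ℝ) :
    Integrable (fun q : (κ → ℝ) × (κ → ℝ) => Real.exp (t * (f q.1 - f q.2))) ((gv κ).prod (gv κ)) ∧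
    ∫ q, Real.exp (t * (f q.1 - f q.2)) ∂((gv κ).prod (gv κ)) ≤ Real.exp (2 * t ^ 2 * L ^ 2) := by
  have h : ∀ q : (κ → ℝ) × (κ → ℝ), t * (f q.1 - f q.2) = -t * (f q.2 - f q.1) := fun q => by ring
  simp only [h]
  exact ⟨integrable_exp_sub hf _, by simpa using integral_exp_sub_le hf (-t)⟩

omit [DecidableEq κ] in
theorem conc_two_set {A B : Set (κ → ℝ)} {r : ℝ} (hr : 0 ≤ r)
    (h : ∀ x ∈ A, ∀ y ∈ B, r ≤ nrm (x - y)) :
    gv κ A * gv κ B ≤ ENNReal.ofReal (Real.exp (-r ^ 2 / 8)) := by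
  rcases A.eq_empty_or_nonempty with rfl | hA
  · simp
  set S : Set (EuclideanSpace ℝ κ) := WithLp.toLp 2 '' A
  set f : (κ → ℝ) → ℝ := fun x => Metric.infDist (WithLp.toLp 2 x) S
  have hd : ∀ x y : κ → ℝ, dist (WithLp.toLp 2 x : EuclideanSpace ℝ κ) (WithLp.toLp 2 y) =
      nrm (x - y) := fun x y => by rw [nrm_eq_norm, dist_eq_norm, WithLp.toLp_sub]
  have hf : ∀ x y, |f x - f y| ≤ 1 * nrm (x - y) := fun x y => by
    have h1 := (Metric.lipschitz_infDist_pt S).dist_le_mul (WithLp.toLp 2 x) (WithLp.toLp 2 y)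
    rwa [Real.dist_eq, hd, NNReal.coe_one] at h1
  obtain ⟨h1, h2⟩ := conc_mgf hf (r / 4)
  have h3 : B ×ˢ A ⊆ {q : (κ → ℝ) × (κ → ℝ) |
      Real.exp (r ^ 2 / 4) ≤ Real.exp (r / 4 * (f q.1 - f q.2))} := by
    rintro ⟨y, x⟩ ⟨hy, hx⟩
    have h4 : f x = 0 := Metric.infDist_zero_of_mem ⟨x, hx, rfl⟩
    have h5 : r ≤ f y := (Metric.le_infDist (hA.image _)).2 (by
      rintro _ ⟨a, ha, rfl⟩
      rw [hd, nrm_sub_comm]
      exact h a ha y hy)
    simp only [Set.mem_ofPred_eq, h4]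
    exact Real.exp_le_exp.2 (by nlinarith)
  rw [mul_comm, ← Measure.prod_prod]
  refine (measure_mono h3).trans ((measure_ge_le h1 (fun _ => (Real.exp_pos _).le)
    (Real.exp_pos _)).trans (ENNReal.ofReal_le_ofReal ?_))
  rw [div_le_iff₀ (Real.exp_pos _), ← Real.exp_add]
  exact h2.trans (Real.exp_le_exp.2 (le_of_eq (by ring)))

omit [DecidableEq ι] [DecidableEq κ] in
theorem conc_two_set_gm {A B : Set (ι → κ → ℝ)} {r : ℝ} (hr : 0 ≤ r)
    (h : ∀ x ∈ A, ∀ y ∈ B, r ≤ fro (Matrix.of x - Matrix.of y)) :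
    gm ι κ A * gm ι κ B ≤ ENNReal.ofReal (Real.exp (-r ^ 2 / 8)) := by
  have key : ∀ C : Set (ι → κ → ℝ), gm ι κ C ≤
      gv (ι × κ) ((fun (x : ι → κ → ℝ) (q : ι × κ) => x q.1 q.2) '' C) := fun C => by
    have hm := mp_uncurry (ι := ι) (κ := κ)
    rw [← hm.map_eq]
    exact (measure_mono (Set.subset_preimage_image _ _)).trans
      (Measure.le_map_apply hm.measurable.aemeasurable _)
  refine (mul_le_mul' (key A) (key B)).trans (conc_two_set hr ?_)
  rintro _ ⟨x, hx, rfl⟩ _ ⟨y, hy, rfl⟩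
  have := h x hx y hy
  rwa [fro_eq_nrm] at this

omit [DecidableEq κ] in
theorem conc_var {f : (κ → ℝ) → ℝ} {L : ℝ} (hf : ∀ x y, |f x - f y| ≤ L * nrm (x - y)) :
    Integrable f (gv κ) ∧ Integrable (fun x => f x ^ 2) (gv κ) ∧
      ∫ x, (f x - ∫ y, f y ∂(gv κ)) ^ 2 ∂(gv κ) ≤ 4 * L ^ 2 := by
  have hc := lip_continuous hf
  have hb : ∀ x, |f x| ≤ (|f 0| + |L|) * (1 + nrm x) ^ 1 := fun x => by
    have h1 := lip_abs hf x 0
    rw [sub_zero] at h1
    have h2 := abs_sub_abs_le_abs_sub (f x) (f 0)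
    nlinarith [abs_nonneg (f 0), abs_nonneg L, nrm_nonneg x,
      mul_nonneg (abs_nonneg (f 0)) (nrm_nonneg x)]
  have i1 : Integrable f (gv κ) := integrable_of_le_pow hc.aestronglyMeasurable _ _ hb
  have i2 : Integrable (fun x => f x ^ 2) (gv κ) :=
    integrable_of_le_pow (hc.pow 2).aestronglyMeasurable ((|f 0| + |L|) ^ 2) 2 fun x => by
      rw [abs_pow, ← mul_pow]
      exact pow_le_pow_left₀ (abs_nonneg _) (by simpa using hb x) 2
  refine ⟨i1, i2, ?_⟩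
  set m := ∫ y, f y ∂(gv κ) with hm
  have j1 : Integrable (fun x => f x - m) (gv κ) := i1.sub (integrable_const m)
  have j2 : Integrable (fun x => (f x - m) ^ 2) (gv κ) := by
    have : (fun x => (f x - m) ^ 2) = fun x => f x ^ 2 - 2 * m * f x + m ^ 2 := by
      funext x; ring
    rw [this]
    exact (i2.sub (i1.const_mul _)).add (integrable_const _)
  have j0 : ∫ x, (f x - m) ∂(gv κ) = 0 := by
    rw [integral_sub i1 (integrable_const m)]; simp [hm]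
  set V := ∫ x, (f x - m) ^ 2 ∂(gv κ)
  have k1 : Integrable (fun q : (κ → ℝ) × (κ → ℝ) => (f q.1 - m) ^ 2) ((gv κ).prod (gv κ)) :=
    j2.comp_fst _
  have k2 : Integrable (fun q : (κ → ℝ) × (κ → ℝ) => (f q.2 - m) ^ 2) ((gv κ).prod (gv κ)) :=
    j2.comp_snd _
  have k3 : Integrable (fun q : (κ → ℝ) × (κ → ℝ) => 2 * ((f q.1 - m) * (f q.2 - m)))
      ((gv κ).prod (gv κ)) := (j1.mul_prod j1).const_mul _
  have e : (fun q : (κ → ℝ) × (κ → ℝ) => (f q.1 - f q.2) ^ 2) = fun q =>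
      (f q.1 - m) ^ 2 + (f q.2 - m) ^ 2 - 2 * ((f q.1 - m) * (f q.2 - m)) := by
    funext q; ring
  have k4 : Integrable (fun q : (κ → ℝ) × (κ → ℝ) => (f q.1 - f q.2) ^ 2) ((gv κ).prod (gv κ)) := by
    rw [e]; exact (k1.add k2).sub k3
  have k5 : ∫ q, (f q.1 - f q.2) ^ 2 ∂((gv κ).prod (gv κ)) = 2 * V := by
    have k12 : Integrable (fun q : (κ → ℝ) × (κ → ℝ) => (f q.1 - m) ^ 2 + (f q.2 - m) ^ 2)
        ((gv κ).prod (gv κ)) := k1.add k2
    rw [e, integral_sub k12 k3, integral_add k1 k2, integral_const_mul,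
      integral_prod_mul (fun x => f x - m) (fun x => f x - m), j0,
      integral_fun_fst (fun x => (f x - m) ^ 2), integral_fun_snd (fun x => (f x - m) ^ 2)]
    simp [V]
    ring
  set t : ℝ := (2 * (|L| + 1))⁻¹ with ht
  have ht0 : 0 < t := by positivity
  have ht1 : 2 * t ^ 2 * L ^ 2 ≤ 1 := by
    have h1 : t * |L| ≤ 1 / 2 := by
      rw [ht, inv_mul_le_iff₀ (by positivity)]; linarith
    have h2 : 0 ≤ t * |L| := by positivity
    rw [← sq_abs L]
    nlinarith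
  obtain ⟨a1, a2⟩ := conc_mgf hf t
  obtain ⟨b1, b2⟩ := conc_mgf hf (-t)
  have hp : ∀ u : ℝ, u ^ 2 + 2 ≤ Real.exp u + Real.exp (-u) := fun u => by
    have h1 : |u / 2| ≤ |Real.sinh (u / 2)| := by
      rw [Real.abs_sinh]; exact Real.self_le_sinh_iff.2 (abs_nonneg _)
    have h2 := sq_le_sq.2 h1
    have h3 := Real.cosh_two_mul (u / 2)
    have h4 := Real.cosh_sq (u / 2)
    rw [show 2 * (u / 2) = u by ring, Real.cosh_eq u] at h3
    nlinarith
  have c1 : ∫ q, (t ^ 2 * (f q.1 - f q.2) ^ 2 + 2) ∂((gv κ).prod (gv κ)) ≤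
      ∫ q, (Real.exp (t * (f q.1 - f q.2)) + Real.exp (-t * (f q.1 - f q.2)))
        ∂((gv κ).prod (gv κ)) :=
    integral_mono ((k4.const_mul _).add (integrable_const _)) (a1.add b1) fun q => by
      have := hp (t * (f q.1 - f q.2))
      rwa [mul_pow, ← neg_mul] at this
  rw [integral_add (k4.const_mul _) (integrable_const _), integral_add a1 b1, integral_const_mul,
    k5] at c1
  simp only [integral_const, probReal_univ, one_smul] at c1
  rw [neg_sq] at b2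
  have h0 : 0 ≤ 2 * t ^ 2 * L ^ 2 := by positivity
  have c2 := Real.abs_exp_sub_one_le (x := 2 * t ^ 2 * L ^ 2) (by rwa [abs_of_nonneg h0])
  rw [abs_of_nonneg h0] at c2
  have c3 := (le_abs_self _).trans c2
  have c4 : t ^ 2 * V ≤ t ^ 2 * (4 * L ^ 2) := by linarith
  exact le_of_mul_le_mul_left c4 (by positivity)

omit [DecidableEq ι] [DecidableEq κ] in
theorem conc_var_gm {f : (ι → κ → ℝ) → ℝ} {L : ℝ}
    (hf : ∀ x y, |f x - f y| ≤ L * fro (Matrix.of x - Matrix.of y)) :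
    Integrable f (gm ι κ) ∧ Integrable (fun x => f x ^ 2) (gm ι κ) ∧
      ∫ x, (f x - ∫ y, f y ∂(gm ι κ)) ^ 2 ∂(gm ι κ) ≤ 4 * L ^ 2 := by
  set g : (ι × κ → ℝ) → ℝ := fun ω => f fun i a => ω (i, a)
  have hg : ∀ x y, |g x - g y| ≤ L * nrm (x - y) := fun x y => by
    have := hf (fun i a => x (i, a)) (fun i a => y (i, a))
    rwa [fro_eq_nrm] at this
  obtain ⟨h1, h2, h3⟩ := conc_var hg
  have hc := lip_continuous hg
  have hm := mp_uncurry (ι := ι) (κ := κ)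
  have key : ∀ F : (ι × κ → ℝ) → ℝ, Continuous F →
      ∫ x, F (fun q => x q.1 q.2) ∂(gm ι κ) = ∫ ω, F ω ∂(gv (ι × κ)) := fun F hF => by
    rw [← hm.map_eq, integral_map hm.measurable.aemeasurable hF.aestronglyMeasurable]
  refine ⟨hm.integrable_comp_of_integrable h1, hm.integrable_comp_of_integrable h2, ?_⟩
  have e1 : ∫ y, f y ∂(gm ι κ) = ∫ ω, g ω ∂(gv (ι × κ)) := key g hc
  rw [e1]
  exact (key (fun ω => (g ω - ∫ ω, g ω ∂(gv (ι × κ))) ^ 2) (by fun_prop)).trans_le h3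

omit [DecidableEq ι] [DecidableEq κ] in
theorem conc_cheb_gm {f : (ι → κ → ℝ) → ℝ} {L : ℝ}
    (hf : ∀ x y, |f x - f y| ≤ L * fro (Matrix.of x - Matrix.of y)) {t : ℝ} (ht : 0 < t) :
    gm ι κ {x | t ≤ |f x - ∫ y, f y ∂(gm ι κ)|} ≤ ENNReal.ofReal (4 * L ^ 2 / t ^ 2) := by
  obtain ⟨h1, h2, h3⟩ := conc_var_gm hf
  set m := ∫ y, f y ∂(gm ι κ)
  have j2 : Integrable (fun x => (f x - m) ^ 2) (gm ι κ) := by
    have : (fun x => (f x - m) ^ 2) = fun x => f x ^ 2 - 2 * m * f x + m ^ 2 := by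
      funext x; ring
    rw [this]
    exact (h2.sub (h1.const_mul _)).add (integrable_const _)
  have h4 : {x | t ≤ |f x - m|} ⊆ {x | t ^ 2 ≤ (f x - m) ^ 2} := fun x hx => by
    have := pow_le_pow_left₀ ht.le (show t ≤ |f x - m| from hx) 2
    rwa [sq_abs] at this
  exact (measure_mono h4).trans ((measure_ge_le j2 (fun _ => sq_nonneg _) (by positivity)).trans
    (ENNReal.ofReal_le_ofReal (div_le_div_of_nonneg_right h3 (sq_nonneg t))))

end Pool.Agent.Work.MP_6a50bc_pr
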