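import Pool.Agent.Work.MP_6a50bc_pr.GBasic

namespace Pool.Agent.Work.MP_6a50bc_pr

open MeasureTheory ProbabilityTheory Matrix Finset
open scoped ENNReal

variable {ι κ : Type*} [Fintype ι] [DecidableEq ι] [Fintype κ] [DecidableEq κ]

lemma mem_unitary_iff_orth {Q : Matrix ι ι ℝ} : Q ∈ unitary (Matrix ι ι ℝ) ↔ Orth Q := by
  rw [Unitary.mem_iff, star_eq_conjTranspose, conjTranspose_eq_transpose_of_trivial]
  exact ⟨fun h => h.1, fun h => ⟨h, h.mul_transpose⟩⟩

lemma compactSpace_unitary : CompactSpace (unitary (Matrix ι ι ℝ)) := by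
  refine isCompact_iff_compactSpace.mp ?_
  refine (isCompact_fro_le (m := ι) (n := ι) (√(Fintype.card ι))).of_isClosed_subset ?_ ?_
  · have : ((unitary (Matrix ι ι ℝ) : Set (Matrix ι ι ℝ))) = {Q | Qᵀ * Q = 1} :=
      Set.ext fun Q => mem_unitary_iff_orth
    rw [this]
    exact isClosed_eq (by fun_prop) continuous_const
  · intro Q hQ
    have h : Qᵀ * Q = 1 := mem_unitary_iff_orth.mp hQ
    show fro Q ≤ _
    rw [fro, ip_eq_trace, h, trace_one]

omit [DecidableEq κ] in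
/-- Averaging a Gaussian probability over random rotations of the points. -/
lemma gm_eq_lintegral_rot [MeasurableSpace (unitary (Matrix ι ι ℝ))]
    [BorelSpace (unitary (Matrix ι ι ℝ))] (ν : Measure (unitary (Matrix ι ι ℝ)))
    [IsProbabilityMeasure ν] {E : Set (ι → κ → ℝ)} (hE : MeasurableSet E) :
    Measurable (fun x : ι → κ → ℝ => ν {Q | (fun i a =>
        ((Q : Matrix ι ι ℝ)ᵀ * Matrix.of x : Matrix ι κ ℝ) i a) ∈ E}) ∧
      gm ι κ E = ∫⁻ x, ν {Q | (fun i a =>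
        ((Q : Matrix ι ι ℝ)ᵀ * Matrix.of x : Matrix ι κ ℝ) i a) ∈ E} ∂(gm ι κ) := by
  set Φ : unitary (Matrix ι ι ℝ) × (ι → κ → ℝ) → ι → κ → ℝ :=
    fun q i a => ((q.1 : Matrix ι ι ℝ)ᵀ * Matrix.of q.2 : Matrix ι κ ℝ) i a with hΦ
  have hc : Continuous Φ := by
    refine continuous_pi fun i => continuous_pi fun a => ?_
    simp only [hΦ, mul_apply, transpose_apply, of_apply]
    refine continuous_finsetSum _ fun j _ => Continuous.mul ?_ (by fun_prop)
    exact (continuous_subtype_val.comp continuous_fst).matrix_elem j i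
  have hm : MeasurableSet (Φ ⁻¹' E) := hc.measurable hE
  refine ⟨measurable_measure_prodMk_right hm, ?_⟩
  have h1 := Measure.prod_apply (μ := ν) (ν := gm ι κ) hm
  have h2 := Measure.prod_apply_symm (μ := ν) (ν := gm ι κ) hm
  have h3 : ∀ Q : unitary (Matrix ι ι ℝ), gm ι κ (Prod.mk Q ⁻¹' (Φ ⁻¹' E)) = gm ι κ E := fun Q =>
    (mp_left (κ := κ) (Q := (Q : Matrix ι ι ℝ)ᵀ)
      (mem_unitary_iff_orth.mp Q.2)).measure_preimage hE.nullMeasurableSet
  simp only [h3, lintegral_const, measure_univ, mul_one] at h1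
  rw [← h1, h2]
  rfl

omit [DecidableEq κ] in
/-- Comparison of two Gaussian arrays through a uniformly random rotation of the points. -/
theorem haar_compare {κ' : Type*} [Fintype κ'] {E : Set (ι → κ → ℝ)} (hE : MeasurableSet E)
    (E' G' : Set (ι → κ' → ℝ))
    (h : ∀ x, ∀ x' ∈ G', ∃ R : Matrix ι ι ℝ, Orth R ∧ ∀ Q : Matrix ι ι ℝ, Orth Q →
      (fun i a => (Qᵀ * Matrix.of x : Matrix ι κ ℝ) i a) ∈ E →
        (fun i a => (Qᵀ * R * Matrix.of x' : Matrix ι κ' ℝ) i a) ∈ E') :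
    gm ι κ E * gm ι κ' G' ≤ gm ι κ' E' := by
  have := compactSpace_unitary (ι := ι)
  let : MeasurableSpace (unitary (Matrix ι ι ℝ)) := borel _
  have : BorelSpace (unitary (Matrix ι ι ℝ)) := ⟨rfl⟩
  set ν : Measure (unitary (Matrix ι ι ℝ)) := Measure.haarMeasure ⊤ with hν
  have : IsProbabilityMeasure ν := ⟨by
    have := Measure.haarMeasure_self (G := unitary (Matrix ι ι ℝ)) (K₀ := ⊤)
    simpa using this⟩
  set E'' := toMeasurable (gm ι κ') E'
  obtain ⟨-, h1⟩ := gm_eq_lintegral_rot ν hE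
  obtain ⟨h2, h3⟩ := gm_eq_lintegral_rot ν (measurableSet_toMeasurable (gm ι κ') E')
  rw [← measure_toMeasurable E', h3]
  refine le_trans ?_ (mul_meas_ge_le_lintegral h2 (gm ι κ E))
  gcongr
  intro x' hx'
  rw [Set.mem_ofPred_eq, h1]
  refine (lintegral_mono (g := fun _ => ν {Q | (fun i a =>
    ((Q : Matrix ι ι ℝ)ᵀ * Matrix.of x' : Matrix ι κ' ℝ) i a) ∈ E''}) fun x => ?_).trans
    (by rw [lintegral_const, measure_univ, mul_one])
  obtain ⟨R, hR, hRQ⟩ := h x x' hx'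
  set R' : unitary (Matrix ι ι ℝ) := ⟨Rᵀ, mem_unitary_iff_orth.mpr hR.transpose⟩
  rw [← measure_preimage_mul ν R' {Q | (fun i a =>
    ((Q : Matrix ι ι ℝ)ᵀ * Matrix.of x' : Matrix ι κ' ℝ) i a) ∈ E''}]
  refine measure_mono fun Q hQ => subset_toMeasurable _ _ ?_
  have := hRQ Q (mem_unitary_iff_orth.mp Q.2) hQ
  simpa [R', transpose_mul] using this

omit [DecidableEq ι] in
lemma exists_isometry {O : Matrix ι κ ℝ} (hO : Orth O) :
    ∃ f : EuclideanSpace ℝ κ →ₗᵢ[ℝ] EuclideanSpace ℝ ι,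
      ∀ v : κ → ℝ, f (WithLp.toLp 2 v) = WithLp.toLp 2 (O *ᵥ v) :=
  ⟨{ Matrix.toEuclideanLin O with
      norm_map' := fun v => by
        have := hO.nrm_mulVec v.ofLp
        rwa [nrm_eq_norm, nrm_eq_norm] at this }, fun _ => rfl⟩

theorem exists_orth_extend {O O' : Matrix ι κ ℝ} (hO : Orth O) (hO' : Orth O') :
    ∃ R : Matrix ι ι ℝ, Orth R ∧ R * O' = O := by
  obtain ⟨f, hf⟩ := exists_isometry hO
  obtain ⟨f', hf'⟩ := exists_isometry hO'
  set L := (f.comp f'.equivRange.symm.toLinearIsometry).extend with hL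
  set R : Matrix ι ι ℝ := Matrix.toEuclideanLin.symm L.toLinearMap with hR
  have h1 : ∀ v : ι → ℝ, L (WithLp.toLp 2 v) = WithLp.toLp 2 (R *ᵥ v) := fun v => by
    have : Matrix.toEuclideanLin R = L.toLinearMap := by rw [hR, LinearEquiv.apply_symm_apply]
    exact (LinearMap.congr_fun this (WithLp.toLp 2 v)).symm
  refine ⟨R, ?_, ?_⟩
  · ext i j
    have h2 := L.inner_map_map (WithLp.toLp 2 (Pi.single i 1)) (WithLp.toLp 2 (Pi.single j 1))
    rw [h1, h1, ← dot_eq_inner, ← dot_eq_inner] at h2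
    simpa [mul_apply, dotProduct, one_apply, Pi.single_apply, eq_comm] using h2
  · refine Matrix.ext_of_mulVec_single fun k => ?_
    have h2 := (f.comp f'.equivRange.symm.toLinearIsometry).extend_apply
      (f'.equivRange (WithLp.toLp 2 (Pi.single k 1)))
    have h3 : ((f'.equivRange (WithLp.toLp 2 (Pi.single k 1)) : _) : EuclideanSpace ℝ ι) =
        WithLp.toLp 2 (O' *ᵥ Pi.single k 1) := hf' _
    rw [← hL, h3, h1] at h2
    simp only [LinearIsometry.coe_comp, Function.comp_apply,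
      LinearIsometryEquiv.coe_toLinearIsometry, LinearIsometryEquiv.symm_apply_apply, hf] at h2
    rw [← mulVec_mulVec]
    exact WithLp.toLp_injective 2 h2

end Pool.Agent.Work.MP_6a50bc_pr
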