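import Pool.Agent.Work.MP_6a50bc_pr.Quad

namespace Pool.Agent.Work.MP_6a50bc_pr

open MeasureTheory ProbabilityTheory Matrix Finset
open scoped ENNReal

variable {ι κ : Type*} [Fintype ι] [DecidableEq ι] [Fintype κ] [DecidableEq κ]

omit [DecidableEq ι] in
/-- Grid nets inside an arbitrary bounded set. -/
theorem exists_net {α : Type*} (enc : α → ι → ℝ) (A : Set α) {M η : ℝ} (hM : 0 ≤ M) (hη : 0 < η)
    (hA : ∀ a ∈ A, ∀ i, |enc a i| ≤ M) :
    ∃ N : Finset α, (∀ b ∈ N, b ∈ A) ∧ (N.card : ℝ) ≤ (2 * M / η + 2) ^ Fintype.card ι ∧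
      ∀ a ∈ A, ∃ b ∈ N, ∀ i, |enc a i - enc b i| ≤ η := by
  classical
  rcases A.eq_empty_or_nonempty with rfl | ⟨a₀, ha₀⟩
  · exact ⟨∅, by simp, by simp only [card_empty, Nat.cast_zero]; positivity, by simp⟩
  set cell : α → ι → ℤ := fun a i => ⌊enc a i / η⌋ with hcell
  set F : Finset (ι → ℤ) := Fintype.piFinset fun _ => Finset.Icc ⌊-M / η⌋ ⌊M / η⌋ with hF
  have hpick : ∀ c : ι → ℤ, ∃ b ∈ A, (∃ a ∈ A, cell a = c) → cell b = c := fun c => by
    by_cases h : ∃ a ∈ A, cell a = c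
    · obtain ⟨a, ha, h⟩ := h
      exact ⟨a, ha, fun _ => h⟩
    · exact ⟨a₀, ha₀, fun h' => absurd h' h⟩
  choose pick hp1 hp2 using hpick
  refine ⟨F.image pick, fun b hb => ?_, ?_, fun a ha => ⟨pick (cell a), ?_, fun i => ?_⟩⟩
  · obtain ⟨c, -, rfl⟩ := mem_image.mp hb
    exact hp1 c
  · have h1 : ((Finset.Icc ⌊-M / η⌋ ⌊M / η⌋).card : ℝ) ≤ 2 * M / η + 2 := by
      have h2 : ⌊-M / η⌋ ≤ ⌊M / η⌋ + 1 := by
        have := Int.floor_mono (div_le_div_of_nonneg_right (neg_le_self hM) hη.le)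
        omega
      have h3 : (((Finset.Icc ⌊-M / η⌋ ⌊M / η⌋).card : ℤ) : ℝ) =
          ((⌊M / η⌋ + 1 - ⌊-M / η⌋ : ℤ) : ℝ) := by rw [Int.card_Icc_of_le _ _ h2]
      have h4 := Int.floor_le (M / η)
      have h5 := Int.lt_floor_add_one (-M / η)
      push_cast at h3
      rw [h3, mul_div_assoc]
      rw [neg_div] at h5 ⊢
      linarith
    calc ((F.image pick).card : ℝ) ≤ F.card := Nat.cast_le.mpr card_image_le
      _ = ((Finset.Icc ⌊-M / η⌋ ⌊M / η⌋).card : ℝ) ^ Fintype.card ι := by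
        rw [hF, Fintype.card_piFinset, prod_const, card_univ, Nat.cast_pow]
      _ ≤ _ := pow_le_pow_left₀ (Nat.cast_nonneg _) h1 _
  · refine mem_image_of_mem _ (Fintype.mem_piFinset.mpr fun i => Finset.mem_Icc.mpr ⟨?_, ?_⟩)
    · exact Int.floor_mono (div_le_div_of_nonneg_right (abs_le.mp (hA a ha i)).1 hη.le)
    · exact Int.floor_mono (div_le_div_of_nonneg_right (abs_le.mp (hA a ha i)).2 hη.le)
  · have h1 := congrFun (hp2 (cell a) ⟨a, ha, rfl⟩) i
    have h2 := Int.abs_sub_lt_one_of_floor_eq_floor h1.symm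
    rw [← sub_div, abs_div, abs_of_pos hη, div_lt_one hη] at h2
    exact h2.le

omit [DecidableEq κ] in
/-- Nets of the unit sphere of any precision. -/
theorem exists_sphere_net' [Nonempty κ] {η : ℝ} (hη : 0 < η) :
    ∃ N : Finset (κ → ℝ), (∀ w ∈ N, nrm w = 1) ∧
      (N.card : ℝ) ≤ (2 * √(Fintype.card κ) / η + 2) ^ Fintype.card κ ∧
      ∀ v, nrm v = 1 → ∃ w ∈ N, nrm (v - w) ≤ η := by
  have hd : 0 < √(Fintype.card κ) := Real.sqrt_pos.mpr (Nat.cast_pos.mpr Fintype.card_pos)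
  obtain ⟨N, h1, h2, h3⟩ := exists_net (ι := κ) (fun v : κ → ℝ => v) {v | nrm v = 1}
    zero_le_one (div_pos hη hd) fun v hv i => (abs_le_nrm v i).trans (le_of_eq hv)
  refine ⟨N, h1, h2.trans (le_of_eq ?_), fun v hv => ?_⟩
  · congr 2
    field_simp
  · obtain ⟨w, hw, h⟩ := h3 v hv
    refine ⟨w, hw, (nrm_le_of_abs_le (div_pos hη hd).le h).trans (le_of_eq ?_)⟩
    field_simp

omit [DecidableEq κ] in
theorem exists_sphere_net :
    ∃ N : Finset (κ → ℝ), (∀ w ∈ N, nrm w = 1) ∧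
      (N.card : ℝ) ≤ (16 * √(Fintype.card κ) + 2) ^ Fintype.card κ ∧
      ∀ v, nrm v = 1 → ∃ w ∈ N, nrm (v - w) ≤ 1 / 8 := by
  rcases isEmpty_or_nonempty κ with h | h
  · refine ⟨∅, by simp, by simp, fun v hv => ?_⟩
    rw [Subsingleton.elim v 0, nrm_zero] at hv
    exact absurd hv zero_ne_one
  · obtain ⟨N, h1, h2, h3⟩ := exists_sphere_net' (κ := κ) (η := 1 / 8) (by norm_num)
    refine ⟨N, h1, h2.trans (le_of_eq ?_), h3⟩
    congr 2
    ring

theorem opn_le_of_net {M : Matrix κ κ ℝ} (hM : M.IsHermitian) {N : Finset (κ → ℝ)}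
    (hN : ∀ w ∈ N, nrm w = 1) (hN' : ∀ v, nrm v = 1 → ∃ w ∈ N, nrm (v - w) ≤ 1 / 8) {c : ℝ}
    (hc : 0 ≤ c) (h : ∀ w ∈ N, |qf M w| ≤ c) : opn M ≤ 2 * c := by
  have h0 := opn_nonneg M
  have key : ∀ v, nrm v = 1 → |qf M v| ≤ c + opn M / 4 := fun v hv => by
    obtain ⟨w, hw, hvw⟩ := hN' v hv
    have h1 := abs_dot_mulVec_le M (v - w) (v + w)
    rw [← qf_sub_qf hM] at h1
    have h2 : nrm (v + w) ≤ 2 := by linarith [nrm_add_le v w, hN w hw]
    have h3 : opn M * nrm (v - w) * nrm (v + w) ≤ opn M * (1 / 8) * 2 :=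
      mul_le_mul (mul_le_mul_of_nonneg_left hvw h0) h2 (nrm_nonneg _) (by positivity)
    have h4 := abs_sub_abs_le_abs_sub (qf M v) (qf M w)
    linarith [h w hw]
  have h1 : opn M ≤ c + opn M / 4 := by
    obtain ⟨U, l, hU, hS⟩ := exists_spec hM
    conv_lhs => rw [hS]
    refine opn_spec_le hU (by positivity) fun j => ?_
    have := key (Uᵀ j) (nrm_eq_one_iff.mpr (hU.col_dot_self j))
    rwa [hS, qf_spec_col hU, ← hS] at this
  linarith

omit [DecidableEq ι] in
lemma qf_gram_dev {w : κ → ℝ} (hw : nrm w = 1) (x : ι → κ → ℝ) :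
    qf (gram 1 x - (Fintype.card ι : ℝ) • (1 : Matrix κ κ ℝ)) w =
      ∑ i, cq (vecMulVec w w) (x i) := by
  have h := nrm_eq_one_iff.mp hw
  simp only [qf_sub, qf_gram, qf_smul, qf_one, h, cq, qf_vecMulVec, trace_vecMulVec,
    sum_sub_distrib, Pi.one_apply, one_mul, sq, dotProduct_comm w]
  simp

omit [Fintype κ] [DecidableEq κ] in
lemma vecMulVec_self_isHermitian (w : κ → ℝ) : (vecMulVec w w).IsHermitian := by
  rw [isHermitian_iff, transpose_vecMulVec]

omit [DecidableEq ι] in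
lemma gram_dev_mgf {w : κ → ℝ} (hw : nrm w = 1) {t : ℝ} (ht : |t| ≤ 1 / 4) :
    Integrable (fun x : ι → κ → ℝ =>
      Real.exp (t * qf (gram 1 x - (Fintype.card ι : ℝ) • (1 : Matrix κ κ ℝ)) w)) (gm ι κ) ∧
    ∫ x, Real.exp (t * qf (gram 1 x - (Fintype.card ι : ℝ) • (1 : Matrix κ κ ℝ)) w) ∂(gm ι κ) ≤
      Real.exp (2 * t ^ 2 * Fintype.card ι) := by
  have hf : fro (vecMulVec w w) = 1 := by rw [fro_vecMulVec, hw, one_mul]
  have ht' : |t| * fro (vecMulVec w w) ≤ 1 / 4 := by rwa [hf, mul_one]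
  have h1 := integrable_exp_cq (vecMulVec_self_isHermitian w) ht'
  have h2 := integral_exp_cq_le (vecMulVec_self_isHermitian w) ht'
  rw [hf, one_pow, mul_one] at h2
  simp only [qf_gram_dev hw, mul_sum, Real.exp_sum]
  refine ⟨Integrable.fintype_prod (f := fun _ g => Real.exp (t * cq (vecMulVec w w) g))
    fun _ => h1, ?_⟩
  rw [gm, integral_fintype_prod_eq_prod (fun _ g => Real.exp (t * cq (vecMulVec w w) g)),
    prod_const, card_univ, mul_comm _ (Fintype.card ι : ℝ), Real.exp_nat_mul]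
  exact pow_le_pow_left₀ (integral_nonneg fun _ => (Real.exp_pos _).le) h2 _

omit [DecidableEq κ] in
lemma card_net_le {ρ : ℝ} (hlog : Real.log (16 * √(Fintype.card κ) + 2) ≤ ρ) {m : ℝ}
    (h : m ≤ (16 * √(Fintype.card κ) + 2) ^ Fintype.card κ) :
    m ≤ Real.exp (Fintype.card κ * ρ) := by
  rw [Real.exp_nat_mul]
  refine h.trans (pow_le_pow_left₀ (by positivity) ?_ _)
  rwa [Real.log_le_iff_le_exp (by positivity)] at hlog

/-- The choice of the exponential parameter. -/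
lemma lam_facts {n D : ℝ} (hD : 0 < D) (hn : D ≤ n) :
    0 < √(n * D) / (4 * n) ∧ √(n * D) / (4 * n) ≤ 1 / 4 ∧
      2 * (√(n * D) / (4 * n)) ^ 2 * n = D / 8 ∧ √(n * D) / (4 * n) * √(n * D) = D / 4 := by
  have hn0 : 0 < n := hD.trans_le hn
  have hs : √(n * D) * √(n * D) = n * D := Real.mul_self_sqrt (by positivity)
  refine ⟨by positivity, ?_, ?_, ?_⟩
  · have : √(n * D) ≤ n := Real.sqrt_le_iff.mpr ⟨hn0.le, by nlinarith⟩
    rw [div_le_iff₀ (by positivity)]
    linarith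
  · rw [div_pow, Real.sq_sqrt (by positivity)]
    field_simp
    ring
  · rw [div_mul_eq_mul_div, hs]
    field_simp

theorem gram_dev_tail {ρ : ℝ} (hlog : Real.log (16 * √(Fintype.card κ) + 2) ≤ ρ)
    (hn : Fintype.card κ * ρ ≤ Fintype.card ι) :
    gm ι κ {x | 18 * √(Fintype.card ι * Fintype.card κ * ρ) <
        opn (gram 1 x - (Fintype.card ι : ℝ) • (1 : Matrix κ κ ℝ))} ≤
      ENNReal.ofReal (2 * Real.exp (-(Fintype.card κ * ρ))) := by
  set D : ℝ := Fintype.card κ * ρ with hDdef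
  rcases le_or_gt D 0 with hD | hD
  · refine prob_le_one.trans (ENNReal.one_le_ofReal.mpr ?_)
    have := Real.one_le_exp (neg_nonneg.mpr hD)
    linarith
  obtain ⟨N, hN1, hN2, hN3⟩ := exists_sphere_net (κ := κ)
  have hcard := card_net_le hlog hN2
  obtain ⟨hl0, hl1, hl2, hl3⟩ := lam_facts hD hn
  rw [mul_assoc (Fintype.card ι : ℝ), ← hDdef]
  set s := √(Fintype.card ι * D) with hs
  set lam := s / (4 * Fintype.card ι) with hlam
  set Z : (κ → ℝ) → (ι → κ → ℝ) → ℝ :=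
    fun w x => qf (gram 1 x - (Fintype.card ι : ℝ) • (1 : Matrix κ κ ℝ)) w with hZ
  have hone : ∀ w ∈ N, ∀ t : ℝ, |t| = lam →
      gm ι κ {x | Real.exp (9 * D / 4) ≤ Real.exp (t * Z w x)} ≤
        ENNReal.ofReal (Real.exp (-(2 * D))) := fun w hw t ht => by
    obtain ⟨h1, h2⟩ := gram_dev_mgf (ι := ι) (hN1 w hw) (t := t) (ht.le.trans hl1)
    refine (measure_ge_le h1 (fun _ => (Real.exp_pos _).le) (Real.exp_pos _)).trans
      (ENNReal.ofReal_le_ofReal ?_)
    rw [div_le_iff₀ (Real.exp_pos _), ← Real.exp_add]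
    rw [← sq_abs, ht, hl2] at h2
    exact h2.trans (Real.exp_le_exp.mpr (by linarith))
  have hsub : {x | 18 * s < opn (gram 1 x - (Fintype.card ι : ℝ) • (1 : Matrix κ κ ℝ))} ⊆
      ⋃ w ∈ N, ({x | Real.exp (9 * D / 4) ≤ Real.exp (lam * Z w x)} ∪
        {x | Real.exp (9 * D / 4) ≤ Real.exp (-lam * Z w x)}) := fun x hx => by
    by_contra hc
    simp only [Set.mem_iUnion, Set.mem_union, Set.mem_ofPred_eq, Real.exp_le_exp, not_exists,
      not_or, not_le] at hc
    have hH : (gram 1 x - (Fintype.card ι : ℝ) • (1 : Matrix κ κ ℝ)).IsHermitian := by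
      rw [isHermitian_iff, transpose_sub, transpose_smul, transpose_one,
        isHermitian_iff.mp (gram_isHermitian _ _)]
    have h1 := opn_le_of_net hH hN1 hN3 (c := 9 * s) (by positivity) fun w hw => by
      obtain ⟨h2, h3⟩ := hc w hw
      refine abs_le.mpr ⟨?_, ?_⟩
      · refine le_of_mul_le_mul_left ?_ hl0
        change lam * -(9 * s) ≤ lam * Z w x
        linarith
      · refine le_of_mul_le_mul_left ?_ hl0
        change lam * Z w x ≤ lam * (9 * s)
        linarith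
    have h2 : 18 * s < opn (gram 1 x - (Fintype.card ι : ℝ) • (1 : Matrix κ κ ℝ)) := hx
    linarith
  refine (measure_mono hsub).trans ((measure_biUnion_finset_le _ _).trans ?_)
  refine (sum_le_card_nsmul N _ (ENNReal.ofReal (2 * Real.exp (-(2 * D)))) fun w hw => ?_).trans ?_
  · refine (measure_union_le _ _).trans ?_
    rw [two_mul, ENNReal.ofReal_add (Real.exp_pos _).le (Real.exp_pos _).le]
    exact add_le_add (hone w hw lam (abs_of_pos hl0))
      (hone w hw (-lam) (by rw [abs_neg, abs_of_pos hl0]))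
  · rw [nsmul_eq_mul, ← ENNReal.ofReal_natCast, ← ENNReal.ofReal_mul (Nat.cast_nonneg _)]
    refine ENNReal.ofReal_le_ofReal ?_
    have h1 : Real.exp (-D) = Real.exp D * Real.exp (-(2 * D)) := by
      rw [← Real.exp_add]; congr 1; ring
    rw [h1]
    nlinarith [mul_le_mul_of_nonneg_right hcard (Real.exp_pos (-(2 * D))).le]

omit [Fintype ι] [DecidableEq ι] in
lemma opn_of_isEmpty_right {m : Type*} [Fintype m] [IsEmpty κ] (A : Matrix m κ ℝ) : opn A = 0 :=
  le_antisymm ((opn_le_fro A).trans (by simp [fro, ip])) (opn_nonneg A)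

omit [Fintype ι] [DecidableEq ι] in
lemma opn_of_isEmpty_left {m : Type*} [Fintype m] [IsEmpty m] (A : Matrix m κ ℝ) : opn A = 0 :=
  le_antisymm ((opn_le_fro A).trans (by simp [fro, ip])) (opn_nonneg A)

omit [Fintype ι] [DecidableEq ι] in
lemma exists_unit [Nonempty κ] : ∃ v : κ → ℝ, nrm v = 1 :=
  ⟨Pi.single (Classical.arbitrary κ) 1, nrm_eq_one_iff.mpr (by simp)⟩

theorem gram_dev_integral {ρ : ℝ} (hρ : 1 ≤ ρ) (hlog : Real.log (16 * √(Fintype.card κ) + 2) ≤ ρ)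
    (hn : Fintype.card κ * ρ ≤ Fintype.card ι) :
    Integrable (fun x : ι → κ → ℝ => opn (gram 1 x - (Fintype.card ι : ℝ) • (1 : Matrix κ κ ℝ)))
        (gm ι κ) ∧
      ∫ x, opn (gram 1 x - (Fintype.card ι : ℝ) • (1 : Matrix κ κ ℝ)) ∂(gm ι κ) ≤
        20 * √(Fintype.card ι * Fintype.card κ * ρ) := by
  rcases isEmpty_or_nonempty κ with hκ | hκ
  · simp [opn_of_isEmpty_right]
  set D : ℝ := Fintype.card κ * ρ with hDdef
  have hD1 : 1 ≤ D := one_le_mul_of_one_le_of_one_le (Nat.one_le_cast.mpr Fintype.card_pos) hρ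
  have hD : 0 < D := by linarith
  obtain ⟨N, hN1, hN2, hN3⟩ := exists_sphere_net (κ := κ)
  have hcard := card_net_le hlog hN2
  obtain ⟨hl0, hl1, hl2, hl3⟩ := lam_facts hD hn
  rw [mul_assoc (Fintype.card ι : ℝ), ← hDdef]
  set s := √(Fintype.card ι * D) with hs
  set lam := s / (4 * Fintype.card ι) with hlam
  obtain ⟨v₀, hv₀⟩ := exists_unit (κ := κ)
  obtain ⟨w₀, hw₀, -⟩ := hN3 v₀ hv₀
  have : Nonempty N := ⟨⟨w₀, hw₀⟩⟩
  set X : N × Bool → (ι → κ → ℝ) → ℝ := fun a x => (if a.2 then 1 else -1) *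
    qf (gram 1 x - (Fintype.card ι : ℝ) • (1 : Matrix κ κ ℝ)) a.1 with hX
  have hmgf : ∀ a : N × Bool, Integrable (fun x => Real.exp (lam * X a x)) (gm ι κ) ∧
      ∫ x, Real.exp (lam * X a x) ∂(gm ι κ) ≤ Real.exp (D / 8) := fun a => by
    have ht : |lam * (if a.2 then 1 else -1)| = lam := by
      split_ifs <;> simp [abs_of_pos hl0]
    have h := gram_dev_mgf (ι := ι) (hN1 _ a.1.2) (ht.le.trans hl1)
    rw [← sq_abs, ht, hl2] at h
    simpa only [hX, mul_assoc] using h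
  have hint : ∀ a : N × Bool, Integrable (X a) (gm ι κ) := fun a => by
    refine Integrable.const_mul ?_ _
    simp only [qf_gram_dev (hN1 _ a.1.2)]
    refine integrable_finsetSum _ fun i _ => ?_
    have := (mp_eval (ι := ι) i).integrable_comp_of_integrable
      (integrable_cq_pow (vecMulVec a.1.1 a.1.1) 1)
    simp only [pow_one] at this
    exact this
  obtain ⟨h1, h2⟩ := integral_iSup_le hint hl0 (fun a => (hmgf a).1) fun a => (hmgf a).2
  have hle : ∀ x : ι → κ → ℝ,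
      opn (gram 1 x - (Fintype.card ι : ℝ) • (1 : Matrix κ κ ℝ)) ≤ 2 * ⨆ a, X a x := fun x => by
    have hH : (gram 1 x - (Fintype.card ι : ℝ) • (1 : Matrix κ κ ℝ)).IsHermitian := by
      rw [isHermitian_iff, transpose_sub, transpose_smul, transpose_one,
        isHermitian_iff.mp (gram_isHermitian _ _)]
    have h3 : ∀ w ∈ N, |qf (gram 1 x - (Fintype.card ι : ℝ) • (1 : Matrix κ κ ℝ)) w| ≤
        ⨆ a, X a x := fun w hw => by
      have h4 := Finite.le_ciSup (fun a => X a x) (⟨w, hw⟩, true)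
      have h5 := Finite.le_ciSup (fun a => X a x) (⟨w, hw⟩, false)
      simp only [hX, if_true, Bool.false_eq_true, if_false, one_mul, neg_mul] at h4 h5 ⊢
      exact abs_le.mpr ⟨by linarith, h4⟩
    exact opn_le_of_net hH hN1 hN3 ((abs_nonneg _).trans (h3 w₀ hw₀)) h3
  have hI : Integrable
      (fun x : ι → κ → ℝ => opn (gram 1 x - (Fintype.card ι : ℝ) • (1 : Matrix κ κ ℝ)))
      (gm ι κ) := by
    refine (h1.const_mul 2).mono' (Continuous.aestronglyMeasurable (by fun_prop))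
      (Filter.Eventually.of_forall fun x => ?_)
    rw [Real.norm_eq_abs, abs_of_nonneg (opn_nonneg _)]
    exact hle x
  refine ⟨hI, (integral_mono hI (h1.const_mul 2) hle).trans ?_⟩
  rw [integral_const_mul]
  have h3 : Real.log (Fintype.card (N × Bool)) ≤ 2 * D := by
    rw [Fintype.card_prod, Fintype.card_coe, Fintype.card_bool,
      Real.log_le_iff_le_exp (by have := card_pos.mpr ⟨w₀, hw₀⟩; positivity), two_mul,
      Real.exp_add, Nat.cast_mul]
    refine mul_le_mul hcard ?_ (Nat.cast_nonneg _) (Real.exp_pos _).le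
    have := Real.add_one_le_exp D
    push_cast
    linarith
  have h4 : (Real.log (Fintype.card (N × Bool)) + D / 8) / lam ≤ 10 * s := by
    rw [div_le_iff₀ hl0]
    linarith
  linarith

end Pool.Agent.Work.MP_6a50bc_pr
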