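import Pool.Agent.Work.MP_6a50bc_pr.QuadAux

namespace Pool.Agent.Work.MP_6a50bc_pr

open MeasureTheory ProbabilityTheory Matrix Finset
open scoped ENNReal

variable {ι κ : Type*} [Fintype ι] [DecidableEq ι] [Fintype κ] [DecidableEq κ]

set_option linter.unusedSectionVars false

/-! Moments and tails of Gaussian quadratic forms. -/

lemma integrable_cq_pow (S : Matrix κ κ ℝ) (k : ℕ) : Integrable (fun g => cq S g ^ k) (gv κ) := by
  refine integrable_of_le_pow (Continuous.aestronglyMeasurable (by fun_prop))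
    ((fro S * (1 + √(Fintype.card κ))) ^ k) (2 * k) fun g => ?_
  rw [abs_pow, pow_mul, ← mul_pow]
  refine pow_le_pow_left₀ (abs_nonneg _) ((abs_cq_le S g).trans ?_) k
  rw [mul_assoc, ← nrm_sq]
  refine mul_le_mul_of_nonneg_left ?_ (fro_nonneg S)
  have h1 := nrm_nonneg g
  have h2 := Real.sqrt_nonneg (Fintype.card κ : ℝ)
  nlinarith [mul_nonneg h1 h2, mul_nonneg (mul_nonneg h1 h1) h2]

lemma integrable_cq (S : Matrix κ κ ℝ) : Integrable (fun g => cq S g) (gv κ) := by
  simpa using integrable_cq_pow S 1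

lemma integral_cq (S : Matrix κ κ ℝ) : ∫ g, cq S g ∂(gv κ) = 0 := by
  have e : ∀ g : κ → ℝ, cq S g = ∑ a, ∑ b, S a b * (id (g a) * id (g b)) - S.trace := by
    intro g
    simp only [cq, qf, dotProduct, mulVec, mul_sum, id]
    congr 1
    exact sum_congr rfl fun a _ => sum_congr rfl fun b _ => by ring
  have i1 : ∀ a b : κ, Integrable (fun g : κ → ℝ => S a b * (id (g a) * id (g b))) (gv κ) :=
    fun a b => (integrable_eval_mul measurable_id (g1_integrable_pow 2) a b).const_mul _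
  simp only [e]
  rw [integral_sub (integrable_finsetSum _ fun a _ => integrable_finsetSum _ fun b _ => i1 a b)
    (integrable_const _), integral_finsetSum _ fun a _ => integrable_finsetSum _ fun b _ => i1 a b]
  have h : ∀ a, ∫ g, ∑ b, S a b * (id (g a) * id (g b)) ∂(gv κ) = S a a := by
    intro a
    rw [integral_finsetSum _ fun b _ => i1 a b]
    simp only [integral_const_mul, integral_eval_mul measurable_id integral_id_gaussianReal]
    simp [g1_sq]
  simp only [h]
  simp [trace]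

lemma cq_spec {U : Matrix κ κ ℝ} (hU : Orth U) (l : κ → ℝ) (g : κ → ℝ) :
    cq (spec U l) g = ∑ j, l j * ((Uᵀ *ᵥ g) j ^ 2 - 1) := by
  simp only [cq, qf_spec, trace_spec hU, mul_sub, mul_one, sum_sub_distrib]

lemma mp_orth {U : Matrix κ κ ℝ} (hU : Orth U) :
    MeasurePreserving (fun g => Uᵀ *ᵥ g) (gv κ) (gv κ) := mp_mulVec (A := Uᵀ) hU

lemma integral_cq_sq {S : Matrix κ κ ℝ} (hS : S.IsHermitian) :
    ∫ g, cq S g ^ 2 ∂(gv κ) = 2 * fro S ^ 2 := by
  obtain ⟨U, l, hU, rfl⟩ := exists_spec hS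
  simp only [cq_spec hU]
  rw [integral_mp (mp_orth hU) (F := fun z => (∑ j, l j * (z j ^ 2 - 1)) ^ 2)
    (Continuous.aestronglyMeasurable (by fun_prop)),
    integral_sum_sq (φ := fun z => z ^ 2 - 1) (by fun_prop) g1_chi g1_chi_sq_integrable,
    g1_chi_sq, fro_spec hU, nrm_sq]

lemma exp_cq_both {S : Matrix κ κ ℝ} (hS : S.IsHermitian) {t : ℝ} (ht : |t| * fro S ≤ 1 / 4) :
    Integrable (fun g => Real.exp (t * cq S g)) (gv κ) ∧
      ∫ g, Real.exp (t * cq S g) ∂(gv κ) ≤ Real.exp (2 * t ^ 2 * fro S ^ 2) := by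
  obtain ⟨U, l, hU, rfl⟩ := exists_spec hS
  rw [fro_spec hU] at ht ⊢
  obtain ⟨h1, h2⟩ := exp_sum_chi (l := t • l) fun j => by
    rw [Pi.smul_apply, smul_eq_mul, abs_mul]
    exact (mul_le_mul_of_nonneg_left (abs_le_nrm l j) (abs_nonneg t)).trans ht
  have e : ∀ g, t * cq (spec U l) g = ∑ j, (t • l) j * ((Uᵀ *ᵥ g) j ^ 2 - 1) := fun g => by
    simp only [cq_spec hU, mul_sum, Pi.smul_apply, smul_eq_mul, mul_assoc]
  simp only [e]
  refine ⟨(mp_orth hU).integrable_comp_of_integrable h1, ?_⟩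
  rw [integral_mp (mp_orth hU) h1.aestronglyMeasurable]
  refine h2.trans_eq ?_
  rw [nrm_sq, smul_dotProduct, dotProduct_smul, smul_eq_mul, smul_eq_mul]
  congr 1; ring

lemma integrable_exp_cq {S : Matrix κ κ ℝ} (hS : S.IsHermitian) {t : ℝ} (ht : |t| * fro S ≤ 1 / 4) :
    Integrable (fun g => Real.exp (t * cq S g)) (gv κ) :=
  (exp_cq_both hS ht).1

lemma integral_exp_cq_le {S : Matrix κ κ ℝ} (hS : S.IsHermitian) {t : ℝ}
    (ht : |t| * fro S ≤ 1 / 4) :
    ∫ g, Real.exp (t * cq S g) ∂(gv κ) ≤ Real.exp (2 * t ^ 2 * fro S ^ 2) :=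
  (exp_cq_both hS ht).2

lemma cosh_cq {S : Matrix κ κ ℝ} (hS : S.IsHermitian) (h : 0 < fro S) :
    Integrable (fun g => Real.exp (cq S g / (4 * fro S)) + Real.exp (-(cq S g / (4 * fro S))))
      (gv κ) ∧
    ∫ g, (Real.exp (cq S g / (4 * fro S)) + Real.exp (-(cq S g / (4 * fro S)))) ∂(gv κ) ≤
      16 / 7 := by
  have a : |1 / (4 * fro S)| * fro S ≤ 1 / 4 := by
    rw [abs_of_pos (by positivity)]; exact le_of_eq (by field_simp)
  obtain ⟨h1, h2⟩ := exp_cq_both hS a
  obtain ⟨h3, h4⟩ := exp_cq_both hS (t := -(1 / (4 * fro S))) (by rwa [abs_neg])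
  have e1 : ∀ g, cq S g / (4 * fro S) = 1 / (4 * fro S) * cq S g := fun g => by ring
  have e2 : 2 * (1 / (4 * fro S)) ^ 2 * fro S ^ 2 = 1 / 8 := by field_simp; norm_num
  rw [neg_sq] at h4
  rw [e2] at h2 h4
  simp only [e1, ← neg_mul]
  refine ⟨h1.add h3, ?_⟩
  rw [integral_add h1 h3]
  linarith [exp_eighth_le]

lemma integral_cq_four_le {S : Matrix κ κ ℝ} (hS : S.IsHermitian) :
    ∫ g, cq S g ^ 4 ∂(gv κ) ≤ 10 ^ 4 * fro S ^ 4 := by
  rcases (fro_nonneg S).eq_or_lt with h | h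
  · obtain rfl := fro_eq_zero.1 h.symm
    simp [cq]
  obtain ⟨h1, h2⟩ := cosh_cq hS h
  have h3 := integral_mono (integrable_cq_pow S 4) (h1.const_mul (12 * (4 * fro S) ^ 4))
    fun g => by
      have := mul_le_mul_of_nonneg_left (pow_four_le_exp (cq S g / (4 * fro S)))
        (by positivity : 0 ≤ (4 * fro S) ^ 4)
      rw [← mul_pow, mul_div_cancel₀ _ (by positivity)] at this
      exact this.trans_eq (by ring)
  rw [integral_const_mul] at h3
  have h4 := mul_le_mul_of_nonneg_left h2 (by positivity : 0 ≤ 12 * (4 * fro S) ^ 4)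
  have h5 : 0 ≤ fro S ^ 4 := by positivity
  nlinarith

lemma tail_cq {S : Matrix κ κ ℝ} (hS : S.IsHermitian) (t : ℝ) :
    gv κ {g | t * fro S < |cq S g|} ≤ ENNReal.ofReal (3 * Real.exp (-t / 4)) := by
  rcases (fro_nonneg S).eq_or_lt with h | h
  · obtain rfl := fro_eq_zero.1 h.symm
    simp [cq]
  obtain ⟨h1, h2⟩ := cosh_cq hS h
  have h3 := measure_ge_le h1 (fun g => by positivity) (Real.exp_pos (t / 4))
  refine le_trans (measure_mono fun g hg => ?_) (h3.trans (ENNReal.ofReal_le_ofReal ?_))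
  · have h4 : t / 4 ≤ |cq S g / (4 * fro S)| := by
      rw [abs_div, abs_of_pos (by positivity : 0 < 4 * fro S), le_div_iff₀ (by positivity)]
      have : t * fro S < |cq S g| := hg
      linarith
    have h5 := Real.exp_le_exp.2 h4
    show Real.exp (t / 4) ≤ _
    rcases abs_choice (cq S g / (4 * fro S)) with h | h <;> rw [h] at h5 <;>
      linarith [Real.exp_pos (cq S g / (4 * fro S)), Real.exp_pos (-(cq S g / (4 * fro S)))]
  · rw [div_eq_mul_inv, ← Real.exp_neg, neg_div]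
    exact mul_le_mul_of_nonneg_right (by linarith) (Real.exp_pos _).le

lemma cq_one (g : κ → ℝ) : cq (1 : Matrix κ κ ℝ) g = g ⬝ᵥ g - Fintype.card κ := by
  rw [cq, qf_one, trace_one]

lemma tail_dot_self (t : ℝ) :
    gv κ {g | t * √(Fintype.card κ) < |g ⬝ᵥ g - Fintype.card κ|} ≤
      ENNReal.ofReal (3 * Real.exp (-t / 4)) := by
  simpa only [cq_one, fro_one] using tail_cq (S := (1 : Matrix κ κ ℝ)) isHermitian_one t

lemma tail_dot_self_gm (t : ℝ) :
    gm ι κ {x | ∃ i, t * √(Fintype.card κ) < |x i ⬝ᵥ x i - Fintype.card κ|} ≤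
      ENNReal.ofReal (3 * Fintype.card ι * Real.exp (-t / 4)) := by
  rw [Set.ofPred_exists]
  refine (measure_iUnion_fintype_le _ _).trans ?_
  have h : ∀ i : ι, gm ι κ {x | t * √(Fintype.card κ) < |x i ⬝ᵥ x i - Fintype.card κ|} ≤
      ENNReal.ofReal (3 * Real.exp (-t / 4)) := fun i =>
    ((mp_eval i).measure_preimage_le
      {g | t * √(Fintype.card κ) < |g ⬝ᵥ g - Fintype.card κ|}).trans (tail_dot_self t)
  refine (sum_le_sum fun i _ => h i).trans_eq ?_
  rw [sum_const, card_univ, nsmul_eq_mul, ← ENNReal.ofReal_natCast,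
    ← ENNReal.ofReal_mul (Nat.cast_nonneg _)]
  congr 1; ring

lemma integral_dot_sq (a : κ → ℝ) : ∫ g, (a ⬝ᵥ g) ^ 2 ∂(gv κ) = a ⬝ᵥ a := by
  have h := integral_sum_sq measurable_id integral_id_gaussianReal (g1_integrable_pow 2) a
  simp only [id, g1_sq, one_mul] at h
  exact h

lemma integrable_dot_self : Integrable (fun g : κ → ℝ => g ⬝ᵥ g) (gv κ) := by
  simpa only [nrm_sq] using integrable_nrm_pow (κ := κ) 2

lemma integral_dot_self : ∫ g, g ⬝ᵥ g ∂(gv κ) = Fintype.card κ := by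
  have h := integral_cq (1 : Matrix κ κ ℝ)
  simp only [cq_one] at h
  rw [integral_sub integrable_dot_self (integrable_const _)] at h
  simpa [sub_eq_zero] using h

lemma integral_nrm_le : ∫ g, nrm g ∂(gv κ) ≤ √(Fintype.card κ) := by
  have i1 : Integrable (fun g : κ → ℝ => nrm g) (gv κ) := by
    simpa using integrable_nrm_pow (κ := κ) 1
  set m := ∫ g, nrm g ∂(gv κ) with hm
  have i2 : Integrable (fun g : κ → ℝ => 2 * m * nrm g - m ^ 2) (gv κ) :=
    (i1.const_mul _).sub (integrable_const _)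
  have h := integral_mono i2 integrable_dot_self fun g => by
    show 2 * m * nrm g - m ^ 2 ≤ g ⬝ᵥ g
    rw [← nrm_sq]; nlinarith [sq_nonneg (nrm g - m)]
  rw [integral_sub (i1.const_mul _) (integrable_const _), integral_const_mul, integral_dot_self,
    ← hm] at h
  simp only [integral_const, probReal_univ, smul_eq_mul, one_mul] at h
  exact Real.le_sqrt_of_sq_le (by linarith)

lemma integral_dot_self_sq :
    ∫ g, (g ⬝ᵥ g) ^ 2 ∂(gv κ) = (Fintype.card κ : ℝ) ^ 2 + 2 * Fintype.card κ := by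
  have e : ∀ g : κ → ℝ, (g ⬝ᵥ g) ^ 2 = cq (1 : Matrix κ κ ℝ) g ^ 2 +
      2 * Fintype.card κ * cq (1 : Matrix κ κ ℝ) g + (Fintype.card κ : ℝ) ^ 2 := fun g => by
    rw [cq_one]; ring
  simp only [e]
  have i1 := integrable_cq_pow (1 : Matrix κ κ ℝ) 2
  have i2 := (integrable_cq (1 : Matrix κ κ ℝ)).const_mul (2 * Fintype.card κ)
  have i3 : Integrable (fun g => cq (1 : Matrix κ κ ℝ) g ^ 2 +
      2 * Fintype.card κ * cq (1 : Matrix κ κ ℝ) g) (gv κ) := i1.add i2
  rw [integral_add i3 (integrable_const _), integral_add i1 i2, integral_const_mul, integral_cq,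
    integral_cq_sq isHermitian_one, fro_one, Real.sq_sqrt (Nat.cast_nonneg _)]
  simp only [integral_const, probReal_univ, smul_eq_mul, one_mul]
  ring

lemma integral_dot (a : κ → ℝ) : ∫ g, a ⬝ᵥ g ∂(gv κ) = 0 := by
  have h := integral_mp (mp_neg_gv (κ := κ)) (F := fun g => a ⬝ᵥ g)
    (Continuous.aestronglyMeasurable (by fun_prop))
  simp only [dotProduct_neg, integral_neg] at h
  linarith

lemma integral_ip (A : Matrix ι κ ℝ) : ∫ x, ip (Matrix.of x) A ∂(gm ι κ) = 0 := by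
  simp only [ip_comm _ A, ip_eq_dot]
  exact (integral_mp mp_uncurry (F := fun g => (fun q : ι × κ => A q.1 q.2) ⬝ᵥ g)
    (Continuous.aestronglyMeasurable (by fun_prop))).trans (integral_dot _)

lemma integral_ip_sq (A : Matrix ι κ ℝ) : ∫ x, ip (Matrix.of x) A ^ 2 ∂(gm ι κ) = fro A ^ 2 := by
  simp only [fro_sq, ip_comm _ A, ip_eq_dot]
  exact (integral_mp mp_uncurry (F := fun g => ((fun q : ι × κ => A q.1 q.2) ⬝ᵥ g) ^ 2)
    (Continuous.aestronglyMeasurable (by fun_prop))).trans (integral_dot_sq _)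

lemma integral_fro_sq :
    ∫ x, fro (Matrix.of x) ^ 2 ∂(gm ι κ) = Fintype.card ι * Fintype.card κ := by
  simp only [fro_sq, ip_eq_dot]
  refine (integral_mp mp_uncurry (F := fun g : ι × κ → ℝ => g ⬝ᵥ g)
    (Continuous.aestronglyMeasurable (by fun_prop))).trans ?_
  rw [integral_dot_self, Fintype.card_prod, Nat.cast_mul]

lemma integral_fro_four :
    ∫ x, fro (Matrix.of x) ^ 4 ∂(gm ι κ) =
      ((Fintype.card ι : ℝ) * Fintype.card κ) ^ 2 + 2 * (Fintype.card ι * Fintype.card κ) := by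
  have e : ∀ x : ι → κ → ℝ, fro (Matrix.of x) ^ 4 = (fro (Matrix.of x) ^ 2) ^ 2 := fun x => by
    ring
  simp only [e, fro_sq, ip_eq_dot]
  refine (integral_mp mp_uncurry (F := fun g : ι × κ → ℝ => (g ⬝ᵥ g) ^ 2)
    (Continuous.aestronglyMeasurable (by fun_prop))).trans ?_
  rw [integral_dot_self_sq, Fintype.card_prod, Nat.cast_mul]

/-- Maximal inequality from exponential moments. -/
lemma integral_iSup_le {α A : Type*} [MeasurableSpace α] {μ : Measure α} [IsProbabilityMeasure μ]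
    [Fintype A] [Nonempty A] {X : A → α → ℝ} (hX : ∀ a, Integrable (X a) μ) {l c : ℝ} (hl : 0 < l)
    (h1 : ∀ a, Integrable (fun ω => Real.exp (l * X a ω)) μ)
    (h2 : ∀ a, ∫ ω, Real.exp (l * X a ω) ∂μ ≤ Real.exp c) :
    Integrable (fun ω => ⨆ a, X a ω) μ ∧
      ∫ ω, (⨆ a, X a ω) ∂μ ≤ (Real.log (Fintype.card A) + c) / l := by
  have hmax : ∀ ω, ∃ a, ⨆ a, X a ω = X a ω := fun ω => by
    obtain ⟨a, ha⟩ := Finite.exists_max fun a => X a ω
    exact ⟨a, le_antisymm (ciSup_le ha) (Finite.le_ciSup (fun a => X a ω) a)⟩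
  have i1 : Integrable (fun ω => ⨆ a, X a ω) μ := by
    refine (integrable_finsetSum univ fun a _ => (hX a).abs).mono'
      (AEMeasurable.iSup fun a => (hX a).aemeasurable).aestronglyMeasurable
      (Filter.Eventually.of_forall fun ω => ?_)
    obtain ⟨a, ha⟩ := hmax ω
    rw [ha]
    exact single_le_sum (f := fun a => |X a ω|) (fun _ _ => abs_nonneg _) (mem_univ a)
  refine ⟨i1, ?_⟩
  have hN : (0 : ℝ) < Fintype.card A := Nat.cast_pos.2 Fintype.card_pos
  set M := Real.log (Fintype.card A) + c with hM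
  have i2 : Integrable (fun ω => ∑ a, Real.exp (l * X a ω)) μ :=
    integrable_finsetSum univ fun a _ => h1 a
  have i3 : Integrable (fun ω => M - 1 + Real.exp (-M) * ∑ a, Real.exp (l * X a ω)) μ :=
    (integrable_const _).add (i2.const_mul _)
  have h3 := integral_mono (i1.const_mul l) i3 fun ω => by
    obtain ⟨a, ha⟩ := hmax ω
    show l * ⨆ a, X a ω ≤ M - 1 + Real.exp (-M) * ∑ a, Real.exp (l * X a ω)
    rw [ha]
    have h4 := mul_le_mul_of_nonneg_left (single_le_sum (f := fun a => Real.exp (l * X a ω))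
      (fun _ _ => (Real.exp_pos _).le) (mem_univ a)) (Real.exp_pos (-M)).le
    rw [← Real.exp_add] at h4
    linarith [Real.add_one_le_exp (-M + l * X a ω)]
  rw [integral_const_mul, integral_add (integrable_const _) (i2.const_mul _), integral_const_mul,
    integral_finsetSum _ fun a _ => h1 a] at h3
  simp only [integral_const, probReal_univ, smul_eq_mul, one_mul] at h3
  have h5 := mul_le_mul_of_nonneg_left (sum_le_sum fun a (_ : a ∈ univ) => h2 a)
    (Real.exp_pos (-M)).le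
  have h6 : Real.exp (-M) * ∑ _a : A, Real.exp c = 1 := by
    rw [sum_const, card_univ, nsmul_eq_mul, ← Real.exp_log hN, ← Real.exp_add, ← Real.exp_add]
    simp [hM]
  rw [le_div_iff₀ hl]
  linarith

/-- The expected largest squared norm. -/
lemma integral_iSup_dot_self_le [Nonempty ι] [Nonempty κ]
    (h : Real.log (Fintype.card ι) ≤ √(Fintype.card κ)) :
    Integrable (fun x : ι → κ → ℝ => ⨆ i, x i ⬝ᵥ x i) (gm ι κ) ∧
      ∫ x, (⨆ i, x i ⬝ᵥ x i) ∂(gm ι κ) ≤ 6 * Fintype.card κ := by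
  have hd : (1 : ℝ) ≤ Fintype.card κ := Nat.one_le_cast.2 Fintype.card_pos
  set s := √(Fintype.card κ : ℝ) with hs
  have hs1 : 1 ≤ s := Real.one_le_sqrt.2 hd
  have hs2 : s ^ 2 = Fintype.card κ := Real.sq_sqrt (by linarith)
  obtain ⟨h1, h2⟩ := exp_cq_both (S := (1 : Matrix κ κ ℝ)) isHermitian_one (t := 1 / (4 * s)) (by
    rw [fro_one, ← hs, abs_of_pos (by positivity)]; exact le_of_eq (by field_simp))
  have e : ∀ g : κ → ℝ, Real.exp (1 / (4 * s) * (g ⬝ᵥ g)) =
      Real.exp (s / 4) * Real.exp (1 / (4 * s) * cq (1 : Matrix κ κ ℝ) g) := fun g => by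
    rw [← Real.exp_add, cq_one, ← hs2]; congr 1; field_simp; ring
  have h3 : Integrable (fun g : κ → ℝ => Real.exp (1 / (4 * s) * (g ⬝ᵥ g))) (gv κ) := by
    simp only [e]; exact h1.const_mul _
  have h4 : ∫ g, Real.exp (1 / (4 * s) * (g ⬝ᵥ g)) ∂(gv κ) ≤ Real.exp (s / 4 + 1 / 8) := by
    simp only [e]
    rw [integral_const_mul, Real.exp_add]
    refine mul_le_mul_of_nonneg_left (h2.trans_eq ?_) (Real.exp_pos _).le
    rw [fro_one, ← hs]; congr 1; field_simp; norm_num
  obtain ⟨h5, h6⟩ := integral_iSup_le (μ := gm ι κ) (X := fun i x => x i ⬝ᵥ x i)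
    (fun i => (mp_eval i).integrable_comp_of_integrable integrable_dot_self)
    (l := 1 / (4 * s)) (c := s / 4 + 1 / 8) (by positivity)
    (fun i => (mp_eval i).integrable_comp_of_integrable h3)
    (fun i => (integral_mp (mp_eval i) h3.aestronglyMeasurable).trans_le h4)
  refine ⟨h5, h6.trans ?_⟩
  rw [div_div_eq_mul_div, div_one, ← hs2]
  nlinarith

end Pool.Agent.Work.MP_6a50bc_pr
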