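import Pool.Agent.Work.MP_6a50bc_pr.Gordon
import Pool.Agent.Work.MP_6a50bc_pr.Conc
import Pool.Agent.Work.MP_6a50bc_pr.Net

namespace Pool.Agent.Work.MP_6a50bc_pr

open MeasureTheory ProbabilityTheory Matrix Finset
open scoped ENNReal

variable {ι κ : Type*} [Fintype ι] [DecidableEq ι] [Fintype κ] [DecidableEq κ]

/-! The largest singular value of a Gaussian matrix. -/

omit [DecidableEq ι] in
lemma opn_le_of_unit {A : Matrix ι κ ℝ} {c : ℝ} (hc : 0 ≤ c)
    (h : ∀ w v, nrm w = 1 → nrm v = 1 → w ⬝ᵥ A *ᵥ v ≤ c) : opn A ≤ c := by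
  refine opn_le_of_dot hc fun w v => ?_
  by_cases hw : w = 0
  · simp [hw]
  by_cases hv : v = 0
  · simp [hv]
  have h1 := nrm_pos hw
  have h2 := nrm_pos hv
  have h3 := h ((nrm w)⁻¹ • w) ((nrm v)⁻¹ • v)
    (by rw [nrm_smul, abs_of_pos (inv_pos.mpr h1), inv_mul_cancel₀ h1.ne'])
    (by rw [nrm_smul, abs_of_pos (inv_pos.mpr h2), inv_mul_cancel₀ h2.ne'])
  rw [mulVec_smul, dotProduct_smul, smul_dotProduct, smul_eq_mul, smul_eq_mul,
    inv_mul_le_iff₀ h2, inv_mul_le_iff₀ h1] at h3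
  linarith

omit [DecidableEq ι] in
lemma integrable_opn : Integrable (fun x : ι → κ → ℝ => opn (Matrix.of x)) (gm ι κ) :=
  integrable_gm_of_le_pow (Continuous.aestronglyMeasurable (by fun_prop)) 1 1 fun x => by
    rw [abs_of_nonneg (opn_nonneg _)]
    linarith [opn_le_fro (Matrix.of x)]

omit [DecidableEq ι] in
lemma integral_opn_le_aux [Nonempty ι] [Nonempty κ] {η : ℝ} (hη : 0 < η) :
    (1 - 2 * η) * ∫ x, opn (Matrix.of x) ∂(gm ι κ) ≤
      √(Fintype.card ι) + √(Fintype.card κ) + 1 := by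
  classical
  obtain ⟨N₁, h11, -, h12⟩ := exists_sphere_net' (κ := ι) hη
  obtain ⟨N₂, h21, -, h22⟩ := exists_sphere_net' (κ := κ) hη
  obtain ⟨u₁, hu₁⟩ := exists_unit (κ := ι)
  obtain ⟨u₂, hu₂⟩ := exists_unit (κ := κ)
  obtain ⟨w₀, hw₀, -⟩ := h12 u₁ hu₁
  obtain ⟨v₀, hv₀, -⟩ := h22 u₂ hu₂
  have : Nonempty N₁ := ⟨⟨w₀, hw₀⟩⟩
  have : Nonempty N₂ := ⟨⟨v₀, hv₀⟩⟩
  set a : N₁ × N₂ → Unit → ι × κ → ℝ := fun p _ q => -(p.1.1 q.1 * p.2.1 q.2) with ha
  set c : N₁ × N₂ → Unit → ι ⊕ κ → ℝ := fun p _ => -Sum.elim p.1.1 p.2.1 with hc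
  have haa : ∀ p j p' j', a p j ⬝ᵥ a p' j' = (p.1.1 ⬝ᵥ p'.1.1) * (p.2.1 ⬝ᵥ p'.2.1) :=
    fun p j p' j' => by
      simp only [ha, dotProduct, Fintype.sum_prod_type, sum_mul_sum]
      exact sum_congr rfl fun i _ => sum_congr rfl fun k _ => by ring
  have hcc : ∀ p j (ω : ι ⊕ κ → ℝ), c p j ⬝ᵥ ω =
      -(p.1.1 ⬝ᵥ (fun i => ω (Sum.inl i)) + p.2.1 ⬝ᵥ fun k => ω (Sum.inr k)) := fun p j ω => by
    simp [hc, dotProduct, Fintype.sum_sum_type, add_comm]
  have hcc' : ∀ p j p' j', c p j ⬝ᵥ c p' j' = p.1.1 ⬝ᵥ p'.1.1 + p.2.1 ⬝ᵥ p'.2.1 :=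
    fun p j p' j' => by simp [hc, dotProduct, Fintype.sum_sum_type]
  have hax : ∀ p j (x : ι → κ → ℝ), a p j ⬝ᵥ (fun q : ι × κ => x q.1 q.2) =
      -(p.1.1 ⬝ᵥ Matrix.of x *ᵥ p.2.1) := fun p j x => by
    simp only [ha, dotProduct, Fintype.sum_prod_type, mulVec, mul_sum, of_apply,
      ← sum_neg_distrib]
    exact sum_congr rfl fun i _ => sum_congr rfl fun k _ => by ring
  have hG := gordon a c (fun _ _ => 1) (fun _ _ => 0) (E := 1) (fun _ _ => by simp)
    (fun p j p' j' => by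
      have h1 := dot_le p.1.1 p'.1.1
      have h2 := dot_le p.2.1 p'.2.1
      rw [h11 _ p.1.2, h11 _ p'.1.2] at h1
      rw [h21 _ p.2.2, h21 _ p'.2.2] at h2
      rw [haa p j p' j', hcc' p j p' j']
      nlinarith)
    (fun p j j' => by
      rw [haa p j p j', hcc' p j p j', nrm_eq_one_iff.mp (h11 _ p.1.2),
        nrm_eq_one_iff.mp (h21 _ p.2.2)]
      norm_num)
  simp only [add_zero] at hG
  have hFc : Continuous fun ω : ι × κ → ℝ => mm fun p j => a p j ⬝ᵥ ω :=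
    continuous_mm (by fun_prop)
  have hGc : Continuous fun ω : ι ⊕ κ → ℝ => mm fun p j => c p j ⬝ᵥ ω :=
    continuous_mm (by fun_prop)
  rw [← (mp_uncurry (ι := ι) (κ := κ)).map_eq,
    integral_map (mp_uncurry (ι := ι) (κ := κ)).measurable.aemeasurable
      hFc.aestronglyMeasurable] at hG
  simp only [hax] at hG
  -- the left side
  have hn1 : Integrable (fun ω : ι ⊕ κ → ℝ => nrm fun i => ω (Sum.inl i)) (gv (ι ⊕ κ)) := by
    have := (mp_comp_gv (e := (Sum.inl : ι → ι ⊕ κ)) Sum.inl_injective).integrable_comp_of_integrable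
      (integrable_nrm_pow 1)
    simp only [pow_one] at this
    exact this
  have hn2 : Integrable (fun ω : ι ⊕ κ → ℝ => nrm fun i => ω (Sum.inr i)) (gv (ι ⊕ κ)) := by
    have := (mp_comp_gv (e := (Sum.inr : κ → ι ⊕ κ)) Sum.inr_injective).integrable_comp_of_integrable
      (integrable_nrm_pow 1)
    simp only [pow_one] at this
    exact this
  have hi1 : ∫ ω : ι ⊕ κ → ℝ, nrm (fun i => ω (Sum.inl i)) ∂(gv (ι ⊕ κ)) ≤ √(Fintype.card ι) := by
    have hm := mp_comp_gv (e := (Sum.inl : ι → ι ⊕ κ)) Sum.inl_injective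
    have := integral_nrm_le (κ := ι)
    rwa [← hm.map_eq, integral_map hm.measurable.aemeasurable
      (continuous_nrm continuous_id').aestronglyMeasurable] at this
  have hi2 : ∫ ω : ι ⊕ κ → ℝ, nrm (fun i => ω (Sum.inr i)) ∂(gv (ι ⊕ κ)) ≤ √(Fintype.card κ) := by
    have hm := mp_comp_gv (e := (Sum.inr : κ → ι ⊕ κ)) Sum.inr_injective
    have := integral_nrm_le (κ := κ)
    rwa [← hm.map_eq, integral_map hm.measurable.aemeasurable
      (continuous_nrm continuous_id').aestronglyMeasurable] at this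
  have hcb : ∀ p j (ω : ι ⊕ κ → ℝ), |c p j ⬝ᵥ ω| ≤
      nrm (fun i => ω (Sum.inl i)) + nrm fun k => ω (Sum.inr k) := fun p j ω => by
    have h1 := abs_dot_le p.1.1 fun i => ω (Sum.inl i)
    have h2 := abs_dot_le p.2.1 fun i => ω (Sum.inr i)
    rw [h11 _ p.1.2, one_mul] at h1
    rw [h21 _ p.2.2, one_mul] at h2
    rw [hcc p j, abs_neg]
    exact (abs_add_le _ _).trans (add_le_add h1 h2)
  have hGb : ∀ ω : ι ⊕ κ → ℝ, |mm fun p j => c p j ⬝ᵥ ω| ≤
      nrm (fun i => ω (Sum.inl i)) + nrm fun k => ω (Sum.inr k) := fun ω =>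
    abs_le.mpr ⟨le_mm fun p => ⟨(), (abs_le.mp (hcb p () ω)).1⟩,
      mm_le (Classical.arbitrary _) fun j => (abs_le.mp (hcb _ j ω)).2⟩
  have hGi : Integrable (fun ω : ι ⊕ κ → ℝ => mm fun p j => c p j ⬝ᵥ ω) (gv (ι ⊕ κ)) :=
    (hn1.add hn2).mono' hGc.aestronglyMeasurable (Filter.Eventually.of_forall hGb)
  have hL := integral_mono (hn1.add hn2).neg hGi fun ω => (abs_le.mp (hGb ω)).1
  simp only [Pi.neg_apply, Pi.add_apply] at hL
  rw [integral_neg, integral_add hn1 hn2] at hL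
  -- the right side
  set F : (ι → κ → ℝ) → ℝ :=
    fun x => mm fun (p : N₁ × N₂) (_ : Unit) => -(p.1.1 ⬝ᵥ Matrix.of x *ᵥ p.2.1) with hF
  have hab : ∀ (p : N₁ × N₂) (x : ι → κ → ℝ),
      |p.1.1 ⬝ᵥ Matrix.of x *ᵥ p.2.1| ≤ opn (Matrix.of x) := fun p x => by
    have := abs_dot_mulVec_le (Matrix.of x) p.1.1 p.2.1
    rwa [h11 _ p.1.2, h21 _ p.2.2, mul_one, mul_one] at this
  have hFi : Integrable F (gm ι κ) := by
    refine integrable_opn.mono' (Continuous.aestronglyMeasurable (continuous_mm (by fun_prop)))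
      (Filter.Eventually.of_forall fun x => abs_le.mpr ⟨le_mm fun p => ⟨(), ?_⟩,
        mm_le (Classical.arbitrary _) fun j => ?_⟩)
    · exact neg_le_neg (abs_le.mp (hab p x)).2
    · exact neg_le.mp (abs_le.mp (hab _ x)).1
  have hFle : ∀ x, F x ≤ -((1 - 2 * η) * opn (Matrix.of x)) := fun x => by
    have h0 := opn_nonneg (Matrix.of x)
    have key : ∀ w v, nrm w = 1 → nrm v = 1 →
        w ⬝ᵥ Matrix.of x *ᵥ v ≤ -F x + 2 * η * opn (Matrix.of x) := fun w v hw hv => by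
      obtain ⟨w', hw', h1⟩ := h12 w hw
      obtain ⟨v', hv', h2⟩ := h22 v hv
      have h3 : F x ≤ -(w' ⬝ᵥ Matrix.of x *ᵥ v') := mm_le (⟨w', hw'⟩, ⟨v', hv'⟩) fun _ => le_rfl
      have h4 := (abs_le.mp (abs_dot_mulVec_le (Matrix.of x) (w - w') v)).2
      have h5 := (abs_le.mp (abs_dot_mulVec_le (Matrix.of x) w' (v - v'))).2
      rw [hv, mul_one, sub_dotProduct] at h4
      rw [h11 _ hw', mul_one, mulVec_sub, dotProduct_sub] at h5
      linarith [mul_le_mul_of_nonneg_left h1 h0, mul_le_mul_of_nonneg_left h2 h0]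
    have h1 := key u₁ u₂ hu₁ hu₂
    have h2 := key (-u₁) u₂ (by rw [nrm_neg, hu₁]) hu₂
    rw [neg_dotProduct] at h2
    have h3 := opn_le_of_unit (by linarith) key
    linarith
  have hR := integral_mono hFi (integrable_opn.const_mul (1 - 2 * η)).neg hFle
  simp only [Pi.neg_apply] at hR
  rw [integral_neg, integral_const_mul] at hR
  linarith

omit [DecidableEq ι] in
theorem integral_opn_le :
    Integrable (fun x : ι → κ → ℝ => opn (Matrix.of x)) (gm ι κ) ∧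
      ∫ x, opn (Matrix.of x) ∂(gm ι κ) ≤ √(Fintype.card ι) + √(Fintype.card κ) + 1 := by
  refine ⟨integrable_opn, ?_⟩
  rcases isEmpty_or_nonempty ι with hι | hι
  · simp only [opn_of_isEmpty_left, integral_zero]
    positivity
  rcases isEmpty_or_nonempty κ with hκ | hκ
  · simp only [opn_of_isEmpty_right, integral_zero]
    positivity
  set m := ∫ x, opn (Matrix.of x) ∂(gm ι κ) with hm
  have h0 : 0 ≤ m := integral_nonneg fun _ => opn_nonneg _
  refine le_of_forall_pos_le_add fun ε hε => ?_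
  have h := integral_opn_le_aux (ι := ι) (κ := κ) (η := ε / (2 * (m + 1))) (by positivity)
  have h1 : 2 * (ε / (2 * (m + 1))) * m ≤ ε := by
    rw [show 2 * (ε / (2 * (m + 1))) * m = ε * (m / (m + 1)) by field_simp]
    exact mul_le_of_le_one_right hε.le ((div_le_one (by positivity)).mpr (by linarith))
  rw [← hm] at h
  linarith

omit [DecidableEq ι] in
theorem opn_tail {t : ℝ} (ht : 0 ≤ t) :
    gm ι κ {x | √(Fintype.card ι) + √(Fintype.card κ) + 4 + t ≤ opn (Matrix.of x)} ≤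
      ENNReal.ofReal (2 * Real.exp (-t ^ 2 / 8)) := by
  have hm := (integral_opn_le (ι := ι) (κ := κ)).2
  set m := ∫ x, opn (Matrix.of x) ∂(gm ι κ) with hmdef
  set B := {x : ι → κ → ℝ | √(Fintype.card ι) + √(Fintype.card κ) + 4 + t ≤ opn (Matrix.of x)}
    with hB
  set A := {x : ι → κ → ℝ | opn (Matrix.of x) ≤ m + 3} with hA
  have h1 := conc_cheb_gm (f := fun x : ι → κ → ℝ => opn (Matrix.of x)) (L := 1)
    (fun x y => by rw [one_mul]; exact abs_opn_sub_le _ _) (t := 3) (by norm_num)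
  have h2 : gm ι κ Aᶜ ≤ ENNReal.ofReal (1 / 2) := by
    refine (measure_mono fun x hx => ?_).trans (h1.trans (ENNReal.ofReal_le_ofReal (by norm_num)))
    have hx' : ¬opn (Matrix.of x) ≤ m + 3 := hx
    exact le_trans (by linarith) (le_abs_self (opn (Matrix.of x) - m))
  have h3 := conc_two_set_gm (A := A) (B := B) ht fun x hx y hy => by
    have hx' : opn (Matrix.of x) ≤ m + 3 := hx
    have hy' : √(Fintype.card ι) + √(Fintype.card κ) + 4 + t ≤ opn (Matrix.of y) := hy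
    linarith [(abs_le.mp (abs_opn_sub_le (Matrix.of x) (Matrix.of y))).1]
  have h4 : (1 : ℝ) ≤ (gm ι κ).real A + (gm ι κ).real Aᶜ := by
    have := measureReal_union_le (μ := gm ι κ) A Aᶜ
    rwa [Set.union_compl_self, probReal_univ] at this
  have h5 : (gm ι κ).real Aᶜ ≤ 1 / 2 := ENNReal.toReal_le_of_le_ofReal (by norm_num) h2
  have h6 : (gm ι κ).real A * (gm ι κ).real B ≤ Real.exp (-t ^ 2 / 8) := by
    rw [Measure.real, Measure.real, ← ENNReal.toReal_mul]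
    exact ENNReal.toReal_le_of_le_ofReal (Real.exp_pos _).le h3
  rw [← ENNReal.ofReal_toReal (measure_ne_top (gm ι κ) B)]
  refine ENNReal.ofReal_le_ofReal ?_
  have h7 : 0 ≤ (gm ι κ).real B := measureReal_nonneg
  change (gm ι κ).real B ≤ _
  nlinarith

end Pool.Agent.Work.MP_6a50bc_pr
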