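import Pool.Agent.Work.MP_6a50bc_pr.Mat

/-! Spectral representations, positive part and nuclear norm. -/

namespace Pool.Agent.Work.MP_6a50bc_pr

open Matrix Finset

variable {ι κ m n : Type*}

section Spec

variable [Fintype m] [Fintype n] [DecidableEq n] {U : Matrix m n ℝ}

omit [Fintype n] in
lemma Orth.col_dot (hU : Orth U) (j k : n) : Uᵀ j ⬝ᵥ Uᵀ k = if j = k then 1 else 0 := by
  have := congrFun (congrFun hU j) k
  rwa [mul_apply, one_apply] at this

omit [Fintype n] in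
lemma Orth.col_dot_self (hU : Orth U) (j : n) : Uᵀ j ⬝ᵥ Uᵀ j = 1 := by simpa using hU.col_dot j j

lemma Orth.dot_mulVec (hU : Orth U) (v w : n → ℝ) : U *ᵥ v ⬝ᵥ U *ᵥ w = v ⬝ᵥ w := by
  rw [dotProduct_mulVec, vecMul_mulVec, hU, vecMul_one]

lemma Orth.nrm_mulVec (hU : Orth U) (v : n → ℝ) : nrm (U *ᵥ v) = nrm v := by
  rw [nrm, hU.dot_mulVec, nrm]

lemma Orth.opn_le (hU : Orth U) : opn U ≤ 1 :=
  opn_le_of zero_le_one fun v => by rw [hU.nrm_mulVec, one_mul]

lemma Orth.nrm_transpose_mulVec_le (hU : Orth U) (v : m → ℝ) : nrm (Uᵀ *ᵥ v) ≤ nrm v := by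
  classical
  refine (nrm_mulVec_le _ _).trans ?_
  rw [opn_transpose]
  exact mul_le_of_le_one_left (nrm_nonneg v) hU.opn_le

lemma Orth.mul_transpose {U : Matrix n n ℝ} (hU : Orth U) : U * Uᵀ = 1 := mul_eq_one_comm.mp hU

lemma Orth.transpose {U : Matrix n n ℝ} (hU : Orth U) : Orth Uᵀ := hU.mul_transpose

lemma Orth.mul {p : Type*} [Fintype p] [DecidableEq p] (hU : Orth U) {V : Matrix n p ℝ}
    (hV : Orth V) : Orth (U * V) := by
  unfold Orth at *
  rw [transpose_mul, Matrix.mul_assoc, ← Matrix.mul_assoc Uᵀ, hU, Matrix.one_mul, hV]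

lemma orth_one : Orth (1 : Matrix n n ℝ) := by simp [Orth]

omit [Fintype m] in
lemma spec_apply (U : Matrix m n ℝ) (l : n → ℝ) (a b : m) :
    spec U l a b = ∑ j, l j * (U a j * U b j) := by
  simp only [spec, mul_apply, diagonal_apply, transpose_apply, mul_ite, mul_zero, sum_ite_eq',
    mem_univ, if_true]
  exact sum_congr rfl fun j _ => by ring

omit [Fintype m] in
lemma spec_eq_gram (U : Matrix m n ℝ) (l : n → ℝ) : spec U l = gram l Uᵀ := by
  ext a b
  simp [spec_apply, gram, Matrix.sum_apply, vecMulVec_apply]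

omit [Fintype m] in
lemma spec_isHermitian (U : Matrix m n ℝ) (l : n → ℝ) : (spec U l).IsHermitian :=
  spec_eq_gram U l ▸ gram_isHermitian _ _

lemma spec_posSemidef (U : Matrix m n ℝ) {l : n → ℝ} (hl : ∀ j, 0 ≤ l j) :
    (spec U l).PosSemidef :=
  spec_eq_gram U l ▸ gram_posSemidef hl _

lemma qf_spec (U : Matrix m n ℝ) (l : n → ℝ) (v : m → ℝ) :
    qf (spec U l) v = ∑ j, l j * (Uᵀ *ᵥ v) j ^ 2 := by
  rw [spec_eq_gram, qf_gram]; rfl

lemma ip_spec (M : Matrix m m ℝ) (U : Matrix m n ℝ) (l : n → ℝ) :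
    ip M (spec U l) = ∑ j, l j * qf M (Uᵀ j) := by
  rw [spec_eq_gram, ip_comm, ip_gram]

omit [Fintype m] in
lemma spec_add (U : Matrix m n ℝ) (l l' : n → ℝ) : spec U (l + l') = spec U l + spec U l' := by
  ext a b; simp [spec_apply, add_mul, sum_add_distrib]

omit [Fintype m] in
lemma spec_sub (U : Matrix m n ℝ) (l l' : n → ℝ) : spec U (l - l') = spec U l - spec U l' := by
  ext a b; simp [spec_apply, sub_mul]

omit [Fintype m] in
lemma spec_neg (U : Matrix m n ℝ) (l : n → ℝ) : spec U (-l) = -spec U l := by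
  ext a b; simp [spec_apply]

omit [Fintype m] in
lemma spec_smul (U : Matrix m n ℝ) (c : ℝ) (l : n → ℝ) : spec U (c • l) = c • spec U l := by
  ext a b; simp [spec_apply, mul_sum, mul_assoc]

omit [Fintype m] in
@[simp] lemma spec_zero (U : Matrix m n ℝ) : spec U 0 = 0 := by ext a b; simp [spec_apply]

lemma spec_mul (hU : Orth U) (l l' : n → ℝ) : spec U l * spec U l' = spec U (l * l') := by
  unfold spec
  rw [Matrix.mul_assoc, Matrix.mul_assoc U (diagonal l'), ← Matrix.mul_assoc Uᵀ, hU,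
    Matrix.one_mul, Matrix.mul_assoc, ← Matrix.mul_assoc (diagonal l), diagonal_mul_diagonal,
    Matrix.mul_assoc]
  rfl

lemma trace_spec (hU : Orth U) (l : n → ℝ) : (spec U l).trace = ∑ j, l j := by
  simp [spec_eq_gram, trace_gram, hU.col_dot_self]

lemma spec_mulVec_col (hU : Orth U) (l : n → ℝ) (j : n) : spec U l *ᵥ Uᵀ j = l j • Uᵀ j := by
  have h : spec U l * U = U * diagonal l := by
    rw [spec, Matrix.mul_assoc, hU, Matrix.mul_one]
  funext a
  have := congrFun (congrFun h a) j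
  rw [mul_diagonal, mul_comm] at this
  exact this

lemma qf_spec_col (hU : Orth U) (l : n → ℝ) (j : n) : qf (spec U l) (Uᵀ j) = l j := by
  rw [qf, spec_mulVec_col hU, dotProduct_smul, hU.col_dot_self, smul_eq_mul, mul_one]

lemma ip_spec_spec (hU : Orth U) (l l' : n → ℝ) : ip (spec U l) (spec U l') = l ⬝ᵥ l' := by
  simp only [ip_spec, qf_spec_col hU, dotProduct, mul_comm]

lemma fro_spec (hU : Orth U) (l : n → ℝ) : fro (spec U l) = nrm l := by
  rw [fro, ip_spec_spec hU, nrm]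

lemma conj_spec (hU : Orth U) (l : n → ℝ) : Uᵀ * spec U l * U = diagonal l := by
  rw [spec, Matrix.mul_assoc, Matrix.mul_assoc, hU, Matrix.mul_one, ← Matrix.mul_assoc, hU,
    Matrix.one_mul]

lemma spec_const {U : Matrix n n ℝ} (hU : Orth U) (c : ℝ) : spec U (fun _ => c) = c • 1 := by
  rw [spec, ← smul_one_eq_diagonal, Matrix.mul_smul, Matrix.mul_one, Matrix.smul_mul,
    hU.mul_transpose]

lemma opn_spec_le [DecidableEq m] (hU : Orth U) {l : n → ℝ} {c : ℝ} (hc : 0 ≤ c)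
    (h : ∀ j, |l j| ≤ c) : opn (spec U l) ≤ c := by
  refine opn_le_of hc fun v => ?_
  rw [spec, ← mulVec_mulVec, ← mulVec_mulVec, hU.nrm_mulVec]
  refine le_trans ?_ (mul_le_mul_of_nonneg_left (hU.nrm_transpose_mulVec_le v) hc)
  rw [← abs_of_nonneg hc, ← nrm_smul]
  refine nrm_mono fun j => ?_
  rw [mulVec_diagonal, Pi.smul_apply, smul_eq_mul, abs_mul, abs_mul, abs_of_nonneg hc]
  exact mul_le_mul_of_nonneg_right (h j) (abs_nonneg _)

lemma abs_le_opn_spec [DecidableEq m] (hU : Orth U) (l : n → ℝ) (j : n) :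
    |l j| ≤ opn (spec U l) := by
  have := abs_qf_le_opn (spec U l) (Uᵀ j)
  rwa [qf_spec_col hU, hU.col_dot_self, mul_one] at this

lemma fro_conj_orth {U : Matrix n n ℝ} (hU : Orth U) (A : Matrix n n ℝ) :
    fro (Uᵀ * A * U) = fro A := by
  rw [fro, fro, ip_mul_right, ip_mul_left, transpose_transpose, Matrix.mul_assoc (Uᵀ * A),
    hU.mul_transpose, Matrix.mul_one, ← Matrix.mul_assoc, hU.mul_transpose, Matrix.one_mul]

end Spec

variable [Fintype κ] [DecidableEq κ]

lemma orth_eigenvectorUnitary {S : Matrix κ κ ℝ} (hS : S.IsHermitian) :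
    Orth (hS.eigenvectorUnitary : Matrix κ κ ℝ) := by
  have := Unitary.star_mul_self_of_mem hS.eigenvectorUnitary.2
  rwa [star_eq_conjTranspose, conjTranspose_eq_transpose_of_trivial] at this

lemma eq_spec_eigenvalues {S : Matrix κ κ ℝ} (hS : S.IsHermitian) :
    S = spec (hS.eigenvectorUnitary : Matrix κ κ ℝ) hS.eigenvalues := by
  conv_lhs => rw [hS.spectral_theorem]
  simp [spec, Unitary.conjStarAlgAut_apply, star_eq_conjTranspose]

/-- The spectral theorem. -/
lemma exists_spec {S : Matrix κ κ ℝ} (hS : S.IsHermitian) :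
    ∃ (U : Matrix κ κ ℝ) (l : κ → ℝ), Orth U ∧ S = spec U l :=
  ⟨_, _, orth_eigenvectorUnitary hS, eq_spec_eigenvalues hS⟩

lemma exists_spec_nonneg {S : Matrix κ κ ℝ} (hS : S.PosSemidef) :
    ∃ (U : Matrix κ κ ℝ) (l : κ → ℝ), Orth U ∧ (∀ j, 0 ≤ l j) ∧ S = spec U l := by
  obtain ⟨U, l, hU, rfl⟩ := exists_spec hS.1
  exact ⟨U, l, hU, fun j => qf_spec_col hU l j ▸ qf_nonneg hS _, rfl⟩

lemma opn_le_of_qf {S : Matrix κ κ ℝ} (hS : S.IsHermitian) {c : ℝ} (hc : 0 ≤ c)
    (h : ∀ v, |qf S v| ≤ c * (v ⬝ᵥ v)) : opn S ≤ c := by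
  obtain ⟨U, l, hU, rfl⟩ := exists_spec hS
  refine opn_spec_le hU hc fun j => ?_
  have := h (Uᵀ j)
  rwa [qf_spec_col hU, hU.col_dot_self, mul_one] at this

lemma fro_le_sqrt_mul_opn (A : Matrix κ κ ℝ) : fro A ≤ √(Fintype.card κ) * opn A := by
  have := fro_mul_le_left A (1 : Matrix κ κ ℝ)
  rwa [Matrix.mul_one, fro_one, mul_comm] at this

omit [DecidableEq κ] in
lemma ip_nonneg {A B : Matrix κ κ ℝ} (hA : A.PosSemidef) (hB : B.PosSemidef) : 0 ≤ ip A B := by
  classical
  obtain ⟨U, l, -, hl, rfl⟩ := exists_spec_nonneg hB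
  rw [ip_spec]
  exact sum_nonneg fun j _ => mul_nonneg (hl j) (qf_nonneg hA _)

omit [DecidableEq κ] in
/-- If `qf M ≤ c` on the unit sphere then `⟨M, T⟩ ≤ c tr T` for positive semidefinite `T`. -/
lemma ip_le_mul_trace {M T : Matrix κ κ ℝ} (hT : T.PosSemidef) {c : ℝ}
    (h : ∀ v, qf M v ≤ c * (v ⬝ᵥ v)) : ip M T ≤ c * T.trace := by
  classical
  obtain ⟨U, l, hU, hl, rfl⟩ := exists_spec_nonneg hT
  rw [ip_spec, trace_spec hU, mul_sum]
  refine sum_le_sum fun j _ => ?_
  have := h (Uᵀ j)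
  rw [hU.col_dot_self, mul_one] at this
  rw [mul_comm c]
  exact mul_le_mul_of_nonneg_left this (hl j)

lemma abs_ip_le_opn_mul_trace (M : Matrix κ κ ℝ) {T : Matrix κ κ ℝ} (hT : T.PosSemidef) :
    |ip M T| ≤ opn M * T.trace := by
  have h1 := ip_le_mul_trace (M := M) hT fun v => (le_abs_self _).trans (abs_qf_le_opn M v)
  have h2 := ip_le_mul_trace (M := -M) hT (c := opn M) fun v => by
    rw [qf_neg]; exact (neg_le_abs _).trans (abs_qf_le_opn M v)
  rw [ip_neg_left] at h2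
  exact abs_le.mpr ⟨by linarith, h1⟩

omit [DecidableEq κ] in
lemma nrm_le_sum_abs (l : κ → ℝ) : nrm l ≤ ∑ j, |l j| := by
  rw [nrm_le_iff (sum_nonneg fun _ _ => abs_nonneg _), dotProduct, sq, sum_mul]
  refine sum_le_sum fun j _ => ?_
  rw [← abs_mul_abs_self]
  exact mul_le_mul_of_nonneg_left
    (single_le_sum (f := fun k => |l k|) (fun _ _ => abs_nonneg _) (mem_univ j)) (abs_nonneg _)

omit [DecidableEq κ] in
lemma fro_le_trace {T : Matrix κ κ ℝ} (hT : T.PosSemidef) : fro T ≤ T.trace := by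
  classical
  obtain ⟨U, l, hU, hl, rfl⟩ := exists_spec_nonneg hT
  rw [fro_spec hU, trace_spec hU]
  exact (nrm_le_sum_abs l).trans (le_of_eq (sum_congr rfl fun j _ => abs_of_nonneg (hl j)))

omit [DecidableEq κ] in
/-- Positive parts are determined up to the Frobenius distance. -/
lemma fro_sub_le_of_parts {P N P' N' : Matrix κ κ ℝ} (hP : P.PosSemidef) (hN : N.PosSemidef)
    (hP' : P'.PosSemidef) (hN' : N'.PosSemidef) (h : ip P N = 0) (h' : ip P' N' = 0) :
    fro (P - P') ≤ fro (P - N - (P' - N')) := by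
  have h1 : fro (P - P') ^ 2 ≤ ip (P - P') (P - N - (P' - N')) := by
    have h2 := ip_nonneg hP hN'
    have h3 := ip_nonneg hP' hN
    rw [fro_sq]
    simp only [ip_sub_left, ip_sub_right]
    linarith
  have h2 := ip_le (P - P') (P - N - (P' - N'))
  rcases (fro_nonneg (P - P')).eq_or_lt with h0 | h0
  · rw [← h0]; exact fro_nonneg _
  · nlinarith

omit [DecidableEq κ] in
private lemma parts {n : Type*} [Fintype n] [DecidableEq n] {U : Matrix κ n ℝ} (hU : Orth U)
    (l : n → ℝ) :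
    (spec U fun j => max (l j) 0) - (spec U fun j => max (-l j) 0) = spec U l ∧
      ip (spec U fun j => max (l j) 0) (spec U fun j => max (-l j) 0) = 0 := by
  refine ⟨?_, ?_⟩
  · rw [← spec_sub]; congr 1; funext j; exact max_zero_sub_max_neg_zero_eq_self _
  · rw [ip_spec_spec hU]
    refine sum_eq_zero fun j _ => ?_
    rcases le_total (l j) 0 with h | h
    · simp [h]
    · simp [h]

lemma pos_spec {n : Type*} [Fintype n] [DecidableEq n] {U : Matrix κ n ℝ} (hU : Orth U)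
    (l : n → ℝ) : pos (spec U l) = spec U fun j => max (l j) 0 := by
  have hS := spec_isHermitian U l
  rw [pos, dif_pos hS]
  have h1 := parts hU l
  have h2 := parts (orth_eigenvectorUnitary hS) hS.eigenvalues
  have h := fro_sub_le_of_parts (spec_posSemidef _ fun j => le_max_right _ _)
    (spec_posSemidef _ fun j => le_max_right _ _) (spec_posSemidef _ fun j => le_max_right _ _)
    (spec_posSemidef _ fun j => le_max_right _ _) h2.2 h1.2
  rw [h1.1, h2.1, ← eq_spec_eigenvalues hS, sub_self, fro_zero] at h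
  exact sub_eq_zero.mp (fro_eq_zero.mp (le_antisymm h (fro_nonneg _)))

lemma pos_neg_spec {n : Type*} [Fintype n] [DecidableEq n] {U : Matrix κ n ℝ} (hU : Orth U)
    (l : n → ℝ) : pos (-spec U l) = spec U fun j => max (-l j) 0 := by
  rw [← spec_neg, pos_spec hU]; rfl

lemma pos_posSemidef (S : Matrix κ κ ℝ) : (pos S).PosSemidef := by
  unfold pos
  split_ifs
  · exact spec_posSemidef _ fun j => le_max_right _ _
  · exact PosSemidef.zero

lemma pos_sub_pos_neg {S : Matrix κ κ ℝ} (hS : S.IsHermitian) : pos S - pos (-S) = S := by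
  obtain ⟨U, l, hU, rfl⟩ := exists_spec hS
  rw [pos_spec hU, pos_neg_spec hU]; exact (parts hU l).1

lemma ip_pos_pos_neg {S : Matrix κ κ ℝ} (hS : S.IsHermitian) : ip (pos S) (pos (-S)) = 0 := by
  obtain ⟨U, l, hU, rfl⟩ := exists_spec hS
  rw [pos_spec hU, pos_neg_spec hU]; exact (parts hU l).2

lemma ip_pos_self {S : Matrix κ κ ℝ} (hS : S.IsHermitian) : ip S (pos S) = fro (pos S) ^ 2 := by
  conv_lhs => enter [1]; rw [← pos_sub_pos_neg hS]
  rw [ip_sub_left, ip_comm (pos (-S)), ip_pos_pos_neg hS, sub_zero, fro_sq]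

lemma fro_pos_sq_add {S : Matrix κ κ ℝ} (hS : S.IsHermitian) :
    fro (pos S) ^ 2 + fro (pos (-S)) ^ 2 = fro S ^ 2 := by
  conv_rhs => rw [← pos_sub_pos_neg hS]
  simp only [fro_sq, ip_sub_left, ip_sub_right, ip_comm (pos (-S)) (pos S), ip_pos_pos_neg hS]
  ring

lemma pos_of_posSemidef {S : Matrix κ κ ℝ} (hS : S.PosSemidef) : pos S = S := by
  obtain ⟨U, l, hU, hl, rfl⟩ := exists_spec_nonneg hS
  rw [pos_spec hU]; congr 1; funext j; exact max_eq_left (hl j)

lemma pos_neg_of_posSemidef {S : Matrix κ κ ℝ} (hS : S.PosSemidef) : pos (-S) = 0 := by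
  have := pos_sub_pos_neg hS.1
  rwa [pos_of_posSemidef hS, sub_eq_self] at this

lemma fro_pos_sub_le {S T : Matrix κ κ ℝ} (hS : S.IsHermitian) (hT : T.IsHermitian) :
    fro (pos S - pos T) ≤ fro (S - T) := by
  have := fro_sub_le_of_parts (pos_posSemidef S) (pos_posSemidef (-S)) (pos_posSemidef T)
    (pos_posSemidef (-T)) (ip_pos_pos_neg hS) (ip_pos_pos_neg hT)
  rwa [pos_sub_pos_neg hS, pos_sub_pos_neg hT] at this

lemma fro_pos_le {S : Matrix κ κ ℝ} (hS : S.IsHermitian) : fro (pos S) ≤ fro S := by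
  have h := fro_pos_sq_add hS
  exact (abs_le_of_sq_le_sq' (by nlinarith) (fro_nonneg S)).2

/-- The positive part is the nearest positive semidefinite matrix. -/
lemma fro_pos_le_fro_add {S N : Matrix κ κ ℝ} (hS : S.IsHermitian) (hN : N.PosSemidef) :
    fro (pos S) ≤ fro (S + N) := by
  have h := fro_pos_sub_le hS hN.1.neg
  rwa [pos_neg_of_posSemidef hN, sub_zero, sub_neg_eq_add] at h

lemma ip_le_ip_pos {S T : Matrix κ κ ℝ} (hS : S.IsHermitian) (hT : T.PosSemidef) :
    ip S T ≤ ip (pos S) T := by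
  conv_lhs => rw [← pos_sub_pos_neg hS]
  rw [ip_sub_left]
  linarith [ip_nonneg (pos_posSemidef (-S)) hT]

lemma opn_pos_le {S : Matrix κ κ ℝ} (hS : S.IsHermitian) {c : ℝ} (hc : 0 ≤ c)
    (h : ∀ v, qf S v ≤ c * (v ⬝ᵥ v)) : opn (pos S) ≤ c := by
  obtain ⟨U, l, hU, rfl⟩ := exists_spec hS
  rw [pos_spec hU]
  refine opn_spec_le hU hc fun j => ?_
  have := h (Uᵀ j)
  rw [qf_spec_col hU, hU.col_dot_self, mul_one] at this
  rw [abs_of_nonneg (le_max_right _ _)]
  exact max_le this hc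

lemma continuous_pos {X : Type*} [TopologicalSpace X] {f : X → Matrix κ κ ℝ} (hf : Continuous f)
    (h : ∀ x, (f x).IsHermitian) : Continuous fun x => pos (f x) := by
  refine continuous_matrix fun a b => continuous_iff_continuousAt.mpr fun x => ?_
  rw [ContinuousAt, tendsto_iff_dist_tendsto_zero]
  have h1 : Filter.Tendsto (fun y => fro (f y - f x)) (nhds x) (nhds (fro (f x - f x))) :=
    (continuous_fro (hf.sub continuous_const)).tendsto x
  rw [sub_self, fro_zero] at h1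
  exact squeeze_zero (fun _ => dist_nonneg)
    (fun y => (abs_le_fro (pos (f y) - pos (f x)) a b).trans (fro_pos_sub_le (h y) (h x))) h1

lemma nuc_spec {n : Type*} [Fintype n] [DecidableEq n] {U : Matrix κ n ℝ} (hU : Orth U)
    (l : n → ℝ) : nuc (spec U l) = ∑ j, |l j| := by
  rw [nuc, pos_spec hU, pos_neg_spec hU, trace_spec hU, trace_spec hU, ← sum_add_distrib]
  exact sum_congr rfl fun j _ => max_zero_add_max_neg_zero_eq_abs_self _

lemma nuc_eq_sum_abs_eigenvalues {S : Matrix κ κ ℝ} (hS : S.IsHermitian) :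
    nuc S = ∑ j, |hS.eigenvalues j| := by
  conv_lhs => rw [eq_spec_eigenvalues hS]
  exact nuc_spec (orth_eigenvectorUnitary hS) _

lemma nuc_nonneg (S : Matrix κ κ ℝ) : 0 ≤ nuc S :=
  add_nonneg (pos_posSemidef _).trace_nonneg (pos_posSemidef _).trace_nonneg

lemma nuc_of_posSemidef {S : Matrix κ κ ℝ} (hS : S.PosSemidef) : nuc S = S.trace := by
  rw [nuc, pos_of_posSemidef hS, pos_neg_of_posSemidef hS, trace_zero, add_zero]

@[simp] lemma nuc_zero : nuc (0 : Matrix κ κ ℝ) = 0 := by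
  rw [nuc_of_posSemidef PosSemidef.zero, trace_zero]

lemma nuc_eq_trace_add {S : Matrix κ κ ℝ} (hS : S.IsHermitian) :
    nuc S = S.trace + 2 * (pos (-S)).trace := by
  conv_rhs => enter [1]; rw [← pos_sub_pos_neg hS]
  rw [nuc, trace_sub]; ring

lemma abs_trace_le_nuc {S : Matrix κ κ ℝ} (hS : S.IsHermitian) : |S.trace| ≤ nuc S := by
  obtain ⟨U, l, hU, rfl⟩ := exists_spec hS
  rw [nuc_spec hU, trace_spec hU]; exact abs_sum_le_sum_abs _ _

lemma fro_le_nuc {S : Matrix κ κ ℝ} (hS : S.IsHermitian) : fro S ≤ nuc S := by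
  obtain ⟨U, l, hU, rfl⟩ := exists_spec hS
  rw [nuc_spec hU, fro_spec hU]; exact nrm_le_sum_abs l

lemma nuc_le_sqrt_mul_fro {S : Matrix κ κ ℝ} (hS : S.IsHermitian) :
    nuc S ≤ √(Fintype.card κ) * fro S := by
  obtain ⟨U, l, hU, rfl⟩ := exists_spec hS
  rw [nuc_spec hU, fro_spec hU]; exact sum_abs_le l

lemma ip_le_nuc {M S : Matrix κ κ ℝ} (hM : ∀ v, |qf M v| ≤ v ⬝ᵥ v) (hS : S.IsHermitian) :
    ip M S ≤ nuc S := by
  obtain ⟨U, l, hU, rfl⟩ := exists_spec hS
  rw [nuc_spec hU, ip_spec]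
  refine sum_le_sum fun j _ => (le_abs_self _).trans ?_
  have := hM (Uᵀ j)
  rw [hU.col_dot_self] at this
  rw [abs_mul]
  exact mul_le_of_le_one_right (abs_nonneg _) this

lemma exists_ip_eq_nuc {S : Matrix κ κ ℝ} (hS : S.IsHermitian) :
    ∃ M : Matrix κ κ ℝ, M.IsHermitian ∧ (∀ v, |qf M v| ≤ v ⬝ᵥ v) ∧ ip M S = nuc S := by
  obtain ⟨U, l, hU, rfl⟩ := exists_spec hS
  refine ⟨spec U fun j => if 0 ≤ l j then 1 else -1, spec_isHermitian _ _, fun v => ?_, ?_⟩
  · refine (abs_qf_le_opn _ v).trans (mul_le_of_le_one_left (dot_self_nonneg v) ?_)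
    exact opn_spec_le hU zero_le_one fun j => by split_ifs <;> simp
  · rw [nuc_spec hU, ip_spec_spec hU]
    refine sum_congr rfl fun j _ => ?_
    by_cases h : 0 ≤ l j
    · simp [h, abs_of_nonneg h]
    · simp [h, abs_of_neg (not_le.mp h)]

lemma nuc_add_le {S T : Matrix κ κ ℝ} (hS : S.IsHermitian) (hT : T.IsHermitian) :
    nuc (S + T) ≤ nuc S + nuc T := by
  obtain ⟨M, -, h1, h2⟩ := exists_ip_eq_nuc (hS.add hT)
  rw [← h2, ip_add_right]
  exact add_le_add (ip_le_nuc h1 hS) (ip_le_nuc h1 hT)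

lemma nuc_neg (S : Matrix κ κ ℝ) : nuc (-S) = nuc S := by rw [nuc, nuc, neg_neg, add_comm]

lemma nuc_smul {S : Matrix κ κ ℝ} (hS : S.IsHermitian) (c : ℝ) : nuc (c • S) = |c| * nuc S := by
  obtain ⟨U, l, hU, rfl⟩ := exists_spec hS
  simp [← spec_smul, nuc_spec hU, abs_mul, mul_sum]

lemma nuc_sub_le {P N : Matrix κ κ ℝ} (hP : P.PosSemidef) (hN : N.PosSemidef) :
    nuc (P - N) ≤ P.trace + N.trace := by
  have := nuc_add_le hP.1 hN.1.neg
  rwa [nuc_neg, nuc_of_posSemidef hP, nuc_of_posSemidef hN, ← sub_eq_add_neg] at this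

lemma continuous_nuc {X : Type*} [TopologicalSpace X] {f : X → Matrix κ κ ℝ} (hf : Continuous f)
    (h : ∀ x, (f x).IsHermitian) : Continuous fun x => nuc (f x) :=
  (continuous_pos hf h).matrix_trace.add (continuous_pos hf.neg fun x => (h x).neg).matrix_trace

section Goe

omit [Fintype κ] in
lemma goe_isHermitian (τ : ℝ) (B : κ → κ → ℝ) : (goe τ B).IsHermitian := by
  rw [isHermitian_iff, goe, transpose_sub, transpose_smul, transpose_smul, transpose_add,
    transpose_transpose, transpose_one, add_comm]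

omit [Fintype κ] in
lemma goe_eq (τ : ℝ) (B : κ → κ → ℝ) : goe τ B = goe 0 B - τ • 1 := by simp [goe]

lemma ip_goe (τ : ℝ) (B : κ → κ → ℝ) {S : Matrix κ κ ℝ} (hS : S.IsHermitian) :
    ip (goe τ B) S = ip (Matrix.of B) S - τ * S.trace := by
  have h : ip (Matrix.of B)ᵀ S = ip (Matrix.of B) S := by
    rw [← ip_transpose, transpose_transpose, isHermitian_iff.mp hS]
  rw [goe, ip_sub_left, ip_smul_left, ip_smul_left, ip_add_left, h, ip_comm 1, ip_one]; ring

lemma fro_goe_sub_le (τ : ℝ) (B B' : κ → κ → ℝ) :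
    fro (goe τ B - goe τ B') ≤ fro (Matrix.of B - Matrix.of B') := by
  have h : goe τ B - goe τ B' =
      (1 / 2 : ℝ) • ((Matrix.of B - Matrix.of B') + (Matrix.of B - Matrix.of B')ᵀ) := by
    simp only [goe, transpose_sub]; module
  have h2 := fro_add_le (Matrix.of B - Matrix.of B') (Matrix.of B - Matrix.of B')ᵀ
  rw [h, fro_smul, abs_of_pos (by norm_num)]
  rw [fro_transpose] at h2
  linarith

lemma fro_goe_zero_le (B : κ → κ → ℝ) : fro (goe 0 B) ≤ fro (Matrix.of B) := by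
  have h2 := fro_add_le (Matrix.of B) (Matrix.of B)ᵀ
  rw [fro_transpose] at h2
  rw [goe, zero_smul, sub_zero, fro_smul, abs_of_pos (by norm_num)]
  linarith

lemma opn_goe_zero_le (B : κ → κ → ℝ) : opn (goe 0 B) ≤ opn (Matrix.of B) := by
  have h2 := opn_add_le (Matrix.of B) (Matrix.of B)ᵀ
  rw [opn_transpose] at h2
  rw [goe, zero_smul, sub_zero, opn_smul, abs_of_pos (by norm_num)]
  linarith

omit [Fintype κ] in
lemma goe_neg (B : κ → κ → ℝ) : goe 0 (-B) = -goe 0 B := by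
  ext a b; simp [goe]; ring

omit [Fintype κ] in
@[fun_prop] lemma continuous_goe {X : Type*} [TopologicalSpace X] {t : X → ℝ}
    {f : X → κ → κ → ℝ} (ht : Continuous t) (hf : Continuous f) :
    Continuous fun x => goe (t x) (f x) := by
  refine continuous_matrix fun a b => ?_
  simp only [goe, Matrix.sub_apply, Matrix.smul_apply, Matrix.add_apply, transpose_apply, of_apply]
  fun_prop

@[fun_prop] lemma continuous_pos_goe {X : Type*} [TopologicalSpace X] {t : X → ℝ}
    {f : X → κ → κ → ℝ} (ht : Continuous t) (hf : Continuous f) :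
    Continuous fun x => pos (goe (t x) (f x)) :=
  continuous_pos (continuous_goe ht hf) fun _ => goe_isHermitian _ _

end Goe

omit [Fintype κ] [DecidableEq κ] in
@[fun_prop] lemma continuous_of {X : Type*} [TopologicalSpace X] {f : X → ι → κ → ℝ}
    (hf : Continuous f) : Continuous fun x => Matrix.of (f x) := hf

end Pool.Agent.Work.MP_6a50bc_pr
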