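import Pool.Agent.Work.MP_6a50bc_pr.Gordon
import Pool.Agent.Work.MP_6a50bc_pr.Quad
import Pool.Agent.Work.MP_6a50bc_pr.Conc
import Pool.Agent.Work.MP_6a50bc_pr.Spec
import Pool.Agent.Work.MP_6a50bc_pr.Sing
import Mathlib
import Pool.Agent.Work.MP_6a50bc_pr.Net

-- merged part: Pool.Agent.Work.MP_6a50bc_pr.UpperAux4
section
-- merged part: Pool.Agent.Work.MP_6a50bc_pr.Chaos
section
namespace Pool.Agent.Work.MP_6a50bc_pr

open MeasureTheory ProbabilityTheory Matrix Finset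
open scoped ENNReal

variable {ι κ : Type*} [Fintype ι] [DecidableEq ι] [Fintype κ] [DecidableEq κ]

/-- Block diagonal matrix with blocks `u k • S`, padded by zeros. -/
def big (R : Type*) (u : ι → ℝ) (S : Matrix κ κ ℝ) : Matrix ((ι × κ) ⊕ R) ((ι × κ) ⊕ R) ℝ :=
  fromBlocks (Matrix.of fun q q' => if q.1 = q'.1 then u q.1 * S q.2 q'.2 else 0) 0 0 0

section Big

variable {R : Type*} [Fintype R]

omit [DecidableEq κ] in
lemma big_mulVec (u : ι → ℝ) (S : Matrix κ κ ℝ) (x : (ι × κ) ⊕ R → ℝ) :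
    big R u S *ᵥ x = Sum.elim (fun q => u q.1 * (S *ᵥ fun a => x (Sum.inl (q.1, a))) q.2) 0 := by
  funext q
  rcases q with q | q
  · simp [big, mulVec, dotProduct, Fintype.sum_prod_type_right, mul_sum, mul_assoc]
  · simp [big, mulVec, dotProduct]

omit [DecidableEq κ] in
lemma big_mul (u u' : ι → ℝ) (S S' : Matrix κ κ ℝ) :
    big R u S * big R u' S' = big R (u * u') (S * S') := by
  simp only [big, fromBlocks_multiply, Matrix.mul_zero, Matrix.zero_mul, add_zero]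
  congr 1
  ext q q'
  simp only [mul_apply, of_apply, Fintype.sum_prod_type_right, ite_mul, zero_mul, sum_ite_eq',
    mem_univ, if_true, Pi.mul_apply, mul_ite, mul_zero]
  split_ifs with h
  · rw [mul_sum, h]; exact sum_congr rfl fun a _ => by ring
  · simp

omit [DecidableEq κ] in
lemma trace_big (u : ι → ℝ) (S : Matrix κ κ ℝ) : (big R u S).trace = ∑ k, u k * S.trace := by
  simp [big, trace, Fintype.sum_prod_type, mul_sum]

omit [DecidableEq κ] in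
lemma qf_big (u : ι → ℝ) (S : Matrix κ κ ℝ) (x : (ι × κ) ⊕ R → ℝ) :
    qf (big R u S) x = ∑ k, u k * qf S fun a => x (Sum.inl (k, a)) := by
  simp only [qf, big_mulVec]
  simp only [dotProduct, Fintype.sum_sum_type, Fintype.sum_prod_type, Sum.elim_inl, Sum.elim_inr,
    Pi.zero_apply, mul_zero, sum_const_zero, add_zero, mul_sum]
  exact sum_congr rfl fun k _ => sum_congr rfl fun a _ => by ring

omit [DecidableEq κ] in
lemma cq_big (u : ι → ℝ) (S : Matrix κ κ ℝ) (x : (ι × κ) ⊕ R → ℝ) :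
    cq (big R u S) x = ∑ k, u k * cq S fun a => x (Sum.inl (k, a)) := by
  simp only [cq, qf_big, trace_big, mul_sub, sum_sub_distrib]

omit [DecidableEq κ] [Fintype ι] [Fintype κ] [Fintype R] in
lemma big_isHermitian (u : ι → ℝ) {S : Matrix κ κ ℝ} (hS : S.IsHermitian) :
    (big R u S).IsHermitian := by
  refine IsHermitian.fromBlocks ?_ (by simp) isHermitian_zero
  ext q q'
  have := hS.apply q.2 q'.2
  simp only [conjTranspose_apply, of_apply, star_trivial] at this ⊢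
  by_cases h : q.1 = q'.1
  · simp [h, this]
  · simp [h, Ne.symm h]

end Big

/-- A second moment lower bound for the probability of exceeding the mean. -/
lemma paley {α : Type*} [MeasurableSpace α] {μ : Measure α} [IsProbabilityMeasure μ]
    {g Q : α → ℝ} (hg : Measurable g) (hQ : Integrable Q μ) (h : ∀ x, g x ^ 2 ≤ Q x) {P t c : ℝ}
    (hP : ∫ x, Q x ∂μ ≤ 8 * P) (ht : 0 < t) (htP : t ^ 2 ≤ P) (hE : t ≤ ∫ x, g x ∂μ + c) :
    ENNReal.ofReal (t ^ 2 / (100 * P)) ≤ μ {x | 0 ≤ g x + c} := by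
  have hP0 : 0 < P := (by positivity : 0 < t ^ 2).trans_le htP
  obtain ⟨r, hr, rfl⟩ : ∃ r : ℝ, 0 < r ∧ P = r ^ 2 :=
    ⟨√P, Real.sqrt_pos.mpr hP0, (Real.sq_sqrt hP0.le).symm⟩
  have htr : t ≤ r := by nlinarith only [htP, ht, hr]
  have hi : Integrable g μ := ((integrable_const 1).add hQ).mono' hg.aestronglyMeasurable
    (Filter.Eventually.of_forall fun x => by
      have := h x
      rw [← sq_abs] at this
      simp only [Real.norm_eq_abs, Pi.add_apply]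
      linarith only [this, sq_nonneg (g x), sq_abs (g x), sq_nonneg (|g x| - 1)])
  have hE' : t ≤ ∫ x, g x ∂μ + min c (4 * r) := by
    rcases le_total c (4 * r) with hc | hc
    · rwa [min_eq_left hc]
    · rw [min_eq_right hc]
      have h1 := integral_mono (μ := μ) (f := fun x => -(6 * r) * g x)
        (g := fun x => Q x + 9 * r ^ 2) (hi.const_mul _) (hQ.add (integrable_const _))
        fun x => by linarith only [h x, sq_nonneg (g x + 3 * r)]
      rw [integral_add hQ (integrable_const _), integral_const_mul, integral_const, probReal_univ,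
        one_smul] at h1
      nlinarith only [htr, ht, hP0, hr, hP, h1]
  have hm : MeasurableSet {x | 0 ≤ g x + c} := measurableSet_le measurable_const (hg.add_const c)
  have h1 := integral_mono (μ := μ) (f := fun x => 96 * r ^ 2 * t * (g x + min c (4 * r)))
    (g := fun x => t ^ 2 * (2 * Q x + 32 * r ^ 2) +
      (48 * r ^ 2) ^ 2 * {x | 0 ≤ g x + c}.indicator 1 x)
    ((hi.add (integrable_const _)).const_mul _)
    ((((hQ.const_mul _).add (integrable_const _)).const_mul _).add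
      (((integrable_const 1).indicator hm).const_mul _)) fun x => by
      have h0 : 0 ≤ Q x := (sq_nonneg _).trans (h x)
      have h2 := min_le_left c (4 * r)
      have h3 := min_le_right c (4 * r)
      by_cases hy : 0 ≤ g x + min c (4 * r)
      · have h4 : x ∈ {x | 0 ≤ g x + c} := by simp only [Set.mem_ofPred_eq]; linarith
        have h5 : (g x + min c (4 * r)) ^ 2 ≤ 2 * Q x + 32 * r ^ 2 := by
          have : (g x + min c (4 * r)) ^ 2 ≤ (g x + 4 * r) ^ 2 := by gcongr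
          linarith only [this, h x, sq_nonneg (g x - 4 * r)]
        simp only [Set.indicator_of_mem h4, Pi.one_apply]
        linarith only [sq_nonneg (t * (g x + min c (4 * r)) - 48 * r ^ 2),
          mul_le_mul_of_nonneg_left h5 (sq_nonneg t)]
      · have h4 : 0 ≤ {x | 0 ≤ g x + c}.indicator (1 : α → ℝ) x :=
          Set.indicator_nonneg (fun _ _ => zero_le_one) x
        have h5 : 96 * r ^ 2 * t * (g x + min c (4 * r)) ≤ 0 :=
          mul_nonpos_of_nonneg_of_nonpos (by positivity) (not_le.mp hy).le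
        exact h5.trans (by positivity)
  rw [integral_add (by exact ((hQ.const_mul _).add (integrable_const _)).const_mul _)
    (by exact ((integrable_const 1).indicator hm).const_mul _), integral_const_mul, integral_const_mul,
    integral_const_mul, integral_add hi (integrable_const _),
    integral_add (hQ.const_mul _) (integrable_const _), integral_const_mul,
    integral_indicator_one hm] at h1
  simp only [integral_const, probReal_univ, one_smul] at h1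
  rw [← ENNReal.ofReal_toReal (measure_ne_top μ _)]
  refine ENNReal.ofReal_le_ofReal ?_
  rw [div_le_iff₀ (by positivity), ← Measure.real]
  have h2 : 0 ≤ μ.real {x | 0 ≤ g x + c} := measureReal_nonneg
  have h3 := mul_le_mul_of_nonneg_left hE' (by positivity : 0 ≤ 96 * r ^ 2 * t)
  have h4 := mul_le_mul_of_nonneg_left hP (sq_nonneg t)
  have h5 : 48 * r ^ 2 * t ^ 2 ≤ 48 * r ^ 2 * (48 * r ^ 2 * μ.real {x | 0 ≤ g x + c}) := by
    nlinarith only [h1, h3, h4]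
  have h6 := le_of_mul_le_mul_left h5 (by positivity)
  nlinarith only [h6, mul_nonneg hP0.le h2]

/-- The expected min-max of the chaos dominates that of the auxiliary problem. -/
theorem chaos_mean {I J : Type*} [Fintype I] [Fintype J] [Nonempty I] [Nonempty J] [Nonempty ι]
    [Nonempty κ] (hlog : Real.log (Fintype.card ι) ≤ √(Fintype.card κ))
    (u : I → J → ι → ℝ) (S : I → J → Matrix κ κ ℝ) (b : I → J → ℝ)
    (hS : ∀ i j, (S i j).IsHermitian) (hdep : ∀ i j j', u i j = u i j' ∨ S i j = S i j')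
    {l σ F β : ℝ} (hβ : 0 < β) (hu : ∀ i j, nrm (u i j) ≤ 1) (hl : ∀ i j k, |u i j k| ≤ l)
    (hσ : ∀ i j, opn (S i j) ≤ σ) (hF : ∀ i j, fro (S i j) ≤ F)
    (hi : Integrable (fun x : ι → κ → ℝ =>
      mm fun i j => ∑ k, u i j k * cq (S i j) (x k) + b i j) (gm ι κ))
    (Φ : (ι → ℝ) × (κ → κ → ℝ) → ℝ) (hΦ : Integrable Φ ((gv ι).prod (gm κ κ)))
    (hΦle : ∀ γ B i, ∃ j, Φ (γ, B) ≤
      √2 * (fro (S i j) * (u i j ⬝ᵥ γ) + nrm (u i j) * ip (Matrix.of B) (S i j)) + b i j) :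
    ∫ q, Φ q ∂((gv ι).prod (gm κ κ)) ≤
      ∫ x, (mm fun i j => ∑ k, u i j k * cq (S i j) (x k) + b i j) ∂(gm ι κ) +
      (Real.log (Fintype.card I) + Real.log (Fintype.card J)) / β + 2 * F +
      1000 * β ^ 2 * l * σ ^ 3 * Fintype.card κ := by
  have m1 := (mp_curry (ι := ι) (κ := κ)).comp
    (mp_comp_gv (e := (Sum.inl : ι × κ → (ι × κ) ⊕ (Unit ⊕ (ι ⊕ κ × κ)))) Sum.inl_injective)
  have m2 := (((MeasurePreserving.id (gv ι)).prod (mp_curry (ι := κ) (κ := κ))).comp mp_sum).comp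
    (mp_comp_gv (e := (Sum.inr ∘ Sum.inr : ι ⊕ κ × κ → (ι × κ) ⊕ (Unit ⊕ (ι ⊕ κ × κ))))
      (Sum.inr_injective.comp Sum.inr_injective))
  obtain ⟨hs1, hs2⟩ := integral_iSup_dot_self_le hlog
  have i₀ : I := Classical.arbitrary _
  have j₀ : J := Classical.arbitrary _
  have hl0 : 0 ≤ l := (abs_nonneg _).trans (hl i₀ j₀ (Classical.arbitrary _))
  have hσ0 : 0 ≤ σ := (opn_nonneg _).trans (hσ i₀ j₀)
  have hF0 : 0 ≤ F := (fro_nonneg _).trans (hF i₀ j₀)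
  have s2 : √2 * √2 = 2 := Real.mul_self_sqrt zero_le_two
  set a : I → J → (ι × κ) ⊕ (Unit ⊕ (ι ⊕ κ × κ)) → ℝ := fun i j =>
    Sum.elim 0 (Sum.elim (fun _ => √2 * (nrm (u i j) * fro (S i j))) 0) with ha
  set c : I → J → (ι × κ) ⊕ (Unit ⊕ (ι ⊕ κ × κ)) → ℝ := fun i j =>
    Sum.elim 0 (Sum.elim 0 (Sum.elim ((√2 * fro (S i j)) • u i j)
      ((√2 * nrm (u i j)) • fun q : κ × κ => S i j q.1 q.2))) with hc
  have key : ∀ i j i' j', 2 * (big (Unit ⊕ (ι ⊕ κ × κ)) (u i' j') (S i' j') *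
        big (Unit ⊕ (ι ⊕ κ × κ)) (u i j) (S i j)).trace + a i j ⬝ᵥ a i' j' - c i j ⬝ᵥ c i' j' =
      2 * ((nrm (u i j) * nrm (u i' j') - u i j ⬝ᵥ u i' j') *
        (fro (S i j) * fro (S i' j') - ip (S i j) (S i' j'))) := by
    intro i j i' j'
    have e1 : (S i' j' * S i j).trace = ip (S i j) (S i' j') := by
      rw [ip_comm, ip_eq_trace, isHermitian_iff.mp (hS i' j')]
    have e2 : ∑ k, (u i' j' * u i j) k = u i j ⬝ᵥ u i' j' := by simp [dotProduct, mul_comm]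
    rw [big_mul, trace_big, ← sum_mul, e1, e2]
    simp only [ha, hc, sumElim_dotProduct_sumElim, zero_dotProduct, zero_add, add_zero,
      smul_dotProduct, dotProduct_smul, smul_eq_mul, ← ip_eq_dot]
    simp only [dotProduct, univ_unique, sum_const, card_singleton, one_smul]
    linear_combination (nrm (u i j) * nrm (u i' j') * fro (S i j) * fro (S i' j') -
      fro (S i j) * fro (S i' j') * ∑ k, u i j k * u i' j' k -
      nrm (u i j) * nrm (u i' j') * ip (S i j) (S i' j')) * s2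
  have h := compare hβ (M := fun i j => big (Unit ⊕ (ι ⊕ κ × κ)) (u i j) (S i j))
    (fun i j => big_isHermitian _ (hS i j)) (a := a) (c := c) b
    (fun i j i' j' => by
      rw [big_mulVec]; funext q; cases q <;> simp [ha, mulVec, dotProduct])
    (fun i j i' j' => by
      rw [big_mulVec]; funext q; cases q <;> simp [hc, mulVec, dotProduct])
    (fun i j i' j' => by simp [ha, hc, sumElim_dotProduct_sumElim])
    (fun i j i' j' => by
      have := mul_nonneg (sub_nonneg.mpr (dot_le (u i j) (u i' j')))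
        (sub_nonneg.mpr (ip_le (S i j) (S i' j')))
      linarith [key i j i' j'])
    (fun i j j' => by
      have := key i j i j'
      rcases hdep i j j' with e | e
      · rw [← e, ← _root_.sq, nrm_sq, sub_self, zero_mul] at this
        rw [← e]; linarith
      · rw [← e, ← _root_.sq, fro_sq, sub_self, mul_zero] at this
        rw [← e]; linarith)
    (W := fun x => l * σ ^ 3 * ⨆ k, (fun a => x (Sum.inl (k, a))) ⬝ᵥ fun a => x (Sum.inl (k, a)))
    ((m1.integrable_comp_of_integrable hs1).const_mul _) (fun x i j i' j' i'' j'' => by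
      rw [dotProduct_comm, dot_mulVec_symm (big_isHermitian _ (hS i'' j'')), mulVec_mulVec, ← qf,
        big_mul, big_mul, qf_big]
      set m := ⨆ k, (fun a => x (Sum.inl (k, a))) ⬝ᵥ fun a => x (Sum.inl (k, a)) with hm
      have hk : ∀ k, ((fun a => x (Sum.inl (k, a))) ⬝ᵥ fun a => x (Sum.inl (k, a))) ≤ m :=
        fun k => Finite.le_ciSup
          (fun k => (fun a => x (Sum.inl (k, a))) ⬝ᵥ fun a => x (Sum.inl (k, a))) k
      have hm0 : 0 ≤ m := (dot_self_nonneg _).trans (hk (Classical.arbitrary _))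
      have ho : opn (S i'' j'' * (S i' j' * S i j)) ≤ σ ^ 3 := by
        refine (opn_mul_le _ _).trans ?_
        rw [show σ ^ 3 = σ * (σ * σ) by ring]
        exact mul_le_mul (hσ _ _) ((opn_mul_le _ _).trans
          (mul_le_mul (hσ _ _) (hσ _ _) (opn_nonneg _) hσ0)) (opn_nonneg _) hσ0
      have hd : ∑ k, |u i' j' k| * |u i j k| ≤ 1 := by
        have := dot_le (fun k => |u i' j' k|) fun k => |u i j k|
        have e : ∀ v : ι → ℝ, nrm (fun k => |v k|) = nrm v := fun v => by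
          simp [nrm, dotProduct]
        rw [e, e] at this
        exact this.trans (mul_le_one₀ (hu _ _) (nrm_nonneg _) (hu _ _))
      refine (abs_sum_le_sum_abs _ _).trans ?_
      calc _ ≤ ∑ k, l * σ ^ 3 * m * (|u i' j' k| * |u i j k|) := by
            refine sum_le_sum fun k _ => ?_
            have h1 := (abs_qf_le_opn (S i'' j'' * (S i' j' * S i j))
              fun a => x (Sum.inl (k, a))).trans
              (mul_le_mul ho (hk k) (dot_self_nonneg _) (by positivity))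
            simp only [Pi.mul_apply, abs_mul]
            calc _ ≤ l * (|u i' j' k| * |u i j k|) * (σ ^ 3 * m) := by gcongr; exact hl _ _ _
              _ = _ := by ring
        _ ≤ _ := by rw [← mul_sum]; exact mul_le_of_le_one_right (by positivity) hd)
  have h3 := integral_mono (m2.integrable_comp_of_integrable hΦ)
    (PG.mm fun i j => (PG.lin (c i j)).add (PG.const (b i j))).integrable fun x => le_mm fun i => by
      obtain ⟨j, hj⟩ := hΦle (fun k => x (Sum.inr (Sum.inr (Sum.inl k))))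
        (fun k a => x (Sum.inr (Sum.inr (Sum.inr (k, a))))) i
      refine ⟨j, hj.trans_eq ?_⟩
      rw [ip_comm, ip_eq_dot]
      simp [hc, dotProduct, mul_add, mul_sum, mul_assoc]
  have h4 := integral_mono (μ := gv ((ι × κ) ⊕ (Unit ⊕ (ι ⊕ κ × κ))))
    (f := fun x => mm fun i j => cq (big _ (u i j) (S i j)) x + a i j ⬝ᵥ x + b i j)
    (g := fun x => mm (fun i j => ∑ k, u i j k * cq (S i j) (fun a => x (Sum.inl (k, a))) + b i j) +
      2 * F * |x (Sum.inr (Sum.inl ()))|)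
    (PG.mm fun i j => ((PG.cq _).add (PG.lin _)).add (PG.const _)).integrable
    ((m1.integrable_comp_of_integrable hi).add
      ((PG.const (2 * F)).mul (PG.coord _).abs).integrable) fun x => mm_le_mm_add fun i j => by
      have e1 : a i j ⬝ᵥ x = √2 * (nrm (u i j) * fro (S i j)) * x (Sum.inr (Sum.inl ())) := by
        simp [ha, dotProduct]
      have e2 : √2 * (nrm (u i j) * fro (S i j)) ≤ 2 * F := by
        have := nrm_nonneg (u i j)
        have := fro_nonneg (S i j)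
        calc _ ≤ 2 * (1 * F) := by
              gcongr
              · nlinarith only [s2, Real.sqrt_nonneg 2]
              · exact hu i j
              · exact hF i j
          _ = _ := by ring
      have e3 : 0 ≤ √2 * (nrm (u i j) * fro (S i j)) := by
        have := nrm_nonneg (u i j)
        have := fro_nonneg (S i j)
        positivity
      rw [cq_big, e1]
      nlinarith only [e2, e3, le_abs_self (x (Sum.inr (Sum.inl ()))), abs_nonneg (x (Sum.inr (Sum.inl ())))]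
  rw [integral_add (by exact m1.integrable_comp_of_integrable hi)
    ((PG.const _).mul (PG.coord _).abs).integrable, integral_const_mul] at h4
  have h5 := integral_comp_mp m1 hi.aestronglyMeasurable
  have h6 := integral_comp_mp m2 hΦ.aestronglyMeasurable
  have h7 := integral_comp_mp m1 hs1.aestronglyMeasurable
  rw [integral_const_mul] at h
  simp only [Function.comp_def] at h3 h5 h6 h7
  rw [h5] at h4
  rw [h6] at h3
  rw [h7] at h
  have h8 := mul_le_mul_of_nonneg_left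
    (integral_abs_coord_le (N := (ι × κ) ⊕ (Unit ⊕ (ι ⊕ κ × κ))) (Sum.inr (Sum.inl ())))
    (by positivity : 0 ≤ 2 * F)
  have h9 := mul_le_mul_of_nonneg_left hs2 (by positivity : 0 ≤ β ^ 2 * l * σ ^ 3)
  have h10 : 0 ≤ β ^ 2 * l * σ ^ 3 * Fintype.card κ := by positivity
  nlinarith only [h, h3, h4, h8, h9, h10]

/-- Lower tail of a min-max of Gaussian chaos, from a lower bound on Gordon's auxiliary problem. -/
theorem chaos_tail {I J : Type*} [Fintype I] [Fintype J] [Nonempty I] [Nonempty J] [Nonempty ι]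
    [Nonempty κ] (hlog : Real.log (Fintype.card ι) ≤ √(Fintype.card κ))
    (u : I → J → ι → ℝ) (S : I → J → Matrix κ κ ℝ) (b : I → J → ℝ)
    (hS : ∀ i j, (S i j).IsHermitian) (hdep : ∀ i j j', u i j = u i j' ∨ S i j = S i j')
    {l σ F β : ℝ} (hβ : 0 < β) (hu : ∀ i j, nrm (u i j) ≤ 1) (hl : ∀ i j k, |u i j k| ≤ l)
    (hσ : ∀ i j, opn (S i j) ≤ σ) (hF : ∀ i j, fro (S i j) ≤ F)
    (A : Set (ι → κ → ℝ)) {L t a : ℝ} (hL : 0 < L) (ht : 0 < t)
    (htF : t ^ 2 ≤ Fintype.card ι * (Fintype.card κ : ℝ) ^ 2 * F ^ 2)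
    (hLip : ∀ i j, ∀ x ∈ A, ∀ x' ∈ A,
      |∑ k, u i j k * (qf (S i j) (x k) - qf (S i j) (x' k))| ≤
        L * fro (Matrix.of x - Matrix.of x'))
    (hA : gm ι κ Aᶜ ≤
      ENNReal.ofReal (t ^ 2 / (200 * (Fintype.card ι * (Fintype.card κ : ℝ) ^ 2 * F ^ 2))))
    (Φ : (ι → ℝ) × (κ → κ → ℝ) → ℝ) (hΦ : Integrable Φ ((gv ι).prod (gm κ κ)))
    (hΦle : ∀ γ B i, ∃ j, Φ (γ, B) ≤
      √2 * (fro (S i j) * (u i j ⬝ᵥ γ) + nrm (u i j) * ip (Matrix.of B) (S i j)) + b i j)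
    (hAO : a + 2 * t + (Real.log (Fintype.card I) + Real.log (Fintype.card J)) / β + 2 * F +
      1000 * β ^ 2 * l * σ ^ 3 * Fintype.card κ ≤ ∫ q, Φ q ∂((gv ι).prod (gm κ κ))) :
    gm ι κ {x | x ∈ A ∧ ∃ i, ∀ j, ∑ k, u i j k * cq (S i j) (x k) + b i j ≤ a} ≤
      ENNReal.ofReal (200 * (Fintype.card ι * (Fintype.card κ : ℝ) ^ 2 * F ^ 2) / t ^ 2 *
        Real.exp (-(t / L) ^ 2 / 8)) := by
  set P : ℝ := Fintype.card ι * (Fintype.card κ : ℝ) ^ 2 * F ^ 2 with hP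
  set f : (ι → κ → ℝ) → ℝ := fun x => mm fun i j => ∑ k, u i j k * cq (S i j) (x k) + b i j with hf
  have hP0 : 0 < P := (by positivity : 0 < t ^ 2).trans_le htF
  have hF0 : 0 ≤ F := (fro_nonneg _).trans (hF (Classical.arbitrary _) (Classical.arbitrary _))
  have hd1 : (1 : ℝ) ≤ Fintype.card κ := Nat.one_le_cast.mpr Fintype.card_pos
  have cf : Continuous f := by rw [hf]; fun_prop
  have hg : ∀ x, (f x - mm b) ^ 2 ≤
      ∑ k, 2 * F ^ 2 * ((x k ⬝ᵥ x k) ^ 2 + Fintype.card κ) := by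
    intro x
    have h1 : |f x - mm b| ≤ nrm fun k => F * (x k ⬝ᵥ x k + √(Fintype.card κ)) :=
      abs_mm_sub_le fun i j => by
        rw [add_sub_cancel_right]
        refine (abs_dot_le (u i j) fun k => cq (S i j) (x k)).trans ?_
        refine (mul_le_of_le_one_left (nrm_nonneg _) (hu i j)).trans (nrm_mono fun k => ?_)
        refine (abs_cq_le _ _).trans (le_trans ?_ (le_abs_self _))
        have := dot_self_nonneg (x k)
        gcongr
        exact hF i j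
    rw [← sq_abs]
    refine (pow_le_pow_left₀ (abs_nonneg _) h1 2).trans ?_
    rw [nrm_sq]
    refine sum_le_sum fun k _ => ?_
    have h2 : √(Fintype.card κ : ℝ) ^ 2 = Fintype.card κ := Real.sq_sqrt (by positivity)
    nlinarith only [h2, mul_nonneg (sq_nonneg F) (sq_nonneg (x k ⬝ᵥ x k - √(Fintype.card κ)))]
  have pq : PG fun g : κ → ℝ => 2 * F ^ 2 * ((g ⬝ᵥ g) ^ 2 + Fintype.card κ) := by
    simpa only [_root_.sq] using (PG.const (2 * (F * F))).mul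
      (((PG.dot (N := κ) PG.coord PG.coord).mul (PG.dot PG.coord PG.coord)).add (PG.const _))
  have iq : ∀ k, Integrable (fun x : ι → κ → ℝ =>
      2 * F ^ 2 * ((x k ⬝ᵥ x k) ^ 2 + Fintype.card κ)) (gm ι κ) :=
    fun k => (mp_eval k).integrable_comp_of_integrable pq.integrable
  have iQ := integrable_finsetSum univ fun k _ => iq k
  have hQ : ∫ x, ∑ k, 2 * F ^ 2 * ((x k ⬝ᵥ x k) ^ 2 + Fintype.card κ) ∂(gm ι κ) ≤ 8 * P := by
    have i2 : Integrable (fun g : κ → ℝ => (g ⬝ᵥ g) ^ 2) (gv κ) := by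
      simpa only [_root_.sq] using
        ((PG.dot (N := κ) PG.coord PG.coord).mul (PG.dot PG.coord PG.coord)).integrable
    rw [integral_finsetSum _ fun k _ => iq k,
      sum_congr rfl fun (k : ι) _ => integral_comp_mp (mp_eval (ι := ι) k) pq.1.aestronglyMeasurable,
      integral_const_mul, integral_add i2 (integrable_const _), integral_dot_self_sq,
      integral_const, probReal_univ, one_smul, sum_const, card_univ, nsmul_eq_mul, hP]
    have : 0 ≤ (Fintype.card ι : ℝ) * F ^ 2 * (Fintype.card κ * (Fintype.card κ - 1)) := by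
      have := sub_nonneg.mpr hd1
      positivity
    nlinarith only [this]
  have hi : Integrable f (gm ι κ) := by
    refine (((integrable_const 1).add iQ).add (integrable_const |mm b|)).mono'
      cf.aestronglyMeasurable (Filter.Eventually.of_forall fun x => ?_)
    have h1 := hg x
    have h2 := abs_add_le (f x - mm b) (mm b)
    rw [← sq_abs] at h1
    rw [sub_add_cancel] at h2
    simp only [Real.norm_eq_abs, Pi.add_apply]
    nlinarith only [h1, h2, abs_nonneg (f x - mm b), sq_nonneg (|f x - mm b| - 1)]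
  have hmean := chaos_mean hlog u S b hS hdep hβ hu hl hσ hF hi Φ hΦ hΦle
  have hpz := paley (g := fun x => f x - mm b) (cf.sub continuous_const).measurable iQ hg hQ ht htF
    (c := mm b - a - t) (by
      rw [integral_sub hi (integrable_const _), integral_const, probReal_univ, one_smul]
      linarith only [hAO, hmean])
  have h2 : ENNReal.ofReal (t ^ 2 / (200 * P)) ≤ gm ι κ {x | x ∈ A ∧ a + t ≤ f x} := by
    have h3 : {x | 0 ≤ f x - mm b + (mm b - a - t)} ⊆ {x | x ∈ A ∧ a + t ≤ f x} ∪ Aᶜ := by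
      intro x hx
      by_cases hxA : x ∈ A
      · exact Or.inl ⟨hxA, by simp only [Set.mem_ofPred_eq] at hx; linarith only [hx]⟩
      · exact Or.inr hxA
    have h4 := hpz.trans ((measure_mono h3).trans ((measure_union_le _ _).trans
      (add_le_add le_rfl hA)))
    rw [show t ^ 2 / (100 * P) = t ^ 2 / (200 * P) + t ^ 2 / (200 * P) by field_simp; ring,
      ENNReal.ofReal_add (by positivity) (by positivity)] at h4
    exact (ENNReal.add_le_add_iff_right ENNReal.ofReal_ne_top).mp h4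
  have h5 := conc_two_set_gm
    (A := {x | x ∈ A ∧ ∃ i, ∀ j, ∑ k, u i j k * cq (S i j) (x k) + b i j ≤ a})
    (B := {x | x ∈ A ∧ a + t ≤ f x}) (r := t / L) (by positivity) (by
      rintro x ⟨hx, i, hi⟩ y ⟨hy, hy'⟩
      have e1 : f x ≤ a := mm_le i hi
      have e2 : |f x - f y| ≤ L * fro (Matrix.of x - Matrix.of y) := abs_mm_sub_le fun i j => by
        convert hLip i j x hx y hy using 2
        simp only [cq, mul_sub, sum_sub_distrib]
        ring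
      rw [div_le_iff₀ hL]
      linarith only [hy', e1, e2, neg_abs_le (f x - f y)])
  have h6 := (mul_le_mul_right h2 _).trans h5
  rw [← ENNReal.le_div_iff_mul_le (Or.inl (by simp; positivity)) (Or.inl ENNReal.ofReal_ne_top),
    ← ENNReal.ofReal_div_of_pos (by positivity)] at h6
  convert h6 using 2
  field_simp

end Pool.Agent.Work.MP_6a50bc_pr
end

-- merged part: Pool.Agent.Work.MP_6a50bc_pr.Trunc
section
namespace Pool.Agent.Work.MP_6a50bc_pr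

open MeasureTheory ProbabilityTheory Matrix Finset
open scoped ENNReal

variable {ι κ : Type*} [Fintype ι] [DecidableEq ι] [Fintype κ] [DecidableEq κ]

namespace TruncAux

/-- Clipping at level `M`. -/
noncomputable def clip (M z : ℝ) : ℝ := max (-M) (min z M)

@[fun_prop] lemma continuous_clip {X : Type*} [TopologicalSpace X] (M : ℝ) {f : X → ℝ}
    (hf : Continuous f) : Continuous fun x => clip M (f x) := by
  unfold clip; fun_prop

lemma clip_cases {M : ℝ} (hM : 0 ≤ M) (z : ℝ) :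
    (clip M z = z ∧ -M ≤ z ∧ z ≤ M) ∨ (clip M z = M ∧ M ≤ z) ∨ (clip M z = -M ∧ z ≤ -M) := by
  unfold clip
  rcases le_total z M with h | h
  · rcases le_total (-M) z with h' | h'
    · left; exact ⟨by rw [min_eq_left h, max_eq_right h'], h', h⟩
    · right; right; exact ⟨by rw [min_eq_left h, max_eq_left h'], h'⟩
  · right; left; exact ⟨by rw [min_eq_right h, max_eq_right (by linarith)], h⟩

lemma abs_clip_le {M : ℝ} (hM : 0 ≤ M) (z : ℝ) : |clip M z| ≤ M := by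
  rcases clip_cases hM z with ⟨h, h1, h2⟩ | ⟨h, _⟩ | ⟨h, _⟩ <;> rw [h, abs_le] <;>
    constructor <;> linarith

lemma clip_sq_le_mul {M : ℝ} (hM : 0 ≤ M) (z : ℝ) : clip M z * clip M z ≤ clip M z * z := by
  rcases clip_cases hM z with ⟨h, _, _⟩ | ⟨h, h1⟩ | ⟨h, h1⟩ <;> rw [h] <;> nlinarith only [hM, h1]

lemma clip_sq_le {M : ℝ} (hM : 0 ≤ M) (z : ℝ) : clip M z ^ 2 ≤ z ^ 2 := by
  rcases clip_cases hM z with ⟨h, _, _⟩ | ⟨h, h1⟩ | ⟨h, h1⟩ <;> rw [h] <;> nlinarith only [hM, h1]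

lemma le_clip_sq {M : ℝ} (hM : 0 < M) (z : ℝ) : z ^ 2 - z ^ 4 / M ^ 2 ≤ clip M z ^ 2 := by
  have hM2 : 0 < M ^ 2 := by positivity
  have key : M ^ 2 ≤ z ^ 2 → z ^ 2 - z ^ 4 / M ^ 2 ≤ 0 := fun h => by
    have : z ^ 2 ≤ z ^ 4 / M ^ 2 := by
      rw [le_div_iff₀ hM2]
      nlinarith only [h, sq_nonneg z]
    linarith
  rcases clip_cases hM.le z with ⟨h, _, _⟩ | ⟨_, h1⟩ | ⟨_, h1⟩
  · rw [h]
    have : 0 ≤ z ^ 4 / M ^ 2 := by positivity
    linarith
  · exact (key (by nlinarith only [hM, h1])).trans (sq_nonneg _)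
  · exact (key (by nlinarith only [hM, h1])).trans (sq_nonneg _)

lemma exp_neg_le_quad {y : ℝ} (hy : 0 ≤ y) : Real.exp (-y) ≤ 1 - y + y ^ 2 / 2 := by
  have h := Real.quadratic_le_exp_of_nonneg hy
  have hp : 0 < 1 - y + y ^ 2 / 2 := by linarith only [sq_nonneg (y - 1)]
  rw [Real.exp_neg, inv_le_iff_one_le_mul₀ (Real.exp_pos y)]
  calc (1 : ℝ) ≤ (1 - y + y ^ 2 / 2) * (1 + y + y ^ 2 / 2) := by linarith only [sq_nonneg (y ^ 2)]
    _ ≤ _ := mul_le_mul_of_nonneg_left h hp.le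

lemma exp_clip_le {M l : ℝ} (hM : 0 < M) (hl : 0 ≤ l) (z : ℝ) :
    Real.exp (-(l * clip M z ^ 2)) ≤ 1 - l * z ^ 2 + (l / M ^ 2 + l ^ 2 / 2) * z ^ 4 := by
  have h1 := exp_neg_le_quad (y := l * clip M z ^ 2) (by positivity)
  have h2 := mul_le_mul_of_nonneg_left (le_clip_sq hM z) hl
  have h3 : (clip M z ^ 2) ^ 2 ≤ (z ^ 2) ^ 2 :=
    pow_le_pow_left₀ (sq_nonneg _) (clip_sq_le hM.le z) 2
  have h4 := mul_le_mul_of_nonneg_left h3 (sq_nonneg l)
  have e1 : (l / M ^ 2 + l ^ 2 / 2) * z ^ 4 = l * (z ^ 4 / M ^ 2) + l ^ 2 * (z ^ 2) ^ 2 / 2 := by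
    ring
  rw [e1]
  linarith only [h1, h2, h4]

lemma add_three_pow_four (x y w : ℝ) : (x + y - w) ^ 4 ≤ 27 * (x ^ 4 + y ^ 4 + w ^ 4) := by
  have h1 : (x + y - w) ^ 2 ≤ 3 * (x ^ 2 + y ^ 2 + w ^ 2) := by
    linarith [sq_nonneg (x - y), sq_nonneg (x + w), sq_nonneg (y + w)]
  have h2 : (x ^ 2 + y ^ 2 + w ^ 2) ^ 2 ≤ 3 * (x ^ 4 + y ^ 4 + w ^ 4) := by
    linarith [sq_nonneg (x ^ 2 - y ^ 2), sq_nonneg (x ^ 2 - w ^ 2), sq_nonneg (y ^ 2 - w ^ 2)]
  have h3 := pow_le_pow_left₀ (sq_nonneg _) h1 2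
  linarith

lemma integrable_pow_gauss (k : ℕ) : Integrable (fun t : ℝ => t ^ k) (gaussianReal 0 1) := by
  have h := (memLp_id_gaussianReal' (μ := 0) (v := 1) k (by simp)).integrable_norm_pow'
  refine h.mono' (by fun_prop) (Filter.Eventually.of_forall fun t => ?_)
  simp

lemma integral_unit (f : ℝ → ℝ) (hf : Continuous f) :
    ∫ t, f t ∂(gaussianReal 0 1) = ∫ g : Unit → ℝ, f (g ()) ∂(gv Unit) := by
  rw [← (mp_eval_gv (κ := Unit) ()).map_eq, integral_map (mp_eval_gv (κ := Unit) ()).aemeasurable hf.aestronglyMeasurable]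

lemma integral_sq_gauss : ∫ t : ℝ, t ^ 2 ∂(gaussianReal 0 1) = 1 := by
  rw [integral_unit _ (by fun_prop)]
  have h := integral_dot_self (κ := Unit)
  simpa [dotProduct, sq] using h

lemma integral_four_gauss : ∫ t : ℝ, t ^ 4 ∂(gaussianReal 0 1) = 3 := by
  rw [integral_unit _ (by fun_prop)]
  have h := integral_dot_self_sq (κ := Unit)
  simp only [dotProduct, Finset.univ_unique, sum_singleton, Fintype.card_unique, Nat.cast_one] at h
  rw [show (3 : ℝ) = 1 ^ 2 + 2 * 1 by norm_num, ← h]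
  congr 1
  funext g
  ring

/-- The inner exponential moment. -/
noncomputable def psi (M l b c : ℝ) : ℝ :=
  ∫ t, Real.exp (-(l * clip M (b * t + c) ^ 2)) ∂(gaussianReal 0 1)

lemma integrable_exp_clip (M : ℝ) {l : ℝ} (hl : 0 ≤ l) (b c : ℝ) :
    Integrable (fun t => Real.exp (-(l * clip M (b * t + c) ^ 2))) (gaussianReal 0 1) := by
  refine (integrable_const (1 : ℝ)).mono' (Continuous.aestronglyMeasurable (by fun_prop))
    (Filter.Eventually.of_forall fun t => ?_)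
  rw [Real.norm_eq_abs, abs_of_pos (Real.exp_pos _), Real.exp_le_one_iff]
  have : 0 ≤ l * clip M (b * t + c) ^ 2 := by positivity
  linarith

lemma psi_nonneg (M l b c : ℝ) : 0 ≤ psi M l b c :=
  integral_nonneg fun _ => (Real.exp_pos _).le

lemma psi_le_one (M : ℝ) {l : ℝ} (hl : 0 ≤ l) (b c : ℝ) : psi M l b c ≤ 1 := by
  have h := integral_mono (integrable_exp_clip M hl b c) (integrable_const (1 : ℝ)) fun t => by
    show Real.exp _ ≤ 1
    rw [Real.exp_le_one_iff]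
    have : 0 ≤ l * clip M (b * t + c) ^ 2 := by positivity
    linarith
  unfold psi
  simpa using h

lemma integral_quartic {α : Type*} [MeasurableSpace α] {μ : Measure α} [IsProbabilityMeasure μ]
    {f g h : α → ℝ} (hf : Integrable f μ) (hg : Integrable g μ) (hh : Integrable h μ)
    (A a b c : ℝ) :
    ∫ x, (A + (a * f x + (b * g x + c * h x))) ∂μ =
      A + (a * ∫ x, f x ∂μ + (b * ∫ x, g x ∂μ + c * ∫ x, h x ∂μ)) := by
  have i3 : Integrable (fun x => b * g x + c * h x) μ := (hg.const_mul _).add (hh.const_mul _)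
  have i2 : Integrable (fun x => a * f x + (b * g x + c * h x)) μ := (hf.const_mul _).add i3
  rw [integral_add (integrable_const _) i2, integral_add (hf.const_mul _) i3,
    integral_add (hg.const_mul _) (hh.const_mul _), integral_const_mul, integral_const_mul,
    integral_const_mul]
  simp

lemma measurable_psi (M l b : ℝ) : Measurable fun c => psi M l b c := by
  have h : StronglyMeasurable (Function.uncurry fun (c t : ℝ) =>
      Real.exp (-(l * clip M (b * t + c) ^ 2))) :=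
    Continuous.stronglyMeasurable (by unfold Function.uncurry; fun_prop)
  exact (h.integral_prod_right (ν := gaussianReal 0 1)).measurable

lemma psi_le {M l : ℝ} (hM : 0 < M) (hl : 0 ≤ l) (b T q : ℝ) :
    psi M l b (T - q) ≤ 1 - l * (b ^ 2 + (T - q) ^ 2) +
      (l / M ^ 2 + l ^ 2 / 2) * 27 * (3 * b ^ 4 + T ^ 4 + q ^ 4) := by
  set K := l / M ^ 2 + l ^ 2 / 2 with hK
  have hK0 : 0 ≤ K := by positivity
  have i1 := integrable_pow_gauss 1
  have i2 := integrable_pow_gauss 2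
  have i4 := integrable_pow_gauss 4
  have e1 : ∫ t : ℝ, t ^ 1 ∂(gaussianReal 0 1) = 0 := by simp
  set A := 1 - l * (T - q) ^ 2 + K * 27 * (T ^ 4 + q ^ 4)
  have hI : Integrable (fun t : ℝ => A + (-(2 * l * b * (T - q)) * t ^ 1 +
      (-(l * b ^ 2) * t ^ 2 + K * 27 * b ^ 4 * t ^ 4))) (gaussianReal 0 1) :=
    (integrable_const _).add ((i1.const_mul _).add ((i2.const_mul _).add (i4.const_mul _)))
  have h := integral_mono (integrable_exp_clip M hl b (T - q)) hI fun t => by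
    have h1 := exp_clip_le hM hl (b * t + (T - q))
    have h2 := mul_le_mul_of_nonneg_left (add_three_pow_four (b * t) T q) hK0
    have e : b * t + (T - q) = b * t + T - q := by ring
    show Real.exp _ ≤ _
    rw [← hK] at h1
    rw [← e] at h2
    simp only [A]
    linarith only [h1, h2]
  rw [integral_quartic i1 i2 i4, e1, integral_sq_gauss, integral_four_gauss] at h
  simp only [A] at h
  unfold psi
  linarith only [h]

omit [DecidableEq κ] in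
lemma integrable_psi (M : ℝ) {l : ℝ} (hl : 0 ≤ l) (b T : ℝ) (S : Matrix κ κ ℝ) :
    Integrable (fun g => psi M l b (T - cq S g)) (gv κ) := by
  have hm : Measurable fun g : κ → ℝ => psi M l b (T - cq S g) :=
    (measurable_psi M l b).comp (Continuous.measurable (by fun_prop))
  refine (integrable_const (1 : ℝ)).mono' hm.aestronglyMeasurable
    (Filter.Eventually.of_forall fun g => ?_)
  rw [Real.norm_eq_abs, abs_of_nonneg (psi_nonneg _ _ _ _)]
  exact psi_le_one M hl _ _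

lemma integral_psi_le {M l : ℝ} (hM : 0 < M) (hl : 0 ≤ l) (b T : ℝ) {S : Matrix κ κ ℝ}
    (hS : S.IsHermitian) :
    ∫ g, psi M l b (T - cq S g) ∂(gv κ) ≤ 1 - l * (b ^ 2 + 2 * fro S ^ 2 + T ^ 2) +
      (l / M ^ 2 + l ^ 2 / 2) * (67500 * (b ^ 2 + 2 * fro S ^ 2 + T ^ 2) ^ 2) := by
  set K := l / M ^ 2 + l ^ 2 / 2 with hK
  have hK0 : 0 ≤ K := by positivity
  have i1 := integrable_cq_pow S 1
  have i2 := integrable_cq_pow S 2
  have i4 := integrable_cq_pow S 4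
  have e1 : ∫ g, cq S g ^ 1 ∂(gv κ) = 0 := by simpa using integral_cq S
  set A := 1 - l * (b ^ 2 + T ^ 2) + K * 27 * (3 * b ^ 4 + T ^ 4)
  have hI : Integrable (fun g => A + (2 * l * T * cq S g ^ 1 +
      (-l * cq S g ^ 2 + K * 27 * cq S g ^ 4))) (gv κ) :=
    (integrable_const _).add ((i1.const_mul _).add ((i2.const_mul _).add (i4.const_mul _)))
  have h := integral_mono (integrable_psi M hl b T S) hI fun g => by
    have h1 := psi_le hM hl b T (cq S g)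
    rw [← hK] at h1
    simp only [A]
    linarith only [h1]
  rw [integral_quartic i1 i2 i4, e1, integral_cq_sq hS] at h
  simp only [A] at h
  have h4 := mul_le_mul_of_nonneg_left (integral_cq_four_le hS) (by positivity : 0 ≤ K * 27)
  have h5 : 27 * (3 * b ^ 4 + T ^ 4 + 10 ^ 4 * fro S ^ 4) ≤
      67500 * (b ^ 2 + 2 * fro S ^ 2 + T ^ 2) ^ 2 := by
    have hb := sq_nonneg b
    have hT := sq_nonneg T
    have hf := sq_nonneg (fro S)
    have := mul_nonneg hb hT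
    have := mul_nonneg hb hf
    have := mul_nonneg hT hf
    have := sq_nonneg (b ^ 2)
    have := sq_nonneg (T ^ 2)
    linarith
  have h6 := mul_le_mul_of_nonneg_left h5 hK0
  linarith only [h, h4, h6]

omit [DecidableEq ι] in
/-- The deterministic choice of the test vector. -/
lemma exists_test {M R r : ℝ} (hM : 0 ≤ M) (hR : 0 < R) (hr0 : 0 ≤ r) (hr : r ≤ 1) {l : ℝ}
    (hl : 0 ≤ l) (z : ι → ℝ) :
    ∃ u : ι → ℝ, nrm u ≤ 1 ∧ (∀ k, |u k| ≤ M / R) ∧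
      r * R * (1 - Real.exp (l * (r * R ^ 2)) * ∏ k, Real.exp (-(l * clip M (z k) ^ 2))) ≤
        ∑ k, u k * z k := by
  set φ : ι → ℝ := fun k => clip M (z k) with hφ
  set N := max (nrm φ) R with hN
  have hRN : R ≤ N := le_max_right _ _
  have hN0 : 0 < N := hR.trans_le hRN
  have hsq : nrm φ ^ 2 = ∑ k, φ k * φ k := nrm_sq φ
  refine ⟨N⁻¹ • φ, ?_, fun k => ?_, ?_⟩
  · rw [nrm_smul, abs_of_pos (inv_pos.mpr hN0), inv_mul_le_iff₀ hN0, mul_one]
    exact le_max_left _ _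
  · rw [Pi.smul_apply, smul_eq_mul, abs_mul, abs_of_pos (inv_pos.mpr hN0), inv_mul_eq_div]
    exact div_le_div₀ hM (abs_clip_le hM _) hR hRN
  · have h1 : N⁻¹ * nrm φ ^ 2 ≤ ∑ k, (N⁻¹ • φ) k * z k := by
      rw [hsq, mul_sum]
      refine sum_le_sum fun k _ => ?_
      rw [Pi.smul_apply, smul_eq_mul, mul_assoc]
      exact mul_le_mul_of_nonneg_left (clip_sq_le_mul hM _) (inv_pos.mpr hN0).le
    refine le_trans ?_ h1
    have e : Real.exp (l * (r * R ^ 2)) * ∏ k, Real.exp (-(l * clip M (z k) ^ 2)) =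
        Real.exp (l * (r * R ^ 2 - nrm φ ^ 2)) := by
      rw [← Real.exp_sum, ← Real.exp_add, hsq, sum_neg_distrib, ← mul_sum]
      congr 1
      simp only [hφ, sq]
      ring
    rw [e]
    have hrR : 0 ≤ r * R := by positivity
    rcases le_total (r * R ^ 2) (nrm φ ^ 2) with h | h
    · have h2 : r * R ≤ N⁻¹ * nrm φ ^ 2 := by
        rw [inv_mul_eq_div, le_div_iff₀ hN0]
        rcases le_total (nrm φ) R with h' | h'
        · rw [hN, max_eq_right h']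
          linarith
        · rw [hN, max_eq_left h']
          have h3 : r * R ≤ nrm φ := by nlinarith only [h', hR, hr]
          nlinarith only [hr, hR, h', h3, nrm_nonneg φ]
      have := Real.exp_pos (l * (r * R ^ 2 - nrm φ ^ 2))
      nlinarith only [h2, hrR, this]
    · have h2 : 1 ≤ Real.exp (l * (r * R ^ 2 - nrm φ ^ 2)) :=
        Real.one_le_exp (mul_nonneg hl (by linarith))
      have h3 : 0 ≤ N⁻¹ * nrm φ ^ 2 := by positivity
      nlinarith only [h3, hrR, h2]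

end TruncAux

open TruncAux in
/-- Truncated small ball estimate for Gordon's auxiliary problem with an external field. -/
theorem trunc_ball {S : Matrix κ κ ℝ} (hS : S.IsHermitian) (a T : ℝ) {ε : ℝ} (hε : 0 < ε)
    (hε1 : ε ≤ 1) (hn : 10 ^ 7 ≤ ε ^ 3 * Fintype.card ι) :
    gm ι κ {x | ¬ ∃ Ψ : (ι → ℝ) → ℝ, Integrable Ψ (gv ι) ∧
        (1 - ε) * √(Fintype.card ι) * √(2 * a ^ 2 + 2 * fro S ^ 2 + T ^ 2) ≤ ∫ γ, Ψ γ ∂(gv ι) ∧
        ∀ γ, ∃ u : ι → ℝ, nrm u ≤ 1 ∧ (∀ k, |u k| ≤ 1000 / (ε * √(Fintype.card ι))) ∧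
          Ψ γ ≤ ∑ k, u k * (√2 * a * γ k + T - cq S (x k))} ≤
      ENNReal.ofReal (Real.exp (-(ε ^ 2 * Fintype.card ι / 10 ^ 7))) := by
  set n : ℝ := (Fintype.card ι : ℝ) with hn_def
  have hn0 : 0 < n := by
    have : 0 < ε ^ 3 * n := lt_of_lt_of_le (by norm_num) hn
    rcases pos_and_pos_or_neg_and_neg_of_mul_pos this with h | h
    · exact h.2
    · exact absurd h.1 (not_lt.mpr (by positivity))
  have hsn : 0 < √n := Real.sqrt_pos.mpr hn0
  set D2 : ℝ := 2 * a ^ 2 + 2 * fro S ^ 2 + T ^ 2 with hD2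
  have hD20 : 0 ≤ D2 := by positivity
  rcases hD20.eq_or_lt with hD | hD
  · refine le_of_eq_of_le ?_ zero_le
    convert measure_empty (μ := gm ι κ)
    ext x
    simp only [Set.mem_ofPred_eq, Set.mem_empty_iff_false, iff_false, not_not]
    refine ⟨fun _ => 0, integrable_zero _ _ _, by simp [← hD], fun γ => ⟨0, ?_, fun k => ?_, ?_⟩⟩
    · simp [nrm]
    · simp only [Pi.zero_apply, abs_zero]
      positivity
    · simp
  set D := √D2 with hD_def
  have hD0 : 0 < D := Real.sqrt_pos.mpr hD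
  have hDsq : D ^ 2 = D2 := Real.sq_sqrt hD20
  set b := √2 * a with hb
  have hb2 : b ^ 2 = 2 * a ^ 2 := by rw [hb, mul_pow, Real.sq_sqrt (by norm_num)]
  set L := √(540000 / ε) with hL
  have hL0 : 0 < L := Real.sqrt_pos.mpr (by positivity)
  have hL2 : L ^ 2 = 540000 / ε := Real.sq_sqrt (by positivity)
  have hL3 : L ≤ 1000 / ε := by
    rw [hL, Real.sqrt_le_left (by positivity), div_pow, div_le_div_iff₀ hε (by positivity)]
    nlinarith only [hε, hε1]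
  set M := L * D with hM
  have hM0 : 0 < M := by positivity
  set l := ε / (540000 * D2) with hl
  have hl0 : 0 < l := by positivity
  have hlD : l * D2 = ε / 540000 := by rw [hl]; field_simp
  set y := ε / 540000 with hy
  -- one coordinate
  have h1 : ∫ g, psi M l b (T - cq S g) ∂(gv κ) ≤ Real.exp (-(y * (1 - 3 * ε / 16))) := by
    have h := integral_psi_le hM0 hl0.le b T hS
    rw [hb2, ← hD2] at h
    have e : (l / M ^ 2 + l ^ 2 / 2) * (67500 * D2 ^ 2) = y * (3 * ε / 16) := by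
      rw [hM, mul_pow, hL2, hDsq, hl, hy]
      field_simp
      ring
    rw [e, hlD] at h
    have := Real.add_one_le_exp (-(y * (1 - 3 * ε / 16)))
    linarith only [h, this]
  -- all coordinates
  set F : (ι → κ → ℝ) → ℝ := fun x => ∏ k, psi M l b (T - cq S (x k)) with hF
  have hFi : Integrable F (gm ι κ) :=
    Integrable.fintype_prod (f := fun _ g => psi M l b (T - cq S g))
      fun _ => integrable_psi M hl0.le b T S
  have hF0 : ∀ x, 0 ≤ F x := fun x => prod_nonneg fun k _ => psi_nonneg _ _ _ _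
  have h2 : ∫ x, F x ∂(gm ι κ) ≤ Real.exp (-(y * (1 - 3 * ε / 16) * n)) := by
    have e : ∫ x, F x ∂(gm ι κ) = (∫ g, psi M l b (T - cq S g) ∂(gv κ)) ^ Fintype.card ι :=
      integral_fintype_prod_eq_pow (fun g => psi M l b (T - cq S g))
    rw [e]
    refine (pow_le_pow_left₀ (integral_nonneg fun g => psi_nonneg _ _ _ _) h1 _).trans ?_
    rw [← Real.exp_nat_mul]
    apply le_of_eq
    congr 1
    rw [hn_def]
    ring
  have h3 := measure_ge_le hFi hF0 (Real.exp_pos (-(y * (1 - 5 * ε / 16) * n)))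
  refine le_trans (measure_mono fun x hx => ?_) (h3.trans (ENNReal.ofReal_le_ofReal ?_))
  · by_contra hx'
    simp only [Set.mem_ofPred_eq, not_le] at hx'
    apply hx
    set r := 1 - ε / 2 with hr
    set R := D * √n with hR
    have hR0 : 0 < R := by positivity
    have hR2 : R ^ 2 = D2 * n := by rw [hR, mul_pow, hDsq, Real.sq_sqrt hn0.le]
    set P : (ι → ℝ) → ℝ := fun γ =>
      ∏ k, Real.exp (-(l * clip M (b * γ k + (T - cq S (x k))) ^ 2)) with hP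
    have hPi : Integrable P (gv ι) :=
      Integrable.fintype_prod
        (f := fun k t => Real.exp (-(l * clip M (b * t + (T - cq S (x k))) ^ 2)))
        fun k => integrable_exp_clip M hl0.le b _
    have hPF : ∫ γ, P γ ∂(gv ι) = F x :=
      integral_fintype_prod_eq_prod
        (fun k t => Real.exp (-(l * clip M (b * t + (T - cq S (x k))) ^ 2)))
    have hPi' : Integrable (fun γ => Real.exp (l * (r * R ^ 2)) * P γ) (gv ι) := hPi.const_mul _
    refine ⟨fun γ => r * R * (1 - Real.exp (l * (r * R ^ 2)) * P γ),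
      ((integrable_const _).sub hPi').const_mul _, ?_, fun γ => ?_⟩
    · rw [integral_const_mul, integral_sub (integrable_const _) hPi', integral_const_mul, hPF]
      simp only [integral_const, probReal_univ, smul_eq_mul, mul_one]
      have h4 : Real.exp (l * (r * R ^ 2)) * F x ≤ ε / 2 := by
        refine (mul_le_mul_of_nonneg_left hx'.le (Real.exp_pos _).le).trans ?_
        rw [← Real.exp_add]
        have e : l * (r * R ^ 2) + -(y * (1 - 5 * ε / 16) * n) = -(3 * ε ^ 2 * n / 8640000) := by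
          rw [hR2, show l * (r * (D2 * n)) = l * D2 * r * n by ring, hlD, hr, hy]
          ring
        rw [e, Real.exp_neg, inv_le_comm₀ (Real.exp_pos _) (by positivity)]
        have h5 := Real.add_one_le_exp (3 * ε ^ 2 * n / 8640000)
        have h6 : (ε / 2)⁻¹ ≤ 3 * ε ^ 2 * n / 8640000 := by
          rw [inv_div, div_le_iff₀ hε]
          linarith only [hn]
        linarith only [h5, h6]
      have h5 : r ≤ 1 - Real.exp (l * (r * R ^ 2)) * F x := by linarith only [hr, h4]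
      have hr0 : 0 ≤ r := by linarith only [hε1, hr]
      calc (1 - ε) * √n * D = (1 - ε) * R := by rw [hR]; ring
        _ ≤ r * r * R := by
            refine mul_le_mul_of_nonneg_right ?_ hR0.le
            rw [hr]
            linarith only [sq_nonneg ε]
        _ = r * R * r := by ring
        _ ≤ _ := mul_le_mul_of_nonneg_left h5 (by positivity)
    · obtain ⟨u, hu1, hu2, hu3⟩ := exists_test hM0.le hR0 (r := r) (by linarith only [hε1, hr]) (by linarith only [hε, hr])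
        hl0.le (fun k => b * γ k + (T - cq S (x k)))
      refine ⟨u, hu1, fun k => (hu2 k).trans ?_, hu3.trans (le_of_eq ?_)⟩
      · rw [hM, hR, show L * D / (D * √n) = L / √n by field_simp, ← div_div]
        exact div_le_div_of_nonneg_right hL3 hsn.le
      · refine sum_congr rfl fun k _ => ?_
        ring
  · rw [div_le_iff₀ (Real.exp_pos _), ← Real.exp_add]
    refine h2.trans (Real.exp_le_exp.mpr ?_)
    have : 0 ≤ ε ^ 2 * n := by positivity
    rw [hy]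
    linarith only [this]

end Pool.Agent.Work.MP_6a50bc_pr
end

-- merged part: Pool.Agent.Work.MP_6a50bc_pr.UpperAux1
section
/-! Linear algebra for the uniform lower bound on the residual. -/

namespace Pool.Agent.Work.MP_6a50bc_pr

open Matrix Finset

variable {ι κ K : Type*} [Fintype ι] [DecidableEq ι] [Fintype κ] [DecidableEq κ] [Fintype K]
  [DecidableEq K]

namespace UpperAux

/-- Splitting off the large eigenvalues. -/
lemma exists_split {U : Matrix κ κ ℝ} (hU : Orth U) (l : κ → ℝ) {σ : ℝ} (hσ : 0 < σ) {k : ℕ}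
    (hk : nrm l ^ 2 ≤ k * σ ^ 2) (hkd : k ≤ Fintype.card κ) :
    ∃ (V : Matrix κ (Fin k) ℝ) (s : Fin k → ℝ) (t : Finset κ), Orth V ∧ (∀ j ∈ t, |l j| ≤ σ) ∧
      spec U l = spec V s + spec U (fun j => if j ∈ t then l j else 0) ∧
      spec U (fun j => if j ∈ t then l j else 0) * V = 0 ∧
      nrm l ^ 2 = nrm s ^ 2 + nrm (fun j => if j ∈ t then l j else 0) ^ 2 := by
  have hc : (univ.filter fun j => σ < |l j|).card ≤ k := by
    have h1 : ((univ.filter fun j => σ < |l j|).card : ℝ) * σ ^ 2 ≤ nrm l ^ 2 := by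
      rw [nrm_sq, dotProduct, ← nsmul_eq_mul, ← sum_const]
      refine (sum_le_sum fun j hj => ?_).trans
        (sum_le_sum_of_subset_of_nonneg (subset_univ _) fun j _ _ => mul_self_nonneg (l j))
      have := (mem_filter.1 hj).2
      rw [← abs_mul_abs_self]
      nlinarith only [hσ, this]
    exact_mod_cast le_of_mul_le_mul_right (h1.trans hk) (by positivity)
  obtain ⟨t0, ht0, hcard⟩ := exists_superset_card_eq hc hkd
  let e := (t0.equivFinOfCardEq hcard).symm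
  let f : Fin k → κ := fun i => e i
  have hf : Function.Injective f := Subtype.val_injective.comp e.injective
  have hsum : ∀ g : κ → ℝ, ∑ j, g j = ∑ i, g (f i) + ∑ j, if j ∈ t0ᶜ then g j else 0 := by
    intro g
    rw [sum_ite_mem, univ_inter, ← sum_add_sum_compl t0, ← sum_coe_sort t0, ← e.sum_comp]
  have hUV : ∀ j i, (Uᵀ * U.submatrix id f) j i = if j = f i then 1 else 0 := fun j i => by
    rw [← hU.col_dot]; rfl
  refine ⟨U.submatrix id f, fun i => l (f i), t0ᶜ, ?_, fun j hj => ?_, ?_, ?_, ?_⟩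
  · ext i j
    have := hUV (f i) j
    rw [one_apply, ← if_congr hf.eq_iff rfl rfl, ← this]; rfl
  · by_contra h
    exact (mem_compl.1 hj) (ht0 (mem_filter.2 ⟨mem_univ _, not_le.1 h⟩))
  · ext a b
    rw [Matrix.add_apply, spec_apply, spec_apply, spec_apply, hsum]
    simp only [ite_mul, zero_mul, submatrix_apply, id]
  · have : diagonal (fun j => if j ∈ t0ᶜ then l j else 0) * (Uᵀ * U.submatrix id f) = 0 := by
      ext j i
      rw [diagonal_mul, hUV]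
      split_ifs with h1 h2
      · exact absurd (h2 ▸ (e i).2) (mem_compl.1 h1)
      all_goals simp
    rw [spec, Matrix.mul_assoc, Matrix.mul_assoc, this, Matrix.mul_zero]
  · rw [nrm_sq, nrm_sq, nrm_sq, dotProduct, hsum]
    simp only [dotProduct, ite_mul, mul_ite, zero_mul, mul_zero]
    congr 1
    refine sum_congr rfl fun j _ => ?_
    split_ifs <;> rfl

lemma opn_diagonal_le (s : K → ℝ) : opn (diagonal s) ≤ nrm s := by
  have := fro_spec (orth_one (n := K)) s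
  rw [spec, Matrix.one_mul, transpose_one, Matrix.mul_one] at this
  exact this ▸ opn_le_fro _

lemma fro_spec_sub_le {V V₀ : Matrix κ K ℝ} (hV : Orth V) (hV₀ : Orth V₀) (s s₀ : K → ℝ) :
    fro (spec V s - spec V₀ s₀) ≤ nrm (s - s₀) + 2 * (fro (V - V₀) * nrm s₀) := by
  have e : spec V s - spec V₀ s₀ = spec V (s - s₀) +
      ((V - V₀) * diagonal s₀ * Vᵀ + V₀ * (diagonal s₀ * (V - V₀)ᵀ)) := by
    rw [spec_sub]
    simp only [spec, Matrix.sub_mul, Matrix.mul_sub, transpose_sub, Matrix.mul_assoc]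
    abel
  have h1 : fro ((V - V₀) * diagonal s₀ * Vᵀ) ≤ fro (V - V₀) * nrm s₀ := by
    refine (fro_mul_le_right _ _).trans ?_
    rw [opn_transpose]
    refine (mul_le_of_le_one_right (fro_nonneg _) hV.opn_le).trans ((fro_mul_le_right _ _).trans ?_)
    exact mul_le_mul_of_nonneg_left (opn_diagonal_le _) (fro_nonneg _)
  have h2 : fro (V₀ * (diagonal s₀ * (V - V₀)ᵀ)) ≤ fro (V - V₀) * nrm s₀ := by
    refine (fro_mul_le_left _ _).trans ?_
    refine (mul_le_of_le_one_left (fro_nonneg _) hV₀.opn_le).trans ((fro_mul_le_left _ _).trans ?_)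
    rw [fro_transpose, mul_comm]
    exact mul_le_mul_of_nonneg_left (opn_diagonal_le _) (fro_nonneg _)
  rw [e]
  refine (fro_add_le _ _).trans ?_
  rw [fro_spec hV]
  linarith only [h1, h2, fro_add_le ((V - V₀) * diagonal s₀ * Vᵀ) (V₀ * (diagonal s₀ * (V - V₀)ᵀ))]

lemma opn_proj_le {Q : Matrix κ κ ℝ} (hQ : Qᵀ = Q) (hQ2 : Q * Q = Q) : opn Q ≤ 1 := by
  refine opn_le_of zero_le_one fun v => ?_
  have h : nrm (Q *ᵥ v) ^ 2 = v ⬝ᵥ Q *ᵥ v := by
    rw [nrm_sq, dot_mulVec_symm (isHermitian_iff.2 hQ), mulVec_mulVec, hQ2]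
  have h2 := dot_le v (Q *ᵥ v)
  have h3 := nrm_nonneg (Q *ᵥ v)
  have h4 := nrm_nonneg v
  by_contra hc
  push Not at hc
  nlinarith only [h, h2, h4, hc]

omit [DecidableEq κ] [DecidableEq K] in
lemma proj_transpose (V : Matrix κ K ℝ) : (V * Vᵀ)ᵀ = V * Vᵀ := by
  rw [transpose_mul, transpose_transpose]

omit [DecidableEq κ] in
lemma proj_mul {V : Matrix κ K ℝ} (hV : Orth V) : V * Vᵀ * (V * Vᵀ) = V * Vᵀ := by
  rw [Matrix.mul_assoc, ← Matrix.mul_assoc Vᵀ, hV, Matrix.one_mul]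

omit [DecidableEq κ] in
lemma spec_mul_proj {V : Matrix κ K ℝ} (hV : Orth V) (s : K → ℝ) :
    spec V s * (V * Vᵀ) = spec V s := by
  rw [spec, Matrix.mul_assoc, ← Matrix.mul_assoc Vᵀ, hV, Matrix.one_mul]

/-- Compression to the orthogonal complement of a frame. -/
lemma compress {V : Matrix κ K ℝ} (hV : Orth V) {S : Matrix κ κ ℝ} (hS : S.IsHermitian) :
    ∃ S' : Matrix κ κ ℝ, S'.IsHermitian ∧ opn S' ≤ opn S ∧ fro S' ≤ fro S ∧ S' * (V * Vᵀ) = 0 ∧
      fro (S - S') ≤ 2 * fro (S * V) := by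
  set P := V * Vᵀ with hP
  have hPt : Pᵀ = P := proj_transpose V
  have hP2 : P * P = P := proj_mul hV
  have hQt : (1 - P)ᵀ = 1 - P := by rw [transpose_sub, transpose_one, hPt]
  have hQP : (1 - P) * P = 0 := by rw [Matrix.sub_mul, Matrix.one_mul, hP2, sub_self]
  have hQ2 : (1 - P) * (1 - P) = 1 - P := by rw [Matrix.mul_sub, hQP, Matrix.mul_one, sub_zero]
  have hQ := opn_proj_le hQt hQ2
  have hSt := isHermitian_iff.1 hS
  refine ⟨(1 - P) * S * (1 - P), ?_, ?_, ?_, ?_, ?_⟩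
  · rw [isHermitian_iff, transpose_mul, transpose_mul, hQt, hSt, Matrix.mul_assoc]
  · refine (opn_mul_le _ _).trans ((mul_le_of_le_one_right (opn_nonneg _) hQ).trans ?_)
    exact (opn_mul_le _ _).trans (mul_le_of_le_one_left (opn_nonneg _) hQ)
  · refine (fro_mul_le_right _ _).trans ((mul_le_of_le_one_right (fro_nonneg _) hQ).trans ?_)
    exact (fro_mul_le_left _ _).trans (mul_le_of_le_one_left (fro_nonneg _) hQ)
  · rw [Matrix.mul_assoc, hQP, Matrix.mul_zero]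
  · have e : S - (1 - P) * S * (1 - P) = (S * P)ᵀ + (1 - P) * (S * P) := by
      rw [transpose_mul, hPt, hSt]
      simp only [Matrix.sub_mul, Matrix.mul_sub, Matrix.one_mul, Matrix.mul_one, Matrix.mul_assoc]
      abel
    have h1 : fro (S * P) ≤ fro (S * V) := by
      rw [hP, ← Matrix.mul_assoc]
      refine (fro_mul_le_right _ _).trans ?_
      rw [opn_transpose]
      exact mul_le_of_le_one_right (fro_nonneg _) hV.opn_le
    have h2 : fro ((1 - P) * (S * P)) ≤ fro (S * P) :=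
      (fro_mul_le_left _ _).trans (mul_le_of_le_one_left (fro_nonneg _) hQ)
    rw [e]
    refine (fro_add_le _ _).trans ?_
    rw [fro_transpose]
    linarith

omit [DecidableEq κ] in
lemma cq_congr {S : Matrix κ κ ℝ} (hS : S.IsHermitian) {y z : κ → ℝ} (h : S *ᵥ y = S *ᵥ z) :
    cq S y = cq S z := by
  rw [cq, cq, qf, qf, h, dot_mulVec_symm hS, h]

omit [Fintype ι] [DecidableEq ι] in
lemma cq_mix_left {P H : Matrix κ κ ℝ} (hH : H.IsHermitian) (hHP : H * P = H) (x x' : ι → κ → ℝ)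
    (k : ι) : cq H (mix (fun _ => P) x x' k) = cq H (x k) :=
  cq_congr hH (by
    rw [mix, mulVec_add, mulVec_mulVec, mulVec_mulVec, Matrix.mul_sub, hHP, Matrix.mul_one,
      sub_self, zero_mulVec, add_zero])

omit [Fintype ι] [DecidableEq ι] in
lemma cq_mix_right {P S : Matrix κ κ ℝ} (hS : S.IsHermitian) (hSP : S * P = 0) (x x' : ι → κ → ℝ)
    (k : ι) : cq S (mix (fun _ => P) x x' k) = cq S (x' k) :=
  cq_congr hS (by
    rw [mix, mulVec_add, mulVec_mulVec, mulVec_mulVec, Matrix.mul_sub, hSP, Matrix.mul_one,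
      sub_zero, zero_mulVec, zero_add])

omit [DecidableEq ι] in
/-- The Lipschitz bound for the chaos. -/
lemma chaos_lip {S : Matrix κ κ ℝ} (hS : S.IsHermitian) {u : ι → ℝ} {l c F : ℝ} (hl : 0 ≤ l)
    (hu : ∀ k, |u k| ≤ l) (hF : fro S ≤ F) {x x' : ι → κ → ℝ} (hx : opn (Matrix.of x) ≤ c)
    (hx' : opn (Matrix.of x') ≤ c) :
    |∑ k, u k * (qf S (x k) - qf S (x' k))| ≤
      l * (2 * c * F) * fro (Matrix.of x - Matrix.of x') := by
  have e : ∑ k, u k * (qf S (x k) - qf S (x' k)) =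
      ip (Matrix.of fun k a => u k * (x k a - x' k a)) ((Matrix.of x + Matrix.of x') * S) := by
    refine sum_congr rfl fun k _ => ?_
    rw [qf_sub_qf hS, dotProduct, mul_sum]
    refine sum_congr rfl fun a _ => ?_
    have : (S *ᵥ (x k + x' k)) a = ((Matrix.of x + Matrix.of x') * S) k a := by
      rw [Matrix.mul_apply, mulVec, dotProduct]
      refine sum_congr rfl fun b _ => ?_
      have := congrFun (congrFun (isHermitian_iff.1 hS) a) b
      rw [transpose_apply] at this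
      rw [this, mul_comm]; rfl
    rw [this, of_apply, Pi.sub_apply, mul_assoc]
  have h1 : fro (Matrix.of fun k a => u k * (x k a - x' k a)) ≤
      l * fro (Matrix.of x - Matrix.of x') := by
    rw [← abs_of_nonneg hl, ← fro_smul, fro_eq_nrm, fro_eq_nrm]
    refine nrm_mono fun q => ?_
    simp only [of_apply, Matrix.smul_apply, Matrix.sub_apply, smul_eq_mul, abs_mul]
    exact mul_le_mul_of_nonneg_right ((hu _).trans (le_abs_self _)) (abs_nonneg _)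
  have h2 : fro ((Matrix.of x + Matrix.of x') * S) ≤ 2 * c * F := by
    refine (fro_mul_le_left _ _).trans ?_
    have := opn_add_le (Matrix.of x) (Matrix.of x')
    exact mul_le_mul (by linarith) hF (fro_nonneg _) (by linarith [opn_nonneg (Matrix.of x)])
  rw [e]
  refine (abs_ip_le _ _).trans ?_
  calc _ ≤ l * fro (Matrix.of x - Matrix.of x') * (2 * c * F) :=
        mul_le_mul h1 h2 (fro_nonneg _) (mul_nonneg hl (fro_nonneg _))
    _ = _ := by ring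

lemma sqrt_le_add {a b c a' b' c' e : ℝ} (ha : |a - a'| ≤ e) (hb : |b - b'| ≤ e)
    (hc : |c - c'| ≤ e) :
    √(2 * a ^ 2 + 2 * b ^ 2 + c ^ 2) ≤ √(2 * a' ^ 2 + 2 * b' ^ 2 + c' ^ 2) + 3 * e := by
  have h : ∀ a b c : ℝ, √(2 * a ^ 2 + 2 * b ^ 2 + c ^ 2) = nrm ![a, a, b, b, c] := fun a b c => by
    rw [nrm]; congr 1
    simp [dotProduct, Fin.sum_univ_succ]; ring
  have he : 0 ≤ e := (abs_nonneg _).trans ha
  have h1 : nrm (![a, a, b, b, c] - ![a', a', b', b', c']) ≤ √(Fintype.card (Fin 5)) * e :=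
    nrm_le_of_abs_le he fun i => by fin_cases i <;> simpa
  have h2 : √((Fintype.card (Fin 5) : ℕ) : ℝ) ≤ 3 := Real.sqrt_le_iff.2 ⟨by norm_num, by simp; norm_num⟩
  have h3 := abs_nrm_sub_le ![a, a, b, b, c] ![a', a', b', b', c']
  rw [h, h]
  nlinarith only [h1, h3, he, h2, le_abs_self (nrm ![a, a, b, b, c] - nrm ![a', a', b', b', c'])]

end UpperAux

end Pool.Agent.Work.MP_6a50bc_pr
end

-- merged part: Pool.Agent.Work.MP_6a50bc_pr.UpperAux2
section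
/-! The probability bound for one point of the net. -/

namespace Pool.Agent.Work.MP_6a50bc_pr

open MeasureTheory ProbabilityTheory Matrix Finset
open scoped ENNReal

variable {ι κ : Type*} [Fintype ι] [DecidableEq ι] [Fintype κ] [DecidableEq κ]

namespace UpperAux

/-- The bulk matrices attached to a point of the net. -/
def Cls (P : Matrix κ κ ℝ) (σ F a e : ℝ) (Φ₀ Φ₁ : (κ → κ → ℝ) → ℝ) : Set (Matrix κ κ ℝ) :=
  {S | S.IsHermitian ∧ opn S ≤ σ ∧ fro S ≤ F ∧ S * P = 0 ∧ |fro S - a| ≤ e ∧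
    ∀ B, ip (Matrix.of B) S ≤ Φ₀ B + Φ₁ B * (a + e) + e * fro (Matrix.of B)}

/-- The event attached to a point of the net. -/
def Ev (I : Finset (Matrix κ κ ℝ)) (J : Finset (ι → ℝ)) (H : Matrix κ κ ℝ) (T thr : ℝ) :
    Set (ι → κ → ℝ) :=
  {x | (∀ k, x k ⬝ᵥ x k ≤ 4 * Fintype.card κ) ∧
    ∃ S ∈ I, ∀ u ∈ J, ∑ k, u k * (T - cq H (x k) - cq S (x k)) ≤ thr}

omit [DecidableEq ι] [DecidableEq κ] in
lemma measurableSet_ev (I : Finset (Matrix κ κ ℝ)) (J : Finset (ι → ℝ)) (H : Matrix κ κ ℝ)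
    (T thr : ℝ) : MeasurableSet (Ev I J H T thr) := by
  refine IsClosed.measurableSet ?_
  have e : Ev I J H T thr = (⋂ k, {x : ι → κ → ℝ | x k ⬝ᵥ x k ≤ 4 * Fintype.card κ}) ∩
      ⋃ S ∈ I, ⋂ u ∈ J, {x : ι → κ → ℝ | ∑ k, u k * (T - cq H (x k) - cq S (x k)) ≤ thr} := by
    ext x; simp [Ev]
  rw [e]
  refine (isClosed_iInter fun k => isClosed_le (by fun_prop) continuous_const).inter
    (isClosed_biUnion_finset fun S _ => isClosed_biInter fun u _ =>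
      isClosed_le (by fun_prop) continuous_const)

omit [DecidableEq ι] in
/-- The lower bound for the auxiliary problem. -/
lemma ao_bound {Ψ : (ι → ℝ) → ℝ} {Φ₀ Φ₁ : (κ → κ → ℝ) → ℝ} {w₀ w₁ a e : ℝ}
    (hΨ : Integrable Ψ (gv ι)) (hi₀ : Integrable Φ₀ (gm κ κ)) (hi₁ : Integrable Φ₁ (gm κ κ))
    (h₀ : ∫ B, Φ₀ B ∂(gm κ κ) ≤ w₀) (h₁ : ∫ B, Φ₁ B ∂(gm κ κ) ≤ w₁) (ha : 0 ≤ a) (he : 0 ≤ e) :
    ∃ Φ : (ι → ℝ) × (κ → κ → ℝ) → ℝ, Integrable Φ ((gv ι).prod (gm κ κ)) ∧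
      (∀ γ B, Φ (γ, B) = (Ψ γ - 2 * √2 * e * nrm γ - 1) -
        √2 * (Φ₀ B + Φ₁ B * (a + e) + e * (1 + fro (Matrix.of B) ^ 2))) ∧
      ∫ γ, Ψ γ ∂(gv ι) - √2 * (w₀ + w₁ * a) -
        √2 * e * (w₁ + 1 + (Fintype.card κ : ℝ) ^ 2 + 2 * √(Fintype.card ι)) - 1 ≤
        ∫ q, Φ q ∂((gv ι).prod (gm κ κ)) := by
  classical
  have hn : Integrable (fun γ : ι → ℝ => nrm γ) (gv ι) := by simpa using integrable_nrm_pow (κ := ι) 1
  have hf : Integrable (fun B : κ → κ → ℝ => fro (Matrix.of B) ^ 2) (gm κ κ) :=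
    integrable_gm_of_le_pow (by fun_prop : Continuous _).aestronglyMeasurable 1 2 fun B => by
      rw [abs_of_nonneg (sq_nonneg _), one_mul]
      exact pow_le_pow_left₀ (fro_nonneg _) (by linarith) 2
  have a1 : Integrable (fun γ : ι → ℝ => Ψ γ - 2 * √2 * e * nrm γ) (gv ι) :=
    hΨ.sub (hn.const_mul _)
  have a2 : Integrable (fun γ : ι → ℝ => Ψ γ - 2 * √2 * e * nrm γ - 1) (gv ι) :=
    a1.sub (integrable_const _)
  have b1 : Integrable (fun B => Φ₀ B + Φ₁ B * (a + e)) (gm κ κ) := hi₀.add (hi₁.mul_const _)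
  have b2 : Integrable (fun B : κ → κ → ℝ => 1 + fro (Matrix.of B) ^ 2) (gm κ κ) :=
    (integrable_const _).add hf
  have b3 : Integrable
      (fun B => Φ₀ B + Φ₁ B * (a + e) + e * (1 + fro (Matrix.of B) ^ 2)) (gm κ κ) :=
    b1.add (b2.const_mul _)
  have b4 := b3.const_mul √2
  refine ⟨fun q => (Ψ q.1 - 2 * √2 * e * nrm q.1 - 1) -
      √2 * (Φ₀ q.2 + Φ₁ q.2 * (a + e) + e * (1 + fro (Matrix.of q.2) ^ 2)),
    (a2.comp_fst _).sub (b4.comp_snd _), fun _ _ => rfl, ?_⟩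
  rw [integral_sub (a2.comp_fst _) (b4.comp_snd _),
    integral_fun_fst (fun γ : ι → ℝ => Ψ γ - 2 * √2 * e * nrm γ - 1),
    integral_fun_snd (fun B : κ → κ → ℝ =>
      √2 * (Φ₀ B + Φ₁ B * (a + e) + e * (1 + fro (Matrix.of B) ^ 2))),
    integral_const_mul, integral_add b1 (b2.const_mul _), integral_add hi₀ (hi₁.mul_const _),
    integral_mul_const, integral_const_mul, integral_add (integrable_const _) hf, integral_fro_sq,
    integral_sub a1 (integrable_const _), integral_sub hΨ (hn.const_mul _), integral_const_mul]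
  simp only [probReal_univ, integral_const, smul_eq_mul, one_mul]
  have s2 : 0 ≤ √2 := Real.sqrt_nonneg _
  have c1 := mul_le_mul_of_nonneg_left (integral_nrm_le (κ := ι)) (by positivity : 0 ≤ 2 * √2 * e)
  have c2 := mul_le_mul_of_nonneg_left h₀ s2
  have c3 := mul_le_mul_of_nonneg_left h₁ (by positivity : 0 ≤ √2 * (a + e))
  nlinarith only [c1, c2, c3]

omit [DecidableEq ι] in
/-- The pointwise comparison with Gordon's auxiliary problem. -/
lemma ao_point {S : Matrix κ κ ℝ} {B : κ → κ → ℝ} {u v z γ : ι → ℝ} {ψ a e δ φ₀ φ₁ M : ℝ}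
    (hv : nrm v ≤ 1) (huv : nrm (u - v) ≤ δ) (ha : 0 ≤ a) (haδ : a * δ ≤ e) (hz : nrm z ≤ M)
    (hM : δ * M ≤ 1) (hS : |fro S - a| ≤ e) (h₀ : 0 ≤ φ₀) (h₁ : 0 ≤ φ₁)
    (hB : ip (Matrix.of B) S ≤ φ₀ + φ₁ * (a + e) + e * fro (Matrix.of B))
    (hψ : ψ ≤ √2 * a * (u ⬝ᵥ γ) + u ⬝ᵥ z) :
    (ψ - 2 * √2 * e * nrm γ - 1) - √2 * (φ₀ + φ₁ * (a + e) + e * (1 + fro (Matrix.of B) ^ 2)) ≤
      √2 * (fro (-S) * (v ⬝ᵥ γ) + nrm v * ip (Matrix.of B) (-S)) + v ⬝ᵥ z := by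
  have he : 0 ≤ e := (abs_nonneg _).trans hS
  have hδ : 0 ≤ δ := (nrm_nonneg _).trans huv
  have hγ := nrm_nonneg γ
  have e1 : u ⬝ᵥ z - v ⬝ᵥ z ≤ 1 := by
    rw [← sub_dotProduct]
    exact (dot_le _ _).trans ((mul_le_mul huv hz (nrm_nonneg _) hδ).trans hM)
  have e2 : a * (u ⬝ᵥ γ) - a * (v ⬝ᵥ γ) ≤ e * nrm γ := by
    rw [← mul_sub, ← sub_dotProduct]
    calc a * ((u - v) ⬝ᵥ γ) ≤ a * (δ * nrm γ) :=
          mul_le_mul_of_nonneg_left ((dot_le _ _).trans (mul_le_mul_of_nonneg_right huv hγ)) ha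
      _ ≤ e * nrm γ := by rw [← mul_assoc]; exact mul_le_mul_of_nonneg_right haδ hγ
  have e3 : a * (v ⬝ᵥ γ) - fro S * (v ⬝ᵥ γ) ≤ e * nrm γ := by
    rw [← sub_mul]
    refine (le_abs_self _).trans ?_
    rw [abs_mul, abs_sub_comm]
    exact mul_le_mul hS ((abs_dot_le _ _).trans (mul_le_of_le_one_left hγ hv)) (abs_nonneg _) he
  have e4 : nrm v * ip (Matrix.of B) S ≤
      φ₀ + φ₁ * (a + e) + e * (1 + fro (Matrix.of B) ^ 2) := by
    have f0 := fro_nonneg (Matrix.of B)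
    have f1 : e * fro (Matrix.of B) ≤ e * (1 + fro (Matrix.of B) ^ 2) :=
      mul_le_mul_of_nonneg_left (by nlinarith only [f0]) he
    exact (mul_le_mul_of_nonneg_left (hB.trans (by linarith)) (nrm_nonneg v)).trans
      (mul_le_of_le_one_left (by positivity) hv)
  have s2 : 0 ≤ √2 := Real.sqrt_nonneg _
  have g2 := mul_le_mul_of_nonneg_left e2 s2
  have g3 := mul_le_mul_of_nonneg_left e3 s2
  have g4 := mul_le_mul_of_nonneg_left e4 s2
  rw [fro_neg, ip_neg_right]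
  nlinarith only [hψ, e1, g2, g3, g4]

/-- The probability of the event attached to one point of the net. -/
lemma theta_bound [Nonempty ι] [Nonempty κ] (hlog : Real.log (Fintype.card ι) ≤ √(Fintype.card κ))
    {P H : Matrix κ κ ℝ} (hP : Pᵀ = P) (hP2 : P * P = P) (hH : H.IsHermitian) (hHP : H * P = H)
    {Φ₀ Φ₁ : (κ → κ → ℝ) → ℝ} {w₀ w₁ a T ε σ F e δ β t c M : ℝ}
    (hi₀ : Integrable Φ₀ (gm κ κ)) (hi₁ : Integrable Φ₁ (gm κ κ))
    (hp₀ : ∀ B, 0 ≤ Φ₀ B) (hp₁ : ∀ B, 0 ≤ Φ₁ B) (h₀ : ∫ B, Φ₀ B ∂(gm κ κ) ≤ w₀)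
    (h₁ : ∫ B, Φ₁ B ∂(gm κ κ) ≤ w₁) (hε : 0 < ε) (hε1 : ε ≤ 1)
    (hn : 10 ^ 7 ≤ ε ^ 3 * Fintype.card ι) (ha : 0 ≤ a) (he : 0 ≤ e) (hβ : 0 < β) (ht : 0 < t)
    (hF : 0 < F) (haδ : a * δ ≤ e)
    (hM : |T| + fro H * (4 * Fintype.card κ + √(Fintype.card κ)) ≤ M)
    (hδM : δ * (√(Fintype.card ι) * M) ≤ 1)
    (hnd : √(Fintype.card κ) + 4 ≤ 2 * √(Fintype.card ι))
    (htF : t ^ 2 ≤ Fintype.card ι * (Fintype.card κ : ℝ) ^ 2 * F ^ 2)
    (hA : 2 * Real.exp (-(Fintype.card ι : ℝ) / 8) ≤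
      t ^ 2 / (200 * (Fintype.card ι * (Fintype.card κ : ℝ) ^ 2 * F ^ 2)))
    {I : Finset (Matrix κ κ ℝ)} (hI : ∀ S ∈ I, S ∈ Cls P σ F a e Φ₀ Φ₁) {J : Finset (ι → ℝ)}
    (hJ : ∀ u ∈ J, nrm u ≤ 1 ∧ ∀ k, |u k| ≤ 1000 / (ε * √(Fintype.card ι)))
    (hJ' : ∀ u : ι → ℝ, nrm u ≤ 1 → (∀ k, |u k| ≤ 1000 / (ε * √(Fintype.card ι))) →
      ∃ v ∈ J, nrm (u - v) ≤ δ)
    (hc : 2 * t + (Real.log I.card + Real.log J.card) / β + 2 * F +
      1000 * β ^ 2 * (1000 / (ε * √(Fintype.card ι))) * σ ^ 3 * Fintype.card κ +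
      √2 * e * (w₁ + 1 + (Fintype.card κ : ℝ) ^ 2 + 2 * √(Fintype.card ι)) + 1 ≤ c) :
    gm ι κ (Ev I J H T ((1 - ε) * √(Fintype.card ι) * √(2 * a ^ 2 + 2 * fro H ^ 2 + T ^ 2) -
        √2 * (w₀ + w₁ * a) - c)) ≤
      ENNReal.ofReal (200 * (Fintype.card ι * (Fintype.card κ : ℝ) ^ 2 * F ^ 2) / t ^ 2 *
        Real.exp (-(t / (8000 * F / ε)) ^ 2 / 8) + 2 * Real.exp (-(Fintype.card ι : ℝ) / 8) +
        Real.exp (-(ε ^ 2 * Fintype.card ι / 10 ^ 7))) := by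
  set thr := (1 - ε) * √(Fintype.card ι) * √(2 * a ^ 2 + 2 * fro H ^ 2 + T ^ 2) -
    √2 * (w₀ + w₁ * a) - c with hthr
  set l := 1000 / (ε * √(Fintype.card ι)) with hl
  have hn0 : (0 : ℝ) < Fintype.card ι := Nat.cast_pos.2 Fintype.card_pos
  have hs0 : 0 < √(Fintype.card ι : ℝ) := Real.sqrt_pos.2 hn0
  have hl0 : 0 < l := by positivity
  let A : Set (ι → κ → ℝ) := {x | opn (Matrix.of x) ≤ 4 * √(Fintype.card ι)}
  have hAc : gm ι κ Aᶜ ≤ ENNReal.ofReal (2 * Real.exp (-(Fintype.card ι : ℝ) / 8)) := by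
    have := opn_tail (ι := ι) (κ := κ) hs0.le
    rw [Real.sq_sqrt hn0.le] at this
    refine le_trans (measure_mono fun x hx => ?_) this
    have : 4 * √(Fintype.card ι : ℝ) < opn (Matrix.of x) := not_le.1 hx
    rw [Set.mem_setOf_eq]
    linarith only [hnd, this]
  rw [ENNReal.ofReal_add (by positivity) (by positivity),
    ENNReal.ofReal_add (by positivity) (by positivity)]
  refine (resample_le (P := fun _ => P) (fun _ => hP) (fun _ => hP2) (measurableSet_ev _ _ _ _ _)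
    {x | ∃ Ψ : (ι → ℝ) → ℝ, Integrable Ψ (gv ι) ∧
        (1 - ε) * √(Fintype.card ι) * √(2 * a ^ 2 + 2 * fro H ^ 2 + T ^ 2) ≤ ∫ γ, Ψ γ ∂(gv ι) ∧
        ∀ γ, ∃ u : ι → ℝ, nrm u ≤ 1 ∧ (∀ k, |u k| ≤ l) ∧
          Ψ γ ≤ ∑ k, u k * (√2 * a * γ k + T - cq H (x k))} ?_).trans
    (add_le_add le_rfl (trunc_ball hH a T hε hε1 hn))
  rintro x ⟨Ψ, hΨ, hΨ1, hΨ2⟩
  rcases Set.eq_empty_or_nonempty {x' | mix (fun _ => P) x x' ∈ Ev I J H T thr} with h | ⟨x₀, hx₀⟩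
  · rw [h, measure_empty]; exact zero_le
  obtain ⟨hx₀, S₀, hS₀, -⟩ := hx₀
  have : Nonempty I := ⟨⟨S₀, hS₀⟩⟩
  obtain ⟨v₀, hv₀, -⟩ := hJ' 0 (by simp) fun k => by simpa using hl0.le
  have : Nonempty J := ⟨⟨v₀, hv₀⟩⟩
  let z : ι → ℝ := fun k => T - cq H (x k)
  have hz : nrm z ≤ √(Fintype.card ι) * M := by
    have h2 : ∀ k, |z k| ≤ M := fun k => by
      have h3 := abs_cq_le H (mix (fun _ => P) x x₀ k)
      rw [cq_mix_left hH hHP] at h3
      have h4 := mul_le_mul_of_nonneg_left (hx₀ k) (fro_nonneg H)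
      have h5 := abs_sub T (cq H (x k))
      show |T - cq H (x k)| ≤ M
      linarith only [hM, h3, h4, h5]
    exact nrm_le_of_abs_le ((abs_nonneg _).trans (h2 (Classical.arbitrary ι))) h2
  obtain ⟨Φ, hΦ, hΦ1, hΦ2⟩ := ao_bound hΨ hi₀ hi₁ h₀ h₁ ha he
  have key := chaos_tail (I := I) (J := J) hlog (fun _ j => j.1) (fun i _ => -i.1)
    (fun _ j => j.1 ⬝ᵥ z) (fun i _ => (hI _ i.2).1.neg) (fun _ _ _ => Or.inr rfl) (l := l) (σ := σ)
    (F := F) hβ (fun _ j => (hJ _ j.2).1) (fun _ j => (hJ _ j.2).2)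
    (fun i _ => by rw [opn_neg]; exact (hI _ i.2).2.1)
    (fun i _ => by rw [fro_neg]; exact (hI _ i.2).2.2.1) A (L := 8000 * F / ε) (t := t) (a := thr)
    (by positivity) ht htF
    (fun i j y hy y' hy' => (chaos_lip (hI _ i.2).1.neg hl0.le (hJ _ j.2).2
      ((fro_neg _).trans_le (hI _ i.2).2.2.1) hy hy').trans_eq (by
        rw [hl]; congr 1; field_simp; ring))
    (hAc.trans (ENNReal.ofReal_le_ofReal hA)) Φ hΦ
    (fun γ B i => by
      obtain ⟨u, hu1, hu2, hu3⟩ := hΨ2 γ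
      obtain ⟨v, hv, huv⟩ := hJ' u hu1 hu2
      refine ⟨⟨v, hv⟩, ?_⟩
      rw [hΦ1]
      refine ao_point (hJ v hv).1 huv ha haδ hz hδM (hI _ i.2).2.2.2.2.1 (hp₀ B) (hp₁ B)
        ((hI _ i.2).2.2.2.2.2 B) (hu3.trans_eq ?_)
      simp only [dotProduct, mul_sum, ← sum_add_distrib, z]
      exact sum_congr rfl fun k _ => by ring)
    (by
      rw [Fintype.card_coe, Fintype.card_coe]
      linarith only [hc, hΨ1, hΦ2])
  refine le_trans (measure_mono fun x' hx' => ?_)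
    ((measure_union_le _ Aᶜ).trans (add_le_add key hAc))
  by_cases hx : x' ∈ A
  · obtain ⟨-, S, hS, h⟩ := hx'
    refine Or.inl ⟨hx, ⟨S, hS⟩, fun j => le_of_eq_of_le ?_ (h j.1 j.2)⟩
    simp only [dotProduct, ← sum_add_distrib, z]
    refine sum_congr rfl fun k _ => ?_
    rw [cq_mix_left hH hHP, cq_mix_right (hI S hS).1 (hI S hS).2.2.2.1, cq_neg]
    ring
  · exact Or.inr hx

end UpperAux

end Pool.Agent.Work.MP_6a50bc_pr
end

-- merged part: Pool.Agent.Work.MP_6a50bc_pr.UpperAux4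
section
/-! Numerical estimates for the uniform lower bound on the residual. -/

namespace Pool.Agent.Work.MP_6a50bc_pr

namespace UpperAux

variable {w ρ R ε q n : ℝ}

lemma num_basic (hρ : 1 ≤ ρ) (hR : 1 ≤ R) (hε : 0 < ε) (hε1 : ε ≤ 1)
    (hn : (w ^ 16) ^ 2 / ρ ≤ n) (hw : 10 ^ 12 * (ρ * R / ε) ^ 6 ≤ w) :
    ∃ q : ℝ, ρ ≤ q * ε ∧ R ≤ q * ε ∧ ρ * R = q * ε ∧ q * ε ≤ q ∧ 10 ^ 12 * q ^ 6 ≤ w ∧
      10 ^ 12 * q ^ 5 * w ^ 31 ≤ n := by
  have h1 : ρ * R = ρ * R / ε * ε := by field_simp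
  generalize ρ * R / ε = q at hw h1
  have h2 : ρ ≤ q * ε := by nlinarith only [hR, h1, hρ]
  have hq : 0 < q := (mul_pos_iff_of_pos_right hε).1 (by linarith)
  have h3 : q * ε ≤ q := mul_le_of_le_one_right hq.le hε1
  have hw0 : 0 < w := lt_of_lt_of_le (by positivity) hw
  refine ⟨q, h2, by nlinarith only [hρ, h1, hR], h1, h3, hw, le_trans ?_ hn⟩
  rw [le_div_iff₀ (by linarith)]
  calc 10 ^ 12 * q ^ 5 * w ^ 31 * ρ ≤ 10 ^ 12 * q ^ 5 * w ^ 31 * q := by gcongr; linarith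
    _ = 10 ^ 12 * q ^ 6 * w ^ 31 := by ring
    _ ≤ w * w ^ 31 := by gcongr
    _ = _ := by ring

lemma pow_le_w (hq : 1 ≤ q) (hw : 10 ^ 12 * q ^ 6 ≤ w) {j : ℕ} (hj : j ≤ 6) :
    10 ^ 12 * q ^ j ≤ w :=
  le_trans (mul_le_mul_of_nonneg_left (pow_le_pow_right₀ hq hj) (by norm_num)) hw

lemma num_hA (hR : 1 ≤ R) (hε : 0 < ε) (hRq : R ≤ q * ε) (hq : 1 ≤ q) (hw : 1 ≤ w)
    (hn : 10 ^ 12 * q ^ 5 * w ^ 31 ≤ n) :
    2 * Real.exp (-n / 8) ≤
      (ε * w ^ 24 / 8) ^ 2 / (200 * (n * (w ^ 16) ^ 2 * (R * w ^ 8) ^ 2)) := by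
  have h1 : 10 ^ 12 * q ^ 2 ≤ n := by
    refine le_trans ?_ hn
    have := pow_le_pow_right₀ hq (show 2 ≤ 5 by norm_num)
    have h2 := one_le_pow₀ hw (n := 31)
    nlinarith only [this, h2, sq_nonneg q]
  have hn0 : 0 < n := lt_of_lt_of_le (by positivity) h1
  have h2 : (n / 8) ^ 2 / 2 ≤ Real.exp (n / 8) := by
    simpa using Real.pow_div_factorial_le_exp (n / 8) (by positivity) 2
  have h3 : (ε * w ^ 24 / 8) ^ 2 / (200 * (n * (w ^ 16) ^ 2 * (R * w ^ 8) ^ 2)) =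
      ε ^ 2 / (12800 * n * R ^ 2) := by field_simp; ring
  rw [h3, neg_div, Real.exp_neg, ← div_eq_mul_inv, div_le_div_iff₀ (by positivity) (by positivity)]
  have h4 : R ^ 2 ≤ (q * ε) ^ 2 := pow_le_pow_left₀ (by linarith) hRq 2
  calc 2 * (12800 * n * R ^ 2) ≤ 2 * (12800 * n * (q * ε) ^ 2) := by gcongr
    _ = ε ^ 2 * (n * (25600 * q ^ 2)) := by ring
    _ ≤ ε ^ 2 * (n * (n / 128)) := by gcongr; nlinarith only [h1, hn0, sq_nonneg q]
    _ = ε ^ 2 * ((n / 8) ^ 2 / 2) := by ring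
    _ ≤ _ := by gcongr

lemma num_hc {s : ℝ} (hρ : 1 ≤ ρ) (hε : 0 < ε) (hρq : ρ ≤ q * ε) (hRq : R ≤ q * ε)
    (hq' : q * ε ≤ q) (hw : 10 ^ 12 * q ^ 6 ≤ w) (hs : w ^ 15 ≤ s) :
    2 * (ε * w ^ 24 / 8) + 2 * (7 * ρ * (w ^ 16) ^ 2) / (200 * ρ * w ^ 8 / ε) + 2 * (R * w ^ 8) +
      1000 * (200 * ρ * w ^ 8 / ε) ^ 2 * (1000 / (ε * s)) * (w ^ 2) ^ 3 * w ^ 16 + 4 ≤
      ε * w ^ 16 * w ^ 8 := by
  have hq : 1 ≤ q := by linarith
  have hw0 := pow_le_w hq hw (Nat.zero_le 6)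
  have hw1 := pow_le_w hq hw (show 1 ≤ 6 by norm_num)
  rw [pow_zero] at hw0
  rw [pow_one] at hw1
  have hw2 : 1 ≤ w := by linarith
  have h1 : 2 * (7 * ρ * (w ^ 16) ^ 2) / (200 * ρ * w ^ 8 / ε) = 7 / 100 * (ε * w ^ 24) := by
    field_simp; ring
  have h2 : w ^ 23 ≤ ε * w ^ 24 := by
    have : 1 ≤ ε * w := by nlinarith only [hρ, hε, hρq, hw0, hw1]
    calc w ^ 23 = 1 * w ^ 23 := by ring
      _ ≤ ε * w * w ^ 23 := by gcongr
      _ = _ := by ring
  have h3 : 16 * (R * w ^ 8) ≤ w ^ 23 :=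
    calc 16 * (R * w ^ 8) = 16 * R * w ^ 8 := by ring
      _ ≤ w * w ^ 8 := by gcongr; linarith only [hRq, hq', hw0, hw1]
      _ = w ^ 9 := by ring
      _ ≤ _ := pow_le_pow_right₀ hw2 (by norm_num)
  have h4 : w ≤ w ^ 23 := le_self_pow₀ hw2 (by norm_num)
  have h5 : 32 * 10 ^ 10 * ρ ^ 2 ≤ ε ^ 4 * w := by
    have a1 : ρ ^ 2 ≤ (q * ε) ^ 4 :=
      (pow_le_pow_left₀ (by linarith) hρq 2).trans (pow_le_pow_right₀ (by linarith) (by norm_num))
    have a2 := pow_le_w hq hw (show 4 ≤ 6 by norm_num)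
    calc 32 * 10 ^ 10 * ρ ^ 2 ≤ 10 ^ 12 * (q * ε) ^ 4 := by nlinarith only [a1, sq_nonneg ρ]
      _ = ε ^ 4 * (10 ^ 12 * q ^ 4) := by ring
      _ ≤ _ := by gcongr
  have h6 : 1000 * (200 * ρ * w ^ 8 / ε) ^ 2 * (1000 / (ε * s)) * (w ^ 2) ^ 3 * w ^ 16 ≤
      ε * w ^ 24 / 8 :=
    calc _ ≤ 1000 * (200 * ρ * w ^ 8 / ε) ^ 2 * (1000 / (ε * w ^ 15)) * (w ^ 2) ^ 3 * w ^ 16 := by
          gcongr
      _ = 32 * 10 ^ 10 * ρ ^ 2 * (w ^ 23 / (8 * ε ^ 3)) := by field_simp; ring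
      _ ≤ ε ^ 4 * w * (w ^ 23 / (8 * ε ^ 3)) := by gcongr
      _ = _ := by field_simp
  rw [h1, show ε * w ^ 16 * w ^ 8 = ε * w ^ 24 by ring]
  linarith only [hw0, h2, h3, h4, h6]

lemma num_p (hR : 1 ≤ R) (hε : 0 < ε) (hRq : R ≤ q * ε) (hq' : q * ε ≤ q)
    (hw : 10 ^ 12 * q ^ 6 ≤ w) (hn : 10 ^ 12 * q ^ 5 * w ^ 31 ≤ n) (hn' : n ≤ (w ^ 16) ^ 2) :
    200 * (n * (w ^ 16) ^ 2 * (R * w ^ 8) ^ 2) / (ε * w ^ 24 / 8) ^ 2 *
        Real.exp (-(ε * w ^ 24 / 8 / (8000 * (R * w ^ 8) / ε)) ^ 2 / 8) + 2 * Real.exp (-n / 8) +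
        Real.exp (-(ε ^ 2 * n / 10 ^ 7)) ≤ 4 * w ^ 33 * Real.exp (-w ^ 31) := by
  have hq : 1 ≤ q := by linarith
  have hw0 := pow_le_w hq hw (Nat.zero_le 6)
  rw [pow_zero] at hw0
  have hw2 : 1 ≤ w := by linarith
  have hn0 : 0 < n := lt_of_lt_of_le (by positivity) hn
  have h4 : R ^ 2 ≤ (q * ε) ^ 2 := pow_le_pow_left₀ (by linarith) hRq 2
  have h1 : 200 * (n * (w ^ 16) ^ 2 * (R * w ^ 8) ^ 2) / (ε * w ^ 24 / 8) ^ 2 ≤ w ^ 33 :=
    calc _ = 12800 * n * R ^ 2 / ε ^ 2 := by field_simp; ring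
      _ ≤ 12800 * (w ^ 16) ^ 2 * (q * ε) ^ 2 / ε ^ 2 := by gcongr
      _ = 12800 * q ^ 2 * w ^ 32 := by field_simp
      _ ≤ w * w ^ 32 := by
          gcongr; nlinarith only [hw0, hq, hw, pow_le_w hq hw (show 2 ≤ 6 by norm_num), sq_nonneg q]
      _ = _ := by ring
  have h2 : w ^ 31 ≤ (ε * w ^ 24 / 8 / (8000 * (R * w ^ 8) / ε)) ^ 2 / 8 := by
    have a1 : R ^ 2 ≤ (q * ε) ^ 4 := h4.trans (pow_le_pow_right₀ (by linarith) (by norm_num))
    have a2 := pow_le_w hq hw (show 4 ≤ 6 by norm_num)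
    have a3 : 8 * 64000 ^ 2 * R ^ 2 ≤ ε ^ 4 * w :=
      calc 8 * 64000 ^ 2 * R ^ 2 ≤ 10 ^ 12 * (q * ε) ^ 4 := by nlinarith only [a1, sq_nonneg R]
        _ = ε ^ 4 * (10 ^ 12 * q ^ 4) := by ring
        _ ≤ _ := by gcongr
    calc w ^ 31 = 8 * 64000 ^ 2 * R ^ 2 * (w ^ 31 / (8 * 64000 ^ 2 * R ^ 2)) := by field_simp
      _ ≤ ε ^ 4 * w * (w ^ 31 / (8 * 64000 ^ 2 * R ^ 2)) := by gcongr
      _ = _ := by field_simp; ring
  have h3 : w ^ 31 ≤ ε ^ 2 * n / 10 ^ 7 := by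
    have a1 : 1 ≤ (q * ε) ^ 2 * q ^ 3 :=
      one_le_mul_of_one_le_of_one_le (one_le_pow₀ (by linarith only [hR, hRq])) (one_le_pow₀ hq)
    calc w ^ 31 = 1 * w ^ 31 := by ring
      _ ≤ 10 ^ 5 * ((q * ε) ^ 2 * q ^ 3) * w ^ 31 := by gcongr; linarith only [a1]
      _ = ε ^ 2 * (10 ^ 12 * q ^ 5 * w ^ 31) / 10 ^ 7 := by ring
      _ ≤ _ := by gcongr
  have h5 : w ^ 31 ≤ n / 8 := by
    have := one_le_pow₀ hq (n := 5)
    have h6 : 0 < w ^ 31 := by positivity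
    nlinarith only [hn, h6, this, hw0]
  have e1 := Real.exp_le_exp.2 (by linarith only [h2] :
    -(ε * w ^ 24 / 8 / (8000 * (R * w ^ 8) / ε)) ^ 2 / 8 ≤ -w ^ 31)
  have e2 := Real.exp_le_exp.2 (by linarith only [h5] : -n / 8 ≤ -w ^ 31)
  have e3 := Real.exp_le_exp.2 (neg_le_neg h3)
  have e4 := mul_le_mul h1 e1 (Real.exp_pos _).le (by positivity)
  have e5 := mul_le_mul_of_nonneg_right (one_le_pow₀ hw2 (n := 33)) (Real.exp_pos (-w ^ 31)).le
  linarith only [e2, e3, e4, e5]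

lemma num_union {m p : ℝ} (hw : 10 ≤ w) (hm : m ≤ w ^ 29) (hp0 : 0 ≤ p)
    (hp : p ≤ 4 * w ^ 33 * Real.exp (-w ^ 31)) : Real.exp m * p ≤ 1 / (2 * w) := by
  have hw1 : 1 ≤ w := by linarith
  have h1 : (w ^ 30) ^ 2 / 2 ≤ Real.exp (w ^ 30) := by
    simpa using Real.pow_div_factorial_le_exp (w ^ 30) (by positivity) 2
  have h2 : m + -w ^ 31 ≤ -w ^ 30 := by
    have a1 : w ^ 29 ≤ w ^ 30 := pow_le_pow_right₀ hw1 (by norm_num)
    have a2 : 2 * w ^ 30 ≤ w * w ^ 30 := by gcongr; linarith only [hw]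
    nlinarith only [hm, a1, a2]
  have h3 : 16 ≤ w ^ 26 :=
    le_trans (by nlinarith only [hw] : 16 ≤ w ^ 2) (pow_le_pow_right₀ hw1 (by norm_num))
  calc Real.exp m * p ≤ Real.exp m * (4 * w ^ 33 * Real.exp (-w ^ 31)) := by gcongr
    _ = 4 * w ^ 33 * Real.exp (m + -w ^ 31) := by rw [Real.exp_add]; ring
    _ ≤ 4 * w ^ 33 * Real.exp (-w ^ 30) := by gcongr
    _ = 4 * w ^ 33 / Real.exp (w ^ 30) := by rw [Real.exp_neg]; ring
    _ ≤ 4 * w ^ 33 / ((w ^ 30) ^ 2 / 2) := by gcongr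
    _ = 1 / (2 * w) * (16 / w ^ 26) := by field_simp; ring
    _ ≤ 1 / (2 * w) * 1 := by gcongr; rwa [div_le_one (by positivity)]
    _ = _ := mul_one _

lemma num_tail (hw : 10 ≤ w) (hn : n ≤ (w ^ 16) ^ 2) :
    3 * n * Real.exp (-(3 * w ^ 8) / 4) ≤ 1 / (2 * w) := by
  have hw1 : 1 ≤ w := by linarith
  have h1 : (3 * w ^ 8 / 4) ^ 5 / 120 ≤ Real.exp (3 * w ^ 8 / 4) := by
    simpa [Nat.factorial] using Real.pow_div_factorial_le_exp (3 * w ^ 8 / 4) (by positivity) 5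
  have h3 : (10 : ℝ) ^ 7 ≤ w ^ 7 := pow_le_pow_left₀ (by norm_num) hw 7
  calc 3 * n * Real.exp (-(3 * w ^ 8) / 4) ≤ 3 * (w ^ 16) ^ 2 * Real.exp (-(3 * w ^ 8) / 4) := by
        gcongr
    _ = 3 * (w ^ 16) ^ 2 / Real.exp (3 * w ^ 8 / 4) := by rw [neg_div, Real.exp_neg]; ring
    _ ≤ 3 * (w ^ 16) ^ 2 / ((3 * w ^ 8 / 4) ^ 5 / 120) := by gcongr
    _ = 1 / (2 * w) * (81920 / 27 / w ^ 7) := by field_simp; ring
    _ ≤ 1 / (2 * w) * 1 := by gcongr; rw [div_le_one (by positivity)]; linarith only [h3]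
    _ = _ := mul_one _

lemma num_card {k : ℝ} (hρ : 1 ≤ ρ) (hR : 1 ≤ R) (hq : ρ * R ≤ q) (hw : 10 ^ 12 * q ^ 6 ≤ w)
    (hk : k ≤ R ^ 2 * w ^ 12 + 1) : k ≤ w ^ 16 ∧ 7 * ρ * (w ^ 16 * k + k + 2) ≤ w ^ 29 := by
  have hq1 : 1 ≤ q := by nlinarith only [hρ, hR, hq]
  have hw0 := pow_le_w hq1 hw (Nat.zero_le 6)
  rw [pow_zero] at hw0
  have hw1 : 1 ≤ w := by linarith
  have h1 : ρ * R ^ 2 ≤ q ^ 2 :=
    calc ρ * R ^ 2 ≤ ρ ^ 2 * R ^ 2 := by gcongr; nlinarith only [hρ]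
      _ = (ρ * R) ^ 2 := by ring
      _ ≤ _ := by gcongr
  have h2 := pow_le_w hq1 hw (show 2 ≤ 6 by norm_num)
  have h3 : 1 ≤ R ^ 2 * w ^ 12 := one_le_mul_of_one_le_of_one_le (one_le_pow₀ hR) (one_le_pow₀ hw1)
  have h4 : 1 ≤ w ^ 16 := one_le_pow₀ hw1
  have h5 : k ≤ 2 * (R ^ 2 * w ^ 12) := by linarith
  constructor
  · calc k ≤ 2 * R ^ 2 * w ^ 12 := by linarith
      _ ≤ w * w ^ 12 := by gcongr; nlinarith only [hw0, h1, h2, hρ, sq_nonneg R]
      _ = w ^ 13 := by ring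
      _ ≤ _ := pow_le_pow_right₀ hw1 (by norm_num)
  · have h6 := mul_le_mul_of_nonneg_left h5 (by positivity : 0 ≤ w ^ 16)
    have h7 := mul_le_mul_of_nonneg_right h4 (by positivity : 0 ≤ R ^ 2 * w ^ 12)
    calc 7 * ρ * (w ^ 16 * k + k + 2) ≤ 7 * ρ * (6 * (w ^ 16 * (R ^ 2 * w ^ 12))) := by
          gcongr; linarith
      _ = 42 * (ρ * R ^ 2) * w ^ 28 := by ring
      _ ≤ w * w ^ 28 := by gcongr; nlinarith only [hw0, h1, h2, sq_nonneg q]
      _ = _ := by ring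

lemma num_net {d : ℝ} (hd : 40 ≤ d) (hlog : Real.log d ≤ ρ) :
    40 * d ^ 3 * (d * (1 / d ^ 5)) ≤ 1 ∧ 4 * d / (1 / d ^ 5) + 2 ≤ Real.exp (7 * ρ) := by
  constructor
  · rw [show 40 * d ^ 3 * (d * (1 / d ^ 5)) = 40 / d by field_simp, div_le_one (by linarith)]
    exact hd
  · have h1 : d ≤ Real.exp ρ := (Real.log_le_iff_le_exp (by linarith)).1 hlog
    have h2 : 1 ≤ d ^ 6 := one_le_pow₀ (by linarith)
    calc 4 * d / (1 / d ^ 5) + 2 = 4 * d ^ 6 + 2 := by field_simp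
      _ ≤ d * d ^ 6 := by nlinarith only [hd, h2]
      _ = d ^ 7 := by ring
      _ ≤ Real.exp ρ ^ 7 := by gcongr
      _ = _ := by rw [← Real.exp_nat_mul]; norm_num

end UpperAux

end Pool.Agent.Work.MP_6a50bc_pr
end
end

-- merged part: Pool.Agent.Work.MP_6a50bc_pr.LowerAux5
section
-- merged part: Pool.Agent.Work.MP_6a50bc_pr.LowerAux1
section
/-!
Linear algebra for the lower bound: removing one direction from a matrix.
-/

namespace Pool.Agent.Work.MP_6a50bc_pr.Lw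

open Matrix Finset

variable {ι κ : Type*} [Fintype ι] [DecidableEq ι] [Fintype κ] [DecidableEq κ]

/-- The projection along the unit vector `v`. -/
def qj (v : κ → ℝ) : Matrix κ κ ℝ := 1 - vecMulVec v v

/-- The compression of `S` to the orthogonal complement of `v`. -/
def cut (v : κ → ℝ) (S : Matrix κ κ ℝ) : Matrix κ κ ℝ := qj v * S * qj v

variable {v : κ → ℝ} {S S' : Matrix κ κ ℝ} {σ e : ℝ}

omit [DecidableEq κ] in
lemma pj_mulVec (v x : κ → ℝ) : vecMulVec v v *ᵥ x = (x ⬝ᵥ v) • v := by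
  ext a
  simp only [mulVec, dotProduct, vecMulVec_apply, Pi.smul_apply, smul_eq_mul, sum_mul]
  exact sum_congr rfl fun b _ => by ring

lemma qj_mulVec (v x : κ → ℝ) : qj v *ᵥ x = x - (x ⬝ᵥ v) • v := by
  rw [qj, sub_mulVec, one_mulVec, pj_mulVec]

omit [Fintype κ] in
lemma qj_transpose (v : κ → ℝ) : (qj v)ᵀ = qj v := by
  rw [qj, transpose_sub, transpose_one, transpose_vecMulVec]

omit [DecidableEq κ] in
lemma pj_mul (hv : nrm v = 1) : vecMulVec v v * vecMulVec v v = vecMulVec v v := by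
  rw [mul_vecMulVec, pj_mulVec, nrm_eq_one_iff.1 hv, one_smul]

lemma qj_self (hv : nrm v = 1) : qj v *ᵥ v = 0 := by
  rw [qj_mulVec, nrm_eq_one_iff.1 hv, one_smul, sub_self]

lemma qj_dot (hv : nrm v = 1) (x : κ → ℝ) : (qj v *ᵥ x) ⬝ᵥ v = 0 := by
  rw [qj_mulVec, sub_dotProduct, smul_dotProduct, nrm_eq_one_iff.1 hv, smul_eq_mul, mul_one,
    sub_self]

lemma dot_mix (hv : nrm v = 1) (c : ℝ) (x : κ → ℝ) :
    (c • v + qj v *ᵥ x) ⬝ᵥ (c • v + qj v *ᵥ x) = c ^ 2 + (qj v *ᵥ x) ⬝ᵥ (qj v *ᵥ x) := by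
  simp only [add_dotProduct, dotProduct_add, smul_dotProduct, dotProduct_smul, smul_eq_mul,
    nrm_eq_one_iff.1 hv, qj_dot hv, dotProduct_comm v (qj v *ᵥ x)]
  ring

lemma qj_dot_le (hv : nrm v = 1) (x : κ → ℝ) : (qj v *ᵥ x) ⬝ᵥ (qj v *ᵥ x) ≤ x ⬝ᵥ x := by
  have h := dot_mix hv (x ⬝ᵥ v) x
  rw [show (x ⬝ᵥ v) • v + qj v *ᵥ x = x by rw [qj_mulVec, add_sub_cancel]] at h
  nlinarith only [h, sq_nonneg (x ⬝ᵥ v)]

lemma nrm_qj_le (hv : nrm v = 1) (x : κ → ℝ) : nrm (qj v *ᵥ x) ≤ nrm x :=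
  Real.sqrt_le_sqrt (qj_dot_le hv x)

lemma opn_qj_le (hv : nrm v = 1) : opn (qj v) ≤ 1 :=
  opn_le_of zero_le_one fun x => by rw [one_mul]; exact nrm_qj_le hv x

lemma mulVec_qj (h0 : S *ᵥ v = 0) (x : κ → ℝ) : S *ᵥ (qj v *ᵥ x) = S *ᵥ x := by
  rw [qj_mulVec, mulVec_sub, mulVec_smul, h0, smul_zero, sub_zero]

lemma qf_mix (hS : S.IsHermitian) (h0 : S *ᵥ v = 0) (c : ℝ) (x : κ → ℝ) :
    qf S (c • v + qj v *ᵥ x) = qf S x := by
  have e : c • v + qj v *ᵥ x = x + (c - x ⬝ᵥ v) • v := by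
    rw [qj_mulVec, sub_smul]; abel
  rw [e, qf_add_vec hS, mulVec_smul, qf_smul_vec, qf, qf, h0]
  simp

lemma cut_posSemidef (v : κ → ℝ) (hS : S.PosSemidef) : (cut v S).PosSemidef := by
  have := hS.conjTranspose_mul_mul_same (qj v)
  rwa [conjTranspose_eq_transpose_of_trivial, qj_transpose] at this

lemma cut_mulVec (hv : nrm v = 1) (S : Matrix κ κ ℝ) : cut v S *ᵥ v = 0 := by
  rw [cut, ← mulVec_mulVec, qj_self hv, mulVec_zero]

lemma opn_cut_le (hv : nrm v = 1) (hσ : opn S ≤ σ) : opn (cut v S) ≤ σ := by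
  have h1 := opn_mul_le (qj v * S) (qj v)
  have h2 := opn_mul_le (qj v) S
  have h3 := opn_qj_le hv
  have h4 := opn_nonneg S
  have h5 := opn_nonneg (qj v * S)
  have h6 := opn_nonneg (qj v)
  unfold cut
  nlinarith only [hσ, h1, h2, h3, h4, h5]

lemma sub_cut (hS : S.IsHermitian) (v : κ → ℝ) :
    S - cut v S = vecMulVec v (S *ᵥ v) + vecMulVec (qj v *ᵥ S *ᵥ v) v := by
  have e1 : vecMulVec v (S *ᵥ v) = vecMulVec v v * S := by
    rw [vecMulVec_mul, ← mulVec_transpose, isHermitian_iff.1 hS]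
  have e2 : vecMulVec (qj v *ᵥ S *ᵥ v) v = qj v * S * vecMulVec v v := by
    rw [mul_vecMulVec, mulVec_mulVec]
  rw [e1, e2, cut, qj]
  noncomm_ring

lemma trace_cut (hS : S.IsHermitian) (hv : nrm v = 1) : (cut v S).trace = S.trace - qf S v := by
  have h := congrArg Matrix.trace (sub_cut hS v)
  rw [trace_sub, trace_add, trace_vecMulVec, trace_vecMulVec, qj_dot hv] at h
  unfold qf
  linarith

/-- A matrix close to the compression is close to the matrix itself. -/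
lemma cut_near (hS : S.IsHermitian) (hv : nrm v = 1) (hσ : opn S ≤ σ)
    (he : fro (cut v S - S') ≤ e) :
    |fro S' - fro S| ≤ 2 * σ + e ∧ S.trace - σ - √(Fintype.card κ) * e ≤ S'.trace ∧
      (∀ B : Matrix κ κ ℝ, ip B S - 2 * σ * opn B - fro B * e ≤ ip B S') ∧
      ∀ x, |qf S x - qf S' x| ≤ 2 * σ * |x ⬝ᵥ v| * nrm x + e * (x ⬝ᵥ x) := by
  have a1 : nrm (S *ᵥ v) ≤ σ := by
    have := nrm_mulVec_le S v
    rw [hv, mul_one] at this
    exact this.trans hσ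
  have a2 : nrm (qj v *ᵥ S *ᵥ v) ≤ σ := (nrm_qj_le hv _).trans a1
  have e0 : S - S' = vecMulVec v (S *ᵥ v) + vecMulVec (qj v *ᵥ S *ᵥ v) v + (cut v S - S') := by
    rw [← sub_cut hS, sub_add_sub_cancel]
  generalize qj v *ᵥ S *ᵥ v = b at *
  refine ⟨?_, ?_, fun B => ?_, fun x => ?_⟩
  · refine (abs_fro_sub_le _ _).trans ?_
    rw [fro_sub_comm, e0]
    refine (fro_add_le _ _).trans (add_le_add ((fro_add_le _ _).trans ?_) he)
    rw [fro_vecMulVec, fro_vecMulVec, hv]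
    linarith
  · have h1 := (abs_le.1 (abs_trace_le (cut v S - S'))).2
    have h2 := (abs_le.1 (abs_qf_le_opn S v)).2
    have h3 := mul_le_mul_of_nonneg_left he (Real.sqrt_nonneg (Fintype.card κ : ℝ))
    rw [trace_sub, trace_cut hS hv] at h1
    rw [nrm_eq_one_iff.1 hv] at h2
    linarith
  · have h0 := congrArg (ip B) e0
    rw [ip_sub_right, ip_add_right, ip_add_right, ip_vecMulVec, ip_vecMulVec] at h0
    have h1 := (abs_le.1 (abs_dot_mulVec_le B v (S *ᵥ v))).2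
    have h2 := (abs_le.1 (abs_dot_mulVec_le B b v)).2
    have h3 := (ip_le B (cut v S - S')).trans (mul_le_mul_of_nonneg_left he (fro_nonneg B))
    have h4 := mul_le_mul_of_nonneg_left a1 (opn_nonneg B)
    have h5 := mul_le_mul_of_nonneg_left a2 (opn_nonneg B)
    rw [hv] at h1 h2
    linarith
  · rw [← qf_sub, e0, qf_add, qf_add, qf_vecMulVec, qf_vecMulVec, dotProduct_comm v x]
    have h1 := (abs_dot_le (S *ᵥ v) x).trans (mul_le_mul_of_nonneg_right a1 (nrm_nonneg x))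
    have h2 := (abs_dot_le b x).trans (mul_le_mul_of_nonneg_right a2 (nrm_nonneg x))
    have h3 := (abs_qf_le_fro (cut v S - S') x).trans
      (mul_le_mul_of_nonneg_right he (dot_self_nonneg x))
    have h4 := mul_le_mul_of_nonneg_left h1 (abs_nonneg (x ⬝ᵥ v))
    have h5 := mul_le_mul_of_nonneg_left h2 (abs_nonneg (x ⬝ᵥ v))
    refine (abs_add_le _ _).trans (add_le_add ((abs_add_le _ _).trans ?_) h3)
    rw [abs_mul, abs_mul]
    linarith

/-- The Lipschitz bound for the chaos. -/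
lemma lip {u : ι → ℝ} {H : Finset ι} (hu : nrm u ≤ 1) (hu0 : ∀ k ∈ H, u k = 0) (hS : S.IsHermitian)
    (h0 : S *ᵥ v = 0) (hσ : opn S ≤ σ) {R : ℝ} (hR : 0 ≤ R) {x x' : ι → κ → ℝ}
    (hx : ∀ k ∉ H, nrm (qj v *ᵥ x k) ≤ R) (hx' : ∀ k ∉ H, nrm (qj v *ᵥ x' k) ≤ R) :
    |∑ k, u k * (qf S (x k) - qf S (x' k))| ≤ 2 * σ * R * fro (Matrix.of x - Matrix.of x') := by
  have σ0 := (opn_nonneg S).trans hσ
  have h1 : ∀ k, |u k * (qf S (x k) - qf S (x' k))| ≤ 2 * σ * R * (|u k| * nrm (x k - x' k)) := by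
    intro k
    by_cases hk : k ∈ H
    · simp [hu0 k hk]
    rw [abs_mul, qf_sub_qf hS, ← mulVec_qj h0, mul_left_comm]
    refine mul_le_mul_of_nonneg_left ((abs_dot_mulVec_le _ _ _).trans ?_) (abs_nonneg _)
    have h2 : nrm (qj v *ᵥ (x k + x' k)) ≤ 2 * R := by
      rw [mulVec_add]
      linarith [nrm_add_le (qj v *ᵥ x k) (qj v *ᵥ x' k), hx k hk, hx' k hk]
    have h3 := nrm_nonneg (x k - x' k)
    calc _ ≤ σ * nrm (x k - x' k) * (2 * R) :=
          mul_le_mul (mul_le_mul_of_nonneg_right hσ h3) h2 (nrm_nonneg _) (by positivity)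
      _ = _ := by ring
  refine (abs_sum_le_sum_abs _ _).trans ((sum_le_sum fun k _ => h1 k).trans ?_)
  rw [← mul_sum]
  refine mul_le_mul_of_nonneg_left ?_ (by positivity)
  have h4 := dot_le (fun k => |u k|) fun k => nrm (x k - x' k)
  have h5 : nrm (fun k => |u k|) ≤ 1 := (nrm_mono fun k => by rw [abs_abs]).trans hu
  have h6 : nrm (fun k => nrm (x k - x' k)) = fro (Matrix.of x - Matrix.of x') := by
    refine (sq_eq_sq₀ (nrm_nonneg _) (fro_nonneg _)).1 ?_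
    rw [nrm_sq, fro_sq_eq_sum_rows]
    exact sum_congr rfl fun k _ => by rw [← sq, nrm_sq]; rfl
  rw [h6] at h4
  exact h4.trans (mul_le_of_le_one_left (fro_nonneg _) h5)

end Pool.Agent.Work.MP_6a50bc_pr.Lw
end

-- merged part: Pool.Agent.Work.MP_6a50bc_pr.LowerAux2
section
/-!
The auxiliary problem of the lower bound.
-/

namespace Pool.Agent.Work.MP_6a50bc_pr.Lw

open MeasureTheory ProbabilityTheory Matrix Finset
open scoped ENNReal

variable {ι κ : Type*} [Fintype ι] [DecidableEq ι] [Fintype κ] [DecidableEq κ]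

/-- The part of the value that does not involve the resampled components. -/
noncomputable def bb (s d μ c : ℝ) (H : Finset ι) (v : κ → ℝ) (x : ι → κ → ℝ) (u : ι → ℝ)
    (S : Matrix κ κ ℝ) : ℝ :=
  ∑ k, u k * (s * (x k ⬝ᵥ v) ^ 2 - (d - S.trace)) - μ * nrm u - c * ∑ i ∈ H, |d - qf S (x i)|

/-- The vector tested against the dual vector. -/
def zz (α : ℝ) (H : Finset ι) (p : ι → ℝ) (T : ℝ) (γ : ι → ℝ) : ι → ℝ :=
  fun k => if k ∈ H then 0 else α * γ k + (p k - T)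

variable {α T : ℝ} {H : Finset ι} {p : ι → ℝ}

lemma zz_lip (hα : 0 ≤ α) (γ γ' : ι → ℝ) :
    |nrm (zz α H p T γ) - nrm (zz α H p T γ')| ≤ α * nrm (γ - γ') := by
  refine (abs_nrm_sub_le _ _).trans ?_
  rw [← abs_of_nonneg hα, ← nrm_smul, abs_of_nonneg hα]
  refine nrm_mono fun k => ?_
  simp only [zz, Pi.sub_apply, Pi.smul_apply, smul_eq_mul]
  split_ifs
  · simp only [sub_self, abs_zero, abs_nonneg]
  · exact le_of_eq (congrArg _ (by ring))

lemma sq_integral_le {X : Type*} [MeasurableSpace X] {ν : Measure X} [IsProbabilityMeasure ν]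
    {f : X → ℝ} (h1 : Integrable f ν) (h2 : Integrable (fun x => f x ^ 2) ν) :
    (∫ x, f x ∂ν) ^ 2 ≤ ∫ x, f x ^ 2 ∂ν := by
  set m := ∫ x, f x ∂ν with hm
  have h3 : ∫ x, (2 * m * f x - m ^ 2) ∂ν ≤ ∫ x, f x ^ 2 ∂ν :=
    integral_mono ((h1.const_mul _).sub (integrable_const _)) h2 fun x => by
      nlinarith only [sq_nonneg (f x - m)]
  rw [integral_sub (h1.const_mul _) (integrable_const _), integral_const_mul, ← hm] at h3
  simp only [integral_const, probReal_univ, smul_eq_mul, one_mul] at h3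
  linarith

omit [DecidableEq ι] in
lemma coord_int (a c : ℝ) (k : ι) : Integrable (fun γ : ι → ℝ => (a * γ k + c) ^ 2) (gv ι) ∧
    ∫ γ, (a * γ k + c) ^ 2 ∂(gv ι) = a ^ 2 + c ^ 2 := by
  classical
  have b1 : ∀ γ : ι → ℝ, |γ k| ≤ 1 + nrm γ := fun γ => by linarith [abs_le_nrm γ k]
  have i1 : Integrable (fun γ : ι → ℝ => γ k) (gv ι) :=
    integrable_of_le_pow (Continuous.aestronglyMeasurable (by fun_prop)) 1 1 fun γ => by simpa using b1 γ
  have i2 : Integrable (fun γ : ι → ℝ => γ k ^ 2) (gv ι) :=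
    integrable_of_le_pow (Continuous.aestronglyMeasurable (by fun_prop)) 1 2 fun γ => by
      rw [abs_pow, one_mul]; exact pow_le_pow_left₀ (abs_nonneg _) (b1 γ) 2
  have m1 : ∫ γ, γ k ∂(gv ι) = 0 := by
    have := integral_map (μ := gv ι) (mp_eval_gv k).measurable.aemeasurable (f := fun t : ℝ => t)
      (Continuous.aestronglyMeasurable (by fun_prop))
    rw [(mp_eval_gv k).map_eq, integral_id_gaussianReal] at this
    exact this.symm
  have m2 : ∫ γ, γ k ^ 2 ∂(gv ι) = 1 := by simpa using integral_dot_sq (Pi.single k (1 : ℝ))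
  have e : (fun γ : ι → ℝ => (a * γ k + c) ^ 2) =
      fun γ => a ^ 2 * γ k ^ 2 + (2 * a * c * γ k + c ^ 2) := funext fun γ => by ring
  have i3 : Integrable (fun γ : ι → ℝ => 2 * a * c * γ k + c ^ 2) (gv ι) :=
    (i1.const_mul _).add (integrable_const _)
  rw [e]
  refine ⟨(i2.const_mul _).add i3, ?_⟩
  rw [integral_add (i2.const_mul _) i3, integral_add (i1.const_mul _) (integrable_const _),
    integral_const_mul, integral_const_mul, m1, m2]
  simp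

lemma zz_mean (hα : 0 ≤ α) {q : ℝ} (hq0 : 0 ≤ q) (hq : ∀ k ∉ H, (p k - T) ^ 2 ≤ q) :
    ∫ γ, nrm (zz α H p T γ) ∂(gv ι) ≤ √(Fintype.card ι) * √(α ^ 2 + q) := by
  obtain ⟨h1, h2, -⟩ := conc_var (zz_lip (H := H) (p := p) (T := T) hα)
  rw [← Real.sqrt_mul (Nat.cast_nonneg _)]
  refine Real.le_sqrt_of_sq_le ((sq_integral_le h1 h2).trans ?_)
  have e : (fun γ => nrm (zz α H p T γ) ^ 2) =
      fun γ => ∑ k, if k ∈ H then 0 else (α * γ k + (p k - T)) ^ 2 := funext fun γ => by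
    rw [nrm_sq]
    refine sum_congr rfl fun k _ => ?_
    simp only [zz]
    split_ifs <;> ring
  have i1 : ∀ k, Integrable (fun γ : ι → ℝ => if k ∈ H then 0 else (α * γ k + (p k - T)) ^ 2)
      (gv ι) := fun k => by
    split_ifs
    · exact integrable_const _
    · exact (coord_int _ _ k).1
  rw [e, integral_finsetSum _ fun k _ => i1 k, ← nsmul_eq_mul, ← card_univ]
  refine sum_le_card_nsmul _ _ _ fun k _ => ?_
  split_ifs with hk
  · simp only [integral_zero]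
    positivity
  · rw [(coord_int _ _ k).2]
    linarith [hq k hk]

lemma dot_zz {u : ι → ℝ} (hu0 : ∀ k ∈ H, u k = 0) (γ : ι → ℝ) :
    u ⬝ᵥ zz α H p T γ = α * (u ⬝ᵥ γ) + ∑ k, u k * p k - T * ∑ k, u k := by
  simp only [dotProduct, mul_sum, ← sum_add_distrib, ← sum_sub_distrib, zz]
  refine sum_congr rfl fun k _ => ?_
  split_ifs with hk
  · simp [hu0 k hk]
  · ring

omit [DecidableEq κ] in
/-- The value at the zero matrix. -/
lemma point_bad {s d μ c q K : ℝ} {v : κ → ℝ} (d0 : 0 ≤ d) (hμ : 0 ≤ μ) (hq : 0 ≤ q)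
    {x : ι → κ → ℝ} (hξ : ∀ k ∉ H, 0 ≤ s * (x k ⬝ᵥ v) ^ 2 ∧ s * (x k ⬝ᵥ v) ^ 2 ≤ q)
    (hK : √(Fintype.card ι) * (q + d) + μ + c * (H.card * d) ≤ K) {u : ι → ℝ} (hu : nrm u ≤ 1)
    (hu0 : ∀ k ∈ H, u k = 0) : -K ≤ bb s d μ c H v x u 0 := by
  set P : ι → ℝ := fun k => s * (x k ⬝ᵥ v) ^ 2 with hP
  have k1 := (abs_le.1 (abs_dot_le u (zz 0 H P d 0))).1
  have k2 : nrm (zz 0 H P d 0) ≤ √(Fintype.card ι : ℝ) * (q + d) := by
    refine nrm_le_of_abs_le (by positivity) fun k => ?_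
    simp only [zz, hP]
    split_ifs with hk
    · rw [abs_zero]; positivity
    · obtain ⟨h3, h4⟩ := hξ k hk
      exact abs_le.2 ⟨by linarith, by linarith⟩
  have k3 := mul_le_mul hu k2 (nrm_nonneg _) zero_le_one
  have k4 := mul_le_of_le_one_right hμ hu
  have e3 : ∑ k, u k * (s * (x k ⬝ᵥ v) ^ 2 - d) = ∑ k, u k * P k - d * ∑ k, u k := by
    rw [mul_sum, ← sum_sub_distrib]
    exact sum_congr rfl fun k _ => by simp only [hP]; ring
  rw [dot_zz hu0] at k1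
  simp only [bb, trace_zero, qf_zero, sub_zero, e3, abs_of_nonneg d0, sum_const, nsmul_eq_mul]
  linarith

/-- The linear term of the auxiliary problem. -/
lemma point_lin {D W₀ W₁ T₁ t e : ℝ} {γ u : ι → ℝ} (hu : nrm u ≤ 1) (hu0 : ∀ k ∈ H, u k = 0)
    (hW₀ : 0 ≤ W₀) (hW₁ : 0 ≤ W₁) (he : 0 ≤ e) (h0 : nrm (zz α H p 0 γ) ≤ D + W₀)
    (h1 : nrm (zz α H p T₁ γ) ≤ D + W₁) (ht0 : 0 ≤ t) (ht : t ≤ T₁ + e) :
    -(nrm u * D) - (W₀ + W₁) - e * (√(Fintype.card ι : ℝ) * nrm u) ≤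
      α * (u ⬝ᵥ γ) + ∑ k, u k * p k - t * ∑ k, u k := by
  have u0 := nrm_nonneg u
  have k8 : ∀ T W, 0 ≤ W → nrm (zz α H p T γ) ≤ D + W →
      -(nrm u * D) - W ≤ α * (u ⬝ᵥ γ) + ∑ k, u k * p k - T * ∑ k, u k := fun T W h2 h3 => by
    rw [← dot_zz hu0]
    have b1 := (abs_le.1 (abs_dot_le u (zz α H p T γ))).1
    have b3 := mul_le_mul_of_nonneg_left h3 u0
    have b4 := mul_le_of_le_one_left h2 hu
    linarith
  have k9 : ∑ k, u k ≤ √(Fintype.card ι : ℝ) * nrm u :=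
    (sum_le_sum fun k _ => le_abs_self _).trans (sum_abs_le u)
  rcases le_total 0 (∑ k, u k) with h2 | h2
  · have b1 := k8 T₁ W₁ hW₁ h1
    have b2 := mul_le_mul_of_nonneg_right ht h2
    have b3 := mul_le_mul_of_nonneg_left k9 he
    linarith
  · have b1 := k8 0 W₀ hW₀ h0
    have b2 := mul_nonpos_of_nonneg_of_nonpos ht0 h2
    have b3 : 0 ≤ e * (√(Fintype.card ι : ℝ) * nrm u) := by positivity
    linarith

/-- The value at a net point close to the compression of a good matrix. -/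
lemma point_good {σ s T₀ T₁ a₀ ws d μ c e δ δ' e₄ D W₀ W₁ : ℝ} {v : κ → ℝ} (hv : nrm v = 1)
    (hd : d = Fintype.card κ) (hT₀ : 0 ≤ T₀) (hc : 0 ≤ c) (he : 0 ≤ e) (hσ : 0 ≤ σ)
    (hδ' : 0 ≤ δ') {B S₀ S : Matrix κ κ ℝ} (p1 : S₀.IsHermitian) (p2 : opn S₀ ≤ σ)
    (p3 : d - T₁ ≤ S₀.trace) (p5 : a₀ - δ' ≤ fro S₀) (p6 : fro S₀ ≤ a₀) (p7 : ws ≤ ip B S₀)
    (p8 : opn B ≤ 3 * √d) (hSe : fro (cut v S₀ - S) ≤ e) (c5 : S.trace ≤ d - T₀)
    {x : ι → κ → ℝ} (h4 : ∑ i ∈ H, (2 * σ * |x i ⬝ᵥ v| * nrm (x i) + e * (x i ⬝ᵥ x i)) ≤ e₄)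
    (hδ : δ' + 2 * σ + e ≤ δ)
    (hAO : D + μ + 2 * (6 * σ * √d + 3 * d * e) + (σ + √d * e) * √(Fintype.card ι) ≤ √2 * ws)
    {γ u : ι → ℝ} (hu : nrm u ≤ 1) (hu0 : ∀ k ∈ H, u k = 0) (hW₀ : 0 ≤ W₀) (hW₁ : 0 ≤ W₁)
    (h0 : nrm (zz (√2 * a₀) H (fun k => s * (x k ⬝ᵥ v) ^ 2) 0 γ) ≤ D + W₀)
    (h1 : nrm (zz (√2 * a₀) H (fun k => s * (x k ⬝ᵥ v) ^ 2) T₁ γ) ≤ D + W₁) :
    -(W₀ + W₁ + 2 * δ * nrm γ) - (c * ∑ i ∈ H, |d - qf S₀ (x i)| + c * e₄) ≤
      √2 * (fro S * (u ⬝ᵥ γ) + nrm u * ip B S) + bb s d μ c H v x u S := by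
  have d0 : 0 ≤ d := hd ▸ Nat.cast_nonneg _
  have s2 : √2 ≤ 2 := Real.sqrt_le_iff.2 (by norm_num)
  have s0 : 0 ≤ √2 := Real.sqrt_nonneg 2
  have δ0 : 0 ≤ δ := by linarith
  have u0 := nrm_nonneg u
  obtain ⟨c1, c2, c3, c4⟩ := cut_near p1 hv p2 hSe
  rw [← hd] at c2
  have k1 : |(fro S - a₀) * (u ⬝ᵥ γ)| ≤ δ * nrm γ := by
    rw [abs_mul]
    refine mul_le_mul (abs_le.2 ⟨by linarith [(abs_le.1 c1).1], by linarith [(abs_le.1 c1).2]⟩)
      ((abs_dot_le u γ).trans (mul_le_of_le_one_left (nrm_nonneg γ) hu)) (abs_nonneg _) δ0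
  have k2 := mul_le_mul s2 k1 (abs_nonneg _) zero_le_two
  have k3 := mul_le_mul_of_nonneg_left (neg_abs_le ((fro S - a₀) * (u ⬝ᵥ γ))) s0
  have k4 : ws - (6 * σ * √d + 3 * d * e) ≤ ip B S := by
    have b1 : fro B ≤ 3 * d := by
      refine (fro_le_sqrt_mul_opn _).trans ?_
      rw [← hd]
      calc _ ≤ √d * (3 * √d) := mul_le_mul_of_nonneg_left p8 (Real.sqrt_nonneg d)
        _ = 3 * d := by rw [mul_left_comm, Real.mul_self_sqrt d0]
    have b2 := mul_le_mul_of_nonneg_right b1 he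
    have b3 := mul_le_mul_of_nonneg_left p8 hσ
    linarith only [p7, b2, b3, c3 B]
  have k5 := mul_le_mul_of_nonneg_right s2 (show 0 ≤ 6 * σ * √d + 3 * d * e by positivity)
  have k6 := mul_le_mul_of_nonneg_left k4 s0
  have k7 := mul_le_mul_of_nonneg_left (show D + μ + (σ + √d * e) * √(Fintype.card ι : ℝ) ≤
    √2 * ip B S by linarith only [hAO, k5, k6]) u0
  have k10 := point_lin hu hu0 hW₀ hW₁ (show 0 ≤ σ + √d * e by positivity) h0 h1
    (show 0 ≤ d - S.trace by linarith) (by linarith)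
  have k11 : ∑ i ∈ H, |d - qf S (x i)| ≤ ∑ i ∈ H, |d - qf S₀ (x i)| + e₄ := by
    refine le_trans ?_ (add_le_add_right h4 _)
    rw [← sum_add_distrib]
    exact sum_le_sum fun i _ => (abs_sub_le _ (qf S₀ (x i)) _).trans
      (add_le_add_right (c4 (x i)) _)
  have k12 := mul_le_mul_of_nonneg_left k11 hc
  have e3 : ∑ k, u k * (s * (x k ⬝ᵥ v) ^ 2 - (d - S.trace)) =
      ∑ k, u k * (s * (x k ⬝ᵥ v) ^ 2) - (d - S.trace) * ∑ k, u k := by
    rw [mul_sum, ← sum_sub_distrib]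
    exact sum_congr rfl fun k _ => by ring
  rw [bb, e3]
  linarith only [k2, k3, k7, k10, k12]

omit [DecidableEq ι] in
lemma le_add_var {f m D : ℝ} (h : m ≤ D) : f ≤ D + ((f - m) ^ 2 + 1) := by
  nlinarith only [h, sq_nonneg (f - m - 1), sq_nonneg (f - m)]

/-- The fluctuation of the norm of the tested vector. -/
lemma exists_var {a₀ T₁ q δ : ℝ} (ha₀ : 0 ≤ a₀) (hT₁ : 0 ≤ T₁) (hδ : 0 ≤ δ)
    (hξ : ∀ k ∉ H, 0 ≤ p k ∧ p k ≤ q) :
    ∃ W₀ W₁ : (ι → ℝ) → ℝ, (∀ γ, 0 ≤ W₀ γ) ∧ (∀ γ, 0 ≤ W₁ γ) ∧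
      (∀ γ, nrm (zz (√2 * a₀) H p 0 γ) ≤
        √(Fintype.card ι) * √(2 * a₀ ^ 2 + T₁ ^ 2 + q ^ 2) + W₀ γ) ∧
      (∀ γ, nrm (zz (√2 * a₀) H p T₁ γ) ≤
        √(Fintype.card ι) * √(2 * a₀ ^ 2 + T₁ ^ 2 + q ^ 2) + W₁ γ) ∧
      Integrable (fun γ => W₀ γ + W₁ γ + 2 * δ * nrm γ) (gv ι) ∧
      ∫ γ, (W₀ γ + W₁ γ + 2 * δ * nrm γ) ∂(gv ι) ≤ 16 * a₀ ^ 2 + 2 + 2 * δ * √(Fintype.card ι) := by
  have hα : 0 ≤ √2 * a₀ := by positivity
  have eα : (√2 * a₀) ^ 2 = 2 * a₀ ^ 2 := by rw [mul_pow, Real.sq_sqrt (by norm_num)]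
  have key : ∀ T, 0 ≤ T → T ≤ T₁ → ∃ W : (ι → ℝ) → ℝ, (∀ γ, 0 ≤ W γ) ∧
      (∀ γ, nrm (zz (√2 * a₀) H p T γ) ≤
        √(Fintype.card ι) * √(2 * a₀ ^ 2 + T₁ ^ 2 + q ^ 2) + W γ) ∧ Integrable W (gv ι) ∧
      ∫ γ, W γ ∂(gv ι) ≤ 8 * a₀ ^ 2 + 1 := fun T h1 h2 => by
    have hm : ∫ γ, nrm (zz (√2 * a₀) H p T γ) ∂(gv ι) ≤
        √(Fintype.card ι) * √(2 * a₀ ^ 2 + T₁ ^ 2 + q ^ 2) := by
      rw [add_assoc, ← eα]
      refine zz_mean hα (by positivity) fun k hk => ?_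
      obtain ⟨h3, h4⟩ := hξ k hk
      have h5 := mul_nonneg h3 h1
      have h6 := pow_le_pow_left₀ h3 h4 2
      have h7 := pow_le_pow_left₀ h1 h2 2
      rw [sub_sq]
      linarith
    obtain ⟨i1, i2, i3⟩ := conc_var (zz_lip (H := H) (p := p) (T := T) hα)
    generalize ∫ γ, nrm (zz (√2 * a₀) H p T γ) ∂(gv ι) = m at hm i3
    have i4 : Integrable (fun γ => (nrm (zz (√2 * a₀) H p T γ) - m) ^ 2) (gv ι) := by
      simp only [sub_sq]
      exact (i2.sub ((i1.const_mul 2).mul_const _)).add (integrable_const _)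
    refine ⟨fun γ => (nrm (zz (√2 * a₀) H p T γ) - m) ^ 2 + 1, fun γ => by positivity,
      fun γ => le_add_var hm, i4.add (integrable_const _), ?_⟩
    rw [integral_add i4 (integrable_const _)]
    simp only [integral_const, probReal_univ, smul_eq_mul, one_mul]
    linarith
  obtain ⟨W₀, a1, a2, a3, a4⟩ := key 0 le_rfl hT₁
  obtain ⟨W₁, b1, b2, b3, b4⟩ := key T₁ hT₁ le_rfl
  have in1 : Integrable (fun γ : ι → ℝ => nrm γ) (gv ι) := by simpa using integrable_nrm_pow 1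
  have i5 : Integrable (fun γ => W₀ γ + W₁ γ) (gv ι) := a3.add b3
  refine ⟨W₀, W₁, a1, b1, a2, b2, i5.add (in1.const_mul _), ?_⟩
  rw [integral_add i5 (in1.const_mul _), integral_add a3 b3, integral_const_mul]
  have := mul_le_mul_of_nonneg_left (integral_nrm_le (κ := ι)) hδ
  linarith

/-- A lower bound for the auxiliary problem. -/
theorem exists_Phi {σ s T₀ T₁ a₀ ws d μ c q e δ δ' e₄ K R π : ℝ} {v : κ → ℝ} (hv : nrm v = 1)
    (hd : d = Fintype.card κ) (hT₀ : 0 ≤ T₀) (hT₁ : 0 ≤ T₁) (ha₀ : 0 ≤ a₀) (hc : 0 ≤ c)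
    (hμ : 0 ≤ μ) (he : 0 ≤ e) (hq : 0 ≤ q) (hσ : 0 ≤ σ) (hδ' : 0 ≤ δ') (he₄ : 0 ≤ e₄) (hπ : 0 ≤ π)
    (S₀ : (κ → κ → ℝ) → Matrix κ κ ℝ) (hS₀ : Continuous S₀) {G : Set (κ → κ → ℝ)}
    (hG : MeasurableSet G) (hGp : gm κ κ Gᶜ ≤ ENNReal.ofReal π)
    (hprop : ∀ B ∈ G, (S₀ B).PosSemidef ∧ opn (S₀ B) ≤ σ ∧
      d - T₁ ≤ (S₀ B).trace ∧ (S₀ B).trace ≤ d - T₀ ∧ a₀ - δ' ≤ fro (S₀ B) ∧ fro (S₀ B) ≤ a₀ ∧
      ws ≤ ip (Matrix.of B) (S₀ B) ∧ opn (Matrix.of B) ≤ 3 * √d)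
    (NJ : Finset (Matrix κ κ ℝ)) (h0 : 0 ∈ NJ) (hJ : ∀ S ∈ NJ, S.trace ≤ d - T₀)
    (hnet : ∀ S : Matrix κ κ ℝ, S.PosSemidef → S *ᵥ v = 0 → opn S ≤ σ → S.trace ≤ d - T₀ →
      ∃ S' ∈ NJ, fro (S - S') ≤ e)
    (x : ι → κ → ℝ) (hξ : ∀ k ∉ H, 0 ≤ s * (x k ⬝ᵥ v) ^ 2 ∧ s * (x k ⬝ᵥ v) ^ 2 ≤ q)
    (h4 : ∑ i ∈ H, (2 * σ * |x i ⬝ᵥ v| * nrm (x i) + e * (x i ⬝ᵥ x i)) ≤ e₄)
    (hR : ∑ i ∈ H, ∫ B in G, |d - qf (S₀ B) (x i)| ∂(gm κ κ) ≤ R)
    (hδ : δ' + 2 * σ + e ≤ δ)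
    (hK : √(Fintype.card ι) * (q + d) + μ + c * (H.card * d) ≤ K)
    (hAO : √(Fintype.card ι) * √(2 * a₀ ^ 2 + T₁ ^ 2 + q ^ 2) + μ + 2 * (6 * σ * √d + 3 * d * e) +
      (σ + √d * e) * √(Fintype.card ι) ≤ √2 * ws) :
    ∃ Φ : (ι → ℝ) × (κ → κ → ℝ) → ℝ, Integrable Φ ((gv ι).prod (gm κ κ)) ∧
      (∀ γ B (u : ι → ℝ), nrm u ≤ 1 → (∀ k ∈ H, u k = 0) → ∃ S ∈ NJ, Φ (γ, B) ≤
        √2 * (fro S * (u ⬝ᵥ γ) + nrm u * ip (Matrix.of B) S) + bb s d μ c H v x u S) ∧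
      -(16 * a₀ ^ 2 + 2 + 2 * δ * √(Fintype.card ι) + c * R + c * e₄ + K * π) ≤
        ∫ z, Φ z ∂((gv ι).prod (gm κ κ)) := by
  have d0 : 0 ≤ d := hd ▸ Nat.cast_nonneg _
  have δ0 : 0 ≤ δ := by linarith
  have K0 : 0 ≤ K := le_trans (by positivity) hK
  obtain ⟨W₀, W₁, a0, a1, a2, a3, ig, a4⟩ := exists_var ha₀ hT₁ δ0 hξ
  have ir0 : ∀ i, IntegrableOn (fun B => |d - qf (S₀ B) (x i)|) G (gm κ κ) := fun i => by
    refine Measure.integrableOn_of_bounded (M := d + σ * (x i ⬝ᵥ x i)) (measure_ne_top _ _)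
      (Continuous.aestronglyMeasurable (by fun_prop)) ((ae_restrict_iff' hG).2 (.of_forall ?_))
    intro B hB
    rw [Real.norm_eq_abs, abs_abs]
    refine (abs_sub _ _).trans (add_le_add (abs_of_nonneg d0).le ((abs_qf_le_opn _ _).trans ?_))
    exact mul_le_mul_of_nonneg_right (hprop B hB).2.1 (dot_self_nonneg _)
  set r : (κ → κ → ℝ) → ℝ := fun B => ∑ i ∈ H, |d - qf (S₀ B) (x i)| with hr
  have ir : Integrable (G.indicator r) (gm κ κ) :=
    (integrable_indicator_iff hG).2 (integrable_finsetSum _ fun i _ => ir0 i)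
  have ik : Integrable (Gᶜ.indicator fun _ => K) (gm κ κ) := (integrable_const K).indicator hG.compl
  have ih0 : Integrable (fun B => c * G.indicator r B + c * e₄) (gm κ κ) :=
    (ir.const_mul c).add (integrable_const (c * e₄))
  have ih : Integrable (fun B => c * G.indicator r B + c * e₄ + Gᶜ.indicator (fun _ => K) B)
    (gm κ κ) := ih0.add ik
  have a5 : ∫ B, (c * G.indicator r B + c * e₄ + Gᶜ.indicator (fun _ => K) B) ∂(gm κ κ) ≤
      c * R + c * e₄ + K * π := by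
    rw [integral_add ih0 ik, integral_add (ir.const_mul c) (integrable_const _), integral_const_mul,
      integral_indicator hG, integral_indicator hG.compl, hr, integral_finsetSum _ fun i _ => ir0 i]
    simp only [integral_const, probReal_univ, smul_eq_mul, one_mul, measureReal_restrict_apply_univ]
    have b2 := mul_le_mul_of_nonneg_left hR hc
    have b3 := mul_le_mul_of_nonneg_right (ENNReal.toReal_le_of_le_ofReal hπ hGp) K0
    rw [measureReal_def]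
    linarith
  set g : (ι → ℝ) → ℝ := fun γ => W₀ γ + W₁ γ + 2 * δ * nrm γ with hg
  set h : (κ → κ → ℝ) → ℝ := fun B => c * G.indicator r B + c * e₄ + Gᶜ.indicator (fun _ => K) B
    with hh
  have j1 : Integrable (fun z : (ι → ℝ) × (κ → κ → ℝ) => -g z.1) ((gv ι).prod (gm κ κ)) :=
    (ig.comp_fst _).neg
  have j2 : Integrable (fun z : (ι → ℝ) × (κ → κ → ℝ) => h z.2) ((gv ι).prod (gm κ κ)) :=
    ih.comp_snd _
  refine ⟨fun z => -g z.1 - h z.2, j1.sub j2, fun γ B u hu hu0 => ?_, ?_⟩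
  · by_cases hB : B ∈ G
    · obtain ⟨p1, p2, p3, p4, p5, p6, p7, p8⟩ := hprop B hB
      obtain ⟨S, hS, hSe⟩ := hnet _ (cut_posSemidef v p1) (cut_mulVec hv _) (opn_cut_le hv p2)
        (by rw [trace_cut p1.1 hv]; linarith only [p4, qf_nonneg p1 v])
      refine ⟨S, hS, le_trans (le_of_eq ?_) (point_good hv hd hT₀ hc he hσ hδ' p1.1 p2 p3 p5 p6 p7
        p8 hSe (hJ S hS) h4 hδ hAO hu hu0 (a0 γ) (a1 γ) (a2 γ) (a3 γ))⟩
      simp only [hg, hh, hr, Set.indicator_of_mem hB,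
        Set.indicator_of_notMem (Set.notMem_compl_iff.2 hB), add_zero]
    · refine ⟨0, h0, ?_⟩
      have k1 := point_bad d0 hμ hq hξ hK hu hu0
      have k5 : 0 ≤ c * e₄ := by positivity
      have k6 : 0 ≤ δ * nrm γ := mul_nonneg δ0 (nrm_nonneg γ)
      simp only [hg, hh, Set.indicator_of_notMem hB, Set.indicator_of_mem (Set.mem_compl hB),
        fro_zero, ip_zero_right]
      linarith only [k1, k5, k6, a0 γ, a1 γ]
  · rw [integral_sub j1 j2, integral_neg, integral_fun_fst g, integral_fun_snd h]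
    simp only [probReal_univ, smul_eq_mul, one_mul]
    linarith

end Pool.Agent.Work.MP_6a50bc_pr.Lw
end

-- merged part: Pool.Agent.Work.MP_6a50bc_pr.LowerAux3
section
/-!
The lower bound for a fixed head set and a fixed direction.
-/

namespace Pool.Agent.Work.MP_6a50bc_pr.Lw

open MeasureTheory ProbabilityTheory Matrix Finset
open scoped ENNReal

variable {ι κ : Type*} [Fintype ι] [DecidableEq ι] [Fintype κ] [DecidableEq κ]

/-- The components that are kept when resampling. -/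
def kp (H : Finset ι) (v : κ → ℝ) (i : ι) : Matrix κ κ ℝ := if i ∈ H then 1 else vecMulVec v v

variable {H : Finset ι} {v : κ → ℝ} {x x' : ι → κ → ℝ} {k : ι}

omit [Fintype ι] in
lemma mix_mem (hk : k ∈ H) : mix (kp H v) x x' k = x k := by simp [mix, kp, hk]

omit [Fintype ι] in
lemma sum_mix (f : (κ → ℝ) → ℝ) : ∑ i ∈ H, f (mix (kp H v) x x' i) = ∑ i ∈ H, f (x i) :=
  sum_congr rfl fun _ hi => by rw [mix_mem hi]

omit [Fintype ι] in
lemma mix_not (hk : k ∉ H) : mix (kp H v) x x' k = (x k ⬝ᵥ v) • v + qj v *ᵥ x' k := by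
  simp only [mix, kp, hk, if_false, pj_mulVec, qj]

omit [Fintype ι] in
lemma mix_dot (hv : nrm v = 1) (k : ι) : mix (kp H v) x x' k ⬝ᵥ v = x k ⬝ᵥ v := by
  by_cases hk : k ∈ H
  · rw [mix_mem hk]
  · rw [mix_not hk, add_dotProduct, qj_dot hv, smul_dotProduct, nrm_eq_one_iff.1 hv]
    simp

omit [Fintype ι] in
lemma mix_qj (hv : nrm v = 1) (hk : k ∉ H) : qj v *ᵥ mix (kp H v) x x' k = qj v *ᵥ x' k := by
  rw [mix_not hk, mulVec_add, mulVec_smul, qj_self hv, smul_zero, zero_add, mulVec_qj (qj_self hv)]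

omit [DecidableEq ι] [DecidableEq κ] in
lemma tail_four {d : ℝ} (hd : d = Fintype.card κ) :
    gm ι κ {x | ¬ ∀ k, x k ⬝ᵥ x k ≤ 4 * d} ≤
      ENNReal.ofReal (3 * Fintype.card ι * Real.exp (-(3 * √d) / 4)) := by
  classical
  refine le_trans (measure_mono fun x hx => ?_) (tail_dot_self_gm (3 * √d))
  obtain ⟨k, hk⟩ := not_forall.1 hx
  refine ⟨k, lt_of_lt_of_le ?_ (le_abs_self _)⟩
  rw [← hd, mul_assoc, Real.mul_self_sqrt (hd ▸ Nat.cast_nonneg _)]
  linarith [not_le.1 hk]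

lemma nrm_qj_le_of {d : ℝ} (hv : nrm v = 1) {z : κ → ℝ} (h : z ⬝ᵥ z ≤ 4 * d) :
    nrm (qj v *ᵥ z) ≤ 2 * √d := by
  refine (nrm_qj_le hv z).trans ((Real.sqrt_le_sqrt h).trans_eq ?_)
  rw [Real.sqrt_mul (by norm_num), show (4 : ℝ) = 2 ^ 2 by norm_num, Real.sqrt_sq zero_le_two]

lemma le_of_nonempty {X : Type*} [MeasurableSpace X] {ν : Measure X} {E : Set X} {p : ℝ≥0∞}
    (h : E.Nonempty → ν E ≤ p) : ν E ≤ p :=
  E.eq_empty_or_nonempty.elim (fun h1 => by rw [h1, measure_empty]; exact zero_le) h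

theorem event_le [Nonempty ι] [Nonempty κ]
    {σ s T₀ T₁ a₀ ws d μ c q e δ δ' e₄ K R π l β t a : ℝ} (hv : nrm v = 1)
    (hlog : Real.log (Fintype.card ι) ≤ √(Fintype.card κ))
    (hd : d = Fintype.card κ) (hT₀ : 0 ≤ T₀) (hT₁ : 0 ≤ T₁) (ha₀ : 0 ≤ a₀) (hc : 0 ≤ c)
    (hμ : 0 ≤ μ) (he : 0 ≤ e) (hq : 0 ≤ q) (hσ : 0 < σ) (hδ' : 0 ≤ δ') (he₄ : 0 ≤ e₄) (hπ : 0 ≤ π)
    (hs : 0 ≤ s) (hβ : 0 < β) (ht : 0 < t)
    (S₀ : (κ → κ → ℝ) → Matrix κ κ ℝ) (hS₀ : Continuous S₀) {G : Set (κ → κ → ℝ)}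
    (hG : MeasurableSet G) (hGp : gm κ κ Gᶜ ≤ ENNReal.ofReal π)
    (hprop : ∀ B ∈ G, (S₀ B).PosSemidef ∧ opn (S₀ B) ≤ σ ∧
      d - T₁ ≤ (S₀ B).trace ∧ (S₀ B).trace ≤ d - T₀ ∧ a₀ - δ' ≤ fro (S₀ B) ∧ fro (S₀ B) ≤ a₀ ∧
      ws ≤ ip (Matrix.of B) (S₀ B) ∧ opn (Matrix.of B) ≤ 3 * √d)
    (NI : Finset (ι → ℝ)) (hI0 : NI.Nonempty)
    (hI : ∀ u ∈ NI, nrm u ≤ 1 ∧ (∀ k, |u k| ≤ l) ∧ ∀ k ∈ H, u k = 0)
    (NJ : Finset (Matrix κ κ ℝ)) (h0 : 0 ∈ NJ)
    (hJ : ∀ S ∈ NJ, S.PosSemidef ∧ S *ᵥ v = 0 ∧ opn S ≤ σ ∧ S.trace ≤ d - T₀)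
    (hnet : ∀ S : Matrix κ κ ℝ, S.PosSemidef → S *ᵥ v = 0 → opn S ≤ σ → S.trace ≤ d - T₀ →
      ∃ S' ∈ NJ, fro (S - S') ≤ e)
    (hδ : δ' + 2 * σ + e ≤ δ)
    (hK : √(Fintype.card ι) * (q + d) + μ + c * (H.card * d) ≤ K)
    (hAO : √(Fintype.card ι) * √(2 * a₀ ^ 2 + T₁ ^ 2 + q ^ 2) + μ + 2 * (6 * σ * √d + 3 * d * e) +
      (σ + √d * e) * √(Fintype.card ι) ≤ √2 * ws)
    (htF : t ^ 2 ≤ Fintype.card ι * d ^ 2 * (√d * σ) ^ 2)
    (hA : 3 * Fintype.card ι * Real.exp (-(3 * √d) / 4) ≤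
      t ^ 2 / (200 * (Fintype.card ι * d ^ 2 * (√d * σ) ^ 2)))
    (hfin : a + 2 * t + (Real.log NI.card + Real.log NJ.card) / β + 2 * (√d * σ) +
      1000 * β ^ 2 * l * σ ^ 3 * d ≤
        -(16 * a₀ ^ 2 + 2 + 2 * δ * √(Fintype.card ι) + c * R + c * e₄ + K * π)) :
    gm ι κ {x | (∑ i ∈ H, ∫ B in G, |d - qf (S₀ B) (x i)| ∂(gm κ κ) ≤ R) ∧
        (∀ k, k ∉ H → s * (x k ⬝ᵥ v) ^ 2 ≤ q) ∧
        (∑ i ∈ H, (2 * σ * |x i ⬝ᵥ v| * nrm (x i) + e * (x i ⬝ᵥ x i)) ≤ e₄) ∧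
        (∀ k, k ∉ H → nrm (qj v *ᵥ x k) ≤ 2 * √d) ∧
        ∃ u : NI, ∀ S : NJ, ∑ k, u.1 k * cq S.1 (x k) + bb s d μ c H v x u.1 S.1 ≤ a} ≤
      ENNReal.ofReal (200 * (Fintype.card ι * d ^ 2 * (√d * σ) ^ 2) / t ^ 2 *
        Real.exp (-(t / (2 * σ * (2 * √d))) ^ 2 / 8)) := by
  have d0 : 0 < d := hd ▸ Nat.cast_pos.2 Fintype.card_pos
  have : Nonempty NI := hI0.to_subtype
  have : Nonempty NJ := ⟨⟨0, h0⟩⟩
  have m1 : Measurable fun x : ι → κ → ℝ =>
      ∑ i ∈ H, ∫ B in G, |d - qf (S₀ B) (x i)| ∂(gm κ κ) :=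
    Finset.measurable_sum _ fun i _ => (StronglyMeasurable.integral_prod_right'
      (f := fun z : (ι → κ → ℝ) × (κ → κ → ℝ) => |d - qf (S₀ z.2) (z.1 i)|)
      (Continuous.stronglyMeasurable (by fun_prop))).measurable
  have m2 : ∀ {f : (ι → κ → ℝ) → ℝ} {b : ℝ}, Continuous f → Measurable fun x => f x ≤ b :=
    fun hf => measurableSet_setOfPred.1 (measurableSet_le hf.measurable measurable_const)
  refine (resample_le (P := kp H v) (fun i => ?_) (fun i => ?_) (measurableSet_setOfPred.2 ?_) Set.univ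
    fun x _ => ?_).trans_eq (by rw [Set.compl_univ, measure_empty, add_zero])
  · unfold kp
    split_ifs
    · exact transpose_one
    · exact transpose_vecMulVec v v
  · unfold kp
    split_ifs
    · exact Matrix.mul_one _
    · exact pj_mul hv
  · refine (measurableSet_setOfPred.1 (measurableSet_le m1 measurable_const)).and
      ((Measurable.forall fun k => measurable_const.imp (m2 (by fun_prop))).and
      ((m2 (by fun_prop)).and ((Measurable.forall fun k =>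
        measurable_const.imp (m2 (by fun_prop))).and
      (Measurable.exists fun u => Measurable.forall fun S => m2 ?_))))
    unfold bb cq
    fun_prop
  have eb : ∀ x' u S, bb s d μ c H v (mix (kp H v) x x') u S = bb s d μ c H v x u S := by
    intro x' u S
    simp only [bb, mix_dot hv]
    rw [sum_mix fun z => |d - qf S z|]
  refine le_of_nonempty ?_
  rintro ⟨x₀, h1, h2, h3, -⟩
  rw [sum_mix fun z => ∫ B in G, |d - qf (S₀ B) z| ∂(gm κ κ)] at h1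
  rw [sum_mix fun z => 2 * σ * |z ⬝ᵥ v| * nrm z + e * (z ⬝ᵥ z)] at h3
  simp only [mix_dot hv] at h2
  obtain ⟨Φ, i1, i2, i3⟩ := exists_Phi hv hd hT₀ hT₁ ha₀ hc hμ he hq hσ.le hδ' he₄ hπ S₀ hS₀ hG hGp
    hprop NJ h0 (fun S hS => (hJ S hS).2.2.2) hnet x (fun k hk => ⟨by positivity, h2 k hk⟩) h3 h1
    hδ hK hAO
  have key := chaos_tail (I := NI) (J := NJ) hlog (fun u _ => u.1) (fun _ S => S.1)
    (fun u S => bb s d μ c H v x u.1 S.1) (fun _ S => (hJ _ S.2).1.1) (fun _ _ _ => Or.inl rfl)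
    (l := l) (σ := σ) (F := √d * σ) hβ (fun u _ => (hI _ u.2).1) (fun u _ => (hI _ u.2).2.1)
    (fun _ S => (hJ _ S.2).2.2.1)
    (fun _ S => (fro_le_sqrt_mul_opn _).trans
      (hd ▸ mul_le_mul_of_nonneg_left (hJ _ S.2).2.2.1 (Real.sqrt_nonneg _)))
    {x | ∀ k, k ∉ H → nrm (qj v *ᵥ x k) ≤ 2 * √d} (L := 2 * σ * (2 * √d)) (a := a)
    (by positivity) ht (hd ▸ htF)
    (fun u S y hy y' hy' => lip (hI _ u.2).1 (hI _ u.2).2.2 (hJ _ S.2).1.1 (hJ _ S.2).2.1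
      (hJ _ S.2).2.2.1 (by positivity) hy hy')
    (by
      rw [← hd]
      refine le_trans (measure_mono ?_) ((tail_four hd).trans (ENNReal.ofReal_le_ofReal hA))
      exact fun y hy h4 => hy fun k _ => nrm_qj_le_of hv (h4 k)) Φ i1
    (fun γ B u => by
      obtain ⟨S, hS, h4⟩ := i2 γ B u.1 (hI _ u.2).1 (hI _ u.2).2.2
      exact ⟨⟨S, hS⟩, h4⟩)
    (by rw [Fintype.card_coe, Fintype.card_coe, ← hd]; exact hfin.trans i3)
  rw [← hd] at key
  refine le_trans (measure_mono ?_) key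
  rintro x' ⟨-, -, -, h4, u, h5⟩
  refine ⟨fun k hk => mix_qj hv hk ▸ h4 k hk, u, fun S => le_trans (le_of_eq ?_) (h5 S)⟩
  rw [eb]
  refine congrArg (· + _) (sum_congr rfl fun k _ => ?_)
  by_cases hk : k ∈ H
  · rw [(hI _ u.2).2.2 k hk, zero_mul, zero_mul]
  · rw [cq, cq, mix_not hk, qf_mix (hJ _ S.2).1.1 (hJ _ S.2).2.1]

end Pool.Agent.Work.MP_6a50bc_pr.Lw
end

-- merged part: Pool.Agent.Work.MP_6a50bc_pr.LowerAux4
section
/-!
Numerical inequalities for the lower bound.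
-/

namespace Pool.Agent.Work.MP_6a50bc_pr.Lw

open Finset

/-- The standing assumptions on the parameters. -/
structure Par (w ρ σ ε : ℝ) : Prop where
  hρ : 1 ≤ ρ
  hσ : 1 ≤ σ
  hε : 0 < ε
  hε1 : ε ≤ 1
  hw : 10 ^ 12 * (ρ * σ / ε) ^ 6 ≤ w
  hexp : w ^ 16 ≤ Real.exp ρ

namespace Par

variable {w ρ σ ε n h : ℝ} (P : Par w ρ σ ε)
include P

lemma base : 10 ^ 12 * (ρ ^ 6 * σ ^ 6) ≤ ε ^ 6 * w := by
  have h := P.hw
  rwa [div_pow, mul_pow, ← mul_div_assoc, div_le_iff₀ (pow_pos P.hε 6), mul_comm w] at h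

lemma w0 : 0 < w := lt_of_lt_of_le (by have := P.hρ; have := P.hσ; have := P.hε; positivity) P.hw

lemma base' {a b j : ℕ} (ha : a ≤ 6) (hb : b ≤ 6) (hj : j ≤ 6) :
    10 ^ 12 * (ρ ^ a * σ ^ b) ≤ ε ^ j * w := by
  have := P.hρ
  have := P.hσ
  calc _ ≤ 10 ^ 12 * (ρ ^ 6 * σ ^ 6) := by gcongr
    _ ≤ _ := P.base
    _ ≤ _ := mul_le_mul_of_nonneg_right (pow_le_pow_of_le_one P.hε.le P.hε1 hj) P.w0.le

lemma w1 : 1 ≤ w := by
  have := P.base' (a := 0) (b := 0) (j := 0) (by norm_num) (by norm_num) (by norm_num)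
  linarith

/-- The master inequality: one power of `w` beats everything else. -/
lemma ms (a b j i k : ℕ) (h : a ≤ 6 ∧ b ≤ 6 ∧ j ≤ 6 ∧ i + 1 ≤ k) :
    10 ^ 12 * (ρ ^ a * σ ^ b * w ^ i) ≤ ε ^ j * w ^ k := by
  obtain ⟨ha, hb, hj, hi⟩ := h
  have h1 := mul_le_mul_of_nonneg_right (P.base' ha hb hj) (pow_pos P.w0 i).le
  have h2 := mul_le_mul_of_nonneg_left (pow_le_pow_right₀ P.w1 hi) (pow_pos P.hε j).le
  rw [pow_succ] at h2
  linarith only [h1, h2]

lemma pw (i k : ℕ) (hi : i ≤ 16 * k) : w ^ i ≤ Real.exp (k * ρ) := by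
  rw [Real.exp_nat_mul]
  exact (pow_le_pow_right₀ P.w1 hi).trans (pow_mul w 16 k ▸
    pow_le_pow_left₀ (pow_pos P.w0 16).le P.hexp k)

lemma sqrt_eq : √(w ^ 16) = w ^ 8 := by
  rw [show w ^ 16 = (w ^ 8) ^ 2 by ring, Real.sqrt_sq (pow_pos P.w0 8).le]

lemma sqrt_le (hn : n ≤ w ^ 32) : √n ≤ w ^ 16 :=
  Real.sqrt_le_iff.2 ⟨(pow_pos P.w0 16).le, by rwa [← pow_mul]⟩

lemma log_le (hn0 : 0 < n) (hn : n ≤ w ^ 32) : Real.log n ≤ 2 * ρ :=
  (Real.log_le_iff_le_exp hn0).2 (hn.trans (P.pw 32 2 (by omega)))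

lemma exp_small : w ^ 80 * Real.exp (-(3 * w ^ 8) / 4) ≤ 1 := by
  refine (mul_le_mul_of_nonneg_right (P.pw 80 5 (by omega)) (Real.exp_pos _).le).trans ?_
  rw [← Real.exp_add, Real.exp_le_one_iff]
  have := P.ms 1 0 0 0 8 (by omega)
  have := pow_pos P.w0 8
  push_cast
  linarith

lemma exp_neg_le {y : ℝ} (hy : y ≤ -ρ) : Real.exp y ≤ 1 / (2 * w) := by
  have := P.w0
  refine (Real.exp_le_exp.2 hy).trans ?_
  rw [Real.exp_neg, ← one_div]
  refine one_div_le_one_div_of_le (by positivity) (le_trans ?_ P.hexp)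
  have := P.ms 0 0 0 1 16 (by omega)
  linarith

lemma n_tF (hn : 1 ≤ n) : (ε * w ^ 24 / 8) ^ 2 ≤ n * (w ^ 16) ^ 2 * (w ^ 8 * σ) ^ 2 := by
  have h1 := pow_pos P.w0 48
  have h2 := mul_le_mul_of_nonneg_right (pow_le_one₀ (n := 2) P.hε.le P.hε1) h1.le
  have h3 := mul_le_mul_of_nonneg_right
    (one_le_mul_of_one_le_of_one_le hn (one_le_pow₀ (n := 2) P.hσ)) h1.le
  linarith only [h1, h2, h3]

lemma n_ratio (hn : n ≤ w ^ 32) :
    200 * (n * (w ^ 16) ^ 2 * (w ^ 8 * σ) ^ 2) ≤ w ^ 33 * (ε * w ^ 24 / 8) ^ 2 := by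
  have := P.w0
  have h1 := mul_le_mul_of_nonneg_right hn (show 0 ≤ σ ^ 2 * w ^ 48 by positivity)
  have h2 := P.ms 0 2 2 80 81 (by omega)
  have h3 : 0 ≤ σ ^ 2 * w ^ 80 := by positivity
  linarith only [h1, h2, h3]

lemma n_three (hn : n ≤ w ^ 32) : 3 * n * Real.exp (-(3 * w ^ 8) / 4) ≤ 1 / w ^ 33 := by
  have := P.w0
  rw [le_div_iff₀ (by positivity)]
  refine le_trans ?_ P.exp_small
  rw [mul_right_comm]
  refine mul_le_mul_of_nonneg_right ?_ (Real.exp_pos _).le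
  have h1 := mul_le_mul_of_nonneg_right hn (pow_pos P.w0 33).le
  have h2 := P.ms 0 0 0 65 80 (by omega)
  have h3 := pow_pos P.w0 65
  linarith

lemma n_A (hn0 : 0 < n) (hn : n ≤ w ^ 32) : 3 * n * Real.exp (-(3 * w ^ 8) / 4) ≤
    (ε * w ^ 24 / 8) ^ 2 / (200 * (n * (w ^ 16) ^ 2 * (w ^ 8 * σ) ^ 2)) := by
  have := P.w0
  have := P.hσ
  refine (P.n_three hn).trans ?_
  rw [div_le_div_iff₀ (by positivity) (by positivity)]
  linarith only [hn, P.n_ratio hn]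

lemma n_p (hn : n ≤ w ^ 32) :
    200 * (n * (w ^ 16) ^ 2 * (w ^ 8 * σ) ^ 2) / (ε * w ^ 24 / 8) ^ 2 *
      Real.exp (-(ε * w ^ 24 / 8 / (2 * σ * (2 * w ^ 8))) ^ 2 / 8) ≤
        Real.exp (3 * ρ - ε ^ 2 * w ^ 32 / (8192 * σ ^ 2)) := by
  have := P.w0
  have := P.hσ
  have := P.hε
  rw [sub_eq_add_neg, Real.exp_add, show -(ε * w ^ 24 / 8 / (2 * σ * (2 * w ^ 8))) ^ 2 / 8 =
    -(ε ^ 2 * w ^ 32 / (8192 * σ ^ 2)) by field_simp; ring]
  refine mul_le_mul_of_nonneg_right (le_trans ?_ (P.pw 33 3 (by omega))) (Real.exp_pos _).le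
  rw [div_le_iff₀ (by positivity)]
  exact P.n_ratio hn

lemma n_K {s : ℝ} (hn : n ≤ w ^ 32) (hs : 0 ≤ s) (hs' : s ≤ w ^ 8) (hh : h ≤ 5 * ρ * w ^ 18) :
    √n * (20 * ρ * s + w ^ 16) + 2 * ε * w ^ 24 + 1 / w ^ 7 * (h * w ^ 16) ≤ 5 * w ^ 32 := by
  have := P.w0
  have := P.hρ
  have h1 : 20 * ρ * s ≤ 20 * ρ * w ^ 8 := by gcongr
  have h2 := mul_le_mul (P.sqrt_le hn) (add_le_add_left h1 (w ^ 16)) (by positivity) (by positivity)
  have h3 := mul_le_mul_of_nonneg_right hh (pow_pos P.w0 9).le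
  have h4 := mul_le_mul_of_nonneg_right P.hε1 (pow_pos P.w0 24).le
  have h5 := P.ms 1 0 0 24 32 (by omega)
  have h6 := P.ms 1 0 0 27 32 (by omega)
  have h7 := P.ms 0 0 0 24 32 (by omega)
  have h8 := pow_pos P.w0 32
  rw [show 1 / w ^ 7 * (h * w ^ 16) = h * w ^ 9 by field_simp]
  linarith only [h2, h3, h4, h5, h6, h7, h8]

lemma n_AO {D y : ℝ} (hn : n ≤ w ^ 32) (hD : D + 4 * ε * w ^ 16 * w ^ 8 ≤ y) :
    D + 2 * ε * w ^ 24 + 2 * (6 * σ * w ^ 8 + 3 * w ^ 16 * (1 / w ^ 16)) +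
      (σ + w ^ 8 * (1 / w ^ 16)) * √n ≤ y := by
  have := P.w0
  have := P.hσ
  have := P.hε
  have h1 := mul_le_mul_of_nonneg_left (P.sqrt_le hn)
    (show 0 ≤ σ + w ^ 8 * (1 / w ^ 16) by positivity)
  rw [show (σ + w ^ 8 * (1 / w ^ 16)) * w ^ 16 = σ * w ^ 16 + w ^ 8 by field_simp] at h1
  rw [show 3 * w ^ 16 * (1 / w ^ 16) = 3 by field_simp]
  have h2 := P.ms 0 1 1 8 24 (by omega)
  have h3 := P.ms 0 1 1 16 24 (by omega)
  have h4 := P.ms 0 0 1 8 24 (by omega)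
  have h5 := P.ms 0 0 1 0 24 (by omega)
  have h6 : 0 < ε * w ^ 24 := by positivity
  linarith only [hD, h1, h2, h3, h4, h5]

lemma n_fin {a₀ y : ℝ} (hn : n ≤ w ^ 32) (ha₀ : 0 ≤ a₀) (ha : a₀ ≤ 2 * σ * w ^ 8)
    (hy : y ≤ 10 * ρ * w ^ 32) :
    -(ε * w ^ 24) + 2 * (ε * w ^ 24 / 8) + y / (200 * ρ * w ^ 8 / ε) + 2 * (w ^ 8 * σ) +
      1000 * (200 * ρ * w ^ 8 / ε) ^ 2 * (1 / w ^ 9) * σ ^ 3 * w ^ 16 ≤
        -(16 * a₀ ^ 2 + 2 + 2 * (ε * w ^ 8 / 100 + 2 * σ + 1) * √n +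
          1 / w ^ 7 * (5 * ρ * w ^ 30 + ε * w ^ 31 / 100) + 1 / w ^ 7 * (300 * σ * ρ ^ 2 * w ^ 26) +
          5 * w ^ 32 * (ε / (100 * w ^ 8))) := by
  have := P.w0
  have := P.hσ
  have := P.hε
  have := P.hρ
  have h1 : y / (200 * ρ * w ^ 8 / ε) ≤ ε * w ^ 24 / 20 := by
    rw [div_le_iff₀ (by positivity)]
    exact hy.trans_eq (by field_simp; ring)
  have h2 : 1000 * (200 * ρ * w ^ 8 / ε) ^ 2 * (1 / w ^ 9) * σ ^ 3 * w ^ 16 ≤ ε * w ^ 24 / 20 := by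
    rw [show 1000 * (200 * ρ * w ^ 8 / ε) ^ 2 * (1 / w ^ 9) * σ ^ 3 * w ^ 16 =
      4 * 10 ^ 7 * (ρ ^ 2 * σ ^ 3 * w ^ 23) / ε ^ 2 by field_simp; ring, div_le_iff₀ (by positivity)]
    have h3 := P.ms 2 3 3 23 24 (by omega)
    have h4 : 0 < ε ^ 3 * w ^ 24 := by positivity
    linarith only [h3, h4]
  have h3 := pow_le_pow_left₀ ha₀ ha 2
  have h4 := mul_le_mul_of_nonneg_left (P.sqrt_le hn)
    (show 0 ≤ 2 * (ε * w ^ 8 / 100 + 2 * σ + 1) by positivity)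
  rw [show 1 / w ^ 7 * (5 * ρ * w ^ 30 + ε * w ^ 31 / 100) = 5 * ρ * w ^ 23 + ε * w ^ 24 / 100 by
      field_simp, show 1 / w ^ 7 * (300 * σ * ρ ^ 2 * w ^ 26) = 300 * σ * ρ ^ 2 * w ^ 19 by
      field_simp, show 5 * w ^ 32 * (ε / (100 * w ^ 8)) = ε * w ^ 24 / 20 by field_simp; ring]
  have h5 := P.ms 0 1 1 8 24 (by omega)
  have h6 := P.ms 0 2 1 16 24 (by omega)
  have h7 := P.ms 0 1 1 16 24 (by omega)
  have h8 := P.ms 0 0 1 16 24 (by omega)
  have h9 := P.ms 0 0 1 0 24 (by omega)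
  have h10 := P.ms 1 0 1 23 24 (by omega)
  have h11 := P.ms 2 1 1 19 24 (by omega)
  have h12 : 0 < ε * w ^ 24 := by positivity
  linarith only [h1, h2, h3, h4, h5, h6, h7, h8, h9, h10, h11]

lemma n_e4 {y : ℝ} (hh : h ≤ 5 * ρ * w ^ 18) (hy : y ≤ 58 * ρ ^ 2 * w ^ 18) :
    4 * σ * w ^ 8 * y + h * (4 * σ * w ^ 8 + 4) ≤ 300 * σ * ρ ^ 2 * w ^ 26 := by
  have := P.w0
  have := P.hσ
  have := P.hρ
  have h1 := mul_le_mul_of_nonneg_left hy (show 0 ≤ 4 * σ * w ^ 8 by positivity)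
  have h2 := mul_le_mul_of_nonneg_right hh (show 0 ≤ 4 * σ * w ^ 8 + 4 by positivity)
  have h3 := mul_le_mul_of_nonneg_right P.hρ (show 0 ≤ σ * ρ * w ^ 26 by positivity)
  have h4 := mul_le_mul_of_nonneg_right
    (one_le_mul_of_one_le_of_one_le P.hσ (one_le_pow₀ (n := 8) P.w1))
    (show 0 ≤ ρ * w ^ 18 by positivity)
  have h5 : 0 ≤ σ * ρ * w ^ 26 := by positivity
  linarith only [h1, h2, h3, h4, h5]

lemma n_err (hn : n ≤ w ^ 32) :
    1 / w ^ 64 * (n * (σ * (4 * w ^ 16) + w ^ 8 * (4 * w ^ 16) + w ^ 16) + 2 * ε * w ^ 24 * √n) ≤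
      ε * w ^ 8 := by
  have := P.w0
  have := P.hσ
  have := P.hε
  rw [one_div, inv_mul_le_iff₀ (by positivity)]
  have h1 := mul_le_mul_of_nonneg_right hn
    (show 0 ≤ σ * (4 * w ^ 16) + w ^ 8 * (4 * w ^ 16) + w ^ 16 by positivity)
  have h2 := mul_le_mul_of_nonneg_left (P.sqrt_le hn) (show 0 ≤ 2 * ε * w ^ 24 by positivity)
  have h3 := mul_le_mul_of_nonneg_right P.hε1 (pow_pos P.w0 40).le
  have h4 := P.ms 0 1 1 48 72 (by omega)
  have h5 := P.ms 0 0 1 56 72 (by omega)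
  have h6 := P.ms 0 0 1 48 72 (by omega)
  have h7 := P.ms 0 0 1 40 72 (by omega)
  have h8 : 0 < ε * w ^ 72 := by positivity
  linarith only [h1, h2, h3, h4, h5, h6, h7, h8]

lemma n_net {N : ℝ} {m i j k : ℕ} (hi : i + j + 1 ≤ 16 * k) (hm : (m : ℝ) ≤ w ^ 32)
    (hN : N ≤ (2 * w ^ i / (1 / w ^ j) + 2) ^ m) : N ≤ Real.exp (k * ρ * w ^ 32) := by
  have := P.w0
  have := P.hρ
  have h1 : 2 * w ^ i / (1 / w ^ j) + 2 ≤ Real.exp (k * ρ) := by
    refine le_trans ?_ (P.pw _ k hi)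
    have h2 := P.ms 0 0 0 (i + j) (i + j + 1) (by omega)
    have h3 := one_le_pow₀ (n := i + j) P.w1
    rw [show 2 * w ^ i / (1 / w ^ j) = 2 * w ^ (i + j) by field_simp; ring]
    linarith only [h2, h3]
  refine hN.trans ((pow_le_pow_left₀ (by positivity) h1 m).trans ?_)
  rw [← Real.exp_nat_mul, Real.exp_le_exp, mul_comm]
  gcongr

lemma n_succ {N : ℝ} (hN : N ≤ Real.exp (4 * ρ * w ^ 32)) : N + 1 ≤ Real.exp (5 * ρ * w ^ 32) := by
  have h1 := one_le_mul_of_one_le_of_one_le P.hρ (one_le_pow₀ (n := 32) P.w1)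
  have h2 := Real.add_one_le_exp (ρ * w ^ 32)
  have h3 := Real.one_le_exp (show 0 ≤ 4 * ρ * w ^ 32 by linarith)
  have h4 := mul_le_mul_of_nonneg_left (show 2 ≤ Real.exp (ρ * w ^ 32) by linarith)
    (Real.exp_pos (4 * ρ * w ^ 32)).le
  rw [← Real.exp_add, show 4 * ρ * w ^ 32 + ρ * w ^ 32 = 5 * ρ * w ^ 32 by ring] at h4
  linarith

lemma n_sphere {N : ℝ} {m : ℕ} (hm : (m : ℝ) = w ^ 16) (hN : N ≤ (16 * √m + 2) ^ m) :
    N ≤ Real.exp (ρ * w ^ 16) := by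
  have h1 : 16 * √(m : ℝ) + 2 ≤ Real.exp ρ := by
    rw [hm, P.sqrt_eq]
    have h2 := P.ms 0 0 0 8 16 (by omega)
    have h3 := one_le_pow₀ (n := 8) P.w1
    linarith [P.hexp]
  refine hN.trans ((pow_le_pow_left₀ (by positivity) h1 m).trans_eq ?_)
  rw [← Real.exp_nat_mul, hm, mul_comm]

lemma n_union : ρ * w ^ 16 + (2 * ρ * (5 * ρ * w ^ 18) + 1) +
    (3 * ρ - ε ^ 2 * w ^ 32 / (8192 * σ ^ 2)) ≤ -ρ := by
  have := P.w0
  have := P.hσ
  have := P.hε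
  have h1 : ρ * w ^ 16 + (2 * ρ * (5 * ρ * w ^ 18) + 1) + 4 * ρ ≤
      ε ^ 2 * w ^ 32 / (8192 * σ ^ 2) := by
    rw [le_div_iff₀ (by positivity)]
    have h2 := P.ms 1 2 2 16 32 (by omega)
    have h3 := P.ms 2 2 2 18 32 (by omega)
    have h4 := P.ms 0 2 2 0 32 (by omega)
    have h5 := P.ms 1 2 2 0 32 (by omega)
    have h6 : 0 < ε ^ 2 * w ^ 32 := by positivity
    linarith only [h2, h3, h4, h5, h6]
  linarith only [h1]

lemma n_resid (hn : n ≤ w ^ 32) :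
    10 ^ 5 * n * (w ^ 8 * σ) ^ 4 / ((w ^ 12) ^ 3 * (ε * w ^ 31 / 100)) ≤ 1 / (2 * w) := by
  have := P.w0
  have := P.hσ
  have := P.hε
  rw [div_le_div_iff₀ (by positivity) (by positivity)]
  have h1 := mul_le_mul_of_nonneg_right hn (show 0 ≤ σ ^ 4 * w ^ 33 by positivity)
  have h2 := P.ms 0 4 1 65 67 (by omega)
  have h3 : 0 < ε * w ^ 67 := by positivity
  linarith only [h1, h2, h3]

/-- The number of dyadic steps in the choice of the head set. -/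
lemma exists_steps : ∃ k : ℕ, w ^ 16 ≤ 2 ^ k ∧ (k : ℝ) + 1 ≤ 4 * ρ := by
  refine ⟨⌈2 * ρ⌉₊, P.hexp.trans ?_, ?_⟩
  · have h1 := Nat.le_ceil (2 * ρ)
    have h2 := mul_le_mul_of_nonneg_left Real.log_two_gt_d9.le (Nat.cast_nonneg ⌈2 * ρ⌉₊)
    rw [← Real.exp_log zero_lt_two, ← Real.exp_nat_mul, Real.exp_log zero_lt_two, Real.exp_le_exp]
    linarith only [h1, h2, P.hρ]
  · linarith [Nat.ceil_lt_add_one (show 0 ≤ 2 * ρ by linarith [P.hρ]), P.hρ]

end Par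

/-- The number of small subsets. -/
lemma card_small_le {ι : Type*} [Fintype ι] [DecidableEq ι] {r M : ℝ} (hr : 0 ≤ r)
    (hn : (Fintype.card ι : ℝ) ≤ Real.exp r) :
    (#{H : Finset ι | (H.card : ℝ) ≤ M} : ℝ) ≤ Real.exp (r * M + 1) := by
  have h1 : ∏ _i : ι, (1 + Real.exp (-r)) ≤ Real.exp 1 := by
    rw [prod_const, card_univ]
    refine (pow_le_pow_left₀ (by positivity) (show _ ≤ Real.exp (Real.exp (-r)) by
      linarith [Real.add_one_le_exp (Real.exp (-r))]) _).trans ?_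
    rw [← Real.exp_nat_mul, Real.exp_le_exp, Real.exp_neg]
    exact mul_inv_le_one_of_le₀ hn (Real.exp_pos _).le
  rw [prod_one_add, powerset_univ] at h1
  have h2 := card_nsmul_le_sum ({H : Finset ι | (H.card : ℝ) ≤ M} : Finset _)
    (fun H => ∏ _i ∈ H, Real.exp (-r)) (Real.exp (-(r * M))) fun H hH => by
      rw [prod_const, ← Real.exp_nat_mul, Real.exp_le_exp]
      linarith [mul_le_mul_of_nonneg_left (mem_filter.1 hH).2 hr]
  have h3 := (h2.trans (sum_le_sum_of_subset_of_nonneg (subset_univ _)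
    fun _ _ _ => by positivity)).trans h1
  rwa [nsmul_eq_mul, Real.exp_neg, mul_inv_le_iff₀ (Real.exp_pos _), ← Real.exp_add, add_comm] at h3

end Pool.Agent.Work.MP_6a50bc_pr.Lw
end

-- merged part: Pool.Agent.Work.MP_6a50bc_pr.LowerAux5
section
/-!
The lower bound for a fixed head set and a fixed direction, with explicit parameters.
-/

namespace Pool.Agent.Work.MP_6a50bc_pr.Lw

open MeasureTheory ProbabilityTheory Matrix Finset
open scoped ENNReal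

variable {ι κ : Type*} [Fintype ι] [DecidableEq ι] [Fintype κ] [DecidableEq κ]

lemma dot_sq_le {v : κ → ℝ} (hv : nrm v = 1) (x : κ → ℝ) : (x ⬝ᵥ v) ^ 2 ≤ x ⬝ᵥ x := by
  have h := dot_mix hv (x ⬝ᵥ v) x
  rw [show (x ⬝ᵥ v) • v + qj v *ᵥ x = x by rw [qj_mulVec, add_sub_cancel]] at h
  linarith [dot_self_nonneg (qj v *ᵥ x)]

omit [DecidableEq ι] [DecidableEq κ] in
lemma val_eq (s d μ c : ℝ) (H : Finset ι) (v : κ → ℝ) (x : ι → κ → ℝ) (u : ι → ℝ)
    (S : Matrix κ κ ℝ) : ∑ k, u k * cq S (x k) + bb s d μ c H v x u S =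
      -∑ k, u k * (d - qf S (x k) - s * (x k ⬝ᵥ v) ^ 2) - μ * nrm u -
        c * ∑ i ∈ H, |d - qf S (x i)| := by
  rw [bb, ← add_sub_assoc, ← add_sub_assoc, ← sum_add_distrib, ← sum_neg_distrib]
  congr 2
  exact sum_congr rfl fun k _ => by rw [cq]; ring

omit [DecidableEq ι] in
lemma val_net {u u' r : ι → ℝ} {η M μ : ℝ} (hη : 0 ≤ η) (hμ : 0 ≤ μ) (h : ∀ k, |u k - u' k| ≤ η)
    (hr : ∀ k, |r k| ≤ M) : ∑ k, u k * r k + μ * nrm u ≤ ∑ k, u' k * r k + μ * nrm u' +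
      η * (Fintype.card ι * M + μ * √(Fintype.card ι)) := by
  have h1 : ∑ k, (u k - u' k) * r k ≤ Fintype.card ι * (η * M) := by
    rw [← nsmul_eq_mul, ← card_univ]
    refine sum_le_card_nsmul _ _ _ fun k _ => (le_abs_self _).trans ?_
    rw [abs_mul]
    exact mul_le_mul (h k) (hr k) (abs_nonneg _) hη
  have h2 := mul_le_mul_of_nonneg_left ((le_abs_self _).trans ((abs_nrm_sub_le u u').trans
    (nrm_le_of_abs_le hη h))) hμ
  simp only [sub_mul, sum_sub_distrib] at h1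
  linarith

theorem fixed [Nonempty ι] {w ρ σ ε s T₀ T₁ a₀ ws : ℝ} (P : Par w ρ σ ε)
    (hd : w ^ 16 = Fintype.card κ) (hn : (Fintype.card ι : ℝ) ≤ w ^ 32) (hs : 0 ≤ s)
    (hs' : s ≤ w ^ 8) (hT₀ : 0 ≤ T₀) (hT : T₀ ≤ T₁) (hT₁ : T₁ ≤ σ * w ^ 8) (ha₀ : 0 ≤ a₀)
    (S₀ : (κ → κ → ℝ) → Matrix κ κ ℝ) (hS₀ : Continuous S₀) {G : Set (κ → κ → ℝ)}
    (hG : MeasurableSet G) (hGp : gm κ κ Gᶜ ≤ ENNReal.ofReal (ε / (100 * w ^ 8)))
    (hprop : ∀ B ∈ G, (S₀ B).PosSemidef ∧ opn (S₀ B) ≤ σ ∧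
      w ^ 16 - T₁ ≤ (S₀ B).trace ∧ (S₀ B).trace ≤ w ^ 16 - T₀ ∧
      a₀ - ε * w ^ 8 / 100 ≤ fro (S₀ B) ∧ fro (S₀ B) ≤ a₀ ∧
      ws ≤ ip (Matrix.of B) (S₀ B) ∧ opn (Matrix.of B) ≤ 3 * w ^ 8)
    (hAO : √(Fintype.card ι) * √(2 * a₀ ^ 2 + T₁ ^ 2 + (20 * ρ * s) ^ 2) +
      4 * ε * w ^ 16 * w ^ 8 ≤ √2 * ws)
    {H : Finset ι} (hH : (H.card : ℝ) ≤ 5 * ρ * w ^ 18) {v : κ → ℝ} (hv : nrm v = 1) :
    gm ι κ {x | (∑ i ∈ H, ∫ B in G, |w ^ 16 - qf (S₀ B) (x i)| ∂(gm κ κ) ≤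
          5 * ρ * w ^ 30 + ε * w ^ 31 / 100) ∧
        (∀ k, x k ⬝ᵥ x k ≤ 4 * w ^ 16) ∧ (∀ k ∉ H, (x k ⬝ᵥ v) ^ 2 ≤ 20 * ρ) ∧
        ∑ i ∈ H, (x i ⬝ᵥ v) ^ 2 ≤ 58 * ρ ^ 2 * w ^ 18 ∧
        ∃ u : ι → ℝ, (nrm u ≤ 1 ∧ (∀ k, |u k| ≤ 1 / w ^ 9) ∧ ∀ k ∈ H, u k = 0) ∧
          ∀ S : Matrix κ κ ℝ, S.PosSemidef → S.trace ≤ w ^ 16 - T₀ → ε * w ^ 24 + ε * w ^ 8 ≤
            ∑ k, u k * (w ^ 16 - qf S (x k) - s * (x k ⬝ᵥ v) ^ 2) + 2 * ε * w ^ 24 * nrm u +
              1 / w ^ 7 * ∑ i ∈ H, |w ^ 16 - qf S (x i)|} ≤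
      ENNReal.ofReal (Real.exp (3 * ρ - ε ^ 2 * w ^ 32 / (8192 * σ ^ 2))) := by
  classical
  have w0 := P.w0
  have w1 := P.w1
  have ρ1 := P.hρ
  have σ1 := P.hσ
  have ε0 := P.hε
  have hr := P.sqrt_eq
  have : Nonempty κ := Fintype.card_pos_iff.1 (Nat.cast_pos.1 (hd ▸ pow_pos w0 16))
  have n1 : (1 : ℝ) ≤ Fintype.card ι := Nat.one_le_cast.2 Fintype.card_pos
  have hF : ∀ S : Matrix κ κ ℝ, opn S ≤ σ → fro S ≤ w ^ 8 * σ := fun S h =>
    (fro_le_sqrt_mul_opn S).trans (by rw [← hd, hr]; gcongr)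
  have k1 : w ^ 8 * σ ≤ w ^ 16 := by linarith only [hd, P.ms 0 1 0 8 16 (by omega), pow_pos w0 16]
  have ha : a₀ ≤ 2 * σ * w ^ 8 := by
    obtain ⟨B, hB⟩ : G.Nonempty := by
      by_contra h
      rw [Set.not_nonempty_iff_eq_empty.1 h, Set.compl_empty, measure_univ,
        ENNReal.one_le_ofReal, one_le_div (by positivity)] at hGp
      linarith [P.hε1, one_le_pow₀ (n := 8) w1]
    have h1 := mul_le_mul_of_nonneg_right (P.hε1.trans σ1) (pow_pos w0 8).le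
    have h2 : 0 ≤ σ * w ^ 8 := by positivity
    linarith only [hT₀, hT, hT₁, h1, (hprop B hB).2.2.2.2.1, hF _ (hprop B hB).2.1]
  obtain ⟨NI, hI, cI, nI⟩ := exists_net (fun u : ι → ℝ => u)
    {u | nrm u ≤ 1 ∧ (∀ k, |u k| ≤ 1 / w ^ 9) ∧ ∀ k ∈ H, u k = 0} (M := w ^ 0) (η := 1 / w ^ 64)
    (by positivity) (by positivity) fun u hu i => (abs_le_nrm u i).trans (pow_zero w ▸ hu.1)
  obtain ⟨NJ, hJ, cJ, nJ⟩ := exists_net (fun (S : Matrix κ κ ℝ) (q : κ × κ) => S q.1 q.2)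
    {S | S.PosSemidef ∧ S *ᵥ v = 0 ∧ opn S ≤ σ ∧ S.trace ≤ w ^ 16 - T₀} (M := w ^ 16)
    (η := 1 / w ^ 32) (by positivity) (by positivity)
    fun S hS q => (abs_le_fro S _ _).trans ((hF S hS.2.2.1).trans k1)
  have I0 : NI.Nonempty := by
    obtain ⟨u, hu, -⟩ := nI 0 ⟨by simp, fun k => by simp; positivity, fun _ _ => rfl⟩
    exact ⟨u, hu⟩
  have lI : Real.log NI.card ≤ 5 * ρ * w ^ 32 :=
    (Real.log_le_iff_le_exp (Nat.cast_pos.2 I0.card_pos)).2 (P.n_net (k := 5) (by norm_num) hn cI)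
  have lJ : Real.log (insert 0 NJ).card ≤ 5 * ρ * w ^ 32 := by
    refine (Real.log_le_iff_le_exp (Nat.cast_pos.2 (insert_nonempty _ _).card_pos)).2
      (le_trans ?_ (P.n_succ (P.n_net (k := 4) (by norm_num) (le_of_eq ?_) cJ)))
    · exact_mod_cast card_insert_le _ _
    · rw [Fintype.card_prod, Nat.cast_mul, ← hd, ← pow_add]
  have hJ' : ∀ S ∈ insert 0 NJ, S.PosSemidef ∧ S *ᵥ v = 0 ∧ opn S ≤ σ ∧ S.trace ≤ w ^ 16 - T₀ := by
    intro S hS
    rcases mem_insert.1 hS with rfl | hS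
    · refine ⟨PosSemidef.zero, zero_mulVec v, (opn_le_fro _).trans ?_, ?_⟩
      · rw [fro_zero]; positivity
      · rw [trace_zero]; linarith only [hT, hT₁, k1]
    · exact hJ S hS
  have key := event_le (H := H) (d := w ^ 16) (μ := 2 * ε * w ^ 24) (c := 1 / w ^ 7)
    (q := 20 * ρ * s) (e := 1 / w ^ 16) (δ' := ε * w ^ 8 / 100)
    (δ := ε * w ^ 8 / 100 + 2 * σ + 1)
    (e₄ := 300 * σ * ρ ^ 2 * w ^ 26) (K := 5 * w ^ 32) (R := 5 * ρ * w ^ 30 + ε * w ^ 31 / 100)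
    (β := 200 * ρ * w ^ 8 / ε) (t := ε * w ^ 24 / 8) (a := -(ε * w ^ 24)) hv
    ((P.log_le (by positivity) hn).trans (by
      rw [← hd, hr]; linarith only [ρ1, P.ms 1 0 0 0 8 (by omega), pow_pos w0 8]))
    hd hT₀ (hT₀.trans hT) ha₀ (by positivity) (by positivity) (by positivity) (by positivity)
    (by positivity) (by positivity) (by positivity) (by positivity) hs (by positivity)
    (by positivity) S₀ hS₀ hG hGp (by rw [hr]; exact hprop) NI I0 hI (insert 0 NJ) (mem_insert_self _ _) hJ'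
    (fun S h1 h2 h3 h4 => by
      obtain ⟨S', h5, h6⟩ := nJ S ⟨h1, h2, h3, h4⟩
      refine ⟨S', mem_insert_of_mem h5, (fro_le_of_abs_le (by positivity)
        fun i j => h6 (i, j)).trans_eq ?_⟩
      rw [Real.sqrt_mul_self (Nat.cast_nonneg _), ← hd]
      field_simp)
    (add_le_add_right ((div_le_one (by positivity)).2 (one_le_pow₀ w1)) _) (P.n_K hn hs hs' hH)
    (by rw [hr]; exact P.n_AO hn hAO) (by rw [hr]; exact P.n_tF n1)
    (by rw [hr]; exact P.n_A (by positivity) hn)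
    (by rw [hr]; exact P.n_fin hn ha₀ ha (by linarith only [lI, lJ]))
  rw [hr] at key
  refine le_trans (measure_mono ?_) (key.trans (ENNReal.ofReal_le_ofReal (P.n_p hn)))
  rintro x ⟨h1, h2, h3, h4, u, h5, h6⟩
  obtain ⟨u', h7, h8⟩ := nI u h5
  refine ⟨h1, fun k hk => ?_, le_trans ?_ (P.n_e4 hH h4), fun k _ => hr ▸ nrm_qj_le_of hv (h2 k),
    ⟨u', h7⟩, fun S => ?_⟩
  · rw [mul_comm]
    exact mul_le_mul_of_nonneg_right (h3 k hk) hs
  · rw [mul_sum, ← nsmul_eq_mul, ← sum_const, ← sum_add_distrib]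
    refine sum_le_sum fun i _ => ?_
    have b1 : nrm (x i) ≤ 2 * w ^ 8 := (nrm_le_iff (by positivity)).2 ((h2 i).trans_eq (by ring))
    have b2 : |x i ⬝ᵥ v| ≤ (x i ⬝ᵥ v) ^ 2 + 1 := by
      rw [← sq_abs]
      linarith only [sq_nonneg (|x i ⬝ᵥ v| - 1), sq_nonneg |x i ⬝ᵥ v|]
    have b3 := mul_le_mul_of_nonneg_left (mul_le_mul b2 b1 (nrm_nonneg _) (by positivity))
      (show 0 ≤ σ by positivity)
    have b4 : 1 / w ^ 16 * (x i ⬝ᵥ x i) ≤ 4 := by
      rw [one_div, inv_mul_le_iff₀ (by positivity)]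
      linarith only [h2 i]
    linarith only [b3, b4]
  · obtain ⟨b1, -, b2, b3⟩ := hJ' _ S.2
    have b4 := val_net (r := fun k => w ^ 16 - qf S.1 (x k) - s * (x k ⬝ᵥ v) ^ 2)
      (M := σ * (4 * w ^ 16) + w ^ 8 * (4 * w ^ 16) + w ^ 16) (μ := 2 * ε * w ^ 24)
      (by positivity) (by positivity) h8 fun k => by
        have c1 := ((le_abs_self _).trans (abs_qf_le_opn S.1 (x k))).trans
          (mul_le_mul b2 (h2 k) (dot_self_nonneg _) (by positivity))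
        have c2 := mul_le_mul hs' ((dot_sq_le hv _).trans (h2 k)) (sq_nonneg _) (by positivity)
        have c3 := qf_nonneg b1 (x k)
        have c4 := mul_nonneg hs (sq_nonneg (x k ⬝ᵥ v))
        have c5 := pow_pos w0 16
        have c6 : 0 ≤ σ * (4 * w ^ 16) + w ^ 8 * (4 * w ^ 16) := by positivity
        exact abs_le.2 ⟨by linarith only [c1, c2, c5], by linarith only [c1, c2, c3, c4]⟩
    rw [val_eq]
    linarith only [b4, b3, hn, h6 _ b1 b3, P.n_err hn]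

end Pool.Agent.Work.MP_6a50bc_pr.Lw
end
end
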