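import Pool.Agent.Work.MP_6a50bc_pr.GBasic
import Pool.Agent.Work.MP_6a50bc_pr.Spec
import Pool.Agent.Work.MP_6a50bc_pr.Sing
import Pool.Agent.Work.MP_6a50bc_pr.Quad

-- merged part: Pool.Agent.Work.MP_6a50bc_pr.Dual
section
namespace Pool.Agent.Work.MP_6a50bc_pr

open MeasureTheory ProbabilityTheory Matrix Finset
open scoped ENNReal

variable {ι κ : Type*} [Fintype ι] [DecidableEq ι] [Fintype κ] [DecidableEq κ]

/-! The penalised problem, its dual, and the deterministic leave-one-out bounds. -/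

variable {b lo hi : ℝ} {g : ι → κ → ℝ}

omit [Fintype ι] [DecidableEq ι] [Fintype κ] [DecidableEq κ] in
lemma pen_nonneg (hlo : 0 ≤ lo) (hhi : 0 ≤ hi) (r : ℝ) : 0 ≤ pen lo hi r := by
  rcases le_total 0 r with h | h
  · exact le_max_of_le_left (mul_nonneg hhi h)
  · exact le_max_of_le_right (by nlinarith only [hlo, h])

omit [Fintype ι] [DecidableEq ι] [Fintype κ] [DecidableEq κ] in
lemma mul_le_pen {y : ℝ} (h1 : -lo ≤ y) (h2 : y ≤ hi) (r : ℝ) : y * r ≤ pen lo hi r := by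
  rcases le_total 0 r with h | h
  · exact le_max_of_le_left (mul_le_mul_of_nonneg_right h2 h)
  · exact le_max_of_le_right (mul_le_mul_of_nonpos_right h1 h)

omit [Fintype ι] [DecidableEq ι] [Fintype κ] [DecidableEq κ] in
lemma pen_self {τ : ℝ} (hτ : 0 ≤ τ) (r : ℝ) : pen τ τ r = τ * |r| := by
  rw [pen, abs_eq_max_neg, mul_max_of_nonneg _ _ hτ, neg_mul, mul_neg]

omit [Fintype ι] [DecidableEq ι] [Fintype κ] [DecidableEq κ] in
lemma pen_eq (hlo : 0 ≤ lo) (hhi : 0 ≤ hi) (r : ℝ) :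
    pen lo hi r = hi * max r 0 + lo * max (-r) 0 := by
  rcases le_total 0 r with h | h
  · rw [pen, max_eq_left h, max_eq_right (neg_nonpos.mpr h), max_eq_left (by nlinarith only [hlo, h, hhi])]
    ring
  · rw [pen, max_eq_right h, max_eq_left (neg_nonneg.mpr h), max_eq_right (by nlinarith)]
    ring

omit [Fintype ι] [DecidableEq ι] [Fintype κ] [DecidableEq κ] in
@[simp] lemma pen_zero : pen lo hi 0 = 0 := by simp [pen]

omit [Fintype ι] [DecidableEq ι] [Fintype κ] [DecidableEq κ] in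
lemma pen_sub_le (hlo : 0 ≤ lo) (hhi : 0 ≤ hi) (r : ℝ) {t : ℝ} (ht : 0 ≤ t) :
    pen lo hi (r - t) ≤ pen lo hi r + lo * t := by
  have h1 : hi * r ≤ pen lo hi r := le_max_left _ _
  have h2 : -lo * r ≤ pen lo hi r := le_max_right _ _
  have h3 := mul_nonneg hlo ht
  have h4 := mul_nonneg hhi ht
  exact max_le (by linarith) (by linarith)

omit [Fintype ι] [DecidableEq ι] in
lemma nuc_le_obj (hlo : 0 ≤ lo) (hhi : 0 ≤ hi) (I : Finset ι) (S : Matrix κ κ ℝ) :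
    nuc S ≤ obj b lo hi I g S :=
  le_add_of_nonneg_right (sum_nonneg fun _ _ => pen_nonneg hlo hhi _)

omit [Fintype ι] [DecidableEq ι] in
lemma obj_nonneg (hlo : 0 ≤ lo) (hhi : 0 ≤ hi) (I : Finset ι) (S : Matrix κ κ ℝ) :
    0 ≤ obj b lo hi I g S :=
  (nuc_nonneg S).trans (nuc_le_obj hlo hhi I S)

omit [Fintype ι] [DecidableEq ι] in
lemma continuous_obj {X : Type*} [TopologicalSpace X] {G : X → ι → κ → ℝ}
    {f : X → Matrix κ κ ℝ} (I : Finset ι) (hG : Continuous G) (hf : Continuous f)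
    (h : ∀ x, (f x).IsHermitian) : Continuous fun x => obj b lo hi I (G x) (f x) := by
  refine (continuous_nuc hf h).add (continuous_finsetSum _ fun i _ => ?_)
  unfold pen
  fun_prop

omit [Fintype ι] [DecidableEq ι] in
lemma obj_mono (hlo : 0 ≤ lo) (hhi : 0 ≤ hi) {I I' : Finset ι} (h : I ⊆ I') (S : Matrix κ κ ℝ) :
    obj b lo hi I g S ≤ obj b lo hi I' g S :=
  add_le_add le_rfl (sum_le_sum_of_subset_of_nonneg h fun _ _ _ => pen_nonneg hlo hhi _)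

omit [Fintype ι] in
lemma obj_update {I : Finset ι} {i : ι} (h : i ∉ I) (z : κ → ℝ) (S : Matrix κ κ ℝ) :
    obj b lo hi I (Function.update g i z) S = obj b lo hi I g S := by
  unfold obj
  congr 1
  refine sum_congr rfl fun j hj => ?_
  rw [Function.update_of_ne (by rintro rfl; exact h hj)]

omit [Fintype ι] in
lemma IsMin.update {I : Finset ι} {i : ι} (h : i ∉ I) (z : κ → ℝ) {S : Matrix κ κ ℝ}
    (hS : IsMin b lo hi I g S) : IsMin b lo hi I (Function.update g i z) S :=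
  ⟨hS.1, fun S' hS' => by rw [obj_update h, obj_update h]; exact hS.2 S' hS'⟩

omit [Fintype ι] [DecidableEq ι] in
theorem exists_isMin (hlo : 0 ≤ lo) (hhi : 0 ≤ hi) (I : Finset ι) : ∃ S, IsMin b lo hi I g S := by
  set c := obj b lo hi I g 0 with hc
  have hK : IsCompact ({S : Matrix κ κ ℝ | fro S ≤ c} ∩ {S | S.IsHermitian}) :=
    (isCompact_fro_le c).inter_right isClosed_isHermitian
  have h0 : (0 : Matrix κ κ ℝ) ∈ {S : Matrix κ κ ℝ | fro S ≤ c} ∩ {S | S.IsHermitian} :=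
    ⟨by simpa using obj_nonneg hlo hhi I 0, isHermitian_zero⟩
  have hcont : ContinuousOn (obj b lo hi I g)
      ({S : Matrix κ κ ℝ | fro S ≤ c} ∩ {S | S.IsHermitian}) := by
    rw [continuousOn_iff_continuous_domRestrict]
    exact continuous_obj I continuous_const continuous_subtype_val fun x => x.2.2
  obtain ⟨S, hS, hmin⟩ := hK.exists_isMinOn ⟨0, h0⟩ hcont
  refine ⟨S, hS.2, fun S' hS' => ?_⟩
  by_cases h : fro S' ≤ c
  · exact hmin ⟨h, hS'⟩
  · exact (hmin h0).trans ((not_le.mp h).le.trans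
      ((fro_le_nuc hS').trans (nuc_le_obj hlo hhi I S')))

omit [DecidableEq ι] in
/-- If the penalty for overshooting is small, the positive part of a minimiser is a minimiser. -/
theorem exists_isMin_posSemidef (hlo : 0 ≤ lo) (hhi : 0 ≤ hi) (I : Finset ι)
    (h : ∀ v, lo * qf (gram 1 g) v ≤ v ⬝ᵥ v) : ∃ S, IsMin b lo hi I g S ∧ S.PosSemidef := by
  obtain ⟨S, hS⟩ := exists_isMin (b := b) (g := g) hlo hhi I
  refine ⟨pos S, ⟨(pos_posSemidef S).1, fun S' hS' => le_trans ?_ (hS.2 S' hS')⟩,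
    pos_posSemidef S⟩
  have hN := pos_posSemidef (-S)
  have h1 : ∀ i, b - qf (pos S) (g i) = b - qf S (g i) - qf (pos (-S)) (g i) := fun i => by
    conv_rhs => enter [1]; rw [← pos_sub_pos_neg hS.1]
    rw [qf_sub]; ring
  have h2 : ∑ i ∈ I, pen lo hi (b - qf (pos S) (g i)) ≤
      ∑ i ∈ I, pen lo hi (b - qf S (g i)) + ∑ i ∈ I, lo * qf (pos (-S)) (g i) := by
    rw [← sum_add_distrib]
    exact sum_le_sum fun i _ => by rw [h1]; exact pen_sub_le hlo hhi _ (qf_nonneg hN _)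
  have h3 : ∑ i ∈ I, lo * qf (pos (-S)) (g i) ≤ ∑ i, lo * qf (pos (-S)) (g i) :=
    sum_le_sum_of_subset_of_nonneg (subset_univ I) fun i _ _ => mul_nonneg hlo (qf_nonneg hN _)
  have h4 := ip_le_mul_trace (M := lo • gram 1 g) hN (c := 1) fun v => by
    rw [qf_smul, one_mul]; exact h v
  rw [ip_smul_left, ip_gram, mul_sum] at h4
  simp only [Pi.one_apply, one_mul] at h4
  rw [obj, obj, nuc_of_posSemidef (pos_posSemidef S), nuc]
  linarith

omit [DecidableEq ι] in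
/-- Weak duality. -/
theorem DualFeas.weak {y : ι → ℝ} (hy : DualFeas lo hi g y) {S : Matrix κ κ ℝ}
    (hS : S.IsHermitian) : b * ∑ i, y i ≤ nuc S + ∑ i, y i * (b - qf S (g i)) := by
  have h := ip_le_nuc hy.2 hS
  rw [ip_gram] at h
  simp only [mul_sub, sum_sub_distrib, ← sum_mul]
  linarith

omit [Fintype ι] [DecidableEq ι] in
/-- A linear functional on matrices is an inner product. -/
lemma exists_eq_ip (f : Matrix κ κ ℝ →ₗ[ℝ] ℝ) : ∃ S : Matrix κ κ ℝ, ∀ A, f A = ip A S := by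
  refine ⟨Matrix.of fun a c => f (Matrix.single a c 1), fun A => ?_⟩
  conv_lhs => rw [matrix_eq_sum_single A]
  simp only [map_sum, ip, of_apply]
  refine sum_congr rfl fun a _ => sum_congr rfl fun c _ => ?_
  rw [← smul_eq_mul, ← map_smul, smul_single, smul_eq_mul, mul_one]

omit [Fintype ι] [DecidableEq ι] in
lemma isCompact_ball_qf :
    IsCompact {M : Matrix κ κ ℝ | M.IsHermitian ∧ ∀ v, |qf M v| ≤ v ⬝ᵥ v} := by
  refine (isCompact_fro_le (√(Fintype.card κ) * 1)).of_isClosed_subset ?_ fun M hM => ?_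
  · simp only [Set.ofPred_and, Set.ofPred_forall]
    exact isClosed_isHermitian.inter
      (isClosed_iInter fun v => isClosed_le (by fun_prop) continuous_const)
  · exact (fro_le_sqrt_mul_opn M).trans (mul_le_mul_of_nonneg_left
      (opn_le_of_qf hM.1 zero_le_one fun v => by rw [one_mul]; exact hM.2 v) (Real.sqrt_nonneg _))

omit [Fintype ι] [DecidableEq ι] [DecidableEq κ] in
lemma convex_ball_qf :
    Convex ℝ {M : Matrix κ κ ℝ | M.IsHermitian ∧ ∀ v, |qf M v| ≤ v ⬝ᵥ v} := by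
  intro M hM N hN s t hs ht hst
  refine ⟨?_, fun v => ?_⟩
  · rw [isHermitian_iff, transpose_add, transpose_smul, transpose_smul, isHermitian_iff.mp hM.1,
      isHermitian_iff.mp hN.1]
  · have h1 := abs_le.mp (hM.2 v)
    have h2 := abs_le.mp (hN.2 v)
    have h3 : s * (v ⬝ᵥ v) + t * (v ⬝ᵥ v) = v ⬝ᵥ v := by rw [← add_mul, hst, one_mul]
    rw [qf_add, qf_smul, qf_smul, abs_le]
    constructor <;> nlinarith only [h3, h1, hs, h2, ht, mul_le_mul_of_nonneg_left h1.1 hs, mul_le_mul_of_nonneg_left h1.2 hs,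
      mul_le_mul_of_nonneg_left h2.1 ht, mul_le_mul_of_nonneg_left h2.2 ht]

omit [DecidableEq ι] [Fintype κ] [DecidableEq κ] in
/-- The linear map whose image of the dual constraint set is separated from a ray. -/
noncomputable def dualMap (b : ℝ) (g : ι → κ → ℝ) :
    (Matrix κ κ ℝ × (ι → ℝ)) →ₗ[ℝ] (Matrix κ κ ℝ × ℝ) where
  toFun q := (q.1 - gram q.2 g, b * ∑ i, q.2 i)
  map_add' p q := by
    ext a c
    · simp [gram, add_smul, sum_add_distrib]; ring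
    · simp [sum_add_distrib, mul_add]
  map_smul' t q := by
    ext a c
    · simp [gram, Matrix.sum_apply, mul_sum, mul_sub, mul_assoc]
    · simp [← mul_sum, mul_left_comm]

omit [DecidableEq ι] in
theorem exists_dualOpt (hlo : 0 ≤ lo) (hhi : 0 ≤ hi) : ∃ y, DualOpt b lo hi g y := by
  obtain ⟨S₀, hS₀⟩ := exists_isMin (b := b) (g := g) hlo hhi univ
  set v := obj b lo hi univ g S₀ with hv
  have hv0 : 0 ≤ v := obj_nonneg hlo hhi _ _
  set C : Set (Matrix κ κ ℝ × (ι → ℝ)) :=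
    {M : Matrix κ κ ℝ | M.IsHermitian ∧ ∀ v, |qf M v| ≤ v ⬝ᵥ v} ×ˢ
      Set.Icc (fun _ => -lo) (fun _ => hi) with hC
  set T : Set (Matrix κ κ ℝ × ℝ) := {0} ×ˢ Set.Ici v with hT
  have hcont : Continuous (dualMap b g) := by
    change Continuous fun q : Matrix κ κ ℝ × (ι → ℝ) => (q.1 - gram q.2 g, b * ∑ i, q.2 i)
    fun_prop
  by_cases hd : Disjoint (dualMap b g '' C) T
  · exfalso
    have : LocallyConvexSpace ℝ (Matrix κ κ ℝ) :=
      inferInstanceAs (LocallyConvexSpace ℝ (κ → κ → ℝ))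
    obtain ⟨f, u, w, h1, h2, h3⟩ := geometric_hahn_banach_compact_closed
      ((convex_ball_qf.prod (convex_Icc _ _)).linear_image (dualMap b g))
      ((isCompact_ball_qf.prod isCompact_Icc).image hcont)
      ((convex_singleton (0 : Matrix κ κ ℝ)).prod (convex_Ici v))
      (isClosed_singleton.prod isClosed_Ici) hd
    obtain ⟨S, hS⟩ := exists_eq_ip (f.toLinearMap ∘ₗ LinearMap.inl ℝ (Matrix κ κ ℝ) ℝ)
    set lam := f (0, 1) with hlam
    have hf : ∀ (A : Matrix κ κ ℝ) (r : ℝ), f (A, r) = ip A S + r * lam := fun A r => by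
      have e : (A, r) = (A, 0) + r • ((0 : Matrix κ κ ℝ), (1 : ℝ)) := by simp
      rw [e, map_add, map_smul, smul_eq_mul, ← hS A]
      rfl
    have hu : 0 < u := by
      have := h1 _ ⟨0, ⟨⟨isHermitian_zero, fun v => by simpa using dot_self_nonneg v⟩,
        fun _ => neg_nonpos.mpr hlo, fun _ => hhi⟩, rfl⟩
      rwa [map_zero, map_zero] at this
    have hw : w < v * lam := by
      have := h3 (0, v) ⟨rfl, le_refl v⟩
      rwa [hf, ip_zero_left, zero_add] at this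
    have hl : 0 < lam := by
      by_contra hl
      nlinarith only [h2, hu, hw, hv0, hl, mul_nonneg hv0 (neg_nonneg.mpr (not_lt.mp hl))]
    set S' : Matrix κ κ ℝ := lam⁻¹ • goe 0 S with hS'
    have hH : S'.IsHermitian := by
      rw [hS', isHermitian_iff, transpose_smul, isHermitian_iff.mp (goe_isHermitian _ _)]
    have hip : ∀ A : Matrix κ κ ℝ, A.IsHermitian → ip A S = lam * ip A S' := fun A hA => by
      rw [hS', ip_smul_right, ← mul_assoc, mul_inv_cancel₀ hl.ne', one_mul, ip_comm A (goe 0 S),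
        ip_goe 0 S hA, zero_mul, sub_zero, ip_comm]
      rfl
    obtain ⟨M, hM1, hM2, hM3⟩ := exists_ip_eq_nuc hH
    set y : ι → ℝ := fun i => if 0 ≤ b - qf S' (g i) then hi else -lo with hy
    have hyC : (M, y) ∈ C := by
      refine ⟨⟨hM1, hM2⟩, fun i => ?_, fun i => ?_⟩
      · simp only [hy]; split_ifs <;> linarith only [hlo, hhi]
      · simp only [hy]; split_ifs <;> linarith only [hlo, hhi]
    have hpen : ∀ i, pen lo hi (b - qf S' (g i)) = y i * (b - qf S' (g i)) := fun i => by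
      simp only [hy, pen]
      split_ifs with h
      · exact max_eq_left (by nlinarith only [hlo, h, hhi])
      · exact max_eq_right (by nlinarith only [hlo, h, hhi, not_le.mp h])
    have h4 := h1 _ ⟨_, hyC, rfl⟩
    change f (M - gram y g, b * ∑ i, y i) < u at h4
    rw [hf, hip _ (hM1.sub (gram_isHermitian _ _)), ip_sub_left, hM3, ip_gram] at h4
    have h5 := hS₀.2 S' hH
    have h6 : obj b lo hi univ g S' = nuc S' - ∑ i, y i * qf S' (g i) + b * ∑ i, y i := by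
      simp only [obj, hpen, mul_sub, sum_sub_distrib, ← sum_mul]
      ring
    rw [← hv, h6] at h5
    nlinarith only [h2, hw, h4, h5, hl, mul_le_mul_of_nonneg_left h5 hl.le]
  · obtain ⟨_, ⟨⟨M, y⟩, ⟨hM, hy⟩, rfl⟩, h1, h2⟩ := Set.not_disjoint_iff.mp hd
    have h3 : M = gram y g := sub_eq_zero.mp h1
    exact ⟨y, ⟨fun i => ⟨hy.1 i, hy.2 i⟩, h3 ▸ hM.2⟩, S₀, hS₀.1, h2⟩

omit [DecidableEq ι] in
theorem fit_of_dualOpt {y : ι → ℝ} (hy : DualOpt b lo hi g y) (h1 : ∀ i, -lo < y i ∧ y i < hi)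
    (h2 : ∀ v, v ≠ 0 → -(v ⬝ᵥ v) < qf (gram y g) v) : Fit b g := by
  obtain ⟨hf, S, hS, hopt⟩ := hy
  have hw := hf.weak (b := b) hS
  have hle : ∀ i ∈ univ, y i * (b - qf S (g i)) ≤ pen lo hi (b - qf S (g i)) :=
    fun i _ => mul_le_pen (h1 i).1.le (h1 i).2.le _
  have heq := (sum_eq_sum_iff_of_le hle).mp
    (le_antisymm (sum_le_sum hle) (by unfold obj at hopt; linarith))
  have hfit : ∀ i, qf S (g i) = b := fun i => by
    have h3 := heq i (mem_univ i)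
    have h4 : hi * (b - qf S (g i)) ≤ pen lo hi (b - qf S (g i)) := le_max_left _ _
    have h5 : -lo * (b - qf S (g i)) ≤ pen lo hi (b - qf S (g i)) := le_max_right _ _
    rcases lt_trichotomy (b - qf S (g i)) 0 with h | h | h
    · nlinarith only [h, h3, h5, (h1 i).1]
    · linarith
    · nlinarith only [h3, h4, h, (h1 i).2]
  refine ⟨⟨S, hS, hfit⟩, fun T hT hTfit hmin => ?_⟩
  have h3 : nuc T ≤ ip (gram y g) T := by
    have h4 := hmin S hS hfit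
    simp only [obj, hfit, sub_self, pen_zero, sum_const_zero, add_zero] at hopt
    simp only [ip_gram, hTfit, ← sum_mul]
    linarith
  obtain ⟨U, l, hU, rfl⟩ := exists_spec hT
  refine spec_posSemidef U fun j => ?_
  rw [nuc_spec hU, ip_spec] at h3
  have hle' : ∀ k ∈ univ, l k * qf (gram y g) (Uᵀ k) ≤ |l k| := fun k _ => by
    have := hf.2 (Uᵀ k)
    rw [hU.col_dot_self] at this
    refine (le_abs_self _).trans ?_
    rw [abs_mul]
    exact mul_le_of_le_one_right (abs_nonneg _) this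
  have h4 := (sum_eq_sum_iff_of_le hle').mp (le_antisymm (sum_le_sum hle') h3) j (mem_univ j)
  have h5 := h2 (Uᵀ j) fun h => by simpa [h] using hU.col_dot_self j
  rw [hU.col_dot_self] at h5
  by_contra h
  rw [abs_of_neg (not_le.mp h)] at h4
  nlinarith only [h4, h5, h, not_le.mp h]

omit [Fintype κ] in
lemma goe_zero_of_isHermitian {S : Matrix κ κ ℝ} (hS : S.IsHermitian) : goe 0 S = S := by
  have h : (Matrix.of S)ᵀ = S := isHermitian_iff.mp hS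
  have h' : Matrix.of S = S := rfl
  rw [goe, h, h', zero_smul, sub_zero]
  module

omit [DecidableEq ι] in
theorem isClosed_dualOpt (hlo : 0 ≤ lo) (hhi : 0 ≤ hi) (i : ι) {C : Set ℝ} (hC : IsClosed C) :
    IsClosed {x : ι → κ → ℝ | ∃ y, DualOpt b lo hi x y ∧ y i ∈ C} := by
  set c := |b| * ∑ _i : ι, (lo + hi) with hc
  have hK : IsCompact (Set.Icc (fun _ : ι => -lo) (fun _ => hi) ×ˢ
      {S : Matrix κ κ ℝ | fro S ≤ c}) := isCompact_Icc.prod (isCompact_fro_le c)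
  have h := isClosed_exists_compact (α := ι → κ → ℝ) hK
    (r := fun x q => (∀ v, |qf (gram q.1 x) v| ≤ v ⬝ᵥ v) ∧
      obj b lo hi univ x (goe 0 q.2) ≤ b * ∑ j, q.1 j ∧ q.1 i ∈ C) (by
      simp only [Set.ofPred_and, Set.ofPred_forall]
      refine (isClosed_iInter fun v => isClosed_le (by fun_prop) continuous_const).inter
        (IsClosed.inter (isClosed_le ?_ (by fun_prop)) (hC.preimage (by fun_prop)))
      exact continuous_obj univ continuous_fst (continuous_goe continuous_const (by fun_prop))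
        fun _ => goe_isHermitian _ _)
  convert h using 1
  ext x
  constructor
  · rintro ⟨y, ⟨hf, S, hS, hopt⟩, hy⟩
    refine ⟨(y, S), ⟨⟨fun j => (hf.1 j).1, fun j => (hf.1 j).2⟩, ?_⟩, hf.2, ?_, hy⟩
    · refine (fro_le_nuc hS).trans ((nuc_le_obj hlo hhi univ S).trans (hopt.trans ?_))
      refine (le_abs_self _).trans ?_
      rw [abs_mul]
      refine mul_le_mul_of_nonneg_left ((abs_sum_le_sum_abs _ _).trans
        (sum_le_sum fun j _ => ?_)) (abs_nonneg b)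
      exact abs_le.mpr ⟨by linarith [(hf.1 j).1], by linarith [(hf.1 j).2]⟩
    · simpa only [goe_zero_of_isHermitian hS] using hopt
  · rintro ⟨⟨y, S⟩, ⟨hy, -⟩, h1, h2, h3⟩
    exact ⟨y, ⟨⟨fun j => ⟨hy.1 j, hy.2 j⟩, h1⟩, _, goe_isHermitian _ _, h2⟩, h3⟩

omit [DecidableEq ι] in
theorem measurableSet_dualOpt (hlo : 0 ≤ lo) (hhi : 0 ≤ hi) (i : ι) {C : Set ℝ} (hC : IsClosed C) :
    MeasurableSet {x : ι → κ → ℝ | ∃ y, DualOpt b lo hi x y ∧ y i ∈ C} :=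
  (isClosed_dualOpt hlo hhi i hC).measurableSet

/-- The basic leave-one-out inequality. -/
lemma loo_basic (hlo : 0 ≤ lo) (hhi : 0 ≤ hi) {y : ι → ℝ} (hy : DualOpt b lo hi g y) {i : ι}
    {S S' : Matrix κ κ ℝ} (hS : IsMin b lo hi (univ.erase i) g S) (hS' : S'.IsHermitian)
    (h0 : ∀ j, j ≠ i → qf S' (g j) = qf S (g j)) :
    nuc S ≤ nuc S' + y i * (b - qf S' (g i)) := by
  obtain ⟨hf, T, hT, hopt⟩ := hy
  have h1 := hf.weak (b := b) hS'
  have h2 := hS.2 T hT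
  have h3 := obj_mono (b := b) (g := g) hlo hhi (erase_subset i univ) T
  rw [← add_sum_erase (s := univ) (f := fun j => y j * (b - qf S' (g j))) (mem_univ i)] at h1
  have h4 : ∑ j ∈ univ.erase i, y j * (b - qf S' (g j)) ≤
      ∑ j ∈ univ.erase i, pen lo hi (b - qf S (g j)) :=
    sum_le_sum fun j hj => by
      rw [h0 j (ne_of_mem_erase hj)]; exact mul_le_pen (hf.1 j).1 (hf.1 j).2 _
  have h5 : obj b lo hi (univ.erase i) g S =
      nuc S + ∑ j ∈ univ.erase i, pen lo hi (b - qf S (g j)) := rfl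
  linarith

theorem loo_sign (hlo : 0 ≤ lo) (hhi : 0 ≤ hi) {y : ι → ℝ} (hy : DualOpt b lo hi g y) {i : ι}
    {S : Matrix κ κ ℝ} (hS : IsMin b lo hi (univ.erase i) g S) (h : qf S (g i) < b) : 0 ≤ y i := by
  have h1 := loo_basic hlo hhi hy hS hS.1 fun _ _ => rfl
  by_contra h2
  nlinarith only [h1, h, h2, not_le.mp h2]

theorem loo_abs (hlo : 0 ≤ lo) (hhi : 0 ≤ hi) {y : ι → ℝ} (hy : DualOpt b lo hi g y) {i : ι}
    {S Δ : Matrix κ κ ℝ} (hS : IsMin b lo hi (univ.erase i) g S) (hΔ : Δ.IsHermitian)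
    (h0 : ∀ j, j ≠ i → qf Δ (g j) = 0) (h1 : qf Δ (g i) = 1) {c δ : ℝ} (hc : 0 ≤ c) (hδ : 0 < δ)
    (hnuc : ∀ r : ℝ, nuc (S + r • Δ) ≤ nuc S + c * r ^ 2) (hres : |b - qf S (g i)| ≤ δ) :
    |y i| ≤ 4 * c * δ := by
  have key : ∀ r : ℝ, 0 ≤ c * r ^ 2 + y i * (b - qf S (g i) - r) := fun r => by
    have hH : (S + r • Δ).IsHermitian := by
      rw [isHermitian_iff, transpose_add, transpose_smul, isHermitian_iff.mp hS.1,
        isHermitian_iff.mp hΔ]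
    have h2 := loo_basic hlo hhi hy hS hH fun j hj => by
      rw [qf_add, qf_smul, h0 j hj, mul_zero, add_zero]
    rw [qf_add, qf_smul, h1, mul_one, ← sub_sub] at h2
    linarith [hnuc r]
  obtain ⟨h3, h4⟩ := abs_le.mp hres
  set ρ := b - qf S (g i)
  have h5 : ∀ r : ℝ, |r| ≤ 2 * δ → c * r ^ 2 ≤ 4 * c * δ * δ := fun r hr => by
    have := mul_le_mul_of_nonneg_left (sq_le_sq' (abs_le.mp hr).1 (abs_le.mp hr).2) hc
    linarith
  refine le_of_mul_le_mul_right ?_ hδ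
  rcases le_total 0 (y i) with h | h
  · have h6 := key (ρ + δ)
    have h7 := h5 (ρ + δ) (abs_le.mpr ⟨by linarith, by linarith⟩)
    rw [abs_of_nonneg h]
    linarith
  · have h6 := key (ρ - δ)
    have h7 := h5 (ρ - δ) (abs_le.mpr ⟨by linarith, by linarith⟩)
    rw [abs_of_nonpos h]
    linarith

lemma exists_tangent_split {R : Finset κ} {D : Matrix κ κ ℝ} (hD : D.IsHermitian)
    (htan : ∀ a ∉ R, ∀ a' ∉ R, D a a' = 0) :
    ∃ E : Matrix κ κ ℝ, E * diagonal (fun j => if j ∈ R then (1 : ℝ) else 0) = E ∧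
      E + Eᵀ = D ∧ fro E ≤ fro D := by
  have hs : ∀ a c, D c a = D a c := fun a c => congrFun (congrFun (isHermitian_iff.mp hD) a) c
  refine ⟨Matrix.of fun a c => if c ∈ R then (if a ∈ R then D a c / 2 else D a c) else 0,
    ?_, ?_, ?_⟩
  · ext a c
    by_cases hc : c ∈ R <;> simp [hc]
  · ext a c
    by_cases ha : a ∈ R <;> by_cases hc : c ∈ R <;> simp [ha, hc, hs a c]
    exact (htan a ha c hc).symm
  · rw [fro_eq_nrm, fro_eq_nrm]
    refine nrm_mono fun q => ?_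
    simp only [of_apply]
    split_ifs
    · rw [abs_div, abs_two]; linarith [abs_nonneg (D q.1 q.2)]
    · exact le_rfl
    · simp

/-- Second order bound for the nuclear norm along the tangent space of the large eigenvalues. -/
theorem nuc_perturb {U : Matrix κ κ ℝ} (hU : Orth U) {l : κ → ℝ} {R : Finset κ} {l₀ : ℝ}
    (h0 : 0 < l₀) (hR : ∀ j ∈ R, l₀ ≤ l j) {Δ : Matrix κ κ ℝ} (hΔ : Δ.IsHermitian)
    (htan : ∀ a ∉ R, ∀ a' ∉ R, (Uᵀ * Δ * U) a a' = 0) :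
    nuc (spec U l + Δ) ≤ nuc (spec U l) + Δ.trace + 2 * fro Δ ^ 2 / l₀ := by
  have hD : (Uᵀ * Δ * U).IsHermitian := by
    rw [isHermitian_iff, transpose_mul, transpose_mul, transpose_transpose,
      isHermitian_iff.mp hΔ, Matrix.mul_assoc]
  obtain ⟨E, hE1, hE2, hE3⟩ := exists_tangent_split hD htan
  rw [fro_conj_orth hU] at hE3
  set e : κ → ℝ := fun j => if j ∈ R then (1 : ℝ) else 0 with he
  set P : Matrix κ κ ℝ := diagonal e with hP
  have hPt : Pᵀ = P := diagonal_transpose e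
  have hPP : P * P = P := by
    rw [hP, diagonal_mul_diagonal]
    congr 1
    funext j
    by_cases h : j ∈ R <;> simp [he, h]
  have hPE : P * Eᵀ = Eᵀ := by
    conv_rhs => rw [← hE1, transpose_mul, hPt]
  have hpsd : ∀ A : Matrix κ κ ℝ, (l₀⁻¹ • ((U * A) * (U * A)ᵀ)).PosSemidef := fun A => by
    have := posSemidef_self_mul_conjTranspose (U * A)
    rw [conjTranspose_eq_transpose_of_trivial] at this
    exact this.smul (inv_nonneg.mpr h0.le)
  have hΔ' : U * (E + Eᵀ) * Uᵀ = Δ := by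
    rw [hE2, ← Matrix.mul_assoc, ← Matrix.mul_assoc, hU.mul_transpose, Matrix.one_mul,
      Matrix.mul_assoc, hU.mul_transpose, Matrix.mul_one]
  have hA : (l₀ • P + E) * (l₀ • P + E)ᵀ = (l₀ * l₀) • P + l₀ • (E + Eᵀ) + E * Eᵀ := by
    simp only [transpose_add, transpose_smul, hPt, Matrix.add_mul, Matrix.mul_add,
      Matrix.smul_mul, Matrix.mul_smul, hPP, hPE, hE1]
    module
  have hconj : ∀ A : Matrix κ κ ℝ, (U * A) * (U * A)ᵀ = U * (A * Aᵀ) * Uᵀ := fun A => by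
    simp only [transpose_mul, Matrix.mul_assoc]
  have hsplit : l₀⁻¹ • ((U * (l₀ • P + E)) * (U * (l₀ • P + E))ᵀ) =
      spec U (l₀ • e) + Δ + l₀⁻¹ • ((U * E) * (U * E)ᵀ) := by
    rw [hconj, hconj, hA, spec_smul, ← hΔ', spec, ← hP]
    simp only [Matrix.add_mul, Matrix.mul_add, Matrix.smul_mul, Matrix.mul_smul, smul_add,
      smul_smul, inv_mul_cancel₀ h0.ne', inv_mul_cancel_left₀ h0.ne', one_smul]
  have htr : (l₀⁻¹ • ((U * E) * (U * E)ᵀ)).trace ≤ fro Δ ^ 2 / l₀ := by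
    rw [trace_smul, smul_eq_mul, ← ip_eq_trace', ← fro_sq, div_eq_inv_mul]
    refine mul_le_mul_of_nonneg_left (pow_le_pow_left₀ (fro_nonneg _) ?_ 2) (inv_nonneg.mpr h0.le)
    exact (fro_mul_le_left U E).trans
      ((mul_le_of_le_one_left (fro_nonneg E) hU.opn_le).trans hE3)
  have h1 := nuc_sub_le (hpsd (l₀ • P + E)) (hpsd E)
  rw [hsplit, add_sub_cancel_right, trace_add, trace_add, trace_spec hU] at h1
  have h2 := nuc_add_le (spec_isHermitian U (l - l₀ • e)) ((spec_isHermitian U (l₀ • e)).add hΔ)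
  rw [← add_assoc, ← spec_add, sub_add_cancel, nuc_spec hU] at h2
  have h3 : ∑ j, |(l - l₀ • e) j| + ∑ j, (l₀ • e) j = ∑ j, |l j| := by
    rw [← sum_add_distrib]
    refine sum_congr rfl fun j _ => ?_
    by_cases h : j ∈ R
    · have := hR j h
      simp only [he, Pi.sub_apply, Pi.smul_apply, h, if_true, smul_eq_mul, mul_one]
      rw [abs_of_nonneg (by linarith), abs_of_nonneg (by linarith)]
      ring
    · simp [he, h]
  rw [nuc_spec hU, mul_div_assoc]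
  linarith only [htr, h1, h2, h3]

end Pool.Agent.Work.MP_6a50bc_pr
end

-- merged part: Pool.Agent.Work.MP_6a50bc_pr.Primal
section
-- merged part: Pool.Agent.Work.MP_6a50bc_pr.PrimalAux
section
/-! Resolvent identities and the scalar estimates used for the almost optimal feasible point. -/

namespace Pool.Agent.Work.MP_6a50bc_pr.PrimalAux

open Matrix Finset

variable {ι κ : Type*} [Fintype ι] [Fintype κ] [DecidableEq κ]

lemma inv_lower {M : Matrix κ κ ℝ} (hM : M.IsHermitian) {m : ℝ} (hm : 0 < m)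
    (h : ∀ v, m * (v ⬝ᵥ v) ≤ qf M v) :
    M * M⁻¹ = 1 ∧ M⁻¹.PosSemidef ∧ (∀ v, M⁻¹ *ᵥ v ⬝ᵥ M⁻¹ *ᵥ v ≤ m⁻¹ * qf M⁻¹ v) ∧
      opn M⁻¹ ≤ m⁻¹ := by
  have hinj : Function.Injective M.mulVec := by
    intro v w hvw
    by_contra hne
    have h1 := h (v - w)
    have h2 : M *ᵥ (v - w) = 0 := by rw [mulVec_sub]; exact sub_eq_zero.mpr hvw
    rw [qf, h2, dotProduct_zero] at h1
    have := mul_pos hm (dot_self_pos (sub_ne_zero.mpr hne))
    linarith
  have hU : IsUnit M.det := (isUnit_iff_isUnit_det M).mp (mulVec_injective_iff_isUnit.mp hinj)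
  have h1 : M * M⁻¹ = 1 := mul_nonsing_inv M hU
  have h2 : ∀ v, m * (M⁻¹ *ᵥ v ⬝ᵥ M⁻¹ *ᵥ v) ≤ qf M⁻¹ v := fun v => by
    have := h (M⁻¹ *ᵥ v)
    rwa [qf, mulVec_mulVec, h1, one_mulVec, dotProduct_comm (M⁻¹ *ᵥ v) v] at this
  have h3 : ∀ v, M⁻¹ *ᵥ v ⬝ᵥ M⁻¹ *ᵥ v ≤ m⁻¹ * qf M⁻¹ v := fun v => by
    rw [inv_mul_eq_div, le_div_iff₀ hm, mul_comm]; exact h2 v
  refine ⟨h1, posSemidef_iff_qf.mpr ⟨hM.inv, fun v =>
    (mul_nonneg hm.le (dot_self_nonneg _)).trans (h2 v)⟩, h3, ?_⟩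
  refine opn_le_of (by positivity) fun v => ?_
  have h4 := h3 v
  have h5 : qf M⁻¹ v ≤ nrm v * nrm (M⁻¹ *ᵥ v) := dot_le _ _
  rw [← nrm_sq] at h4
  rcases (nrm_nonneg (M⁻¹ *ᵥ v)).eq_or_lt with h0 | h0
  · rw [← h0]; exact mul_nonneg (by positivity) (nrm_nonneg v)
  · have h6 : nrm (M⁻¹ *ᵥ v) ^ 2 ≤ m⁻¹ * (nrm v * nrm (M⁻¹ *ᵥ v)) :=
      h4.trans (mul_le_mul_of_nonneg_left h5 (by positivity))
    nlinarith only [h6, h0]

omit [DecidableEq κ] in
lemma qf_mul_self {R : Matrix κ κ ℝ} (hR : R.IsHermitian) (g : κ → ℝ) :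
    qf (R * R) g = R *ᵥ g ⬝ᵥ R *ᵥ g := by
  rw [qf, ← mulVec_mulVec, dot_mulVec_symm hR]

omit [DecidableEq κ] in
lemma trace_mul_self {R : Matrix κ κ ℝ} (hR : R.IsHermitian) : (R * R).trace = fro R ^ 2 := by
  rw [fro_sq, ip_eq_trace, isHermitian_iff.mp hR]

omit [DecidableEq κ] in
lemma posSemidef_mul_self {R : Matrix κ κ ℝ} (hR : R.IsHermitian) : (R * R).PosSemidef :=
  posSemidef_iff_qf.mpr ⟨by
    rw [isHermitian_iff, transpose_mul, isHermitian_iff.mp hR], fun v => by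
    rw [qf_mul_self hR]; exact dot_self_nonneg _⟩

omit [DecidableEq κ] in
lemma lower_add {M : Matrix κ κ ℝ} {m : ℝ} (h : ∀ v, m * (v ⬝ᵥ v) ≤ qf M v) (g v : κ → ℝ) :
    m * (v ⬝ᵥ v) ≤ qf (M + vecMulVec g g) v := by
  rw [qf_add, qf_vecMulVec]
  linarith [h v, mul_self_nonneg (g ⬝ᵥ v)]

omit [Fintype κ] [DecidableEq κ] in
lemma isHermitian_vv (g : κ → ℝ) : (vecMulVec g g).IsHermitian := by
  rw [isHermitian_iff]
  ext a b
  simp [vecMulVec_apply, mul_comm]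

/-- The rank one update formula. -/
lemma sherman {M : Matrix κ κ ℝ} (hM : M.IsHermitian) (h1 : M * M⁻¹ = 1) (g : κ → ℝ)
    (hp : 0 ≤ qf M⁻¹ g) :
    (M + vecMulVec g g)⁻¹ =
      M⁻¹ - (1 + qf M⁻¹ g)⁻¹ • vecMulVec (M⁻¹ *ᵥ g) (M⁻¹ *ᵥ g) := by
  apply inv_eq_right_inv
  set v := M⁻¹ *ᵥ g with hv
  have e1 : M * vecMulVec v v = vecMulVec g v := by
    rw [mul_vecMulVec, hv, mulVec_mulVec, h1, one_mulVec]
  have e2 : vecMulVec g g * M⁻¹ = vecMulVec g v := by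
    rw [vecMulVec_mul, hv, ← isHermitian_iff.mp hM.inv, vecMul_transpose,
      isHermitian_iff.mp hM.inv]
  have e3 : vecMulVec g g * vecMulVec v v = qf M⁻¹ g • vecMulVec g v := by
    rw [vecMulVec_mul_vecMulVec, vecMulVec_smul]
    rfl
  rw [Matrix.add_mul, Matrix.mul_sub, Matrix.mul_sub, Matrix.mul_smul, Matrix.mul_smul, h1, e1, e2,
    e3, smul_smul]
  have e4 : (1 + qf M⁻¹ g)⁻¹ * qf M⁻¹ g = 1 - (1 + qf M⁻¹ g)⁻¹ := by
    field_simp
    ring
  rw [e4, sub_smul, one_smul]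
  abel

/-- Comparison of the resolvent with its leave-one-out version. -/
lemma loo_res {M : Matrix κ κ ℝ} (hM : M.IsHermitian) {m : ℝ} (hm : 0 < m)
    (h : ∀ v, m * (v ⬝ᵥ v) ≤ qf M v) (g : κ → ℝ) {R R' : Matrix κ κ ℝ} (hR : R = M⁻¹)
    (hR' : R' = (M + vecMulVec g g)⁻¹) :
    0 ≤ qf R g ∧ (1 + qf R g) * (1 - qf R' g) = 1 ∧ R.trace - m⁻¹ ≤ R'.trace ∧
      R'.trace ≤ R.trace ∧ fro R' ^ 2 ≤ m⁻¹ * R.trace ∧ fro R ^ 2 ≤ fro R' ^ 2 + 2 * m⁻¹ ^ 2 ∧
      qf (R * R) g = (1 + qf R g) ^ 2 * qf (R' * R') g ∧ fro (R' * R') ≤ m⁻¹ * fro R' := by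
  obtain ⟨h1, h2, h3, h4⟩ := inv_lower hM hm h
  obtain ⟨-, h2', -, h4'⟩ := inv_lower (hM.add (isHermitian_vv g)) hm (lower_add h g)
  have hp := qf_nonneg h2 g
  have hs := sherman hM h1 g hp
  rw [← hR'] at hs h2' h4'
  rw [← hR] at hs h2 h3 h4 hp
  set p := qf R g with hpdef
  set v := R *ᵥ g with hv
  set c := (1 + p)⁻¹ with hc
  have hc0 : 0 < c := by positivity
  have hc1 : c * (1 + p) = 1 := inv_mul_cancel₀ (by positivity)
  have hvg : v ⬝ᵥ g = p := dotProduct_comm _ _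
  have hvv : v ⬝ᵥ v ≤ m⁻¹ * p := h3 g
  have hv0 := dot_self_nonneg v
  have hm' : 0 < m⁻¹ := inv_pos.mpr hm
  have hcv : c * (v ⬝ᵥ v) ≤ m⁻¹ := by
    have : c * (v ⬝ᵥ v) ≤ c * (m⁻¹ * p) := mul_le_mul_of_nonneg_left hvv hc0.le
    nlinarith only [hvv, hm', hp, hc1, hv0, mul_pos hc0 hm']
  have htr : R'.trace = R.trace - c * (v ⬝ᵥ v) := by
    rw [hs, trace_sub, trace_smul, trace_vecMulVec, smul_eq_mul]
  have hg : R' *ᵥ g = c • v := by
    rw [hs, sub_mulVec, smul_mulVec, vecMulVec_mulVec, hvg, ← hv]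
    funext a
    simp only [Pi.sub_apply, Pi.smul_apply, smul_eq_mul, op_smul_eq_mul]
    linear_combination (-v a) * hc1
  have hle : R'.trace ≤ R.trace := by rw [htr]; linarith only [hc0, hv0, mul_nonneg hc0.le hv0]
  refine ⟨hp, ?_, by linarith only [hcv, htr], hle, ?_, ?_, ?_, ?_⟩
  · rw [qf, hg, dotProduct_smul, dotProduct_comm, hvg, smul_eq_mul]
    linear_combination (-p) * hc1
  · rw [fro_sq]
    refine (ip_le_mul_trace h2' fun w => (le_abs_self _).trans ((abs_qf_le_opn R' w).trans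
      (mul_le_mul_of_nonneg_right h4' (dot_self_nonneg w)))).trans ?_
    exact mul_le_mul_of_nonneg_left hle hm'.le
  · have e : fro R' ^ 2 = fro R ^ 2 - 2 * c * qf R v + c ^ 2 * fro (vecMulVec v v) ^ 2 := by
      rw [fro_sq, fro_sq, fro_sq, hs]
      simp only [ip_sub_left, ip_sub_right, ip_smul_left, ip_smul_right, qf_eq_ip,
        ip_comm (vecMulVec v v) R]
      ring
    have h5 : qf R v ≤ m⁻¹ * (v ⬝ᵥ v) := (le_abs_self _).trans ((abs_qf_le_opn R v).trans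
      (mul_le_mul_of_nonneg_right h4 hv0))
    have h6 : c * qf R v ≤ m⁻¹ * (c * (v ⬝ᵥ v)) := by nlinarith only [hc0, h5]
    have h7 : m⁻¹ * (c * (v ⬝ᵥ v)) ≤ m⁻¹ * m⁻¹ := mul_le_mul_of_nonneg_left hcv hm'.le
    linarith only [e, h6, h7, sq_nonneg (c * fro (vecMulVec v v))]
  · rw [qf_mul_self h2.1, qf_mul_self h2'.1, hg, ← hv, smul_dotProduct, dotProduct_smul,
      smul_eq_mul, smul_eq_mul]
    linear_combination (-(v ⬝ᵥ v) * (c * (1 + p) + 1)) * hc1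
  · exact (fro_mul_le_left _ _).trans (mul_le_mul_of_nonneg_right h4' (fro_nonneg _))

/-- The variational bound for the trace of the inverse. -/
lemma two_trace_sub_le {M : Matrix κ κ ℝ} (hM : M.PosSemidef) (h1 : M * M⁻¹ = 1)
    (Y : Matrix κ κ ℝ) : 2 * Y.trace - ip M (Y * Yᵀ) ≤ M⁻¹.trace := by
  have h0 : ((Y - M⁻¹) * (Y - M⁻¹)ᵀ).PosSemidef := by
    have := posSemidef_self_mul_conjTranspose (Y - M⁻¹)
    rwa [conjTranspose_eq_transpose_of_trivial] at this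
  have h2 := ip_nonneg hM h0
  have hT := isHermitian_iff.mp hM.1
  have hT' := isHermitian_iff.mp hM.1.inv
  have h1' : M⁻¹ * M = 1 := mul_eq_one_comm.mp h1
  rw [transpose_sub, hT', Matrix.sub_mul, Matrix.mul_sub, Matrix.mul_sub, ip_sub_right,
    ip_sub_right, ip_sub_right] at h2
  have e1 : ip M (Y * M⁻¹) = Y.trace := by
    rw [ip_eq_trace, hT, ← Matrix.mul_assoc, trace_mul_comm, ← Matrix.mul_assoc, h1',
      Matrix.one_mul]
  have e2 : ip M (M⁻¹ * Yᵀ) = Y.trace := by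
    rw [ip_eq_trace, hT, ← Matrix.mul_assoc, h1, Matrix.one_mul, trace_transpose]
  have e3 : ip M (M⁻¹ * M⁻¹) = M⁻¹.trace := by
    rw [ip_eq_trace, hT, ← Matrix.mul_assoc, h1, Matrix.one_mul]
  linarith only [h2, e1, e2, e3]

lemma trace_res {W : Matrix κ κ ℝ} {u : ℝ} {g : ι → κ → ℝ} (hW : W = gram 1 g)
    (h1 : (u • (1 : Matrix κ κ ℝ) - W) * (u • (1 : Matrix κ κ ℝ) - W)⁻¹ = 1) :
    u * (u • (1 : Matrix κ κ ℝ) - W)⁻¹.trace =
      Fintype.card κ + ∑ i, qf (u • (1 : Matrix κ κ ℝ) - W)⁻¹ (g i) := by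
  have h2 := congrArg trace h1
  rw [Matrix.sub_mul, Matrix.smul_mul, Matrix.one_mul, trace_sub, trace_smul, trace_one,
    smul_eq_mul] at h2
  have h3 : (W * (u • (1 : Matrix κ κ ℝ) - W)⁻¹).trace =
      ∑ i, qf (u • (1 : Matrix κ κ ℝ) - W)⁻¹ (g i) := by
    have h4 := ip_gram 1 g (u • (1 : Matrix κ κ ℝ) - W)⁻¹
    rw [ip_eq_trace, isHermitian_iff.mp (gram_isHermitian 1 g), ← hW] at h4
    simpa using h4
  linarith only [h2, h3]

/-- The self-consistent equation pins the normalised trace. -/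
lemma scalar_x {δ x : ℝ} (hδ0 : 0 < δ) (hδ : δ ≤ 1 / 100) (hx : 0 ≤ x)
    (h : (1 - x) ^ 2 ≤ 2 * δ ^ 2 * x + δ ^ 2 * (3 + x) / 2 * (1 + 2 * x)) :
    x ≤ 2 ∧ 1 - x ≤ 4.1 * δ := by
  have hε : δ ^ 2 ≤ 1 / 10000 := by nlinarith only [hδ, hδ0]
  have h1 : x ≤ 2 := by
    by_contra hc
    push Not at hc
    have h2 : δ ^ 2 * (2 * x + (3 + x) / 2 * (1 + 2 * x)) ≤
        1 / 10000 * (2 * x + (3 + x) / 2 * (1 + 2 * x)) :=
      mul_le_mul_of_nonneg_right hε (by positivity)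
    nlinarith only [h, h2, hx, hc]
  refine ⟨h1, ?_⟩
  have h2 : δ ^ 2 * (2 * x + (3 + x) / 2 * (1 + 2 * x)) ≤ δ ^ 2 * 16.5 :=
    mul_le_mul_of_nonneg_left (by nlinarith only [hδ0, hδ, h, hε, h1]) (by positivity)
  exact (abs_le_of_sq_le_sq' (by nlinarith only [h, h2]) (by positivity)).2

lemma scalar_final {ρ δ ω : ℝ} (hρ : 1 ≤ ρ) (hδ0 : 0 < δ) (hρδ : ρ * δ ≤ 1 / 100) (hω0 : 0 < ω)
    (hω1 : ω ≤ 1) (hω : 1 ≤ 2 * ρ * (1 - ω)) :
    (1 - ω + 4.5 * δ * ω) ^ 2 * (1 + 8 * δ ^ 2 * ω) * (1 + 2 * δ ^ 2 * ω) ≤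
      (1 - ω) ^ 2 * (1 + 30 * ρ * δ * ω) * (1 - 2 * δ * ω) := by
  set z := ρ * δ * ω with hz
  have hδω : 0 < δ * ω := mul_pos hδ0 hω0
  have hδ : δ ≤ 1 / 100 := by nlinarith only [hρδ, hρ, hδ0]
  have hz1 : δ * ω ≤ z := by nlinarith only [hρ, hδω]
  have hz2 : z ≤ 1 / 100 := by nlinarith only [hδ0, hρδ, hω, mul_pos (by linarith : (0 : ℝ) < ρ) hδ0]
  have hz0 : 0 < z := hδω.trans_le hz1
  have hz3 : δ ^ 2 * ω ≤ z / 100 := by nlinarith only [hz1, hρ, hρδ, hδω]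
  have h1 : 1 - ω + 4.5 * δ * ω ≤ (1 - ω) * (1 + 9 * z) := by nlinarith only [hω, hδω]
  have h2 : (1 - ω + 4.5 * δ * ω) ^ 2 ≤ ((1 - ω) * (1 + 9 * z)) ^ 2 :=
    pow_le_pow_left₀ (by linarith only [hω1, hδω]) h1 2
  have h3 : (1 + 8 * δ ^ 2 * ω) * (1 + 2 * δ ^ 2 * ω) ≤ 1 + z := by
    have : 0 ≤ δ ^ 2 * ω := by positivity
    nlinarith only [hz3, hδω, h1, hδ0, hρδ, this, hδ]
  have h4 : (1 + 9 * z) ^ 2 * (1 + z) ≤ (1 + 30 * z) * (1 - 2 * (δ * ω)) := by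
    have : (1 + 30 * z) * (1 - 2 * z) ≤ (1 + 30 * z) * (1 - 2 * (δ * ω)) :=
      mul_le_mul_of_nonneg_left (by linarith only [hz1]) (by positivity)
    nlinarith only [hz1, hz2, hδ0, hδω, h1, hz0, hρδ, hδ, mul_pos hz0 hz0, mul_pos (mul_pos hz0 hz0) hz0]
  calc _ = (1 - ω + 4.5 * δ * ω) ^ 2 * ((1 + 8 * δ ^ 2 * ω) * (1 + 2 * δ ^ 2 * ω)) := by ring
    _ ≤ ((1 - ω) * (1 + 9 * z)) ^ 2 * (1 + z) :=
      mul_le_mul h2 h3 (by positivity) (by positivity)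
    _ = (1 - ω) ^ 2 * ((1 + 9 * z) ^ 2 * (1 + z)) := by ring
    _ ≤ (1 - ω) ^ 2 * ((1 + 30 * z) * (1 - 2 * (δ * ω))) :=
      mul_le_mul_of_nonneg_left h4 (by positivity)
    _ = _ := by rw [hz]; ring

lemma scalar_mu {ρ δ ω A μ : ℝ} (hρ : 1 ≤ ρ) (hA : 0 < A)
    (hμ0 : 0 < μ) (hμ : μ * (δ ^ 2 * ω * A ^ 2) = 1) (hs : ρ ≤ δ ^ 3 * ω ^ 2 * A) :
    μ ≤ δ ^ 4 * ω ^ 3 ∧ ρ * μ * A ≤ δ * ω ∧ μ ^ 2 * A ^ 2 ≤ δ ^ 2 * ω ^ 2 := by
  have h1 : 1 ≤ (δ ^ 3 * ω ^ 2 * A) ^ 2 := one_le_pow₀ (hρ.trans hs)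
  have h2 : μ ≤ δ ^ 4 * ω ^ 3 := by
    calc μ = μ * 1 := (mul_one _).symm
      _ ≤ μ * (δ ^ 3 * ω ^ 2 * A) ^ 2 := mul_le_mul_of_nonneg_left h1 hμ0.le
      _ = δ ^ 4 * ω ^ 3 * (μ * (δ ^ 2 * ω * A ^ 2)) := by ring
      _ = _ := by rw [hμ, mul_one]
  refine ⟨h2, ?_, ?_⟩
  · calc ρ * μ * A = ρ * (μ * A) := by ring
      _ ≤ δ ^ 3 * ω ^ 2 * A * (μ * A) := mul_le_mul_of_nonneg_right hs (by positivity)
      _ = δ * ω * (μ * (δ ^ 2 * ω * A ^ 2)) := by ring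
      _ = _ := by rw [hμ, mul_one]
  · calc μ ^ 2 * A ^ 2 = μ * (μ * A ^ 2) := by ring
      _ ≤ δ ^ 4 * ω ^ 3 * (μ * A ^ 2) := mul_le_mul_of_nonneg_right h2 (by positivity)
      _ = δ ^ 2 * ω ^ 2 * (μ * (δ ^ 2 * ω * A ^ 2)) := by ring
      _ = _ := by rw [hμ, mul_one]

lemma scalar_err {ρ δ ω A μ x q t F : ℝ} (hδ0 : 0 < δ) (hδ : δ ≤ 1 / 100) (hω0 : 0 < ω)
    (hω1 : ω ≤ 1) (hF0 : 0 ≤ F) (hμ : μ * (δ ^ 2 * ω * A ^ 2) = 1)
    (hs : ρ ≤ δ ^ 3 * ω ^ 2 * A) (hμ1 : μ ≤ δ ^ 4 * ω ^ 3) (h1 : ω * x - μ ≤ t) (h2 : t ≤ ω * x)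
    (h3 : F ^ 2 ≤ μ * (ω * x)) (h4 : |q - t| ≤ ρ * F) :
    |q - ω * x| ≤ δ ^ 2 * ω ^ 2 * (3 + x) / 2 := by
  have h5 : (δ * A * F) ^ 2 ≤ x := by
    calc (δ * A * F) ^ 2 = δ ^ 2 * A ^ 2 * F ^ 2 := by ring
      _ ≤ δ ^ 2 * A ^ 2 * (μ * (ω * x)) := mul_le_mul_of_nonneg_left h3 (by positivity)
      _ = x * (μ * (δ ^ 2 * ω * A ^ 2)) := by ring
      _ = x := by rw [hμ, mul_one]
  have h6 : δ * A * F ≤ (1 + x) / 2 := by linarith only [h5, sq_nonneg (δ * A * F - 1)]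
  have h7 : ρ * F ≤ δ ^ 2 * ω ^ 2 * ((1 + x) / 2) := by
    calc ρ * F ≤ δ ^ 3 * ω ^ 2 * A * F := mul_le_mul_of_nonneg_right hs hF0
      _ = δ ^ 2 * ω ^ 2 * (δ * A * F) := by ring
      _ ≤ _ := mul_le_mul_of_nonneg_left h6 (by positivity)
  have h8 : δ ^ 4 * ω ^ 3 ≤ δ ^ 2 * ω ^ 2 := by
    have : δ ^ 2 * ω ≤ 1 := by nlinarith only [hδ0, hδ, hω0, hω1]
    calc δ ^ 4 * ω ^ 3 = δ ^ 2 * ω ^ 2 * (δ ^ 2 * ω) := by ring
      _ ≤ δ ^ 2 * ω ^ 2 * 1 := mul_le_mul_of_nonneg_left this (by positivity)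
      _ = _ := mul_one _
  have h9 := abs_le.mp h4
  exact abs_le.mpr ⟨by linarith only [hμ1, h1, h7, h8, h9], by linarith only [hμ1, h1, h2, h7, h8, h9]⟩

lemma scalar_main {ρ δ ω A μ G T : ℝ} {p q t F s : ι → ℝ} (hρ : 1 ≤ ρ) (hδ0 : 0 < δ)
    (hρδ : ρ * δ ≤ 1 / 100) (hω0 : 0 < ω) (hω : 1 ≤ 2 * ρ * (1 - ω)) (hA : 0 < A) (hμ0 : 0 < μ)
    (hμ : μ * (δ ^ 2 * ω * A ^ 2) = 1) (hs : ρ ≤ δ ^ 3 * ω ^ 2 * A)
    (hn : (Fintype.card ι : ℝ) = (1 - ω) ^ 2 * A ^ 2) (hG0 : 0 ≤ G)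
    (hG : A ^ 2 * (1 + 2 * δ ^ 2 * ω) * G = ω ^ 2 * A ^ 2 + ∑ i, p i) (hp : ∀ i, 0 ≤ p i)
    (hpq : ∀ i, (1 + p i) * (1 - q i) = 1) (ht1 : ∀ i, G - μ ≤ t i) (ht2 : ∀ i, t i ≤ G)
    (hF0 : ∀ i, 0 ≤ F i) (hF : ∀ i, F i ^ 2 ≤ μ * G) (hT : ∀ i, T ≤ F i ^ 2 + 2 * μ ^ 2)
    (htF : ∀ i, |t i| ≤ ω * A * F i) (hq : ∀ i, |q i - t i| ≤ ρ * F i)
    (hsF : ∀ i, F i ^ 2 - ρ * (μ * F i) ≤ s i) :
    G ≤ 2 * ω ∧ 0 < G ∧ ∀ i, A ^ 2 * (1 + 2 * δ ^ 2 * ω) * T ≤
      Fintype.card ι * (1 + 30 * ρ * δ * ω) * ((1 + p i) ^ 2 * s i) := by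
  have hδ : δ ≤ 1 / 100 := by nlinarith only [hρ, hδ0, hρδ]
  have hω1 : ω ≤ 1 := by
    by_contra hc
    push Not at hc
    nlinarith only [hρ, hω, hc]
  obtain ⟨hμ1, hμ2, hμ3⟩ := scalar_mu hρ hA hμ0 hμ hs
  obtain ⟨x, rfl⟩ : ∃ x, G = ω * x := ⟨G / ω, by field_simp⟩
  have hx : 0 ≤ x := by
    by_contra hc
    push Not at hc
    nlinarith only [hG0, hω0, hc]
  set e := δ ^ 2 * ω ^ 2 * (3 + x) / 2 with he
  have he0 : 0 ≤ e := by positivity
  have herr : ∀ i, |q i - ω * x| ≤ e := fun i =>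
    scalar_err hδ0 hδ hω0 hω1 (hF0 i) hμ hs hμ1 (ht1 i) (ht2 i) (hF i) (hq i)
  have h1 : ∀ i, ω * x - e * (1 + p i) ≤ p i * (1 - ω * x) := fun i => by
    have h2 : (1 + p i) * (-e) ≤ (1 + p i) * (q i - ω * x) :=
      mul_le_mul_of_nonneg_left (abs_le.mp (herr i)).1 (by linarith only [hδ0, hδ, hp i])
    linarith only [h2, hpq i]
  have h2 := sum_le_sum fun i (_ : i ∈ univ) => h1 i
  rw [sum_sub_distrib, sum_const, ← mul_sum, ← sum_mul, sum_add_distrib, sum_const, card_univ,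
    nsmul_eq_mul, nsmul_eq_mul, mul_one, hn] at h2
  have hP : ∑ i, p i = A ^ 2 * ((1 + 2 * δ ^ 2 * ω) * (ω * x) - ω ^ 2) := by linarith only [hG]
  rw [hP] at h2
  have hA2 : 0 < A ^ 2 := by positivity
  have h3 : (1 - ω) ^ 2 * (ω * x) - e * ((1 - ω) ^ 2 + ((1 + 2 * δ ^ 2 * ω) * (ω * x) - ω ^ 2)) ≤
      ((1 + 2 * δ ^ 2 * ω) * (ω * x) - ω ^ 2) * (1 - ω * x) := by
    refine le_of_mul_le_mul_left ?_ hA2
    linarith only [h2]
  have hδω : δ ^ 2 * ω ≤ 1 / 10000 := by nlinarith only [hδ, hδ0, hω0, hω1]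
  have h4 : (1 - ω) ^ 2 + ((1 + 2 * δ ^ 2 * ω) * (ω * x) - ω ^ 2) ≤ 1 + 2 * x := by
    have : (1 + 2 * δ ^ 2 * ω) * (ω * x) ≤ 2 * (1 * x) :=
      mul_le_mul (by linarith only [hδ0, hδ, hδω]) (mul_le_mul_of_nonneg_right hω1 hx) (by positivity) (by norm_num)
    linarith only [hω0, this]
  have h5 := mul_le_mul_of_nonneg_left h4 he0
  have h6 : (1 - x) ^ 2 ≤ 2 * δ ^ 2 * x + δ ^ 2 * (3 + x) / 2 * (1 + 2 * x) := by
    refine le_of_mul_le_mul_left ?_ (pow_pos hω0 2)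
    have h7 : 0 ≤ δ ^ 2 * ω * (ω * x) ^ 2 := by positivity
    have h8 : e * (1 + 2 * x) = ω ^ 2 * (δ ^ 2 * (3 + x) / 2 * (1 + 2 * x)) := by rw [he]; ring
    linarith only [h3, h5, h7, h8]
  obtain ⟨hx2, hx1⟩ := scalar_x hδ0 hδ hx h6
  have hx3 : 0.9 ≤ x := by linarith only [hδ0, hδ, hx1]
  refine ⟨by nlinarith only [hx2, hω0], by positivity, fun i => ?_⟩
  have hμ4 : μ ≤ ω / 10 := by
    have : δ ^ 4 * ω ^ 3 = (δ ^ 2 * ω) ^ 2 * ω := by ring
    have h7 : (δ ^ 2 * ω) ^ 2 ≤ 1 / 10 := by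
      have : 0 ≤ δ ^ 2 * ω := by positivity
      nlinarith only [this, hδω]
    nlinarith only [this, h7, hμ1, hω0]
  have hAF : 1 ≤ 2 * (A * F i) := by
    have h7 : ω * (1 / 2) ≤ ω * (A * F i) := by
      have := (le_abs_self _).trans (htF i)
      nlinarith only [ht1 i, this, hμ4, hx3, hω0]
    have := le_of_mul_le_mul_left h7 hω0
    linarith only [this]
  have h9 : F i ^ 2 * (1 - 2 * δ * ω) ≤ s i := by
    have h7 : ρ * μ * F i * 1 ≤ ρ * μ * F i * (2 * (A * F i)) :=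
      mul_le_mul_of_nonneg_left hAF (by have := hF0 i; positivity)
    have h8 : ρ * μ * A * F i ^ 2 ≤ δ * ω * F i ^ 2 :=
      mul_le_mul_of_nonneg_right hμ2 (sq_nonneg _)
    linarith only [h7, h8, hsF i]
  have h10 : T ≤ F i ^ 2 * (1 + 8 * δ ^ 2 * ω) := by
    have h7 : 1 ≤ (2 * (A * F i)) ^ 2 := one_le_pow₀ hAF
    have h8 : μ ^ 2 * 1 ≤ μ ^ 2 * (2 * (A * F i)) ^ 2 := mul_le_mul_of_nonneg_left h7 (sq_nonneg _)
    have h11 : μ ^ 2 * A ^ 2 ≤ δ ^ 2 * ω := hμ3.trans (by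
      have : ω ^ 2 ≤ ω := by nlinarith only [hω0, hω1]
      exact mul_le_mul_of_nonneg_left this (sq_nonneg _))
    have h12 := mul_le_mul_of_nonneg_right h11 (sq_nonneg (F i))
    linarith only [h8, h12, hT i]
  have h11 : 1 - q i ≤ 1 - ω + 4.5 * δ * ω := by
    have h7 := (abs_le.mp (herr i)).1
    have h8 : e ≤ 0.4 * δ * ω := by
      have h12 : δ * ω * (3 + x) / 2 ≤ 0.4 := by nlinarith only [mul_pos hδ0 hω0, hx2, hδ, hω1, hδ0, hω0]
      calc e = δ * ω * (δ * ω * (3 + x) / 2) := by rw [he]; ring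
        _ ≤ δ * ω * 0.4 := mul_le_mul_of_nonneg_left h12 (by positivity)
        _ = _ := by ring
    nlinarith only [h7, h8, hx1, hω0]
  have h12 : 1 ≤ ((1 + p i) * (1 - ω + 4.5 * δ * ω)) ^ 2 := by
    refine one_le_pow₀ ?_
    have := mul_le_mul_of_nonneg_left h11 (by linarith only [hδ0, hδ, hp i] : 0 ≤ 1 + p i)
    linarith only [this, hpq i]
  have h13 := scalar_final hρ hδ0 hρδ hω0 hω1 hω
  have h14 : 0 ≤ (1 + p i) ^ 2 * F i ^ 2 := by positivity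
  rw [hn]
  calc A ^ 2 * (1 + 2 * δ ^ 2 * ω) * T
      ≤ A ^ 2 * (1 + 2 * δ ^ 2 * ω) * (F i ^ 2 * (1 + 8 * δ ^ 2 * ω)) :=
        mul_le_mul_of_nonneg_left h10 (by positivity)
    _ = A ^ 2 * (1 + 2 * δ ^ 2 * ω) * (F i ^ 2 * (1 + 8 * δ ^ 2 * ω)) * 1 := (mul_one _).symm
    _ ≤ A ^ 2 * (1 + 2 * δ ^ 2 * ω) * (F i ^ 2 * (1 + 8 * δ ^ 2 * ω)) *
          ((1 + p i) * (1 - ω + 4.5 * δ * ω)) ^ 2 :=
        mul_le_mul_of_nonneg_left h12 (by positivity)
    _ = A ^ 2 * ((1 + p i) ^ 2 * F i ^ 2) *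
          ((1 - ω + 4.5 * δ * ω) ^ 2 * (1 + 8 * δ ^ 2 * ω) * (1 + 2 * δ ^ 2 * ω)) := by ring
    _ ≤ A ^ 2 * ((1 + p i) ^ 2 * F i ^ 2) *
          ((1 - ω) ^ 2 * (1 + 30 * ρ * δ * ω) * (1 - 2 * δ * ω)) :=
        mul_le_mul_of_nonneg_left h13 (by positivity)
    _ = (1 - ω) ^ 2 * A ^ 2 * (1 + 30 * ρ * δ * ω) *
          ((1 + p i) ^ 2 * (F i ^ 2 * (1 - 2 * δ * ω))) := by ring
    _ ≤ _ := mul_le_mul_of_nonneg_left (mul_le_mul_of_nonneg_left h9 (sq_nonneg _))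
        (by positivity)

end Pool.Agent.Work.MP_6a50bc_pr.PrimalAux
end

-- merged part: Pool.Agent.Work.MP_6a50bc_pr.Primal
section
namespace Pool.Agent.Work.MP_6a50bc_pr

open MeasureTheory ProbabilityTheory Matrix Finset
open scoped ENNReal

variable {ι κ : Type*} [Fintype ι] [DecidableEq ι] [Fintype κ] [DecidableEq κ]

namespace PrimalAux

/-- The shifted Gram matrix with the point `i` left out. -/
noncomputable def looM (u : ℝ) (x : ι → κ → ℝ) (i : ι) : Matrix κ κ ℝ :=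
  u • (1 : Matrix κ κ ℝ) - gram 1 x + vecMulVec (x i) (x i)

omit [Fintype κ] in
lemma looM_update (u : ℝ) (x : ι → κ → ℝ) (i : ι) (g : κ → ℝ) :
    looM u (Function.update x i g) i = looM u x i := by
  have h : ∀ y : ι → κ → ℝ,
      looM u y i = u • (1 : Matrix κ κ ℝ) - ∑ j ∈ univ.erase i, vecMulVec (y j) (y j) := by
    intro y
    rw [looM, gram, ← add_sum_erase _ _ (mem_univ i)]
    simp only [Pi.one_apply, one_smul]
    abel
  rw [h, h]
  congr 1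
  exact sum_congr rfl fun j hj => by rw [Function.update_of_ne (ne_of_mem_erase hj)]

omit [Fintype κ] [DecidableEq ι] in
lemma shift_isHermitian (u : ℝ) (x : ι → κ → ℝ) :
    (u • (1 : Matrix κ κ ℝ) - gram 1 x).IsHermitian := by
  rw [isHermitian_iff, transpose_sub, transpose_smul, transpose_one,
    isHermitian_iff.mp (gram_isHermitian 1 x)]

omit [Fintype κ] [DecidableEq ι] in
lemma looM_isHermitian (u : ℝ) (x : ι → κ → ℝ) (i : ι) : (looM u x i).IsHermitian :=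
  (shift_isHermitian u x).add (isHermitian_vv _)

omit [Fintype κ] [DecidableEq ι] in
lemma continuous_looM (u : ℝ) (i : ι) : Continuous fun x : ι → κ → ℝ => looM u x i := by
  unfold looM
  refine (continuous_const.sub (continuous_gram continuous_const continuous_id)).add
    (continuous_matrix fun a b => ?_)
  simp only [vecMulVec_apply]
  fun_prop

lemma loo_tail {T : (ι → κ → ℝ) → ι → Matrix κ κ ℝ} (hc : ∀ i, Continuous fun x => T x i)
    (hH : ∀ x i, (T x i).IsHermitian) (hu : ∀ x i g, T (Function.update x i g) i = T x i)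
    (ρ : ℝ) :
    gm ι κ {x | ∃ i, ρ * fro (T x i) < |cq (T x i) (x i)|} ≤
      ENNReal.ofReal (3 * Fintype.card ι * Real.exp (-ρ / 4)) := by
  have h := union_loo_le (ι := ι) (κ := κ) (B := fun i => {x | ρ * fro (T x i) < |cq (T x i) (x i)|})
    (fun i => (isOpen_lt (continuous_const.mul (continuous_fro (hc i)))
      (continuous_cq (hc i) (continuous_apply i)).abs).measurableSet) Set.univ
    (p := ENNReal.ofReal (3 * Real.exp (-ρ / 4))) (fun i x _ => by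
      simp only [Set.mem_ofPred_eq, hu, Function.update_self]
      exact tail_cq (hH x i) ρ)
  rw [Set.compl_univ, measure_empty, zero_add] at h
  refine h.trans (le_of_eq ?_)
  rw [← ENNReal.ofReal_natCast, ← ENNReal.ofReal_mul (Nat.cast_nonneg _)]
  congr 1
  ring

omit [DecidableEq κ] in
lemma cq_smul_le {N : Matrix κ κ ℝ} {g : κ → ℝ} {ρ : ℝ} (h : |cq N g| ≤ ρ * fro N) (c : ℝ) :
    |cq (c • N) g| ≤ ρ * fro (c • N) := by
  rw [cq_smul, fro_smul, abs_mul, mul_left_comm]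
  exact mul_le_mul_of_nonneg_left h (abs_nonneg c)

omit [DecidableEq ι] in
lemma primal_det {ρ δ ω A u : ℝ} (hρ : 1 ≤ ρ) (hδ0 : 0 < δ)
    (hρδ : ρ * δ ≤ 1 / 100) (hω0 : 0 < ω) (hω : 1 ≤ 2 * ρ * (1 - ω)) (hA : 0 < A)
    (hs : ρ ≤ δ ^ 3 * ω ^ 2 * A) (hn : (Fintype.card ι : ℝ) = (1 - ω) ^ 2 * A ^ 2)
    (hd : √(Fintype.card κ) = ω * A) (hu : u = A ^ 2 * (1 + 2 * δ ^ 2 * ω)) {x : ι → κ → ℝ}
    (h1 : opn (Matrix.of x) ^ 2 ≤ u - δ ^ 2 * ω * A ^ 2)
    (h2 : ∀ i, |cq (looM u x i)⁻¹ (x i)| ≤ ρ * fro (looM u x i)⁻¹)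
    (h3 : ∀ i, |cq ((looM u x i)⁻¹ * (looM u x i)⁻¹) (x i)| ≤
      ρ * fro ((looM u x i)⁻¹ * (looM u x i)⁻¹)) :
    (∀ v, qf (gram 1 x) v ≤ u * (v ⬝ᵥ v)) ∧
      (∀ Y : Matrix κ κ ℝ, 2 * Y.trace - ip (u • (1 : Matrix κ κ ℝ) - gram 1 x) (Y * Yᵀ) ≤
        2 * ω) ∧
      ∃ S : Matrix κ κ ℝ, S.PosSemidef ∧ (∀ i, (Fintype.card κ : ℝ) ≤ qf S (x i)) ∧
        u * S.trace ≤ Fintype.card ι * Fintype.card κ * (1 + 30 * ρ * δ * ω) := by
  set m := δ ^ 2 * ω * A ^ 2 with hmdef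
  have hm : 0 < m := by positivity
  have hW : ∀ v, qf (gram 1 x) v ≤ (u - m) * (v ⬝ᵥ v) := fun v => by
    rw [qf_gram_one]
    refine (pow_le_pow_left₀ (nrm_nonneg _) (nrm_mulVec_le _ v) 2).trans ?_
    rw [mul_pow, nrm_sq]
    exact mul_le_mul_of_nonneg_right h1 (dot_self_nonneg v)
  have hMH := shift_isHermitian u x
  have hlow : ∀ v, m * (v ⬝ᵥ v) ≤ qf (u • (1 : Matrix κ κ ℝ) - gram 1 x) v := fun v => by
    rw [qf_sub, qf_smul, qf_one]
    linarith only [hW v]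
  obtain ⟨hi1, hi2, -, -⟩ := inv_lower hMH hm hlow
  have htr := trace_res rfl hi1
  have hl := fun i => loo_res hMH hm hlow (x i) rfl (R' := (looM u x i)⁻¹) rfl
  set R := (u • (1 : Matrix κ κ ℝ) - gram 1 x)⁻¹ with hR
  have hd2 : (Fintype.card κ : ℝ) = ω ^ 2 * A ^ 2 := by
    rw [← mul_pow, ← hd, Real.sq_sqrt (Nat.cast_nonneg _)]
  obtain ⟨hG1, hG2, hG3⟩ := scalar_main (μ := m⁻¹) (G := R.trace) (T := fro R ^ 2)
    (p := fun i => qf R (x i)) (q := fun i => qf (looM u x i)⁻¹ (x i))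
    (t := fun i => (looM u x i)⁻¹.trace) (F := fun i => fro (looM u x i)⁻¹)
    (s := fun i => qf ((looM u x i)⁻¹ * (looM u x i)⁻¹) (x i)) hρ hδ0 hρδ hω0 hω hA
    (inv_pos.mpr hm) (inv_mul_cancel₀ hm.ne') hs hn hi2.trace_nonneg (by rw [← hu, ← hd2, htr])
    (fun i => (hl i).1) (fun i => (hl i).2.1) (fun i => (hl i).2.2.1) (fun i => (hl i).2.2.2.1)
    (fun i => fro_nonneg _) (fun i => (hl i).2.2.2.2.1) (fun i => (hl i).2.2.2.2.2.1)
    (fun i => hd ▸ abs_trace_le _) h2 (fun i => by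
      have h4 := (abs_le.mp (h3 i)).1
      rw [cq, trace_mul_self (looM_isHermitian u x i).inv] at h4
      have h5 := mul_le_mul_of_nonneg_left (hl i).2.2.2.2.2.2.2 (by linarith only [hρ] : 0 ≤ ρ)
      linarith only [h4, h5])
  refine ⟨fun v => (hW v).trans (mul_le_mul_of_nonneg_right (by linarith) (dot_self_nonneg v)),
    fun Y => (two_trace_sub_le (posSemidef_iff_qf.mpr ⟨hMH, fun v =>
      (mul_nonneg hm.le (dot_self_nonneg v)).trans (hlow v)⟩) hi1 Y).trans hG1, ?_⟩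
  have hT : 0 < fro R ^ 2 := by
    refine pow_pos ((fro_nonneg R).lt_of_ne fun h0 => ?_) 2
    have h4 := (le_abs_self _).trans (abs_trace_le R)
    rw [← h0, mul_zero] at h4
    linarith only [hG2, h4]
  have hu0 : 0 < u := by rw [hu]; positivity
  set lam := (Fintype.card ι : ℝ) * (1 + 30 * ρ * δ * ω) with hlam
  have hlam0 : 0 ≤ lam := by positivity
  refine ⟨(Fintype.card κ * lam / (u * fro R ^ 2)) • (R * R),
    (posSemidef_mul_self hi2.1).smul (by positivity), fun i => ?_, le_of_eq ?_⟩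
  · rw [qf_smul, (hl i).2.2.2.2.2.2.1, div_mul_eq_mul_div, le_div_iff₀ (by positivity), mul_assoc]
    refine mul_le_mul_of_nonneg_left ?_ (Nat.cast_nonneg _)
    have := hG3 i
    rwa [← hu] at this
  · rw [trace_smul, trace_mul_self hi2.1, smul_eq_mul, hlam]
    generalize fro R ^ 2 = T at hT
    field_simp

end PrimalAux

open PrimalAux in
/-- An almost optimal feasible point built from the resolvent at the spectral edge. -/
theorem primal [Nonempty ι] [Nonempty κ] {ρ ε A u : ℝ} (hρ : 1 ≤ ρ) (hε : 0 < ε)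
    (hρε : ρ * √ε ≤ 1 / 100) (hn : (Fintype.card κ : ℝ) / ρ ^ 2 ≤ Fintype.card ι)
    (hA : A = √(Fintype.card ι) + √(Fintype.card κ))
    (hu : u = A ^ 2 + 2 * ε * √(Fintype.card κ) * A)
    (hsmall : ρ * A ≤ ε * √ε * Fintype.card κ) :
    gm ι κ {x | ¬ ((∀ v, qf (gram 1 x) v ≤ u * (v ⬝ᵥ v)) ∧
        (∀ Y : Matrix κ κ ℝ, 2 * Y.trace - ip (u • (1 : Matrix κ κ ℝ) - gram 1 x) (Y * Yᵀ) ≤
          2 * (√(Fintype.card κ) / A)) ∧
        ∃ S : Matrix κ κ ℝ, S.PosSemidef ∧ (∀ i, (Fintype.card κ : ℝ) ≤ qf S (x i)) ∧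
          u * S.trace ≤ Fintype.card ι * Fintype.card κ *
            (1 + 30 * ρ * √ε * (√(Fintype.card κ) / A)))} ≤
      ENNReal.ofReal (8 * Fintype.card ι * Real.exp (-ρ / 4)) := by
  have hn1 : (1 : ℝ) ≤ Fintype.card ι := by exact_mod_cast Fintype.card_pos
  have hd1 : (1 : ℝ) ≤ Fintype.card κ := by exact_mod_cast Fintype.card_pos
  have ha2 : √(Fintype.card κ : ℝ) ^ 2 = Fintype.card κ := Real.sq_sqrt (Nat.cast_nonneg _)
  have hb2 : √(Fintype.card ι : ℝ) ^ 2 = Fintype.card ι := Real.sq_sqrt (Nat.cast_nonneg _)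
  have hδ2 : √ε ^ 2 = ε := Real.sq_sqrt hε.le
  have ha0 : 0 < √(Fintype.card κ : ℝ) := Real.sqrt_pos.mpr (by linarith only [hd1])
  have hb0 : 0 < √(Fintype.card ι : ℝ) := Real.sqrt_pos.mpr (by linarith)
  have hδ0 : 0 < √ε := Real.sqrt_pos.mpr hε
  have htail := opn_tail (ι := ι) (κ := κ) (t := 2 * ρ) (by linarith)
  have hdet := fun x => primal_det (ι := ι) (κ := κ) (ρ := ρ) (δ := √ε)
    (ω := √(Fintype.card κ) / A) (A := A) (u := u) (x := x) hρ hδ0 hρε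
  set a := √(Fintype.card κ : ℝ) with ha
  set b := √(Fintype.card ι : ℝ) with hb
  set δ := √ε with hδ
  have hA0 : 0 < A := by rw [hA]; positivity
  have hab : a ≤ ρ * b := by
    rw [div_le_iff₀ (by positivity), ← ha2, ← hb2] at hn
    exact (abs_le_of_sq_le_sq' (by nlinarith only [hn]) (by positivity)).2
  have hωA : a / A * A = a := by field_simp
  have hω1 : (1 - a / A) * A = b := by rw [sub_mul, hωA, hA]; ring
  have hω : 1 ≤ 2 * ρ * (1 - a / A) := by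
    refine le_of_mul_le_mul_right ?_ hA0
    rw [mul_assoc, hω1, hA]
    nlinarith only [hab, hρ, hb0]
  have hs : ρ ≤ δ ^ 3 * (a / A) ^ 2 * A := by
    refine le_of_mul_le_mul_right ?_ hA0
    calc ρ * A ≤ ε * δ * Fintype.card κ := hsmall
      _ = δ ^ 3 * (a / A * A) ^ 2 := by rw [hωA, ← ha2, ← hδ2]; ring
      _ = _ := by ring
  have hu' : u = A ^ 2 * (1 + 2 * δ ^ 2 * (a / A)) := by
    rw [hu, hδ2]; field_simp
  have hm : δ ^ 2 * (a / A) * A ^ 2 = ε * a * A := by rw [hδ2]; field_simp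
  have haA : a ≤ A := by linarith only [hb0, hA]
  have hδ1 : δ ≤ 1 / 100 := by nlinarith only [hρε, hρ, hδ0]
  have hεa : 100 * ρ ≤ ε * a := by
    have h1 : ρ * a ≤ δ * (ε * a) * a := by
      calc ρ * a ≤ ρ * A := mul_le_mul_of_nonneg_left haA (by linarith only [hρ, hδ0, hδ1])
        _ ≤ ε * δ * Fintype.card κ := hsmall
        _ = _ := by rw [← ha2]; ring
    have h2 := le_of_mul_le_mul_right h1 ha0
    nlinarith only [hρ, h2, hρε, hε, ha0, mul_pos hε ha0]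
  have h3 := fun k : Matrix κ κ ℝ → Matrix κ κ ℝ => fun hk : Continuous k =>
    fun hk' : ∀ M : Matrix κ κ ℝ, M.IsHermitian → (k M).IsHermitian =>
    loo_tail (ι := ι) (T := fun x i => k (looM u x i)) (fun i => hk.comp (continuous_looM u i))
      (fun x i => hk' _ (looM_isHermitian u x i)) (fun x i g => by rw [looM_update]) ρ
  have h4 := h3 adjugate (continuous_id.matrix_adjugate) fun M hM => hM.adjugate
  have h5 := h3 (fun M => adjugate M * adjugate M)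
    (continuous_id.matrix_adjugate.matrix_mul continuous_id.matrix_adjugate)
    fun M hM => (posSemidef_mul_self hM.adjugate).1
  have hE : 0 < Real.exp (-ρ / 4) := Real.exp_pos _
  refine le_trans (measure_mono (fun x hx => ?_)) (((measure_union_le _ _).trans
    (add_le_add ((measure_union_le _ _).trans (add_le_add htail h4)) h5)).trans ?_)
  · by_contra hc
    simp only [Set.mem_union, Set.mem_ofPred_eq, not_or, not_exists, not_lt, not_le] at hc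
    obtain ⟨⟨g1, g2⟩, g3⟩ := hc
    refine hx (hdet x (by positivity) hω hA0 hs (by rw [← mul_pow, hω1, hb2]) hωA.symm hu' ?_
      (fun i => ?_) fun i => ?_)
    · have h6 : opn (Matrix.of x) ≤ A + ε * a / 3 := by linarith only [hρ, hA, hδ0, hδ1, hεa, g1]
      refine (pow_le_pow_left₀ (opn_nonneg _) h6 2).trans ?_
      rw [hm, hu]
      have h7 : ε * a ≤ 1 * A := mul_le_mul (by nlinarith only [hδ2, hδ1, hρ, hρε, hδ0]) haA ha0.le zero_le_one
      have h8 := mul_le_mul_of_nonneg_left h7 (mul_pos hε ha0).le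
      nlinarith only [h8, mul_pos (mul_pos hε ha0) hA0]
    · rw [Matrix.inv_def]
      exact cq_smul_le (g2 i) _
    · rw [Matrix.inv_def, smul_mul_smul_comm]
      exact cq_smul_le (g3 i) _
  · rw [← ENNReal.ofReal_add (by positivity) (by positivity),
      ← ENNReal.ofReal_add (by positivity) (by positivity)]
    refine ENNReal.ofReal_le_ofReal ?_
    have h6 : Real.exp (-(2 * ρ) ^ 2 / 8) ≤ Real.exp (-ρ / 4) :=
      Real.exp_le_exp.mpr (by nlinarith only [hρ, hδ0, hδ1])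
    nlinarith only [h6, hn1, hE]

end Pool.Agent.Work.MP_6a50bc_pr
end
end
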