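import Pool.Agent.Work.MP_6a50bc_pr.LargeAux1
import Pool.Agent.Work.MP_6a50bc_pr.Net
import Pool.Agent.Work.MP_6a50bc_pr.LowerAux5
import Pool.Agent.Work.MP_6a50bc_pr.Primal

-- merged part: Pool.Agent.Work.MP_6a50bc_pr.SteinAux1
section
/-!
The Stein type inequality, by a second order upper bound along a Gaussian rotation.
-/

namespace Pool.Agent.Work.MP_6a50bc_pr

open MeasureTheory ProbabilityTheory Matrix Finset
open scoped ENNReal

variable {κ : Type*} [Fintype κ] [DecidableEq κ]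

namespace SteinAux

lemma ip_diagonal (m : κ → ℝ) (X : Matrix κ κ ℝ) : ip (diagonal m) X = ∑ j, m j * X j j := by
  unfold ip
  refine sum_congr rfl fun j _ => ?_
  rw [sum_eq_single j] <;> simp +contextual [diagonal_apply, eq_comm]

lemma add_sq_le {x y δ : ℝ} (hδ : 0 < δ) : (x + y) ^ 2 ≤ (1 + δ) * x ^ 2 + (1 + δ⁻¹) * y ^ 2 := by
  have h : 0 ≤ δ⁻¹ * (δ * x - y) ^ 2 := by positivity
  have e : δ⁻¹ * (δ * x - y) ^ 2 = δ * x ^ 2 - 2 * x * y + δ⁻¹ * y ^ 2 := by field_simp; ring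
  nlinarith only [h, e]

/-- The second order bound in the eigenbasis. -/
lemma det_bound {m ν : κ → ℝ} {w ω : κ → κ → ℝ} {η δ : ℝ} (hη : 0 < η) (hδ : 0 < δ)
    (hν : ∀ k, 0 ≤ ν k) (hm : ∀ j, 0 ≤ m j) (hw0 : ∀ j k, w j k = 0 ∨ η ≤ ν k)
    (hw1 : ∀ j k, w j k ^ 2 ≤ 1) (hd : ∀ j, m j * w j j = 0)
    (hω : ∀ j k, (1 - w j k - w k j) ^ 2 + 2 * (m j * (w j k ^ 2 / ν k)) ≤ ω j k)
    {C : Matrix κ κ ℝ} (hC : ∀ j k, C k j = C j k) :
    ∃ K : Matrix κ κ ℝ, fro (diagonal (m - ν) + C + spec (1 - K) ν) ^ 2 ≤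
      m ⬝ᵥ m + 2 * ∑ j, m j * C j j + (1 + δ) * ∑ j, ∑ k, ω j k * C j k ^ 2 +
        (1 + δ⁻¹) * (fro C ^ 2 / η) ^ 2 := by
  set K : Matrix κ κ ℝ := Matrix.of fun j k => C j k * w j k / ν k with hK
  have k1 : ∀ j k, K j k * ν k = C j k * w j k := fun j k => by
    rcases hw0 j k with h | h
    · simp [hK, h]
    · have := (hη.trans_le h).ne'
      simp only [hK, of_apply]
      field_simp
  have k2 : ∀ j k, ν k * (K j k * K j k) = w j k ^ 2 / ν k * C j k ^ 2 := fun j k => by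
    rw [← mul_assoc, mul_comm (ν k), k1]
    simp only [hK, of_apply]
    ring
  set E : Matrix κ κ ℝ := Matrix.of fun j k => C j k * (1 - w j k - w k j) with hE
  have e1 : diagonal (m - ν) + C + spec (1 - K) ν = diagonal m + (E + spec K ν) := by
    have : spec (1 - K) ν = diagonal ν - K * diagonal ν - diagonal ν * Kᵀ + spec K ν := by
      simp only [spec, transpose_sub, transpose_one, Matrix.sub_mul, Matrix.mul_sub,
        Matrix.one_mul, Matrix.mul_one]
      abel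
    rw [this]
    ext j k
    have a1 := k1 j k
    have a2 := k1 k j
    rw [hC j k] at a2
    simp only [Matrix.add_apply, Matrix.sub_apply, mul_diagonal, diagonal_mul, transpose_apply,
      hE, of_apply, diagonal_apply, Pi.sub_apply]
    split_ifs <;> linarith only [a1, a2]
  have q0 : (spec K ν).PosSemidef := spec_posSemidef K hν
  have q1 : ∀ j, spec K ν j j = ∑ k, w j k ^ 2 / ν k * C j k ^ 2 := fun j => by
    rw [spec_apply]; exact sum_congr rfl fun k _ => k2 j k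
  have q2 : fro (spec K ν) ≤ fro C ^ 2 / η := by
    refine (fro_le_trace q0).trans ?_
    rw [fro_sq, ip, sum_div, Matrix.trace]
    refine sum_le_sum fun j _ => ?_
    rw [diag_apply, q1, sum_div]
    refine sum_le_sum fun k _ => ?_
    rw [← sq, div_eq_inv_mul (C j k ^ 2)]
    gcongr
    rcases hw0 j k with h | h
    · rw [h]; simp [hη.le]
    · rw [← one_div]
      gcongr
      exact hw1 j k
  have e2 : fro (diagonal m + (E + spec K ν)) ^ 2 = m ⬝ᵥ m + 2 * ∑ j, m j * C j j +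
      2 * ∑ j, m j * spec K ν j j + fro (E + spec K ν) ^ 2 := by
    have a1 : ∑ j, m j * E j j = ∑ j, m j * C j j := sum_congr rfl fun j _ => by
      simp only [hE, of_apply]
      linear_combination (-2 * C j j) * hd j
    rw [fro_sq, ip_add_left, ip_add_right, ip_add_right _ (diagonal m),
      ip_comm (E + _) (diagonal m), ← fro_sq (E + _), ip_add_right, ip_diagonal, ip_diagonal,
      ip_diagonal, a1]
    simp only [diagonal_apply_eq, dotProduct]
    ring
  have e3 : fro (E + spec K ν) ^ 2 ≤ (1 + δ) * fro E ^ 2 + (1 + δ⁻¹) * (fro C ^ 2 / η) ^ 2 :=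
    (pow_le_pow_left₀ (fro_nonneg _) ((fro_add_le _ _).trans (add_le_add le_rfl q2)) 2).trans
      (add_sq_le hδ)
  have q3 : 0 ≤ ∑ j, m j * spec K ν j j := sum_nonneg fun j _ => mul_nonneg (hm j) (by
    rw [q1]; exact sum_nonneg fun k _ => by have := hν k; positivity)
  have e4 : fro E ^ 2 + 2 * ∑ j, m j * spec K ν j j ≤ ∑ j, ∑ k, ω j k * C j k ^ 2 := by
    rw [fro_sq, ip, mul_sum, ← sum_add_distrib]
    refine sum_le_sum fun j _ => ?_
    rw [q1, mul_sum, mul_sum, ← sum_add_distrib]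
    refine sum_le_sum fun k _ => ?_
    simp only [hE, of_apply]
    nlinarith only [mul_le_mul_of_nonneg_right (hω j k) (sq_nonneg (C j k))]
  refine ⟨K, ?_⟩
  rw [e1, e2]
  nlinarith only [e3, e4, hδ, q3, mul_le_mul_of_nonneg_left e4 (show 0 ≤ 1 + δ by positivity), mul_nonneg hδ.le q3]

lemma ip_vv (a b c d : κ → ℝ) : ip (vecMulVec a b) (vecMulVec c d) = (a ⬝ᵥ c) * (b ⬝ᵥ d) := by
  simp only [ip, vecMulVec_apply, dotProduct, sum_mul_sum]
  exact sum_congr rfl fun i _ => sum_congr rfl fun j _ => by ring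

/-- The symmetric matrix representing one entry in the basis `U`. -/
noncomputable def SS (U : Matrix κ κ ℝ) (j k : κ) : Matrix κ κ ℝ :=
  (1 / 2 : ℝ) • (vecMulVec (Uᵀ j) (Uᵀ k) + vecMulVec (Uᵀ k) (Uᵀ j))

lemma fro_SS {U : Matrix κ κ ℝ} (hU : Orth U) (j k : κ) :
    fro (SS U j k) ^ 2 = (1 + if j = k then 1 else 0) / 2 := by
  simp only [fro_sq, SS, ip_smul_left, ip_smul_right, ip_add_left, ip_add_right, ip_vv,
    hU.col_dot_self, hU.col_dot j k, dotProduct_comm (Uᵀ k) (Uᵀ j)]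
  split_ifs <;> norm_num

lemma conj_apply (U A : Matrix κ κ ℝ) (j k : κ) :
    (Uᵀ * A * U) j k = ip A (vecMulVec (Uᵀ j) (Uᵀ k)) := by
  simp only [ip, mul_apply, vecMulVec_apply, transpose_apply, sum_mul]
  rw [sum_comm]
  exact sum_congr rfl fun i _ => sum_congr rfl fun j _ => by ring

lemma conj_goe (U : Matrix κ κ ℝ) (B : κ → κ → ℝ) (j k : κ) :
    (Uᵀ * goe 0 B * U) j k = ip (Matrix.of B) (SS U j k) := by
  rw [conj_apply, goe, zero_smul, sub_zero, SS, ip_smul_left, ip_smul_right, ip_add_left,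
    ip_add_right, ← ip_transpose (Matrix.of B)ᵀ, transpose_transpose, transpose_vecMulVec]

lemma integrable_ip (S : Matrix κ κ ℝ) :
    Integrable (fun B : κ → κ → ℝ => ip (Matrix.of B) S) (gm κ κ) :=
  integrable_gm_of_le_pow (Continuous.aestronglyMeasurable (by fun_prop)) (fro S) 1 fun B => by
    have := abs_ip_le (Matrix.of B) S
    have := fro_nonneg S
    nlinarith

lemma integrable_ip_sq (S : Matrix κ κ ℝ) :
    Integrable (fun B : κ → κ → ℝ => ip (Matrix.of B) S ^ 2) (gm κ κ) :=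
  integrable_gm_of_le_pow (Continuous.aestronglyMeasurable (by fun_prop)) (fro S ^ 2) 2 fun B => by
    have h1 := fro_nonneg S
    have h2 := fro_nonneg (Matrix.of B)
    rw [abs_pow, ← mul_pow]
    refine pow_le_pow_left₀ (abs_nonneg _) ((abs_ip_le _ _).trans ?_) 2
    nlinarith only [h1]

lemma integrable_fro_pow (k : ℕ) :
    Integrable (fun B : κ → κ → ℝ => fro (Matrix.of B) ^ k) (gm κ κ) :=
  integrable_gm_of_le_pow (Continuous.aestronglyMeasurable (by fun_prop)) 1 k fun B => by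
    have h2 := fro_nonneg (Matrix.of B)
    rw [one_mul, abs_of_nonneg (by positivity)]
    gcongr
    linarith

lemma affine (x b : ℝ) (S : Matrix κ κ ℝ) :
    Integrable (fun B : κ → κ → ℝ => x + b * ip (Matrix.of B) S) (gm κ κ) ∧
      ∫ B, (x + b * ip (Matrix.of B) S) ∂(gm κ κ) = x := by
  have h := (integrable_ip S).const_mul b
  refine ⟨(integrable_const x).add h, ?_⟩
  rw [integral_add (integrable_const x) h, integral_const_mul, integral_ip]
  simp

lemma affine_sq (x b : ℝ) (S : Matrix κ κ ℝ) :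
    Integrable (fun B : κ → κ → ℝ => (x + b * ip (Matrix.of B) S) ^ 2) (gm κ κ) ∧
      ∫ B, (x + b * ip (Matrix.of B) S) ^ 2 ∂(gm κ κ) = x ^ 2 + b ^ 2 * fro S ^ 2 := by
  have e : (fun B : κ → κ → ℝ => (x + b * ip (Matrix.of B) S) ^ 2) = fun B =>
      (x ^ 2 + 2 * x * b * ip (Matrix.of B) S) + b ^ 2 * ip (Matrix.of B) S ^ 2 := by
    funext B; ring
  obtain ⟨h1, h2⟩ := affine (x ^ 2) (2 * x * b) S
  have h := (integrable_ip_sq S).const_mul (b ^ 2)
  rw [e]
  exact ⟨h1.add h, by rw [integral_add h1 h, h2, integral_const_mul, integral_ip_sq]⟩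

/-- The choice of the weights. -/
lemma weights (l : κ → ℝ) {τ η c : ℝ} (hη : 0 < η) (hτ : η ≤ τ) (c0 : 0 ≤ c) (c1 : c ≤ 1)
    (hc : ∀ j k, l k ≤ 0 → c * max (l j - τ) 0 ≤ (1 - c) * (τ - l k)) :
    ∃ w ω : κ → κ → ℝ, (∀ j k, w j k = 0 ∨ η ≤ max (τ - l k) 0) ∧ (∀ j k, w j k ^ 2 ≤ 1) ∧
      (∀ j, max (l j - τ) 0 * w j j = 0) ∧
      (∀ j k, (1 - w j k - w k j) ^ 2 +
        2 * (max (l j - τ) 0 * (w j k ^ 2 / max (τ - l k) 0)) ≤ ω j k) ∧ (∀ j, ω j j ≤ 1) ∧
      ∑ j, ω j j = (univ.filter fun j => τ - η < l j).card ∧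
      ∑ j, ∑ k, ω j k = 2 * Fintype.card κ * (univ.filter fun j => τ - η < l j).card -
        ((univ.filter fun j => τ - η < l j).card : ℝ) ^ 2 -
        2 * c * ((univ.filter fun j => τ - η < l j).card * (univ.filter fun j => l j ≤ 0).card) := by
  set p : κ → ℝ := fun j => if τ - η < l j then 1 else 0 with hp
  set f : κ → ℝ := fun j => if l j ≤ 0 then 1 else 0 with hf
  have pf : ∀ j, τ - η < l j → ¬ l j ≤ 0 := fun j h => by linarith
  have pm : ∀ j, ¬ τ - η < l j → max (l j - τ) 0 = 0 := fun j h => max_eq_right (by linarith)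
  have dg : ∀ j, p j + p j - p j * p j - c ^ 2 * (p j * f j) - (2 * c - c ^ 2) * (f j * p j) =
      p j := fun j => by
    by_cases h : τ - η < l j
    · simp [hp, hf, h, pf j h]
    · simp [hp, h]
  have sp : ∑ j, p j = (univ.filter fun j => τ - η < l j).card := by simp [hp]
  have sf : ∑ j, f j = (univ.filter fun j => l j ≤ 0).card := by simp [hf]
  refine ⟨fun j k => (1 - p j) * (1 - p k) / 2 + c * (p j * f k), fun j k =>
    p j + p k - p j * p k - c ^ 2 * (p j * f k) - (2 * c - c ^ 2) * (f j * p k), fun j k => ?_,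
    fun j k => ?_, fun j => ?_, fun j k => ?_, fun j => ?_, ?_, ?_⟩
  · by_cases h : τ - η < l k
    · left; simp [hp, hf, h, pf k h]
    · right; exact le_max_of_le_left (by linarith)
  · simp only [hp, hf]
    split_ifs <;> nlinarith
  · by_cases h : τ - η < l j
    · simp [hp, hf, h, pf j h]
    · simp [pm j h]
  · by_cases h : τ - η < l j
    · by_cases h' : τ - η < l k
      · simp [hp, hf, h, h', pf j h, pf k h']
      · by_cases h'' : l k ≤ 0
        · have a1 : 0 < τ - l k := by linarith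
          have a2 : max (l j - τ) 0 * (c ^ 2 / (τ - l k)) ≤ c * (1 - c) := by
            rw [← mul_div_assoc, div_le_iff₀ a1]
            nlinarith only [h'', c0, mul_le_mul_of_nonneg_left (hc j k h'') c0]
          simp only [hp, hf, h, h', h'', pf j h, if_true, if_false, max_eq_left a1.le]
          norm_num
          nlinarith only [a2]
        · simp [hp, hf, h, h', h'', pf j h]
    · rw [pm j h]
      by_cases h' : τ - η < l k
      · simp only [hp, hf, h, h', pf k h', if_true, if_false]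
        split_ifs <;> nlinarith only []
      · simp only [hp, h, h', if_false]
        norm_num
  · simp only [dg]
    simp only [hp]
    split_ifs <;> norm_num
  · simp only [dg, sp]
  · simp only [sum_sub_distrib, sum_add_distrib, ← mul_sum, ← sum_mul, sp, sf, sum_const,
      card_univ, nsmul_eq_mul]
    ring

lemma goe_spec {B : κ → κ → ℝ} {U : Matrix κ κ ℝ} {l : κ → ℝ} (hU : Orth U)
    (hB : goe 0 B = spec U l) (τ : ℝ) : goe τ B = spec U fun j => l j - τ := by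
  rw [goe_eq, hB, ← spec_const hU, ← spec_sub]
  rfl

lemma goe_comb (τ a b : ℝ) (B B' : κ → κ → ℝ) :
    goe τ (a • B + b • B') = goe τ B + ((a - 1) • goe 0 B + b • goe 0 B') := by
  ext i j
  simp [goe]
  ring

/-- The expectation over the fresh matrix. -/
lemma inner_bound {B : κ → κ → ℝ} {U : Matrix κ κ ℝ} {l : κ → ℝ} (hU : Orth U)
    (hB : goe 0 B = spec U l) {τ η c a b : ℝ} (hη : 0 < η) (hτ : η ≤ τ) (c0 : 0 ≤ c) (c1 : c ≤ 1)
    (hc : ∀ j k, l k ≤ 0 → c * max (l j - τ) 0 ≤ (1 - c) * (τ - l k))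
    (hab : a ^ 2 + b ^ 2 = 1) (ha : 0 ≤ a) (hb : 0 < b) :
    ∫ B', fro (pos (goe τ (a • B + b • B'))) ^ 2 ∂(gm κ κ) ≤ fro (pos (goe τ B)) ^ 2 -
      b ^ 2 * (fro (pos (goe τ B)) ^ 2 + τ * (pos (goe τ B)).trace) +
      (1 + b) * b ^ 2 * (((univ.filter fun j => τ - η < l j).card : ℝ) *
        (Fintype.card κ - (univ.filter fun j => τ - η < l j).card) +
        (univ.filter fun j => τ - η < l j).card * ((univ.filter fun j => τ - η < l j).card + 1) / 2 -
        c * ((univ.filter fun j => τ - η < l j).card * (univ.filter fun j => l j ≤ 0).card)) +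
      b ^ 3 * (2 * fro (Matrix.of B) ^ 2 + 16 / η ^ 2 *
        (fro (Matrix.of B) ^ 4 + ∫ B', fro (Matrix.of B') ^ 4 ∂(gm κ κ))) := by
  obtain ⟨w, ω, w0, w1, wd, wω, ω1, s1, s2⟩ := weights l hη hτ c0 c1 hc
  set m : κ → ℝ := fun j => max (l j - τ) 0 with hm
  set ν : κ → ℝ := fun j => max (τ - l j) 0 with hν
  have a1 : a ≤ 1 := by nlinarith only [hab, ha]
  have b1 : b ≤ 1 := by nlinarith only [hab, hb]
  have a2 : 1 - a ≤ b ^ 2 := by nlinarith only [hab, ha, a1]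
  have a3 : b ^ 2 ≤ 2 * (1 - a) := by nlinarith only [hab, a1, ha]
  have mν : m - ν = fun j => l j - τ := by
    funext j
    simp only [hm, hν, Pi.sub_apply]
    rcases le_total (l j) τ with h | h
    · rw [max_eq_right (by linarith), max_eq_left (by linarith)]; ring
    · rw [max_eq_left (by linarith), max_eq_right (by linarith)]; ring
  set Z : κ → κ → (κ → κ → ℝ) → ℝ := fun j k B' =>
    (a - 1) * diagonal l j k + b * ip (Matrix.of B') (SS U j k) with hZ
  have pt : ∀ B', fro (pos (goe τ (a • B + b • B'))) ^ 2 ≤ m ⬝ᵥ m + 2 * ∑ j, m j * Z j j B' +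
      (1 + b) * ∑ j, ∑ k, ω j k * Z j k B' ^ 2 +
      16 * b ^ 3 / η ^ 2 * (fro (Matrix.of B) ^ 4 + fro (Matrix.of B') ^ 4) := fun B' => by
    set C := (a - 1) • goe 0 B + b • goe 0 B' with hC
    have e1 : ∀ j k, (Uᵀ * C * U) j k = Z j k B' := fun j k => by
      rw [hC, Matrix.mul_add, Matrix.add_mul, Matrix.mul_smul, Matrix.mul_smul, Matrix.smul_mul,
        Matrix.smul_mul, Matrix.add_apply, Matrix.smul_apply, Matrix.smul_apply, conj_goe U B', hB,
        conj_spec hU]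
      rfl
    obtain ⟨K, hK⟩ := det_bound (m := m) (ν := ν) hη hb (fun _ => le_max_right _ _)
      (fun _ => le_max_right _ _) w0 w1 wd wω (C := Uᵀ * C * U) fun j k => by
        rw [e1, e1]
        simp only [hZ, SS, add_comm (vecMulVec (Uᵀ k) _), diagonal_apply, eq_comm (a := k)]
        split_ifs with h
        · rw [h]
        · rfl
    have e2 : Uᵀ * (goe τ (a • B + b • B') + spec (U * (1 - K)) ν) * U =
        diagonal (m - ν) + Uᵀ * C * U + spec (1 - K) ν := by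
      rw [goe_comb, ← hC, goe_spec hU hB τ, Matrix.mul_add, Matrix.mul_add, Matrix.add_mul,
        Matrix.add_mul, conj_spec hU, mν]
      congr 1
      have : Uᵀ * U = 1 := hU
      simp only [spec, transpose_mul, ← Matrix.mul_assoc, this, Matrix.one_mul]
      simp only [Matrix.mul_assoc, this, Matrix.mul_one]
    have e3 := fro_pos_le_fro_add (goe_isHermitian τ (a • B + b • B'))
      (spec_posSemidef (U * (1 - K)) (l := ν) fun _ => le_max_right _ _)
    rw [← fro_conj_orth hU (_ + _), e2] at e3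
    refine ((pow_le_pow_left₀ (fro_nonneg _) e3 2).trans hK).trans ?_
    simp only [e1, fro_conj_orth hU]
    refine add_le_add le_rfl ?_
    have x0 := fro_nonneg (Matrix.of B)
    have y0 := fro_nonneg (Matrix.of B')
    have e4 : fro C ≤ b * (fro (Matrix.of B) + fro (Matrix.of B')) := by
      clear * - κ a B b B' hb a1 b1 a2
      refine (fro_add_le _ _).trans ?_
      rw [fro_smul, fro_smul, abs_of_pos hb, abs_of_nonpos (by linarith only [a1]), mul_add]
      gcongr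
      · exact fro_nonneg _
      · nlinarith only [a2, hb, b1]
      · exact fro_goe_zero_le B
      · exact fro_goe_zero_le B'
    have e5 := add_pow_le x0 y0 4
    calc _ = (1 + b⁻¹) * fro C ^ 4 / η ^ 2 := by ring
      _ ≤ (1 + b⁻¹) * (b * (fro (Matrix.of B) + fro (Matrix.of B'))) ^ 4 / η ^ 2 := by
          clear * - b κ C B B' η e4 hb hη
          gcongr; exact fro_nonneg _
      _ = (b + 1) * b ^ 3 / η ^ 2 * (fro (Matrix.of B) + fro (Matrix.of B')) ^ 4 := by clear * - b κ B B' η hb hη; field_simp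
      _ ≤ (1 + 1) * b ^ 3 / η ^ 2 *
          (2 ^ (4 - 1) * (fro (Matrix.of B) ^ 4 + fro (Matrix.of B') ^ 4)) := by clear * - b η κ B B' b1 hb hη e5; gcongr
      _ = _ := by ring
  have i1 : Integrable (fun B' => ∑ j, m j * Z j j B') (gm κ κ) :=
    integrable_finset_sum _ fun j _ => (affine _ _ _).1.const_mul _
  have i2 : Integrable (fun B' => ∑ j, ∑ k, ω j k * Z j k B' ^ 2) (gm κ κ) :=
    integrable_finset_sum _ fun j _ => integrable_finset_sum _ fun k _ =>
      (affine_sq _ _ _).1.const_mul _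
  have i3 : Integrable (fun B' : κ → κ → ℝ => fro (Matrix.of B) ^ 4 + fro (Matrix.of B') ^ 4)
      (gm κ κ) := (integrable_const _).add (integrable_fro_pow 4)
  have v1 : ∫ B', ∑ j, m j * Z j j B' ∂(gm κ κ) = (a - 1) * (m ⬝ᵥ m + τ * ∑ j, m j) := by
    clear * - κ m Z a τ l b U hm
    rw [integral_finset_sum _ fun j _ => (affine _ _ _).1.const_mul _, dotProduct, mul_sum,
      ← sum_add_distrib, mul_sum]
    refine sum_congr rfl fun j _ => ?_
    rw [integral_const_mul, (affine _ _ _).2, diagonal_apply_eq]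
    simp only [hm]
    rcases le_total (l j - τ) 0 with h | h
    · simp [max_eq_right h]
    · rw [max_eq_left h]; ring
  have v2 : ∫ B', ∑ j, ∑ k, ω j k * Z j k B' ^ 2 ∂(gm κ κ) =
      b ^ 2 / 2 * (∑ j, ∑ k, ω j k + ∑ j, ω j j) + (a - 1) ^ 2 * ∑ j, ω j j * l j ^ 2 := by
    clear * - κ ω Z b a l U hU
    rw [integral_finset_sum _ fun j _ => integrable_finset_sum _ fun k _ =>
      (affine_sq _ _ _).1.const_mul _, ← sum_add_distrib, mul_sum, mul_sum, ← sum_add_distrib]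
    refine sum_congr rfl fun j _ => ?_
    have : ∀ k, ∫ B', ω j k * Z j k B' ^ 2 ∂(gm κ κ) = b ^ 2 / 2 * ω j k +
        if j = k then b ^ 2 / 2 * ω j j + (a - 1) ^ 2 * (ω j j * l j ^ 2) else 0 := fun k => by
      rw [integral_const_mul, (affine_sq _ _ _).2, fro_SS hU, diagonal_apply]
      split_ifs with h
      · rw [← h]; ring
      · ring
    rw [integral_finset_sum (f := fun k B' => ω j k * Z j k B' ^ 2) _
      fun k _ => (affine_sq _ _ _).1.const_mul _]
    simp only [this, sum_add_distrib, sum_ite_eq, mem_univ, if_true, ← mul_sum]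
    ring
  have v3 : ∑ j, ω j j * l j ^ 2 ≤ fro (Matrix.of B) ^ 2 := by
    refine le_trans ?_ (pow_le_pow_left₀ (fro_nonneg _) (fro_goe_zero_le B) 2)
    rw [hB, fro_spec hU, nrm_sq]
    exact sum_le_sum fun j _ => by nlinarith only [ω1 j, sq_nonneg (l j)]
  have f1 : fro (pos (goe τ B)) ^ 2 = m ⬝ᵥ m := by
    rw [goe_spec hU hB, pos_spec hU, fro_spec hU, nrm_sq]
  have f2 : (pos (goe τ B)).trace = ∑ j, m j := by
    rw [goe_spec hU hB, pos_spec hU, trace_spec hU]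
  have j1 := (integrable_const (m ⬝ᵥ m)).add (i1.const_mul 2)
  have j2 := j1.add (i2.const_mul (1 + b))
  refine (integral_mono_of_nonneg (ae_of_all _ fun _ => sq_nonneg _)
    (j2.add (i3.const_mul (16 * b ^ 3 / η ^ 2))) (ae_of_all _ pt)).trans ?_
  rw [integral_add' j2 (i3.const_mul _), integral_add' j1 (i2.const_mul _),
    integral_add' (integrable_const _) (i1.const_mul _), integral_const_mul, integral_const_mul,
    integral_const_mul, v1, v2, integral_add (integrable_const _) (integrable_fro_pow 4), s1, s2,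
    f1, f2]
  simp only [integral_const, probReal_univ, one_smul]
  have h0 : 0 ≤ m ⬝ᵥ m + τ * ∑ j, m j := add_nonneg (dot_self_nonneg m)
    (mul_nonneg (hη.le.trans hτ) (sum_nonneg fun _ _ => le_max_right _ _))
  have h1 : (1 + b) * ((a - 1) ^ 2 * ∑ j, ω j j * l j ^ 2) ≤
      b ^ 3 * (2 * fro (Matrix.of B) ^ 2) := by
    clear * - a b a1 a2 b1 hb κ ω l B v3 c1
    have c1 : (a - 1) ^ 2 ≤ b ^ 3 := by
      calc (a - 1) ^ 2 = (1 - a) ^ 2 := by ring
        _ ≤ (b ^ 2) ^ 2 := by gcongr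
        _ = b ^ 3 * b := by ring
        _ ≤ b ^ 3 * 1 := by gcongr
        _ = _ := mul_one _
    calc _ ≤ (1 + b) * ((a - 1) ^ 2 * fro (Matrix.of B) ^ 2) := by gcongr
      _ ≤ (1 + 1) * (b ^ 3 * fro (Matrix.of B) ^ 2) := by gcongr
      _ = _ := by ring
  have h2 := mul_le_mul_of_nonneg_right a3 h0
  have h3 : 16 * b ^ 3 / η ^ 2 = b ^ 3 * (16 / η ^ 2) := by ring
  rw [h3]
  clear * - κ m a τ b η l c ω B h1 h2; linarith only [h1, h2]

end SteinAux

open SteinAux in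
theorem stein_ineq' {τ η : ℝ} (hη : 0 < η) (hτ : η ≤ τ) (r : (κ → κ → ℝ) → ℝ)
    (hr : Integrable r (gm κ κ)) (hr2 : Integrable (fun B => r B ^ 2) (gm κ κ))
    (hrd : ∀ B, r B ≤ Fintype.card κ)
    (hcount : ∀ B U l, Orth U → goe 0 B = spec U l →
      ((univ.filter fun j : κ => τ - η < l j).card : ℝ) ≤ r B)
    {G : Set (κ → κ → ℝ)} (hG : MeasurableSet G) {M p : ℝ} (hM : 0 < M)
    (hp : ∀ B ∈ G, ∀ U l, Orth U → goe 0 B = spec U l → (∀ j : κ, l j ≤ M) ∧
      p ≤ ((univ.filter fun j : κ => τ - η < l j).card : ℝ) *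
        (univ.filter fun j : κ => l j ≤ 0).card) :
    mu2 κ τ + τ * mu1 κ τ ≤
      ∫ B, (r B * (Fintype.card κ - r B) + r B * (r B + 1) / 2) ∂(gm κ κ) -
        τ / (M + τ) * p * (gm κ κ).real G := by
  have τ0 : 0 < τ := hη.trans_le hτ
  set R : (κ → κ → ℝ) → ℝ := fun B => r B * (Fintype.card κ - r B) + r B * (r B + 1) / 2 with hR
  set I : (κ → κ → ℝ) → ℝ := G.indicator fun _ => τ / (M + τ) * p with hI
  set W : (κ → κ → ℝ) → ℝ := fun B => 2 * fro (Matrix.of B) ^ 2 + 16 / η ^ 2 *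
    (fro (Matrix.of B) ^ 4 + ∫ B', fro (Matrix.of B') ^ 4 ∂(gm κ κ)) with hW
  have iR : Integrable R (gm κ κ) := by
    have : R = fun B => (Fintype.card κ + 1 / 2) * r B - 1 / 2 * r B ^ 2 := by
      funext B; simp only [hR]; ring
    rw [this]
    exact (hr.const_mul _).sub (hr2.const_mul _)
  have iI : Integrable I (gm κ κ) := (integrable_const _).indicator hG
  have iW : Integrable W (gm κ κ) := ((integrable_fro_pow 2).const_mul _).add
    (((integrable_fro_pow 4).add (integrable_const _)).const_mul _)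
  have vI : ∫ B, I B ∂(gm κ κ) = τ / (M + τ) * p * (gm κ κ).real G := by
    rw [hI, integral_indicator_const _ hG, smul_eq_mul, mul_comm]
  have i1 := integrable_fro_pos_sq (κ := κ) τ
  have i2 := integrable_trace_pos (κ := κ) τ
  rw [← vI]
  set X := ∫ B, R B ∂(gm κ κ) - ∫ B, I B ∂(gm κ κ) with hX
  have key : ∀ b, 0 < b → b ≤ 1 → mu2 κ τ + τ * mu1 κ τ ≤ X + b * (X + ∫ B, W B ∂(gm κ κ)) := by
    intro b hb b1
    have hab : √(1 - b ^ 2) ^ 2 + b ^ 2 = 1 := by rw [Real.sq_sqrt (by nlinarith only [b1, hb])]; ring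
    set a := √(1 - b ^ 2)
    have mp := mp_comb (ι := κ) (κ := κ) hab
    have ic := mp.integrable_comp_of_integrable i1
    have e1 : mu2 κ τ = ∫ B, ∫ B', fro (pos (goe τ (a • B + b • B'))) ^ 2 ∂(gm κ κ) ∂(gm κ κ) := by
      have := integral_map (f := fun B : κ → κ → ℝ => fro (pos (goe τ B)) ^ 2)
        mp.measurable.aemeasurable (by rw [mp.map_eq]; exact i1.aestronglyMeasurable)
      rw [mp.map_eq] at this
      exact this.trans (integral_prod _ ic)
    have pt : ∀ B, ∫ B', fro (pos (goe τ (a • B + b • B'))) ^ 2 ∂(gm κ κ) ≤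
        fro (pos (goe τ B)) ^ 2 - b ^ 2 * (fro (pos (goe τ B)) ^ 2 + τ * (pos (goe τ B)).trace) +
        (1 + b) * b ^ 2 * (R B - I B) + b ^ 3 * W B := fun B => by
      clear * - κ B τ a b R I W η r hcount hrd hR G M p hp τ0 hM hη hτ hab hb hI
      obtain ⟨U, l, hU, hB⟩ := exists_spec (goe_isHermitian 0 B)
      have x1 := hcount B U l hU hB
      have x2 := hrd B
      have x3 : ((univ.filter fun j => τ - η < l j).card : ℝ) *
          (Fintype.card κ - (univ.filter fun j => τ - η < l j).card) +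
          (univ.filter fun j => τ - η < l j).card *
            ((univ.filter fun j => τ - η < l j).card + 1) / 2 ≤ R B := by
        simp only [hR]
        nlinarith only [x1, x2, mul_nonneg (sub_nonneg.mpr x1) (sub_nonneg.mpr x2), sq_nonneg
          (r B - (univ.filter fun j => τ - η < l j).card)]
      by_cases h : B ∈ G
      · obtain ⟨y1, y2⟩ := hp B h U l hU hB
        have c0 : 0 ≤ τ / (M + τ) := by positivity
        refine (inner_bound hU hB hη hτ c0 ((div_le_one (by positivity)).mpr (by linarith only [hM]))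
          (fun j k hk => ?_) hab (Real.sqrt_nonneg _) hb).trans ?_
        · rw [one_sub_div (by positivity), div_mul_eq_mul_div, div_mul_eq_mul_div]
          have : max (l j - τ) 0 ≤ M := max_le (by linarith only [hη, hτ, y1 j]) hM.le
          gcongr ?_ / _
          nlinarith only [hη, this, hτ, hM, hk]
        · rw [hI, Set.indicator_of_mem h]
          clear * - κ τ B b η l M R p W x3 y2 τ0 hM hb; gcongr
      · refine (inner_bound (c := 0) hU hB hη hτ le_rfl zero_le_one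
          (fun j k hk => by linarith only [hη, hτ, hk]) hab (Real.sqrt_nonneg _) hb).trans ?_
        rw [hI, Set.indicator_of_notMem h, zero_mul]
        gcongr
    have j1 := i1.add (i2.const_mul τ)
    have j2 := i1.sub (j1.const_mul (b ^ 2))
    have j3 := j2.add ((iR.sub iI).const_mul ((1 + b) * b ^ 2))
    have h := integral_mono ic.integral_prod_left (j3.add (iW.const_mul (b ^ 3))) pt
    rw [integral_add' j3 (iW.const_mul _), integral_add' j2 ((iR.sub iI).const_mul _),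
      integral_sub' i1 (j1.const_mul _), integral_const_mul, integral_const_mul,
      integral_const_mul, integral_add' i1 (i2.const_mul _), integral_const_mul,
      integral_sub' iR iI, ← hX] at h
    have h' : mu2 κ τ ≤ mu2 κ τ - b ^ 2 * (mu2 κ τ + τ * mu1 κ τ) + (1 + b) * b ^ 2 * X +
      b ^ 3 * ∫ B, W B ∂(gm κ κ) := e1.le.trans h
    refine le_of_mul_le_mul_left ?_ (pow_pos hb 2)
    linarith only [h']
  refine le_of_forall_pos_le_add fun ε hε => ?_
  set K := X + ∫ B, W B ∂(gm κ κ)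
  have k0 : 0 < ε + |K| := by positivity
  refine (key (ε / (ε + |K|)) (by positivity) ((div_le_one k0).mpr (by simp))).trans ?_
  rw [div_mul_eq_mul_div, add_le_add_iff_left, div_le_iff₀ k0]
  gcongr
  linarith only [hε, le_abs_self K]

end Pool.Agent.Work.MP_6a50bc_pr
end

-- merged part: Pool.Agent.Work.MP_6a50bc_pr.Stein
section
namespace Pool.Agent.Work.MP_6a50bc_pr

open MeasureTheory ProbabilityTheory Matrix Finset
open scoped ENNReal

variable {ι κ : Type*} [Fintype ι] [DecidableEq ι] [Fintype κ] [DecidableEq κ]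

/-- Stein type inequality.  `r B` bounds the number of eigenvalues above `τ - η`, and on the set `G`
at least `p` pairs (eigenvalue above `τ - η`, eigenvalue at most `0`) save the fraction `τ / (M + τ)`. -/
theorem stein_ineq {τ η : ℝ} (hη : 0 < η) (hτ : η ≤ τ) (r : (κ → κ → ℝ) → ℝ)
    (hr : Integrable r (gm κ κ)) (hr2 : Integrable (fun B => r B ^ 2) (gm κ κ))
    (hrd : ∀ B, r B ≤ Fintype.card κ)
    (hcount : ∀ B U l, Orth U → goe 0 B = spec U l →
      ((univ.filter fun j : κ => τ - η < l j).card : ℝ) ≤ r B)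
    {G : Set (κ → κ → ℝ)} (hG : MeasurableSet G) {M p : ℝ} (hM : 0 < M)
    (hp : ∀ B ∈ G, ∀ U l, Orth U → goe 0 B = spec U l → (∀ j : κ, l j ≤ M) ∧
      p ≤ ((univ.filter fun j : κ => τ - η < l j).card : ℝ) *
        (univ.filter fun j : κ => l j ≤ 0).card) :
    mu2 κ τ + τ * mu1 κ τ ≤
      ∫ B, (r B * (Fintype.card κ - r B) + r B * (r B + 1) / 2) ∂(gm κ κ) -
        τ / (M + τ) * p * (gm κ κ).real G :=
  stein_ineq' hη hτ r hr hr2 hrd hcount hG hM hp

open RG in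
theorem rank_gap (hd : 10 ^ 4 ≤ Fintype.card κ) {e n τ : ℝ} (he : 0 < e) (he1 : e ≤ 1)
    (hn : 100 * (Fintype.card κ : ℝ) ≤ n) (hn' : n ≤ (Fintype.card κ : ℝ) ^ 2)
    (hτ : e * √(Fintype.card κ) / 4 ≤ τ) (hτ' : τ ≤ 3 * √(Fintype.card κ))
    (ha : mu2 κ τ + τ * mu1 κ τ = n) (h1 : n / (4 * √(Fintype.card κ)) ≤ mu1 κ τ) :
    ∃ (r : ℕ) (Φ : (κ → κ → ℝ) → ℝ), r ≤ Fintype.card κ ∧
      n + e * n / 10 ^ 6 ≤ r * ((Fintype.card κ : ℝ) - r) + r * (r + 1) / 2 ∧
      Integrable Φ (gm κ κ) ∧ (∀ B, 0 ≤ Φ B) ∧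
      (∫ B, Φ B ∂(gm κ κ)) ^ 2 ≤ mu2 κ τ - e ^ 3 * n ^ 3 / (10 ^ 18 * (Fintype.card κ : ℝ) ^ 4) ∧
      ∀ B (U : Matrix κ κ ℝ) (l : κ → ℝ), Orth U → (∀ j, 0 ≤ l j) →
        (univ.filter fun j => l j ≠ 0).card < r →
        ip (pos (goe τ B)) (spec U l) ≤ Φ B * nrm l := by
  set d : ℝ := (Fintype.card κ : ℝ) with hdd
  have hd' : (10 : ℝ) ^ 4 ≤ d := by rw [hdd]; exact_mod_cast hd
  have hd0 : 0 < d := by linarith only [hd']
  have hn0 : 0 < n := by linarith only [hn, hd']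
  have hs2 : √d ^ 2 = d := Real.sq_sqrt hd0.le
  have hs : 0 < √d := Real.sqrt_pos.mpr hd0
  set s := √d with hsd
  have hen : e * n ≤ n := mul_le_of_le_one_left hn0.le he1
  have hen0 : 0 < e * n := mul_pos he hn0
  set η := e * n / (10 ^ 6 * d * s) with hηd
  have hη : 0 < η := by positivity
  have hηs : d * s * η = e * n / 10 ^ 6 := by rw [hηd]; field_simp
  have hτ0 : 0 < τ := lt_of_lt_of_le (by positivity) hτ
  have habs : |τ + 2 * η - τ| = 2 * η := by rw [add_sub_cancel_left, abs_of_pos (by positivity)]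
  -- the good set
  have hmu1 : 2 * (n / (10 * s)) ≤ mu1 κ (τ + 2 * η) := by
    have h2 := (abs_le.mp (abs_mu1_sub_le (κ := κ) (τ + 2 * η) τ)).1
    rw [habs, ← hdd] at h2
    have h3 : d * (2 * η) = 2 * (e * n / 10 ^ 6) / s := by rw [← hηs]; field_simp
    have h4 : 2 * (e * n / 10 ^ 6) / s ≤ (n / 20) / s :=
      div_le_div_of_nonneg_right (by linarith only [hn, hd', hen]) hs.le
    have h5 : n / (4 * s) = 2 * (n / (10 * s)) + (n / 20) / s := by field_simp; norm_num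
    linarith only [h1, h2, h3, h4, h5]
  have haa : 10 * s ≤ n / (10 * s) := by
    rw [le_div_iff₀ (by positivity)]
    linarith only [hn, hs2]
  have hG := half_le_goodG hd (t := τ + 2 * η) haa hmu1
  rw [← hdd, ← hsd] at hG
  have hst := stein_ineq (κ := κ) (τ := τ + 2 * η) hη (by linarith only [hη, hτ0]) (rk τ η) (integrable_rk τ η)
    (integrable_rk_sq τ hη) (rk_le τ hη)
    (fun B U l hU h => by
      rw [show τ + 2 * η - η = τ + η by ring]
      exact card_le_rk hU h τ hη)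
    (measurableSet_goodG (τ + 2 * η) (n / (10 * s)) (2 / 5 * d) (3 * s)) (M := 3 * s)
    (p := n / (10 * s) / (3 * s) * ((2 / 5 * d) ^ 2 / (3 * s) ^ 2)) (by positivity)
    (fun B hB U l hU h =>
      goodG_count (by positivity) (by positivity) (by linarith only [hη]) (by positivity) hB hU h)
  rw [← hdd] at hst
  have hp : n / (10 * s) / (3 * s) * ((2 / 5 * d) ^ 2 / (3 * s) ^ 2) = 2 * n / 3375 := by
    rw [← hs2]; field_simp; norm_num
  rw [hp] at hst
  have hfr : e / 13 ≤ (τ + 2 * η) / (3 * s + (τ + 2 * η)) := by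
    rw [div_le_div_iff₀ (by norm_num) (by positivity)]
    have h2 : e * (τ + 2 * η) ≤ τ + 2 * η := mul_le_of_le_one_left (by positivity) he1
    linarith only [hτ, hη, h2]
  have hgain : e / 13 * (2 * n / 3375) * (1 / 2) ≤ (τ + 2 * η) / (3 * s + (τ + 2 * η)) *
      (2 * n / 3375) * (gm κ κ).real (goodG (τ + 2 * η) (n / (10 * s)) (2 / 5 * d) (3 * s)) :=
    mul_le_mul (mul_le_mul_of_nonneg_right hfr (by positivity)) hG (by norm_num) (by positivity)
  have hlow := (abs_le.mp (abs_mu_sub_le (κ := κ) (τ + 2 * η) τ)).1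
  rw [habs, ha, ← hdd, ← hsd] at hlow
  -- Jensen
  set a := ∫ B, rk τ η B ∂(gm κ κ) with had
  have hJ := sq_integral_le_rg (integrable_rk (κ := κ) τ η) (integrable_rk_sq τ hη)
  rw [← had] at hJ
  have hint : ∫ B, (rk τ η B * (d - rk τ η B) + rk τ η B * (rk τ η B + 1) / 2) ∂(gm κ κ) =
      (d + 1 / 2) * a - 1 / 2 * ∫ B, rk τ η B ^ 2 ∂(gm κ κ) := by
    rw [had, ← integral_const_mul, ← integral_const_mul,
      ← integral_sub ((integrable_rk τ η).const_mul _) ((integrable_rk_sq τ hη).const_mul _)]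
    exact integral_congr_ae (Filter.Eventually.of_forall fun B => by ring)
  rw [hint] at hst
  have hD : n + 15 * (e * n) / 10 ^ 6 ≤ (d + 1 / 2) * a - a ^ 2 / 2 := by linarith only [hen0, hηs, hgain, hlow, hst, hJ]
  have ha0 : 0 ≤ a := integral_nonneg fun B => rk_nonneg τ hη B
  have had' : a ≤ d := by
    have := integral_mono (integrable_rk (κ := κ) τ η) (integrable_const d) fun B => rk_le τ hη B
    rwa [integral_const, probReal_univ, one_smul] at this
  set x := 5 * (e * n) / (10 ^ 6 * d) with hxd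
  have hx0 : 0 < x := by positivity
  have hxd' : d * x = 5 * (e * n) / 10 ^ 6 := by rw [hxd]; field_simp
  have hxa : x ≤ a := by
    refine le_of_mul_le_mul_left ?_ hd0
    have h2 : 1 * a ≤ d * a := mul_le_mul_of_nonneg_right (by linarith only [hd']) ha0
    have h3 := sq_nonneg a
    linarith only [hn, hd', hen0, hηs, hgain, hlow, hst, hJ, had', hxd', h3]
  have hx1 : 0 ≤ a - x := sub_nonneg.mpr hxa
  have hrd : ⌈a - x⌉₊ ≤ Fintype.card κ := Nat.ceil_le.mpr (by rw [← hdd]; linarith only [had', hx0])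
  have hrd' : (⌈a - x⌉₊ : ℝ) ≤ d := by rw [hdd]; exact_mod_cast hrd
  have hr1 : a - x ≤ ⌈a - x⌉₊ := Nat.le_ceil _
  have hF : ∀ B : κ → κ → ℝ, 0 ≤ excF τ η B + η ^ 2 * (a - x) := fun B =>
    add_nonneg (excF_nonneg τ hη B) (by positivity)
  have hI2 : Integrable (fun B : κ → κ → ℝ => √(excF τ η B + η ^ 2 * (a - x)) ^ 2) (gm κ κ) := by
    simp only [Real.sq_sqrt (hF _)]
    exact (integrable_excF τ η).add (integrable_const _)
  have hI : Integrable (fun B : κ → κ → ℝ => √(excF τ η B + η ^ 2 * (a - x))) (gm κ κ) := by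
    refine (hI2.add (integrable_const (1 : ℝ))).mono'
      ((continuous_excF τ η).add continuous_const).sqrt.aestronglyMeasurable
      (Filter.Eventually.of_forall fun B => ?_)
    rw [Real.norm_eq_abs, abs_of_nonneg (Real.sqrt_nonneg _), Pi.add_apply]
    have h2 := sq_nonneg (√(excF τ η B + η ^ 2 * (a - x)) - 1)
    have h3 := sq_nonneg √(excF τ η B + η ^ 2 * (a - x))
    linarith only [h2, h3]
  refine ⟨⌈a - x⌉₊, fun B => √(excF τ η B + η ^ 2 * (a - x)), hrd, ?_, hI,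
    fun B => Real.sqrt_nonneg _, ?_, fun B U l hU _ hc => ?_⟩
  · set r : ℝ := (⌈a - x⌉₊ : ℝ)
    have h2 : 0 ≤ (r - (a - x)) * (d + 1 / 2 - (r + (a - x)) / 2) :=
      mul_nonneg (by linarith only [hr1]) (by linarith only [had', hx0, hrd'])
    have h3 : 0 ≤ x * (a - x / 2) := mul_nonneg hx0.le (by linarith only [hx0, hxa])
    have h4 : 1 * x ≤ d * x := mul_le_mul_of_nonneg_right (by linarith only [hd']) hx0.le
    linarith only [hηs, hgain, hlow, hst, hJ, hx0, hxd', h2, h3, h4]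
  · refine (sq_integral_le_rg hI hI2).trans ?_
    simp only [Real.sq_sqrt (hF _)]
    rw [integral_add (integrable_excF τ η) (integrable_const _), integral_excF τ hη,
      integral_const, probReal_univ, one_smul, ← had]
    have h2 : η ^ 2 * x = 5 * (e ^ 3 * n ^ 3 / (10 ^ 18 * d ^ 4)) := by
      rw [hηd, hxd, div_pow, mul_pow (10 ^ 6 * d), hs2]
      field_simp
    have h3 : 0 ≤ e ^ 3 * n ^ 3 / (10 ^ 18 * d ^ 4) := by positivity
    linarith only [h2, h3]
  · exact ip_pos_le_of_card τ hη B hU l (Nat.lt_ceil.mp hc).le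

end Pool.Agent.Work.MP_6a50bc_pr
end

-- merged part: Pool.Agent.Work.MP_6a50bc_pr.LargeAux2
section
namespace Pool.Agent.Work.MP_6a50bc_pr

open MeasureTheory ProbabilityTheory Matrix Finset
open scoped ENNReal

variable {ι κ : Type*} [Fintype ι] [DecidableEq ι] [Fintype κ] [DecidableEq κ]

/-- An approximate fit of all points but at most one. -/
def Near (w : ℝ) (x : ι → κ → ℝ) (U : Matrix κ κ ℝ) (l : κ → ℝ) : Prop :=
  Orth U ∧ ∑ j, |l j| ≤ w ^ 16 ∧
    ∃ I : Finset ι, Iᶜ.card ≤ 1 ∧ ∑ i ∈ I, |w ^ 16 - qf (spec U l) (x i)| ≤ w ^ 39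

omit [DecidableEq κ] in
lemma sum_neg_part (l : κ → ℝ) : 2 * ∑ j, max (-l j) 0 = ∑ j, |l j| - ∑ j, l j := by
  rw [mul_sum, ← sum_sub_distrib]
  refine sum_congr rfl fun j _ => ?_
  rcases le_total 0 (l j) with h | h
  · rw [max_eq_right (by linarith), abs_of_nonneg h]; ring
  · rw [max_eq_left (by linarith), abs_of_nonpos h]; ring

lemma mem_lam_top {N l₀ : ℝ} {l : κ → ℝ} (h1 : ∑ j, |l j| ≤ Fintype.card κ)
    (h2 : ∑ j, max (-l j) 0 ≤ N) : l ∈ Lam κ N l₀ (Fintype.card κ + 1) :=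
  ⟨h1, h2, Nat.lt_succ_of_le (card_le_univ _)⟩

namespace Ctx

variable {w ρ K q τ m₁ m₂ φ ε σ : ℝ} (C : Ctx ι κ w ρ K q τ m₁ m₂ φ ε σ)
  {x : ι → κ → ℝ} {U : Matrix κ κ ℝ} {l : κ → ℝ} {β : ℝ}
include C

lemma resid_le (hdot : ∀ i, |x i ⬝ᵥ x i - w ^ 16| ≤ 20 * ρ * w ^ 8) (hU : Orth U)
    (hl : nrm l ≤ 10 ^ 8 * K ^ 3 * w ^ 8) {I : Finset ι} (hI : Iᶜ.card ≤ 1) :
    ∑ i, |w ^ 16 - qf (spec U l) (x i)| ≤ ∑ i ∈ I, |w ^ 16 - qf (spec U l) (x i)| + w ^ 39 := by
  have hw := C.w0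
  have hK := C.K0
  rw [← sum_add_sum_compl I]
  refine add_le_add_right ?_ _
  have h1 : ∀ i ∈ Iᶜ, |w ^ 16 - qf (spec U l) (x i)| ≤ w ^ 39 := fun i _ => by
    have h2 := abs_qf_le_fro (spec U l) (x i)
    rw [fro_spec hU] at h2
    have h3 : x i ⬝ᵥ x i ≤ 2 * w ^ 16 := by
      have h4 := C.big' (a := 2) (k := 1) (j := 8) (by norm_num) (by norm_num) (by norm_num)
      have h5 : 20 * ρ * w ^ 8 ≤ w ^ 8 * w ^ 8 :=
        mul_le_mul_of_nonneg_right (by linarith [C.P.hK]) (by positivity)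
      linarith [(abs_le.1 (hdot i)).2]
    have h4 := mul_le_mul hl h3 (dot_self_nonneg _) (by positivity)
    have h5 := mul_le_mul_of_nonneg_right
      (C.big' (a := 9) (k := 3) (j := 15) (by norm_num) (by norm_num) (by norm_num))
      (show 0 ≤ w ^ 24 by positivity)
    have h6 : w ^ 16 ≤ K ^ 3 * w ^ 24 :=
      (pow_le_pow_right₀ C.P.w1 (by norm_num)).trans
        (le_mul_of_one_le_left (by positivity) (one_le_pow₀ C.P.K1))
    have h7 := abs_sub (w ^ 16) (qf (spec U l) (x i))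
    rw [abs_of_nonneg (show 0 ≤ w ^ 16 by positivity)] at h7
    linarith only [h2, h4, h5, h6, h7, hK, hw, show 0 ≤ K ^ 3 * w ^ 24 by positivity]
  refine (sum_le_card_nsmul _ _ _ h1).trans ?_
  rw [nsmul_eq_mul]
  exact mul_le_of_le_one_left (by positivity) (by exact_mod_cast hI)

lemma near_nrm (hdot : ∀ i, |x i ⬝ᵥ x i - w ^ 16| ≤ 20 * ρ * w ^ 8) (hβ : β ^ 2 ≤ m₂ - 0)
    (hβ0 : 0 ≤ β) (hA : UpEv w q (10 ^ 8 * K ^ 3) (1 / (64 * K)) (τ + ε + 6) β (w ^ 16) ε
      (Fintype.card κ + 1) x) (h : Near w x U l) : nrm l ≤ 10 ^ 8 * K ^ 3 * w ^ 8 := by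
  obtain ⟨hU, h1, I, hI, h2⟩ := h
  have hw := C.w0
  have hK := C.K0
  have hq := C.P.hq0
  have hρ := C.P.ρ0
  by_contra hc
  push Not at hc
  have hcont : Continuous fun s : ℝ => nrm (s • l + (1 - s) • fun _ : κ => (1 : ℝ)) := by
    unfold nrm; fun_prop
  obtain ⟨s, ⟨hs0, hs1⟩, hs⟩ := intermediate_value_Icc zero_le_one hcont.continuousOn
    (show 10 ^ 8 * K ^ 3 * w ^ 8 ∈ Set.Icc _ _ from ⟨by
      have h3 : nrm (fun _ : κ => (1 : ℝ)) = w ^ 8 := by
        rw [← C.sqrt_d]; simp [nrm, dotProduct]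
      simp only [zero_smul, sub_zero, one_smul, zero_add, h3]
      exact le_mul_of_one_le_left (by positivity) (by linarith only [one_le_pow₀ (n := 3) C.P.K1]),
      by simpa using hc.le⟩)
  dsimp only at hs
  set l' := s • l + (1 - s) • fun _ : κ => (1 : ℝ) with hl'
  have h3 : ∑ j, |l' j| ≤ w ^ 16 := by
    calc ∑ j, |l' j| ≤ ∑ j, (s * |l j| + (1 - s)) := sum_le_sum fun j _ => by
          simp only [hl', Pi.add_apply, Pi.smul_apply, smul_eq_mul, mul_one]
          refine (abs_add_le _ _).trans ?_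
          rw [abs_mul, abs_of_nonneg hs0, abs_of_nonneg (sub_nonneg.2 hs1)]
      _ = s * ∑ j, |l j| + (1 - s) * w ^ 16 := by
          rw [sum_add_distrib, ← mul_sum, sum_const, card_univ, nsmul_eq_mul, C.hd, mul_comm (_ ^ _)]
      _ ≤ w ^ 16 := by linarith [mul_le_mul_of_nonneg_left h1 hs0]
  have h4 : ∑ i ∈ I, |w ^ 16 - qf (spec U l') (x i)| ≤ w ^ 39 + q ^ 2 * w ^ 32 * (20 * ρ * w ^ 8) := by
    calc ∑ i ∈ I, |w ^ 16 - qf (spec U l') (x i)|
        ≤ ∑ i ∈ I, (|w ^ 16 - qf (spec U l) (x i)| + 20 * ρ * w ^ 8) := sum_le_sum fun i _ => by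
          have e : w ^ 16 - qf (spec U l') (x i) =
              s * (w ^ 16 - qf (spec U l) (x i)) - (1 - s) * (x i ⬝ᵥ x i - w ^ 16) := by
            rw [hl', spec_add, spec_smul, spec_smul, spec_const hU, one_smul, qf_add, qf_smul,
              qf_smul, qf_one]
            ring
          rw [e]
          refine (abs_sub _ _).trans (add_le_add ?_ (le_trans ?_ (hdot i)))
          · rw [abs_mul, abs_of_nonneg hs0]; exact mul_le_of_le_one_left (abs_nonneg _) hs1
          · rw [abs_mul, abs_of_nonneg (sub_nonneg.2 hs1)]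
            exact mul_le_of_le_one_left (abs_nonneg _) (by linarith)
      _ ≤ _ := by
          rw [sum_add_distrib, sum_const, nsmul_eq_mul, ← C.hn]
          exact add_le_add h2 (mul_le_mul_of_nonneg_right (by exact_mod_cast card_le_univ I)
            (by positivity))
  have h5 := C.resid_le hdot hU hs.le hI
  have h6 := hA U hU l' (mem_lam_top (by rwa [C.hd]) (le_trans (sum_le_sum fun j _ =>
    max_le (neg_le_abs _) (abs_nonneg _)) h3)) hs.le (700000 * K ^ 2) (by positivity) (by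
      have e : 700000 * K ^ 2 * (1 / (64 * K) * q * (w ^ 16) ^ 2 * w ^ 8) =
          700000 / 64 * (K * q * w ^ 40) := by field_simp
      have k1 : ρ * q * (q * w ^ 40) ≤ K * (1 / 2) * (q * w ^ 40) :=
        mul_le_mul_of_nonneg_right (mul_le_mul C.P.hK C.P.hq' hq.le hK.le) (by positivity)
      have k2 : w ^ 40 ≤ K * q * w ^ 40 := le_mul_of_one_le_left (by positivity) C.Kq
      have k3 := mul_le_mul_of_nonneg_right
        (C.big (a := 1) (k := 0) (by norm_num) (by norm_num)) (show 0 ≤ w ^ 39 by positivity)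
      rw [e]
      linarith only [h4, h5, k1, k2, k3, hw, show 0 ≤ w ^ 39 by positivity])
  rw [hs, mul_div_cancel_right₀ _ (by positivity)] at h6
  have k1 : 1 / (64 * K) ≤ 1 := by simpa using C.P.inv_le_one 64 1 (by norm_num)
  have k2 := C.ε0
  have k3 := C.P.τ0
  exact C.P.normA hβ0 hβ (by positivity)
    (by linarith only [k1, C.P.hτ', C.ε1, one_le_pow₀ (n := 2) C.P.K1]) h6

lemma near_resid (hdot : ∀ i, |x i ⬝ᵥ x i - w ^ 16| ≤ 20 * ρ * w ^ 8) (h : Near w x U l)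
    (hl : nrm l ≤ 10 ^ 8 * K ^ 3 * w ^ 8) {ε' ζ : ℝ} (h1 : ε ≤ ε') (h2 : ε / 2 ≤ ζ) :
    1000 * ∑ i, |w ^ 16 - qf (spec U l) (x i)| ≤ ζ * (ε' * q * (w ^ 16) ^ 2 * w ^ 8) := by
  obtain ⟨hU, -, I, hI, h3⟩ := h
  have hw := C.w0
  have hK := C.K0
  have hq := C.P.hq0
  have hε := C.ε0
  have h4 := C.resid_le hdot hU hl hI
  have h5 : 4000 ≤ ε * ε * q * w := by
    calc (4000 : ℝ) ≤ 10 ^ 4 * (K * q) := by linarith only [C.Kq]
      _ = 10 ^ 4 * (K * q) * (10 ^ 24 * K ^ 7 * ε) * (10 ^ 24 * K ^ 7 * ε) := by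
          rw [C.εK, mul_one, mul_one]
      _ = ε * ε * q * (10 ^ 52 * K ^ 15) := by ring
      _ ≤ _ := mul_le_mul_of_nonneg_left (C.big (by norm_num) (by norm_num)) (by positivity)
  calc 1000 * ∑ i, |w ^ 16 - qf (spec U l) (x i)| ≤ 4000 * (w ^ 39 / 2) := by linarith only [h3, h4]
    _ ≤ ε * ε * q * w * (w ^ 39 / 2) := mul_le_mul_of_nonneg_right h5 (by positivity)
    _ = ε / 2 * (ε * q * (w ^ 16) ^ 2 * w ^ 8) := by ring
    _ ≤ _ := by gcongr; linarith only [h2, hε]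

lemma near_trace (hdot : ∀ i, |x i ⬝ᵥ x i - w ^ 16| ≤ 20 * ρ * w ^ 8) (hβ : β ^ 2 ≤ m₂ - 0)
    (hA : UpEv w q (10 ^ 8 * K ^ 3) (1 / (64 * K)) (τ + ε + 6) β (w ^ 16) ε
      (Fintype.card κ + 1) x) (h : Near w x U l) (hl : nrm l ≤ 10 ^ 8 * K ^ 3 * w ^ 8) :
    |w ^ 16 - ∑ j, l j| ≤ 100 * K * w ^ 8 ∧ ∑ j, max (-l j) 0 ≤ 50 * K * w ^ 8 := by
  have hw := C.w0
  have hK := C.K0
  have k0 : ε ≤ 1 / (64 * K) := by
    rw [C.hε]
    exact one_div_le_one_div_of_le (by positivity)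
      (by linarith [le_self_pow₀ C.P.K1 (show 7 ≠ 0 by norm_num)])
  have k1 : 1 / (64 * K) ≤ 1 := by simpa using C.P.inv_le_one 64 1 (by norm_num)
  have k2 := C.ε0
  have k3 := C.P.τ0
  have h1 := hA U h.1 l (mem_lam_top (by rw [C.hd]; exact h.2.1) (le_trans (sum_le_sum fun j _ =>
    max_le (neg_le_abs _) (abs_nonneg _)) h.2.1)) hl 1 zero_le_one
    (C.near_resid hdot h hl k0 (by linarith [C.ε1]))
  have h2 := C.P.traceA hβ (by positivity) (by linarith only [k0, k1, C.P.hτ', C.ε1]) h1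
  rw [abs_div, abs_of_pos (show 0 < w ^ 8 by positivity), div_le_iff₀ (by positivity)] at h2
  exact ⟨h2, by linarith only [h2, sum_neg_part l, h.2.1, le_abs_self (w ^ 16 - ∑ j, l j)]⟩

lemma near_B (hdot : ∀ i, |x i ⬝ᵥ x i - w ^ 16| ≤ 20 * ρ * w ^ 8) (hβ : β ^ 2 ≤ m₂ - 0)
    (hB : UpEv w q (10 ^ 8 * K ^ 3) ε (τ + 3 * ε / 2) β (50 * K * w ^ 8) ε
      (Fintype.card κ + 1) x) (h : Near w x U l) (hl : nrm l ≤ 10 ^ 8 * K ^ 3 * w ^ 8)
    (hN : ∑ j, max (-l j) 0 ≤ 50 * K * w ^ 8) : w ^ 16 - ∑ j, l j < (φ + σ / 4) * w ^ 8 := by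
  have hw := C.w0
  have k2 := C.ε0
  have k3 := C.P.τ0
  have h1 := hB U h.1 l (mem_lam_top (by rw [C.hd]; exact h.2.1) hN) hl (ε / 2) (by positivity)
    (C.near_resid hdot h hl le_rfl le_rfl)
  have h2 := C.P.traceB C.hε C.hσ hβ (by positivity) (by linarith only []) h1
  rwa [div_lt_iff₀ (by positivity)] at h2

lemma near_C (hdot : ∀ i, |x i ⬝ᵥ x i - w ^ 16| ≤ 20 * ρ * w ^ 8) {g : ℝ} {r : ℕ}
    (hg : 1 / (10 ^ 18 * K ^ 3) ≤ g) (hβ : β ^ 2 ≤ m₂ - g)
    (hC : UpEv w q (10 ^ 8 * K ^ 3) ε (τ + 3 * ε / 2) β (50 * K * w ^ 8) ε r x)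
    (h : Near w x U l) (hl : nrm l ≤ 10 ^ 8 * K ^ 3 * w ^ 8)
    (hN : ∑ j, max (-l j) 0 ≤ 50 * K * w ^ 8) (hT : (φ - 2 * σ) * w ^ 8 ≤ w ^ 16 - ∑ j, l j) :
    r ≤ (univ.filter fun j => ε ≤ l j).card := by
  have hw := C.w0
  have k2 := C.ε0
  have k3 := C.P.τ0
  by_contra hc
  have h1 := hC U h.1 l ⟨by rw [C.hd]; exact h.2.1, hN, not_le.1 hc⟩ hl (ε / 2) (by positivity)
    (C.near_resid hdot h hl le_rfl le_rfl)
  exact C.P.traceC C.hε C.hσ hg hβ (by positivity) (by linarith only [])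
    (by rwa [le_div_iff₀ (by positivity)]) h1

omit [DecidableEq ι] in
lemma omega_le : τ * w ^ 24 + ε * w ^ 24 + 6 * w ^ 8 * (50 * K * w ^ 8) ≤
    (τ + 3 * ε / 2) * w ^ 24 := by
  have hw := C.w0
  have hK := C.K0
  have hε := C.ε0
  have h1 : 600 * K ≤ ε * w ^ 8 := by
    calc 600 * K ≤ 10 ^ 3 * K * (10 ^ 24 * K ^ 7 * ε) := by rw [C.εK]; linarith
      _ = ε * (10 ^ 27 * K ^ 8) := by ring
      _ ≤ _ := mul_le_mul_of_nonneg_left
          (C.big' (by norm_num) (by norm_num) (by norm_num)) hε.le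
  linarith only [h1, hw, mul_le_mul_of_nonneg_right h1 (show 0 ≤ w ^ 16 by positivity)]

end Ctx

end Pool.Agent.Work.MP_6a50bc_pr
end

-- merged part: Pool.Agent.Work.MP_6a50bc_pr.Head
section
namespace Pool.Agent.Work.MP_6a50bc_pr

open MeasureTheory ProbabilityTheory Matrix Finset
open scoped ENNReal

variable {ι κ : Type*} [Fintype ι] [DecidableEq ι] [Fintype κ] [DecidableEq κ]

/-! Ingredients for the treatment of the large coordinates of the dual vector. -/

lemma head_step (y : ι → ℝ) (H₀ : Finset ι) {m : ℝ} (hm : 0 < m) :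
    ∃ H : Finset ι, H₀ ⊆ H ∧ (H.card : ℝ) ≤ H₀.card + m ∧
      ∀ i ∉ H, √m * |y i| ≤ nrm (fun j => if j ∈ H₀ then 0 else y j) := by
  set z : ι → ℝ := fun j => if j ∈ H₀ then 0 else y j with hz
  set T := univ.filter fun i => nrm z ^ 2 < m * z i ^ 2 with hT
  refine ⟨H₀ ∪ T, subset_union_left, ?_, fun i hi => ?_⟩
  · have h1 : ((H₀ ∪ T).card : ℝ) ≤ H₀.card + T.card := by exact_mod_cast card_union_le _ _
    refine h1.trans (add_le_add le_rfl ?_)
    rcases T.eq_empty_or_nonempty with h0 | h0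
    · simp [h0, hm.le]
    · have h2 : ∑ _i ∈ T, nrm z ^ 2 < ∑ i ∈ T, m * z i ^ 2 :=
        sum_lt_sum_of_nonempty h0 fun i hi => (mem_filter.mp hi).2
      have h3 : ∑ i ∈ T, z i ^ 2 ≤ nrm z ^ 2 := by
        rw [nrm_sq, dotProduct]
        simp only [← pow_two]
        exact sum_le_sum_of_subset_of_nonneg (subset_univ _) fun _ _ _ => sq_nonneg _
      rw [sum_const, nsmul_eq_mul, ← mul_sum] at h2
      exact (lt_of_mul_lt_mul_right (h2.trans_le (mul_le_mul_of_nonneg_left h3 hm.le))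
        (sq_nonneg _)).le
  · rw [mem_union, not_or, hT, mem_filter] at hi
    have h1 : m * y i ^ 2 ≤ nrm z ^ 2 := by simpa [hz, hi.1] using hi.2
    refine abs_le_of_sq_le_sq' ?_ (nrm_nonneg _) |>.2
    rwa [mul_pow, Real.sq_sqrt hm.le, sq_abs]

lemma exists_head_aux (y : ι → ℝ) {c m : ℝ} (hc : 0 < c) (hm : 0 < m) (k : ℕ) :
    ∀ H₀ : Finset ι, nrm (fun j => if j ∈ H₀ then 0 else y j) < 2 ^ k * c →
    ∃ H : Finset ι, H₀ ⊆ H ∧ (H.card : ℝ) ≤ H₀.card + (k + 1) * m ∧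
      ∀ i ∉ H, √m * |y i| ≤ 2 * nrm (fun j => if j ∈ H then 0 else y j) + c := by
  induction k with
  | zero =>
    intro H₀ hk
    obtain ⟨H, h1, h2, h3⟩ := head_step y H₀ hm
    refine ⟨H, h1, by simpa using h2, fun i hi => (h3 i hi).trans ?_⟩
    linarith [nrm_nonneg fun j => if j ∈ H then 0 else y j]
  | succ k ih =>
    intro H₀ hk
    obtain ⟨H, h1, h2, h3⟩ := head_step y H₀ hm
    by_cases h : nrm (fun j => if j ∈ H₀ then 0 else y j) ≤
        2 * nrm (fun j => if j ∈ H then 0 else y j) + c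
    · refine ⟨H, h1, h2.trans ?_, fun i hi => (h3 i hi).trans h⟩
      push_cast
      nlinarith only [hm, Nat.cast_nonneg (α := ℝ) k]
    · obtain ⟨H', h4, h5, h6⟩ := ih H (by rw [pow_succ] at hk; linarith)
      refine ⟨H', h1.trans h4, ?_, h6⟩
      push_cast
      linarith

/-- Dyadic choice of a head set. -/
theorem exists_head (y : ι → ℝ) (H₀ : Finset ι) {c m : ℝ} (hc : 0 < c) (hm : 0 < m) {k : ℕ}
    (hk : nrm y < 2 ^ k * c) :
    ∃ H : Finset ι, H₀ ⊆ H ∧ (H.card : ℝ) ≤ H₀.card + (k + 1) * m ∧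
      ∀ i ∉ H, √m * |y i| ≤ 2 * nrm (fun j => if j ∈ H then 0 else y j) + c := by
  refine exists_head_aux y hc hm k H₀ (lt_of_le_of_lt (nrm_mono fun j => ?_) hk)
  split_ifs <;> simp

omit [DecidableEq ι] [DecidableEq κ] in
/-- Large projections on a unit vector. -/
theorem tail_proj {v : κ → ℝ} (hv : nrm v = 1) {L s : ℝ}
    (hL : 4 * Real.log (Fintype.card ι) + 2 ≤ L) :
    gm ι κ {x | s ≤ ∑ i, max ((x i ⬝ᵥ v) ^ 2 - L) 0} ≤ ENNReal.ofReal (Real.exp (1 - s / 4)) := by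
  have hd := mp_dot (nrm_eq_one_iff.mp hv)
  have i0 : Integrable (fun z : ℝ => 1 + Real.exp (-L / 4) * Real.exp (1 / 4 * z ^ 2))
      (gaussianReal 0 1) := (integrable_const _).add ((integrable_exp_sq (by norm_num)).const_mul _)
  have b0 : ∀ z : ℝ, Real.exp (max (z ^ 2 - L) 0 / 4) ≤
      1 + Real.exp (-L / 4) * Real.exp (1 / 4 * z ^ 2) := by
    intro z
    rw [← Real.exp_add]
    rcases le_total (z ^ 2 - L) 0 with h | h
    · rw [max_eq_right h, zero_div, Real.exp_zero]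
      linarith [Real.exp_pos (-L / 4 + 1 / 4 * z ^ 2)]
    · rw [max_eq_left h, show (z ^ 2 - L) / 4 = -L / 4 + 1 / 4 * z ^ 2 by ring]
      linarith
  have i1 : Integrable (fun z : ℝ => Real.exp (max (z ^ 2 - L) 0 / 4)) (gaussianReal 0 1) :=
    i0.mono' (by fun_prop) (Filter.Eventually.of_forall fun z => by
      rw [Real.norm_eq_abs, abs_of_pos (Real.exp_pos _)]; exact b0 z)
  have h1 := integral_mono i1 i0 b0
  rw [integral_add (integrable_const _) ((integrable_exp_sq (by norm_num)).const_mul _),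
    integral_const_mul, integral_exp_sq (by norm_num), integral_const, probReal_univ,
    one_smul] at h1
  have i2 : Integrable (fun g : κ → ℝ => Real.exp (max ((v ⬝ᵥ g) ^ 2 - L) 0 / 4)) (gv κ) :=
    hd.integrable_comp_of_integrable i1
  have e : ∀ x : ι → κ → ℝ, Real.exp ((∑ i, max ((x i ⬝ᵥ v) ^ 2 - L) 0) / 4) =
      ∏ i, Real.exp (max ((v ⬝ᵥ x i) ^ 2 - L) 0 / 4) := fun x => by
    rw [sum_div, Real.exp_sum]
    simp only [dotProduct_comm v]
  have i3 : Integrable (fun x : ι → κ → ℝ =>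
      Real.exp ((∑ i, max ((x i ⬝ᵥ v) ^ 2 - L) 0) / 4)) (gm ι κ) := by
    simp only [e]
    exact Integrable.fintype_prod (f := fun _ g => Real.exp (max ((v ⬝ᵥ g) ^ 2 - L) 0 / 4))
      fun _ => i2
  have h2 : ∫ x, Real.exp ((∑ i, max ((x i ⬝ᵥ v) ^ 2 - L) 0) / 4) ∂(gm ι κ) ≤ Real.exp 1 := by
    simp only [e]
    rw [gm, integral_fintype_prod_eq_prod
      (fun _ g => Real.exp (max ((v ⬝ᵥ g) ^ 2 - L) 0 / 4)), prod_const, card_univ,
      integral_mp hd i1.aestronglyMeasurable]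
    rcases Nat.eq_zero_or_pos (Fintype.card ι) with h0 | h0
    · simp [h0]
    have hn : (0 : ℝ) < Fintype.card ι := Nat.cast_pos.mpr h0
    have h3 : Real.exp (-L / 4) ≤ (Fintype.card ι : ℝ)⁻¹ * (2 / 3) := by
      have h4 : Real.exp (-L / 4) ≤ Real.exp (-Real.log (Fintype.card ι) + -(1 / 2)) :=
        Real.exp_le_exp.mpr (by linarith only [hL])
      rw [Real.exp_add, Real.exp_neg, Real.exp_neg, Real.exp_log hn] at h4
      refine h4.trans (mul_le_mul_of_nonneg_left ?_ (by positivity))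
      rw [inv_le_comm₀ (Real.exp_pos _) (by norm_num)]
      linarith only [Real.add_one_le_exp (1 / 2 : ℝ)]
    have h5 : √(1 / (1 - 2 * (1 / 4)) : ℝ) ≤ 3 / 2 := Real.sqrt_le_iff.mpr (by norm_num)
    have h6 := mul_le_mul h3 h5 (Real.sqrt_nonneg _) (by positivity)
    have h7 := Real.add_one_le_exp (Fintype.card ι : ℝ)⁻¹
    calc _ ≤ Real.exp (Fintype.card ι : ℝ)⁻¹ ^ Fintype.card ι :=
          pow_le_pow_left₀ (integral_nonneg fun _ => (Real.exp_pos _).le) (by linarith only [h1, h6, h7]) _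
      _ = _ := by rw [← Real.exp_nat_mul, mul_inv_cancel₀ hn.ne']
  refine le_trans (measure_mono fun x hx => ?_)
    ((measure_ge_le i3 (fun _ => (Real.exp_pos _).le) (Real.exp_pos (s / 4))).trans
      (ENNReal.ofReal_le_ofReal ?_))
  · exact Real.exp_le_exp.mpr (div_le_div_of_nonneg_right hx (by norm_num))
  · rw [Real.exp_sub]
    gcongr

omit [DecidableEq ι] in
/-- Residuals of an independent random matrix, averaged over that matrix. -/
theorem tail_resid (S₀ : (κ → κ → ℝ) → Matrix κ κ ℝ) (hS₀ : Continuous S₀) {G : Set (κ → κ → ℝ)}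
    (hG : MeasurableSet G) {b F lam s : ℝ} (hlam : 0 < lam) (hs : 0 < s)
    (h : ∀ B ∈ G, (S₀ B).IsHermitian ∧ fro (S₀ B) ≤ F ∧ |b - (S₀ B).trace| ≤ F) :
    gm ι κ {x | ¬ ∀ H : Finset ι,
        ∑ i ∈ H, ∫ B in G, |b - qf (S₀ B) (x i)| ∂(gm κ κ) ≤ H.card * lam + s} ≤
      ENNReal.ofReal (10 ^ 5 * Fintype.card ι * F ^ 4 / (lam ^ 3 * s)) := by
  set ψ : (κ → ℝ) × (κ → κ → ℝ) → ℝ := fun q =>
    G.indicator (fun B => (b - qf (S₀ B) q.1) ^ 4) q.2 with hψ
  have hm : Measurable ψ := by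
    have e : ψ = (Prod.snd ⁻¹' G).indicator fun q => (b - qf (S₀ q.2) q.1) ^ 4 := by
      funext q
      by_cases hq : q.2 ∈ G <;> simp [hψ, hq]
    rw [e]
    exact (by fun_prop : Continuous fun q : (κ → ℝ) × (κ → κ → ℝ) =>
      (b - qf (S₀ q.2) q.1) ^ 4).measurable.indicator (measurable_snd hG)
  have h0 : ∀ q, 0 ≤ ψ q := fun q => Set.indicator_nonneg (fun _ _ => by positivity) _
  have b1 : ∀ B ∈ G, ∀ z, (b - qf (S₀ B) z) ^ 4 ≤ 8 * (F ^ 4 + cq (S₀ B) z ^ 4) := by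
    intro B hB z
    have h1 : (b - (S₀ B).trace) ^ 4 ≤ F ^ 4 := by
      rw [← Even.pow_abs (by decide)]
      exact pow_le_pow_left₀ (abs_nonneg _) (h B hB).2.2 4
    rw [show b - qf (S₀ B) z = b - (S₀ B).trace - cq (S₀ B) z by rw [cq]; ring]
    generalize b - (S₀ B).trace = p at h1
    generalize cq (S₀ B) z = q
    nlinarith only [h1, sq_nonneg (p ^ 2 - q ^ 2), sq_nonneg ((p + q) ^ 2), sq_nonneg (p + q),
      mul_nonneg (sq_nonneg (p + q)) (sq_nonneg (p - q)), sq_nonneg (p * q)]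
  have b2 : ∀ B ∈ G, ∀ z, (b - qf (S₀ B) z) ^ 4 ≤
      8 * (F ^ 4 + F ^ 4 * cq (1 : Matrix κ κ ℝ) z ^ 4 * 8 + F ^ 4 * (2 * Fintype.card κ) ^ 4 * 8) := by
    intro B hB z
    have hF := (fro_nonneg _).trans (h B hB).2.1
    have h1 : |cq (S₀ B) z| ≤ F * (|cq (1 : Matrix κ κ ℝ) z| + 2 * Fintype.card κ) := by
      refine (abs_cq_le _ _).trans (mul_le_mul (h B hB).2.1 ?_
        (add_nonneg (dot_self_nonneg z) (Real.sqrt_nonneg _)) hF)
      have h2 : √(Fintype.card κ : ℝ) ≤ Fintype.card κ := by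
        rw [Real.sqrt_le_iff]
        exact ⟨by positivity, by exact_mod_cast Nat.le_self_pow two_ne_zero _⟩
      have h3 := le_abs_self (cq (1 : Matrix κ κ ℝ) z)
      rw [cq, qf_one, trace_one] at h3 ⊢
      linarith
    have h2 := pow_le_pow_left₀ (abs_nonneg _) h1 4
    rw [Even.pow_abs (by decide), mul_pow] at h2
    have h3 := add_pow_le (abs_nonneg (cq (1 : Matrix κ κ ℝ) z))
      (by positivity : (0 : ℝ) ≤ 2 * Fintype.card κ) 4
    rw [Even.pow_abs (by decide)] at h3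
    have h4 := mul_le_mul_of_nonneg_left h3 (by positivity : 0 ≤ F ^ 4)
    norm_num at h4
    linarith [b1 B hB z]
  have i1 : Integrable ψ ((gv κ).prod (gm κ κ)) := by
    refine ((((integrable_const (F ^ 4)).add (((integrable_cq_pow (1 : Matrix κ κ ℝ) 4).const_mul
      (F ^ 4)).mul_const 8)).add (integrable_const
      (F ^ 4 * (2 * Fintype.card κ) ^ 4 * 8))).const_mul 8).comp_fst (gm κ κ) |>.mono'
      hm.aestronglyMeasurable (Filter.Eventually.of_forall fun q => ?_)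
    rw [Real.norm_eq_abs, abs_of_nonneg (h0 q)]
    by_cases hq : q.2 ∈ G
    · simpa [hψ, hq] using b2 _ hq q.1
    · simp only [hψ, Set.indicator_of_notMem hq, Pi.add_apply]
      positivity
  set φ : (κ → ℝ) → ℝ := fun z => ∫ B, ψ (z, B) ∂(gm κ κ) with hφ
  have i2 : Integrable φ (gv κ) := i1.integral_prod_left
  have h2 : ∫ z, φ z ∂(gv κ) ≤ 10 ^ 5 * F ^ 4 := by
    rw [hφ, integral_integral_swap (f := fun z B => ψ (z, B)) i1]
    refine (integral_mono i1.integral_prod_right (integrable_const (10 ^ 5 * F ^ 4))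
      fun B => ?_).trans (by simp)
    by_cases hB : B ∈ G
    · simp only [hψ, Set.indicator_of_mem hB]
      have i3 : Integrable (fun z => 8 * (F ^ 4 + cq (S₀ B) z ^ 4)) (gv κ) :=
        ((integrable_const _).add (integrable_cq_pow _ 4)).const_mul 8
      refine (integral_mono_of_nonneg (Filter.Eventually.of_forall fun z => by positivity) i3
        (Filter.Eventually.of_forall (b1 B hB))).trans ?_
      rw [integral_const_mul, integral_add (integrable_const _) (integrable_cq_pow _ 4),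
        integral_const, probReal_univ, one_smul]
      have h3 := integral_cq_four_le (h B hB).1
      have h4 := pow_le_pow_left₀ (fro_nonneg _) (h B hB).2.1 4
      have h5 : 0 ≤ F ^ 4 := by positivity
      linarith
    · simp only [hψ, Set.indicator_of_notMem hB, integral_zero]
      positivity
  have h3 : ∀ z, ∫ B in G, |b - qf (S₀ B) z| ∂(gm κ κ) ≤ lam + φ z / lam ^ 3 := by
    intro z
    have i4 : Integrable (fun B => ψ (z, B)) (gm κ κ) :=
      (integrable_const (8 * (F ^ 4 + F ^ 4 * cq (1 : Matrix κ κ ℝ) z ^ 4 * 8 +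
        F ^ 4 * (2 * Fintype.card κ) ^ 4 * 8))).mono'
        (hm.comp measurable_prodMk_left).aestronglyMeasurable
        (Filter.Eventually.of_forall fun B => by
          rw [Real.norm_eq_abs, abs_of_nonneg (h0 _)]
          by_cases hB : B ∈ G
          · simpa [hψ, hB] using b2 _ hB z
          · simp only [hψ, Set.indicator_of_notMem hB]
            positivity)
    rw [← integral_indicator hG]
    refine (integral_mono_of_nonneg (g := fun B => lam + ψ (z, B) / lam ^ 3)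
      (Filter.Eventually.of_forall fun B => Set.indicator_nonneg (fun _ _ => abs_nonneg _) _)
      ((integrable_const _).add (i4.div_const _)) (Filter.Eventually.of_forall fun B => ?_)).trans
      (by rw [integral_add (integrable_const _) (i4.div_const _), integral_div]; simp [hφ])
    by_cases hB : B ∈ G
    · simp only [hψ, Set.indicator_of_mem hB]
      rw [← Even.pow_abs (by decide) (b - qf (S₀ B) z)]
      have hr := abs_nonneg (b - qf (S₀ B) z)
      generalize |b - qf (S₀ B) z| = r at hr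
      rcases le_total r lam with h4 | h4
      · exact h4.trans (le_add_of_nonneg_right (by positivity))
      · have h5 : r ≤ r ^ 4 / lam ^ 3 := by
          rw [le_div_iff₀ (by positivity), pow_succ' r 3]
          gcongr
        linarith
    · simp only [hψ, Set.indicator_of_notMem hB]
      positivity
  have i5 : ∀ i, Integrable (fun x : ι → κ → ℝ => φ (x i)) (gm ι κ) :=
    fun i => (mp_eval i).integrable_comp_of_integrable i2
  have hφ0 : ∀ z, 0 ≤ φ z := fun z => integral_nonneg fun B => h0 _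
  refine le_trans (measure_mono fun x hx => ?_) ((measure_ge_le (integrable_finsetSum univ
    fun i _ => i5 i) (fun x => sum_nonneg fun i _ => hφ0 _)
    (by positivity : 0 < lam ^ 3 * s)).trans (ENNReal.ofReal_le_ofReal ?_))
  · simp only [Set.mem_ofPred_eq, not_forall, not_le] at hx ⊢
    obtain ⟨H, hH⟩ := hx
    have h4 := hH.trans_le (sum_le_sum fun i _ => h3 (x i))
    rw [sum_add_distrib, sum_const, nsmul_eq_mul, add_lt_add_iff_left, ← sum_div,
      lt_div_iff₀ (by positivity), mul_comm] at h4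
    exact h4.le.trans (sum_le_sum_of_subset_of_nonneg (subset_univ _) fun i _ _ => hφ0 _)
  · rw [integral_finsetSum _ fun i _ => i5 i,
      sum_congr rfl fun (i : ι) _ => integral_mp (mp_eval (κ := κ) i) i2.aestronglyMeasurable,
      sum_const, card_univ, nsmul_eq_mul]
    refine div_le_div_of_nonneg_right ?_ (by positivity)
    nlinarith only [h2, mul_le_mul_of_nonneg_left h2 (Nat.cast_nonneg (α := ℝ) (Fintype.card ι))]

end Pool.Agent.Work.MP_6a50bc_pr
end

-- merged part: Pool.Agent.Work.MP_6a50bc_pr.Lower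
section
namespace Pool.Agent.Work.MP_6a50bc_pr

open MeasureTheory ProbabilityTheory Matrix Finset
open scoped ENNReal

variable {ι κ : Type*} [Fintype ι] [DecidableEq ι] [Fintype κ] [DecidableEq κ]

namespace Lw

lemma union_le {X α : Type*} [MeasurableSpace X] {ν : Measure X} {s : Finset α} {E : α → Set X}
    {y z : ℝ} (h : ∀ a ∈ s, ν (E a) ≤ ENNReal.ofReal (Real.exp z)) (hs : (s.card : ℝ) ≤ Real.exp y) :
    ν (⋃ a ∈ s, E a) ≤ ENNReal.ofReal (Real.exp (y + z)) := by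
  refine (measure_biUnion_finset_le _ _).trans ((sum_le_card_nsmul _ _ _ h).trans ?_)
  rw [nsmul_eq_mul, Real.exp_add, ENNReal.ofReal_mul (Real.exp_pos _).le, ← ENNReal.ofReal_natCast]
  gcongr

/-- From a bounded dual vector to a normalised one. -/
lemma deduce {w ρ σ ε s : ℝ} (P : Par w ρ σ ε) (hn : (Fintype.card ι : ℝ) ≤ w ^ 32) (hs : 0 ≤ s)
    {p y : ι → ℝ} (hp : ∀ i, 0 ≤ p i) (hy : ∀ i, |y i| ≤ 1 / w ^ 23)
    (h : ∑ i, max (p i - (8 * ρ + 2)) 0 ≤ 8 * ρ * w ^ 16) :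
    ∃ H : Finset ι, (H.card : ℝ) ≤ 5 * ρ * w ^ 18 ∧ (∀ k ∉ H, p k ≤ 20 * ρ) ∧
      ∑ i ∈ H, p i ≤ 58 * ρ ^ 2 * w ^ 18 ∧
      ∃ u : ι → ℝ, (nrm u ≤ 1 ∧ (∀ k, |u k| ≤ 1 / w ^ 9) ∧ ∀ k ∈ H, u k = 0) ∧ ∀ r : ι → ℝ,
        ∑ k, u k * (r k - s * p k) + 2 * ε * w ^ 24 * nrm u + 1 / w ^ 7 * ∑ i ∈ H, |r i| ≤
          ε * w ^ 24 + ε * w ^ 8 → ∑ i, y i * (r i - s * p i) ≤ 2 * ε * w ^ 8 + s / 8 := by
  have w0 := P.w0
  have ρ1 := P.hρ
  have ε0 := P.hε
  have hsum : ∀ H : Finset ι, ∑ i ∈ H, max (p i - (8 * ρ + 2)) 0 ≤ 8 * ρ * w ^ 16 := fun H =>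
    (sum_le_sum_of_subset_of_nonneg (subset_univ H) fun _ _ _ => le_max_right _ _).trans h
  have c0 : (#{i | 20 * ρ < p i} : ℝ) ≤ w ^ 16 := by
    have h1 := (card_nsmul_le_sum _ _ (8 * ρ) fun i hi => le_max_of_le_left
      (by linarith [(mem_filter.1 hi).2])).trans (hsum {i | 20 * ρ < p i})
    rw [nsmul_eq_mul, mul_comm] at h1
    exact le_of_mul_le_mul_left h1 (by positivity)
  obtain ⟨k, k1, k2⟩ := P.exists_steps
  have y1 : nrm y ≤ 1 / 4 := by
    refine (nrm_le_of_abs_le (by positivity) hy).trans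
      ((mul_le_mul_of_nonneg_right (P.sqrt_le hn) (by positivity)).trans ?_)
    rw [mul_one_div, div_le_div_iff₀ (by positivity) (by positivity)]
    linarith only [c0, P.ms 0 0 0 16 23 (by omega), pow_pos w0 16]
  obtain ⟨H, h1, h2, h3⟩ := exists_head y {i | 20 * ρ < p i} (c := 1 / w ^ 16) (m := w ^ 18)
    (k := k) (by positivity) (by positivity) (by
      rw [mul_one_div]
      linarith only [y1, w0, k1, (one_le_div (pow_pos w0 16)).2 k1])
  rw [show w ^ 18 = (w ^ 9) ^ 2 by ring, Real.sqrt_sq (by positivity)] at h3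
  have k3 : w ^ 16 ≤ ρ * w ^ 18 := (pow_le_pow_right₀ P.w1 (by norm_num)).trans
    (le_mul_of_one_le_left (by positivity) ρ1)
  have hH : (H.card : ℝ) ≤ 5 * ρ * w ^ 18 := by
    linarith [mul_le_mul_of_nonneg_right k2 (pow_pos w0 18).le]
  have h4 : ∑ i ∈ H, p i ≤ 58 * ρ ^ 2 * w ^ 18 := by
    have b1 : ∑ i ∈ H, p i ≤ ∑ i ∈ H, (max (p i - (8 * ρ + 2)) 0 + 10 * ρ) :=
      sum_le_sum fun i _ => by linarith [le_max_left (p i - (8 * ρ + 2)) 0]
    rw [sum_add_distrib, sum_const, nsmul_eq_mul] at b1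
    linarith only [b1, hH, ρ1, k3, hsum H, mul_le_mul_of_nonneg_right hH (show 0 ≤ ρ by positivity),
      mul_le_mul_of_nonneg_left k3 (show 0 ≤ ρ by positivity)]
  set z : ι → ℝ := fun j => if j ∈ H then 0 else y j with hz
  have z0 := nrm_nonneg z
  have z1 : nrm z ≤ nrm y := nrm_mono fun i => by
    simp only [hz]
    split_ifs <;> simp
  have c1 : 0 < 1 / w ^ 16 := by positivity
  have c2 : 1 / w ^ 16 ≤ 1 / 2 :=
    one_div_le_one_div_of_le two_pos (by linarith only [P.ms 0 0 0 0 16 (by omega)])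
  set N := 2 * nrm z + 1 / w ^ 16 with hN
  have N0 : 0 < N := by positivity
  have e1 : N * nrm (N⁻¹ • z) = nrm z := by
    rw [nrm_smul, abs_of_pos (inv_pos.2 N0), mul_inv_cancel_left₀ N0.ne']
  refine ⟨H, hH, fun k hk => not_lt.1 fun h5 => hk (h1 (mem_filter.2 ⟨mem_univ _, h5⟩)), h4,
    N⁻¹ • z, ⟨le_of_mul_le_mul_left (by linarith only [z0, c1, e1]) N0, fun k => ?_, fun k hk => by simp [hz, hk]⟩,
    fun r hr => ?_⟩
  · by_cases hk : k ∈ H
    · simp only [hz, hk, Pi.smul_apply, if_true, smul_zero, abs_zero]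
      positivity
    · simp only [hz, hk, Pi.smul_apply, if_false, smul_eq_mul, abs_mul, abs_of_pos (inv_pos.2 N0)]
      rw [inv_mul_eq_div, div_le_div_iff₀ N0 (by positivity), one_mul, mul_comm]
      exact h3 k hk
  · have b1 := mul_le_mul_of_nonneg_left hr N0.le
    have e2 : N * ∑ k, (N⁻¹ • z) k * (r k - s * p k) =
        ∑ i, y i * (r i - s * p i) - ∑ i ∈ H, y i * (r i - s * p i) := by
      rw [mul_sum, ← sum_ite_mem_eq H, ← sum_sub_distrib]
      refine sum_congr rfl fun k _ => ?_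
      simp only [hz, Pi.smul_apply, smul_eq_mul, mul_assoc, mul_inv_cancel_left₀ N0.ne']
      split_ifs <;> ring
    have b2 : ∑ i ∈ H, y i * (r i - s * p i) ≤ 1 / w ^ 23 * (∑ i ∈ H, |r i| + s * ∑ i ∈ H, p i) := by
      rw [mul_sum, ← sum_add_distrib, mul_sum]
      refine sum_le_sum fun i _ => (le_abs_self _).trans ?_
      rw [abs_mul]
      exact mul_le_mul (hy i) ((abs_sub _ _).trans_eq
        (by rw [abs_of_nonneg (mul_nonneg hs (hp i))])) (abs_nonneg _) (by positivity)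
    have b3 : 1 / w ^ 23 * ∑ i ∈ H, p i ≤ 1 / 8 := by
      rw [one_div, inv_mul_le_iff₀ (by positivity)]
      linarith only [h4, w0, P.ms 2 0 0 18 23 (by omega), pow_pos w0 23]
    have b4 := mul_le_mul_of_nonneg_left b3 hs
    have b5 := mul_le_mul_of_nonneg_right (show 1 / w ^ 23 ≤ N * (1 / w ^ 7) from le_trans
      (le_of_eq (by field_simp)) (mul_le_mul_of_nonneg_right (le_add_of_nonneg_left
        (show 0 ≤ 2 * nrm z by positivity)) (by positivity)))
      (sum_nonneg fun i (_ : i ∈ H) => abs_nonneg (r i))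
    have b6 := mul_le_mul_of_nonneg_right (show N ≤ 1 by linarith only [y1, z1, c2])
      (show 0 ≤ ε * w ^ 8 by positivity)
    have e3 : N * (ε * w ^ 24) = 2 * ε * w ^ 24 * nrm z + ε * w ^ 8 := by
      rw [hN]; field_simp
    rw [mul_add, mul_add, mul_add, e2, e3, mul_left_comm N _ (nrm _), e1] at b1
    linarith only [b1, b2, b4, b5, b6]

end Lw

open Lw in
/-- For every bounded dual vector and every direction there is an approximate fit with a large
eigenvalue in (almost) that direction. -/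
theorem lower {w ρ σ ε s T₀ T₁ a₀ ws : ℝ} (hd : (Fintype.card κ : ℝ) = w ^ 16) (hρ : 1 ≤ ρ)
    (hσ : 1 ≤ σ) (hε : 0 < ε) (hε1 : ε ≤ 1) (hlog : Real.log (Fintype.card κ) ≤ ρ)
    (hn : (Fintype.card κ : ℝ) ^ 2 / ρ ≤ Fintype.card ι)
    (hn' : (Fintype.card ι : ℝ) ≤ (Fintype.card κ : ℝ) ^ 2)
    (hw : 10 ^ 12 * (ρ * σ / ε) ^ 6 ≤ w) (hs : 0 ≤ s) (hs' : s ≤ √(Fintype.card κ))
    (hT₀ : 0 ≤ T₀) (hT : T₀ ≤ T₁) (hT₁ : T₁ ≤ σ * √(Fintype.card κ)) (ha₀ : 0 ≤ a₀)
    (S₀ : (κ → κ → ℝ) → Matrix κ κ ℝ) (hS₀ : Continuous S₀) {G : Set (κ → κ → ℝ)}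
    (hG : MeasurableSet G) (hGp : gm κ κ Gᶜ ≤ ENNReal.ofReal (ε / (100 * √(Fintype.card κ))))
    (hprop : ∀ B ∈ G, (S₀ B).PosSemidef ∧ opn (S₀ B) ≤ σ ∧
      Fintype.card κ - T₁ ≤ (S₀ B).trace ∧ (S₀ B).trace ≤ Fintype.card κ - T₀ ∧
      a₀ - ε * √(Fintype.card κ) / 100 ≤ fro (S₀ B) ∧ fro (S₀ B) ≤ a₀ ∧
      ws ≤ ip (Matrix.of B) (S₀ B) ∧ opn (Matrix.of B) ≤ 3 * √(Fintype.card κ))
    (hAO : √(Fintype.card ι) * √(2 * a₀ ^ 2 + T₁ ^ 2 + (20 * ρ * s) ^ 2) +
      4 * ε * Fintype.card κ * √(Fintype.card κ) ≤ √2 * ws) :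
    gm ι κ {x | ¬ ∀ y : ι → ℝ, (∀ i, |y i| ≤ 1 / w ^ 23) → ∀ v : κ → ℝ, nrm v = 1 →
        ∃ (v₀ : κ → ℝ) (S : Matrix κ κ ℝ), nrm v₀ = 1 ∧ nrm (v - v₀) ≤ 1 / 8 ∧ S.PosSemidef ∧
          S.trace ≤ Fintype.card κ - T₀ ∧
          ∑ i, y i * (Fintype.card κ - qf S (x i) - s * (x i ⬝ᵥ v₀) ^ 2) ≤
            2 * ε * √(Fintype.card κ) + s / 8} ≤
      ENNReal.ofReal (2 / w) := by
  have w0 : 0 < w := lt_of_lt_of_le (by positivity) hw
  have P : Par w ρ σ ε := ⟨hρ, hσ, hε, hε1, hw,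
    hd ▸ (Real.log_le_iff_le_exp (hd ▸ pow_pos w0 16)).1 hlog⟩
  have hr := P.sqrt_eq
  rw [hd] at hn hn'
  rw [hd, hr] at hs' hT₁ hGp hprop hAO ⊢
  rw [← pow_mul] at hn'
  have n0 : (0 : ℝ) < Fintype.card ι := lt_of_lt_of_le (by positivity) hn
  have : Nonempty ι := Fintype.card_pos_iff.1 (Nat.cast_pos.1 n0)
  obtain ⟨N, hN, cN, nN⟩ := exists_sphere_net (κ := κ)
  replace cN := P.n_sphere hd cN
  have g1 := (tail_four (ι := ι) hd.symm).trans (ENNReal.ofReal_le_ofReal (show _ ≤ 1 / (2 * w) by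
    rw [hr]
    refine (P.n_three hn').trans (one_div_le_one_div_of_le (by positivity) ?_)
    linarith only [w0, P.ms 0 0 0 1 33 (by omega)]))
  have g2 := (union_le (fun v hv => tail_proj (ι := ι) (hN v hv) (L := 8 * ρ + 2)
    (s := 8 * ρ * w ^ 16) (by linarith [P.log_le n0 hn'])) cN).trans
      (ENNReal.ofReal_le_ofReal (P.exp_neg_le (by
        linarith only [hρ, P.ms 0 0 0 0 16 (by omega), mul_le_mul_of_nonneg_left (show 2 ≤ w ^ 16 by
          linarith only [P.ms 0 0 0 0 16 (by omega)]) (zero_le_one.trans hρ)])))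
  have g3 := (tail_resid (ι := ι) S₀ hS₀ hG (b := w ^ 16) (F := w ^ 8 * σ) (lam := w ^ 12)
    (s := ε * w ^ 31 / 100) (by positivity) (by positivity) fun B hB => by
      obtain ⟨h1, h2, h3, h4, -⟩ := hprop B hB
      refine ⟨h1.1, (fro_le_sqrt_mul_opn _).trans (by rw [hd, hr]; gcongr),
        abs_le.2 ⟨by linarith only [hT₀, hT, hT₁, h4], by linarith⟩⟩).trans (ENNReal.ofReal_le_ofReal (P.n_resid hn'))
  have g4 := (union_le (fun v hv => union_le (fun H hH => fixed P hd.symm hn' hs hs' hT₀ hT hT₁ ha₀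
    S₀ hS₀ hG hGp hprop hAO (mem_filter.1 hH).2 (hN v hv))
    (card_small_le (r := 2 * ρ) (by positivity) (hn'.trans (P.pw 32 2 (by omega))))) cN).trans
      (ENNReal.ofReal_le_ofReal (P.exp_neg_le (by linarith only [P.n_union])))
  have q0 : 0 ≤ 1 / (2 * w) := by positivity
  refine le_trans (measure_mono ?_) ((measure_union_le _ _).trans ((add_le_add
    ((measure_union_le _ _).trans (add_le_add g1 g2))
    ((measure_union_le _ _).trans (add_le_add g3 g4))).trans_eq ?_))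
  · intro x hx
    by_contra hc
    simp only [Set.mem_union, not_or, Set.mem_iUnion, not_exists] at hc
    obtain ⟨⟨c1, c2⟩, c3, c4⟩ := hc
    replace c1 := not_not.1 c1
    refine hx fun y hy v hv => ?_
    obtain ⟨v₀, h1, h2⟩ := nN v hv
    obtain ⟨H, h3, h4, h5, u, h6, h7⟩ := deduce P hn' hs (fun i => sq_nonneg (x i ⬝ᵥ v₀)) hy
      (not_le.1 (c2 v₀ h1)).le
    by_contra h8
    refine c4 v₀ h1 H (mem_filter.2 ⟨mem_univ _, h3⟩) ⟨(not_not.1 c3 H).trans ?_, c1, h4, h5, u, h6,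
      fun S b1 b2 => le_of_not_ge fun b3 => h8 ⟨v₀, S, hN _ h1, h2, b1, b2, h7 _ b3⟩⟩
    linarith only [h3, w0, mul_le_mul_of_nonneg_right h3 (pow_pos w0 12).le]
  · rw [← ENNReal.ofReal_add q0 q0, ← ENNReal.ofReal_add (by positivity) (by positivity)]
    congr 1
    field_simp
    ring

end Pool.Agent.Work.MP_6a50bc_pr
end

-- merged part: Pool.Agent.Work.MP_6a50bc_pr.LargeAux3
section
namespace Pool.Agent.Work.MP_6a50bc_pr

open MeasureTheory ProbabilityTheory Matrix Finset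
open scoped ENNReal

variable {ι κ : Type*} [Fintype ι] [DecidableEq ι] [Fintype κ] [DecidableEq κ]

/-- The typical behaviour of the shifted symmetric Gaussian matrix. -/
def Typ (κ : Type*) [Fintype κ] [DecidableEq κ] (t η : ℝ) : Set (κ → κ → ℝ) :=
  {B | |(pos (goe t B)).trace - mu1 κ t| < η ∧ |fro (pos (goe t B)) - √(mu2 κ t)| < η ∧
    opn (Matrix.of B) ≤ 3 * √(Fintype.card κ)}

lemma measurableSet_typ (t η : ℝ) : MeasurableSet (Typ κ t η) := by
  have h1 : Continuous fun B : κ → κ → ℝ => (pos (goe t B)).trace :=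
    (continuous_pos_goe continuous_const continuous_id).matrix_trace
  have h2 : Continuous fun B : κ → κ → ℝ => |(pos (goe t B)).trace - mu1 κ t| := by fun_prop
  have h3 : Continuous fun B : κ → κ → ℝ => |fro (pos (goe t B)) - √(mu2 κ t)| := by fun_prop
  have h4 : Continuous fun B : κ → κ → ℝ => opn (Matrix.of B) := by fun_prop
  exact (measurableSet_lt h2.measurable measurable_const).inter
    ((measurableSet_lt h3.measurable measurable_const).inter
      (measurableSet_le h4.measurable measurable_const))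

lemma typ_compl (hd : 10 ^ 4 ≤ Fintype.card κ) (t : ℝ) {η : ℝ} (hη : 0 < η) :
    gm κ κ (Typ κ t η)ᶜ ≤ ENNReal.ofReal
      (4 * Fintype.card κ / η ^ 2 + 8 / η ^ 2 + 1 / (Fintype.card κ : ℝ) ^ 5) := by
  rw [ENNReal.ofReal_add (by positivity) (by positivity),
    ENNReal.ofReal_add (by positivity) (by positivity)]
  refine le_trans (measure_mono fun B hB => ?_) ((measure_union_le _ _).trans (add_le_add
    ((measure_union_le _ _).trans (add_le_add (tail_trace_pos t hη) (tail_fro_pos t hη)))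
    (tail_opn_three hd)))
  by_contra h
  simp only [Set.mem_union, Set.mem_setOf_eq, not_or, not_le, not_lt] at h
  exact hB ⟨h.1.1, h.1.2, h.2⟩

/-- Upper bounds for the value of the dual problem. -/
def LowEv (w φ σ : ℝ) (x : ι → κ → ℝ) : Prop :=
  ∀ y : ι → ℝ, DualFeas (1 / w ^ 23) (1 / w ^ 23) x y →
    w ^ 16 * ∑ i, y i ≤ w ^ 16 - (φ - 2 * σ) * w ^ 8 ∧
      ((∃ v, v ≠ 0 ∧ qf (gram y x) v ≤ -(v ⬝ᵥ v)) →
        w ^ 16 * ∑ i, y i ≤ w ^ 16 - (φ + σ / 4) * w ^ 8)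

namespace Ctx

variable {w ρ K q τ m₁ m₂ φ ε σ : ℝ} (C : Ctx ι κ w ρ K q τ m₁ m₂ φ ε σ)
include C

omit [DecidableEq ι] in
lemma typ_prob : gm κ κ (Typ κ (τ * w ^ 8) (w ^ 13))ᶜ ≤
    ENNReal.ofReal (ε / (100 * √(Fintype.card κ))) := by
  have hw := C.w0
  have hK := C.K0
  have hε := C.ε0
  refine (typ_compl C.d_ge _ (by positivity)).trans (ENNReal.ofReal_le_ofReal ?_)
  rw [C.sqrt_d, C.hd]
  have h1 : 8 / (w ^ 13) ^ 2 ≤ 8 / w ^ 10 := div_le_div_of_nonneg_left (by norm_num)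
    (by positivity) (by rw [← pow_mul]; exact pow_le_pow_right₀ C.P.w1 (by norm_num))
  have h2 : 1 / (w ^ 16) ^ 5 ≤ 1 / w ^ 10 := div_le_div_of_nonneg_left (by norm_num)
    (by positivity) (by rw [← pow_mul]; exact pow_le_pow_right₀ C.P.w1 (by norm_num))
  have h3 : 4 * w ^ 16 / (w ^ 13) ^ 2 = 4 / w ^ 10 := by field_simp
  have h4 : 1300 ≤ ε * w ^ 2 := by
    calc (1300 : ℝ) ≤ 10 ^ 4 * (10 ^ 24 * K ^ 7 * ε) := by rw [C.εK]; norm_num
      _ = ε * (10 ^ 28 * K ^ 7) := by ring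
      _ ≤ _ := mul_le_mul_of_nonneg_left
          (C.big' (by norm_num) (by norm_num) (by norm_num)) hε.le
  have h5 : 13 / w ^ 10 ≤ ε / (100 * w ^ 8) := by
    rw [div_le_div_iff₀ (by positivity) (by positivity)]
    linarith only [h4, hw, mul_le_mul_of_nonneg_right h4 (show 0 ≤ w ^ 8 by positivity)]
  have h6 : 13 / w ^ 10 = 4 / w ^ 10 + 8 / w ^ 10 + 1 / w ^ 10 := by ring
  linarith only [h1, h2, h3, h5, h6]

omit [DecidableEq ι] in
lemma typ_prop {c : ℝ} (hc0 : 0 ≤ c) (hc4 : c ≤ 4 * ρ)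
    (hc : c * m₁ * w ^ 8 = w ^ 8 - (φ - σ / 8 - ε)) (hu : 1000 * ρ * (1 / w ^ 3) ≤ ε)
    (B : κ → κ → ℝ) (hB : B ∈ Typ κ (τ * w ^ 8) (w ^ 13)) (S : Matrix κ κ ℝ)
    (hS : S = (c / w ^ 8) • pos (goe (τ * w ^ 8) B)) :
    S.PosSemidef ∧ opn S ≤ 12 * ρ ∧ Fintype.card κ - (φ - σ / 8) * w ^ 8 ≤ S.trace ∧
      S.trace ≤ Fintype.card κ - (φ - σ / 8 - 2 * ε) * w ^ 8 ∧
      c * (√m₂ + 1 / w ^ 3) * w ^ 8 - ε * √(Fintype.card κ) / 100 ≤ fro S ∧
      fro S ≤ c * (√m₂ + 1 / w ^ 3) * w ^ 8 ∧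
      c * (q ^ 2 - 5 * (1 / w ^ 3)) * w ^ 24 ≤ ip (Matrix.of B) S ∧
      opn (Matrix.of B) ≤ 3 * √(Fintype.card κ) := by
  have hw := C.w0
  have hρ := C.P.ρ0
  have hε := C.ε0
  have hτ := C.P.τ0
  obtain ⟨h1, h2, h3⟩ := hB
  have hc' : 0 ≤ c / w ^ 8 := by positivity
  have e1 : √(mu2 κ (τ * w ^ 8)) = √m₂ * w ^ 16 := by
    rw [C.hμ₂, Real.sqrt_mul C.P.hm₂, show w ^ 32 = (w ^ 16) ^ 2 by ring,
      Real.sqrt_sq (by positivity)]
  rw [C.hμ₁, abs_lt] at h1
  rw [e1, abs_lt] at h2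
  have e2 : c / w ^ 8 * (m₁ * w ^ 24) = w ^ 16 - (φ - σ / 8 - ε) * w ^ 8 := by
    field_simp
    linear_combination 8 * hc
  have e3 : c / w ^ 8 * w ^ 13 ≤ ε / 250 * w ^ 8 := by
    calc c / w ^ 8 * w ^ 13 = c * (1 / w ^ 3) * w ^ 8 := by field_simp
      _ ≤ _ := mul_le_mul_of_nonneg_right
          (by linarith only [hu, hc4, hw, mul_le_mul_of_nonneg_right hc4 (show 0 ≤ 1 / w ^ 3 by positivity)])
          (by positivity)
  have e4 : c * (√m₂ + 1 / w ^ 3) * w ^ 8 = c / w ^ 8 * (√m₂ * w ^ 16) + c / w ^ 8 * w ^ 13 := by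
    field_simp
  have e5 : 0 ≤ ε * w ^ 8 := by positivity
  have hs : √m₂ ≤ 1 := Real.sqrt_le_one.2 C.m₂_le
  have k1 := mul_le_mul_of_nonneg_left h1.1.le hc'
  have k2 := mul_le_mul_of_nonneg_left h1.2.le hc'
  have k3 := mul_le_mul_of_nonneg_left h2.1.le hc'
  have k4 := mul_le_mul_of_nonneg_left h2.2.le hc'
  subst hS
  rw [trace_smul, smul_eq_mul, fro_smul, opn_smul, abs_of_nonneg hc', ip_smul_right, ip_goe_pos,
    e4]
  refine ⟨(pos_posSemidef _).smul hc', ?_, by rw [C.hd]; linarith only [e2, e3, e5, k1], by rw [C.hd]; linarith only [e2, e3, e5, k2],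
    by rw [C.sqrt_d]; linarith only [e3, e5, k3], by linarith only [k4], ?_, h3⟩
  · rw [C.sqrt_d] at h3
    have h4 : opn (pos (goe (τ * w ^ 8) B)) ≤ 3 * w ^ 8 := by
      refine opn_pos_le (goe_isHermitian _ _) (by positivity) fun v => ?_
      rw [goe_eq, qf_sub, qf_smul, qf_one]
      have h5 := (le_abs_self _).trans (abs_qf_le_opn (goe 0 B) v)
      have h6 := dot_self_nonneg v
      linarith only [h5, h3, h6, hτ, hw, mul_le_mul_of_nonneg_right ((opn_goe_zero_le B).trans h3) h6,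
        show 0 ≤ τ * w ^ 8 * (v ⬝ᵥ v) by positivity]
    calc c / w ^ 8 * opn (pos (goe (τ * w ^ 8) B)) ≤ c / w ^ 8 * (3 * w ^ 8) :=
          mul_le_mul_of_nonneg_left h4 hc'
      _ = 3 * c := by field_simp
      _ ≤ _ := by linarith only [hc4]
  · rw [show c * (q ^ 2 - 5 * (1 / w ^ 3)) * w ^ 24 = c / w ^ 8 * (q ^ 2 * w ^ 32 - 5 * w ^ 29) by
      field_simp]
    refine mul_le_mul_of_nonneg_left ?_ hc'
    have hs2 : √m₂ ^ 2 = m₂ := Real.sq_sqrt C.P.hm₂
    have j1 : m₂ * w ^ 32 - 2 * w ^ 29 ≤ fro (pos (goe (τ * w ^ 8) B)) ^ 2 := by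
      have j2 := mul_le_mul_of_nonneg_left h2.1.le (show 0 ≤ √m₂ * w ^ 16 by positivity)
      have j3 := mul_le_mul_of_nonneg_right hs (show 0 ≤ w ^ 29 by positivity)
      have j4 := sq_nonneg (fro (pos (goe (τ * w ^ 8) B)) - √m₂ * w ^ 16)
      have j5 : (√m₂ * w ^ 16) ^ 2 = m₂ * w ^ 32 := by rw [mul_pow, hs2]; ring
      linarith only [j2, j3, j4, j5]
    have j2 := mul_le_mul_of_nonneg_left h1.1.le (show 0 ≤ τ * w ^ 8 by positivity)
    have j3 := mul_le_mul_of_nonneg_right C.P.hτ' (show 0 ≤ w ^ 21 by positivity)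
    have j4 : w ^ 21 ≤ w ^ 29 := pow_le_pow_right₀ C.P.w1 (by norm_num)
    rw [← C.P.ha]
    linarith only [j1, j2, j3, j4]

theorem lower_app : gm ι κ {x | ¬ LowEv w φ σ x} ≤ ENNReal.ofReal (2 / w) := by
  have hw := C.w0
  have hK := C.K0
  have hρ := C.P.ρ0
  have hε := C.ε0
  have hσ := C.σ0
  have hm := C.P.m₁0
  have hq := C.P.hq0
  have k1 := C.εσ
  have k2 := C.σφ
  have k3 := C.P.φ_le
  have hu : 1000 * ρ * (1 / w ^ 3) ≤ ε := by
    rw [mul_one_div, div_le_iff₀ (by positivity)]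
    calc 1000 * ρ ≤ 10 ^ 3 * K * (10 ^ 24 * K ^ 7 * ε) := by rw [C.εK]; linarith [C.P.hK]
      _ = ε * (10 ^ 27 * K ^ 8) := by ring
      _ ≤ _ := mul_le_mul_of_nonneg_left
          (C.big' (by norm_num) (by norm_num) (by norm_num)) hε.le
  have h5 : φ - σ / 8 - ε ≤ w ^ 5 := by
    linarith only [hε, k1, k2, k3, C.big' (a := 1) (k := 1) (j := 5) (by norm_num) (by norm_num) (by norm_num), C.P.hK]
  set c := (1 - (φ - σ / 8 - ε) / w ^ 8) / m₁ with hc
  have hcm : c * m₁ = 1 - (φ - σ / 8 - ε) / w ^ 8 := div_mul_cancel₀ _ hm.ne'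
  have hc1 : c * m₁ ≤ 1 := by
    rw [hcm]; exact sub_le_self _ (div_nonneg (by linarith only [hε, k1, k2]) (by positivity))
  have hc2 : 1 - 1 / w ^ 3 ≤ c * m₁ := by
    rw [hcm]
    refine sub_le_sub_left ?_ _
    rw [div_le_div_iff₀ (by positivity) (by positivity)]
    linarith only [h5, hw, mul_le_mul_of_nonneg_right h5 (show 0 ≤ w ^ 3 by positivity)]
  have hc0 : 0 ≤ c := by
    refine nonneg_of_mul_nonneg_left (le_trans ?_ hc2) hm
    rw [sub_nonneg, div_le_one (by positivity)]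
    exact one_le_pow₀ C.P.w1
  have hc4 : c ≤ 4 * ρ := by
    linarith only [hc0, hc1, hρ, mul_le_mul_of_nonneg_left C.P.m₁_ge hc0, mul_le_mul_of_nonneg_left hc1 hρ.le]
  have key := lower (ι := ι) (κ := κ) (w := w) (ρ := ρ) (σ := 12 * ρ) (ε := ε) (s := σ * w ^ 8)
    (T₀ := (φ - σ / 8 - 2 * ε) * w ^ 8) (T₁ := (φ - σ / 8) * w ^ 8)
    (a₀ := c * (√m₂ + 1 / w ^ 3) * w ^ 8) (ws := c * (q ^ 2 - 5 * (1 / w ^ 3)) * w ^ 24)
    C.hd C.P.hρ (by linarith only [hε, k1, k2, k3, C.P.hρ]) hε C.ε1 C.hlog C.n_ge C.n_le ?_ (by positivity)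
    (by rw [C.sqrt_d]; exact mul_le_of_le_one_left (by positivity) C.σ1)
    (mul_nonneg (by linarith only [hε, k1, k2]) (by positivity))
    (mul_le_mul_of_nonneg_right (by linarith only [hε]) (by positivity))
    (by rw [C.sqrt_d]; exact mul_le_mul_of_nonneg_right (by linarith only [hε, k1, k2, k3]) (by positivity))
    (by positivity) (fun B => (c / w ^ 8) • pos (goe (τ * w ^ 8) B)) (by fun_prop)
    (measurableSet_typ _ _) C.typ_prob
    (fun B hB => C.typ_prop hc0 hc4 (by rw [hcm]; field_simp) hu B hB _ rfl) ?_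
  · refine meas_not_le key fun x h y hy => ?_
    have hy1 : ∀ i, |y i| ≤ 1 / w ^ 23 := fun i => abs_le.2 (hy.1 i)
    have main : ∀ v, nrm v = 1 → ∃ v₀, nrm v₀ = 1 ∧ nrm (v - v₀) ≤ 1 / 8 ∧
        w ^ 16 * ∑ i, y i ≤ w ^ 16 - (φ - σ / 4 - 4 * ε) * w ^ 8 +
          σ * w ^ 8 * qf (gram y x) v₀ := fun v hv => by
      obtain ⟨v₀, S, h1, h2, h3, h4, h6⟩ := h y hy1 v hv
      refine ⟨v₀, h1, h2, ?_⟩
      have h7 := hy.weak (b := w ^ 16) h3.1
      rw [nuc_of_posSemidef h3] at h7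
      rw [C.sqrt_d, C.hd] at h6
      rw [C.hd] at h4
      have h8 : ∑ i, y i * (w ^ 16 - qf S (x i)) =
          ∑ i, y i * (w ^ 16 - qf S (x i) - σ * w ^ 8 * (x i ⬝ᵥ v₀) ^ 2) +
            σ * w ^ 8 * qf (gram y x) v₀ := by
        rw [qf_gram, mul_sum, ← sum_add_distrib]
        exact sum_congr rfl fun i _ => by ring
      linarith only [h4, h6, h7, h8]
    have p1 : 0 ≤ σ * w ^ 8 := by positivity
    have p2 := mul_le_mul_of_nonneg_right k1 (show 0 ≤ w ^ 8 by positivity)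
    constructor
    · obtain ⟨j⟩ : Nonempty κ := Fintype.card_pos_iff.1 (lt_of_lt_of_le (by norm_num) C.d_ge)
      obtain ⟨v₀, h1, -, h2⟩ := main (Pi.single j 1) (by rw [nrm_eq_one_iff]; simp)
      have h3 := (le_abs_self _).trans (hy.2 v₀)
      rw [nrm_eq_one_iff.1 h1] at h3
      linarith only [p1, p2, h2, h3, mul_le_mul_of_nonneg_left h3 p1]
    · rintro ⟨v, hv, h0⟩
      have hn := nrm_pos hv
      have h1 : nrm ((nrm v)⁻¹ • v) = 1 := by
        rw [nrm_smul, abs_of_pos (inv_pos.2 hn), inv_mul_cancel₀ hn.ne']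
      have h2 : qf (gram y x) ((nrm v)⁻¹ • v) ≤ -1 := by
        rw [qf_smul_vec, inv_pow, inv_mul_le_iff₀ (by positivity), nrm_sq]
        linarith only [h0]
      obtain ⟨v₀, h3, h4, h6⟩ := main _ h1
      have h7 := qf_sub_qf (gram_isHermitian y x) ((nrm v)⁻¹ • v) v₀
      have h8 := (neg_le_abs _).trans
        (abs_dot_mulVec_le (gram y x) ((nrm v)⁻¹ • v - v₀) ((nrm v)⁻¹ • v + v₀))
      have h9 : opn (gram y x) ≤ 1 :=
        opn_le_of_qf (gram_isHermitian y x) zero_le_one fun v => by rw [one_mul]; exact hy.2 v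
      have h10 : opn (gram y x) * nrm ((nrm v)⁻¹ • v - v₀) * nrm ((nrm v)⁻¹ • v + v₀) ≤
          1 * (1 / 8) * 2 := mul_le_mul (mul_le_mul h9 h4 (nrm_nonneg _) zero_le_one)
        ((nrm_add_le _ _).trans (by linarith only [h1, h3])) (nrm_nonneg _) (by norm_num)
      linarith only [p1, p2, h6, h2, h7, h8, h10, mul_le_mul_of_nonneg_left (show qf (gram y x) v₀ ≤ -3 / 4 by linarith only [h2, h7, h8, h10]) p1]
  · refine le_trans ?_ (C.big (a := 168) (k := 54) (by norm_num) (by norm_num))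
    have h3 : ρ * (12 * ρ) / ε ≤ 10 ^ 26 * K ^ 9 := by
      rw [div_le_iff₀ hε]
      calc ρ * (12 * ρ) ≤ K * (100 * K) * (10 ^ 24 * K ^ 7 * ε) := by
            rw [C.εK, mul_one]
            exact mul_le_mul C.P.hK (by linarith only [hε, k1, k2, k3, C.P.hK]) (by positivity) hK.le
        _ = _ := by ring
    calc 10 ^ 12 * (ρ * (12 * ρ) / ε) ^ 6 ≤ 10 ^ 12 * (10 ^ 26 * K ^ 9) ^ 6 :=
          mul_le_mul_of_nonneg_left (pow_le_pow_left₀ (by positivity) h3 6) (by positivity)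
      _ = _ := by ring
  · have h := C.P.lowerAO C.hε C.hσ hc0 hc1 hc2 (by positivity) hu
    rw [C.sqrt_n, C.sqrt_d, C.hd, show 2 * (c * (√m₂ + 1 / w ^ 3) * w ^ 8) ^ 2 +
      ((φ - σ / 8) * w ^ 8) ^ 2 + (20 * ρ * (σ * w ^ 8)) ^ 2 = (2 * (c * (√m₂ + 1 / w ^ 3)) ^ 2 +
        (φ - σ / 8) ^ 2 + (20 * ρ * σ) ^ 2) * (w ^ 8) ^ 2 by ring,
      Real.sqrt_mul' _ (by positivity), Real.sqrt_sq (by positivity)]
    linarith only [h, hw, mul_le_mul_of_nonneg_right h (show 0 ≤ w ^ 24 by positivity)]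

end Ctx

end Pool.Agent.Work.MP_6a50bc_pr
end
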