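import Mathlib
import Pool.Agent.Work.MP_6a50bc_pr.Net
import Pool.Agent.Work.MP_6a50bc_pr.Haar
import Pool.Agent.Work.MP_6a50bc_pr.Quad
import Pool.Agent.Work.MP_6a50bc_pr.Primal
import Pool.Agent.Work.MP_6a50bc_pr.Conc
import Pool.Agent.Work.MP_6a50bc_pr.LargeAux3

-- merged part: Pool.Agent.Work.MP_6a50bc_pr.Transfer
section
-- merged part: Pool.Agent.Work.MP_6a50bc_pr.ContractAux
section
/-! Symmetrisation and contraction for finite families of sums of independent terms. -/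

namespace Pool.Agent.Work.MP_6a50bc_pr.Contr

open MeasureTheory Finset

variable {A J X Ω : Type*} [MeasurableSpace X] [MeasurableSpace Ω]

lemma integral_mp {μ : Measure X} {ν : Measure Ω} {f : X → Ω} (hf : MeasurePreserving f μ ν)
    {F : Ω → ℝ} (hF : AEStronglyMeasurable F ν) : ∫ x, F (f x) ∂μ = ∫ y, F y ∂ν := by
  rw [← hf.map_eq] at hF ⊢
  exact (integral_map hf.measurable.aemeasurable hF).symm

lemma le_sup [Finite A] (z : A → ℝ) (a : A) : z a ≤ ⨆ b, z b :=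
  le_ciSup (Set.finite_range z).bddAbove a

lemma integrable_sup [Fintype A] [Nonempty A] {μ : Measure X} {F : A → X → ℝ}
    (hF : ∀ a, Integrable (F a) μ) : Integrable (fun x => ⨆ a, F a x) μ := by
  refine (integrable_finsetSum univ fun a _ => (hF a).abs).mono'
    (AEMeasurable.iSup fun a => (hF a).aemeasurable).aestronglyMeasurable
    (Filter.Eventually.of_forall fun x => ?_)
  obtain ⟨a, ha⟩ := exists_eq_ciSup_of_finite (f := fun a => F a x)
  rw [← ha, Real.norm_eq_abs]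
  exact single_le_sum (f := fun a => |F a x|) (fun _ _ => abs_nonneg _) (mem_univ a)

lemma integrable_lip {μ : Measure X} [IsFiniteMeasure μ] {φ : ℝ → ℝ}
    (hφ : ∀ s t, |φ s - φ t| ≤ |s - t|) {a : X → ℝ} (ha : Integrable a μ) :
    Integrable (fun x => φ (a x)) μ := by
  have hL : LipschitzWith 1 φ := LipschitzWith.of_dist_le_mul fun s t => by
    simpa [Real.dist_eq] using hφ s t
  refine ((integrable_const |φ 0|).add ha.abs).mono'
    (hL.continuous.comp_aestronglyMeasurable ha.aestronglyMeasurable)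
    (Filter.Eventually.of_forall fun x => ?_)
  have h1 := hφ (a x) 0
  have h2 := abs_add_le (φ (a x) - φ 0) (φ 0)
  simp only [sub_zero, sub_add_cancel] at h1 h2
  simp only [Real.norm_eq_abs, Pi.add_apply]
  linarith

/-- The pointwise inequality behind the contraction principle. -/
lemma sup_add_sup_le [Finite A] [Nonempty A] {φ : ℝ → ℝ} (hφ : ∀ s t, |φ s - φ t| ≤ |s - t|)
    (h u v : A → ℝ) :
    (⨆ a, h a + (φ (v a) - φ (u a))) + (⨆ a, h a + (φ (u a) - φ (v a))) ≤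
      (((⨆ a, h a + 2 * u a) + ⨆ a, h a + 2 * -u a) +
        ((⨆ a, h a + 2 * v a) + ⨆ a, h a + 2 * -v a)) / 2 := by
  obtain ⟨a, ha⟩ := exists_eq_ciSup_of_finite (f := fun a => h a + (φ (v a) - φ (u a)))
  obtain ⟨b, hb⟩ := exists_eq_ciSup_of_finite (f := fun a => h a + (φ (u a) - φ (v a)))
  rw [← ha, ← hb]
  have h1 := (le_abs_self _).trans (hφ (v a) (v b))
  have h2 := (le_abs_self _).trans (hφ (u b) (u a))
  have p1 := le_sup (fun a => h a + 2 * u a) a
  have p2 := le_sup (fun a => h a + 2 * u a) b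
  have p3 := le_sup (fun a => h a + 2 * -u a) a
  have p4 := le_sup (fun a => h a + 2 * -u a) b
  have p5 := le_sup (fun a => h a + 2 * v a) a
  have p6 := le_sup (fun a => h a + 2 * v a) b
  have p7 := le_sup (fun a => h a + 2 * -v a) a
  have p8 := le_sup (fun a => h a + 2 * -v a) b
  rcases abs_cases (v a - v b) with ⟨e1, -⟩ | ⟨e1, -⟩ <;>
    rcases abs_cases (u b - u a) with ⟨e2, -⟩ | ⟨e2, -⟩ <;> linarith only [h1, h2, p2, p3, p5, p8, e1, e2, p1, p4, p6, p7]

/-- One step of symmetrisation and contraction. -/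
lemma one_step [Fintype A] [Nonempty A] {ν : Measure Ω} [IsProbabilityMeasure ν] {σ : Ω → Ω}
    (hσ : MeasurePreserving σ ν ν) {φ : ℝ → ℝ} (hφ : ∀ s t, |φ s - φ t| ≤ |s - t|)
    {u : A → Ω → ℝ} (hu : ∀ a, Integrable (u a) ν) (hodd : ∀ a ω, u a (σ ω) = -u a ω)
    (h : A → ℝ) :
    ∫ ω, (⨆ a, h a + (∫ ω', φ (u a ω') ∂ν - φ (u a ω))) ∂ν ≤
      ∫ ω, (⨆ a, h a + 2 * u a ω) ∂ν := by
  have hφu : ∀ a, Integrable (fun ω => φ (u a ω)) ν := fun a => integrable_lip hφ (hu a)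
  let F : Ω × Ω → ℝ := fun q => ⨆ a, h a + (φ (u a q.2) - φ (u a q.1))
  have hF : Integrable F (ν.prod ν) := integrable_sup fun a =>
    (integrable_const _).add (((hφu a).comp_snd ν).sub ((hφu a).comp_fst ν))
  have hF' : Integrable (fun q : Ω × Ω => F q.swap) (ν.prod ν) := hF.swap
  let M : Ω → ℝ := fun ω => ⨆ a, h a + 2 * u a ω
  have hM : Integrable M ν := integrable_sup fun a => (integrable_const _).add ((hu a).const_mul 2)
  have hMσ : Integrable (fun ω => M (σ ω)) ν := hσ.integrable_comp_of_integrable hM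
  have hN : Integrable (fun ω => M ω + M (σ ω)) ν := hM.add hMσ
  have hNi : ∫ ω, M ω + M (σ ω) ∂ν = 2 * ∫ ω, M ω ∂ν := by
    rw [integral_add hM hMσ, integral_mp hσ hM.aestronglyMeasurable]; ring
  have h1 : ∫ ω, (⨆ a, h a + (∫ ω', φ (u a ω') ∂ν - φ (u a ω))) ∂ν ≤ ∫ q, F q ∂(ν.prod ν) := by
    rw [integral_prod _ hF]
    refine integral_mono (integrable_sup fun a => (integrable_const _).add
      ((integrable_const _).sub (hφu a))) hF.integral_prod_left fun ω => ciSup_le fun a => ?_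
    have i0 : ∀ b, Integrable (fun ω' => φ (u b ω') - φ (u b ω)) ν := fun b =>
      (hφu b).sub (integrable_const _)
    have i1 : ∀ b, Integrable (fun ω' => h b + (φ (u b ω') - φ (u b ω))) ν := fun b =>
      (integrable_const _).add (i0 b)
    have e : h a + (∫ ω', φ (u a ω') ∂ν - φ (u a ω)) =
        ∫ ω', (h a + (φ (u a ω') - φ (u a ω))) ∂ν := by
      rw [integral_add (integrable_const _) (i0 a), integral_sub (hφu a) (integrable_const _)]
      simp
    rw [e]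
    exact integral_mono (i1 a) (integrable_sup i1)
      fun ω' => le_sup (fun b => h b + (φ (u b ω') - φ (u b ω))) a
  have h2 : ∫ q, F q.swap ∂(ν.prod ν) = ∫ q, F q ∂(ν.prod ν) := integral_prod_swap F
  have h3 : ∫ q, F q + F q.swap ∂(ν.prod ν) ≤
      ∫ q : Ω × Ω, ((M q.1 + M (σ q.1)) + (M q.2 + M (σ q.2))) / 2 ∂(ν.prod ν) := by
    refine integral_mono (hF.add hF') (((hN.comp_fst ν).add (hN.comp_snd ν)).div_const 2)
      fun q => ?_
    have := sup_add_sup_le hφ h (fun a => u a q.1) (fun a => u a q.2)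
    simpa only [F, M, hodd, Prod.fst_swap, Prod.snd_swap] using this
  rw [integral_add hF hF', h2, integral_div, integral_add (hN.comp_fst ν) (hN.comp_snd ν),
    integral_mp (F := fun ω => M ω + M (σ ω)) measurePreserving_fst hN.aestronglyMeasurable,
    integral_mp (F := fun ω => M ω + M (σ ω)) measurePreserving_snd hN.aestronglyMeasurable,
    hNi] at h3
  change _ ≤ ∫ ω, M ω ∂ν
  linarith only [h1, h3]

/-- Symmetrisation and contraction for a sum over independent blocks. -/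
lemma contraction [Fintype A] [Nonempty A] [Fintype J] {μ : Measure X} [IsProbabilityMeasure μ]
    {ν : Measure Ω} [IsProbabilityMeasure ν] {σ : Ω → Ω}
    (hσ : MeasurePreserving σ ν ν) {φ : ℝ → ℝ} (hφ : ∀ s t, |φ s - φ t| ≤ |s - t|)
    {u : A → Ω → ℝ} (hu : ∀ a, Integrable (u a) ν) (hodd : ∀ a ω, u a (σ ω) = -u a ω)
    {p : J → X → Ω} (hp : ∀ j, MeasurePreserving (p j) μ ν) {r : J → X × Ω → X}
    (hr : ∀ j, MeasurePreserving (r j) (μ.prod ν) μ) (h1 : ∀ j x y, p j (r j (x, y)) = y)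
    (h2 : ∀ j k x y, k ≠ j → p k (r j (x, y)) = p k x) :
    ∫ x, (⨆ a, ∑ j, (∫ ω, φ (u a ω) ∂ν - φ (u a (p j x)))) ∂μ ≤
      ∫ x, (⨆ a, ∑ j, 2 * u a (p j x)) ∂μ := by
  classical
  have hφu : ∀ a, Integrable (fun ω => φ (u a ω)) ν := fun a => integrable_lip hφ (hu a)
  let t : Finset J → A → J → Ω → ℝ := fun s a j ω =>
    if j ∈ s then 2 * u a ω else ∫ ω, φ (u a ω) ∂ν - φ (u a ω)
  have ht : ∀ s a j, Integrable (t s a j) ν := fun s a j => by
    by_cases hj : j ∈ s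
    · simpa only [t, hj, if_true] using (hu a).const_mul 2
    · simp only [t, hj, if_false]
      exact (integrable_const _).sub (hφu a)
  let G : Finset J → X → ℝ := fun s x => ⨆ a, ∑ j, t s a j (p j x)
  have hG : ∀ s, Integrable (G s) μ := fun s => integrable_sup fun a =>
    integrable_finsetSum _ fun j _ => (hp j).integrable_comp_of_integrable (ht s a j)
  have step : ∀ (s : Finset J) (j : J), j ∉ s → ∫ x, G s x ∂μ ≤ ∫ x, G (insert j s) x ∂μ := by
    intro s j hj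
    have i1 : Integrable (fun q => G s (r j q)) (μ.prod ν) :=
      (hr j).integrable_comp_of_integrable (hG s)
    have i2 : Integrable (fun q => G (insert j s) (r j q)) (μ.prod ν) :=
      (hr j).integrable_comp_of_integrable (hG _)
    rw [← integral_mp (hr j) (hG s).aestronglyMeasurable,
      ← integral_mp (hr j) (hG _).aestronglyMeasurable, integral_prod _ i1, integral_prod _ i2]
    refine integral_mono i1.integral_prod_left i2.integral_prod_left fun x => ?_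
    have key : ∀ (s' : Finset J) (y : Ω), (∀ k, k ≠ j → (k ∈ s' ↔ k ∈ s)) → G s' (r j (x, y)) =
        ⨆ a, (∑ k ∈ univ.erase j, t s a k (p k x)) + t s' a j y := fun s' y hs => by
      refine iSup_congr fun a => ?_
      rw [← sum_erase_add _ _ (mem_univ j), h1]
      congr 1
      refine sum_congr rfl fun k hk => ?_
      have hk' := ne_of_mem_erase hk
      rw [h2 j k x y hk']
      simp only [t, hs k hk']
    have := one_step hσ hφ hu hodd fun a => ∑ k ∈ univ.erase j, t s a k (p k x)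
    refine le_of_eq_of_le ?_ (this.trans_eq ?_)
    · refine integral_congr_ae (Filter.Eventually.of_forall fun y => ?_)
      simp only
      rw [key s y fun _ _ => Iff.rfl]
      simp only [t, hj, if_false]
    · refine integral_congr_ae (Filter.Eventually.of_forall fun y => ?_)
      simp only
      rw [key (insert j s) y fun k hk => by simp [hk]]
      simp only [t, mem_insert_self, if_true]
  have all : ∀ s : Finset J, ∫ x, G ∅ x ∂μ ≤ ∫ x, G s x ∂μ := fun s => by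
    induction s using Finset.induction_on with
    | empty => exact le_rfl
    | insert j s hj ih => exact ih.trans (step s j hj)
  simpa only [G, t, notMem_empty, if_false, mem_univ, if_true] using all univ

end Pool.Agent.Work.MP_6a50bc_pr.Contr
end

-- merged part: Pool.Agent.Work.MP_6a50bc_pr.Contract
section
namespace Pool.Agent.Work.MP_6a50bc_pr

open MeasureTheory ProbabilityTheory Matrix Finset
open scoped ENNReal

variable {ι κ : Type*} [Fintype ι] [DecidableEq ι] [Fintype κ] [DecidableEq κ]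

namespace Contr

/-- The difference of the values of a quadratic form at the two points of a pair. -/
def dq (T : Matrix κ κ ℝ) (q : (κ → ℝ) × (κ → ℝ)) : ℝ := qf T q.1 - qf T q.2

lemma integrable_dq (T : Matrix κ κ ℝ) : Integrable (dq T) ((gv κ).prod (gv κ)) := by
  have h : Integrable (fun g => cq T g) (gv κ) := by simpa using integrable_cq_pow T 1
  have h2 := (h.comp_fst (gv κ)).sub (h.comp_snd (gv κ))
  refine h2.congr (Filter.Eventually.of_forall fun q => ?_)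
  simp [dq, cq]

lemma min_lip (f s t : ℝ) : |min |s| f - min |t| f| ≤ |s - t| := by
  refine (abs_min_sub_min_le_max _ _ _ _).trans ?_
  rw [sub_self, abs_zero]
  exact max_le (abs_abs_sub_abs_le_abs_sub s t) (abs_nonneg _)

lemma poly_le_min {f : ℝ} (hf : 0 < f) (s : ℝ) :
    (1 / 20000 / f) * s ^ 2 - (1 / (16 * 10 ^ 8) / f ^ 3) * s ^ 4 ≤ min |s| f := by
  obtain ⟨t, rfl⟩ : ∃ t, s = f * t := ⟨s / f, by field_simp⟩
  have e : (1 / 20000 / f) * (f * t) ^ 2 - (1 / (16 * 10 ^ 8) / f ^ 3) * (f * t) ^ 4 =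
      f * ((1 / 20000) * t ^ 2 - (1 / (16 * 10 ^ 8)) * t ^ 4) := by field_simp
  rw [e, abs_mul, abs_of_pos hf]
  have h1 : (1 / 20000) * t ^ 2 - (1 / (16 * 10 ^ 8)) * t ^ 4 ≤ (1 : ℝ) := by
    nlinarith only [sq_nonneg (1 - t ^ 2 / 40000)]
  refine le_min (mul_le_mul_of_nonneg_left ?_ hf.le) (mul_le_of_le_one_right hf.le h1)
  rcases le_total |t| 1 with h | h
  · have h2 : t ^ 2 ≤ |t| := by rw [← sq_abs]; nlinarith only [h, abs_nonneg t]
    nlinarith only [h2, abs_nonneg t, sq_nonneg (t ^ 2)]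
  · exact h1.trans h

lemma le_integral_min {T : Matrix κ κ ℝ} (hT : T.IsHermitian) {f : ℝ} (hf : 0 < f)
    (hTf : fro T = f) : f / 10 ^ 4 ≤ ∫ q, min |dq T q| f ∂((gv κ).prod (gv κ)) := by
  let S : Matrix (κ ⊕ κ) (κ ⊕ κ) ℝ := fromBlocks T 0 0 (-T)
  have hS : S.IsHermitian := by
    rw [isHermitian_iff] at hT ⊢
    simp [S, fromBlocks_transpose, hT]
  have hcq : ∀ q : (κ → ℝ) × (κ → ℝ), cq S (Sum.elim q.1 q.2) = dq T q := fun q => by
    have h1 : S.trace = 0 := by simp [S, Matrix.trace, Fintype.sum_sum_type]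
    simp [cq, h1, qf, dq, S, fromBlocks_mulVec, sumElim_dotProduct_sumElim, neg_mulVec,
      sub_eq_add_neg]
  have hfro : fro S ^ 2 = 2 * f ^ 2 := by
    rw [← hTf, fro_sq, fro_sq]
    simp [ip, S, Fintype.sum_sum_type, two_mul]
  have h2 := integral_cq_sq hS
  have h4 := integral_cq_four_le hS
  rw [show fro S ^ 4 = (fro S ^ 2) ^ 2 by ring, hfro] at h4
  rw [hfro] at h2
  have i1 : Integrable (fun g => cq S g) (gv (κ ⊕ κ)) := by simpa using integrable_cq_pow S 1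
  have i2 : Integrable (fun g => min |cq S g| f) (gv (κ ⊕ κ)) :=
    integrable_lip (φ := fun s => min |s| f) (min_lip f) i1
  have e := integral_mp (mp_sum_symm (m := κ) (n := κ)) i2.aestronglyMeasurable
  simp only [hcq] at e
  rw [e]
  have i3 := (integrable_cq_pow S 2).const_mul (1 / 20000 / f)
  have i4 := (integrable_cq_pow S 4).const_mul (1 / (16 * 10 ^ 8) / f ^ 3)
  have h5 := integral_mono (i3.sub i4) i2 fun g => poly_le_min hf (cq S g)
  simp only [Pi.sub_apply] at h5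
  rw [integral_sub i3 i4, integral_const_mul, integral_const_mul, h2] at h5
  refine le_trans ?_ h5
  have h6 := mul_le_mul_of_nonneg_left h4
    (show (0 : ℝ) ≤ 1 / (16 * 10 ^ 8) / f ^ 3 by positivity)
  have e1 : 1 / (16 * 10 ^ 8) / f ^ 3 * (10 ^ 4 * (2 * f ^ 2) ^ 2) = f / 40000 := by
    field_simp; norm_num
  have e2 : 1 / 20000 / f * (2 * (2 * f ^ 2)) = f / 5000 := by field_simp; norm_num
  rw [e1] at h6
  rw [e2]
  linarith only [hf, h6]

/-- Pairing a symmetric matrix with a positive matrix that is almost supported on `K`. -/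
lemma ip_le_block {M T : Matrix κ κ ℝ} (hM : M.IsHermitian) (hT : T.PosSemidef) {K : Finset κ}
    {c τ θ : ℝ} (hc0 : 0 ≤ c) (hθ : 0 ≤ θ)
    (hc : ∀ v : κ → ℝ, (∀ a, a ∉ K → v a = 0) → qf M v ≤ c * (v ⬝ᵥ v))
    (htr : T.trace ≤ τ) (hK : ∑ a ∈ Kᶜ, T a a ≤ θ * τ) :
    ip M T ≤ c * τ + 3 * opn M * (√θ * τ) := by
  obtain ⟨U, l, hU, hl, rfl⟩ := exists_spec_nonneg hT
  rw [trace_spec hU] at htr
  have hτ : 0 ≤ τ := (sum_nonneg fun j _ => hl j).trans htr
  let v : κ → κ → ℝ := fun j a => if a ∈ K then U a j else 0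
  let w : κ → κ → ℝ := fun j a => if a ∈ K then 0 else U a j
  have hvw : ∀ j, Uᵀ j = v j + w j := fun j => by
    funext a; by_cases ha : a ∈ K <;> simp [v, w, ha]
  have h1 : ∀ j, nrm (Uᵀ j) = 1 := fun j => nrm_eq_one_iff.2 (hU.col_dot_self j)
  have hv : ∀ j, nrm (v j) ≤ 1 := fun j => (h1 j) ▸ nrm_mono fun a => by
    by_cases ha : a ∈ K <;> simp [v, ha]
  have hw : ∀ j, nrm (w j) ≤ 1 := fun j => (h1 j) ▸ nrm_mono fun a => by
    by_cases ha : a ∈ K <;> simp [w, ha]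
  have hq : ∀ j, qf M (Uᵀ j) ≤ c + 3 * opn M * nrm (w j) := fun j => by
    rw [hvw, qf_add_vec hM]
    have p1 := hc (v j) fun a ha => by simp [v, ha]
    have p2 := (le_abs_self _).trans (abs_dot_mulVec_le M (v j) (w j))
    have p3 := (le_abs_self _).trans (abs_qf_le_opn M (w j))
    rw [← nrm_sq] at p1 p3
    have n1 := nrm_nonneg (v j)
    have n2 := nrm_nonneg (w j)
    have n3 := opn_nonneg M
    have q1 : c * nrm (v j) ^ 2 ≤ c := mul_le_of_le_one_right hc0 (pow_le_one₀ n1 (hv j))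
    have q2 : opn M * nrm (v j) * nrm (w j) ≤ opn M * nrm (w j) :=
      mul_le_mul_of_nonneg_right (mul_le_of_le_one_right n3 (hv j)) n2
    have q3 : opn M * nrm (w j) ^ 2 ≤ opn M * nrm (w j) :=
      mul_le_mul_of_nonneg_left (by nlinarith only [n2, hw j]) n3
    linarith
  have hs : ∑ j, l j * nrm (w j) ^ 2 = ∑ a ∈ Kᶜ, spec U l a a := by
    simp only [nrm_sq, spec_apply, dotProduct, mul_sum]
    rw [sum_comm, ← sum_subset (subset_univ Kᶜ) fun a _ ha => by
      have : a ∈ K := by simpa using ha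
      simp [w, this]]
    refine sum_congr rfl fun a ha => ?_
    have : a ∉ K := by simpa using ha
    simp [w, this]
  have hcs : ∑ j, l j * nrm (w j) ≤ √θ * τ := by
    have h2 := sum_sq_le_sum_mul_sum_of_sq_le_mul univ (r := fun j => l j * nrm (w j)) (f := l)
      (g := fun j => l j * nrm (w j) ^ 2) (fun j _ => hl j)
      (fun j _ => mul_nonneg (hl j) (sq_nonneg _)) fun j _ => le_of_eq (by ring)
    rw [hs] at h2
    refine (abs_le_of_sq_le_sq' (h2.trans ?_) (by positivity)).2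
    rw [mul_pow, Real.sq_sqrt hθ]
    have h3 : 0 ≤ ∑ a ∈ Kᶜ, spec U l a a := hs ▸ sum_nonneg fun j _ =>
      mul_nonneg (hl j) (sq_nonneg _)
    calc _ ≤ τ * (θ * τ) := mul_le_mul htr hK h3 hτ
      _ = _ := by ring
  rw [ip_spec]
  calc ∑ j, l j * qf M (Uᵀ j) ≤ ∑ j, l j * (c + 3 * opn M * nrm (w j)) :=
        sum_le_sum fun j _ => mul_le_mul_of_nonneg_left (hq j) (hl j)
    _ = c * ∑ j, l j + 3 * opn M * ∑ j, l j * nrm (w j) := by
        rw [mul_sum, mul_sum, ← sum_add_distrib]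
        exact sum_congr rfl fun j _ => by ring
    _ ≤ _ := add_le_add (mul_le_mul_of_nonneg_left htr hc0)
        (mul_le_mul_of_nonneg_left hcs (mul_nonneg (by norm_num) (opn_nonneg M)))

/-- The centred Gram matrix. -/
noncomputable def dev (x : ι → κ → ℝ) : Matrix κ κ ℝ :=
  gram 1 x - (Fintype.card ι : ℝ) • (1 : Matrix κ κ ℝ)

omit [DecidableEq ι] [Fintype κ] in
lemma dev_isHermitian (x : ι → κ → ℝ) : (dev x).IsHermitian := by
  have := isHermitian_iff.1 (gram_isHermitian 1 x)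
  rw [isHermitian_iff, dev, transpose_sub, this, transpose_smul, transpose_one]

omit [DecidableEq ι] in
lemma qf_dev_block (K : Finset κ) (x : ι → κ → ℝ) {v : κ → ℝ} (hv : ∀ a, a ∉ K → v a = 0) :
    |qf (dev x) v| ≤ opn (dev fun i (a : K) => x i a) * (v ⬝ᵥ v) := by
  have h1 : ∀ y : κ → ℝ, y ⬝ᵥ v = (fun a : K => y a) ⬝ᵥ fun a : K => v a := fun y => by
    rw [dotProduct, dotProduct, sum_coe_sort K fun a => y a * v a]
    exact (sum_subset (subset_univ K) fun a _ ha => by rw [hv a ha, mul_zero]).symm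
  have h2 : qf (dev x) v = qf (dev fun i (a : K) => x i a) fun a : K => v a := by
    simp only [dev, qf_sub, qf_smul, qf_one, qf_gram, h1]
  rw [h2, h1 v]
  exact abs_qf_le_opn _ _

/-- The bound for the linear process. -/
noncomputable def lin (K : Finset κ) (τ θ : ℝ) (x : ι → κ → ℝ) : ℝ :=
  opn (dev fun i (a : K) => x i a) * τ + 3 * opn (dev x) * (√θ * τ)

omit [DecidableEq ι] in
lemma abs_ip_dev_le {T : Matrix κ κ ℝ} (hT : T.PosSemidef) {K : Finset κ} {τ θ : ℝ} (hθ : 0 ≤ θ)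
    (htr : T.trace ≤ τ) (hK : ∑ a ∈ Kᶜ, T a a ≤ θ * τ) (x : ι → κ → ℝ) :
    |ip (dev x) T| ≤ lin K τ θ x := by
  have h1 := ip_le_block (dev_isHermitian x) hT (opn_nonneg _) hθ
    (fun v hv => (le_abs_self _).trans (qf_dev_block K x hv)) htr hK
  have h2 := ip_le_block (dev_isHermitian x).neg hT (opn_nonneg _) hθ
    (fun v hv => by rw [qf_neg]; exact (neg_le_abs _).trans (qf_dev_block K x hv)) htr hK
  rw [ip_neg_left, opn_neg] at h2
  exact abs_le.2 ⟨by rw [lin]; linarith, h1⟩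

lemma integral_lin {K : Finset κ} {ρ τ θ : ℝ} (hρ : 1 ≤ ρ)
    (hlog : Real.log (16 * √(Fintype.card κ) + 2) ≤ ρ)
    (hm : Fintype.card κ * ρ ≤ Fintype.card ι) (hτ : 0 ≤ τ) :
    Integrable (lin K τ θ) (gm ι κ) ∧ ∫ x, lin K τ θ x ∂(gm ι κ) ≤
      60 * τ * (√(Fintype.card ι * K.card * ρ) + √θ * √(Fintype.card ι * Fintype.card κ * ρ)) := by
  have hk : (Fintype.card K : ℝ) ≤ Fintype.card κ := by
    exact_mod_cast Fintype.card_subtype_le _
  obtain ⟨i1, b1⟩ := gram_dev_integral (ι := ι) (κ := κ) hρ hlog hm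
  obtain ⟨i2, b2⟩ := gram_dev_integral (ι := ι) (κ := K) hρ
    (le_trans (Real.log_le_log (by positivity) (by gcongr)) hlog)
    (le_trans (mul_le_mul_of_nonneg_right hk (by linarith)) hm)
  have mp := mp_comp_col (ι := ι) (e := fun a : K => (a : κ)) Subtype.val_injective
  have i3 : Integrable (fun x : ι → κ → ℝ => opn (dev fun i (a : K) => x i a) * τ) (gm ι κ) :=
    (mp.integrable_comp_of_integrable i2).mul_const τ
  have i4 : Integrable (fun x : ι → κ → ℝ => 3 * opn (dev x) * (√θ * τ)) (gm ι κ) :=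
    (i1.const_mul 3).mul_const _
  refine ⟨i3.add i4, ?_⟩
  have e := integral_mp mp i2.aestronglyMeasurable
  rw [Fintype.card_coe] at b2
  simp only [lin]
  rw [integral_add i3 i4, integral_mul_const, integral_mul_const, integral_const_mul]
  simp only [dev]
  rw [e]
  have p1 := mul_le_mul_of_nonneg_right b2 hτ
  have p2 := mul_le_mul_of_nonneg_right b1 (show 0 ≤ √θ * τ by positivity)
  have p3 : 0 ≤ √(Fintype.card ι * K.card * ρ) * τ := by positivity
  nlinarith only [p1, p2, p3]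

omit [DecidableEq κ] in
lemma mp_update_pair (i i' : ι) :
    MeasurePreserving (fun q : (ι → κ → ℝ) × ((κ → ℝ) × (κ → ℝ)) =>
      Function.update (Function.update q.1 i q.2.1) i' q.2.2)
      ((gm ι κ).prod ((gv κ).prod (gv κ))) (gm ι κ) :=
  (mp_update i').comp (((mp_update i).prod (MeasurePreserving.id (gv κ))).comp
    (measurePreserving_prodAssoc (gm ι κ) (gv κ) (gv κ)).symm)

omit [DecidableEq κ] in
lemma mp_two {i i' : ι} (h : i ≠ i') :
    MeasurePreserving (fun x : ι → κ → ℝ => (x i, x i')) (gm ι κ) ((gv κ).prod (gv κ)) := by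
  have hm : Measurable fun x : ι → κ → ℝ => (x i, x i') := by fun_prop
  refine ⟨hm, ?_⟩
  rw [← (mp_update_pair (κ := κ) i i').map_eq, Measure.map_map hm (mp_update_pair i i').measurable]
  refine Eq.trans ?_ (measurePreserving_snd (μ := gm ι κ) (ν := (gv κ).prod (gv κ))).map_eq
  congr 1
  funext q
  simp [h]

end Contr

open Contr

omit [DecidableEq ι] in
/-- Uniform small ball estimate for differences of quadratic forms over matrices that are almost
supported on the coordinates in `K`. -/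
theorem small_ball {J : Type*} [Fintype J] [Nonempty J] {e₁ e₂ : J → ι}
    (he : Function.Injective (Sum.elim e₁ e₂)) {K : Finset κ} (hK : K.Nonempty) {ρ τ θ f : ℝ}
    (hρ : 1 ≤ ρ) (hlog : Real.log (16 * √(Fintype.card κ) + 2) ≤ ρ)
    (hm : Fintype.card κ * ρ ≤ Fintype.card J) (hθ : 0 ≤ θ) (hθ1 : θ ≤ 1) (hf : 0 < f) :
    gm ι κ {x | ∃ T : Matrix κ κ ℝ, T.PosSemidef ∧ T.trace ≤ τ ∧ ∑ a ∈ Kᶜ, T a a ≤ θ * τ ∧
        fro T = f ∧
        ∑ j, min |qf T (x (e₁ j)) - qf T (x (e₂ j))| f ≤ Fintype.card J * f / (2 * 10 ^ 4)} ≤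
      ENNReal.ofReal (10 ^ 7 * τ * (√(Fintype.card J * K.card * ρ) +
        √θ * √(Fintype.card J * Fintype.card κ * ρ)) / (Fintype.card J * f)) := by
  classical
  let C : Set (Matrix κ κ ℝ) :=
    {T | T.PosSemidef ∧ T.trace ≤ τ ∧ ∑ a ∈ Kᶜ, T a a ≤ θ * τ ∧ fro T = f}
  rcases C.eq_empty_or_nonempty with hC | ⟨T₀, hT₀⟩
  · refine le_of_eq_of_le (measure_mono_null ?_ measure_empty) zero_le
    rintro x ⟨T, h1, h2, h3, h4, -⟩
    exact hC.subset ⟨h1, h2, h3, h4⟩
  have hfτ : f ≤ τ := hT₀.2.2.2 ▸ (fro_le_trace hT₀.1).trans hT₀.2.1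
  have hτ : 0 ≤ τ := hf.le.trans hfτ
  have hJ : (1 : ℝ) ≤ Fintype.card J := by exact_mod_cast Fintype.card_pos
  have hk : (1 : ℝ) ≤ K.card := by exact_mod_cast hK.card_pos
  have hd : (1 : ℝ) ≤ Fintype.card κ := hk.trans (by exact_mod_cast card_le_univ K)
  have h11 : Function.Injective e₁ := fun j k h =>
    Sum.inl_injective (he (a₁ := .inl j) (a₂ := .inl k) h)
  have h22 : Function.Injective e₂ := fun j k h =>
    Sum.inr_injective (he (a₁ := .inr j) (a₂ := .inr k) h)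
  have h12 : ∀ j k, e₁ j ≠ e₂ k := fun j k h =>
    Sum.inl_ne_inr (he (a₁ := .inl j) (a₂ := .inr k) h)
  set m : ℝ := (Fintype.card J : ℝ) with hmdef
  set d : ℝ := (Fintype.card κ : ℝ) with hddef
  set η : ℝ := f / (2 * m * d ^ 2) with hη
  have hη0 : 0 < η := by positivity
  obtain ⟨N, hN, -, hnet⟩ := exists_net (fun (T : Matrix κ κ ℝ) (q : κ × κ) => T q.1 q.2) C hf.le
    hη0 fun T hT q => hT.2.2.2 ▸ abs_le_fro T q.1 q.2
  let A := Option N
  let mat : A → Matrix κ κ ℝ := fun a => a.elim 0 fun T => T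
  let p : J → (ι → κ → ℝ) → (κ → ℝ) × (κ → ℝ) := fun j x => (x (e₁ j), x (e₂ j))
  have hp : ∀ j, MeasurePreserving (p j) (gm ι κ) ((gv κ).prod (gv κ)) := fun j => mp_two (h12 j j)
  have hcon := contraction (A := A) (μ := gm ι κ) (σ := Prod.swap) Measure.measurePreserving_swap
    (φ := fun s => min |s| f) (min_lip f) (u := fun a => dq (mat a)) (fun a => integrable_dq _)
    (fun a q => by simp [dq]) hp (fun j => mp_update_pair (e₁ j) (e₂ j))
    (fun j x y => by simp [p, h12 j j])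
    (fun j k x y hk => by simp [p, h12 k j, (h12 j k).symm, h11.ne hk, h22.ne hk])
  let c : A → ℝ := fun a => ∫ q, min |dq (mat a) q| f ∂((gv κ).prod (gv κ))
  let Z₁ : (ι → κ → ℝ) → ℝ := fun x => ⨆ a, ∑ j, (c a - min |dq (mat a) (p j x)| f)
  let Z₂ : (ι → κ → ℝ) → ℝ := fun x => ∑ j, (x (e₁ j) ⬝ᵥ x (e₁ j) + x (e₂ j) ⬝ᵥ x (e₂ j))
  have iZ₁ : Integrable Z₁ (gm ι κ) := integrable_sup fun a => integrable_finsetSum _ fun j _ =>
    (integrable_const _).sub ((hp j).integrable_comp_of_integrable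
      (integrable_lip (φ := fun s => min |s| f) (min_lip f) (integrable_dq _)))
  have idot : Integrable (fun g : κ → ℝ => g ⬝ᵥ g) (gv κ) := by
    simpa only [nrm_sq] using integrable_nrm_pow (κ := κ) 2
  have idot' : ∀ i : ι, Integrable (fun x : ι → κ → ℝ => x i ⬝ᵥ x i) (gm ι κ) := fun i =>
    (mp_eval i).integrable_comp_of_integrable idot
  have edot : ∀ i : ι, ∫ x, x i ⬝ᵥ x i ∂(gm ι κ) = d := fun i =>
    (integral_mp (mp_eval i) idot.aestronglyMeasurable).trans integral_dot_self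
  have iZ₂' : ∀ j, Integrable
      (fun x : ι → κ → ℝ => x (e₁ j) ⬝ᵥ x (e₁ j) + x (e₂ j) ⬝ᵥ x (e₂ j)) (gm ι κ) := fun j =>
    (idot' _).add (idot' _)
  have iZ₂ : Integrable Z₂ (gm ι κ) := integrable_finsetSum _ fun j _ => iZ₂' j
  have eZ₂ : ∫ x, Z₂ x ∂(gm ι κ) = 2 * m * d := by
    rw [integral_finsetSum _ fun j _ => iZ₂' j]
    simp only [integral_add (idot' _) (idot' _), edot, sum_const, card_univ, nsmul_eq_mul]
    ring
  obtain ⟨il, bl⟩ := integral_lin (ι := J) (K := K) (θ := θ) hρ hlog hm hτ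
  have il1 : Integrable (fun x : ι → κ → ℝ => lin K τ θ fun j => x (e₁ j)) (gm ι κ) :=
    (mp_comp h11).integrable_comp_of_integrable il
  have il2 : Integrable (fun x : ι → κ → ℝ => lin K τ θ fun j => x (e₂ j)) (gm ι κ) :=
    (mp_comp h22).integrable_comp_of_integrable il
  have hlin : ∀ (x : ι → κ → ℝ) (a : A), ∑ j, 2 * dq (mat a) (p j x) ≤
      2 * ((lin K τ θ fun j => x (e₁ j)) + lin K τ θ fun j => x (e₂ j)) := fun x a => by
    have hT : (mat a).PosSemidef ∧ (mat a).trace ≤ τ ∧ ∑ b ∈ Kᶜ, mat a b b ≤ θ * τ := by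
      cases a with
      | none => exact ⟨PosSemidef.zero, by simpa [mat] using hτ, by
          simpa [mat] using mul_nonneg hθ hτ⟩
      | some T => exact ⟨(hN T T.2).1, (hN T T.2).2.1, (hN T T.2).2.2.1⟩
    have p1 := abs_le.1 (abs_ip_dev_le hT.1 hθ hT.2.1 hT.2.2 fun j => x (e₁ j))
    have p2 := abs_le.1 (abs_ip_dev_le hT.1 hθ hT.2.1 hT.2.2 fun j => x (e₂ j))
    simp only [dev, ip_sub_left, ip_gram, Pi.one_apply, one_mul] at p1 p2
    simp only [dq, p, ← mul_sum, sum_sub_distrib]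
    linarith only [p1, p2, p1.2, p2.1]
  have bZ₁ : ∫ x, Z₁ x ∂(gm ι κ) ≤ 240 * τ * (√(m * K.card * ρ) + √θ * √(m * d * ρ)) := by
    refine hcon.trans ((integral_mono (integrable_sup fun a => integrable_finsetSum _ fun j _ =>
      ((hp j).integrable_comp_of_integrable (integrable_dq _)).const_mul 2)
      ((il1.add il2).const_mul 2) fun x => ciSup_le (hlin x)).trans ?_)
    rw [integral_const_mul]
    simp only [Pi.add_apply]
    rw [integral_add il1 il2, integral_mp (mp_comp h11) il.aestronglyMeasurable,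
      integral_mp (mp_comp h22) il.aestronglyMeasurable]
    linarith only [bl]
  have hZ₁ : ∀ x, 0 ≤ Z₁ x := fun x => by
    refine le_trans (le_of_eq ?_)
      (le_sup (fun a : A => ∑ j, (c a - min |dq (mat a) (p j x)| f)) none)
    simp [c, mat, dq, hf.le]
  have hZ₂ : ∀ x, 0 ≤ Z₂ x := fun x =>
    sum_nonneg fun j _ => add_nonneg (dot_self_nonneg _) (dot_self_nonneg _)
  have iZ : Integrable (fun x => Z₁ x + d * η * Z₂ x) (gm ι κ) := iZ₁.add (iZ₂.const_mul _)
  have hmark := measure_ge_le iZ (fun x => add_nonneg (hZ₁ x) (mul_nonneg (by positivity) (hZ₂ x)))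
    (c := m * f / (2 * 10 ^ 4)) (by positivity)
  refine le_trans (measure_mono ?_) (hmark.trans (ENNReal.ofReal_le_ofReal ?_))
  · rintro x ⟨T, h1, h2, h3, h4, h5⟩
    obtain ⟨T', hT', hclose⟩ := hnet T ⟨h1, h2, h3, h4⟩
    have hfro : fro (T' - T) ≤ d * η := by
      rw [fro_sub_comm]
      have := fro_le_of_abs_le (A := T - T') hη0.le fun a b => hclose (a, b)
      rwa [Real.sqrt_mul_self (by positivity)] at this
    have hc : f / 10 ^ 4 ≤ c (some ⟨T', hT'⟩) :=
      le_integral_min (hN T' hT').1.1 hf (hN T' hT').2.2.2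
    have hterm : ∀ j, f / 10 ^ 4 - min |qf T (x (e₁ j)) - qf T (x (e₂ j))| f ≤
        (c (some ⟨T', hT'⟩) - min |dq T' (p j x)| f) +
          d * η * (x (e₁ j) ⬝ᵥ x (e₁ j) + x (e₂ j) ⬝ᵥ x (e₂ j)) := fun j => by
      have q1 := (le_abs_self _).trans (min_lip f (dq T' (p j x)) (dq T (p j x)))
      have q2 : dq T' (p j x) - dq T (p j x) =
          qf (T' - T) (x (e₁ j)) - qf (T' - T) (x (e₂ j)) := by
        simp only [dq, p, qf_sub]; ring
      have q3 := (abs_qf_le_fro (T' - T) (x (e₁ j))).trans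
        (mul_le_mul_of_nonneg_right hfro (dot_self_nonneg _))
      have q4 := (abs_qf_le_fro (T' - T) (x (e₂ j))).trans
        (mul_le_mul_of_nonneg_right hfro (dot_self_nonneg _))
      have q5 := abs_sub (qf (T' - T) (x (e₁ j))) (qf (T' - T) (x (e₂ j)))
      rw [q2] at q1
      have q6 : dq T (p j x) = qf T (x (e₁ j)) - qf T (x (e₂ j)) := rfl
      rw [q6] at q1
      linarith only [hc, q1, q3, q4, q5]
    have hsum := sum_le_sum fun j (_ : j ∈ univ) => hterm j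
    rw [sum_sub_distrib, sum_add_distrib, ← mul_sum, sum_const, card_univ, nsmul_eq_mul] at hsum
    have hle : ∑ j, (c (some ⟨T', hT'⟩) - min |dq T' (p j x)| f) ≤ Z₁ x :=
      le_sup (fun a : A => ∑ j, (c a - min |dq (mat a) (p j x)| f)) (some ⟨T', hT'⟩)
    change m * f / (2 * 10 ^ 4) ≤ Z₁ x + d * η * Z₂ x
    have e : m * (f / 10 ^ 4) = 2 * (m * f / (2 * 10 ^ 4)) := by ring
    linarith only [h5, hsum, hle]
  · rw [integral_add iZ₁ (iZ₂.const_mul _), integral_const_mul, eZ₂]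
    have e : d * η * (2 * m * d) = f := by rw [hη]; field_simp
    have s1 : 1 ≤ √(m * K.card * ρ) := Real.one_le_sqrt.2
      (one_le_mul_of_one_le_of_one_le (one_le_mul_of_one_le_of_one_le hJ hk) hρ)
    have s2 : 0 ≤ √θ * √(m * d * ρ) := by positivity
    have s3 : τ ≤ τ * (√(m * K.card * ρ) + √θ * √(m * d * ρ)) :=
      le_mul_of_one_le_right hτ (by linarith)
    rw [e, div_div_eq_mul_div]
    refine div_le_div_of_nonneg_right ?_ (by positivity)
    nlinarith only [hf, hfτ, bZ₁, s3]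

end Pool.Agent.Work.MP_6a50bc_pr
end

-- merged part: Pool.Agent.Work.MP_6a50bc_pr.TransferAux1
section
/-! Deterministic linear algebra for the transfer step. -/

namespace Pool.Agent.Work.MP_6a50bc_pr

open Matrix Finset

variable {ι κ κ' α : Type*} [Fintype ι] [Fintype κ] [DecidableEq κ] [Fintype κ'] [DecidableEq κ']
  [Fintype α] [DecidableEq α]

/-- The coordinate embedding attached to a map of index sets. -/
def emb (e : α → κ) : Matrix κ α ℝ := (1 : Matrix κ κ ℝ).submatrix id e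

omit [Fintype α] [DecidableEq α] in
lemma mul_emb {m : Type*} (A : Matrix m κ ℝ) (e : α → κ) : A * emb e = A.submatrix id e := by
  ext i a
  simp [emb, mul_apply, one_apply]

omit [Fintype α] [DecidableEq α] in
lemma emb_mul {m : Type*} (A : Matrix κ m ℝ) (e : α → κ) : (emb e)ᵀ * A = A.submatrix e id := by
  ext a i
  simp [emb, mul_apply, one_apply]

omit [Fintype α] [DecidableEq α] in
lemma emb_conj (A : Matrix κ κ ℝ) (e : α → κ) : (emb e)ᵀ * A * emb e = A.submatrix e e := by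
  rw [mul_emb, emb_mul]; rfl

omit [Fintype α] in
lemma orth_emb {e : α → κ} (he : Function.Injective e) : Orth (emb e) := by
  unfold Orth
  rw [emb_mul]
  ext a b
  simp [emb, one_apply, he.eq_iff]

lemma opn_diagonal_le {l : κ → ℝ} {c : ℝ} (hc : 0 ≤ c) (h : ∀ j, |l j| ≤ c) :
    opn (diagonal l) ≤ c := by
  have := opn_spec_le (U := (1 : Matrix κ κ ℝ)) orth_one hc h
  simpa [spec] using this

lemma trace_conj_le {T : Matrix κ κ ℝ} (hT : T.PosSemidef) (M : Matrix κ κ' ℝ) :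
    (Mᵀ * T * M).trace ≤ opn M ^ 2 * T.trace := by
  have h1 : (Mᵀ * T * M).trace = ip (M * Mᵀ) T := by
    rw [ip_eq_trace, transpose_mul, transpose_transpose, Matrix.trace_mul_comm (Mᵀ * T) M,
      Matrix.mul_assoc]
  rw [h1]
  refine ip_le_mul_trace hT fun v => ?_
  have h2 : qf (M * Mᵀ) v = nrm (Mᵀ *ᵥ v) ^ 2 := by
    have := qf_conj' M (1 : Matrix κ' κ' ℝ) v
    rw [Matrix.mul_one] at this
    rw [this, qf_one, nrm_sq]
  rw [h2, ← nrm_sq, ← mul_pow]
  have h3 := nrm_mulVec_le Mᵀ v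
  rw [opn_transpose] at h3
  exact pow_le_pow_left₀ (nrm_nonneg _) h3 2

lemma fro_conj_le (A : Matrix κ κ ℝ) (L : Matrix κ κ' ℝ) :
    fro (Lᵀ * A * L) ≤ opn L ^ 2 * fro A := by
  have h1 := fro_mul_le_right (Lᵀ * A) L
  have h2 := fro_mul_le_left Lᵀ A
  rw [opn_transpose] at h2
  have h3 := opn_nonneg L
  calc fro (Lᵀ * A * L) ≤ fro (Lᵀ * A) * opn L := h1
    _ ≤ opn L * fro A * opn L := by gcongr
    _ = opn L ^ 2 * fro A := by ring

omit [DecidableEq κ] [Fintype κ'] [DecidableEq κ'] in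
lemma conj_apply_diag (T : Matrix κ κ ℝ) (M : Matrix κ κ' ℝ) (c : κ') :
    (Mᵀ * T * M) c c = qf T (Mᵀ c) := by
  simp only [qf, mul_apply, dotProduct, mulVec, transpose_apply, Finset.sum_mul, Finset.mul_sum]
  rw [Finset.sum_comm]
  exact Finset.sum_congr rfl fun a _ => Finset.sum_congr rfl fun b _ => by ring

omit [DecidableEq κ] [DecidableEq κ'] in
lemma psd_conj {T : Matrix κ κ ℝ} (hT : T.PosSemidef) (M : Matrix κ κ' ℝ) :
    (Mᵀ * T * M).PosSemidef := by
  simpa using hT.conjTranspose_mul_mul_same M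

/-- Whitening of an array whose Gram matrix is close to a multiple of the identity. -/
lemma whiten {x : ι → κ → ℝ} {n δ : ℝ} (hn : 0 < n) (hδ : 0 ≤ δ) (hδ1 : δ ≤ 1 / 4)
    (h : opn (gram 1 x - n • (1 : Matrix κ κ ℝ)) ≤ δ * n) :
    ∃ N Ni : Matrix κ κ ℝ, Nᵀ = N ∧ N * Ni = 1 ∧ Orth (Matrix.of x * N) ∧ opn N ≤ √(2 / n) ∧
      opn Ni ≤ √(2 * n) ∧ opn (√n • N - 1) ≤ δ := by
  obtain ⟨U, l, hU, hW⟩ := exists_spec (gram_isHermitian 1 x)
  have hdev : ∀ j, |l j - n| ≤ δ * n := fun j => by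
    have h1 : gram 1 x - n • (1 : Matrix κ κ ℝ) = spec U (l - fun _ => n) := by
      rw [spec_sub, spec_const hU, hW]
    have := abs_le_opn_spec hU (l - fun _ => n) j
    rw [← h1] at this
    exact this.trans h
  have hlo : ∀ j, n * (1 - δ) ≤ l j := fun j => by have := (abs_le.1 (hdev j)).1; linarith
  have hhi : ∀ j, l j ≤ n * (1 + δ) := fun j => by have := (abs_le.1 (hdev j)).2; linarith
  have hpos : ∀ j, 0 < l j := fun j => lt_of_lt_of_le (by nlinarith only [hn, hδ1]) (hlo j)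
  have hs : ∀ j, 0 < √(l j) := fun j => Real.sqrt_pos.2 (hpos j)
  refine ⟨spec U fun j => (√(l j))⁻¹, spec U fun j => √(l j), ?_, ?_, ?_, ?_, ?_, ?_⟩
  · exact isHermitian_iff.1 (spec_isHermitian _ _)
  · rw [spec_mul hU, ← one_smul ℝ (1 : Matrix κ κ ℝ), ← spec_const hU]
    congr 1
    funext j
    exact inv_mul_cancel₀ (hs j).ne'
  · unfold Orth
    rw [transpose_mul, isHermitian_iff.1 (spec_isHermitian _ _), Matrix.mul_assoc,
      ← Matrix.mul_assoc (Matrix.of x)ᵀ, ← gram_one, hW, spec_mul hU, spec_mul hU,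
      ← one_smul ℝ (1 : Matrix κ κ ℝ), ← spec_const hU]
    congr 1
    funext j
    have h1 := Real.mul_self_sqrt (hpos j).le
    have h2 := (hs j).ne'
    simp only [Pi.mul_apply]
    field_simp
    nlinarith only [h1]
  · refine opn_spec_le hU (Real.sqrt_nonneg _) fun j => ?_
    rw [abs_of_pos (inv_pos.2 (hs j)), ← Real.sqrt_inv]
    refine Real.sqrt_le_sqrt ?_
    rw [inv_le_comm₀ (hpos j) (by positivity), inv_div]
    have := hlo j
    nlinarith only [hn, this, hδ1]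
  · refine opn_spec_le hU (Real.sqrt_nonneg _) fun j => ?_
    rw [abs_of_pos (hs j)]
    refine Real.sqrt_le_sqrt ?_
    have := hhi j
    nlinarith only [hn, this, hδ1]
  · have h1 : √n • (spec U fun j => (√(l j))⁻¹) - 1
        = spec U ((√n • fun j => (√(l j))⁻¹) - fun _ => 1) := by
      rw [spec_sub, spec_smul, spec_const hU, one_smul]
    rw [h1]
    refine opn_spec_le hU hδ fun j => ?_
    simp only [Pi.sub_apply, Pi.smul_apply, smul_eq_mul]
    have h2 : √n ≤ (1 + δ) * √(l j) := by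
      rw [Real.sqrt_le_iff]
      refine ⟨by have := hs j; positivity, ?_⟩
      rw [mul_pow, Real.sq_sqrt (hpos j).le]
      have h4 : 1 ≤ (1 + δ) ^ 2 * (1 - δ) := by nlinarith only [hδ, hδ1, mul_nonneg hδ hδ]
      calc n = n * 1 := by ring
        _ ≤ n * ((1 + δ) ^ 2 * (1 - δ)) := by gcongr
        _ = (1 + δ) ^ 2 * (n * (1 - δ)) := by ring
        _ ≤ (1 + δ) ^ 2 * l j := by gcongr; exact hlo j
    have h3 : (1 - δ) * √(l j) ≤ √n := by
      rw [Real.le_sqrt (by have := hs j; have : 0 ≤ 1 - δ := by linarith only [hδ1]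
                           positivity) hn.le, mul_pow, Real.sq_sqrt (hpos j).le]
      have h4 : (1 - δ) ^ 2 * (1 + δ) ≤ 1 := by nlinarith only [hδ, hδ1, mul_nonneg hδ hδ]
      calc (1 - δ) ^ 2 * l j ≤ (1 - δ) ^ 2 * (n * (1 + δ)) := by gcongr; exact hhi j
        _ = n * ((1 - δ) ^ 2 * (1 + δ)) := by ring
        _ ≤ n * 1 := by gcongr
        _ = n := by ring
    rw [abs_le, ← div_eq_mul_inv]
    constructor
    · have : 1 - δ ≤ √n / √(l j) := by rw [le_div_iff₀ (hs j)]; exact h3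
      linarith only [this]
    · have : √n / √(l j) ≤ 1 + δ := by rw [div_le_iff₀ (hs j)]; exact h2
      linarith

end Pool.Agent.Work.MP_6a50bc_pr
end

-- merged part: Pool.Agent.Work.MP_6a50bc_pr.TransferAux2
section
/-! The transport matrix between two arrays. -/

namespace Pool.Agent.Work.MP_6a50bc_pr

open Matrix Finset

variable {ι κ κ' α : Type*} [Fintype ι] [DecidableEq ι] [Fintype κ] [DecidableEq κ] [Fintype κ']
  [DecidableEq κ'] [Fintype α] [DecidableEq α]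

omit [Fintype ι] [DecidableEq ι] [DecidableEq κ'] [Fintype κ] [DecidableEq κ] in
lemma mul_transpose_row (A : Matrix ι κ' ℝ) (M : Matrix κ κ' ℝ) (i : ι) :
    (A * Mᵀ) i = M *ᵥ A i := by
  funext p
  simp [mul_apply, mulVec, dotProduct, mul_comm]

lemma transfer_core {x : ι → κ → ℝ} {x' : ι → κ' → ℝ} {U : Matrix κ κ ℝ} {l : κ → ℝ}
    {s : α → κ} {e : α → κ'} (hs : Function.Injective s) (he : Function.Injective e)
    {n u δ : ℝ} (hn : 0 < n) (hu : 0 ≤ u) (hδ : 0 ≤ δ) (hδ1 : δ ≤ 1 / 4) (hU : Orth U)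
    (hW : gram 1 x = spec U l) (hlo : ∀ a, n / 2 ≤ l (s a)) (hhi : ∀ a, l (s a) ≤ u)
    (h : opn (gram 1 x' - n • (1 : Matrix κ' κ' ℝ)) ≤ δ * n) :
    ∃ (R : Matrix ι ι ℝ) (M : Matrix κ κ' ℝ), Orth R ∧
      (∀ (Q : Matrix ι ι ℝ) (i : ι), M *ᵥ (Qᵀ * R * Matrix.of x' : Matrix ι κ' ℝ) i =
        (U * emb s * (U * emb s)ᵀ) *ᵥ (Qᵀ * Matrix.of x : Matrix ι κ ℝ) i) ∧
      (∀ T : Matrix κ κ ℝ, T.PosSemidef → (Mᵀ * T * M).trace ≤ 2 * u / n * T.trace) ∧
      (∀ T : Matrix κ κ ℝ, fro ((Uᵀ * T * U).submatrix s s) ≤ 4 * fro (Mᵀ * T * M)) ∧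
      ∀ T : Matrix κ κ ℝ, T.PosSemidef → ∀ A : Finset α,
        n * ∑ a ∈ A, (Mᵀ * T * M) (e a) (e a) ≤
          2 * u * ∑ a ∈ A, (Uᵀ * T * U) (s a) (s a) + 2 * u * δ ^ 2 * T.trace := by
  obtain ⟨N, Ni, hNt, hNN, hO', hN, hNi, hΔ⟩ := whiten hn hδ hδ1 h
  have hpos : ∀ a, 0 < l (s a) := fun a => lt_of_lt_of_le (by linarith only [hn]) (hlo a)
  have hsq : ∀ a, 0 < √(l (s a)) := fun a => Real.sqrt_pos.2 (hpos a)
  set D : Matrix α α ℝ := diagonal fun a => √(l (s a)) with hD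
  set Di : Matrix α α ℝ := diagonal fun a => (√(l (s a)))⁻¹ with hDi
  have hDD : D * Di = 1 := by
    rw [hD, hDi, diagonal_mul_diagonal, ← diagonal_one]
    congr 1
    funext a
    exact mul_inv_cancel₀ (hsq a).ne'
  have hDD' : Di * D = 1 := by
    rw [hD, hDi, diagonal_mul_diagonal, ← diagonal_one]
    congr 1
    funext a
    exact inv_mul_cancel₀ (hsq a).ne'
  have hDt : Dᵀ = D := diagonal_transpose _
  have hDit : Diᵀ = Di := diagonal_transpose _
  have hUs : Orth (U * emb s) := hU.mul (orth_emb hs)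
  have hEe : Orth (emb e) := orth_emb he
  have hconj : ∀ T : Matrix κ κ ℝ,
      (U * emb s)ᵀ * T * (U * emb s) = (Uᵀ * T * U).submatrix s s := fun T => by
    rw [← emb_conj, transpose_mul]
    simp only [Matrix.mul_assoc]
  have hO : Orth (Matrix.of x * (U * emb s) * Di) := by
    unfold Orth
    have h1 : (Matrix.of x * (U * emb s) * Di)ᵀ * (Matrix.of x * (U * emb s) * Di) =
        Di * ((U * emb s)ᵀ * gram 1 x * (U * emb s)) * Di := by
      rw [gram_one, transpose_mul, transpose_mul, hDit]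
      simp only [Matrix.mul_assoc]
    rw [h1, hconj, hW, conj_spec hU, submatrix_diagonal _ _ hs, hDi, diagonal_mul_diagonal,
      diagonal_mul_diagonal, ← diagonal_one]
    congr 1
    funext a
    have h1 := Real.mul_self_sqrt (hpos a).le
    have h2 := (hsq a).ne'
    simp only [Function.comp_apply]
    field_simp
    nlinarith only [h1]
  obtain ⟨R, hR, hRO⟩ := exists_orth_extend hO (hO'.mul hEe)
  set B : Matrix κ κ' ℝ := U * emb s * D * (emb e)ᵀ with hB
  have hDo : opn D ≤ √u := opn_diagonal_le (Real.sqrt_nonneg _) fun a => by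
    rw [abs_of_pos (hsq a)]; exact Real.sqrt_le_sqrt (hhi a)
  have hDio : opn Di ≤ √(2 / n) := opn_diagonal_le (Real.sqrt_nonneg _) fun a => by
    rw [abs_of_pos (inv_pos.2 (hsq a)), ← Real.sqrt_inv]
    refine Real.sqrt_le_sqrt ?_
    rw [inv_le_comm₀ (hpos a) (by positivity), inv_div]
    exact hlo a
  have hBo : opn B ≤ √u := by
    have h1 := opn_mul_le (U * emb s * D) (emb e)ᵀ
    have h2 := opn_mul_le (U * emb s) D
    have h3 := hUs.opn_le
    have h4 := hEe.opn_le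
    rw [← opn_transpose] at h4
    have h5 := opn_nonneg D
    have h6 := opn_nonneg (U * emb s * D)
    have h7 := opn_nonneg (U * emb s)
    nlinarith only [hDo, h1, h2, h3, h5, h4, h6, opn_nonneg (emb e)ᵀ]
  refine ⟨R, B * N, hR, fun Q i => ?_, fun T hT => ?_, fun T => ?_, fun T hT A => ?_⟩
  · rw [← mul_transpose_row, ← mul_transpose_row]
    have h1 : R * Matrix.of x' * (B * N)ᵀ = R * (Matrix.of x' * N * emb e) * D * (U * emb s)ᵀ := by
      rw [hB, transpose_mul, transpose_mul, transpose_mul, hNt, hDt, transpose_transpose]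
      simp only [Matrix.mul_assoc]
    have h2 : Matrix.of x * (U * emb s) * Di * D * (U * emb s)ᵀ =
        Matrix.of x * (U * emb s * (U * emb s)ᵀ)ᵀ := by
      rw [Matrix.mul_assoc _ Di D, hDD', Matrix.mul_one, transpose_mul (U * emb s),
        transpose_transpose, Matrix.mul_assoc]
    rw [Matrix.mul_assoc Qᵀ R, Matrix.mul_assoc Qᵀ, h1, hRO, h2, Matrix.mul_assoc Qᵀ]
  · refine (trace_conj_le hT _).trans (mul_le_mul_of_nonneg_right ?_ hT.trace_nonneg)
    have h1 : opn (B * N) ≤ √u * √(2 / n) :=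
      (opn_mul_le B N).trans (mul_le_mul hBo hN (opn_nonneg _) (Real.sqrt_nonneg _))
    calc opn (B * N) ^ 2 ≤ (√u * √(2 / n)) ^ 2 := pow_le_pow_left₀ (opn_nonneg _) h1 2
      _ = 2 * u / n := by
        rw [mul_pow, Real.sq_sqrt hu, Real.sq_sqrt (by positivity)]; ring
  · have h1 : B * N * (Ni * emb e * Di) = U * emb s := by
      have h2 : B * N * (Ni * emb e * Di) =
          U * emb s * (D * ((emb e)ᵀ * (N * Ni) * emb e) * Di) := by
        rw [hB]; simp only [Matrix.mul_assoc]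
      rw [h2, hNN, Matrix.mul_one, hEe, Matrix.mul_one, hDD, Matrix.mul_one]
    have h2 : (Uᵀ * T * U).submatrix s s =
        (Ni * emb e * Di)ᵀ * ((B * N)ᵀ * T * (B * N)) * (Ni * emb e * Di) := by
      rw [← hconj, ← h1, transpose_mul (B * N)]
      simp only [Matrix.mul_assoc]
    rw [h2]
    refine (fro_conj_le _ _).trans (mul_le_mul_of_nonneg_right ?_ (fro_nonneg _))
    have h3 : opn (Ni * emb e) ≤ √(2 * n) := by
      have := opn_mul_le Ni (emb e)
      have h4 := hEe.opn_le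
      nlinarith only [hNi, this, h4, opn_nonneg Ni, opn_nonneg (emb e)]
    have h4 : opn (Ni * emb e * Di) ≤ √(2 * n) * √(2 / n) :=
      (opn_mul_le _ _).trans (mul_le_mul h3 hDio (opn_nonneg _) (Real.sqrt_nonneg _))
    calc opn (Ni * emb e * Di) ^ 2 ≤ (√(2 * n) * √(2 / n)) ^ 2 :=
          pow_le_pow_left₀ (opn_nonneg _) h4 2
      _ = 4 := by
        rw [mul_pow, Real.sq_sqrt (by positivity), Real.sq_sqrt (by positivity)]
        field_simp; norm_num
  · set Δ : Matrix κ' κ' ℝ := √n • N - 1 with hΔd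
    have h1 : ∀ c, n * ((B * N)ᵀ * T * (B * N)) c c ≤
        2 * (Bᵀ * T * B) c c + 2 * ((B * Δ)ᵀ * T * (B * Δ)) c c := fun c => by
      rw [conj_apply_diag, conj_apply_diag, conj_apply_diag]
      have h2 : √n • (B * N)ᵀ c = Bᵀ c + (B * Δ)ᵀ c := by
        have h3 : √n • (B * N) = B + B * Δ := by
          rw [hΔd, Matrix.mul_sub, Matrix.mul_one, Matrix.mul_smul]; abel
        funext p
        exact congrFun (congrFun h3 p) c
      have h3 := qf_smul_vec (√n) T ((B * N)ᵀ c)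
      rw [Real.sq_sqrt hn.le, h2] at h3
      rw [← h3]
      exact qf_add_vec_le hT _ _
    have h2 : ∀ a, (Bᵀ * T * B) (e a) (e a) = l (s a) * (Uᵀ * T * U) (s a) (s a) := fun a => by
      have h3 : B * emb e = U * emb s * D := by
        rw [hB, Matrix.mul_assoc _ _ (emb e), hEe, Matrix.mul_one]
      have h4 : (Bᵀ * T * B).submatrix e e = D * (Uᵀ * T * U).submatrix s s * D := by
        rw [← emb_conj, ← hconj]
        have : (emb e)ᵀ * (Bᵀ * T * B) * emb e = (B * emb e)ᵀ * T * (B * emb e) := by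
          rw [transpose_mul B]; simp only [Matrix.mul_assoc]
        rw [this, h3, transpose_mul (U * emb s), hDt]
        simp only [Matrix.mul_assoc]
      have h5 := congrFun (congrFun h4 a) a
      rw [hD, mul_diagonal, diagonal_mul, submatrix_apply, submatrix_apply] at h5
      rw [h5]
      have := Real.mul_self_sqrt (hpos a).le
      linear_combination (Uᵀ * T * U) (s a) (s a) * this
    have h3 : ∑ a ∈ A, ((B * Δ)ᵀ * T * (B * Δ)) (e a) (e a) ≤ u * δ ^ 2 * T.trace := by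
      have hP := psd_conj hT (B * Δ)
      have h4 : ∑ a ∈ A, ((B * Δ)ᵀ * T * (B * Δ)) (e a) (e a) ≤
          ((B * Δ)ᵀ * T * (B * Δ)).trace := by
        rw [← Finset.sum_image (s := A) (g := e) (f := fun c => ((B * Δ)ᵀ * T * (B * Δ)) c c)
          (fun a _ b _ hab => he hab)]
        exact Finset.sum_le_sum_of_subset_of_nonneg (Finset.subset_univ _)
          fun c _ _ => hP.diag_nonneg
      refine h4.trans ((trace_conj_le hT _).trans
        (mul_le_mul_of_nonneg_right ?_ hT.trace_nonneg))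
      have h5 : opn (B * Δ) ≤ √u * δ :=
        (opn_mul_le B Δ).trans (mul_le_mul hBo hΔ (opn_nonneg _) (Real.sqrt_nonneg _))
      calc opn (B * Δ) ^ 2 ≤ (√u * δ) ^ 2 := pow_le_pow_left₀ (opn_nonneg _) h5 2
        _ = u * δ ^ 2 := by rw [mul_pow, Real.sq_sqrt hu]
    have h4 : ∑ a ∈ A, (Bᵀ * T * B) (e a) (e a) ≤ u * ∑ a ∈ A, (Uᵀ * T * U) (s a) (s a) := by
      rw [Finset.mul_sum]
      refine Finset.sum_le_sum fun a _ => ?_
      rw [h2]
      exact mul_le_mul_of_nonneg_right (hhi a) (psd_conj hT U).diag_nonneg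
    calc n * ∑ a ∈ A, ((B * N)ᵀ * T * (B * N)) (e a) (e a)
        = ∑ a ∈ A, n * ((B * N)ᵀ * T * (B * N)) (e a) (e a) := Finset.mul_sum _ _ _
      _ ≤ ∑ a ∈ A, (2 * (Bᵀ * T * B) (e a) (e a) + 2 * ((B * Δ)ᵀ * T * (B * Δ)) (e a) (e a)) :=
          Finset.sum_le_sum fun a _ => h1 _
      _ = 2 * ∑ a ∈ A, (Bᵀ * T * B) (e a) (e a) +
            2 * ∑ a ∈ A, ((B * Δ)ᵀ * T * (B * Δ)) (e a) (e a) := by
          rw [Finset.sum_add_distrib, Finset.mul_sum, Finset.mul_sum]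
      _ ≤ _ := by linarith only [h3, h4]

end Pool.Agent.Work.MP_6a50bc_pr
end

-- merged part: Pool.Agent.Work.MP_6a50bc_pr.TransferAux3
section
/-! The top eigenspace of the Gram matrix, projection errors and rescaling. -/

namespace Pool.Agent.Work.MP_6a50bc_pr

open Matrix Finset

variable {ι κ : Type*} [Fintype ι] [Fintype κ] [DecidableEq κ] {U : Matrix κ κ ℝ} {l : κ → ℝ}

lemma shift_spec (hU : Orth U) (u : ℝ) (l : κ → ℝ) :
    u • (1 : Matrix κ κ ℝ) - spec U l = spec U ((fun _ => u) - l) := by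
  rw [spec_sub, spec_const hU]

lemma card_top (hU : Orth U) {u h c : ℝ} (hh : 0 < h)
    (hY : ∀ Y : Matrix κ κ ℝ,
      2 * Y.trace - ip (u • (1 : Matrix κ κ ℝ) - spec U l) (Y * Yᵀ) ≤ c) :
    ((univ.filter fun a => u - l a < h).card : ℝ) ≤ c * h := by
  have h1 := hY (spec U fun a => if u - l a < h then h⁻¹ else 0)
  rw [isHermitian_iff.1 (spec_isHermitian _ _), spec_mul hU, shift_spec hU, ip_spec_spec hU,
    trace_spec hU, dotProduct, Finset.mul_sum, ← Finset.sum_sub_distrib] at h1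
  have h2 : ((univ.filter fun a => u - l a < h).card : ℝ) * h⁻¹ =
      ∑ a, if u - l a < h then h⁻¹ else 0 := by
    rw [← Finset.sum_filter, Finset.sum_const, nsmul_eq_mul]
  have h3 : ((univ.filter fun a => u - l a < h).card : ℝ) * h⁻¹ ≤ c := by
    rw [h2]
    refine le_trans (Finset.sum_le_sum fun a _ => ?_) h1
    simp only [Pi.sub_apply, Pi.mul_apply]
    split_ifs with ha
    · have h4 : (u - l a) * (h⁻¹ * h⁻¹) ≤ h * (h⁻¹ * h⁻¹) :=
        mul_le_mul_of_nonneg_right ha.le (by positivity)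
      rw [← mul_assoc h, mul_inv_cancel₀ hh.ne', one_mul] at h4
      linarith only [h4]
    · simp
  rwa [← div_eq_mul_inv, div_le_iff₀ hh] at h3

lemma off_top (hU : Orth U) {u h t : ℝ} (hh : 0 < h) (hl : ∀ a, l a ≤ u) {T : Matrix κ κ ℝ}
    (hT : T.PosSemidef) (hip : ip (u • (1 : Matrix κ κ ℝ) - spec U l) T ≤ t * h) :
    ∑ a ∈ (univ.filter fun a => u - l a < h)ᶜ, (Uᵀ * T * U) a a ≤ t := by
  rw [shift_spec hU, ip_comm, ip_spec] at hip
  refine le_of_mul_le_mul_right (le_trans ?_ hip) hh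
  rw [Finset.sum_mul]
  have h0 : ∀ a, 0 ≤ qf T (Uᵀ a) := fun a => qf_nonneg hT _
  calc ∑ a ∈ (univ.filter fun a => u - l a < h)ᶜ, (Uᵀ * T * U) a a * h
      ≤ ∑ a ∈ (univ.filter fun a => u - l a < h)ᶜ, ((fun _ => u) - l : κ → ℝ) a * qf T (Uᵀ a) := by
        refine Finset.sum_le_sum fun a ha => ?_
        rw [conj_apply_diag, mul_comm]
        refine mul_le_mul_of_nonneg_right ?_ (h0 a)
        simpa using ha
    _ ≤ _ := Finset.sum_le_sum_of_subset_of_nonneg (Finset.subset_univ _) fun a _ _ =>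
        mul_nonneg (by simpa using hl a) (h0 a)

lemma eig_le (hU : Orth U) {u : ℝ} (h : ∀ v, qf (spec U l) v ≤ u * (v ⬝ᵥ v)) (a : κ) :
    l a ≤ u := by
  simpa [qf_spec_col hU, hU.col_dot_self] using h (Uᵀ a)

lemma le_eig (hU : Orth U) {u : ℝ} (h : ∀ v, u * (v ⬝ᵥ v) ≤ qf (spec U l) v) (a : κ) :
    u ≤ l a := by
  simpa [qf_spec_col hU, hU.col_dot_self] using h (Uᵀ a)

lemma trace_conj_orth (hU : Orth U) (T : Matrix κ κ ℝ) : (Uᵀ * T * U).trace = T.trace := by
  rw [Matrix.trace_mul_comm, ← Matrix.mul_assoc, hU.mul_transpose, Matrix.one_mul]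

lemma entry_sq_le {S : Matrix κ κ ℝ} (hS : S.PosSemidef) (a b : κ) :
    S a b ^ 2 ≤ S a a * S b b := by
  simpa [qf] using dot_mulVec_sq_le hS (Pi.single a 1) (Pi.single b 1)

lemma fro_sq_le_sub {S : Matrix κ κ ℝ} (hS : S.PosSemidef) (V : Finset κ) :
    fro S ^ 2 ≤ fro (S.submatrix (Subtype.val : V → κ) (Subtype.val : V → κ)) ^ 2 +
      2 * (∑ a ∈ Vᶜ, S a a) * S.trace := by
  have h0 : ∀ a, 0 ≤ S a a := fun a => hS.diag_nonneg
  have h1 : fro (S.submatrix (Subtype.val : V → κ) (Subtype.val : V → κ)) ^ 2 =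
      ∑ a ∈ V, ∑ b ∈ V, S a b * S a b := by
    rw [fro_sq, ip, ← Finset.sum_coe_sort V]
    refine Finset.sum_congr rfl fun a _ => ?_
    rw [← Finset.sum_coe_sort V]
    rfl
  have h2 : ∀ a b, S a b * S a b ≤ S a a * S b b := fun a b => by
    rw [← sq]; exact entry_sq_le hS a b
  have h3 : ∑ a ∈ Vᶜ, ∑ b, S a b * S a b ≤ (∑ a ∈ Vᶜ, S a a) * S.trace := by
    rw [Finset.sum_mul]
    refine Finset.sum_le_sum fun a _ => ?_
    rw [Matrix.trace, Finset.mul_sum]
    exact Finset.sum_le_sum fun b _ => h2 a b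
  have h4 : ∑ a ∈ V, ∑ b ∈ Vᶜ, S a b * S a b ≤ (∑ a ∈ Vᶜ, S a a) * S.trace := by
    calc ∑ a ∈ V, ∑ b ∈ Vᶜ, S a b * S a b ≤ ∑ a ∈ V, ∑ b ∈ Vᶜ, S a a * S b b :=
          Finset.sum_le_sum fun a _ => Finset.sum_le_sum fun b _ => h2 a b
      _ = (∑ b ∈ Vᶜ, S b b) * ∑ a ∈ V, S a a := by rw [← Finset.sum_mul_sum, mul_comm]
      _ ≤ _ := mul_le_mul_of_nonneg_left
          (Finset.sum_le_sum_of_subset_of_nonneg (Finset.subset_univ _) fun a _ _ => h0 a)
          (Finset.sum_nonneg fun a _ => h0 a)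
  have h5 : fro S ^ 2 = (∑ a ∈ V, ∑ b ∈ V, S a b * S a b + ∑ a ∈ V, ∑ b ∈ Vᶜ, S a b * S a b) +
      ∑ a ∈ Vᶜ, ∑ b, S a b * S a b := by
    rw [fro_sq, ip, ← Finset.sum_add_sum_compl V, ← Finset.sum_add_distrib]
    congr 1
    exact Finset.sum_congr rfl fun a _ => (Finset.sum_add_sum_compl V _).symm
  rw [h5, h1]
  linarith

lemma proj_eq_spec (U : Matrix κ κ ℝ) (V : Finset κ) :
    U * emb (Subtype.val : V → κ) * (U * emb (Subtype.val : V → κ))ᵀ =
      spec U fun a => if a ∈ V then 1 else 0 := by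
  ext p q
  rw [mul_emb, spec_apply, mul_apply]
  simp only [submatrix_apply, transpose_apply, id, ite_mul, one_mul, zero_mul]
  rw [Finset.sum_coe_sort V fun a => U p a * U q a, Finset.sum_ite_mem, Finset.univ_inter]

lemma sum_qf_spec (hU : Orth U) {g : ι → κ → ℝ} (hg : gram 1 g = spec U l) (T : Matrix κ κ ℝ)
    (y : κ → ℝ) :
    ∑ i, qf T (spec U y *ᵥ g i) = ∑ a, l a * (y a ^ 2 * (Uᵀ * T * U) a a) := by
  have h1 := ip_gram 1 g ((spec U y)ᵀ * T * spec U y)
  rw [hg, ip_comm, ip_spec] at h1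
  simp only [Pi.one_apply, one_mul, qf_conj] at h1
  rw [← h1]
  refine Finset.sum_congr rfl fun a _ => ?_
  rw [spec_mulVec_col hU, qf_smul_vec, conj_apply_diag]

lemma proj_err (hU : Orth U) {g : ι → κ → ℝ} (hg : gram 1 g = spec U l) {u θ d : ℝ} (hu : 0 ≤ u)
    (hl : ∀ a, l a ≤ u) (hθ : 0 ≤ θ) (hθ1 : θ ≤ 1) {T : Matrix κ κ ℝ} (hT : T.PosSemidef)
    (htr : T.trace ≤ d) (V : Finset κ) (hV : ∑ a ∈ Vᶜ, (Uᵀ * T * U) a a ≤ θ * d) :
    ∑ i, |qf T (g i) - qf T ((spec U fun a => if a ∈ V then 1 else 0) *ᵥ g i)| ≤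
      3 * u * √θ * d := by
  set P := spec U fun a => if a ∈ V then (1 : ℝ) else 0 with hP
  set P' := spec U fun a => if a ∈ Vᶜ then (1 : ℝ) else 0 with hP'
  have hd : 0 ≤ d := hT.trace_nonneg.trans htr
  have h0 : ∀ a, 0 ≤ (Uᵀ * T * U) a a := fun a => (psd_conj hT U).diag_nonneg
  have hPP : P + P' = 1 := by
    rw [hP, hP', ← spec_add, ← one_smul ℝ (1 : Matrix κ κ ℝ), ← spec_const hU]
    congr 1
    funext a
    by_cases ha : a ∈ V <;> simp [ha]
  have hsum : ∀ A : Finset κ, ∑ i, qf T ((spec U fun a => if a ∈ A then (1 : ℝ) else 0) *ᵥ g i) ≤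
      u * ∑ a ∈ A, (Uᵀ * T * U) a a := fun A => by
    rw [sum_qf_spec hU hg, Finset.mul_sum, ← Finset.sum_add_sum_compl A]
    have h1 : ∑ a ∈ Aᶜ, l a * ((if a ∈ A then (1 : ℝ) else 0) ^ 2 * (Uᵀ * T * U) a a) = 0 :=
      Finset.sum_eq_zero fun a ha => by simp [Finset.mem_compl.1 ha]
    rw [h1, add_zero]
    refine Finset.sum_le_sum fun a ha => ?_
    simpa [ha] using mul_le_mul_of_nonneg_right (hl a) (h0 a)
  have h1 : ∑ i, qf T (P *ᵥ g i) ≤ u * d := by
    refine (hsum V).trans (mul_le_mul_of_nonneg_left ?_ hu)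
    refine le_trans ?_ ((trace_conj_orth hU T).le.trans htr)
    exact Finset.sum_le_sum_of_subset_of_nonneg (Finset.subset_univ _) fun a _ _ => h0 a
  have h2 : ∑ i, qf T (P' *ᵥ g i) ≤ u * (θ * d) :=
    (hsum Vᶜ).trans (mul_le_mul_of_nonneg_left hV hu)
  have h3 : ∀ i, |qf T (g i) - qf T (P *ᵥ g i)| ≤
      qf T (P' *ᵥ g i) + 2 * (√(qf T (P *ᵥ g i)) * √(qf T (P' *ᵥ g i))) := fun i => by
    have h4 : g i = P *ᵥ g i + P' *ᵥ g i := by rw [← add_mulVec, hPP, one_mulVec]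
    have h5 := qf_add_vec hT.1 (P *ᵥ g i) (P' *ᵥ g i)
    rw [← h4] at h5
    have h6 := Real.abs_le_sqrt (dot_mulVec_sq_le hT (P *ᵥ g i) (P' *ᵥ g i))
    rw [Real.sqrt_mul (qf_nonneg hT _)] at h6
    have h7 := qf_nonneg hT (P' *ᵥ g i)
    rw [h5, abs_le]
    constructor <;> linarith only [h7, h6, (abs_le.1 h6).1, (abs_le.1 h6).2]
  have h4 := Real.sum_sqrt_mul_sqrt_le (Finset.univ : Finset ι)
    (f := fun i => qf T (P *ᵥ g i)) (g := fun i => qf T (P' *ᵥ g i))
    (fun i => qf_nonneg hT _) (fun i => qf_nonneg hT _)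
  have h5 : √(∑ i, qf T (P *ᵥ g i)) * √(∑ i, qf T (P' *ᵥ g i)) ≤ u * d * √θ := by
    calc √(∑ i, qf T (P *ᵥ g i)) * √(∑ i, qf T (P' *ᵥ g i)) ≤ √(u * d) * √(u * (θ * d)) := by
          gcongr
      _ = u * d * √θ := by
          rw [show u * (θ * d) = u * d * θ by ring, Real.sqrt_mul (mul_nonneg hu hd) θ,
            ← mul_assoc, Real.mul_self_sqrt (mul_nonneg hu hd)]
  have h6 : θ ≤ √θ := Real.le_sqrt_of_sq_le (by nlinarith only [hθ, hθ1])
  have h7 : u * (θ * d) ≤ u * (√θ * d) := by gcongr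
  calc ∑ i, |qf T (g i) - qf T (P *ᵥ g i)|
      ≤ ∑ i, (qf T (P' *ᵥ g i) + 2 * (√(qf T (P *ᵥ g i)) * √(qf T (P' *ᵥ g i)))) :=
        Finset.sum_le_sum fun i _ => h3 i
    _ = ∑ i, qf T (P' *ᵥ g i) + 2 * ∑ i, √(qf T (P *ᵥ g i)) * √(qf T (P' *ᵥ g i)) := by
        rw [Finset.sum_add_distrib, Finset.mul_sum]
    _ ≤ _ := by linarith only [h2, h4, h5, h7]

lemma sum_min_le {J : Type*} [Fintype J] {e₁ e₂ : J → ι}
    (he : Function.Injective (Sum.elim e₁ e₂)) (a b : ι → ℝ) (f : ℝ) :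
    ∑ j, min |b (e₁ j) - b (e₂ j)| f ≤ ∑ j, min |a (e₁ j) - a (e₂ j)| f + ∑ i, |a i - b i| := by
  classical
  have h1 : ∑ j, (|a (e₁ j) - b (e₁ j)| + |a (e₂ j) - b (e₂ j)|) ≤ ∑ i, |a i - b i| := by
    have h2 : ∑ j, (|a (e₁ j) - b (e₁ j)| + |a (e₂ j) - b (e₂ j)|) =
        ∑ q : J ⊕ J, |a (Sum.elim e₁ e₂ q) - b (Sum.elim e₁ e₂ q)| := by
      rw [Fintype.sum_sum_type, Finset.sum_add_distrib]; rfl
    rw [h2, ← Finset.sum_image (s := univ) (g := Sum.elim e₁ e₂) (f := fun i => |a i - b i|)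
      (fun p _ q _ hpq => he hpq)]
    exact Finset.sum_le_sum_of_subset_of_nonneg (Finset.subset_univ _) fun i _ _ => abs_nonneg _
  refine le_trans ?_ (add_le_add le_rfl h1)
  rw [← Finset.sum_add_distrib]
  refine Finset.sum_le_sum fun j _ => ?_
  have h2 : |b (e₁ j) - b (e₂ j)| ≤
      |a (e₁ j) - a (e₂ j)| + (|a (e₁ j) - b (e₁ j)| + |a (e₂ j) - b (e₂ j)|) := by
    have := abs_add_three (a (e₁ j) - a (e₂ j)) (-(a (e₁ j) - b (e₁ j))) (a (e₂ j) - b (e₂ j))
    rw [abs_neg] at this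
    rw [show b (e₁ j) - b (e₂ j) =
      a (e₁ j) - a (e₂ j) + -(a (e₁ j) - b (e₁ j)) + (a (e₂ j) - b (e₂ j)) by ring]
    linarith
  have h3 := add_nonneg (abs_nonneg (a (e₁ j) - b (e₁ j))) (abs_nonneg (a (e₂ j) - b (e₂ j)))
  rcases le_total |a (e₁ j) - a (e₂ j)| f with h | h
  · rw [min_eq_left h]; exact (min_le_left _ _).trans h2
  · rw [min_eq_right h]; exact (min_le_right _ _).trans (by linarith)

omit [Fintype ι] in
lemma scale_down {J : Type*} [Fintype J] (e₁ e₂ : J → ι) (x : ι → κ → ℝ) {K : Finset κ}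
    {τ t f c : ℝ} (hf : 0 < f) {T : Matrix κ κ ℝ} (hT : T.PosSemidef) (h1 : T.trace ≤ τ)
    (h2 : ∑ a ∈ Kᶜ, T a a ≤ t) (h3 : f ≤ fro T)
    (h4 : ∑ j, min |qf T (x (e₁ j)) - qf T (x (e₂ j))| f ≤ c) :
    ∃ T : Matrix κ κ ℝ, T.PosSemidef ∧ T.trace ≤ τ ∧ ∑ a ∈ Kᶜ, T a a ≤ t ∧ fro T = f ∧
      ∑ j, min |qf T (x (e₁ j)) - qf T (x (e₂ j))| f ≤ c := by
  have hF : 0 < fro T := hf.trans_le h3
  have hr0 : 0 ≤ f / fro T := by positivity
  have hr1 : f / fro T ≤ 1 := (div_le_one hF).2 h3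
  refine ⟨(f / fro T) • T, hT.smul hr0, ?_, ?_, ?_, ?_⟩
  · rw [trace_smul, smul_eq_mul]
    exact (mul_le_of_le_one_left hT.trace_nonneg hr1).trans h1
  · refine le_trans (Finset.sum_le_sum fun a _ => ?_) h2
    exact mul_le_of_le_one_left hT.diag_nonneg hr1
  · rw [fro_smul, abs_of_nonneg hr0, div_mul_cancel₀ _ hF.ne']
  · refine le_trans (Finset.sum_le_sum fun j _ => min_le_min_right _ ?_) h4
    rw [qf_smul, qf_smul, ← mul_sub, abs_mul, abs_of_nonneg hr0]
    exact mul_le_of_le_one_left (abs_nonneg _) hr1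

end Pool.Agent.Work.MP_6a50bc_pr
end

-- merged part: Pool.Agent.Work.MP_6a50bc_pr.Transfer
section
namespace Pool.Agent.Work.MP_6a50bc_pr

open MeasureTheory ProbabilityTheory Matrix Finset
open scoped ENNReal

variable {ι κ : Type*} [Fintype ι] [DecidableEq ι] [Fintype κ] [DecidableEq κ]

/-! No matrix with large Frobenius norm near the top eigenspace of the Gram matrix takes almost
equal values on the points. -/

omit [Fintype κ] [DecidableEq κ] in
lemma gram_rot {Q : Matrix ι ι ℝ} (hQ : Orth Q) (x : ι → κ → ℝ) :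
    gram 1 (fun i a => (Qᵀ * Matrix.of x : Matrix ι κ ℝ) i a) = gram 1 x := by
  have h1 : Matrix.of (fun i a => (Qᵀ * Matrix.of x : Matrix ι κ ℝ) i a) = Qᵀ * Matrix.of x := rfl
  rw [gram_one, gram_one, h1, transpose_mul, transpose_transpose, Matrix.mul_assoc,
    ← Matrix.mul_assoc Q, hQ.mul_transpose, Matrix.one_mul]

omit [DecidableEq κ] in
lemma haar_compare' {κ' : Type*} [Fintype κ'] {E : Set (ι → κ → ℝ)} (hE : MeasurableSet E)
    (E' G' : Set (ι → κ' → ℝ))
    (h : ∀ x : ι → κ → ℝ, ∀ x' ∈ G', ∃ R : Matrix ι ι ℝ, Orth R ∧ ∀ Q : Matrix ι ι ℝ, Orth Q →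
      (fun i a => (Qᵀ * (Matrix.of x : Matrix ι κ ℝ) : Matrix ι κ ℝ) i a) ∈ E →
        (fun i a => (Qᵀ * R * (Matrix.of x' : Matrix ι κ' ℝ) : Matrix ι κ' ℝ) i a) ∈ E') :
    gm ι κ E * gm ι κ' G' ≤ gm ι κ' E' :=
  haar_compare hE E' G' h

lemma half_le_good {ρ : ℝ} (hd : 0 < Fintype.card κ) (hρ : 2 ≤ ρ)
    (hlog : Real.log (16 * √(Fintype.card κ) + 2) ≤ ρ)
    (hn : Fintype.card κ * ρ ≤ Fintype.card ι) {p : ℝ≥0∞} {X : ℝ}
    (h : p * gm ι κ {x | opn (gram 1 x - (Fintype.card ι : ℝ) • (1 : Matrix κ κ ℝ)) ≤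
      18 * √(Fintype.card ι * Fintype.card κ * ρ)} ≤ ENNReal.ofReal X) :
    p ≤ ENNReal.ofReal (2 * X) := by
  set G : Set (ι → κ → ℝ) := {x | opn (gram 1 x - (Fintype.card ι : ℝ) • (1 : Matrix κ κ ℝ)) ≤
      18 * √(Fintype.card ι * Fintype.card κ * ρ)} with hG
  have h1 : gm ι κ Gᶜ ≤ ENNReal.ofReal (1 / 2) := by
    have h2 := gram_dev_tail (ι := ι) hlog hn
    have h3 : Gᶜ = {x | 18 * √(Fintype.card ι * Fintype.card κ * ρ) <
        opn (gram 1 x - (Fintype.card ι : ℝ) • (1 : Matrix κ κ ℝ))} := by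
      ext x; simp [hG]
    rw [h3]
    refine h2.trans (ENNReal.ofReal_le_ofReal ?_)
    have h4 : (1 : ℝ) ≤ Fintype.card κ := by exact_mod_cast hd
    have h5 : Real.exp (-(Fintype.card κ * ρ)) ≤ Real.exp (-2) :=
      Real.exp_le_exp.2 (by nlinarith only [h4, hρ])
    have h6 : Real.exp (-2) ≤ 1 / 4 := by
      rw [Real.exp_neg, one_div]
      refine inv_anti₀ (by norm_num) ?_
      have h7 := Real.add_one_le_exp (1 : ℝ)
      rw [show (2 : ℝ) = 1 + 1 by norm_num, Real.exp_add]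
      nlinarith only [h7]
    linarith only [h5, h6]
  have h2 : ENNReal.ofReal (1 / 2) ≤ gm ι κ G := by
    have h3 : (1 : ℝ≥0∞) ≤ gm ι κ G + gm ι κ Gᶜ := by
      simpa using measure_univ_le_add_compl (μ := gm ι κ) G
    have h4 : ENNReal.ofReal (1 / 2) + ENNReal.ofReal (1 / 2) = 1 := by
      rw [← ENNReal.ofReal_add (by norm_num) (by norm_num)]; norm_num
    refine ENNReal.le_of_add_le_add_right (a := ENNReal.ofReal (1 / 2)) ENNReal.ofReal_ne_top ?_
    rw [h4]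
    exact h3.trans (add_le_add le_rfl h1)
  have h3 : p * ENNReal.ofReal (1 / 2) ≤ ENNReal.ofReal X :=
    (mul_le_mul_right h2 p).trans h
  calc p = ENNReal.ofReal 2 * (p * ENNReal.ofReal (1 / 2)) := by
        rw [mul_left_comm, ← ENNReal.ofReal_mul (by norm_num)]; norm_num
    _ ≤ ENNReal.ofReal 2 * ENNReal.ofReal X := mul_le_mul_right h3 _
    _ = _ := (ENNReal.ofReal_mul (by norm_num)).symm

lemma ofReal_const_le {a b X : ℝ} (ha : 0 ≤ a) (hab : a ≤ b) :
    ENNReal.ofReal (a * X) ≤ ENNReal.ofReal (b * X) := by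
  rcases le_total 0 X with h | h
  · exact ENNReal.ofReal_le_ofReal (mul_le_mul_of_nonneg_right hab h)
  · rw [ENNReal.ofReal_of_nonpos (mul_nonpos_of_nonneg_of_nonpos ha h)]
    exact bot_le

lemma delta_facts {n m l ρ : ℝ} (hn : 0 < n) (hl : 0 ≤ l) (hρ : 2 ≤ ρ) (hmn : 2 * m ≤ n)
    (hm : 10 ^ 4 * l * ρ ≤ m) :
    0 ≤ 18 * √(l * ρ / n) ∧ 18 * √(l * ρ / n) ≤ 1 / 4 ∧
      18 * √(n * l * ρ) = 18 * √(l * ρ / n) * n ∧ (18 * √(l * ρ / n)) ^ 2 = 324 * l * ρ / n := by
  have h0 : 0 ≤ l * ρ / n := by positivity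
  refine ⟨by positivity, ?_, ?_, ?_⟩
  · have : √(l * ρ / n) ≤ 1 / 72 := by
      refine Real.sqrt_le_iff.2 ⟨by norm_num, ?_⟩
      rw [div_le_iff₀ hn]
      nlinarith only [hn, hmn, hm]
    linarith only [this]
  · rw [show n * l * ρ = l * ρ / n * n ^ 2 by field_simp, Real.sqrt_mul h0, Real.sqrt_sq hn.le]
    ring
  · rw [mul_pow, Real.sq_sqrt h0]; ring

omit [DecidableEq ι] in
lemma isClosed_tr_event {J : Type*} [Fintype J] (e₁ e₂ : J → ι) (u t f s : ℝ) :
    IsClosed {x : ι → κ → ℝ | ∃ T : Matrix κ κ ℝ, T.PosSemidef ∧ T.trace ≤ Fintype.card κ ∧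
      ip (u • (1 : Matrix κ κ ℝ) - gram 1 x) T ≤ t ∧ f ≤ fro T ∧
      ∑ j, min |qf T (x (e₁ j)) - qf T (x (e₂ j))| (f / 16) ≤ s} := by
  have c1 : IsClosed {p : (ι → κ → ℝ) × Matrix κ κ ℝ | p.2.PosSemidef} :=
    isClosed_posSemidef.preimage continuous_snd
  have c2 : IsClosed {p : (ι → κ → ℝ) × Matrix κ κ ℝ | p.2.trace ≤ Fintype.card κ} :=
    isClosed_le (by fun_prop) continuous_const
  have c3 : IsClosed {p : (ι → κ → ℝ) × Matrix κ κ ℝ |
      ip (u • (1 : Matrix κ κ ℝ) - gram 1 p.1) p.2 ≤ t} :=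
    isClosed_le (by fun_prop) continuous_const
  have c4 : IsClosed {p : (ι → κ → ℝ) × Matrix κ κ ℝ | f ≤ fro p.2} :=
    isClosed_le continuous_const (by fun_prop)
  have c5 : IsClosed {p : (ι → κ → ℝ) × Matrix κ κ ℝ |
      ∑ j, min |qf p.2 (p.1 (e₁ j)) - qf p.2 (p.1 (e₂ j))| (f / 16) ≤ s} :=
    isClosed_le (by fun_prop) continuous_const
  have h := isClosed_exists_compact (α := ι → κ → ℝ)
    (isCompact_fro_le (m := κ) (n := κ) (Fintype.card κ : ℝ))
    (r := fun x T => T.PosSemidef ∧ T.trace ≤ Fintype.card κ ∧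
      ip (u • (1 : Matrix κ κ ℝ) - gram 1 x) T ≤ t ∧ f ≤ fro T ∧
      ∑ j, min |qf T (x (e₁ j)) - qf T (x (e₂ j))| (f / 16) ≤ s)
    (c1.inter (c2.inter (c3.inter (c4.inter c5))))
  convert h using 1
  ext x
  constructor
  · rintro ⟨T, h1, h2, h3⟩
    exact ⟨T, (fro_le_trace h1).trans h2, h1, h2, h3⟩
  · rintro ⟨T, _, h1⟩
    exact ⟨T, h1⟩

omit [Fintype ι] [DecidableEq ι] [Fintype κ] in
lemma card_facts {J : Type*} [Fintype ι] [Fintype J] [Nonempty J] {e₁ e₂ : J → ι}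
    (he : Function.Injective (Sum.elim e₁ e₂)) :
    (0 : ℝ) < Fintype.card J ∧ 2 * (Fintype.card J : ℝ) ≤ Fintype.card ι := by
  have h1 := Fintype.card_le_of_injective _ he
  rw [Fintype.card_sum] at h1
  refine ⟨by exact_mod_cast Fintype.card_pos, ?_⟩
  have : ((Fintype.card J + Fintype.card J : ℕ) : ℝ) ≤ Fintype.card ι := by exact_mod_cast h1
  push_cast at this
  linarith

/-- The case of many points: all coordinates are whitened. -/
theorem transfer_many {J : Type*} [Fintype J] [Nonempty J] {e₁ e₂ : J → ι}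
    (he : Function.Injective (Sum.elim e₁ e₂)) {ρ u h c θ f s : ℝ} {k : ℕ} (hk : 0 < k)
    (hkd : k ≤ Fintype.card κ) (hρ : 2 ≤ ρ) (hlog : Real.log (16 * √(Fintype.card κ) + 2) ≤ ρ)
    (hm : 10 ^ 4 * Fintype.card κ * ρ ≤ Fintype.card J) (hh : 0 < h) (hck : c * h ≤ k)
    (hθ : 0 ≤ θ) (hθ1 : θ ≤ 1 / 2) (hf : 0 < f)
    (hs : s ≤ Fintype.card J * (f / 16) / (2 * 10 ^ 4)) :
    gm ι κ {x | (∀ v, qf (gram 1 x) v ≤ u * (v ⬝ᵥ v)) ∧
        (∀ Y : Matrix κ κ ℝ,
          2 * Y.trace - ip (u • (1 : Matrix κ κ ℝ) - gram 1 x) (Y * Yᵀ) ≤ c) ∧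
        (∀ v, Fintype.card ι / 2 * (v ⬝ᵥ v) ≤ qf (gram 1 x) v) ∧
        ∃ T : Matrix κ κ ℝ, T.PosSemidef ∧ T.trace ≤ Fintype.card κ ∧
          ip (u • (1 : Matrix κ κ ℝ) - gram 1 x) T ≤ θ * Fintype.card κ * h ∧ f ≤ fro T ∧
          ∑ j, min |qf T (x (e₁ j)) - qf T (x (e₂ j))| (f / 16) ≤ s} ≤
      ENNReal.ofReal (10 ^ 9 * (u * Fintype.card κ / Fintype.card ι) *
        (√(Fintype.card J * k * ρ) + √(θ + 324 * Fintype.card κ * ρ / Fintype.card ι) *
          √(Fintype.card J * Fintype.card κ * ρ)) / (Fintype.card J * f)) := by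
  classical
  obtain ⟨hm0, hmn⟩ := card_facts he
  have hn : (0 : ℝ) < Fintype.card ι := by linarith only [hm0, hmn]
  have hd : 0 < Fintype.card κ := hk.trans_le hkd
  have hd1 : (1 : ℝ) ≤ Fintype.card κ := by exact_mod_cast hd
  obtain ⟨hδ0, hδ1, hδn, hδ2⟩ := delta_facts hn (by linarith only [hd1]) hρ hmn hm
  set δ := 18 * √(Fintype.card κ * ρ / Fintype.card ι) with hδ
  obtain ⟨K, -, hK⟩ := Finset.exists_subset_card_eq (s := (univ : Finset κ)) (n := k)
    (by simpa using hkd)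
  have hdρ : (Fintype.card κ : ℝ) * ρ ≤ Fintype.card J := by nlinarith only [hm, hm0]
  have hsb := small_ball (κ := κ) he (K := K) (Finset.card_pos.1 (hK ▸ hk)) (ρ := ρ)
    (τ := 3 * (u * Fintype.card κ / Fintype.card ι)) (θ := θ + δ ^ 2) (f := f / 16) (by linarith only [hρ])
    hlog hdρ (by positivity) (by nlinarith only [hθ1, hδ1, hδ0]) (by positivity)
  refine (half_le_good (ι := ι) hd hρ hlog (by linarith only [hm, hm0, hmn])
    ((haar_compare' (IsClosed.measurableSet ?_) _ _ fun x x' hx' => ?_).trans hsb)).trans ?_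
  · have h1 : IsClosed {x : ι → κ → ℝ | ∀ v, qf (gram 1 x) v ≤ u * (v ⬝ᵥ v)} := by
      rw [Set.ofPred_forall]
      exact isClosed_iInter fun v => isClosed_le (by fun_prop) continuous_const
    have h2 : IsClosed {x : ι → κ → ℝ | ∀ Y : Matrix κ κ ℝ,
        2 * Y.trace - ip (u • (1 : Matrix κ κ ℝ) - gram 1 x) (Y * Yᵀ) ≤ c} := by
      rw [Set.ofPred_forall]
      exact isClosed_iInter fun v => isClosed_le (by fun_prop) continuous_const
    have h3 : IsClosed {x : ι → κ → ℝ |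
        ∀ v, Fintype.card ι / 2 * (v ⬝ᵥ v) ≤ qf (gram 1 x) v} := by
      rw [Set.ofPred_forall]
      exact isClosed_iInter fun v => isClosed_le continuous_const (by fun_prop)
    exact h1.inter (h2.inter (h3.inter (isClosed_tr_event e₁ e₂ u _ f s)))
  · by_cases hx : (∀ v, qf (gram 1 x) v ≤ u * (v ⬝ᵥ v)) ∧
        (∀ Y : Matrix κ κ ℝ,
          2 * Y.trace - ip (u • (1 : Matrix κ κ ℝ) - gram 1 x) (Y * Yᵀ) ≤ c) ∧
        (∀ v, Fintype.card ι / 2 * (v ⬝ᵥ v) ≤ qf (gram 1 x) v)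
    swap
    · refine ⟨1, orth_one, fun Q hQ hE => (hx ?_).elim⟩
      obtain ⟨h1, h2, h3, -⟩ := hE
      rw [gram_rot hQ] at h1 h2 h3
      exact ⟨h1, h2, h3⟩
    obtain ⟨h1, h2, h3⟩ := hx
    obtain ⟨U, l, hU, hW⟩ := exists_spec (gram_isHermitian 1 x)
    rw [hW] at h1 h2 h3
    have hhi := eig_le hU h1
    have hlo := le_eig hU h3
    obtain ⟨a0⟩ := Fintype.card_pos_iff.1 hd
    have hu : 0 ≤ u := by linarith only [hm0, hmn, hhi a0, hlo a0]
    set V := univ.filter fun a => u - l a < h with hV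
    have hVk : Fintype.card V ≤ Fintype.card K := by
      have := (card_top hU hh h2).trans hck
      simp only [Fintype.card_coe, hK]
      exact_mod_cast this
    obtain ⟨g⟩ := Function.Embedding.nonempty_of_card_le hVk
    obtain ⟨e, hev⟩ := Equiv.Perm.exists_extending_pair (f := (Subtype.val : V → κ))
      (g := fun a => (g a : κ)) Subtype.val_injective (Subtype.val_injective.comp g.injective)
    obtain ⟨R, M, hR, ha, hb, hc, hd'⟩ := transfer_core (s := id) (e := e) Function.injective_id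
      e.injective hn hu hδ0 hδ1 hU hW hlo hhi (hδn ▸ hx')
    refine ⟨R, hR, fun Q hQ hE => ?_⟩
    obtain ⟨-, -, -, T, hT, htr, hip, hfro, hsum⟩ := hE
    rw [gram_rot hQ, hW] at hip
    have hoff := off_top hU hh hhi hT hip
    have hemb : U * emb id * (U * emb id)ᵀ = 1 := by
      rw [mul_emb, submatrix_id_id, hU.mul_transpose]
    have hq : ∀ i, qf (Mᵀ * T * M) (fun a => (Qᵀ * R * Matrix.of x' : Matrix ι κ ℝ) i a) =
        qf T (fun a => (Qᵀ * Matrix.of x : Matrix ι κ ℝ) i a) := fun i => by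
      rw [qf_conj]
      have := ha Q i
      rw [hemb, one_mulVec] at this
      exact congrArg (qf T) this
    have hun : 0 ≤ u * Fintype.card κ / Fintype.card ι := by positivity
    refine scale_down e₁ e₂ _ (by positivity) (psd_conj hT M) ?_ ?_ ?_ ?_
    · refine (hb T hT).trans ?_
      calc 2 * u / Fintype.card ι * T.trace ≤ 2 * u / Fintype.card ι * Fintype.card κ := by gcongr
        _ = 2 * (u * Fintype.card κ / Fintype.card ι) := by ring
        _ ≤ _ := by linarith only [hun]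
    · have h4 := hd' T hT (univ.filter fun a => e a ∉ K)
      have h5 : ∑ a ∈ univ.filter fun a => e a ∉ K, (Mᵀ * T * M) (e a) (e a) =
          ∑ c ∈ Kᶜ, (Mᵀ * T * M) c c :=
        Finset.sum_equiv e (by simp) fun _ _ => rfl
      have h6 : ∑ a ∈ univ.filter fun a => e a ∉ K, (Uᵀ * T * U) a a ≤ θ * Fintype.card κ := by
        refine le_trans (Finset.sum_le_sum_of_subset_of_nonneg (fun a ha => ?_)
          fun a _ _ => (psd_conj hT U).diag_nonneg) hoff
        rw [Finset.mem_compl]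
        intro haV
        have h7 := hev ⟨a, haV⟩
        simp only [Finset.mem_filter, Finset.mem_univ, true_and] at ha
        exact ha (h7 ▸ (g ⟨a, haV⟩).2)
      rw [h5] at h4
      simp only [id] at h4
      have h7 : 2 * u * ∑ a ∈ univ.filter fun a => e a ∉ K, (Uᵀ * T * U) a a ≤
          2 * u * (θ * Fintype.card κ) := by gcongr
      have h8 : 2 * u * δ ^ 2 * T.trace ≤ 2 * u * δ ^ 2 * Fintype.card κ := by gcongr
      have h9 : 0 ≤ (θ + δ ^ 2) * (u * Fintype.card κ) := by positivity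
      refine le_of_mul_le_mul_left ?_ hn
      have h10 : Fintype.card ι * ((θ + δ ^ 2) * (3 * (u * Fintype.card κ / Fintype.card ι))) =
          3 * ((θ + δ ^ 2) * (u * Fintype.card κ)) := by field_simp
      rw [h10]
      linarith only [h4, h7, h8, h9]
    · have h4 := hc T
      rw [submatrix_id_id, fro_conj_orth hU] at h4
      linarith only [hf, hfro, h4]
    · simp only [hq]
      exact hsum.trans hs
  · rw [hK, hδ2]
    refine le_trans (le_of_eq ?_) ((ofReal_const_le (a := 96 * 10 ^ 7) (b := 10 ^ 9)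
      (X := (u * Fintype.card κ / Fintype.card ι) *
        (√(Fintype.card J * k * ρ) + √(θ + 324 * Fintype.card κ * ρ / Fintype.card ι) *
          √(Fintype.card J * Fintype.card κ * ρ)) / (Fintype.card J * f)) (by norm_num)
      (by norm_num)).trans (le_of_eq ?_))
    · congr 1; field_simp; ring
    · congr 1; ring

/-- The case of few points: only the top eigenspace is whitened. -/
theorem transfer_few {J : Type*} [Fintype J] [Nonempty J] {e₁ e₂ : J → ι}
    (he : Function.Injective (Sum.elim e₁ e₂)) {ρ u h c θ f s : ℝ} {k : ℕ} (hk : 0 < k)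
    (hρ : 2 ≤ ρ) (hlog : Real.log (16 * √k + 2) ≤ ρ) (hm : 10 ^ 4 * k * ρ ≤ Fintype.card J)
    (hh : 0 < h) (hck : c * h ≤ k) (hhu : 2 * h ≤ u) (hnu : (Fintype.card ι : ℝ) ≤ u)
    (hθ : 0 ≤ θ) (hθ1 : θ ≤ 1) (hf : 4 * √θ * Fintype.card κ ≤ f) (hf0 : 0 < f)
    (hs : s + 3 * u * √θ * Fintype.card κ ≤ Fintype.card J * (f / 16) / (2 * 10 ^ 4)) :
    gm ι κ {x | (∀ v, qf (gram 1 x) v ≤ u * (v ⬝ᵥ v)) ∧
        (∀ Y : Matrix κ κ ℝ,
          2 * Y.trace - ip (u • (1 : Matrix κ κ ℝ) - gram 1 x) (Y * Yᵀ) ≤ c) ∧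
        ∃ T : Matrix κ κ ℝ, T.PosSemidef ∧ T.trace ≤ Fintype.card κ ∧
          ip (u • (1 : Matrix κ κ ℝ) - gram 1 x) T ≤ θ * Fintype.card κ * h ∧ f ≤ fro T ∧
          ∑ j, min |qf T (x (e₁ j)) - qf T (x (e₂ j))| (f / 16) ≤ s} ≤
      ENNReal.ofReal (10 ^ 9 * (u * Fintype.card κ / Fintype.card ι) *
        √(Fintype.card J * k * ρ) / (Fintype.card J * f)) := by
  classical
  obtain ⟨hm0, hmn⟩ := card_facts he
  have hn : (0 : ℝ) < Fintype.card ι := by linarith only [hm0, hmn]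
  have hu : 0 ≤ u := by linarith
  have hk1 : (1 : ℝ) ≤ k := by exact_mod_cast hk
  obtain ⟨hδ0, hδ1, hδn, -⟩ := delta_facts hn (by linarith) hρ hmn hm
  have hkρ : (k : ℝ) * ρ ≤ Fintype.card J := by nlinarith only [hm, hm0]
  have : Nonempty (Fin k) := ⟨⟨0, hk⟩⟩
  have hsb := small_ball (κ := Fin k) he (K := univ) Finset.univ_nonempty (ρ := ρ)
    (τ := 3 * (u * Fintype.card κ / Fintype.card ι)) (θ := 0) (f := f / 16) (by linarith only [hρ])
    (by simpa using hlog) (by simpa using hkρ) le_rfl zero_le_one (by positivity)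
  refine (half_le_good (ι := ι) (κ := Fin k) (by simpa using hk) hρ (by simpa using hlog)
    (by rw [Fintype.card_fin]; linarith only [hm, hm0, hmn])
    ((haar_compare' (IsClosed.measurableSet ?_) _ _ fun x x' hx' => ?_).trans hsb)).trans ?_
  · have h1 : IsClosed {x : ι → κ → ℝ | ∀ v, qf (gram 1 x) v ≤ u * (v ⬝ᵥ v)} := by
      rw [Set.ofPred_forall]
      exact isClosed_iInter fun v => isClosed_le (by fun_prop) continuous_const
    have h2 : IsClosed {x : ι → κ → ℝ | ∀ Y : Matrix κ κ ℝ,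
        2 * Y.trace - ip (u • (1 : Matrix κ κ ℝ) - gram 1 x) (Y * Yᵀ) ≤ c} := by
      rw [Set.ofPred_forall]
      exact isClosed_iInter fun v => isClosed_le (by fun_prop) continuous_const
    exact h1.inter (h2.inter (isClosed_tr_event e₁ e₂ u _ f s))
  · by_cases hx : (∀ v, qf (gram 1 x) v ≤ u * (v ⬝ᵥ v)) ∧
        (∀ Y : Matrix κ κ ℝ,
          2 * Y.trace - ip (u • (1 : Matrix κ κ ℝ) - gram 1 x) (Y * Yᵀ) ≤ c)
    swap
    · refine ⟨1, orth_one, fun Q hQ hE => (hx ?_).elim⟩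
      obtain ⟨h1, h2, -⟩ := hE
      rw [gram_rot hQ] at h1 h2
      exact ⟨h1, h2⟩
    obtain ⟨h1, h2⟩ := hx
    obtain ⟨U, l, hU, hW⟩ := exists_spec (gram_isHermitian 1 x)
    rw [hW] at h1 h2
    have hhi := eig_le hU h1
    set V := univ.filter fun a => u - l a < h with hV
    have hVk : Fintype.card V ≤ Fintype.card (Fin k) := by
      have := (card_top hU hh h2).trans hck
      simp only [Fintype.card_coe, Fintype.card_fin]
      exact_mod_cast this
    obtain ⟨g⟩ := Function.Embedding.nonempty_of_card_le hVk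
    have hlo : ∀ a : V, (Fintype.card ι : ℝ) / 2 ≤ l a := fun a => by
      have := (Finset.mem_filter.1 a.2).2
      linarith only [hhu, hnu, this]
    rw [Set.mem_ofPred_eq, Fintype.card_fin, hδn] at hx'
    obtain ⟨R, M, hR, ha, hb, hc, -⟩ := transfer_core (s := (Subtype.val : V → κ)) (e := g)
      Subtype.val_injective g.injective hn hu hδ0 hδ1 hU hW hlo (fun a => hhi a) hx'
    refine ⟨R, hR, fun Q hQ hE => ?_⟩
    obtain ⟨-, -, T, hT, htr, hip, hfro, hsum⟩ := hE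
    rw [gram_rot hQ, hW] at hip
    have hoff := off_top hU hh hhi hT hip
    have hq : ∀ i, qf (Mᵀ * T * M) (fun a => (Qᵀ * R * Matrix.of x' : Matrix ι (Fin k) ℝ) i a) =
        qf T ((spec U fun a => if a ∈ V then 1 else 0) *ᵥ
          fun a => (Qᵀ * Matrix.of x : Matrix ι κ ℝ) i a) := fun i => by
      rw [qf_conj]
      have := ha Q i
      rw [proj_eq_spec] at this
      exact congrArg (qf T) this
    have hun : 0 ≤ u * Fintype.card κ / Fintype.card ι := by positivity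
    refine scale_down e₁ e₂ _ (by positivity) (psd_conj hT M) ?_ (by simp) ?_ ?_
    · refine (hb T hT).trans ?_
      calc 2 * u / Fintype.card ι * T.trace ≤ 2 * u / Fintype.card ι * Fintype.card κ := by gcongr
        _ = 2 * (u * Fintype.card κ / Fintype.card ι) := by ring
        _ ≤ _ := by linarith only [hun]
    · have h4 := hc T
      have h5 := fro_sq_le_sub (psd_conj hT U) V
      rw [fro_conj_orth hU, trace_conj_orth hU] at h5
      have h6 : 2 * (∑ a ∈ Vᶜ, (Uᵀ * T * U) a a) * T.trace ≤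
          2 * (θ * Fintype.card κ) * Fintype.card κ :=
        mul_le_mul (by linarith only [hoff]) htr hT.trace_nonneg (by positivity)
      have h7 : (4 * √θ * Fintype.card κ) ^ 2 ≤ f ^ 2 := pow_le_pow_left₀ (by positivity) hf 2
      rw [mul_pow, mul_pow, Real.sq_sqrt hθ] at h7
      have h8 : f ^ 2 ≤ fro T ^ 2 := pow_le_pow_left₀ hf0.le hfro 2
      have h9 : (f / 4) ^ 2 ≤
          fro ((Uᵀ * T * U).submatrix (Subtype.val : V → κ) (Subtype.val : V → κ)) ^ 2 := by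
        nlinarith only [h5, h6, h7, h8, sq_nonneg f]
      have h10 := (pow_le_pow_iff_left₀ (by positivity) (fro_nonneg _) two_ne_zero).1 h9
      linarith only [h4, h10]
    · simp only [hq]
      have h4 := sum_min_le he
        (fun i => qf T fun a => (Qᵀ * Matrix.of x : Matrix ι κ ℝ) i a)
        (fun i => qf T ((spec U fun a => if a ∈ V then 1 else 0) *ᵥ
          fun a => (Qᵀ * Matrix.of x : Matrix ι κ ℝ) i a)) (f / 16)
      have h5 := proj_err hU ((gram_rot hQ x).trans hW) hu hhi hθ hθ1 hT htr V hoff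
      linarith only [hs, hsum, h4, h5]
  · rw [Finset.card_univ, Fintype.card_fin, Real.sqrt_zero, zero_mul, add_zero]
    refine le_trans (le_of_eq ?_) ((ofReal_const_le (a := 96 * 10 ^ 7) (b := 10 ^ 9)
      (X := (u * Fintype.card κ / Fintype.card ι) * √(Fintype.card J * k * ρ) /
        (Fintype.card J * f)) (by norm_num) (by norm_num)).trans (le_of_eq ?_))
    · congr 1; field_simp; ring
    · congr 1; ring

end Pool.Agent.Work.MP_6a50bc_pr
end
end

-- merged part: Pool.Agent.Work.MP_6a50bc_pr.Final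
section
-- merged part: Pool.Agent.Work.MP_6a50bc_pr.SmallAux1
section
/-! Leave-one-out reduction for few points. -/

namespace Pool.Agent.Work.MP_6a50bc_pr.SmallAux

open MeasureTheory ProbabilityTheory Matrix Finset
open scoped ENNReal

variable {ι κ : Type*} [Fintype ι] [DecidableEq ι] [Fintype κ] [DecidableEq κ]

omit [DecidableEq κ] in
lemma loo_le {B : ι → Set (ι → κ → ℝ)} (hB : ∀ i, MeasurableSet (B i))
    (G : Set (ι → κ → ℝ)) {p : ℝ≥0∞}
    (h : ∀ i, ∀ x ∈ G, gv κ {g | Function.update x i g ∈ B i} ≤ p) :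
    gm ι κ {x | x ∉ G ∨ ∃ i, x ∈ B i} ≤ gm ι κ Gᶜ + Fintype.card ι * p := by
  set H := toMeasurable (gm ι κ) Gᶜ
  have h1 : {x | x ∉ G ∨ ∃ i, x ∈ B i} ⊆ H ∪ ⋃ i, B i \ H := by
    rintro x (hx | ⟨i, hi⟩)
    · exact Or.inl (subset_toMeasurable _ _ hx)
    by_cases hx : x ∈ H
    · exact Or.inl hx
    · exact Or.inr (Set.mem_iUnion.mpr ⟨i, hi, hx⟩)
  refine (measure_mono h1).trans ((measure_union_le _ _).trans ?_)
  rw [measure_toMeasurable]
  gcongr
  refine (measure_iUnion_fintype_le _ _).trans ?_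
  rw [← nsmul_eq_mul, ← card_univ, ← sum_const]
  refine sum_le_sum fun i _ => section_le i ((hB i).diff (measurableSet_toMeasurable _ _))
    fun x hx => le_trans (measure_mono fun g hg => hg.1) (h i x ?_)
  by_contra hG
  exact hx.2 (subset_toMeasurable _ _ hG)

omit [DecidableEq ι] in
lemma fit_of {d lo : ℝ} (hd : 0 < d) (hlo : 0 ≤ lo) {x : ι → κ → ℝ}
    (hW : ∀ v, lo * qf (gram 1 x) v ≤ 1 / 2 * (v ⬝ᵥ v)) (hx : ∀ i, d / 2 ≤ x i ⬝ᵥ x i)
    {y : ι → ℝ} (hy : DualOpt d lo (5 / d) x y) (h : ∀ i, -lo < y i) : Fit d x := by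
  have key : ∀ v, -(lo * qf (gram 1 x) v) ≤ qf (gram y x) v ∧
      ∀ i, y i * (x i ⬝ᵥ v) ^ 2 - lo * qf (gram 1 x) v ≤ qf (gram y x) v := by
    intro v
    have e : qf (gram y x) v + lo * qf (gram 1 x) v = ∑ j, (y j + lo) * (x j ⬝ᵥ v) ^ 2 := by
      rw [qf_gram, qf_gram, mul_sum, ← sum_add_distrib]
      exact sum_congr rfl fun j _ => by simp only [Pi.one_apply]; ring
    have h0 : ∀ j ∈ (univ : Finset ι), 0 ≤ (y j + lo) * (x j ⬝ᵥ v) ^ 2 := fun j _ =>
      mul_nonneg (by linarith [h j]) (sq_nonneg _)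
    refine ⟨by linarith [sum_nonneg h0], fun i => ?_⟩
    have h1 := single_le_sum h0 (mem_univ i)
    nlinarith only [e, h1, hlo, mul_nonneg hlo (sq_nonneg (x i ⬝ᵥ v))]
  refine fit_of_dualOpt hy (fun i => ⟨h i, ?_⟩) fun v hv => ?_
  · have h1 := (key (x i)).2 i
    have h2 := hW (x i)
    have h3 := (abs_le.1 (hy.1.2 (x i))).2
    have h4 := hx i
    set N := x i ⬝ᵥ x i
    have hN : 0 < N := by linarith
    have h5 : y i * N ≤ 3 / 2 := by
      by_contra hc
      push Not at hc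
      nlinarith only [h1, h2, h3, hd, hc, h4]
    rw [lt_div_iff₀ hd]
    by_contra hc
    push Not at hc
    have h6 : 0 < y i := by
      by_contra h7
      push Not at h7
      nlinarith only [hc, hd, h7]
    nlinarith only [hc, hd, h1, h2, h3, h4, hN]
  · have h1 := (key v).1
    have h2 := hW v
    have h3 := dot_self_pos hv
    linarith

/-- Reduction to a trace and a Frobenius bound for leave-one-out minimisers. -/
lemma reduce {d lo ρ : ℝ} (hd : 0 < d) (hlo : 0 < lo) (G : Set (ι → κ → ℝ))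
    (hG : ∀ x ∈ G, (∀ v, lo * qf (gram 1 x) v ≤ 1 / 2 * (v ⬝ᵥ v)) ∧ (∀ i, d / 2 ≤ x i ⬝ᵥ x i) ∧
      ∀ i S, IsMin d lo (5 / d) (univ.erase i) x S → S.PosSemidef → S.trace + ρ * fro S < d) :
    gm ι κ {x | ¬ Fit d x} ≤
      gm ι κ Gᶜ + ENNReal.ofReal (3 * Fintype.card ι * Real.exp (-ρ / 4)) := by
  have hhi : 0 ≤ 5 / d := by positivity
  have h1 := loo_le (B := fun i => {x : ι → κ → ℝ | ∃ y, DualOpt d lo (5 / d) x y ∧
      y i ∈ Set.Iic (-lo)}) (fun i => measurableSet_dualOpt hlo.le hhi i isClosed_Iic) G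
    (p := ENNReal.ofReal (3 * Real.exp (-ρ / 4))) ?_
  · refine le_trans (measure_mono fun x hx => ?_) (h1.trans (le_of_eq ?_))
    · by_contra hc
      simp only [Set.mem_ofPred_eq, not_or, not_not, not_exists, not_and, Set.mem_Iic,
        not_le] at hc
      obtain ⟨y, hy⟩ := exists_dualOpt (b := d) (g := x) hlo.le hhi
      exact hx (fit_of hd hlo.le (hG x hc.1).1 (hG x hc.1).2.1 hy fun i => hc.2 i y hy)
    · rw [← ENNReal.ofReal_natCast, ← ENNReal.ofReal_mul (Nat.cast_nonneg _)]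
      congr 2
      ring
  · intro i x hx
    obtain ⟨S, hS, hS'⟩ := exists_isMin_posSemidef (b := d) (g := x) hlo.le hhi (univ.erase i)
      fun v => by linarith only [(hG x hx).1 v, dot_self_nonneg v]
    refine le_trans (measure_mono fun g hg => ?_) (tail_cq hS.1 ρ)
    obtain ⟨y, hy, hyi⟩ := hg
    by_contra hc
    simp only [Set.mem_ofPred_eq, not_lt] at hc
    have h2 := (hG x hx).2.2 i S hS hS'
    have h3 := loo_sign hlo.le hhi hy (hS.update (notMem_erase i _) g) (by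
      rw [Function.update_self]
      have := (abs_le.1 hc).2
      unfold cq at this
      linarith)
    have : y i ≤ -lo := hyi
    linarith

omit [DecidableEq ι] in
lemma obj_le {d lo hi c : ℝ} (hd : 0 ≤ d) (hlo : 0 ≤ lo) (hhi : 0 ≤ hi) {x : ι → κ → ℝ}
    (hW : ∀ v, lo * qf (gram 1 x) v ≤ c * (v ⬝ᵥ v)) {S : Matrix κ κ ℝ} (h0 : S.PosSemidef)
    (h1 : ∀ i, d ≤ qf S (x i)) (I : Finset ι) : obj d lo hi I x S ≤ (1 + c) * S.trace := by
  have h2 : ip (lo • gram 1 x) S ≤ c * S.trace :=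
    ip_le_mul_trace h0 fun v => by rw [qf_smul]; exact hW v
  rw [ip_smul_left, ip_gram, mul_sum] at h2
  have h3 : ∑ i ∈ I, pen lo hi (d - qf S (x i)) ≤ ∑ i, lo * ((1 : ι → ℝ) i * qf S (x i)) := by
    refine (sum_le_sum (g := fun i => lo * ((1 : ι → ℝ) i * qf S (x i))) fun i _ => ?_).trans
      (sum_le_univ_sum_of_nonneg fun i => ?_)
    · simp only [Pi.one_apply, one_mul]
      have := h1 i
      refine max_le ?_ ?_
      · nlinarith only [hhi, this, hlo, hd, mul_nonneg hhi (sub_nonneg.2 this), mul_nonneg hlo (hd.trans this)]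
      · nlinarith [mul_nonneg hlo hd]
    · simp only [Pi.one_apply, one_mul]
      exact mul_nonneg hlo (qf_nonneg h0 _)
  rw [obj, nuc_of_posSemidef h0]
  linarith

omit [Fintype ι] [DecidableEq ι] in
lemma trace_le_obj {d lo hi : ℝ} (hlo : 0 ≤ lo) (hhi : 0 ≤ hi) {x : ι → κ → ℝ}
    {S : Matrix κ κ ℝ} (h0 : S.PosSemidef) (I : Finset ι) : S.trace ≤ obj d lo hi I x S := by
  rw [obj, nuc_of_posSemidef h0]
  exact le_add_of_nonneg_right (sum_nonneg fun i _ => pen_nonneg hlo hhi _)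

lemma obj_ge {d lo hi u : ℝ} (hlo : 0 ≤ lo) (hhi : 0 ≤ hi) (hu : 0 ≤ u) (huh : 2 ≤ u * hi)
    {x : ι → κ → ℝ} {S : Matrix κ κ ℝ} (h0 : S.PosSemidef) (i : ι) :
    ip (u • (1 : Matrix κ κ ℝ) - gram 1 x) S + (Fintype.card ι - 1) * d +
      ∑ j ∈ univ.erase i, |d - qf S (x j)| ≤ u * obj d lo hi (univ.erase i) x S := by
  rw [obj, nuc_of_posSemidef h0, ip_sub_left, ip_smul_left, ip_comm 1, ip_one, ip_gram, mul_add,
    mul_sum, ← add_sum_erase _ _ (mem_univ i)]
  have hc : ((Fintype.card ι : ℝ) - 1) * d = ∑ _j ∈ univ.erase i, d := by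
    rw [sum_const, card_erase_of_mem (mem_univ i), card_univ, nsmul_eq_mul,
      Nat.cast_sub (Fintype.card_pos_iff.2 ⟨i⟩), Nat.cast_one]
  have h1 : ∑ j ∈ univ.erase i, (d + |d - qf S (x j)|) ≤ ∑ j ∈ univ.erase i,
      ((1 : ι → ℝ) j * qf S (x j) + u * pen lo hi (d - qf S (x j))) := by
    refine sum_le_sum fun j _ => ?_
    simp only [Pi.one_apply, one_mul]
    rcases le_total 0 (d - qf S (x j)) with h | h
    · have h2 : hi * (d - qf S (x j)) ≤ pen lo hi (d - qf S (x j)) := le_max_left _ _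
      rw [abs_of_nonneg h]
      nlinarith only [h2, hu, huh, h, mul_le_mul_of_nonneg_left h2 hu, mul_le_mul_of_nonneg_right huh h]
    · rw [abs_of_nonpos h]
      nlinarith only [hu, hlo, hhi, mul_nonneg hu (pen_nonneg hlo hhi (d - qf S (x j)))]
  rw [sum_add_distrib, sum_add_distrib] at h1
  have h2 := qf_nonneg h0 (x i)
  simp only [Pi.one_apply, one_mul] at h1 ⊢
  linarith

lemma pair_sum {J : Type*} [Fintype J] {e₁ e₂ : J → ι} (he : Function.Injective (Sum.elim e₁ e₂))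
    (q : ι → ℝ) (d : ℝ) {φ : ℝ} (hφ : 0 ≤ φ) (i : ι) :
    ∑ j, min |q (e₁ j) - q (e₂ j)| φ ≤ φ + ∑ j ∈ univ.erase i, |d - q j| := by
  classical
  set w : ι → ℝ := fun j => if j = i then φ else |d - q j| with hw
  have hw0 : ∀ j, 0 ≤ w j := fun j => by
    simp only [hw]
    split_ifs
    · exact hφ
    · exact abs_nonneg _
  have h1 : ∀ a b, min |q a - q b| φ ≤ w a + w b := by
    intro a b
    by_cases ha : a = i
    · have : w a = φ := if_pos ha
      linarith [min_le_right |q a - q b| φ, hw0 b]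
    by_cases hb : b = i
    · have : w b = φ := if_pos hb
      linarith [min_le_right |q a - q b| φ, hw0 a]
    have e1 : w a = |d - q a| := if_neg ha
    have e2 : w b = |d - q b| := if_neg hb
    have := abs_sub_le (q a) d (q b)
    rw [abs_sub_comm (q a) d] at this
    linarith [min_le_left |q a - q b| φ]
  have h2 : ∑ j, (w (e₁ j) + w (e₂ j)) = ∑ s ∈ univ.map ⟨_, he⟩, w s := by
    rw [sum_map, Fintype.sum_sum_type, sum_add_distrib]
    rfl
  have h3 : ∑ s, w s = φ + ∑ j ∈ univ.erase i, |d - q j| := by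
    rw [← add_sum_erase _ _ (mem_univ i)]
    congr 1
    · exact if_pos rfl
    · exact sum_congr rfl fun j hj => if_neg (ne_of_mem_erase hj)
  calc _ ≤ ∑ j, (w (e₁ j) + w (e₂ j)) := sum_le_sum fun j _ => h1 _ _
    _ ≤ ∑ s, w s := by rw [h2]; exact sum_le_univ_sum_of_nonneg hw0
    _ = _ := h3

omit [DecidableEq ι] in
lemma exists_pairs (ι : Type*) [Fintype ι] :
    ∃ e₁ e₂ : Fin (Fintype.card ι / 2) → ι, Function.Injective (Sum.elim e₁ e₂) := by
  obtain ⟨e⟩ : Nonempty (Fin (Fintype.card ι / 2) ⊕ Fin (Fintype.card ι / 2) ↪ ι) :=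
    Function.Embedding.nonempty_of_card_le (by simp only [Fintype.card_sum, Fintype.card_fin]; omega)
  refine ⟨e ∘ Sum.inl, e ∘ Sum.inr, ?_⟩
  rw [Sum.elim_comp_inl_inr]
  exact e.injective

end Pool.Agent.Work.MP_6a50bc_pr.SmallAux
end

-- merged part: Pool.Agent.Work.MP_6a50bc_pr.SmallAux2
section
/-! Numerical inequalities for the case of few points. -/

namespace Pool.Agent.Work.MP_6a50bc_pr.SmallAux

/-- The parameters: `r` is large, `q = 1 / r`, there are `a ^ 2` points in dimension `b ^ 2`. -/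
structure Par (r q a b : ℝ) : Prop where
  hr : 10 ^ 20 ≤ r
  hq : r * q = 1
  ha : 0 < a
  hb : 0 < b
  h1 : b ≤ r * a
  h2 : a * r ^ 150 ≤ b ^ 2

namespace Par

variable {r q a b : ℝ} (P : Par r q a b)
include P

lemma r_pos : 0 < r := by linarith [P.hr]

lemma q_pos : 0 < q := by
  by_contra h
  nlinarith only [h, P.hq, P.r_pos]

lemma q_le : q ≤ 1 / 10 ^ 20 := by
  rw [le_div_iff₀ (by positivity)]
  nlinarith only [P.hq, P.hr, P.q_pos]

lemma q_le_one : q ≤ 1 := by linarith [P.q_le]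

lemma pw {i j : ℕ} (h : i < j) : q ^ j ≤ q ^ i / 10 ^ 20 := by
  have h1 : q ^ j ≤ q ^ (i + 1) := pow_le_pow_of_le_one P.q_pos.le P.q_le_one h
  have h2 := mul_le_mul_of_nonneg_left P.q_le (pow_pos P.q_pos i).le
  rw [pow_succ] at h1
  linarith only [h1, h2]

lemma pw0 {j : ℕ} (h : 0 < j) : q ^ j ≤ 1 / 10 ^ 20 := by simpa using P.pw h

lemma rq (i : ℕ) : r ^ i * q ^ i = 1 := by rw [← mul_pow, P.hq, one_pow]

lemma b_ge : 1 ≤ q ^ 149 * b := by
  have hr := P.r_pos
  have h1 : b * r ^ 149 ≤ b * b := by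
    calc b * r ^ 149 ≤ r * a * r ^ 149 := by gcongr; exact P.h1
      _ = a * r ^ 150 := by ring
      _ ≤ b * b := by rw [← sq]; exact P.h2
  have h2 := le_of_mul_le_mul_left h1 P.hb
  calc (1 : ℝ) = q ^ 149 * r ^ 149 := by rw [mul_comm, P.rq]
    _ ≤ _ := mul_le_mul_of_nonneg_left h2 (pow_pos P.q_pos _).le

lemma qb_le : q * b ≤ a := by
  calc q * b ≤ q * (r * a) := mul_le_mul_of_nonneg_left P.h1 P.q_pos.le
    _ = a := by rw [← mul_assoc, mul_comm q, P.hq, one_mul]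

lemma a_ge : 1 ≤ q ^ 148 * a := by
  calc (1 : ℝ) ≤ q ^ 148 * (q * b) := by linarith [P.b_ge, show q ^ 148 * (q * b) = q ^ 149 * b by ring]
    _ ≤ _ := mul_le_mul_of_nonneg_left P.qb_le (pow_pos P.q_pos _).le

lemma a_le : a ≤ q ^ 150 * b ^ 2 := by
  calc a = q ^ 150 * (a * r ^ 150) := by linear_combination (-a) * P.rq 150
    _ ≤ _ := mul_le_mul_of_nonneg_left P.h2 (pow_pos P.q_pos _).le

lemma b_ge' {i : ℕ} (h : i < 149) : 10 ^ 20 ≤ q ^ i * b := by
  linarith only [h, P.b_ge, mul_le_mul_of_nonneg_right (P.pw h) P.hb.le]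

lemma a_ge' {i : ℕ} (h : i < 148) : 10 ^ 20 ≤ q ^ i * a := by
  linarith only [h, P.a_ge, mul_le_mul_of_nonneg_right (P.pw h) P.ha.le]

lemma b_big : 10 ^ 20 ≤ b := by simpa using P.b_ge' (i := 0) (by norm_num)

lemma a_big : 10 ^ 20 ≤ a := by simpa using P.a_ge' (i := 0) (by norm_num)

lemma a_sq : 3 ≤ a ^ 2 := by nlinarith only [P.a_big]

lemma b_sq : 16 * b + 2 ≤ b ^ 2 := by nlinarith only [P.b_big]

lemma rmul (i : ℕ) : r * q ^ (i + 1) = q ^ i := by
  rw [pow_succ', ← mul_assoc, P.hq, one_mul]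

lemma primal1 : r * q ^ 34 ≤ 1 / 100 := by
  rw [P.rmul]
  linarith only [P.pw0 (j := 33) (by norm_num)]

lemma primal2 : r * (a + b) ≤ (q ^ 34) ^ 2 * q ^ 34 * b ^ 2 := by
  have hr := P.r_pos
  have hb := P.hb
  have h1 : b ≤ q ^ 149 * b ^ 2 := by nlinarith only [hb, P.b_ge]
  have h2 := P.pw (i := 102) (j := 149) (by norm_num)
  have h3 := P.pw (i := 102) (j := 148) (by norm_num)
  have h4 := pow_pos P.q_pos 102
  calc r * (a + b) ≤ r * (q ^ 150 * b ^ 2 + q ^ 149 * b ^ 2) := by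
        gcongr
        exact P.a_le
    _ = (r * q ^ 150 + r * q ^ 149) * b ^ 2 := by ring
    _ = (q ^ 149 + q ^ 148) * b ^ 2 := by rw [P.rmul, P.rmul]
    _ ≤ q ^ 102 * b ^ 2 := by gcongr; linarith only [h2, h3, h4]
    _ = _ := by ring

lemma norm1 : r * b ≤ b ^ 2 / 2 := by
  have h := P.b_ge' (i := 1) (by norm_num)
  have hr := P.r_pos
  have : r * 10 ^ 20 ≤ b := by
    calc r * 10 ^ 20 ≤ r * (q ^ 1 * b) := by gcongr
      _ = b := by linear_combination b * P.hq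
  nlinarith only [hr, this, P.hb]

variable {u : ℝ} (hu : u = (a + b) ^ 2 + 2 * (q ^ 34) ^ 2 * b * (a + b))
include hu

lemma u_ge : (a + b) ^ 2 ≤ u := by
  have := P.ha
  have := P.hb
  rw [hu]
  exact le_add_of_nonneg_right (by positivity)

lemma u_le : u ≤ 2 * (a + b) ^ 2 := by
  have ha := P.ha
  have hb := P.hb
  have h1 := P.pw0 (j := 68) (by norm_num)
  have h2 : (q ^ 34) ^ 2 * (b * (a + b)) ≤ 1 / 10 ^ 20 * ((a + b) * (a + b)) := by
    rw [← pow_mul]
    gcongr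
    linarith
  rw [hu]
  linarith only [h2, sq_nonneg (a + b)]

lemma u_pos : 0 < u := by
  have := P.ha
  have := P.hb
  exact lt_of_lt_of_le (by positivity) (P.u_ge hu)

lemma u_hi : 2 ≤ u * (5 / b ^ 2) := by
  have ha := P.ha
  have hb := P.hb
  rw [← mul_div_assoc, le_div_iff₀ (by positivity)]
  nlinarith only [hu, ha, hb, P.u_ge hu, mul_pos ha hb]

/-- The value of the leave-one-out problem. -/
lemma val_le {o s : ℝ} (ho : o ≤ (1 + 1 / (2 * a ^ 2)) * s)
    (hs : u * s ≤ a ^ 2 * b ^ 2 * (1 + 30 * r * q ^ 34 * (b / (a + b)))) :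
    u * o ≤ (a ^ 2 - 1) * b ^ 2 + (30 * r * q ^ 34 * (b / (a + b)) * a ^ 2 * b ^ 2 + 2 * b ^ 2) ∧
      o ≤ b ^ 2 * (1 - b / (a + b) / 2) := by
  have ha := P.ha
  have hb := P.hb
  have hq := P.q_pos
  have hu0 := P.u_pos hu
  rw [mul_assoc 30, P.rmul] at hs ⊢
  have hom : b / (a + b) ≤ 1 := by rw [div_le_one (by positivity)]; linarith only [ha]
  have h33 := P.pw0 (j := 33) (by norm_num)
  have hδ : 30 * q ^ 33 * (b / (a + b)) ≤ 1 := by
    calc _ ≤ 30 * (1 / 10 ^ 20) * (1 : ℝ) := by gcongr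
      _ ≤ 1 := by norm_num
  have hδ2 : 30 * q ^ 33 * (b / (a + b)) * a ^ 2 ≤ a * b := by
    have : a / (a + b) ≤ 1 := by rw [div_le_one (by positivity)]; linarith only [hb]
    calc _ = 30 * q ^ 33 * (a / (a + b)) * (a * b) := by ring
      _ ≤ 30 * (1 / 10 ^ 20) * 1 * (a * b) := by gcongr
      _ ≤ _ := by linarith only [ha, hb, mul_pos ha hb]
  set δ := 30 * q ^ 33 * (b / (a + b)) with hδd
  have h1 : u * o ≤ (a ^ 2 - 1) * b ^ 2 + (δ * a ^ 2 * b ^ 2 + 2 * b ^ 2) := by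
    calc u * o ≤ (1 + 1 / (2 * a ^ 2)) * (u * s) := by linarith only [ho, hu0, mul_le_mul_of_nonneg_left ho hu0.le]
      _ ≤ (1 + 1 / (2 * a ^ 2)) * (a ^ 2 * b ^ 2 * (1 + δ)) := by gcongr
      _ = a ^ 2 * b ^ 2 * (1 + δ) + b ^ 2 * (1 + δ) / 2 := by field_simp
      _ ≤ _ := by linarith only [hδ, mul_le_mul_of_nonneg_left hδ (sq_nonneg b)]
  refine ⟨h1, ?_⟩
  have h2 : (a ^ 2 - 1) * b ^ 2 + (δ * a ^ 2 * b ^ 2 + 2 * b ^ 2) ≤
      (a + b) ^ 2 * (b ^ 2 * (1 - b / (a + b) / 2)) := by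
    have e : (a + b) ^ 2 * (b ^ 2 * (1 - b / (a + b) / 2)) =
        b ^ 2 * (a ^ 2 + 3 / 2 * (a * b) + b ^ 2 / 2) := by field_simp; ring
    have h3 : a ^ 2 + δ * a ^ 2 + 1 ≤ a ^ 2 + 3 / 2 * (a * b) + b ^ 2 / 2 := by
      nlinarith only [hδ, ha, hδ2, hb, P.b_big, mul_pos ha hb]
    rw [e]
    linarith only [h3, mul_le_mul_of_nonneg_left h3 (sq_nonneg b)]
  have h4 : 0 ≤ b ^ 2 * (1 - b / (a + b) / 2) := mul_nonneg (sq_nonneg _) (by linarith only [hom])
  refine le_of_mul_le_mul_left (h1.trans (h2.trans ?_)) hu0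
  exact mul_le_mul_of_nonneg_right (P.u_ge hu) h4

omit hu

lemma final_lt {tr fr : ℝ} (h1 : tr ≤ b ^ 2 * (1 - b / (a + b) / 2))
    (h2 : fr < b ^ 2 * (b / (a + b)) / (4 * r)) : tr + r * fr < b ^ 2 := by
  have ha := P.ha
  have hb := P.hb
  have hr := P.r_pos
  rw [lt_div_iff₀ (by positivity)] at h2
  have : 0 < b ^ 2 * (b / (a + b)) := by positivity
  linarith only [h1, h2, this]

variable {κ₀ h f m k θ : ℝ}
  (hκ : κ₀ = 30 * r * q ^ 34 * (b / (a + b)) * a ^ 2 * b ^ 2 + 2 * b ^ 2)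
  (hh : h = q ^ 14 * b * (a + b)) (hf : f = b ^ 2 * (b / (a + b)) / (4 * r))
  (hθ : θ = κ₀ / (b ^ 2 * h)) (hm : a ^ 2 / 3 ≤ m) (hk : k ≤ 2 * q ^ 14 * b ^ 2 + 1)

include hf in
lemma f_eq : f = b ^ 3 * q / (4 * (a + b)) := by
  have ha := P.ha
  have hb := P.hb
  have hr := P.r_pos
  rw [hf, show q = r⁻¹ from (eq_inv_of_mul_eq_one_right P.hq)]
  field_simp

include hκ hh hθ in
lemma theta_le : θ ≤ q ^ 18 := by
  have ha := P.ha
  have hb := P.hb
  have hq := P.q_pos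
  rw [hθ, hκ, hh, div_le_iff₀ (by positivity), mul_assoc 30, P.rmul]
  have h1 : 30 * q ^ 33 * (b / (a + b)) * a ^ 2 * b ^ 2 ≤ q ^ 32 * b ^ 3 * (a + b) / 2 := by
    have h2 : a ^ 2 / (a + b) ≤ a + b := by
      rw [div_le_iff₀ (by positivity)]; nlinarith only [ha, hb, mul_pos ha hb]
    have h3 := P.pw (i := 32) (j := 33) (by norm_num)
    calc _ = 30 * q ^ 33 * b ^ 3 * (a ^ 2 / (a + b)) := by ring
      _ ≤ 30 * (q ^ 32 / 10 ^ 20) * b ^ 3 * (a + b) := by gcongr
      _ ≤ _ := by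
        have : 0 < q ^ 32 * b ^ 3 * (a + b) := by positivity
        linarith only [this]
  have h4 : 2 * b ^ 2 ≤ q ^ 32 * b ^ 3 * (a + b) / 2 := by
    have h5 := P.b_ge' (i := 32) (by norm_num)
    have h6 := P.b_big
    calc 2 * b ^ 2 ≤ 10 ^ 20 * b ^ 2 * 1 / 2 := by linarith only [sq_nonneg b]
      _ ≤ q ^ 32 * b * b ^ 2 * (a + b) / 2 := by gcongr; linarith only [ha, h6]
      _ = _ := by ring
  linarith only [h1, h4]

include hk in
lemma k_le : k ≤ 3 * q ^ 14 * b ^ 2 := by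
  have h5 := P.b_ge' (i := 14) (by norm_num)
  linarith [P.b_big, mul_le_mul_of_nonneg_right h5 P.hb.le]

include hk in
lemma k_le' : k ≤ b ^ 2 := by
  have := P.k_le hk
  linarith only [this, mul_le_mul_of_nonneg_right (P.pw0 (j := 14) (by norm_num)) (sq_nonneg b), sq_nonneg b]

include hκ hf hm in
lemma s_le : κ₀ + f / 16 ≤ m * (f / 16) / (2 * 10 ^ 4) / 2 := by
  have ha := P.ha
  have hb := P.hb
  have hq := P.q_pos
  have hf' := P.f_eq hf
  have hf0 : 0 < f := by rw [hf']; positivity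
  have h1 : 30 * r * q ^ 34 * (b / (a + b)) * a ^ 2 * b ^ 2 = 120 * q ^ 32 * (a ^ 2 * f) := by
    rw [mul_assoc 30, P.rmul, hf']; field_simp; ring
  have h2 : 2 * b ^ 2 ≤ 1 / 10 ^ 7 * (a ^ 2 * f) := by
    have h3 := P.a_ge' (i := 1) (by norm_num)
    have h4 : a + b ≤ 2 * (a * b) := by nlinarith only [ha, hb, P.a_big, P.b_big]
    have e : 1 / 10 ^ 7 * (a ^ 2 * f) = b ^ 2 * ((q ^ 1 * a) * (a * b) / (4 * 10 ^ 7 * (a + b))) := by
      rw [hf']; field_simp
    rw [e, mul_comm 2]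
    gcongr
    rw [le_div_iff₀ (by positivity)]
    linarith only [ha, hb, h4, h3, mul_le_mul_of_nonneg_right h3 (mul_pos ha hb).le, mul_pos ha hb]
  have h5 : f / 16 ≤ 1 / 10 ^ 7 * (a ^ 2 * f) := by
    have : (10 : ℝ) ^ 7 ≤ a ^ 2 := by nlinarith only [ha, P.a_big]
    nlinarith only [h2, this, hb, hf0]
  have h6 := mul_le_mul_of_nonneg_right (P.pw0 (j := 32) (by norm_num))
    (show 0 ≤ a ^ 2 * f by positivity)
  have h7 := mul_le_mul_of_nonneg_right hm hf0.le
  have h8 : 0 < a ^ 2 * f := by positivity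
  rw [hκ, h1]
  linarith only [hf0, h2, h5, h6, h7]

include hm hk in
lemma sqrt1 : √(m * k * r) ≤ 2 * q ^ 6 * b * m / a := by
  have ha := P.ha
  have hb := P.hb
  have hq := P.q_pos
  have hr := P.r_pos
  have hm0 : 0 < m := lt_of_lt_of_le (by positivity) hm
  refine Real.sqrt_le_iff.2 ⟨by positivity, ?_⟩
  rw [div_pow, le_div_iff₀ (by positivity)]
  have h1 := P.pw (i := 12) (j := 13) (by norm_num)
  calc m * k * r * a ^ 2 ≤ m * (3 * q ^ 14 * b ^ 2) * r * (3 * m) := by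
        gcongr
        · exact P.k_le hk
        · linarith only [hm]
    _ = 9 * (r * q ^ 14) * (b ^ 2 * m ^ 2) := by ring
    _ ≤ 9 * (q ^ 12 / 10 ^ 20) * (b ^ 2 * m ^ 2) := by rw [P.rmul]; gcongr
    _ ≤ _ := by
      have : 0 < q ^ 12 * (b ^ 2 * m ^ 2) := by positivity
      linarith only [this]

include hu hf hm in
lemma bound {X c : ℝ} (hc : 0 ≤ c) (hX : X ≤ c * q * b * m / a) :
    10 ^ 9 * (u * b ^ 2 / a ^ 2) * X / (m * f) ≤ 8 * 10 ^ 9 * c * ((a + b) / a) ^ 3 := by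
  have ha := P.ha
  have hb := P.hb
  have hq := P.q_pos
  have hu0 := P.u_pos hu
  have hm0 : 0 < m := lt_of_lt_of_le (by positivity) hm
  rw [P.f_eq hf]
  calc _ ≤ 10 ^ 9 * (2 * (a + b) ^ 2 * b ^ 2 / a ^ 2) * (c * q * b * m / a) /
        (m * (b ^ 3 * q / (4 * (a + b)))) := by
        rcases le_total X 0 with h | h
        · refine le_trans (div_nonpos_of_nonpos_of_nonneg
            (mul_nonpos_of_nonneg_of_nonpos (by positivity) h) (by positivity)) (by positivity)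
        · gcongr
          exact P.u_le hu
    _ = _ := by field_simp; ring

lemma A_le : a + b ≤ 2 * r * a := by
  nlinarith only [P.h1, P.hr, P.ha]

include hu hf hm hk in
lemma few_bound :
    10 ^ 9 * (u * b ^ 2 / a ^ 2) * √(m * k * r) / (m * f) ≤ 1 / r := by
  have ha := P.ha
  have hb := P.hb
  have hq := P.q_pos
  have hr := P.r_pos
  have h1 := P.bound hu hf hm (c := 2 * q ^ 5) (by positivity)
    ((P.sqrt1 hm hk).trans (le_of_eq (by ring)))
  have h2 : (a + b) / a ≤ 2 * r := by rw [div_le_iff₀ ha]; exact P.A_le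
  have h3 := P.pw (i := 1) (j := 2) (by norm_num)
  calc _ ≤ _ := h1
    _ ≤ 8 * 10 ^ 9 * (2 * q ^ 5) * (2 * r) ^ 3 := by gcongr
    _ = 128 * 10 ^ 9 * q ^ 2 * (r ^ 3 * q ^ 3) := by ring
    _ ≤ q := by rw [P.rq]; linarith only [hq, h3]
    _ = 1 / r := by rw [eq_div_iff hr.ne', mul_comm, P.hq]

include hm hk in
lemma few_m : 10 ^ 4 * k * r ≤ m := by
  have hb := P.hb
  have hq := P.q_pos
  have hr := P.r_pos
  have h1 := P.pw (i := 2) (j := 13) (by norm_num)
  have h2 : (q * b) ^ 2 ≤ a ^ 2 := by gcongr; exact P.qb_le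
  calc 10 ^ 4 * k * r ≤ 10 ^ 4 * (3 * q ^ 14 * b ^ 2) * r := by gcongr; exact P.k_le hk
    _ = 3 * 10 ^ 4 * (r * q ^ 14) * b ^ 2 := by ring
    _ ≤ 3 * 10 ^ 4 * (q ^ 2 / 10 ^ 20) * b ^ 2 := by rw [P.rmul]; gcongr
    _ ≤ _ := by linarith only [hm, h2, sq_nonneg (q * b)]

include hu hh in
lemma few_h : 2 * h ≤ u := by
  have ha := P.ha
  have hb := P.hb
  have h1 := P.pw0 (j := 14) (by norm_num)
  have h2 : q ^ 14 * b * (a + b) ≤ 1 / 10 ^ 20 * (a + b) * (a + b) := by gcongr; linarith only [ha]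
  linarith only [hh, h2, hu, P.u_ge hu, sq_nonneg (a + b)]

include hκ hh hθ in
lemma sqrt_theta : √θ ≤ q ^ 9 :=
  Real.sqrt_le_iff.2 ⟨(pow_pos P.q_pos _).le, (P.theta_le hκ hh hθ).trans (le_of_eq (by ring))⟩

lemma A_le' (hfew : a ≤ r ^ 5 * b) : q ^ 5 * (a + b) ≤ 2 * b := by
  have hq := P.q_pos
  have h1 : q ^ 5 * a ≤ b := by
    calc q ^ 5 * a ≤ q ^ 5 * (r ^ 5 * b) := by gcongr
      _ = b := by linear_combination b * P.rq 5
  linarith only [h1, mul_le_mul_of_nonneg_right (P.pw0 (j := 5) (by norm_num)) P.hb.le, P.hb]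

include hκ hh hθ hf in
lemma few_f (hfew : a ≤ r ^ 5 * b) : 4 * √θ * b ^ 2 ≤ f := by
  have ha := P.ha
  have hb := P.hb
  have hq := P.q_pos
  have h1 := P.pw0 (j := 3) (by norm_num)
  have h2 := P.A_le' hfew
  calc 4 * √θ * b ^ 2 ≤ 4 * q ^ 9 * b ^ 2 := by gcongr; exact P.sqrt_theta hκ hh hθ
    _ ≤ f := by
      rw [P.f_eq hf, le_div_iff₀ (by positivity)]
      calc _ = 16 * q ^ 3 * (q ^ 5 * (a + b)) * (b ^ 2 * q) := by ring
        _ ≤ 16 * (1 / 10 ^ 20) * (2 * b) * (b ^ 2 * q) := by gcongr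
        _ ≤ _ := by
          have : 0 < b ^ 3 * q := by positivity
          linarith only [this]

include hu hκ hh hθ hf hm in
lemma few_s (hfew : a ≤ r ^ 5 * b) :
    κ₀ + f / 16 + 3 * u * √θ * b ^ 2 ≤ m * (f / 16) / (2 * 10 ^ 4) := by
  have ha := P.ha
  have hb := P.hb
  have hq := P.q_pos
  have hu0 := P.u_pos hu
  have hf' := P.f_eq hf
  have hf0 : 0 < f := by rw [hf']; positivity
  have h1 := P.s_le hκ hf hm
  have h2 : q * (a + b) ≤ 2 * a := by
    calc q * (a + b) ≤ q * (2 * r * a) := by gcongr; exact P.A_le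
      _ = 2 * a := by linear_combination 2 * a * P.hq
  have h4 := P.A_le' hfew
  have h5 := P.q_le
  have h3 : 3 * u * √θ * b ^ 2 ≤ 1 / 10 ^ 7 * (a ^ 2 * f) := by
    calc 3 * u * √θ * b ^ 2 ≤ 3 * (2 * (a + b) ^ 2) * q ^ 9 * b ^ 2 := by
          gcongr
          · exact P.u_le hu
          · exact P.sqrt_theta hκ hh hθ
      _ = 24 * q * (q * (a + b)) ^ 2 * (q ^ 5 * (a + b)) * (b ^ 2 * q / (4 * (a + b))) := by
          field_simp; ring
      _ ≤ 24 * (1 / 10 ^ 20) * (2 * a) ^ 2 * (2 * b) * (b ^ 2 * q / (4 * (a + b))) := by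
          gcongr
      _ = 192 / 10 ^ 20 * (a ^ 2 * f) := by rw [hf']; ring
      _ ≤ _ := mul_le_mul_of_nonneg_right (by norm_num) (by positivity)
  have h7 := mul_le_mul_of_nonneg_right hm hf0.le
  have h8 : 0 < a ^ 2 * f := by positivity
  linarith only [h1, h3, h7, h8]

lemma many_b (hmany : r ^ 5 * b ≤ a) : b ≤ q ^ 5 * a := by
  have hq := P.q_pos
  calc b = q ^ 5 * (r ^ 5 * b) := by linear_combination (-b) * P.rq 5
    _ ≤ _ := by gcongr

lemma many_d (hmany : r ^ 5 * b ≤ a) : b ^ 2 * r ≤ q ^ 9 * a ^ 2 := by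
  have hb := P.hb
  have hr := P.r_pos
  calc b ^ 2 * r ≤ (q ^ 5 * a) ^ 2 * r := by gcongr; exact P.many_b hmany
    _ = r * q ^ 10 * a ^ 2 := by ring
    _ = _ := by rw [P.rmul]

lemma many_d' (hmany : r ^ 5 * b ≤ a) : b ^ 2 * r ≤ a ^ 2 / 10 ^ 20 := by
  linarith only [hmany, P.many_d hmany, mul_le_mul_of_nonneg_right (P.pw0 (j := 9) (by norm_num)) (sq_nonneg a)]

lemma many_dev (hmany : r ^ 5 * b ≤ a) : 18 * √(a ^ 2 * b ^ 2 * r) ≤ a ^ 2 / 2 := by
  have : √(a ^ 2 * b ^ 2 * r) ≤ a ^ 2 / 36 := by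
    refine Real.sqrt_le_iff.2 ⟨by positivity, ?_⟩
    linarith only [hmany, mul_le_mul_of_nonneg_left (P.many_d' hmany) (sq_nonneg a), sq_nonneg (a ^ 2)]
  linarith only [this]

include hu hκ hh hθ hf hm hk in
lemma many_bound (hmany : r ^ 5 * b ≤ a) :
    10 ^ 9 * (u * b ^ 2 / a ^ 2) * (√(m * k * r) + √(θ + 324 * b ^ 2 * r / a ^ 2) *
      √(m * b ^ 2 * r)) / (m * f) ≤ 1 / r := by
  have ha := P.ha
  have hb := P.hb
  have hq := P.q_pos
  have hr := P.r_pos
  have hm0 : 0 < m := lt_of_lt_of_le (by positivity) hm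
  have h1 : √(θ + 324 * b ^ 2 * r / a ^ 2) ≤ q ^ 4 := by
    refine Real.sqrt_le_iff.2 ⟨by positivity, ?_⟩
    have h2 : 324 * b ^ 2 * r / a ^ 2 ≤ 324 * q ^ 9 := by
      rw [div_le_iff₀ (by positivity)]; linarith only [hmany, P.many_d hmany]
    have h3 := P.pw (i := 8) (j := 9) (by norm_num)
    have h4 := P.pw (i := 8) (j := 18) (by norm_num)
    have h5 := pow_pos hq 8
    rw [← pow_mul]
    linarith only [h2, h3, h4, h5, hκ, hh, hθ, P.theta_le hκ hh hθ]
  have h2 : √(m * b ^ 2 * r) ≤ 2 * r * b * m / a := by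
    refine Real.sqrt_le_iff.2 ⟨by positivity, ?_⟩
    rw [div_pow, le_div_iff₀ (by positivity)]
    calc m * b ^ 2 * r * a ^ 2 ≤ m * b ^ 2 * r * (4 * r * m) := by
          gcongr
          nlinarith only [hr, hm, P.hr]
      _ = _ := by ring
  have h3 : √(m * k * r) + √(θ + 324 * b ^ 2 * r / a ^ 2) * √(m * b ^ 2 * r) ≤
      4 * q ^ 2 * q * b * m / a := by
    have h4 : q ^ 6 ≤ q ^ 3 := pow_le_pow_of_le_one hq.le P.q_le_one (by norm_num)
    calc _ ≤ 2 * q ^ 3 * b * m / a + q ^ 4 * (2 * r * b * m / a) := by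
          refine add_le_add ((P.sqrt1 hm hk).trans (by gcongr)) (by gcongr)
      _ = 2 * q ^ 3 * b * m / a + 2 * (r * q ^ 4) * b * m / a := by ring
      _ = _ := by rw [P.rmul]; ring
  have h4 := P.bound hu hf hm (c := 4 * q ^ 2) (by positivity) h3
  have h5 : (a + b) / a ≤ 2 := by
    rw [div_le_iff₀ ha]
    linarith only [ha, hmany, P.many_b hmany, mul_le_mul_of_nonneg_right (P.pw0 (j := 5) (by norm_num)) ha.le]
  have h6 := P.pw (i := 1) (j := 2) (by norm_num)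
  calc _ ≤ _ := h4
    _ ≤ 8 * 10 ^ 9 * (4 * q ^ 2) * 2 ^ 3 := by gcongr
    _ ≤ q := by linarith only [hq, h6]
    _ = 1 / r := by rw [eq_div_iff hr.ne', mul_comm, P.hq]

end Par

end Pool.Agent.Work.MP_6a50bc_pr.SmallAux
end

-- merged part: Pool.Agent.Work.MP_6a50bc_pr.Small
section
namespace Pool.Agent.Work.MP_6a50bc_pr

open MeasureTheory ProbabilityTheory Matrix Finset
open scoped ENNReal

variable {ι κ : Type*} [Fintype ι] [DecidableEq ι] [Fintype κ] [DecidableEq κ]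

open SmallAux

/-- Very few points. -/
theorem small_zero {ρ : ℝ} (hρ : 10 ≤ ρ) (hd : 4 * ρ ^ 2 ≤ Fintype.card κ)
    (hn : (Fintype.card ι : ℝ) ≤ Fintype.card κ / ρ ^ 2) :
    gm ι κ {x | ¬ Fit (Fintype.card κ) x} ≤
      ENNReal.ofReal (6 * Fintype.card ι * Real.exp (-ρ / 4)) := by
  have htail := tail_dot_self_gm (ι := ι) (κ := κ) ρ
  set d : ℝ := (Fintype.card κ : ℝ) with hdd
  set n : ℝ := (Fintype.card ι : ℝ) with hnd
  have hn0 : 0 ≤ n := Nat.cast_nonneg _
  have hd0 : 0 < d := by nlinarith only [hρ, hd]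
  have hs : ρ * √d ≤ d / 2 := by
    have h1 : 2 * ρ ≤ √d := Real.le_sqrt_of_sq_le (by nlinarith only [hd])
    nlinarith only [hd, hd0, h1, Real.mul_self_sqrt hd0.le, Real.sqrt_nonneg d]
  have hlo : 0 < 1 / (3 * (n + 1) * d) := by positivity
  have h1 := reduce (ρ := ρ) hd0 hlo {x : ι → κ → ℝ | ∃ i, ρ * √d < |x i ⬝ᵥ x i - d|}ᶜ ?_
  · rw [compl_compl] at h1
    refine h1.trans ((add_le_add htail le_rfl).trans (le_of_eq ?_))
    rw [← ENNReal.ofReal_add (by positivity) (by positivity)]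
    congr 1
    ring
  intro x hx
  simp only [Set.mem_compl_iff, Set.mem_ofPred_eq, not_exists, not_lt] at hx
  have hx1 : ∀ i, d / 2 ≤ x i ⬝ᵥ x i := fun i => by linarith only [hs, (abs_le.1 (hx i)).1]
  have hx2 : ∀ i, x i ⬝ᵥ x i ≤ 3 / 2 * d := fun i => by linarith only [hs, (abs_le.1 (hx i)).2]
  have hW : ∀ v, 1 / (3 * (n + 1) * d) * qf (gram 1 x) v ≤ 1 / 2 * (v ⬝ᵥ v) := by
    intro v
    have hv := dot_self_nonneg v
    have h2 : qf (gram 1 x) v ≤ n * (3 / 2 * d * (v ⬝ᵥ v)) := by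
      rw [qf_gram, hnd, ← nsmul_eq_mul, ← card_univ, ← sum_const]
      refine sum_le_sum fun i _ => ?_
      calc (1 : ι → ℝ) i * (x i ⬝ᵥ v) ^ 2 = |x i ⬝ᵥ v| ^ 2 := by simp
        _ ≤ (nrm (x i) * nrm v) ^ 2 := by gcongr; exact abs_dot_le _ _
        _ = (x i ⬝ᵥ x i) * (v ⬝ᵥ v) := by rw [mul_pow, nrm_sq, nrm_sq]
        _ ≤ _ := by gcongr; exact hx2 i
    rw [one_div, inv_mul_le_iff₀ (by positivity)]
    nlinarith only [h2, hd0, hv, mul_nonneg hd0.le hv]
  refine ⟨hW, hx1, fun i S hS hS' => ?_⟩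
  have hc : ∀ j, 0 ≤ d / (x j ⬝ᵥ x j) ^ 2 := fun j => by positivity
  have hpos : ∀ j, 0 < x j ⬝ᵥ x j := fun j => by linarith only [hd0, hx1 j]
  have h0 := gram_posSemidef hc x
  have h2 : ∀ j, d ≤ qf (gram (fun j => d / (x j ⬝ᵥ x j) ^ 2) x) (x j) := by
    intro j
    rw [qf_gram]
    refine le_trans (le_of_eq ?_) (single_le_sum (f := fun i => d / (x i ⬝ᵥ x i) ^ 2 *
      (x i ⬝ᵥ x j) ^ 2) (fun i _ => mul_nonneg (hc i) (sq_nonneg _)) (mem_univ j))
    rw [div_mul_cancel₀ _ (pow_pos (hpos j) 2).ne']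
  have h3 : (gram (fun j => d / (x j ⬝ᵥ x j) ^ 2) x).trace ≤ n * 2 := by
    rw [trace_gram, hnd, ← nsmul_eq_mul, ← card_univ, ← sum_const]
    refine sum_le_sum fun j _ => ?_
    rw [div_mul_eq_mul_div, div_le_iff₀ (pow_pos (hpos j) 2)]
    nlinarith only [hd0, hx1 j, hpos j]
  have hhi : 0 ≤ 5 / d := by positivity
  have h4 := obj_le hd0.le hlo.le hhi hW h0 h2 (univ.erase i)
  have h5 := hS.2 _ h0.isHermitian
  have h6 := trace_le_obj (d := d) (x := x) hlo.le hhi hS' (univ.erase i)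
  have h7 : S.trace ≤ 3 * n := by linarith only [h3, h4, h5, h6]
  have h8 : fro S ≤ 3 * n := (fro_le_trace hS').trans h7
  rw [le_div_iff₀ (by positivity)] at hn
  have h9 : ρ * fro S ≤ ρ * (3 * n) := by gcongr
  nlinarith only [hn, hd0, h3, h4, h5, h6, h9, hn0, hρ, mul_nonneg hn0 (show 0 ≤ ρ ^ 2 / 2 - 3 * ρ - 3 by nlinarith only [hρ])]

namespace SmallAux

/-- Assembly from the primal bound and a Frobenius bound. -/
lemma core [Nonempty ι] [Nonempty κ] {r q a b u κ₀ h f θ : ℝ} (P : Par r q a b)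
    (hn : (Fintype.card ι : ℝ) = a ^ 2) (hd : (Fintype.card κ : ℝ) = b ^ 2)
    (hu : u = (a + b) ^ 2 + 2 * (q ^ 34) ^ 2 * b * (a + b))
    (hκ : κ₀ = 30 * r * q ^ 34 * (b / (a + b)) * a ^ 2 * b ^ 2 + 2 * b ^ 2)
    (hh : h = q ^ 14 * b * (a + b)) (hf : f = b ^ 2 * (b / (a + b)) / (4 * r))
    (hθ : θ = κ₀ / (b ^ 2 * h)) {J : Type*} [Fintype J] {e₁ e₂ : J → ι}
    (he : Function.Injective (Sum.elim e₁ e₂)) (E : Set (ι → κ → ℝ))
    (hE : ∀ x : ι → κ → ℝ, (∀ v, qf (gram 1 x) v ≤ u * (v ⬝ᵥ v)) →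
      (∀ Y : Matrix κ κ ℝ, 2 * Y.trace - ip (u • (1 : Matrix κ κ ℝ) - gram 1 x) (Y * Yᵀ) ≤
        2 * (b / (a + b))) →
      (∃ T : Matrix κ κ ℝ, T.PosSemidef ∧ T.trace ≤ Fintype.card κ ∧
        ip (u • (1 : Matrix κ κ ℝ) - gram 1 x) T ≤ θ * Fintype.card κ * h ∧ f ≤ fro T ∧
        ∑ j, min |qf T (x (e₁ j)) - qf T (x (e₂ j))| (f / 16) ≤ κ₀ + f / 16) → x ∈ E) :
    gm ι κ {x | ¬ Fit (Fintype.card κ) x} ≤
      ENNReal.ofReal (14 * Fintype.card ι * Real.exp (-r / 4)) + gm ι κ E := by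
  have ha := P.ha
  have hb := P.hb
  have hq := P.q_pos
  have hr := P.r_pos
  have hu0 := P.u_pos hu
  have hsa : √(Fintype.card ι : ℝ) = a := by rw [hn, Real.sqrt_sq ha.le]
  have hsb : √(Fintype.card κ : ℝ) = b := by rw [hd, Real.sqrt_sq hb.le]
  have hse : √((q ^ 34) ^ 2) = q ^ 34 := Real.sqrt_sq (by positivity)
  have htail := tail_dot_self_gm (ι := ι) (κ := κ) r
  have hprim := primal (ι := ι) (κ := κ) (ρ := r) (ε := (q ^ 34) ^ 2) (A := a + b) (u := u)
    (by linarith only [hr, P.hr]) (by positivity) (by rw [hse]; exact P.primal1)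
    (by
      rw [hn, hd, div_le_iff₀ (by positivity), ← mul_pow, mul_comm]
      gcongr
      exact P.h1)
    (by rw [hsa, hsb]) (by rw [hsb, hu]) (by rw [hse, hd]; exact P.primal2)
  rw [hsb] at htail hprim
  rw [hse] at hprim
  set E1 := {x : ι → κ → ℝ | ∃ i, r * b < |x i ⬝ᵥ x i - Fintype.card κ|} with hE1
  generalize hE2 : ({x | ¬ _} : Set (ι → κ → ℝ)) = E2 at hprim
  have hlo : 0 < 1 / (2 * a ^ 2 * u) := by positivity
  have h1 := reduce (d := Fintype.card κ) (ρ := r) (by rw [hd]; positivity) hlo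
    (E1 ∪ E2 ∪ E)ᶜ ?_
  · rw [compl_compl] at h1
    refine h1.trans ?_
    calc _ ≤ gm ι κ E1 + gm ι κ E2 + gm ι κ E +
          ENNReal.ofReal (3 * Fintype.card ι * Real.exp (-r / 4)) := by
          gcongr
          exact (measure_union_le _ _).trans (by gcongr; exact measure_union_le _ _)
      _ ≤ ENNReal.ofReal (3 * Fintype.card ι * Real.exp (-r / 4)) +
          ENNReal.ofReal (8 * Fintype.card ι * Real.exp (-r / 4)) + gm ι κ E +
          ENNReal.ofReal (3 * Fintype.card ι * Real.exp (-r / 4)) := by gcongr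
      _ = _ := by
          rw [add_right_comm, ← ENNReal.ofReal_add (by positivity) (by positivity),
            ← ENNReal.ofReal_add (by positivity) (by positivity)]
          congr 2
          ring
  intro x hx
  simp only [Set.mem_compl_iff, Set.mem_union, not_or] at hx
  obtain ⟨⟨hx1, hx2⟩, hx3⟩ := hx
  rw [← hE2, Set.mem_ofPred_eq, not_not] at hx2
  obtain ⟨hW, hY, S0, hS0, hS1, hS2⟩ := hx2
  simp only [hE1, Set.mem_ofPred_eq, not_exists, not_lt] at hx1
  have hW' : ∀ v, 1 / (2 * a ^ 2 * u) * qf (gram 1 x) v ≤ 1 / (2 * a ^ 2) * (v ⬝ᵥ v) := by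
    intro v
    calc _ ≤ 1 / (2 * a ^ 2 * u) * (u * (v ⬝ᵥ v)) := by gcongr; exact hW v
      _ = _ := by field_simp
  refine ⟨fun v => (hW' v).trans ?_, fun i => ?_, fun i S hS hS' => ?_⟩
  · have := dot_self_nonneg v
    gcongr
    linarith only [P.a_sq]
  · have := (abs_le.1 (hx1 i)).1
    rw [hd] at this ⊢
    linarith only [this, P.norm1]
  have hhi : 0 ≤ 5 / (Fintype.card κ : ℝ) := by positivity
  have h2 := (hS.2 _ hS0.isHermitian).trans
    (obj_le (Nat.cast_nonneg _) hlo.le hhi hW' hS0 hS1 (univ.erase i))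
  rw [hn, hd] at hS2
  obtain ⟨h3, h4⟩ := P.val_le hu h2 hS2
  have h5 := (trace_le_obj (d := Fintype.card κ) (x := x) hlo.le hhi hS' (univ.erase i)).trans h4
  have h6 := (obj_ge (d := Fintype.card κ) (x := x) hlo.le hhi hu0.le
    (by rw [hd]; exact P.u_hi hu) hS' i).trans h3
  rw [← hκ, hn, ← hd] at h6
  have h7 : 0 ≤ ip (u • (1 : Matrix κ κ ℝ) - gram 1 x) S := by
    have := ip_le_mul_trace hS' hW
    rw [ip_sub_left, ip_smul_left, ip_comm 1, ip_one]
    linarith only [this]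
  have h8 : 0 ≤ ∑ j ∈ univ.erase i, |(Fintype.card κ : ℝ) - qf S (x j)| :=
    sum_nonneg fun j _ => abs_nonneg _
  have hf0 : 0 < f := by rw [hf]; positivity
  rw [hd]
  refine P.final_lt h5 ?_
  rw [← hf]
  by_contra hc
  refine hx3 (hE x hW hY ⟨S, hS', ?_, ?_, not_lt.1 hc, ?_⟩)
  · have : 0 ≤ b ^ 2 * (b / (a + b)) := by positivity
    rw [hd]
    linarith only [h5, this]
  · have : θ * Fintype.card κ * h = κ₀ := by
      have : 0 < h := by rw [hh]; positivity
      rw [hθ, hd]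
      field_simp
    linarith only [h6, h8, this]
  · have := pair_sum he (fun j => qf S (x j)) (Fintype.card κ) (φ := f / 16) (by positivity) i
    linarith only [h6, h7, this]

end SmallAux

/-- The number of points is at most `d ^ 2 / ρ ^ 300`. -/
theorem small [Nonempty ι] {ρ : ℝ} (hρ : 10 ^ 20 ≤ ρ) (hlog : Real.log (Fintype.card κ) ≤ ρ)
    (hn : (Fintype.card ι : ℝ) ≤ (Fintype.card κ : ℝ) ^ 2 / ρ ^ 300) :
    gm ι κ {x | ¬ Fit (Fintype.card κ) x} ≤
      ENNReal.ofReal (20 * Fintype.card ι * Real.exp (-ρ / 4) + 1 / ρ) := by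
  have hr : 0 < ρ := by linarith
  have hn1 : (1 : ℝ) ≤ Fintype.card ι := by exact_mod_cast Fintype.card_pos
  rw [le_div_iff₀ (by positivity)] at hn
  have hd1 : ρ ^ 150 ≤ Fintype.card κ := by
    refine le_of_sq_le_sq (le_trans ?_ hn) (Nat.cast_nonneg _)
    rw [← pow_mul]
    exact le_mul_of_one_le_left (by positivity) hn1
  by_cases h0 : (Fintype.card ι : ℝ) ≤ Fintype.card κ / ρ ^ 2
  · refine (small_zero (by linarith) (le_trans ?_ hd1) h0).trans (ENNReal.ofReal_le_ofReal ?_)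
    · calc 4 * ρ ^ 2 ≤ ρ * ρ ^ 2 := by gcongr; linarith
        _ = ρ ^ 3 := by ring
        _ ≤ ρ ^ 150 := pow_le_pow_right₀ (by linarith) (by norm_num)
    · have : 0 < Fintype.card ι * Real.exp (-ρ / 4) := by positivity
      have : 0 < 1 / ρ := by positivity
      linarith
  have hd0 : (0 : ℝ) < Fintype.card κ := lt_of_lt_of_le (by positivity) hd1
  have : Nonempty κ := Fintype.card_pos_iff.1 (by exact_mod_cast hd0)
  obtain ⟨a, ha, hna⟩ : ∃ a : ℝ, 0 < a ∧ (Fintype.card ι : ℝ) = a ^ 2 :=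
    ⟨_, Real.sqrt_pos.2 (by linarith), (Real.sq_sqrt (by linarith)).symm⟩
  obtain ⟨b, hb, hdb⟩ : ∃ b : ℝ, 0 < b ∧ (Fintype.card κ : ℝ) = b ^ 2 :=
    ⟨_, Real.sqrt_pos.2 hd0, (Real.sq_sqrt hd0.le).symm⟩
  have P : Par ρ ρ⁻¹ a b := by
    refine ⟨hρ, mul_inv_cancel₀ hr.ne', ha, hb, ?_, ?_⟩
    · rw [not_le, div_lt_iff₀ (by positivity), hna, hdb] at h0
      refine le_of_sq_le_sq ?_ (by positivity)
      linarith [mul_pow ρ a 2]
    · rw [hna, hdb] at hn
      refine le_of_sq_le_sq ?_ (by positivity)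
      rw [mul_pow, ← pow_mul]
      exact hn
  generalize ρ⁻¹ = q at P
  have hq := P.q_pos
  obtain ⟨u, hu⟩ : ∃ u, u = (a + b) ^ 2 + 2 * (q ^ 34) ^ 2 * b * (a + b) := ⟨_, rfl⟩
  obtain ⟨κ₀, hκ⟩ : ∃ κ₀, κ₀ = 30 * ρ * q ^ 34 * (b / (a + b)) * a ^ 2 * b ^ 2 + 2 * b ^ 2 :=
    ⟨_, rfl⟩
  obtain ⟨h, hh⟩ : ∃ h, h = q ^ 14 * b * (a + b) := ⟨_, rfl⟩
  obtain ⟨f, hf⟩ : ∃ f, f = b ^ 2 * (b / (a + b)) / (4 * ρ) := ⟨_, rfl⟩
  obtain ⟨θ, hθ⟩ : ∃ θ, θ = κ₀ / (b ^ 2 * h) := ⟨_, rfl⟩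
  obtain ⟨e₁, e₂, he⟩ := exists_pairs ι
  have hm : a ^ 2 / 3 ≤ Fintype.card (Fin (Fintype.card ι / 2)) := by
    have h1 : (3 : ℝ) ≤ Fintype.card ι := by linarith only [hna, P.a_sq]
    have h2 : 3 ≤ Fintype.card ι := by exact_mod_cast h1
    rw [← hna, Fintype.card_fin, div_le_iff₀ (by norm_num)]
    exact_mod_cast (by omega : Fintype.card ι ≤ Fintype.card ι / 2 * 3)
  have : Nonempty (Fin (Fintype.card ι / 2)) := Fintype.card_pos_iff.1 (by
    have : (0 : ℝ) < Fintype.card (Fin (Fintype.card ι / 2)) := lt_of_lt_of_le (by positivity) hm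
    exact_mod_cast this)
  obtain ⟨k, hk⟩ : ∃ k : ℕ, k = ⌈2 * q ^ 14 * b ^ 2⌉₊ := ⟨_, rfl⟩
  have hk0 : 0 < k := by rw [hk]; exact Nat.ceil_pos.2 (by positivity)
  have hk1 : (k : ℝ) ≤ 2 * q ^ 14 * b ^ 2 + 1 := by
    rw [hk]; exact (Nat.ceil_lt_add_one (by positivity)).le
  have hk2 : 2 * (b / (a + b)) * h ≤ k := by
    rw [hk, hh]
    refine le_trans (le_of_eq ?_) (Nat.le_ceil _)
    field_simp
  have hk3 : (k : ℝ) ≤ Fintype.card κ := by rw [hdb]; exact P.k_le' hk1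
  have hh0 : 0 < h := by rw [hh]; positivity
  have hf0 : 0 < f := by rw [hf]; positivity
  have hθ0 : 0 ≤ θ := by rw [hθ, hκ]; positivity
  have hθ1 : θ ≤ 1 / 2 := by
    linarith only [hκ, hh, hθ, P.theta_le hκ hh hθ, P.pw0 (j := 18) (by norm_num)]
  have hlog' : Real.log (16 * √(Fintype.card κ) + 2) ≤ ρ := by
    refine le_trans (Real.log_le_log (by positivity) ?_) hlog
    rw [hdb, Real.sqrt_sq hb.le]
    exact P.b_sq
  have hex : 0 < Fintype.card ι * Real.exp (-ρ / 4) := by positivity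
  rcases le_total a (ρ ^ 5 * b) with hc | hc
  · have h1 := transfer_few (κ := κ) he (ρ := ρ) (u := u) (h := h) (c := 2 * (b / (a + b)))
      (θ := θ) (f := f) (s := κ₀ + f / 16) hk0 (by linarith only [hρ])
      (le_trans (Real.log_le_log (by positivity) (by gcongr)) hlog') (P.few_m hm hk1) hh0 hk2
      (P.few_h hu hh) (by rw [hna]; exact le_trans (by gcongr; linarith only [hb]) (P.u_ge hu)) hθ0 (by linarith only [hθ1])
      (by rw [hdb]; exact P.few_f hκ hh hf hθ hc) hf0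
      (by rw [hdb]; exact P.few_s hu hκ hh hf hθ hm hc)
    refine (core P hna hdb hu hκ hh hf hθ he _ fun x h2 h3 h4 => ?_).trans
      ((add_le_add le_rfl h1).trans ?_)
    · exact ⟨h2, h3, h4⟩
    · have h2 := P.few_bound hu hf hm hk1
      rw [← hna, ← hdb] at h2
      refine (add_le_add le_rfl (ENNReal.ofReal_le_ofReal h2)).trans ?_
      rw [← ENNReal.ofReal_add (by positivity) (by positivity)]
      exact ENNReal.ofReal_le_ofReal (by linarith only [hex])
  · have hdr := P.many_d' hc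
    have h1 := transfer_many (κ := κ) he (ρ := ρ) (u := u) (h := h) (c := 2 * (b / (a + b)))
      (θ := θ) (f := f) (s := κ₀ + f / 16) hk0 (by exact_mod_cast hk3) (by linarith only [hρ]) hlog'
      (by rw [hdb]; linarith only [hm, hdr, sq_nonneg a]) hh0 hk2 hθ0 hθ1 hf0
      (by
        have := P.s_le hκ hf hm
        have : 0 ≤ κ₀ + f / 16 := by rw [hκ]; positivity
        linarith)
    have h5 := gram_dev_tail (ι := ι) hlog' (by rw [hna, hdb]; linarith only [hn1, hna, hdr, sq_nonneg a])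
    refine (core P hna hdb hu hκ hh hf hθ he (_ ∪ _) fun x h2 h3 h4 => ?_).trans
      ((add_le_add le_rfl ((measure_union_le _ _).trans (add_le_add h1 h5))).trans ?_)
    · by_contra hx
      rw [Set.mem_union, not_or] at hx
      refine hx.1 ⟨h2, h3, fun v => ?_, h4⟩
      have h6 := hx.2
      rw [Set.mem_ofPred_eq, not_lt] at h6
      have h7 := (abs_le.1 (abs_qf_le_opn (gram 1 x - (Fintype.card ι : ℝ) • 1) v)).1
      have h8 := P.many_dev hc
      rw [← hna, ← hdb] at h8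
      rw [qf_sub, qf_smul, qf_one] at h7
      linarith only [h7, h6, h8, mul_le_mul_of_nonneg_right (h6.trans h8) (dot_self_nonneg v)]
    · have h2 := P.many_bound hu hκ hh hf hθ hm hk1 hc
      rw [← hna, ← hdb] at h2
      refine (add_le_add le_rfl (add_le_add (ENNReal.ofReal_le_ofReal h2) le_rfl)).trans ?_
      rw [← ENNReal.ofReal_add (by positivity) (by positivity),
        ← ENNReal.ofReal_add (by positivity) (by positivity)]
      refine ENNReal.ofReal_le_ofReal ?_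
      have h3 : Real.exp (-(Fintype.card κ * ρ)) ≤ Real.exp (-ρ / 4) := by
        refine Real.exp_le_exp.2 ?_
        have : (1 : ℝ) ≤ Fintype.card κ := by exact_mod_cast Fintype.card_pos
        linarith only [hρ, hr, this, le_mul_of_one_le_left hr.le this]
      linarith only [hex, h3, hn1, le_mul_of_one_le_left (Real.exp_pos (-ρ / 4)).le hn1]

end Pool.Agent.Work.MP_6a50bc_pr
end

-- merged part: Pool.Agent.Work.MP_6a50bc_pr.Dist
section
namespace Pool.Agent.Work.MP_6a50bc_pr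

open MeasureTheory ProbabilityTheory Matrix Finset
open scoped ENNReal

variable {ι κ : Type*} [Fintype ι] [DecidableEq ι] [Fintype κ] [DecidableEq κ]

namespace DistAux

/-- Arrays as matrices. -/
def toM (v : EuclideanSpace ℝ (κ × κ)) : Matrix κ κ ℝ := Matrix.of fun a b => v (a, b)

omit [DecidableEq κ] in
lemma ip_toM (v w : EuclideanSpace ℝ (κ × κ)) : ip (toM v) (toM w) = inner ℝ v w := by
  rw [ip_eq_dot]
  simp [toM, PiLp.inner_apply, dotProduct, mul_comm]

omit [DecidableEq κ] in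
/-- An orthonormal family orthogonal to given matrices. -/
lemma exists_on {J : Type*} [Fintype J] (A : J → Matrix κ κ ℝ) :
    ∃ (N : ℕ) (E : Fin N → Matrix κ κ ℝ), Fintype.card κ * Fintype.card κ ≤ N + Fintype.card J ∧
      (∀ j k, ip (E j) (E k) = if j = k then 1 else 0) ∧ ∀ k j, ip (E k) (A j) = 0 := by
  let Φ : EuclideanSpace ℝ (κ × κ) →ₗ[ℝ] (J → ℝ) :=
    { toFun := fun v j => ip (toM v) (A j)
      map_add' := fun v w => by
        funext j
        have : toM (v + w) = toM v + toM w := by ext a b; simp [toM]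
        simp only [this, ip_add_left, Pi.add_apply]
      map_smul' := fun c v => by
        funext j
        have : toM (c • v) = c • toM v := by ext a b; simp [toM]
        simp only [this, ip_smul_left, Pi.smul_apply, smul_eq_mul, RingHom.id_apply] }
  let b := stdOrthonormalBasis ℝ (LinearMap.ker Φ)
  refine ⟨Module.finrank ℝ (LinearMap.ker Φ), fun k => toM (b k : LinearMap.ker Φ), ?_, ?_, ?_⟩
  · have h1 := LinearMap.finrank_range_add_finrank_ker Φ
    have h2 : Module.finrank ℝ (LinearMap.range Φ) ≤ Fintype.card J := by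
      have := Submodule.finrank_le (LinearMap.range Φ)
      rwa [Module.finrank_fintype_fun_eq_card] at this
    rw [finrank_euclideanSpace, Fintype.card_prod] at h1
    omega
  · intro j k
    rw [ip_toM, ← Submodule.coe_inner]
    exact orthonormal_iff_ite.mp b.orthonormal j k
  · intro k j
    exact congrFun (LinearMap.mem_ker.mp (b k).2) j

omit [Fintype κ] [DecidableEq κ] in
lemma count_lt {d : ℕ} {e : κ → Fin d} (he : Function.Injective e) (S : Finset κ) :
    2 * (((S ×ˢ S).filter fun p => e p.1 < e p.2).card : ℝ) = S.card * (S.card - 1) ∧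
      2 * (((S ×ˢ S).filter fun p => e p.1 ≤ e p.2).card : ℝ) = S.card * (S.card + 1) := by
  classical
  have hsym : ((S ×ˢ S).filter fun p => e p.1 < e p.2).card =
      ((S ×ˢ S).filter fun p => e p.2 < e p.1).card := by
    refine card_bij' (fun p _ => p.swap) (fun p _ => p.swap) ?_ ?_ ?_ ?_
    · intro p hp
      simp only [mem_filter, mem_product, Prod.fst_swap, Prod.snd_swap] at hp ⊢
      tauto
    · intro p hp
      simp only [mem_filter, mem_product, Prod.fst_swap, Prod.snd_swap] at hp ⊢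
      tauto
    · intro p _; simp
    · intro p _; simp
  have hdiag : ((S ×ˢ S).filter fun p => e p.1 = e p.2).card = S.card := by
    symm
    refine card_bij' (fun a _ => (a, a)) (fun p _ => p.1) ?_ ?_ ?_ ?_
    · intro a ha; simp [ha]
    · intro p hp
      simp only [mem_filter, mem_product] at hp
      exact hp.1.1
    · intro a _; rfl
    · intro p hp
      simp only [mem_filter, mem_product] at hp
      exact Prod.ext rfl (he hp.2)
  have h1 : ((S ×ˢ S).filter fun p => e p.1 ≤ e p.2).card +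
      ((S ×ˢ S).filter fun p => e p.2 < e p.1).card = S.card * S.card := by
    rw [← card_product, ← card_filter_add_card_filter_not (s := S ×ˢ S) fun p => e p.1 ≤ e p.2]
    simp only [not_le]
  have h2 : ((S ×ˢ S).filter fun p => e p.1 ≤ e p.2).card =
      ((S ×ˢ S).filter fun p => e p.1 < e p.2).card +
        ((S ×ˢ S).filter fun p => e p.1 = e p.2).card := by
    rw [← card_union_of_disjoint, ← filter_or]
    · simp only [le_iff_lt_or_eq]
    · rw [disjoint_filter]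
      intro p _ h h'
      exact h.ne h'
  rw [hdiag] at h2
  rw [← hsym] at h1
  have h1' : (((S ×ˢ S).filter fun p => e p.1 ≤ e p.2).card : ℝ) +
      ((S ×ˢ S).filter fun p => e p.1 < e p.2).card = S.card * S.card := by exact_mod_cast h1
  have h2' : (((S ×ˢ S).filter fun p => e p.1 ≤ e p.2).card : ℝ) =
      ((S ×ˢ S).filter fun p => e p.1 < e p.2).card + S.card := by exact_mod_cast h2
  constructor <;> linarith only [h1', h2']

omit [Fintype ι] [DecidableEq ι] in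
/-- An orthonormal family of tangent matrices. -/
lemma exists_tangent (U : Matrix κ κ ℝ) (R : Finset κ) (I : Finset ι) (g : ι → κ → ℝ) :
    ∃ (N : ℕ) (E : Fin N → Matrix κ κ ℝ),
      R.card * ((Fintype.card κ : ℝ) - R.card) + R.card * (R.card + 1) / 2 ≤ N + I.card + 1 ∧
      (∀ j k, ip (E j) (E k) = if j = k then 1 else 0) ∧ (∀ k, (E k).IsHermitian) ∧
      (∀ k, ∀ a ∉ R, ∀ a' ∉ R, (Uᵀ * E k * U) a a' = 0) ∧ (∀ k, (E k).trace = 0) ∧
      ∀ k, ∀ j ∈ I, qf (E k) (g j) = 0 := by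
  set e := Fintype.equivFin κ
  set C1 := ((univ : Finset κ) ×ˢ (univ : Finset κ)).filter fun p => e p.1 < e p.2 with hC1
  set C2 := (Rᶜ ×ˢ Rᶜ).filter fun p => e p.1 ≤ e p.2 with hC2
  let A : (C1 ⊕ C2) ⊕ (Unit ⊕ I) → Matrix κ κ ℝ :=
    Sum.elim (Sum.elim
      (fun p => vecMulVec (Pi.single p.1.1 1) (Pi.single p.1.2 1) -
        vecMulVec (Pi.single p.1.2 1) (Pi.single p.1.1 1))
      (fun p => vecMulVec (Uᵀ p.1.1) (Uᵀ p.1.2)))
      (Sum.elim (fun _ => 1) fun j => vecMulVec (g j) (g j))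
  obtain ⟨N, E, hN, hE, hA⟩ := exists_on A
  have hsym : ∀ k, (E k).IsHermitian := by
    intro k
    have h : ∀ a b, e a < e b → E k a b = E k b a := by
      intro a b hab
      have := hA k (Sum.inl (Sum.inl ⟨(a, b), by simp [hC1, hab]⟩))
      simp only [A, Sum.elim_inl, ip_sub_right, ip_vecMulVec, mulVec_single_one,
        single_one_dotProduct] at this
      exact sub_eq_zero.mp this
    rw [isHermitian_iff]
    ext a b
    rw [transpose_apply]
    rcases lt_trichotomy (e a) (e b) with h1 | h1 | h1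
    · exact (h a b h1).symm
    · rw [e.injective h1]
    · exact h b a h1
  have hent : ∀ k a b, (Uᵀ * E k * U) a b = Uᵀ a ⬝ᵥ E k *ᵥ Uᵀ b := by
    intro k a b
    rw [Matrix.mul_assoc]
    rfl
  refine ⟨N, E, ?_, hE, hsym, ?_, ?_, ?_⟩
  · have h1 := (count_lt e.injective (univ : Finset κ)).1
    have h2 := (count_lt e.injective Rᶜ).2
    rw [← hC1, card_univ] at h1
    rw [← hC2, card_compl, Nat.cast_sub (card_le_univ R)] at h2
    simp only [Fintype.card_sum, Fintype.card_coe, Fintype.card_unit] at hN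
    have h3 : (Fintype.card κ : ℝ) * Fintype.card κ ≤ N + (C1.card + C2.card + (1 + I.card)) := by
      exact_mod_cast hN
    nlinarith only [h1, h2, h3]
  · intro k a ha b hb
    have h : ∀ a ∉ R, ∀ b ∉ R, e a ≤ e b → Uᵀ a ⬝ᵥ E k *ᵥ Uᵀ b = 0 := by
      intro a ha b hb hab
      have := hA k (Sum.inl (Sum.inr ⟨(a, b), by simp [hC2, hab, ha, hb]⟩))
      simpa only [A, Sum.elim_inl, Sum.elim_inr, ip_vecMulVec] using this
    rw [hent]
    rcases le_total (e a) (e b) with h1 | h1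
    · exact h a ha b hb h1
    · rw [dot_mulVec_symm (hsym k)]; exact h b hb a ha h1
  · intro k
    have := hA k (Sum.inr (Sum.inl ()))
    simpa only [A, Sum.elim_inl, Sum.elim_inr, ip_one] using this
  · intro k j hj
    have := hA k (Sum.inr (Sum.inr ⟨j, hj⟩))
    simpa only [A, Sum.elim_inr, ← qf_eq_ip] using this

variable {N : ℕ} {E : Fin N → Matrix κ κ ℝ}

omit [DecidableEq κ] in
lemma ip_comb (hE : ∀ j k, ip (E j) (E k) = if j = k then 1 else 0) (c : Fin N → ℝ) :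
    ip (∑ j, c j • E j) (∑ j, c j • E j) = c ⬝ᵥ c := by
  simp only [ip_sum_left, ip_sum_right, ip_smul_left, ip_smul_right, hE, mul_ite, mul_one,
    mul_zero, dotProduct]
  refine sum_congr rfl fun j _ => ?_
  simp

omit [DecidableEq κ] in
/-- Bessel inequality. -/
lemma bessel (hE : ∀ j k, ip (E j) (E k) = if j = k then 1 else 0) (M : Matrix κ κ ℝ) :
    nrm (fun j => ip (E j) M) ≤ fro M := by
  set c : Fin N → ℝ := fun j => ip (E j) M with hc
  have h1 : nrm c ^ 2 = ip (∑ j, c j • E j) M := by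
    rw [nrm_sq, ip_sum_left]
    simp only [ip_smul_left, dotProduct, hc]
  have h2 : fro (∑ j, c j • E j) = nrm c := by rw [fro, ip_comb hE, nrm]
  have h3 := ip_le (∑ j, c j • E j) M
  rw [← h1, h2] at h3
  rcases (nrm_nonneg c).eq_or_lt with h | h
  · rw [← h]; exact fro_nonneg M
  · rw [sq] at h3
    exact le_of_mul_le_mul_left h3 h

omit [DecidableEq κ] in
lemma lip (hE : ∀ j k, ip (E j) (E k) = if j = k then 1 else 0) (x y : κ → ℝ) :
    nrm (fun j => qf (E j) y) - nrm (fun j => qf (E j) x) ≤ (nrm x + nrm y) * nrm (x - y) := by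
  have h1 := abs_nrm_sub_le (fun j => qf (E j) y) (fun j => qf (E j) x)
  have h2 : ((fun j => qf (E j) y) - fun j => qf (E j) x) =
      fun j => ip (E j) (vecMulVec y y - vecMulVec x x) := by
    funext j
    simp only [Pi.sub_apply, qf_eq_ip, ip_sub_right]
  have h3 : vecMulVec y y - vecMulVec x x = vecMulVec (y - x) y + vecMulVec x (y - x) := by
    ext a b
    simp only [Matrix.sub_apply, Matrix.add_apply, vecMulVec_apply, Pi.sub_apply]
    ring
  have h4 := bessel hE (vecMulVec y y - vecMulVec x x)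
  have h5 := fro_add_le (vecMulVec (y - x) y) (vecMulVec x (y - x))
  rw [fro_vecMulVec, fro_vecMulVec, ← h3, nrm_sub_comm y x] at h5
  rw [h2] at h1
  have h6 := le_abs_self (nrm (fun j => qf (E j) y) - nrm (fun j => qf (E j) x))
  linarith

omit [DecidableEq κ] in
lemma f_le (hE : ∀ j k, ip (E j) (E k) = if j = k then 1 else 0) (z : κ → ℝ) :
    nrm (fun j => qf (E j) z) ≤ z ⬝ᵥ z := by
  have h := bessel hE (vecMulVec z z)
  rw [fro_vecMulVec, ← sq, nrm_sq] at h
  simpa only [qf_eq_ip] using h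

lemma integral_f_sq (hE : ∀ j k, ip (E j) (E k) = if j = k then 1 else 0)
    (hsym : ∀ k, (E k).IsHermitian) (htr : ∀ k, (E k).trace = 0) :
    Integrable (fun z => nrm (fun j => qf (E j) z) ^ 2) (gv κ) ∧
      ∫ z, nrm (fun j => qf (E j) z) ^ 2 ∂(gv κ) = 2 * N := by
  have h : (fun z => nrm (fun j => qf (E j) z) ^ 2) = fun z => ∑ j, cq (E j) z ^ 2 := by
    funext z
    rw [nrm_sq]
    simp only [dotProduct, cq, htr, sub_zero, sq]
  rw [h]
  refine ⟨integrable_finsetSum _ fun j _ => integrable_cq_pow _ _, ?_⟩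
  rw [integral_finsetSum _ fun j _ => integrable_cq_pow _ _]
  have : ∀ j, ∫ z, cq (E j) z ^ 2 ∂(gv κ) = 2 := by
    intro j
    rw [integral_cq_sq (hsym j), fro_sq, hE]; simp
  simp [this, mul_comm]

/-- The function is large with probability at least `1 / (32 d)`. -/
lemma prob_large (hd : 10 ^ 4 ≤ Fintype.card κ)
    (hE : ∀ j k, ip (E j) (E k) = if j = k then 1 else 0)
    (hsym : ∀ k, (E k).IsHermitian) (htr : ∀ k, (E k).trace = 0) {γ : ℝ}
    (hγ : Fintype.card κ * √(Fintype.card κ) ≤ γ) (hN : γ ≤ N) :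
    1 ≤ 32 * Fintype.card κ *
      (gv κ).real {z | √γ ≤ nrm (fun j => qf (E j) z) ∧ z ⬝ᵥ z ≤ 4 * Fintype.card κ} := by
  set d : ℝ := (Fintype.card κ : ℝ) with hdd
  set B := {z : κ → ℝ | √γ ≤ nrm (fun j => qf (E j) z) ∧ z ⬝ᵥ z ≤ 4 * d} with hB
  have hd' : (10 : ℝ) ^ 4 ≤ d := by rw [hdd]; exact_mod_cast hd
  have hs : (100 : ℝ) ≤ √d := Real.le_sqrt_of_sq_le (by linarith)
  have hd0 : 0 < d := by linarith
  have hγ1 : 100 * d ≤ γ := by nlinarith
  have hγ0 : 0 ≤ γ := by linarith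
  have hBm : MeasurableSet B := by
    have c1 : Continuous fun z : κ → ℝ => nrm fun j => qf (E j) z := by fun_prop
    have c2 : Continuous fun z : κ → ℝ => z ⬝ᵥ z := by unfold dotProduct; fun_prop
    exact ((isClosed_le continuous_const c1).inter
      (isClosed_le c2 continuous_const)).measurableSet
  have hpt : ∀ z, nrm (fun j => qf (E j) z) ^ 2 ≤
      γ + 16 * d ^ 2 * B.indicator 1 z + cq (1 : Matrix κ κ ℝ) z ^ 4 / d ^ 2 := by
    intro z
    have h0 := nrm_nonneg fun j => qf (E j) z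
    have h1 := f_le hE z
    have h2 : 0 ≤ cq (1 : Matrix κ κ ℝ) z ^ 4 / d ^ 2 := by positivity
    have h3 : 0 ≤ 16 * d ^ 2 * B.indicator (1 : (κ → ℝ) → ℝ) z :=
      mul_nonneg (by positivity) (Set.indicator_nonneg (fun _ _ => zero_le_one) z)
    by_cases hz : z ⬝ᵥ z ≤ 4 * d
    · by_cases hf : √γ ≤ nrm fun j => qf (E j) z
      · have hzB : z ∈ B := ⟨hf, hz⟩
        rw [Set.indicator_of_mem hzB, Pi.one_apply]
        have : nrm (fun j => qf (E j) z) ^ 2 ≤ (4 * d) ^ 2 :=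
          pow_le_pow_left₀ h0 (h1.trans hz) 2
        linarith only [hd', hγ1, h2, this]
      · have : nrm (fun j => qf (E j) z) ^ 2 ≤ √γ ^ 2 :=
          pow_le_pow_left₀ h0 (not_le.mp hf).le 2
        rw [Real.sq_sqrt hγ0] at this
        linarith only [h2, h3, this]
    · have hc : cq (1 : Matrix κ κ ℝ) z = z ⬝ᵥ z - d := by
        rw [cq, qf_one, trace_one]
      have h4 : nrm (fun j => qf (E j) z) ^ 2 ≤ (z ⬝ᵥ z) ^ 2 := pow_le_pow_left₀ h0 h1 2
      have h5 : (z ⬝ᵥ z) ^ 2 ≤ cq (1 : Matrix κ κ ℝ) z ^ 4 / d ^ 2 := by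
        rw [hc, le_div_iff₀ (by positivity)]
        generalize z ⬝ᵥ z = s at hz ⊢
        have hs' : 4 * d < s := not_le.mp hz
        have h6 : s * d ≤ (s - d) ^ 2 := by nlinarith only [hd', hz]
        have h7 : (s * d) ^ 2 ≤ ((s - d) ^ 2) ^ 2 :=
          pow_le_pow_left₀ (mul_nonneg (by linarith) hd0.le) h6 2
        calc s ^ 2 * d ^ 2 = (s * d) ^ 2 := by ring
          _ ≤ ((s - d) ^ 2) ^ 2 := h7
          _ = (s - d) ^ 4 := by ring
      linarith only [hd', hγ1, h3, h4, h5]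
  obtain ⟨hi, hint⟩ := integral_f_sq hE hsym htr
  have hi1 : Integrable (fun z => 16 * d ^ 2 * B.indicator (1 : (κ → ℝ) → ℝ) z) (gv κ) :=
    ((integrable_const (1 : ℝ)).indicator hBm).const_mul _
  have hi2 : Integrable (fun z => cq (1 : Matrix κ κ ℝ) z ^ 4 / d ^ 2) (gv κ) :=
    (integrable_cq_pow _ _).div_const _
  have hi3 : Integrable (fun z => γ + 16 * d ^ 2 * B.indicator (1 : (κ → ℝ) → ℝ) z) (gv κ) :=
    (integrable_const γ).add hi1
  have h1 := integral_mono hi (hi3.add hi2) hpt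
  rw [hint] at h1
  have h2 : ∫ z, (γ + 16 * d ^ 2 * B.indicator (1 : (κ → ℝ) → ℝ) z +
      cq (1 : Matrix κ κ ℝ) z ^ 4 / d ^ 2) ∂(gv κ) =
      γ + 16 * d ^ 2 * (gv κ).real B + (∫ z, cq (1 : Matrix κ κ ℝ) z ^ 4 ∂(gv κ)) / d ^ 2 := by
    rw [integral_add hi3 hi2, integral_add (integrable_const γ) hi1, integral_const_mul,
      integral_indicator_one hBm, integral_div]
    simp
  have h3 := integral_cq_four_le (κ := κ) (S := 1) isHermitian_one
  have h4 : fro (1 : Matrix κ κ ℝ) ^ 4 = d ^ 2 := by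
    rw [fro_one, ← hdd, show (4 : ℕ) = 2 * 2 from rfl, pow_mul, Real.sq_sqrt hd0.le]
  rw [h4, ← div_le_iff₀ (by positivity)] at h3
  have h5 : 2 * (N : ℝ) ≤ γ + 16 * d ^ 2 * (gv κ).real B + 10 ^ 4 := by
    have := h1.trans_eq h2
    linarith only [h3, this]
  have h6 : d * 1 ≤ d * (32 * d * (gv κ).real B) := by nlinarith only [hN, hd', hγ1, h5]
  exact le_of_mul_le_mul_left h6 hd0

lemma prob_small (hd : 10 ^ 4 ≤ Fintype.card κ)
    (hE : ∀ j k, ip (E j) (E k) = if j = k then 1 else 0)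
    (hsym : ∀ k, (E k).IsHermitian) (htr : ∀ k, (E k).trace = 0) {γ : ℝ}
    (hγ : Fintype.card κ * √(Fintype.card κ) ≤ γ) (hN : γ ≤ N) :
    gv κ {z | nrm (fun j => qf (E j) z) < √γ / 2} ≤
      ENNReal.ofReal (10 ^ 6 * Fintype.card κ * Real.exp (-√(Fintype.card κ) / 512)) := by
  have hl := prob_large hd hE hsym htr hγ hN
  have ht := tail_dot_self (κ := κ) (3 * √(Fintype.card κ))
  set d : ℝ := (Fintype.card κ : ℝ) with hdd
  set B := {z : κ → ℝ | √γ ≤ nrm (fun j => qf (E j) z) ∧ z ⬝ᵥ z ≤ 4 * d} with hB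
  set A := {z : κ → ℝ | nrm (fun j => qf (E j) z) < √γ / 2 ∧ z ⬝ᵥ z ≤ 4 * d} with hA
  have hd' : (10 : ℝ) ^ 4 ≤ d := by rw [hdd]; exact_mod_cast hd
  have hs : (100 : ℝ) ≤ √d := Real.le_sqrt_of_sq_le (by linarith)
  have hd0 : 0 < d := by linarith
  have hss : √d * √d = d := Real.mul_self_sqrt hd0.le
  have hγ0 : 0 ≤ γ := le_trans (by positivity) hγ
  have hsep : ∀ x ∈ A, ∀ y ∈ B, √γ / (8 * √d) ≤ nrm (x - y) := by
    intro x hx y hy
    have h1 := lip hE x y
    have h2 : nrm x ≤ 2 * √d := (nrm_le_iff (by positivity)).mpr (by nlinarith only [hss, hx.2])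
    have h3 : nrm y ≤ 2 * √d := (nrm_le_iff (by positivity)).mpr (by nlinarith only [hss, hy.2])
    have h4 : (nrm x + nrm y) * nrm (x - y) ≤ (4 * √d) * nrm (x - y) :=
      mul_le_mul_of_nonneg_right (by linarith) (nrm_nonneg _)
    rw [div_le_iff₀ (by positivity)]
    linarith only [h1, h4, hx.1, hy.1]
  have h2 := conc_two_set (by positivity) hsep
  have h3 : Real.exp (-(√γ / (8 * √d)) ^ 2 / 8) ≤ Real.exp (-√d / 512) := by
    refine Real.exp_le_exp.mpr ?_
    have : √d / 64 ≤ (√γ / (8 * √d)) ^ 2 := by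
      rw [div_pow, Real.sq_sqrt hγ0, mul_pow, Real.sq_sqrt hd0.le, le_div_iff₀ (by positivity)]
      linarith
    linarith only [this]
  have h4 : (gv κ).real A * (gv κ).real B ≤ Real.exp (-√d / 512) := by
    rw [Measure.real, Measure.real, ← ENNReal.toReal_mul]
    exact (ENNReal.toReal_le_of_le_ofReal (Real.exp_pos _).le h2).trans h3
  have h5 : (gv κ).real A ≤ 32 * d * Real.exp (-√d / 512) := by
    have h0 : 0 ≤ (gv κ).real A := measureReal_nonneg
    calc (gv κ).real A = (gv κ).real A * 1 := (mul_one _).symm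
      _ ≤ (gv κ).real A * (32 * d * (gv κ).real B) := mul_le_mul_of_nonneg_left hl h0
      _ = 32 * d * ((gv κ).real A * (gv κ).real B) := by ring
      _ ≤ 32 * d * Real.exp (-√d / 512) := mul_le_mul_of_nonneg_left h4 (by positivity)
  have h6 : gv κ A ≤ ENNReal.ofReal (32 * d * Real.exp (-√d / 512)) := by
    rw [← ENNReal.ofReal_toReal (measure_ne_top (gv κ) A)]
    exact ENNReal.ofReal_le_ofReal h5
  have h7 : {z | nrm (fun j => qf (E j) z) < √γ / 2} ⊆
      A ∪ {g : κ → ℝ | 3 * √d * √d < |g ⬝ᵥ g - d|} := by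
    intro z hz
    by_cases h : z ⬝ᵥ z ≤ 4 * d
    · exact Or.inl ⟨hz, h⟩
    · refine Or.inr ?_
      have := le_abs_self (z ⬝ᵥ z - d)
      change 3 * √d * √d < |z ⬝ᵥ z - d|
      have h' := not_le.mp h
      linarith only [hss, h, this]
  have h8 : Real.exp (-(3 * √d) / 4) ≤ Real.exp (-√d / 512) :=
    Real.exp_le_exp.mpr (by linarith only [hs])
  refine (measure_mono h7).trans ((measure_union_le _ _).trans ((add_le_add h6 ht).trans ?_))
  rw [← ENNReal.ofReal_add (by positivity) (by positivity)]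
  refine ENNReal.ofReal_le_ofReal ?_
  have h9 := Real.exp_pos (-√d / 512)
  nlinarith only [h8, h9, hd']

end DistAux

open DistAux

omit [Fintype ι] [DecidableEq ι] in
/-- A fresh point can be moved alone by a short tangent perturbation. -/
theorem dist_lemma (hd : 10 ^ 4 ≤ Fintype.card κ) {U : Matrix κ κ ℝ} (hU : Orth U) (R : Finset κ)
    (I : Finset ι) (g : ι → κ → ℝ) {γ : ℝ} (hγ : Fintype.card κ * √(Fintype.card κ) ≤ γ)
    (hdim : I.card + 1 + γ ≤
      R.card * ((Fintype.card κ : ℝ) - R.card) + R.card * (R.card + 1) / 2) :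
    gv κ {z | ¬ ∃ Δ : Matrix κ κ ℝ, Δ.IsHermitian ∧
        (∀ a ∉ R, ∀ a' ∉ R, (Uᵀ * Δ * U) a a' = 0) ∧ Δ.trace = 0 ∧ (∀ j ∈ I, qf Δ (g j) = 0) ∧
        qf Δ z = 1 ∧ fro Δ ^ 2 ≤ 4 / γ} ≤
      ENNReal.ofReal (10 ^ 6 * Fintype.card κ * Real.exp (-√(Fintype.card κ) / 512)) := by
  have _ := hU
  obtain ⟨N, E, hN, hE, hsym, htan, htr, hq⟩ := exists_tangent U R I g
  refine le_trans (measure_mono fun z hz => ?_) (prob_small hd hE hsym htr hγ (by linarith only [hdim, hN]))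
  by_contra hf
  apply hz
  have hf' : √γ / 2 ≤ nrm fun j => qf (E j) z := not_lt.mp hf
  have hd' : (10 : ℝ) ^ 4 ≤ Fintype.card κ := by exact_mod_cast hd
  have hd0 : (0 : ℝ) < Fintype.card κ := by linarith only [hd']
  have hγ0 : 0 < γ := lt_of_lt_of_le (by positivity) hγ
  set c : Fin N → ℝ := fun j => qf (E j) z with hc
  have hs : γ / 4 ≤ c ⬝ᵥ c := by
    have := pow_le_pow_left₀ (by positivity) hf' 2
    rw [nrm_sq, div_pow, Real.sq_sqrt hγ0.le] at this
    linarith only [this]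
  have hs0 : 0 < c ⬝ᵥ c := by linarith only [hγ0, hs]
  refine ⟨(c ⬝ᵥ c)⁻¹ • ∑ j, c j • E j, ?_, ?_, ?_, ?_, ?_, ?_⟩
  · rw [isHermitian_iff, transpose_smul, transpose_sum]
    simp only [transpose_smul, isHermitian_iff.mp (hsym _)]
  · intro a ha a' ha'
    simp only [Matrix.mul_smul, Matrix.smul_mul, Matrix.mul_sum, Matrix.sum_mul,
      Matrix.smul_apply, Matrix.sum_apply, htan _ a ha a' ha', smul_zero, sum_const_zero]
  · simp only [trace_smul, trace_sum, htr, smul_zero, sum_const_zero]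
  · intro j hj
    simp only [qf_smul, qf_sum, hq _ j hj, mul_zero, sum_const_zero]
  · simp only [qf_smul, qf_sum]
    exact inv_mul_cancel₀ hs0.ne'
  · rw [fro_sq, ip_smul_left, ip_smul_right, ip_comb hE, inv_mul_cancel₀ hs0.ne', mul_one,
      inv_eq_one_div, div_le_div_iff₀ hs0 hγ0]
    linarith only [hs]

/-- Leave-one-out bound for a coordinate of the dual optimum. -/
theorem loo_large (hd : 10 ^ 4 ≤ Fintype.card κ) {b τ δ l₀ γ t : ℝ} {r : ℕ} (hτ : 0 ≤ τ)
    (hδ : 0 < δ) (hl₀ : 0 < l₀) (hγ : Fintype.card κ * √(Fintype.card κ) ≤ γ)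
    (hdim : Fintype.card ι + γ ≤ r * ((Fintype.card κ : ℝ) - r) + r * (r + 1) / 2)
    (hsmall : 32 * δ / (l₀ * γ) < τ) (i : ι) (x : ι → κ → ℝ) {U : Matrix κ κ ℝ} (hU : Orth U)
    {l : κ → ℝ} (hmin : IsMin b τ τ (univ.erase i) x (spec U l))
    (hres : |b - ∑ j, l j| + t * nrm l ≤ δ) (hr : r ≤ (univ.filter fun j => l₀ ≤ l j).card) :
    gv κ {z | ∃ y, DualOpt b τ τ (Function.update x i z) y ∧ τ ≤ |y i|} ≤
      ENNReal.ofReal (3 * Real.exp (-t / 4) +
        10 ^ 6 * Fintype.card κ * Real.exp (-√(Fintype.card κ) / 512)) := by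
  obtain ⟨R, hR, hRc⟩ := exists_subset_card_eq hr
  have hd' : (10 : ℝ) ^ 4 ≤ Fintype.card κ := by exact_mod_cast hd
  have hd0 : (0 : ℝ) < Fintype.card κ := by linarith only [hd']
  have hγ0 : 0 < γ := lt_of_lt_of_le (by positivity) hγ
  have hcard : (((univ.erase i).card : ℕ) : ℝ) + 1 = Fintype.card ι := by
    exact_mod_cast card_erase_add_one (mem_univ i)
  have h1 := dist_lemma hd hU R (univ.erase i) x hγ (by rw [hRc, hcard]; exact hdim)
  have h2 := tail_cq (spec_isHermitian U l) t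
  rw [ENNReal.ofReal_add (by positivity) (by positivity)]
  refine le_trans (measure_mono fun z hz => ?_) ((measure_union_le _ _).trans (add_le_add h2 h1))
  obtain ⟨y, hy, hyi⟩ := hz
  by_contra hn
  simp only [Set.mem_union, Set.mem_ofPred_eq, not_or, not_not, not_lt] at hn
  obtain ⟨hc, Δ, hΔ, htan, htr, hq, hq1, hfro⟩ := hn
  have h3 := loo_abs hτ hτ hy (i := i) (IsMin.update (notMem_erase i univ) z hmin) hΔ
    (c := 8 / (l₀ * γ)) (δ := δ)
    (fun j hj => by rw [Function.update_of_ne hj]; exact hq j (mem_erase.mpr ⟨hj, mem_univ j⟩))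
    (by rw [Function.update_self]; exact hq1) (by positivity) hδ (fun s => ?_) ?_
  · have : 4 * (8 / (l₀ * γ)) * δ = 32 * δ / (l₀ * γ) := by ring
    linarith only [hsmall, hyi, h3, this]
  · have h4 := nuc_perturb hU (l := l) (R := R) hl₀ (fun j hj => (mem_filter.mp (hR hj)).2)
      (Δ := s • Δ) (by rw [isHermitian_iff, transpose_smul, isHermitian_iff.mp hΔ])
      (fun a ha a' ha' => by
        rw [Matrix.mul_smul, Matrix.smul_mul, Matrix.smul_apply, htan a ha a' ha', smul_zero])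
    rw [trace_smul, htr, smul_zero, add_zero, fro_smul, mul_pow, sq_abs] at h4
    have h5 : 2 * (s ^ 2 * fro Δ ^ 2) / l₀ ≤ 2 * (s ^ 2 * (4 / γ)) / l₀ := by gcongr
    have h6 : 2 * (s ^ 2 * (4 / γ)) / l₀ = 8 / (l₀ * γ) * s ^ 2 := by field_simp; ring
    linarith only [h4, h5, h6]
  · rw [Function.update_self]
    rw [fro_spec hU, cq, trace_spec hU] at hc
    have h7 : b - qf (spec U l) z = (b - ∑ j, l j) - (qf (spec U l) z - ∑ j, l j) := by ring
    rw [h7]
    have h8 := abs_sub (b - ∑ j, l j) (qf (spec U l) z - ∑ j, l j)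
    linarith only [hres, hc, h8]

end Pool.Agent.Work.MP_6a50bc_pr
end

-- merged part: Pool.Agent.Work.MP_6a50bc_pr.Large
section
namespace Pool.Agent.Work.MP_6a50bc_pr

open MeasureTheory ProbabilityTheory Matrix Finset
open scoped ENNReal

variable {ι κ : Type*} [Fintype ι] [DecidableEq ι] [Fintype κ] [DecidableEq κ]

lemma near_of_obj {w a : ℝ} (hw : 0 < w) (ha : 0 ≤ a) {x : ι → κ → ℝ} {U : Matrix κ κ ℝ}
    {l : κ → ℝ} (hU : Orth U) {I : Finset ι} (hI : Iᶜ.card ≤ 1)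
    (h : obj (w ^ 16) (1 / w ^ 23) (1 / w ^ 23) I x (spec U l) ≤ w ^ 16 - a) :
    Near w x U l ∧ a ≤ w ^ 16 - ∑ j, l j := by
  have h0 : 0 ≤ 1 / w ^ 23 := by positivity
  simp only [obj, nuc_spec hU, pen_self h0, ← mul_sum] at h
  have h1 : 0 ≤ ∑ j, |l j| := sum_nonneg fun _ _ => abs_nonneg _
  have h2 : 0 ≤ 1 / w ^ 23 * ∑ i ∈ I, |w ^ 16 - qf (spec U l) (x i)| :=
    mul_nonneg h0 (sum_nonneg fun _ _ => abs_nonneg _)
  have h3 : ∑ j, l j ≤ ∑ j, |l j| := sum_le_sum fun _ _ => le_abs_self _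
  refine ⟨⟨hU, by linarith only [ha, h, h2], I, hI, ?_⟩, by linarith only [h, h2, h3]⟩
  have h4 : 1 / w ^ 23 * ∑ i ∈ I, |w ^ 16 - qf (spec U l) (x i)| ≤ w ^ 16 := by linarith only [ha, h, h1]
  rw [one_div_mul_eq_div, div_le_iff₀ (by positivity)] at h4
  exact h4.trans_eq (by ring)

lemma meas_not_and {α : Type*} [MeasurableSpace α] {μ : Measure α} {p p' : α → Prop} {c c' : ℝ}
    (hc : 0 ≤ c) (hc' : 0 ≤ c') (h : μ {x | ¬ p x} ≤ ENNReal.ofReal c)
    (h' : μ {x | ¬ p' x} ≤ ENNReal.ofReal c') :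
    μ {x | ¬ (p x ∧ p' x)} ≤ ENNReal.ofReal (c + c') := by
  rw [ENNReal.ofReal_add hc hc']
  exact le_trans (measure_mono fun x hx => not_and_or.1 hx)
    ((measure_union_le {x | ¬ p x} {x | ¬ p' x}).trans (add_le_add h h'))

namespace Ctx

variable {w ρ K q τ m₁ m₂ φ ε σ : ℝ} (C : Ctx ι κ w ρ K q τ m₁ m₂ φ ε σ)
include C

omit [DecidableEq ι] in
lemma small_box {γ : ℝ} (hγ : w ^ 32 ≤ 10 ^ 6 * K * γ) :
    32 * (100 * K * w ^ 8 + 20 * ρ * (10 ^ 8 * K ^ 3 * w ^ 8)) / (ε * γ) < 1 / w ^ 23 := by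
  have hw := C.w0
  have hK := C.K0
  have hε := C.ε0
  have hγ0 : 0 < γ := pos_of_mul_pos_right ((pow_pos hw 32).trans_le hγ) (by positivity)
  rw [div_lt_div_iff₀ (by positivity) (by positivity), one_mul]
  have h1 : 100 * K + 20 * ρ * (10 ^ 8 * K ^ 3) ≤ 10 ^ 10 * K ^ 4 := by
    linarith only [hK, mul_le_mul_of_nonneg_right C.P.hK (show 0 ≤ K ^ 3 by positivity),
      le_self_pow₀ C.P.K1 (show 4 ≠ 0 by norm_num)]
  calc 32 * (100 * K * w ^ 8 + 20 * ρ * (10 ^ 8 * K ^ 3 * w ^ 8)) * w ^ 23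
      = 32 * (100 * K + 20 * ρ * (10 ^ 8 * K ^ 3)) * w ^ 31 := by ring
    _ ≤ 32 * (10 ^ 10 * K ^ 4) * w ^ 31 := by gcongr
    _ < 100 * (10 ^ 10 * K ^ 4) * w ^ 31 * (10 ^ 24 * K ^ 7 * ε) := by
        rw [C.εK, mul_one]; gcongr; norm_num
    _ ≤ ε * γ := by
        refine le_of_mul_le_mul_left ?_ (show 0 < 10 ^ 6 * K by positivity)
        calc _ = ε * (10 ^ 42 * K ^ 12 * w ^ 31) := by ring
          _ ≤ ε * (w * w ^ 31) := by
              gcongr; exact C.big (by norm_num) (by norm_num)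
          _ = ε * w ^ 32 := by ring
          _ ≤ ε * (10 ^ 6 * K * γ) := by gcongr
          _ = _ := by ring

theorem main {e : ℝ} (he : 0 < e) (he1 : e ≤ 1) (hKe : K * e = ρ) (hτe : e / 4 ≤ τ) :
    gm ι κ {x | ¬ Fit (w ^ 16) x} ≤ ENNReal.ofReal (10 / w) := by
  have hw := C.w0
  have hK := C.K0
  have hρ := C.P.ρ0
  have hε := C.ε0
  have hσ := C.σ0
  have hq := C.P.hq0
  have hb : 0 ≤ 1 / w ^ 23 := by positivity
  have heq : 1 ≤ K * (e * q ^ 2) := by
    have := C.P.hq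
    rw [div_le_iff₀ hρ, ← hKe] at this
    linarith
  have hγ : w ^ 32 ≤ 10 ^ 6 * K * (e * Fintype.card ι / 10 ^ 6) := by
    rw [C.hn]
    linarith only [heq, hw, mul_le_mul_of_nonneg_right heq (show 0 ≤ w ^ 32 by positivity)]
  have hγ' : Fintype.card κ * √(Fintype.card κ : ℝ) ≤ e * Fintype.card ι / 10 ^ 6 := by
    refine le_of_mul_le_mul_left (le_trans ?_ hγ) (show 0 < 10 ^ 6 * K by positivity)
    rw [C.sqrt_d, C.hd]
    linarith only [hw, mul_le_mul_of_nonneg_right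
      (C.big' (a := 6) (k := 1) (j := 8) (by norm_num) (by norm_num) (by norm_num))
      (show 0 ≤ w ^ 24 by positivity)]
  obtain ⟨r, Φ, -, hdim, hi, hp, hE, hΦ⟩ := rank_gap (κ := κ) C.d_ge (n := Fintype.card ι)
    (τ := τ * w ^ 8) he he1 (by
      refine le_trans ?_ C.n_ge
      rw [le_div_iff₀ hρ, C.hd]
      have h1 := C.big' (a := 2) (k := 1) (j := 16) (by norm_num) (by norm_num) (by norm_num)
      linarith only [h1, hw, mul_le_mul_of_nonneg_right (show 100 * ρ ≤ w ^ 16 by linarith only [h1, C.P.hK])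
        (show 0 ≤ w ^ 16 by positivity)]) C.n_le
    (by rw [C.sqrt_d]; linarith only [hτe, hw, mul_le_mul_of_nonneg_right hτe (show 0 ≤ w ^ 8 by positivity)])
    (by rw [C.sqrt_d]; exact mul_le_mul_of_nonneg_right C.P.hτ' (by positivity))
    (by rw [C.hμ₁, C.hμ₂, C.hn, ← C.P.ha]; ring)
    (by
      rw [C.hμ₁, C.hn, C.sqrt_d, div_le_iff₀ (by positivity)]
      linarith only [hw, mul_le_mul_of_nonneg_right C.P.hm₁ (show 0 ≤ w ^ 32 by positivity)])
  have hg : 1 / (10 ^ 18 * K ^ 3) ≤ (e * q ^ 2) ^ 3 / 10 ^ 18 := by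
    rw [div_le_div_iff₀ (by positivity) (by positivity)]
    linarith only [heq, one_le_pow₀ (n := 3) heq]
  have k0 : ε ≤ 1 / (64 * K) := by
    rw [C.hε]
    exact one_div_le_one_div_of_le (by positivity)
      (by linarith only [hK, le_self_pow₀ C.P.K1 (show 7 ≠ 0 by norm_num)])
  obtain ⟨βA, a1, a2, a3⟩ := C.upper_fro (ε' := 1 / (64 * K)) (N := w ^ 16) (ω := τ + ε + 6) k0
    (by simpa using C.P.inv_le_one 64 1 (by norm_num)) (by positivity) (le_of_eq (by ring))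
  obtain ⟨βB, b1, -, b3⟩ := C.upper_fro le_rfl C.ε1 (by positivity) C.omega_le
  obtain ⟨βC, c1, -, c3⟩ := C.upper_app (g := (e * q ^ 2) ^ 3 / 10 ^ 18) le_rfl C.ε1
    (by positivity) C.omega_le (by positivity) hi hp
    (hE.trans_eq (by rw [C.hμ₂, C.hn, C.hd]; field_simp)) hΦ
  have g0 := meas_not_and (by positivity) (by positivity) a3
    (meas_not_and (by positivity) (by positivity) C.lower_app C.dot_ev)
  have g1 := meas_not_and (by positivity) (by positivity) b3 g0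
  have g2 := meas_not_and (by positivity) (by positivity) c3 g0
  have g3 := union_loo_le (ι := ι) (κ := κ)
    (B := fun i => {x | ∃ y, DualOpt (w ^ 16) (1 / w ^ 23) (1 / w ^ 23) x y ∧
      y i ∈ {s : ℝ | 1 / w ^ 23 ≤ |s|}})
    (fun i => measurableSet_dualOpt hb hb i (isClosed_le continuous_const continuous_abs))
    {x | UpEv w q (10 ^ 8 * K ^ 3) ε (τ + 3 * ε / 2) βC (50 * K * w ^ 8) ε r x ∧
      UpEv w q (10 ^ 8 * K ^ 3) (1 / (64 * K)) (τ + ε + 6) βA (w ^ 16) ε (Fintype.card κ + 1) x ∧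
      LowEv w φ σ x ∧ ∀ i, |x i ⬝ᵥ x i - w ^ 16| ≤ 20 * ρ * w ^ 8}
    (p := ENNReal.ofReal (3 * Real.exp (-(20 * ρ) / 4) +
      10 ^ 6 * Fintype.card κ * Real.exp (-√(Fintype.card κ) / 512))) (by
      rintro i x ⟨hC, hA, hL, hdot⟩
      obtain ⟨S, hS⟩ := exists_isMin (b := w ^ 16) (g := x) hb hb (univ.erase i)
      obtain ⟨U, l, hU, rfl⟩ := exists_spec hS.1
      obtain ⟨y, hy, S', hS', h1⟩ := exists_dualOpt (b := w ^ 16) (g := x) hb hb
      obtain ⟨h2, h3⟩ := near_of_obj hw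
        (mul_nonneg (sub_nonneg.2 C.σφ) (show 0 ≤ w ^ 8 by positivity)) hU
        (I := univ.erase i) (by simp)
        ((hS.2 S' hS').trans ((obj_mono hb hb (subset_univ _) S').trans (h1.trans (hL y hy).1)))
      have h4 := C.near_nrm hdot a1 a2 hA h2
      obtain ⟨h5, h6⟩ := C.near_trace hdot a1 hA h2 h4
      exact loo_large C.d_ge hb (by positivity) hε hγ' hdim (C.small_box hγ) i x hU hS
        (add_le_add h5 (mul_le_mul_of_nonneg_left h4 (by positivity)))
        (C.near_C hdot hg c1 hC h2 h4 h6 h3))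
  have g4 : Fintype.card ι * ENNReal.ofReal (3 * Real.exp (-(20 * ρ) / 4) +
      10 ^ 6 * Fintype.card κ * Real.exp (-√(Fintype.card κ) / 512)) ≤ ENNReal.ofReal (1 / w) := by
    rw [← ENNReal.ofReal_natCast, ← ENNReal.ofReal_mul (Nat.cast_nonneg _)]
    refine ENNReal.ofReal_le_ofReal ?_
    have : 1 / w = 1 / (2 * w) + 1 / (2 * w) := by field_simp; norm_num
    linarith only [this, C.prob1, C.prob2]
  have g5 := g3.trans (add_le_add g2 g4)
  rw [← ENNReal.ofReal_add (by positivity) (by positivity)] at g5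
  refine (meas_not_le (meas_not_and (by positivity) (by positivity) g1
    (le_trans (measure_mono fun x hx => not_not.1 hx) g5)) ?_).trans
    (ENNReal.ofReal_le_ofReal (le_of_eq (by field_simp; norm_num)))
  rintro x ⟨⟨hB, hA, hL, hdot⟩, h0⟩
  obtain ⟨y, hy⟩ := exists_dualOpt (b := w ^ 16) (g := x) hb hb
  refine fit_of_dualOpt hy (fun i => abs_lt.1 (not_le.1 fun h => h0 ⟨i, y, hy, h⟩)) fun v hv => ?_
  by_contra hc
  obtain ⟨hy1, S, hS, h1⟩ := hy
  obtain ⟨U, l, hU, rfl⟩ := exists_spec hS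
  obtain ⟨h2, h3⟩ := near_of_obj hw
    (mul_nonneg (show 0 ≤ φ + σ / 4 by linarith only [hσ, C.P.hφ0]) (show 0 ≤ w ^ 8 by positivity)) hU
    (I := univ) (by simp) (h1.trans ((hL y hy1).2 ⟨v, hv, not_lt.1 hc⟩))
  have h4 := C.near_nrm hdot a1 a2 hA h2
  exact absurd (C.near_B hdot b1 hB h2 h4 (C.near_trace hdot a1 hA h2 h4).2) (not_lt.2 h3)

end Ctx

/-- The number of points is at least `d ^ 2 / ρ`. -/
theorem large {w ρ e : ℝ} (hd : (Fintype.card κ : ℝ) = w ^ 16) (he : 0 < e) (he1 : e ≤ 1)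
    (hρ : 1 ≤ ρ) (hlog : Real.log (Fintype.card κ) ≤ ρ)
    (hn : (Fintype.card κ : ℝ) ^ 2 / ρ ≤ Fintype.card ι)
    (hn' : (Fintype.card ι : ℝ) ≤ (1 - e) * (Fintype.card κ : ℝ) ^ 2 / 4)
    (hw : 10 ^ 300 * (ρ / e) ^ 100 ≤ w) :
    gm ι κ {x | ¬ Fit (Fintype.card κ) x} ≤ ENNReal.ofReal (10 / w) := by
  have hρ0 : 0 < ρ := one_pos.trans_le hρ
  have hK : ρ ≤ ρ / e := le_div_self hρ0.le he he1
  have hw1 : 10 ^ 4 * ρ ≤ w := le_trans (mul_le_mul (pow_le_big (by norm_num))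
    (hK.trans (le_self_pow₀ (hρ.trans hK) (by norm_num))) hρ0.le (by positivity)) hw
  have hw0 : 0 < w := lt_of_lt_of_le (by positivity) hw1
  have hw2 : 10 ^ 4 * ρ ≤ w ^ 16 := hw1.trans (le_self_pow₀ (by linarith only [hρ, hw1]) (by norm_num))
  have hD : √(Fintype.card κ : ℝ) = w ^ 8 := by
    rw [hd, show w ^ 16 = (w ^ 8) ^ 2 by ring, Real.sqrt_sq (by positivity)]
  obtain ⟨t, t1, t2, t3, t4⟩ := goe_params (κ := κ) (n := Fintype.card ι)
    (by exact_mod_cast (show (10 : ℝ) ^ 4 ≤ Fintype.card κ by rw [hd]; linarith only [hρ, hw2])) he (by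
      refine le_trans ?_ hn
      rw [le_div_iff₀ hρ0, hd]
      linarith only [hρ, hw2, hw0, mul_le_mul_of_nonneg_right (show 100 * ρ ≤ w ^ 16 by linarith only [hρ, hw2])
        (show 0 ≤ w ^ 16 by positivity)]) hn'
  have ht0 : 0 < t := lt_of_lt_of_le (by rw [hD]; positivity) t1
  have t5 := mu1_le (κ := κ) ht0.le
  have t6 := mu2_nonneg (κ := κ) t
  rw [hD] at t1 t2 t4 t5
  rw [hd] at hn hn' t5
  have hn0 : (0 : ℝ) < Fintype.card ι := lt_of_lt_of_le (by positivity) hn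
  obtain ⟨q, hq0, hq⟩ : ∃ q : ℝ, 0 < q ∧ (Fintype.card ι : ℝ) = q ^ 2 * w ^ 32 :=
    ⟨√(Fintype.card ι) / w ^ 16, by positivity, by
      rw [div_pow, Real.sq_sqrt hn0.le]; field_simp⟩
  obtain ⟨τ, rfl⟩ : ∃ τ, t = τ * w ^ 8 := ⟨t / w ^ 8, by field_simp⟩
  obtain ⟨m₁, hm₁⟩ : ∃ m, mu1 κ (τ * w ^ 8) = m * w ^ 24 :=
    ⟨mu1 κ (τ * w ^ 8) / w ^ 24, by field_simp⟩
  obtain ⟨m₂, hm₂⟩ : ∃ m, mu2 κ (τ * w ^ 8) = m * w ^ 32 :=
    ⟨mu2 κ (τ * w ^ 8) / w ^ 32, by field_simp⟩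
  rw [hq] at hn hn' t3 t4
  rw [hm₁] at t3 t4 t5
  rw [hm₂] at t3 t6
  have p8 : 0 < w ^ 8 := by positivity
  have p24 : 0 < w ^ 24 := by positivity
  have p32 : 0 < w ^ 32 := by positivity
  have q1 : 1 / ρ ≤ q ^ 2 := le_of_mul_le_mul_right (le_of_eq_of_le (by ring) hn) p32
  have q2 : q ^ 2 ≤ (1 / 2) ^ 2 :=
    le_of_mul_le_mul_right (by linarith only [hn', he, p32, mul_pos he p32]) p32
  have q3 : e / 4 ≤ τ := le_of_mul_le_mul_right (by linarith only [t1]) p8
  have q4 : q ^ 2 / 4 ≤ m₁ := by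
    rw [div_le_iff₀ (by positivity)] at t4
    exact le_of_mul_le_mul_right (by linarith only [t4]) p32
  have q5 : m₁ ≤ 1 := le_of_mul_le_mul_right (by linarith only [t5]) p24
  have q6 : 0 < m₁ := lt_of_lt_of_le (by positivity) q4
  have q7 : 1 / (ρ / e) ≤ e := by rw [one_div_div]; exact div_le_self he.le hρ
  have q8 : 0 < τ := by linarith only [he, q3]
  have q9 : √(2 * τ / m₁) ^ 2 = 2 * τ / m₁ := Real.sq_sqrt (by positivity)
  rw [hd]
  refine Ctx.main (K := ρ / e) (q := q) (τ := τ) (m₁ := m₁) (m₂ := m₂) (φ := √(2 * τ / m₁))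
    ⟨⟨hρ, hK, hw, q1, hq0, le_of_sq_le_sq q2 (by norm_num), ?_, ?_,
      le_of_mul_le_mul_right t2 p8, mul_right_cancel₀ p32.ne' (by linarith only [t3]), q4, q5,
      nonneg_of_mul_nonneg_left t6 p32, Real.sqrt_nonneg _, by rw [q9]; field_simp, ?_⟩,
      hd, hq, hlog, hm₁, hm₂, rfl, rfl⟩ he he1 (by field_simp) q3
  · calc 1 / (4 * (ρ / e)) = 1 / (ρ / e) / 4 := by field_simp
      _ ≤ τ := by linarith only [q3, q7]
  · calc 1 / (16 * (ρ / e)) = e / 4 * (1 / ρ / 4) := by field_simp; norm_num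
      _ ≤ τ * m₁ := mul_le_mul q3 (by linarith only [q1, q4]) (by positivity) q8.le
  · refine Real.le_sqrt_of_sq_le ?_
    have h1 : 1 / (2 * (ρ / e)) ≤ e / 2 := by
      calc 1 / (2 * (ρ / e)) = 1 / (ρ / e) / 2 := by field_simp
        _ ≤ _ := by linarith only [q7]
    have h2 := pow_le_pow_left₀ (by positivity) h1 2
    have h3 := le_div_self (show 0 ≤ 2 * τ by positivity) q6 q5
    linarith only [q3, q8, h2, h3, he1, he, mul_le_mul_of_nonneg_left he1 he.le]

end Pool.Agent.Work.MP_6a50bc_pr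
end

-- merged part: Pool.Agent.Work.MP_6a50bc_pr.Final
section
/-! Assembly of the two regimes and rescaling of the Gaussian measure. -/

namespace Pool.Agent.Work.MP_6a50bc_pr

open Filter Topology MeasureTheory ProbabilityTheory Matrix
open scoped ENNReal

/-- The failure probability, as a function of the logarithm of the dimension. -/
noncomputable def failProb (L : ℝ) : ℝ := 20 * Real.exp (-L) + 1 / L ^ 2 + 10 / Real.exp (L / 16)

lemma tendsto_failProb : Tendsto failProb atTop (𝓝 0) := by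
  have h1 := Real.tendsto_exp_neg_atTop_nhds_zero.const_mul 20
  have h2 : Tendsto (fun L : ℝ => 1 / L ^ 2) atTop (𝓝 0) :=
    tendsto_const_nhds.div_atTop (tendsto_pow_atTop two_ne_zero)
  have h3 : Tendsto (fun L : ℝ => 10 / Real.exp (L / 16)) atTop (𝓝 0) :=
    tendsto_const_nhds.div_atTop
      (Real.tendsto_exp_atTop.comp (tendsto_id.atTop_div_const (by norm_num)))
  have h := (h1.add h2).add h3
  simp only [mul_zero, add_zero] at h
  exact h

lemma eventually_le_exp (C : ℝ) (k : ℕ) : ∀ᶠ L : ℝ in atTop, C * L ^ k ≤ Real.exp (L / 16) := by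
  have h := (Real.tendsto_exp_div_pow_atTop k).comp
    (tendsto_id.atTop_div_const (by norm_num : (0 : ℝ) < 16))
  filter_upwards [h.eventually_ge_atTop (C * 16 ^ k), eventually_gt_atTop 0] with L h1 h2
  simp only [Function.comp_def, id] at h1
  rw [le_div_iff₀ (by positivity), div_pow] at h1
  refine le_trans (le_of_eq ?_) h1
  field_simp

theorem not_fit_le {e : ℝ} (he : 0 < e) (he1 : e ≤ 1) : ∀ᶠ d : ℕ in atTop, ∀ n : ℕ, 0 < n →
    (n : ℝ) ≤ (1 - e) * (d : ℝ) ^ 2 / 4 →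
      gm (Fin n) (Fin d) {x | ¬ Fit (d : ℝ) x} ≤ ENNReal.ofReal (failProb (Real.log d)) := by
  have hL : Tendsto (fun d : ℕ => Real.log d) atTop atTop :=
    Real.tendsto_log_atTop.comp tendsto_natCast_atTop_atTop
  filter_upwards [hL.eventually (eventually_le_exp (10 ^ 300 / e ^ 100) (2 * 300 * 100)),
    hL.eventually_ge_atTop (10 ^ 10), eventually_gt_atTop 0] with d h1 h2 hd n hn hn'
  have hd' : (0 : ℝ) < d := Nat.cast_pos.mpr hd
  have hexp : Real.exp (Real.log d) = d := Real.exp_log hd'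
  generalize hLd : Real.log d = L at h1 h2 hexp
  have hL1 : 1 ≤ L := le_trans (by norm_num) h2
  have hρ : (10 : ℝ) ^ 20 ≤ L ^ 2 := by nlinarith only [h2]
  have hρ1 : 1 ≤ L ^ 2 := one_le_pow₀ hL1
  have hlog : L ≤ L ^ 2 := by nlinarith only [hρ, h2]
  have : Nonempty (Fin n) := ⟨⟨0, hn⟩⟩
  by_cases hc : (n : ℝ) ≤ (d : ℝ) ^ 2 / (L ^ 2) ^ 300
  · have h := small (ι := Fin n) (κ := Fin d) hρ (by rwa [Fintype.card_fin, hLd])
      (by rwa [Fintype.card_fin, Fintype.card_fin])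
    rw [Fintype.card_fin, Fintype.card_fin] at h
    refine h.trans (ENNReal.ofReal_le_ofReal ?_)
    have h3 : (n : ℝ) ≤ Real.exp L ^ 2 := by rw [hexp]; nlinarith only [hn', he, sq_nonneg (d : ℝ)]
    have h4 : Real.exp L ^ 2 * Real.exp (-L ^ 2 / 4) ≤ Real.exp (-L) := by
      rw [← Real.exp_nat_mul, ← Real.exp_add]
      exact Real.exp_le_exp.mpr (by push_cast; nlinarith only [hρ, h2])
    have h5 := mul_le_mul_of_nonneg_right h3 (Real.exp_pos (-L ^ 2 / 4)).le
    have h6 : 0 ≤ 10 / Real.exp (L / 16) := by positivity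
    rw [failProb]
    linarith only [h4, h5, h6]
  · have h := large (ι := Fin n) (κ := Fin d) (w := Real.exp (L / 16)) (ρ := (L ^ 2) ^ 300)
      (by rw [Fintype.card_fin, ← Real.exp_nat_mul, ← hexp]; congr 1; push_cast; ring) he he1
      (one_le_pow₀ hρ1) (by
        rw [Fintype.card_fin, hLd]
        exact hlog.trans (le_self_pow₀ hρ1 (by norm_num)))
      (by rw [Fintype.card_fin, Fintype.card_fin]; exact (not_le.mp hc).le)
      (by rwa [Fintype.card_fin, Fintype.card_fin])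
      (by rwa [div_pow, ← pow_mul, ← pow_mul, ← mul_assoc, mul_div_assoc', mul_div_right_comm])
    rw [Fintype.card_fin] at h
    refine h.trans (ENNReal.ofReal_le_ofReal ?_)
    have h6 : 0 ≤ 20 * Real.exp (-L) + 1 / L ^ 2 := by positivity
    rw [failProb]
    linarith only [h6]

lemma mp_scale {d : ℕ} (n : ℕ) :
    MeasurePreserving (fun (g : Fin n → Fin d → ℝ) i a => √((d : ℝ)⁻¹) * g i a)
      (gm (Fin n) (Fin d)) (Measure.pi fun _ : Fin n =>
        Measure.pi fun _ : Fin d => gaussianReal 0 (d : NNReal)⁻¹) := by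
  refine measurePreserving_pi _ _ fun _ => measurePreserving_pi _ _ fun _ => ⟨by fun_prop, ?_⟩
  rw [gaussianReal_map_const_mul, mul_zero, mul_one]
  congr 1
  ext
  simp

theorem final : ∀ ε : ℝ, 0 < ε → ∀ n : ℕ → ℕ, (∀ d, 0 < n d) →
    (∀ δ : ℝ, 0 < δ → ∀ᶠ d : ℕ in atTop, (n d : ℝ) / (d : ℝ) ^ 2 ≤ (1 - ε) / 4 + δ) →
    Tendsto
      (fun d : ℕ =>
        (Measure.pi (fun _ : Fin (n d) =>
            Measure.pi (fun _ : Fin d => gaussianReal 0 (d : NNReal)⁻¹)))
          {x : Fin (n d) → Fin d → ℝ |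
            (∃ S : Matrix (Fin d) (Fin d) ℝ, S.IsHermitian ∧
                ∀ i, x i ⬝ᵥ (S *ᵥ x i) = 1) ∧
            ∀ S : Matrix (Fin d) (Fin d) ℝ, ∀ hS : S.IsHermitian,
              (∀ i, x i ⬝ᵥ (S *ᵥ x i) = 1) →
              (∀ T : Matrix (Fin d) (Fin d) ℝ, ∀ hT : T.IsHermitian,
                (∀ i, x i ⬝ᵥ (T *ᵥ x i) = 1) →
                ∑ j, |hS.eigenvalues j| ≤ ∑ j, |hT.eigenvalues j|) →
              S.PosSemidef})
      atTop (𝓝 1) := by
  intro ε hε n hn h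
  have hL : Tendsto (fun d : ℕ => Real.log d) atTop atTop :=
    Real.tendsto_log_atTop.comp tendsto_natCast_atTop_atTop
  have h0 : Tendsto (fun d : ℕ => 1 - ENNReal.ofReal (failProb (Real.log d))) atTop (𝓝 1) := by
    have := ENNReal.Tendsto.sub (tendsto_const_nhds (x := (1 : ℝ≥0∞)))
      (ENNReal.tendsto_ofReal (tendsto_failProb.comp hL)) (Or.inl ENNReal.one_ne_top)
    simpa using this
  refine tendsto_of_tendsto_of_tendsto_of_le_of_le' h0 tendsto_const_nhds ?_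
    (Eventually.of_forall fun d => prob_le_one)
  filter_upwards [not_fit_le (e := min (ε / 2) 1) (by positivity) (min_le_right _ _),
    h (ε / 8) (by positivity), eventually_gt_atTop 0] with d h1 h2 hd
  have hd' : (0 : ℝ) < d := Nat.cast_pos.mpr hd
  have h3 := h1 (n d) (hn d) (by
    rw [div_le_iff₀ (by positivity)] at h2
    nlinarith only [h2, mul_le_mul_of_nonneg_right (min_le_left (ε / 2) 1) (sq_nonneg (d : ℝ))])
  have mp := mp_scale (d := d) (n d)
  rw [← mp.map_eq]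
  refine le_trans ?_ (Measure.le_map_apply mp.measurable.aemeasurable _)
  have key : ∀ (S : Matrix (Fin d) (Fin d) ℝ) (g : Fin d → ℝ),
      (fun a => √((d : ℝ)⁻¹) * g a) ⬝ᵥ (S *ᵥ fun a => √((d : ℝ)⁻¹) * g a) = 1 ↔ qf S g = d := by
    intro S g
    have := qf_smul_vec √((d : ℝ)⁻¹) S g
    rw [Real.sq_sqrt (by positivity)] at this
    rw [eq_comm (a := qf S g), ← inv_mul_eq_one₀ hd'.ne', ← this]
    exact Iff.rfl
  refine le_trans ?_ (measure_mono (s := {x | Fit (d : ℝ) x}) fun x hx => ?_)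
  · rw [tsub_le_iff_right, ← measure_univ (μ := gm (Fin (n d)) (Fin d)),
      ← Set.union_compl_self {x | Fit (d : ℝ) x}]
    exact (measure_union_le _ _).trans (add_le_add le_rfl h3)
  · simp only [Set.mem_preimage, Set.mem_ofPred_eq, key]
    refine ⟨hx.1, fun S hS h4 h5 => hx.2 S hS h4 fun T hT h6 => ?_⟩
    rw [nuc_eq_sum_abs_eigenvalues hS, nuc_eq_sum_abs_eigenvalues hT]
    exact h5 T hT h6

end Pool.Agent.Work.MP_6a50bc_pr
end
end
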