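import Pool.Agent.Work.MP_6a50bc_pr.Soft

/-! Interpolation between a second order Gaussian chaos and a Gaussian process. -/

namespace Pool.Agent.Work.MP_6a50bc_pr

open MeasureTheory ProbabilityTheory Matrix Finset
open scoped ENNReal

variable {I J N : Type*} [Fintype I] [Fintype J] [DecidableEq I] [DecidableEq J] [Nonempty I]
  [Nonempty J] [Fintype N] {β : ℝ}

omit [DecidableEq I] [DecidableEq J] in
lemma abs_s1_le (z : I × J → ℝ) (p : I × J) : |s1 β z p| ≤ 1 := by
  rw [abs_of_pos (s1_pos z p), ← sum_s1 (β := β) z]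
  exact single_le_sum (f := fun p => s1 β z p) (fun p _ => (s1_pos z p).le) (mem_univ p)

lemma abs_s2_le (hβ : 0 ≤ β) (z : I × J → ℝ) (p p' : I × J) : |s2 β z p p'| ≤ 4 * β := by
  have h1 := single_le_sum (f := fun p' => |s2 β z p p'|) (fun _ _ => abs_nonneg _) (mem_univ p')
  have h2 := sum_abs_s2 hβ z p
  have h3 := (le_abs_self _).trans (abs_s1_le (β := β) z p)
  nlinarith

lemma abs_s3_le (hβ : 0 ≤ β) (z : I × J → ℝ) (p p' p'' : I × J) :
    |s3 β z p p' p''| ≤ 24 * β ^ 2 :=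
  ((single_le_sum (f := fun p'' => |s3 β z p p' p''|) (fun _ _ => abs_nonneg _)
    (mem_univ p'')).trans <| (single_le_sum (f := fun p' => ∑ p'', |s3 β z p p' p''|)
    (fun _ _ => sum_nonneg fun _ _ => abs_nonneg _) (mem_univ p')).trans <|
    single_le_sum (f := fun p => ∑ p', ∑ p'', |s3 β z p p' p''|)
    (fun _ _ => sum_nonneg fun _ _ => sum_nonneg fun _ _ => abs_nonneg _) (mem_univ p)).trans
    (sum_abs_s3 hβ z)

theorem compare_step (hβ : 0 ≤ β) {M : I × J → Matrix N N ℝ} (hM : ∀ p, (M p).IsHermitian)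
    {v w : I × J → N → ℝ} (b : I × J → ℝ) (hv : ∀ p p', M p *ᵥ v p' = 0)
    (hw : ∀ p p', M p *ᵥ w p' = 0) {s t : ℝ} (hs : |s| ≤ 1) (ht : |t| ≤ 1)
    (h0 : ∀ p p', 0 ≤ 2 * s * t * (M p' * M p).trace + w p ⬝ᵥ v p')
    (h1 : ∀ p p', p.1 = p'.1 → 2 * s * t * (M p' * M p).trace + w p ⬝ᵥ v p' = 0)
    {W : (N → ℝ) → ℝ} (hW : Integrable W (gv N))
    (hWb : ∀ x p p' p'', |M p'' *ᵥ x ⬝ᵥ (M p' * M p) *ᵥ x| ≤ W x) :
    -(96 * β ^ 2 * ∫ x, W x ∂(gv N)) ≤
      ∫ x, s1 β (fun p => s * cq (M p) x + v p ⬝ᵥ x + b p) ⬝ᵥ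
        (fun p => t * cq (M p) x + w p ⬝ᵥ x) ∂(gv N) := by
  set Z : (N → ℝ) → I × J → ℝ := fun x p => s * cq (M p) x + v p ⬝ᵥ x + b p with hZ
  set G : I × J → (N → ℝ) → N → ℝ := fun p x => (2 * s) • M p *ᵥ x + v p with hG
  set Δ : I × J → I × J → ℝ := fun p p' => 2 * s * t * (M p' * M p).trace + w p ⬝ᵥ v p' with hΔ
  set T : I × J → I × J → I × J → (N → ℝ) → ℝ :=
    fun p p' p'' x => M p'' *ᵥ x ⬝ᵥ (M p' * M p) *ᵥ x with hT
  have gZ : ∀ p, Grad (fun x => Z x p) (G p) := fun p =>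
    ((((Grad.cq (hM p)).const_mul s).add (Grad.dot (v p))).add (Grad.const (b p))).congr
      fun x => by simp only [hG, smul_smul, add_zero, mul_comm]
  have cZ : Continuous Z := by rw [hZ]; fun_prop
  have pG : ∀ p a, PG fun x => G p x a := fun p a =>
    ((PG.const (2 * s)).mul (PG.mulVec (M p) PG.coord a)).add (PG.const (v p a))
  have p1 : ∀ p, PG fun x => s1 β (Z x) p := fun p =>
    PG.of_bdd ((continuous_s1 p).comp cZ) fun x => abs_s1_le _ p
  have p2 : ∀ p p', PG fun x => s2 β (Z x) p p' := fun p p' =>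
    PG.of_bdd ((continuous_s2 p p').comp cZ) fun x => abs_s2_le hβ _ p p'
  have p3 : ∀ p p' p'', PG fun x => s3 β (Z x) p p' p'' := fun p p' p'' =>
    PG.of_bdd ((continuous_s3 p p' p'').comp cZ) fun x => abs_s3_le hβ _ p p' p''
  have pT : ∀ p p' p'', PG (T p p' p'') := fun p p' p'' =>
    PG.dot (PG.mulVec _ PG.coord) (PG.mulVec _ PG.coord)
  have pw : ∀ p, PG fun x => w p ⬝ᵥ x := fun p => PG.dot (fun _ => PG.const _) PG.coord
  have vM : ∀ p p' x, v p' ⬝ᵥ M p *ᵥ x = 0 := fun p p' x => by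
    rw [dot_mulVec_symm (hM p), hv, dotProduct_zero]
  have pS : ∀ (c : I × J → (N → ℝ) → ℝ), (∀ q, PG (c q)) →
      ∀ a, PG fun x => (∑ q, c q x • G q x) a := fun c hc a => by
    simpa using PG.sum univ fun q => (hc q).mul (pG q a)
  have E2 : ∀ p p', ∫ x, s2 β (Z x) p p' * cq (M p' * M p) x ∂(gv N) =
      ∫ x, ∑ p'', 2 * s * (s3 β (Z x) p p' p'' * T p p' p'' x) ∂(gv N) := by
    intro p p'
    rw [ibp_quad ((grad_s2 p p').comp gZ) (p2 p p') (pS _ (p3 p p'))]
    refine integral_congr_ae (Filter.Eventually.of_forall fun x => ?_)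
    simp only [sum_dotProduct, smul_dotProduct, hG, add_dotProduct, smul_eq_mul, hT]
    refine sum_congr rfl fun p'' _ => ?_
    rw [← mulVec_mulVec, vM]
    ring
  have E1 : ∀ p, ∫ x, s1 β (Z x) p * (t * cq (M p) x + w p ⬝ᵥ x) ∂(gv N) =
      ∑ p', ∫ x, (s2 β (Z x) p p' * Δ p p' +
        2 * s * t * ∑ p'', 2 * s * (s3 β (Z x) p p' p'' * T p p' p'' x)) ∂(gv N) := by
    intro p
    have e : ∀ x, s1 β (Z x) p * (t * cq (M p) x + w p ⬝ᵥ x) =
        t * (s1 β (Z x) p * cq (M p) x) + s1 β (Z x) p * (w p ⬝ᵥ x) := fun x => by ring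
    simp only [e]
    rw [integral_add ((PG.const t).mul ((p1 p).mul (PG.cq _))).integrable
      ((p1 p).mul (pw p)).integrable, integral_const_mul,
      ibp_quad ((grad_s1 p).comp gZ) (p1 p) (pS _ (p2 p)),
      ibp_lin ((grad_s1 p).comp gZ) (p1 p) (pS _ (p2 p)), ← integral_const_mul, ← integral_add
      ((PG.const t).mul (PG.dot (pS _ (p2 p)) (PG.mulVec _ PG.coord))).integrable
      (PG.dot (g := fun _ => w p) (pS _ (p2 p)) fun _ => PG.const _).integrable]
    have e2 : ∀ x, t * ((∑ q, s2 β (Z x) p q • G q x) ⬝ᵥ M p *ᵥ x) +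
        (∑ q, s2 β (Z x) p q • G q x) ⬝ᵥ w p =
        ∑ p', (s2 β (Z x) p p' * Δ p p' + 2 * s * t * (s2 β (Z x) p p' * cq (M p' * M p) x)) := by
      intro x
      simp only [sum_dotProduct, smul_dotProduct, hG, add_dotProduct, smul_eq_mul, hΔ, mul_sum,
        ← sum_add_distrib]
      refine sum_congr rfl fun p' _ => ?_
      have a1 : M p' *ᵥ x ⬝ᵥ w p = 0 := by
        rw [dotProduct_comm, dot_mulVec_symm (hM p'), hw, dotProduct_zero]
      have a2 : M p' *ᵥ x ⬝ᵥ M p *ᵥ x = qf (M p' * M p) x := by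
        rw [qf, ← mulVec_mulVec, dot_mulVec_symm (hM p') x, dotProduct_comm]
      rw [vM, a1, a2, cq, dotProduct_comm (v p')]
      ring
    simp only [e2]
    rw [integral_finsetSum _ fun p' _ => (((p2 p p').mul (PG.const _)).add
      ((PG.const _).mul ((p2 p p').mul (PG.cq _)))).integrable]
    refine sum_congr rfl fun p' _ => ?_
    rw [integral_add ((p2 p p').mul (PG.const _)).integrable
      ((PG.const _).mul ((p2 p p').mul (PG.cq _))).integrable, integral_const_mul, E2,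
      ← integral_const_mul, ← integral_add ((p2 p p').mul (PG.const _)).integrable
      ((PG.const _).mul (PG.sum _ fun p'' =>
        (PG.const _).mul ((p3 p p' p'').mul (pT p p' p'')))).integrable]
  have pR : ∀ p p', PG fun x => s2 β (Z x) p p' * Δ p p' +
      2 * s * t * ∑ p'', 2 * s * (s3 β (Z x) p p' p'' * T p p' p'' x) := fun p p' =>
    ((p2 p p').mul (PG.const _)).add ((PG.const _).mul (PG.sum _ fun p'' =>
      (PG.const _).mul ((p3 p p' p'').mul (pT p p' p''))))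
  change _ ≤ ∫ x, ∑ p, s1 β (Z x) p * (t * cq (M p) x + w p ⬝ᵥ x) ∂(gv N)
  rw [integral_finsetSum _ fun p _ =>
    ((p1 p).mul (((PG.const t).mul (PG.cq _)).add (pw p))).integrable]
  simp only [E1]
  rw [sum_congr rfl fun p _ => (integral_finsetSum _ fun p' _ => (pR p p').integrable).symm,
    ← integral_finsetSum _ fun p _ => (PG.sum _ (pR p)).integrable, ← integral_const_mul,
    ← integral_neg]
  refine integral_mono (hW.const_mul _).neg (PG.sum _ fun p => PG.sum _ (pR p)).integrable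
    fun x => ?_
  have b1 := sum_s2_nonneg hβ (Z x) (Δ := Δ) h0 h1
  have hW0 : 0 ≤ W x := (abs_nonneg _).trans
    (hWb x (Classical.arbitrary _) (Classical.arbitrary _) (Classical.arbitrary _))
  have b2 : ∀ p p' p'', -(4 * W x * |s3 β (Z x) p p' p''|) ≤
      2 * s * t * (2 * s * (s3 β (Z x) p p' p'' * T p p' p'' x)) := by
    intro p p' p''
    refine neg_le_of_abs_le ?_
    have c1 : |T p p' p'' x| ≤ W x := hWb x p p' p''
    simp only [abs_mul, abs_two]
    calc _ ≤ 2 * 1 * 1 * (2 * 1 * (|s3 β (Z x) p p' p''| * W x)) := by gcongr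
      _ = _ := by ring
  have b3 := sum_le_sum fun p (_ : p ∈ univ) => sum_le_sum fun p' (_ : p' ∈ univ) =>
    sum_le_sum fun p'' (_ : p'' ∈ univ) => b2 p p' p''
  simp only [sum_neg_distrib, ← mul_sum] at b3
  simp only [sum_add_distrib, ← mul_sum]
  nlinarith [sum_abs_s3 hβ (Z x)]

theorem compare_soft (hβ : 0 < β) {M : I × J → Matrix N N ℝ} (hM : ∀ p, (M p).IsHermitian)
    {a c : I × J → N → ℝ} (b : I × J → ℝ) (ha : ∀ p p', M p *ᵥ a p' = 0)
    (hc : ∀ p p', M p *ᵥ c p' = 0) (hac : ∀ p p', a p ⬝ᵥ c p' = 0)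
    (h0 : ∀ p p', c p ⬝ᵥ c p' ≤ 2 * (M p' * M p).trace + a p ⬝ᵥ a p')
    (h1 : ∀ p p', p.1 = p'.1 → c p ⬝ᵥ c p' = 2 * (M p' * M p).trace + a p ⬝ᵥ a p')
    {W : (N → ℝ) → ℝ} (hW : Integrable W (gv N))
    (hWb : ∀ x p p' p'', |M p'' *ᵥ x ⬝ᵥ (M p' * M p) *ᵥ x| ≤ W x) :
    ∫ x, s0 β (fun p => c p ⬝ᵥ x + b p) ∂(gv N) ≤
      ∫ x, s0 β (fun p => cq (M p) x + a p ⬝ᵥ x + b p) ∂(gv N) +
        160 * β ^ 2 * ∫ x, W x ∂(gv N) := by
  set Z : ℝ → (N → ℝ) → I × J → ℝ := fun θ x p => Real.sin θ * cq (M p) x +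
    (Real.sin θ • a p + Real.cos θ • c p) ⬝ᵥ x + b p with hZ
  set Z' : ℝ → (N → ℝ) → I × J → ℝ := fun θ x p => Real.cos θ * cq (M p) x +
    (Real.cos θ • a p - Real.sin θ • c p) ⬝ᵥ x with hZ'
  have hd : ∀ θ x p, HasDerivAt (fun θ => Z θ x p) (Z' θ x p) θ := by
    intro θ x p
    simp only [hZ, hZ', add_dotProduct, sub_dotProduct, smul_dotProduct, smul_eq_mul]
    refine ((((Real.hasDerivAt_sin θ).mul_const _).fun_add (((Real.hasDerivAt_sin θ).mul_const
      _).fun_add ((Real.hasDerivAt_cos θ).mul_const _))).add_const _).congr_deriv ?_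
    ring
  have cZ : ∀ θ, Continuous (Z θ) := fun θ => by rw [hZ]; fun_prop
  have cZ' : ∀ θ, Continuous (Z' θ) := fun θ => by rw [hZ']; fun_prop
  have pd : ∀ v : N → ℝ, PG fun x => v ⬝ᵥ x := fun v => PG.dot (fun _ => PG.const _) PG.coord
  set bd : (N → ℝ) → ℝ := fun x => ∑ p, (|cq (M p) x| + |a p ⬝ᵥ x| + |c p ⬝ᵥ x|) with hbd
  have pbd : PG bd := PG.sum _ fun p => ((PG.cq _).abs.add (pd _).abs).add (pd _).abs
  have hb : ∀ θ x, |s1 β (Z θ x) ⬝ᵥ Z' θ x| ≤ bd x := by
    intro θ x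
    refine (abs_sum_le_sum_abs _ _).trans (sum_le_sum fun p _ => ?_)
    have e1 := abs_s1_le (β := β) (Z θ x) p
    have e2 := Real.abs_sin_le_one θ
    have e3 := Real.abs_cos_le_one θ
    have e4 : |Z' θ x p| ≤ |cq (M p) x| + |a p ⬝ᵥ x| + |c p ⬝ᵥ x| := by
      simp only [hZ', sub_dotProduct, smul_dotProduct, smul_eq_mul]
      refine (abs_add_le _ _).trans ((add_le_add le_rfl (abs_sub _ _)).trans ?_)
      simp only [abs_mul, ← add_assoc]
      gcongr <;> exact mul_le_of_le_one_left (abs_nonneg _) (by assumption)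
    rw [abs_mul]
    exact (mul_le_of_le_one_left (abs_nonneg _) e1).trans e4
  have pF : ∀ θ, PG fun x => s0 β (Z θ x) := by
    intro θ
    have pZ : ∀ p, PG fun x => Z θ x p := fun p =>
      (((PG.const _).mul (PG.cq _)).add (pd _)).add (PG.const _)
    refine PG.of_le (continuous_s0.comp (cZ θ)) ((PG.sum univ fun p => (pZ p).abs).add
      (PG.const (|Real.log (Fintype.card I) / β| + |Real.log (Fintype.card J) / β|))) fun x => ?_
    have e1 := s0_le hβ (Z θ x)
    have e2 := le_s0 hβ (Z θ x)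
    have e3 : |mm (fun i j => Z θ x (i, j)) - mm (fun (_ : I) (_ : J) => (0 : ℝ))| ≤
        ∑ p, |Z θ x p| := abs_mm_sub_le fun i j => by
      rw [sub_zero]
      exact single_le_sum (f := fun p => |Z θ x p|) (fun _ _ => abs_nonneg _) (mem_univ (i, j))
    have e4 : mm (fun (_ : I) (_ : J) => (0 : ℝ)) = 0 := by simp [mm]
    rw [e4, sub_zero, abs_le] at e3
    have e5 := le_abs_self (Real.log (Fintype.card I) / β)
    have e6 := le_abs_self (Real.log (Fintype.card J) / β)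
    have e7 := abs_nonneg (Real.log (Fintype.card I) / β)
    have e8 := abs_nonneg (Real.log (Fintype.card J) / β)
    exact abs_le.mpr ⟨by linarith [e3.1], by linarith [e3.2]⟩
  have hD : ∀ θ, HasDerivAt (fun θ => ∫ x, s0 β (Z θ x) ∂(gv N))
      (∫ x, s1 β (Z θ x) ⬝ᵥ Z' θ x ∂(gv N)) θ := by
    intro θ
    refine (hasDerivAt_integral_of_dominated_loc_of_deriv_le (s := Set.univ)
      (F' := fun θ x => s1 β (Z θ x) ⬝ᵥ Z' θ x) Filter.univ_mem
      (Filter.Eventually.of_forall fun θ => (pF θ).1.aestronglyMeasurable) (pF θ).integrable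
      (Continuous.aestronglyMeasurable ?_) (Filter.Eventually.of_forall fun x θ _ => hb θ x)
      pbd.integrable (Filter.Eventually.of_forall fun x θ _ =>
        grad_s0 hβ.ne' (fun θ => Z θ x) (Z' θ x) θ (hd θ x))).2
    exact continuous_finsetSum _ fun p _ => ((continuous_s1 p).comp (cZ θ)).mul
      ((continuous_apply p).comp (cZ' θ))
  have hW0 : 0 ≤ ∫ x, W x ∂(gv N) := integral_nonneg fun x => (abs_nonneg _).trans
    (hWb x (Classical.arbitrary _) (Classical.arbitrary _) (Classical.arbitrary _))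
  obtain ⟨θ, hθ, e⟩ := exists_hasDerivAt_eq_slope (fun θ => ∫ x, s0 β (Z θ x) ∂(gv N)) _
    (by positivity : 0 < Real.pi / 2) (fun θ _ => (hD θ).continuousAt.continuousWithinAt)
    fun θ _ => hD θ
  have hsc : 0 ≤ Real.sin θ * Real.cos θ :=
    mul_nonneg (Real.sin_nonneg_of_nonneg_of_le_pi hθ.1.le (by linarith [hθ.2, Real.pi_pos]))
      (Real.cos_nonneg_of_neg_pi_div_two_le_of_le (by linarith [hθ.1, Real.pi_pos]) hθ.2.le)
  have key : ∀ p p', 2 * Real.sin θ * Real.cos θ * (M p' * M p).trace +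
      (Real.cos θ • a p - Real.sin θ • c p) ⬝ᵥ (Real.sin θ • a p' + Real.cos θ • c p') =
      Real.sin θ * Real.cos θ * (2 * (M p' * M p).trace + a p ⬝ᵥ a p' - c p ⬝ᵥ c p') := by
    intro p p'
    simp only [sub_dotProduct, smul_dotProduct, dotProduct_add, dotProduct_smul, smul_eq_mul, hac,
      dotProduct_comm (c p) (a p')]
    ring
  have h := compare_step hβ.le hM (v := fun p => Real.sin θ • a p + Real.cos θ • c p)
    (w := fun p => Real.cos θ • a p - Real.sin θ • c p) b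
    (fun p p' => by simp [mulVec_add, mulVec_smul, ha, hc])
    (fun p p' => by simp [mulVec_sub, mulVec_smul, ha, hc])
    (Real.abs_sin_le_one θ) (Real.abs_cos_le_one θ)
    (fun p p' => by rw [key]; exact mul_nonneg hsc (by linarith [h0 p p']))
    (fun p p' hp => by rw [key, h1 p p' hp, sub_self, mul_zero]) hW hWb
  change _ ≤ ∫ x, s1 β (Z θ x) ⬝ᵥ Z' θ x ∂(gv N) at h
  rw [e, sub_zero, le_div_iff₀ (by positivity)] at h
  simp only [hZ, Real.sin_pi_div_two, Real.cos_pi_div_two, Real.sin_zero, Real.cos_zero, one_mul,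
    zero_mul, one_smul, zero_smul, add_zero, zero_add] at h
  have := mul_nonneg (sq_nonneg β) hW0
  nlinarith [Real.pi_lt_d2]

omit [DecidableEq I] [DecidableEq J] in
lemma PG.mm {z : (N → ℝ) → I → J → ℝ} (hz : ∀ i j, PG fun x => z x i j) : PG fun x => mm (z x) := by
  refine PG.of_le (continuous_mm (continuous_pi fun i => continuous_pi fun j => (hz i j).1))
    (PG.sum univ fun p : I × J => (hz p.1 p.2).abs) fun x => ?_
  have e3 : |MP_6a50bc_pr.mm (z x) - MP_6a50bc_pr.mm (fun (_ : I) (_ : J) => (0 : ℝ))| ≤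
      ∑ p : I × J, |z x p.1 p.2| := abs_mm_sub_le fun i j => by
    rw [sub_zero]
    exact single_le_sum (f := fun p : I × J => |z x p.1 p.2|) (fun _ _ => abs_nonneg _)
      (mem_univ (i, j))
  simpa [MP_6a50bc_pr.mm] using e3

omit [DecidableEq I] [DecidableEq J] in
/-- Comparison of the min-max of a chaos with that of a Gaussian process. -/
theorem compare (hβ : 0 < β) {M : I → J → Matrix N N ℝ} (hM : ∀ i j, (M i j).IsHermitian)
    {a c : I → J → N → ℝ} (b : I → J → ℝ) (ha : ∀ i j i' j', M i j *ᵥ a i' j' = 0)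
    (hc : ∀ i j i' j', M i j *ᵥ c i' j' = 0) (hac : ∀ i j i' j', a i j ⬝ᵥ c i' j' = 0)
    (h0 : ∀ i j i' j', c i j ⬝ᵥ c i' j' ≤ 2 * (M i' j' * M i j).trace + a i j ⬝ᵥ a i' j')
    (h1 : ∀ i j j', c i j ⬝ᵥ c i j' = 2 * (M i j' * M i j).trace + a i j ⬝ᵥ a i j')
    {W : (N → ℝ) → ℝ} (hW : Integrable W (gv N))
    (hWb : ∀ x i j i' j' i'' j'', |M i'' j'' *ᵥ x ⬝ᵥ (M i' j' * M i j) *ᵥ x| ≤ W x) :
    ∫ x, mm (fun i j => c i j ⬝ᵥ x + b i j) ∂(gv N) ≤
      ∫ x, mm (fun i j => cq (M i j) x + a i j ⬝ᵥ x + b i j) ∂(gv N) +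
        (Real.log (Fintype.card I) + Real.log (Fintype.card J)) / β +
        160 * β ^ 2 * ∫ x, W x ∂(gv N) := by
  classical
  have h := compare_soft hβ (M := fun p : I × J => M p.1 p.2) (fun p => hM _ _)
    (a := fun p => a p.1 p.2) (c := fun p => c p.1 p.2) (fun p => b p.1 p.2)
    (fun _ _ => ha _ _ _ _) (fun _ _ => hc _ _ _ _) (fun _ _ => hac _ _ _ _)
    (fun _ _ => h0 _ _ _ _) (fun p p' hp => by rw [← hp]; exact h1 _ _ _) hW
    fun x _ _ _ => hWb x _ _ _ _ _ _
  have pd : ∀ v : N → ℝ, PG fun x => v ⬝ᵥ x := fun v => PG.dot (fun _ => PG.const _) PG.coord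
  have key : ∀ z : (N → ℝ) → I → J → ℝ, (∀ i j, PG fun x => z x i j) →
      ∫ x, mm (z x) ∂(gv N) - Real.log (Fintype.card I) / β ≤
        ∫ x, s0 β (fun p : I × J => z x p.1 p.2) ∂(gv N) ∧
      ∫ x, s0 β (fun p : I × J => z x p.1 p.2) ∂(gv N) ≤
        ∫ x, mm (z x) ∂(gv N) + Real.log (Fintype.card J) / β := by
    intro z hz
    have p1 := PG.mm hz
    have p2 : PG fun x => s0 β (fun p : I × J => z x p.1 p.2) := by
      refine PG.of_le (continuous_s0.comp (continuous_pi fun p => (hz _ _).1)) (p1.abs.add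
        (PG.const (|Real.log (Fintype.card I) / β| + |Real.log (Fintype.card J) / β|))) fun x => ?_
      have e1 := s0_le hβ (fun p : I × J => z x p.1 p.2)
      have e2 := le_s0 hβ (fun p : I × J => z x p.1 p.2)
      have e3 := le_abs_self (mm (z x))
      have e4 := neg_abs_le (mm (z x))
      have e5 := le_abs_self (Real.log (Fintype.card I) / β)
      have e6 := le_abs_self (Real.log (Fintype.card J) / β)
      have e7 := abs_nonneg (Real.log (Fintype.card I) / β)
      have e8 := abs_nonneg (Real.log (Fintype.card J) / β)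
      exact abs_le.mpr ⟨by linarith, by linarith⟩
    constructor
    · have := integral_mono (p1.sub (PG.const _)).integrable p2.integrable
        fun x => le_s0 hβ (fun p : I × J => z x p.1 p.2)
      rwa [integral_sub p1.integrable (integrable_const _), integral_const, probReal_univ,
        one_smul] at this
    · have := integral_mono p2.integrable (p1.add (PG.const _)).integrable
        fun x => s0_le hβ (fun p : I × J => z x p.1 p.2)
      rwa [integral_add p1.integrable (integrable_const _), integral_const, probReal_univ,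
        one_smul] at this
  have k1 := (key (fun x i j => c i j ⬝ᵥ x + b i j) fun i j => (pd _).add (PG.const _)).1
  have k2 := (key (fun x i j => cq (M i j) x + a i j ⬝ᵥ x + b i j)
    fun i j => ((PG.cq _).add (pd _)).add (PG.const _)).2
  rw [add_div]
  linarith

end Pool.Agent.Work.MP_6a50bc_pr
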