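import Pool.Agent.Work.MP_6a50bc_pr.GBasic

/-! The rotation argument of Maurey and Pisier. -/

namespace Pool.Agent.Work.MP_6a50bc_pr

open MeasureTheory ProbabilityTheory Matrix Finset Filter Topology
open scoped ENNReal

variable {κ : Type*} [Fintype κ]

lemma gv_ac : gv κ ≪ (volume : Measure (κ → ℝ)) := by
  have h : gv κ = (volume : Measure (κ → ℝ)).withDensity
      fun x => ENNReal.ofReal (∏ i, gaussianPDFReal 0 1 (x i)) := by
    refine Measure.pi_eq fun s hs => ?_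
    have hi : Integrable (fun x : κ → ℝ => ∏ i, gaussianPDFReal 0 1 (x i))
        (Measure.pi fun i => (volume : Measure ℝ).restrict (s i)) :=
      Integrable.fintype_prod (f := fun _ : κ => gaussianPDFReal 0 1) fun i =>
        (integrable_gaussianPDFReal 0 1).restrict
    rw [withDensity_apply _ (MeasurableSet.univ_pi hs), volume_pi, Measure.restrict_pi_pi,
      ← ofReal_integral_eq_lintegral_ofReal hi (Eventually.of_forall fun x =>
        Finset.prod_nonneg fun i _ => gaussianPDFReal_nonneg _ _ _),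
      integral_fintype_prod_eq_prod (fun _ : κ => gaussianPDFReal 0 1),
      ENNReal.ofReal_prod_of_nonneg fun i _ => integral_nonneg (gaussianPDFReal_nonneg _ _)]
    refine Finset.prod_congr rfl fun i _ => ?_
    rw [gaussianReal_apply_eq_integral _ one_ne_zero]
  rw [h]
  exact withDensity_absolutelyContinuous _ _

lemma integrable_exp_nrm (c : ℝ) : Integrable (fun x : κ → ℝ => Real.exp (c * nrm x)) (gv κ) := by
  classical
  have h1 : Integrable (fun x : κ → ℝ => ∏ i, Real.exp (|c| * |x i|)) (gv κ) :=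
    Integrable.fintype_prod (f := fun (_ : κ) (y : ℝ) => Real.exp (|c| * |y|)) fun _ =>
      integrable_exp_mul_abs (X := fun y : ℝ => y) (integrable_exp_mul_gaussianReal _)
        (integrable_exp_mul_gaussianReal _)
  refine h1.mono' (by fun_prop : Continuous _).aestronglyMeasurable
    (Eventually.of_forall fun x => ?_)
  rw [Real.norm_eq_abs, abs_of_pos (Real.exp_pos _), ← Real.exp_sum, ← Finset.mul_sum]
  refine Real.exp_le_exp.2 ?_
  exact (mul_le_mul_of_nonneg_right (le_abs_self c) (nrm_nonneg x)).trans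
    (mul_le_mul_of_nonneg_left (nrm_le_sum_abs x) (abs_nonneg c))

lemma integrable_exp_nrm_add (c : ℝ) :
    Integrable (fun q : (κ → ℝ) × (κ → ℝ) => Real.exp (c * (nrm q.1 + nrm q.2)))
      ((gv κ).prod (gv κ)) := by
  simp only [mul_add, Real.exp_add]
  exact (integrable_exp_nrm c).mul_prod (integrable_exp_nrm c)

lemma integral_exp_dot (a : κ → ℝ) :
    ∫ v, Real.exp (a ⬝ᵥ v) ∂(gv κ) = Real.exp (a ⬝ᵥ a / 2) := by
  have h := integral_fintype_prod_eq_prod (𝕜 := ℝ) (μ := fun _ : κ => gaussianReal 0 1)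
    fun (i : κ) (y : ℝ) => Real.exp (a i * y)
  simp only [dotProduct, Real.exp_sum, Finset.sum_div]
  refine h.trans (Finset.prod_congr rfl fun i _ => ?_)
  have h2 := congrFun (mgf_fun_id_gaussianReal (μ := 0) (v := 1)) (a i)
  simp only [mgf] at h2
  rw [h2]
  congr 1
  simp [sq]

section lip

variable {f : (κ → ℝ) → ℝ} {L : ℝ}

lemma lip_abs (hf : ∀ x y, |f x - f y| ≤ L * nrm (x - y)) (x y : κ → ℝ) :
    |f x - f y| ≤ |L| * nrm (x - y) :=
  (hf x y).trans (mul_le_mul_of_nonneg_right (le_abs_self L) (nrm_nonneg _))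

lemma lip_lipschitz (hf : ∀ x y, |f x - f y| ≤ L * nrm (x - y)) :
    LipschitzWith (Real.toNNReal (|L| * √(Fintype.card κ))) f := by
  refine LipschitzWith.of_dist_le_mul fun x y => ?_
  rw [Real.dist_eq, Real.coe_toNNReal _ (by positivity), mul_assoc]
  refine (lip_abs hf x y).trans (mul_le_mul_of_nonneg_left ?_ (abs_nonneg L))
  exact nrm_le_of_abs_le dist_nonneg fun i => by
    rw [Pi.sub_apply, ← Real.dist_eq]; exact dist_le_pi_dist x y i

lemma lip_continuous (hf : ∀ x y, |f x - f y| ≤ L * nrm (x - y)) : Continuous f :=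
  (lip_lipschitz hf).continuous

lemma lip_fderiv (hf : ∀ x y, |f x - f y| ≤ L * nrm (x - y)) {u : κ → ℝ}
    (hu : DifferentiableAt ℝ f u) :
    ∃ a : κ → ℝ, a ⬝ᵥ a ≤ L ^ 2 ∧ ∀ v, fderiv ℝ f u v = a ⬝ᵥ v := by
  classical
  have hb : ∀ v, |fderiv ℝ f u v| ≤ |L| * nrm v := fun v => by
    have h1 : HasDerivAt (fun h : ℝ => u + h • v) v 0 := by
      simpa using ((hasDerivAt_id (0 : ℝ)).smul_const v).const_add u
    have h2 : HasFDerivAt f (fderiv ℝ f u) (u + (0 : ℝ) • v) := by simpa using hu.hasFDerivAt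
    have h3 := (h2.comp_hasDerivAt (0 : ℝ) h1).le_of_lip' (C := |L| * nrm v)
      (mul_nonneg (abs_nonneg _) (nrm_nonneg _)) (Eventually.of_forall fun h => by
        have := lip_abs hf (u + h • v) (u + (0 : ℝ) • v)
        rw [show u + h • v - (u + (0 : ℝ) • v) = h • v by simp, nrm_smul] at this
        simp only [Function.comp_apply, Real.norm_eq_abs, sub_zero]
        linarith)
    exact h3
  have ha : ∀ v, fderiv ℝ f u v = (fun i => fderiv ℝ f u (Pi.single i 1)) ⬝ᵥ v := fun v => by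
    conv_lhs => rw [pi_eq_sum_univ' v]
    simp [dotProduct, map_sum, mul_comm]
  refine ⟨_, ?_, ha⟩
  set a : κ → ℝ := fun i => fderiv ℝ f u (Pi.single i 1)
  have h1 := hb a
  rw [ha a, ← nrm_sq, abs_of_nonneg (sq_nonneg _)] at h1
  rw [← nrm_sq, ← sq_abs L]
  nlinarith [nrm_nonneg a, abs_nonneg L, sq_nonneg (nrm a - |L|)]

/-- The increment of `f` along a rotation of angle `e`. -/
noncomputable def inc (f : (κ → ℝ) → ℝ) (e : ℝ) (q : (κ → ℝ) × (κ → ℝ)) : ℝ :=
  f (Real.cos e • q.1 + Real.sin e • q.2) - f q.1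

lemma abs_inc_le (hf : ∀ x y, |f x - f y| ≤ L * nrm (x - y)) {e : ℝ} (h0 : 0 ≤ e) (h2 : e ≤ 2)
    (q : (κ → ℝ) × (κ → ℝ)) : |inc f e q| ≤ e * (|L| * (nrm q.1 + nrm q.2)) := by
  refine (lip_abs hf _ _).trans ?_
  have h1 : Real.cos e • q.1 + Real.sin e • q.2 - q.1 =
      (Real.cos e - 1) • q.1 + Real.sin e • q.2 := by rw [sub_smul, one_smul]; abel
  have h3 : |Real.cos e - 1| ≤ e := by
    rw [abs_sub_comm, abs_of_nonneg (sub_nonneg.2 (Real.cos_le_one e))]
    nlinarith [Real.one_sub_sq_div_two_le_cos (x := e)]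
  have h4 : |Real.sin e| ≤ e := Real.abs_sin_le_abs.trans (abs_of_nonneg h0).le
  have h5 : nrm ((Real.cos e - 1) • q.1 + Real.sin e • q.2) ≤ e * (nrm q.1 + nrm q.2) := by
    refine (nrm_add_le _ _).trans ?_
    rw [nrm_smul, nrm_smul, mul_add]
    exact add_le_add (mul_le_mul_of_nonneg_right h3 (nrm_nonneg _))
      (mul_le_mul_of_nonneg_right h4 (nrm_nonneg _))
  rw [h1]
  calc _ ≤ |L| * (e * (nrm q.1 + nrm q.2)) := mul_le_mul_of_nonneg_left h5 (abs_nonneg _)
    _ = _ := by ring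

lemma exp_inc_le (hf : ∀ x y, |f x - f y| ≤ L * nrm (x - y)) (s : ℝ) {e : ℝ} (h0 : 0 < e)
    (h2 : e ≤ 2) (q : (κ → ℝ) × (κ → ℝ)) :
    ‖Real.exp (s * (e⁻¹ * inc f e q))‖ ≤ Real.exp (|s| * |L| * (nrm q.1 + nrm q.2)) := by
  rw [Real.norm_eq_abs, abs_of_pos (Real.exp_pos _)]
  refine Real.exp_le_exp.2 ((le_abs_self _).trans ?_)
  rw [abs_mul, abs_mul, mul_assoc, abs_of_pos (inv_pos.2 h0)]
  refine mul_le_mul_of_nonneg_left ?_ (abs_nonneg _)
  rw [inv_mul_le_iff₀ h0]
  exact abs_inc_le hf h0.le h2 q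

omit [Fintype κ] in
lemma continuous_inc (hf : Continuous f) (e : ℝ) : Continuous (inc f e) := by
  unfold inc; fun_prop

lemma integrable_exp_inc (hf : ∀ x y, |f x - f y| ≤ L * nrm (x - y)) (s : ℝ) {e : ℝ} (h0 : 0 < e)
    (h2 : e ≤ 2) :
    Integrable (fun q => Real.exp (s * (e⁻¹ * inc f e q))) ((gv κ).prod (gv κ)) := by
  have := continuous_inc (lip_continuous hf) e
  exact (integrable_exp_nrm_add _).mono' (by fun_prop : Continuous _).aestronglyMeasurable
    (Eventually.of_forall (exp_inc_le hf s h0 h2))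

lemma tendsto_inc {u : κ → ℝ} (hu : DifferentiableAt ℝ f u) (v : κ → ℝ) :
    Tendsto (fun e => e⁻¹ * inc f e (u, v)) (𝓝[>] 0) (𝓝 (fderiv ℝ f u v)) := by
  have h1 : HasDerivAt (fun e : ℝ => Real.cos e • u + Real.sin e • v) v 0 := by
    simpa using
      ((Real.hasDerivAt_cos 0).smul_const u).fun_add ((Real.hasDerivAt_sin 0).smul_const v)
  have h2 : HasFDerivAt f (fderiv ℝ f u) (Real.cos 0 • u + Real.sin 0 • v) := by
    simpa using hu.hasFDerivAt
  simpa [inc] using (h2.comp_hasDerivAt (0 : ℝ) h1).tendsto_slope_zero_right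

lemma integral_exp_fderiv_le (hf : ∀ x y, |f x - f y| ≤ L * nrm (x - y)) (s : ℝ) :
    ∫ q : (κ → ℝ) × (κ → ℝ), Real.exp (s * fderiv ℝ f q.1 q.2) ∂((gv κ).prod (gv κ)) ≤
      Real.exp (s ^ 2 * L ^ 2 / 2) := by
  by_cases hi : Integrable (fun q : (κ → ℝ) × (κ → ℝ) => Real.exp (s * fderiv ℝ f q.1 q.2))
    ((gv κ).prod (gv κ))
  swap
  · rw [integral_undef hi]; exact (Real.exp_pos _).le
  rw [integral_prod _ hi]
  have h1 : ∀ᵐ u ∂(gv κ), ∫ v, Real.exp (s * fderiv ℝ f u v) ∂(gv κ) ≤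
      Real.exp (s ^ 2 * L ^ 2 / 2) := by
    filter_upwards [gv_ac.ae_le (lip_lipschitz hf).ae_differentiableAt] with u hu
    obtain ⟨a, ha, h⟩ := lip_fderiv hf hu
    have h2 := integral_exp_dot (s • a)
    simp only [smul_dotProduct, dotProduct_smul, smul_eq_mul] at h2
    simp only [h, h2]
    refine Real.exp_le_exp.2 ?_
    nlinarith [mul_le_mul_of_nonneg_left ha (sq_nonneg s)]
  calc _ ≤ ∫ _, Real.exp (s ^ 2 * L ^ 2 / 2) ∂(gv κ) :=
        integral_mono_of_nonneg (Eventually.of_forall fun u =>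
          integral_nonneg fun v => (Real.exp_pos _).le) (integrable_const _) h1
    _ = _ := by simp

lemma tendsto_integral_inc (hf : ∀ x y, |f x - f y| ≤ L * nrm (x - y)) (s : ℝ) :
    Tendsto (fun e => ∫ q, Real.exp (s * (e⁻¹ * inc f e q)) ∂((gv κ).prod (gv κ))) (𝓝[>] 0)
      (𝓝 (∫ q : (κ → ℝ) × (κ → ℝ), Real.exp (s * fderiv ℝ f q.1 q.2) ∂((gv κ).prod (gv κ)))) := by
  have hm : ∀ᶠ e in 𝓝[>] (0 : ℝ), 0 < e ∧ e ≤ 2 := Ioc_mem_nhdsGT (by norm_num)
  refine tendsto_integral_filter_of_dominated_convergence _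
    (hm.mono fun e he => (integrable_exp_inc hf s he.1 he.2).aestronglyMeasurable)
    (hm.mono fun e he => Eventually.of_forall (exp_inc_le hf s he.1 he.2))
    (integrable_exp_nrm_add _) ?_
  have h1 : ∀ᵐ u ∂(gv κ), DifferentiableAt ℝ f u :=
    gv_ac.ae_le (lip_lipschitz hf).ae_differentiableAt
  filter_upwards [(measurePreserving_fst (μ := gv κ) (ν := gv κ)).quasiMeasurePreserving.ae h1]
    with q hq
  exact (Real.continuous_exp.tendsto _).comp ((tendsto_inc hq q.2).const_mul s)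

/-- Rotation of a pair of vectors. -/
noncomputable def rotp (θ : ℝ) (q : (κ → ℝ) × (κ → ℝ)) : (κ → ℝ) × (κ → ℝ) :=
  (Real.cos θ • q.1 + Real.sin θ • q.2, (-Real.sin θ) • q.1 + Real.cos θ • q.2)

lemma mp_rotp (θ : ℝ) : MeasurePreserving (rotp θ) ((gv κ).prod (gv κ)) ((gv κ).prod (gv κ)) :=
  mp_rot (Real.cos_sq_add_sin_sq θ)

omit [Fintype κ] in
lemma inc_rotp (f : (κ → ℝ) → ℝ) (e θ : ℝ) (q : (κ → ℝ) × (κ → ℝ)) :
    inc f e (rotp θ q) = f (rotp (θ + e) q).1 - f (rotp θ q).1 := by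
  unfold inc
  congr 2
  funext i
  simp [rotp, Real.cos_add, Real.sin_add]
  ring

lemma integrable_exp_sub (hf : ∀ x y, |f x - f y| ≤ L * nrm (x - y)) (t : ℝ) :
    Integrable (fun q : (κ → ℝ) × (κ → ℝ) => Real.exp (t * (f q.2 - f q.1)))
      ((gv κ).prod (gv κ)) := by
  have := lip_continuous hf
  refine (integrable_exp_nrm_add (|t| * |L|)).mono'
    (by fun_prop : Continuous _).aestronglyMeasurable (Eventually.of_forall fun q => ?_)
  rw [Real.norm_eq_abs, abs_of_pos (Real.exp_pos _)]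
  refine Real.exp_le_exp.2 ((le_abs_self _).trans ?_)
  rw [abs_mul, mul_assoc]
  refine mul_le_mul_of_nonneg_left ((lip_abs hf _ _).trans ?_) (abs_nonneg _)
  refine mul_le_mul_of_nonneg_left ((nrm_sub_le _ _).trans (add_comm _ _).le) (abs_nonneg _)

lemma integral_le_inc (hf : ∀ x y, |f x - f y| ≤ L * nrm (x - y)) (t : ℝ) (N : ℕ) :
    ∫ q, Real.exp (t * (f q.2 - f q.1)) ∂((gv κ).prod (gv κ)) ≤
      ∫ q, Real.exp (t * (Real.pi / 2) * ((Real.pi / 2 / (N + 1))⁻¹ *
        inc f (Real.pi / 2 / (N + 1)) q)) ∂((gv κ).prod (gv κ)) := by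
  set e : ℝ := Real.pi / 2 / (N + 1) with he
  have hN : (0 : ℝ) < N + 1 := by positivity
  have h0 : 0 < e := by have := Real.pi_pos; positivity
  have h2 : e ≤ 2 := by
    rw [he, div_le_iff₀ hN]
    nlinarith [Real.pi_le_four, (Nat.cast_nonneg N : (0 : ℝ) ≤ N)]
  set g : (κ → ℝ) × (κ → ℝ) → ℝ := fun q => Real.exp (t * (Real.pi / 2) * (e⁻¹ * inc f e q))
  have hg : Integrable g ((gv κ).prod (gv κ)) := integrable_exp_inc hf _ h0 h2
  have hk : ∀ k : ℕ, Integrable (fun q => g (rotp (k * e) q)) ((gv κ).prod (gv κ)) := fun k =>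
    (mp_rotp _).integrable_comp_of_integrable hg
  have hI : ∀ k : ℕ, ∫ q, g (rotp (k * e) q) ∂((gv κ).prod (gv κ)) =
      ∫ q, g q ∂((gv κ).prod (gv κ)) := fun k => by
    have h := mp_rotp (κ := κ) (k * e)
    rw [← integral_map h.measurable.aemeasurable (by rw [h.map_eq]; exact hg.1), h.map_eq]
  have hp : ∀ q : (κ → ℝ) × (κ → ℝ), Real.exp (t * (f q.2 - f q.1)) ≤
      ∑ k ∈ range (N + 1), ((N : ℝ) + 1)⁻¹ * g (rotp (k * e) q) := fun q => by
    have h3 := convexOn_exp.map_sum_le (t := range (N + 1)) (w := fun _ => ((N : ℝ) + 1)⁻¹)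
      (p := fun k : ℕ => t * (Real.pi / 2) * (e⁻¹ * inc f e (rotp (k * e) q)))
      (fun _ _ => by positivity) (by simp; field_simp) (fun _ _ => Set.mem_univ _)
    refine le_of_eq_of_le ?_ h3
    congr 1
    have h4 : ∀ k : ℕ, ((N : ℝ) + 1)⁻¹ • (t * (Real.pi / 2) * (e⁻¹ * inc f e (rotp (k * e) q))) =
        t * (f (rotp ((k + 1 : ℕ) * e) q).1 - f (rotp (k * e) q).1) := fun k => by
      rw [inc_rotp, show ((k + 1 : ℕ) : ℝ) * e = k * e + e by push_cast; ring, smul_eq_mul]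
      have : Real.pi / 2 = e * (N + 1) := by rw [he]; field_simp
      rw [this]
      field_simp
    simp only [h4]
    rw [← Finset.mul_sum, Finset.sum_range_sub fun k : ℕ => f (rotp (k * e) q).1]
    have h5 : ((N + 1 : ℕ) : ℝ) * e = Real.pi / 2 := by rw [he]; push_cast; field_simp
    rw [h5]
    simp [rotp]
  calc _ ≤ ∫ q, ∑ k ∈ range (N + 1), ((N : ℝ) + 1)⁻¹ * g (rotp (k * e) q) ∂((gv κ).prod (gv κ)) :=
        integral_mono (integrable_exp_sub hf t)
          (integrable_finsetSum _ fun k _ => (hk k).const_mul _) hp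
    _ = _ := by
        rw [integral_finsetSum _ fun k _ => (hk k).const_mul _]
        simp only [integral_const_mul, hI]
        simp
        field_simp

lemma integral_exp_sub_le (hf : ∀ x y, |f x - f y| ≤ L * nrm (x - y)) (t : ℝ) :
    ∫ q, Real.exp (t * (f q.2 - f q.1)) ∂((gv κ).prod (gv κ)) ≤ Real.exp (2 * t ^ 2 * L ^ 2) := by
  have h1 : Tendsto (fun N : ℕ => Real.pi / 2 / (N + 1)) atTop (𝓝[>] 0) := by
    refine tendsto_nhdsWithin_iff.2 ⟨?_, Eventually.of_forall fun N => ?_⟩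
    · simpa [div_eq_mul_inv] using
        (tendsto_one_div_add_atTop_nhds_zero_nat (𝕜 := ℝ)).const_mul (Real.pi / 2)
    · have := Real.pi_pos
      exact (by positivity : (0 : ℝ) < Real.pi / 2 / (N + 1))
  have h2 := ge_of_tendsto' ((tendsto_integral_inc hf (t * (Real.pi / 2))).comp h1)
    (integral_le_inc hf t)
  refine h2.trans ((integral_exp_fderiv_le hf _).trans (Real.exp_le_exp.2 ?_))
  have h3 : Real.pi ^ 2 ≤ 16 := by nlinarith [Real.pi_le_four, Real.pi_pos]
  nlinarith [mul_le_mul_of_nonneg_left h3 (mul_nonneg (sq_nonneg t) (sq_nonneg L))]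

end lip

end Pool.Agent.Work.MP_6a50bc_pr
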