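import Mathlib

/-!
Shared definitions for the minimal nuclear norm ellipsoid fitting problem.
Points are indexed by `ι`, coordinates by `κ`; all Gaussians are standard.
-/

namespace Pool.Agent.Work.MP_6a50bc_pr

open MeasureTheory ProbabilityTheory Matrix

variable {ι κ m n : Type*}

/-- The standard Gaussian measure on `κ → ℝ`. -/
noncomputable def gv (κ : Type*) [Fintype κ] : Measure (κ → ℝ) :=
  Measure.pi fun _ => gaussianReal 0 1

/-- Independent standard Gaussian vectors indexed by `ι`. -/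
noncomputable def gm (ι κ : Type*) [Fintype ι] [Fintype κ] : Measure (ι → κ → ℝ) :=
  Measure.pi fun _ => gv κ

instance [Fintype κ] : IsProbabilityMeasure (gv κ) := by unfold gv; infer_instance

instance [Fintype ι] [Fintype κ] : IsProbabilityMeasure (gm ι κ) := by unfold gm; infer_instance

/-- Euclidean norm. -/
noncomputable def nrm [Fintype κ] (v : κ → ℝ) : ℝ := √(v ⬝ᵥ v)

/-- Frobenius inner product. -/
def ip [Fintype m] [Fintype n] (A B : Matrix m n ℝ) : ℝ := ∑ i, ∑ j, A i j * B i j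

/-- Frobenius norm. -/
noncomputable def fro [Fintype m] [Fintype n] (A : Matrix m n ℝ) : ℝ := √(ip A A)

/-- Operator norm. -/
noncomputable def opn [Fintype m] [Fintype n] [DecidableEq n] (A : Matrix m n ℝ) : ℝ :=
  ‖LinearMap.toContinuousLinearMap (Matrix.toEuclideanLin A)‖

/-- The quadratic form of `S`. -/
def qf [Fintype κ] (S : Matrix κ κ ℝ) (g : κ → ℝ) : ℝ := g ⬝ᵥ S *ᵥ g

/-- The centred quadratic form of `S`. -/
def cq [Fintype κ] (S : Matrix κ κ ℝ) (g : κ → ℝ) : ℝ := qf S g - S.trace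

/-- `U` has orthonormal columns. -/
def Orth [Fintype m] [DecidableEq n] (U : Matrix m n ℝ) : Prop := Uᵀ * U = 1

/-- The symmetric matrix with eigenvector columns `U` and eigenvalues `l`. -/
def spec [Fintype n] [DecidableEq n] (U : Matrix m n ℝ) (l : n → ℝ) : Matrix m m ℝ :=
  U * diagonal l * Uᵀ

variable [Fintype ι] [Fintype κ] [DecidableEq κ]

open Classical in
/-- Positive part of a symmetric matrix. -/
noncomputable def pos (S : Matrix κ κ ℝ) : Matrix κ κ ℝ :=
  if h : S.IsHermitian then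
    spec (h.eigenvectorUnitary : Matrix κ κ ℝ) fun j => max (h.eigenvalues j) 0
  else 0

/-- Nuclear norm of a symmetric matrix. -/
noncomputable def nuc (S : Matrix κ κ ℝ) : ℝ := (pos S).trace + (pos (-S)).trace

/-- The matrix `∑ yᵢ gᵢ gᵢᵀ`. -/
def gram (y : ι → ℝ) (g : ι → κ → ℝ) : Matrix κ κ ℝ := ∑ i, y i • vecMulVec (g i) (g i)

/-- The symmetric part of a square array, shifted by `-τ`. -/
noncomputable def goe (τ : ℝ) (B : κ → κ → ℝ) : Matrix κ κ ℝ :=
  (1 / 2 : ℝ) • (Matrix.of B + (Matrix.of B)ᵀ) - τ • (1 : Matrix κ κ ℝ)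

/-- The system `gᵢᵀ S gᵢ = b` is solvable and all its minimal nuclear norm solutions are positive
semidefinite. -/
def Fit (b : ℝ) (g : ι → κ → ℝ) : Prop :=
  (∃ S : Matrix κ κ ℝ, S.IsHermitian ∧ ∀ i, qf S (g i) = b) ∧
    ∀ S : Matrix κ κ ℝ, S.IsHermitian → (∀ i, qf S (g i) = b) →
      (∀ T : Matrix κ κ ℝ, T.IsHermitian → (∀ i, qf T (g i) = b) → nuc S ≤ nuc T) → S.PosSemidef

/-- The penalty `hi * r₊ + lo * r₋`. -/
def pen (lo hi r : ℝ) : ℝ := max (hi * r) (-lo * r)

/-- The penalised objective, using the points indexed by `I`. -/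
noncomputable def obj (b lo hi : ℝ) (I : Finset ι) (g : ι → κ → ℝ) (S : Matrix κ κ ℝ) : ℝ :=
  nuc S + ∑ i ∈ I, pen lo hi (b - qf S (g i))

/-- `S` minimises the penalised objective among symmetric matrices. -/
def IsMin (b lo hi : ℝ) (I : Finset ι) (g : ι → κ → ℝ) (S : Matrix κ κ ℝ) : Prop :=
  S.IsHermitian ∧ ∀ S' : Matrix κ κ ℝ, S'.IsHermitian → obj b lo hi I g S ≤ obj b lo hi I g S'

/-- Feasible points of the dual problem. -/
def DualFeas (lo hi : ℝ) (g : ι → κ → ℝ) (y : ι → ℝ) : Prop :=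
  (∀ i, -lo ≤ y i ∧ y i ≤ hi) ∧ ∀ v, |qf (gram y g) v| ≤ v ⬝ᵥ v

/-- Optimal points of the dual problem. -/
def DualOpt (b lo hi : ℝ) (g : ι → κ → ℝ) (y : ι → ℝ) : Prop :=
  DualFeas lo hi g y ∧
    ∃ S : Matrix κ κ ℝ, S.IsHermitian ∧ obj b lo hi Finset.univ g S ≤ b * ∑ i, y i

/-- Resampling: keep `P i (x i)` and refresh the complementary component. -/
def mix (P : ι → Matrix κ κ ℝ) (x x' : ι → κ → ℝ) : ι → κ → ℝ :=
  fun i => P i *ᵥ x i + (1 - P i) *ᵥ x' i

/-- The min-max value of a finite array. -/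
noncomputable def mm {I J : Type*} (z : I → J → ℝ) : ℝ := ⨅ i, ⨆ j, z i j

/-- Expected trace of the positive part of the shifted symmetric Gaussian matrix. -/
noncomputable def mu1 (κ : Type*) [Fintype κ] [DecidableEq κ] (τ : ℝ) : ℝ :=
  ∫ B, (pos (goe τ B)).trace ∂(gm κ κ)

/-- Expected squared Frobenius norm of that positive part. -/
noncomputable def mu2 (κ : Type*) [Fintype κ] [DecidableEq κ] (τ : ℝ) : ℝ :=
  ∫ B, fro (pos (goe τ B)) ^ 2 ∂(gm κ κ)

end Pool.Agent.Work.MP_6a50bc_pr
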