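import Pool.Agent.Work.MP_6a50bc_pr.Spec

/-! Invariance properties of the standard Gaussian measure, resampling, integrability. -/

namespace Pool.Agent.Work.MP_6a50bc_pr

open MeasureTheory ProbabilityTheory Matrix Finset
open scoped ENNReal

variable {ι ι' κ m n : Type*} [Fintype ι] [Fintype ι'] [Fintype κ] [Fintype m] [Fintype n]

lemma measurable_mulVec (A : Matrix m n ℝ) : Measurable fun x : n → ℝ => A *ᵥ x :=
  (by fun_prop : Continuous fun x : n → ℝ => A *ᵥ x).measurable

lemma mp_mulVec [DecidableEq m] {A : Matrix m n ℝ} (hA : A * Aᵀ = 1) :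
    MeasurePreserving (fun x => A *ᵥ x) (gv n) (gv m) := by
  refine ⟨measurable_mulVec A, ?_⟩
  have h1 : ∀ μ ν : Measure (m → ℝ), μ.map (WithLp.toLp 2) = ν.map (WithLp.toLp 2) → μ = ν :=
    fun μ ν h => (MeasurableEquiv.toLp 2 (m → ℝ)).map_measurableEquiv_injective h
  have : IsProbabilityMeasure ((gv n).map fun x => A *ᵥ x) :=
    Measure.isProbabilityMeasure_map (measurable_mulVec A).aemeasurable
  refine h1 _ _ ?_
  have : IsProbabilityMeasure (((gv n).map fun x => A *ᵥ x).map (WithLp.toLp 2)) :=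
    Measure.isProbabilityMeasure_map (by fun_prop)
  rw [show gv m = Measure.pi fun _ => gaussianReal 0 1 from rfl, map_pi_eq_stdGaussian]
  apply Measure.ext_of_charFun
  ext t
  have h2 := charFun_stdGaussian (WithLp.toLp 2 (Aᵀ *ᵥ t.ofLp) : EuclideanSpace ℝ n)
  rw [← map_pi_eq_stdGaussian, charFun_apply, integral_map (by fun_prop) (by fun_prop)] at h2
  rw [charFun_stdGaussian, charFun_apply, integral_map (by fun_prop) (by fun_prop),
    integral_map (measurable_mulVec A).aemeasurable (by fun_prop)]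
  have h3 : ‖(WithLp.toLp 2 (Aᵀ *ᵥ t.ofLp) : EuclideanSpace ℝ n)‖ = ‖t‖ := by
    classical
    rw [← nrm_eq_norm, Orth.nrm_mulVec (U := Aᵀ) hA, nrm_eq_norm]
  rw [← h3, ← h2]
  refine integral_congr_ae (Filter.Eventually.of_forall fun x => ?_)
  have h4 : inner ℝ (WithLp.toLp 2 (A *ᵥ x) : EuclideanSpace ℝ m) t =
      inner ℝ (WithLp.toLp 2 x : EuclideanSpace ℝ n) (WithLp.toLp 2 (Aᵀ *ᵥ t.ofLp)) := by
    rw [← dot_eq_inner, ← dot_eq_inner, dotProduct_mulVec, vecMul_transpose]
  simp only [h4]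

lemma mp_eval_gv (a : κ) : MeasurePreserving (fun x : κ → ℝ => x a) (gv κ) (gaussianReal 0 1) :=
  measurePreserving_eval _ a

lemma mp_eval (i : ι) : MeasurePreserving (fun x : ι → κ → ℝ => x i) (gm ι κ) (gv κ) :=
  measurePreserving_eval _ i

lemma mp_dot {a : κ → ℝ} (ha : a ⬝ᵥ a = 1) :
    MeasurePreserving (fun x => a ⬝ᵥ x) (gv κ) (gaussianReal 0 1) :=
  (mp_eval_gv ()).comp (mp_mulVec (A := Matrix.of fun (_ : Unit) => a) (by
    ext i j; simpa [mul_apply, dotProduct] using ha))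

lemma mp_curry :
    MeasurePreserving (fun (ω : ι × κ → ℝ) (i : ι) (a : κ) => ω (i, a)) (gv (ι × κ)) (gm ι κ) := by
  refine ⟨by fun_prop, ?_⟩
  have h := Measure.infinitePi_map_curry (fun (_ : ι) (_ : κ) => (gaussianReal 0 1 : Measure ℝ))
  simp only [Measure.infinitePi_eq_pi] at h
  exact h

lemma mp_uncurry :
    MeasurePreserving (fun (x : ι → κ → ℝ) (q : ι × κ) => x q.1 q.2) (gm ι κ) (gv (ι × κ)) := by
  refine ⟨by fun_prop, ?_⟩
  have h := Measure.infinitePi_map_curry_symm
    (fun (_ : ι) (_ : κ) => (gaussianReal 0 1 : Measure ℝ))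
  simp only [Measure.infinitePi_eq_pi] at h
  exact h

/-- Restriction to a subfamily of coordinates. -/
lemma mp_comp_gv {e : m → n} (he : Function.Injective e) :
    MeasurePreserving (fun (x : n → ℝ) (i : m) => x (e i)) (gv n) (gv m) := by
  classical
  have h := mp_mulVec (A := Matrix.of fun (i : m) (j : n) => if e i = j then (1 : ℝ) else 0) (by
    ext i j
    simp [mul_apply, one_apply, he.eq_iff, eq_comm])
  convert h using 2 with x
  funext i
  simp [mulVec, dotProduct]

lemma mp_transpose :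
    MeasurePreserving (fun (x : ι → κ → ℝ) (a : κ) (i : ι) => x i a) (gm ι κ) (gm κ ι) :=
  mp_curry.comp ((mp_comp_gv (e := fun q : κ × ι => (q.2, q.1)) Prod.swap_injective).comp
    mp_uncurry)

/-- The same coisometry applied to every point. -/
lemma mp_rows [DecidableEq m] {A : Matrix m n ℝ} (hA : A * Aᵀ = 1) :
    MeasurePreserving (fun (x : ι → n → ℝ) (i : ι) => A *ᵥ x i) (gm ι n) (gm ι m) :=
  measurePreserving_pi _ _ fun _ => mp_mulVec hA

/-- A coisometry mixing the points. -/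
lemma mp_left [DecidableEq ι'] {Q : Matrix ι' ι ℝ} (hQ : Q * Qᵀ = 1) :
    MeasurePreserving (fun (x : ι → κ → ℝ) (i : ι') (a : κ) => (Q * Matrix.of x) i a)
      (gm ι κ) (gm ι' κ) :=
  mp_transpose.comp ((mp_rows (ι := κ) hQ).comp mp_transpose)

/-- Restriction to a subfamily of points. -/
lemma mp_comp {e : ι' → ι} (he : Function.Injective e) :
    MeasurePreserving (fun (x : ι → κ → ℝ) (i : ι') => x (e i)) (gm ι κ) (gm ι' κ) :=
  mp_transpose.comp ((measurePreserving_pi _ _ fun _ : κ => mp_comp_gv he).comp mp_transpose)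

/-- Restriction to a subfamily of coordinates of every point. -/
lemma mp_comp_col {e : m → n} (he : Function.Injective e) :
    MeasurePreserving (fun (x : ι → n → ℝ) (i : ι) (a : m) => x i (e a)) (gm ι n) (gm ι m) :=
  measurePreserving_pi _ _ fun _ => mp_comp_gv he

lemma mp_neg_gv : MeasurePreserving (fun x : κ → ℝ => -x) (gv κ) (gv κ) := by
  classical
  have h := mp_mulVec (A := (-1 : Matrix κ κ ℝ)) (by simp)
  simpa [neg_mulVec] using h

lemma mp_neg : MeasurePreserving (fun x : ι → κ → ℝ => -x) (gm ι κ) (gm ι κ) :=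
  measurePreserving_pi _ _ fun _ => mp_neg_gv

lemma mp_sum : MeasurePreserving
    (fun ω : m ⊕ n → ℝ => ((fun i => ω (Sum.inl i)), fun j => ω (Sum.inr j)))
    (gv (m ⊕ n)) ((gv m).prod (gv n)) :=
  measurePreserving_sumPiEquivProdPi (X := fun _ : m ⊕ n => ℝ) fun _ => gaussianReal 0 1

lemma mp_sum_symm : MeasurePreserving (fun q : (m → ℝ) × (n → ℝ) => Sum.elim q.1 q.2)
    ((gv m).prod (gv n)) (gv (m ⊕ n)) := by
  have h := measurePreserving_sumPiEquivProdPi_symm (X := fun _ : m ⊕ n => ℝ)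
    fun _ => gaussianReal 0 1
  have e : (fun q : (m → ℝ) × (n → ℝ) => Sum.elim q.1 q.2) =
      (MeasurableEquiv.sumPiEquivProdPi fun _ : m ⊕ n => ℝ).symm := by
    funext q i; cases i <;> rfl
  rw [e]
  exact h

lemma mp_add_mulVec {p : Type*} [Fintype p] [DecidableEq p] {A : Matrix p m ℝ} {B : Matrix p n ℝ}
    (h : A * Aᵀ + B * Bᵀ = 1) :
    MeasurePreserving (fun q : (m → ℝ) × (n → ℝ) => A *ᵥ q.1 + B *ᵥ q.2)
      ((gv m).prod (gv n)) (gv p) := by
  have h1 := (mp_mulVec (A := fromCols A B) (by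
    rw [transpose_fromCols, fromCols_mul_fromRows, h])).comp (mp_sum_symm (m := m) (n := n))
  convert h1 using 2 with q
  simp

/-- Rotation of a pair of independent Gaussian vectors. -/
lemma mp_rot {a b : ℝ} (h : a ^ 2 + b ^ 2 = 1) :
    MeasurePreserving
      (fun q : (κ → ℝ) × (κ → ℝ) => (a • q.1 + b • q.2, (-b) • q.1 + a • q.2))
      ((gv κ).prod (gv κ)) ((gv κ).prod (gv κ)) := by
  classical
  have h1 := (mp_sum (m := κ) (n := κ)).comp ((mp_mulVec
    (A := fromBlocks (a • (1 : Matrix κ κ ℝ)) (b • 1) ((-b) • 1) (a • 1)) (by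
      rw [fromBlocks_transpose, fromBlocks_multiply, ← fromBlocks_one]
      simp only [transpose_smul, transpose_one, smul_mul_smul_comm, Matrix.mul_one, ← add_smul]
      congr 1
      · rw [show a * a + b * b = 1 by linarith, one_smul]
      · rw [show a * -b + b * a = 0 by ring, zero_smul]
      · rw [show -b * a + a * b = 0 by ring, zero_smul]
      · rw [show -b * -b + a * a = 1 by linarith, one_smul])).comp (mp_sum_symm (m := κ) (n := κ)))
  convert h1 using 2 with q
  simp [fromBlocks_mulVec, smul_mulVec, neg_mulVec, Function.comp_def]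
  constructor <;> rfl

lemma mp_pair : MeasurePreserving
    (fun (q : (ι → m → ℝ) × (ι → n → ℝ)) (i : ι) => (q.1 i, q.2 i))
    ((gm ι m).prod (gm ι n)) (Measure.pi fun _ : ι => (gv m).prod (gv n)) :=
  (measurePreserving_arrowProdEquivProdArrow (m → ℝ) (n → ℝ) ι (fun _ => gv m)
    (fun _ => gv n)).symm

lemma mp_comb {a b : ℝ} (h : a ^ 2 + b ^ 2 = 1) :
    MeasurePreserving (fun q : (ι → κ → ℝ) × (ι → κ → ℝ) => a • q.1 + b • q.2)
      ((gm ι κ).prod (gm ι κ)) (gm ι κ) :=
  (measurePreserving_pi _ _ fun _ : ι => measurePreserving_fst.comp (mp_rot (κ := κ) h)).comp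
    mp_pair

lemma mp_mix [DecidableEq κ] {P : ι → Matrix κ κ ℝ} (hP : ∀ i, (P i)ᵀ = P i)
    (hP2 : ∀ i, P i * P i = P i) :
    MeasurePreserving (fun q : (ι → κ → ℝ) × (ι → κ → ℝ) => mix P q.1 q.2)
      ((gm ι κ).prod (gm ι κ)) (gm ι κ) :=
  (measurePreserving_pi _ _ fun i : ι => mp_add_mulVec (A := P i) (B := 1 - P i) (by
    rw [transpose_sub, transpose_one, hP, Matrix.sub_mul, Matrix.mul_sub, Matrix.mul_sub, hP2]
    simp)).comp mp_pair

/-- Fubini bound through a measure preserving map from a product. -/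
lemma measure_le_of_prod {α β γ : Type*} [MeasurableSpace α] [MeasurableSpace β]
    [MeasurableSpace γ] {μ : Measure α} {ν : Measure β} {ρ : Measure γ} [IsProbabilityMeasure μ]
    [SFinite ν] {f : α × β → γ} (hf : MeasurePreserving f (μ.prod ν) ρ) {B : Set γ}
    (hB : MeasurableSet B) (G : Set α) {p : ℝ≥0∞} (h : ∀ x ∈ G, ν {y | f (x, y) ∈ B} ≤ p)
    (hν : ν Set.univ ≤ 1) : ρ B ≤ p + μ Gᶜ := by
  rw [← hf.measure_preimage hB.nullMeasurableSet, Measure.prod_apply (hf.measurable hB)]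
  calc ∫⁻ x, ν (Prod.mk x ⁻¹' (f ⁻¹' B)) ∂μ
      ≤ ∫⁻ x, (p + (toMeasurable μ Gᶜ).indicator 1 x) ∂μ := by
        refine lintegral_mono fun x => ?_
        by_cases hx : x ∈ G
        · exact (h x hx).trans le_self_add
        · rw [Set.indicator_of_mem (subset_toMeasurable μ Gᶜ hx)]
          exact ((measure_mono (Set.subset_univ _)).trans hν).trans le_add_self
    _ = p + μ Gᶜ := by
        rw [lintegral_add_left measurable_const, lintegral_const, measure_univ, mul_one,
          lintegral_indicator_one (measurableSet_toMeasurable _ _), measure_toMeasurable]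

/-- Conditioning on the components `P i (x i)`. -/
lemma resample_le [DecidableEq κ] {P : ι → Matrix κ κ ℝ} (hP : ∀ i, (P i)ᵀ = P i)
    (hP2 : ∀ i, P i * P i = P i) {B : Set (ι → κ → ℝ)} (hB : MeasurableSet B)
    (G : Set (ι → κ → ℝ)) {p : ℝ≥0∞} (h : ∀ x ∈ G, gm ι κ {x' | mix P x x' ∈ B} ≤ p) :
    gm ι κ B ≤ p + gm ι κ Gᶜ :=
  measure_le_of_prod (mp_mix hP hP2) hB G h measure_univ.le

lemma mp_update [DecidableEq ι] (i : ι) :
    MeasurePreserving (fun q : (ι → κ → ℝ) × (κ → ℝ) => Function.update q.1 i q.2)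
      ((gm ι κ).prod (gv κ)) (gm ι κ) := by
  classical
  have h := mp_mix (ι := ι) (P := fun j => if j = i then (0 : Matrix κ κ ℝ) else 1)
    (fun j => by split_ifs <;> simp) (fun j => by split_ifs <;> simp)
  have h2 := (MeasurePreserving.id (gm ι κ)).prod (mp_eval (κ := κ) i)
  have hm : Measurable fun q : (ι → κ → ℝ) × (κ → ℝ) => Function.update q.1 i q.2 :=
    measurable_update'
  refine ⟨hm, ?_⟩
  rw [← h2.map_eq, Measure.map_map hm h2.measurable]
  refine Eq.trans ?_ h.map_eq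
  congr 1
  funext q j
  by_cases hj : j = i
  · subst hj; simp [mix]
  · simp [mix, hj]

/-- Conditioning on all points but one. -/
lemma section_le [DecidableEq ι] (i : ι) {B : Set (ι → κ → ℝ)} (hB : MeasurableSet B) {p : ℝ≥0∞}
    (h : ∀ x ∈ B, gv κ {g | Function.update x i g ∈ B} ≤ p) : gm ι κ B ≤ p := by
  have := measure_le_of_prod (mp_update i) hB Set.univ (p := p) (fun x _ => ?_) measure_univ.le
  · simpa using this
  · rcases Set.eq_empty_or_nonempty {g | Function.update x i g ∈ B} with h0 | ⟨g, hg⟩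
    · simp [h0]
    · simpa using h _ hg

/-- Union bound over leave-one-out events that are unlikely on a good set. -/
lemma union_loo_le [DecidableEq ι] {B : ι → Set (ι → κ → ℝ)} (hB : ∀ i, MeasurableSet (B i))
    (G : Set (ι → κ → ℝ)) {p : ℝ≥0∞}
    (h : ∀ i, ∀ x ∈ G, gv κ {g | Function.update x i g ∈ B i} ≤ p) :
    gm ι κ {x | ∃ i, x ∈ B i} ≤ gm ι κ Gᶜ + Fintype.card ι * p := by
  set H := toMeasurable (gm ι κ) Gᶜ
  have h1 : {x | ∃ i, x ∈ B i} ⊆ H ∪ ⋃ i, B i \ H := by
    rintro x ⟨i, hi⟩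
    by_cases hx : x ∈ H
    · exact Or.inl hx
    · exact Or.inr (Set.mem_iUnion.mpr ⟨i, hi, hx⟩)
  refine (measure_mono h1).trans ((measure_union_le _ _).trans ?_)
  rw [measure_toMeasurable]
  gcongr
  refine (measure_iUnion_fintype_le _ _).trans ?_
  rw [← nsmul_eq_mul, ← card_univ, ← sum_const]
  refine sum_le_sum fun i _ => section_le i ((hB i).diff (measurableSet_toMeasurable _ _))
    fun x hx => le_trans (measure_mono fun g hg => hg.1) (h i x ?_)
  by_contra hG
  exact hx.2 (subset_toMeasurable _ _ hG)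

lemma integrable_nrm_pow (k : ℕ) : Integrable (fun x : κ → ℝ => nrm x ^ k) (gv κ) := by
  have h1 : MemLp id k (stdGaussian (EuclideanSpace ℝ κ)) := IsGaussian.memLp_id _ _ (by simp)
  have h2 := h1.integrable_norm_pow'
  rw [← map_pi_eq_stdGaussian, integrable_map_measure (by fun_prop) (by fun_prop)] at h2
  simp only [nrm_eq_norm]
  exact h2

lemma integrable_one_add_nrm_pow (k : ℕ) :
    Integrable (fun x : κ → ℝ => (1 + nrm x) ^ k) (gv κ) := by
  simp only [add_pow, one_pow, one_mul]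
  exact integrable_finsetSum _ fun j _ => (integrable_nrm_pow _).mul_const _

/-- Functions of polynomial growth are integrable. -/
lemma integrable_of_le_pow {f : (κ → ℝ) → ℝ} (hf : AEStronglyMeasurable f (gv κ)) (C : ℝ) (k : ℕ)
    (h : ∀ x, |f x| ≤ C * (1 + nrm x) ^ k) : Integrable f (gv κ) :=
  ((integrable_one_add_nrm_pow k).const_mul C).mono' hf (Filter.Eventually.of_forall h)

lemma integrable_gm_of_le_pow {f : (ι → κ → ℝ) → ℝ} (hf : AEStronglyMeasurable f (gm ι κ)) (C : ℝ)
    (k : ℕ) (h : ∀ x, |f x| ≤ C * (1 + fro (Matrix.of x)) ^ k) : Integrable f (gm ι κ) := by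
  have h1 := (mp_uncurry (ι := ι) (κ := κ)).integrable_comp_of_integrable
    ((integrable_one_add_nrm_pow k).const_mul C)
  exact h1.mono' hf (Filter.Eventually.of_forall fun x => by
    have := h x
    rwa [fro_eq_nrm] at this)

/-- Markov inequality in the form used throughout. -/
lemma measure_ge_le {α : Type*} [MeasurableSpace α] {μ : Measure α} [IsFiniteMeasure μ]
    {f : α → ℝ} (hf : Integrable f μ) (h0 : ∀ x, 0 ≤ f x) {c : ℝ} (hc : 0 < c) :
    μ {x | c ≤ f x} ≤ ENNReal.ofReal ((∫ x, f x ∂μ) / c) := by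
  have h := mul_meas_ge_le_integral_of_nonneg (Filter.Eventually.of_forall h0) hf c
  rw [← ENNReal.ofReal_toReal (measure_ne_top μ _)]
  refine ENNReal.ofReal_le_ofReal ?_
  rw [le_div_iff₀ hc, mul_comm]
  exact h

end Pool.Agent.Work.MP_6a50bc_pr
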