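import Pool.Agent.Work.MP_6a50bc_pr.Compare

namespace Pool.Agent.Work.MP_6a50bc_pr

open MeasureTheory ProbabilityTheory Matrix Finset
open scoped ENNReal

variable {ι κ : Type*} [Fintype ι] [DecidableEq ι] [Fintype κ] [DecidableEq κ]

lemma PG.lin {N : Type*} [Fintype N] (v : N → ℝ) : PG fun x => v ⬝ᵥ x :=
  PG.dot (fun _ => PG.const _) PG.coord

lemma integral_abs_coord_le {N : Type*} [Fintype N] (a : N) : ∫ x, |x a| ∂(gv N) ≤ 1 := by
  classical
  have h := ibp_coord (Grad.dot (Pi.single a (1 : ℝ))) (PG.dot (fun _ => PG.const _) PG.coord) a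
    (PG.const _)
  simp only [single_dotProduct, one_mul, Pi.single_eq_same, integral_const, probReal_univ,
    one_smul] at h
  have h2 : ∫ x, |x a| ∂(gv N) ≤ ∫ x, (1 / 2 * (x a * x a) + 1 / 2) ∂(gv N) :=
    integral_mono (PG.coord a).abs.integrable
      (((PG.const _).mul ((PG.coord a).mul (PG.coord a))).add (PG.const _)).integrable fun x => by
        have := sq_nonneg (|x a| - 1)
        have := abs_mul_abs_self (x a)
        nlinarith
  rw [integral_add ((PG.const _).mul ((PG.coord a).mul (PG.coord a))).integrable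
    (integrable_const _), integral_const_mul, h, integral_const, probReal_univ, one_smul] at h2
  linarith

lemma integral_comp_mp {α β : Type*} [MeasurableSpace α] [MeasurableSpace β] {μ : Measure α}
    {ν : Measure β} {f : α → β} (hf : MeasurePreserving f μ ν) {g : β → ℝ}
    (hg : AEStronglyMeasurable g ν) : ∫ x, g (f x) ∂μ = ∫ y, g y ∂ν := by
  rw [← hf.map_eq] at hg ⊢
  rw [integral_map hf.measurable.aemeasurable hg]

/-- Gordon's comparison inequality, with a rank one allowance `e`. -/
theorem gordon {I J N N' : Type*} [Fintype I] [Fintype J] [Nonempty I] [Nonempty J] [Fintype N]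
    [Fintype N'] (a : I → J → N → ℝ) (c : I → J → N' → ℝ) (e b : I → J → ℝ) {E : ℝ}
    (hE : ∀ i j, |e i j| ≤ E)
    (h1 : ∀ i j i' j', c i j ⬝ᵥ c i' j' ≤ a i j ⬝ᵥ a i' j' + e i j * e i' j')
    (h2 : ∀ i j j', c i j ⬝ᵥ c i j' = a i j ⬝ᵥ a i j' + e i j * e i j') :
    ∫ ω, mm (fun i j => c i j ⬝ᵥ ω + b i j) ∂(gv N') ≤
      ∫ ω, mm (fun i j => a i j ⬝ᵥ ω + b i j) ∂(gv N) + E := by
  have pa := PG.mm fun i j => (PG.lin (a i j)).add (PG.const (b i j))
  have pc := PG.mm fun i j => (PG.lin (c i j)).add (PG.const (b i j))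
  have m1 := mp_comp_gv (e := (Sum.inl ∘ Sum.inl : N → (N ⊕ Unit) ⊕ N'))
    (Sum.inl_injective.comp Sum.inl_injective)
  have m2 := mp_comp_gv (e := (Sum.inr : N' → (N ⊕ Unit) ⊕ N')) Sum.inr_injective
  refine le_of_forall_pos_le_add fun δ hδ => ?_
  have hL : 0 ≤ Real.log (Fintype.card I) + Real.log (Fintype.card J) := by positivity
  have h := compare (N := (N ⊕ Unit) ⊕ N') (β := (Real.log (Fintype.card I) +
      Real.log (Fintype.card J) + 1) / δ) (by positivity) (M := fun _ _ => 0)
    (fun _ _ => isHermitian_zero) (a := fun i j => Sum.elim (Sum.elim (a i j) fun _ => e i j) 0)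
    (c := fun i j => Sum.elim 0 (c i j)) b (by simp) (by simp)
    (by simp [sumElim_dotProduct_sumElim])
    (by simpa [sumElim_dotProduct_sumElim, dotProduct] using h1)
    (by simpa [sumElim_dotProduct_sumElim, dotProduct] using h2) (W := fun _ => 0)
    (integrable_const _) (by simp)
  have h3 : (Real.log (Fintype.card I) + Real.log (Fintype.card J)) /
      ((Real.log (Fintype.card I) + Real.log (Fintype.card J) + 1) / δ) ≤ δ := by
    rw [div_div_eq_mul_div, div_le_iff₀ (by positivity)]
    nlinarith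
  have h4 := integral_mono (μ := gv ((N ⊕ Unit) ⊕ N'))
    (f := fun x => mm fun i j => cq 0 x +
      Sum.elim (Sum.elim (a i j) fun _ => e i j) 0 ⬝ᵥ x + b i j)
    (g := fun x => mm (fun i j => (a i j ⬝ᵥ fun k => x ((Sum.inl ∘ Sum.inl) k)) + b i j) +
      E * |x (Sum.inl (Sum.inr ()))|)
    (PG.mm fun i j => ((PG.cq _).add (PG.lin _)).add
      (PG.const _)).integrable
    ((m1.integrable_comp_of_integrable pa.integrable).add
      ((PG.const E).mul (PG.coord _).abs).integrable) fun x => mm_le_mm_add fun i j => by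
      have := (le_abs_self _).trans ((abs_mul _ _).trans_le
        (mul_le_mul_of_nonneg_right (hE i j) (abs_nonneg (x (Sum.inl (Sum.inr ()))))))
      simp [cq, dotProduct]
      linarith
  rw [integral_add (by exact m1.integrable_comp_of_integrable pa.integrable)
    ((PG.const E).mul (PG.coord _).abs).integrable, integral_const_mul,
    integral_comp_mp m1 pa.1.aestronglyMeasurable] at h4
  have h5 := integral_comp_mp m2 pc.1.aestronglyMeasurable
  have h6 : ∀ (x : (N ⊕ Unit) ⊕ N' → ℝ) i j,
      Sum.elim 0 (c i j) ⬝ᵥ x = c i j ⬝ᵥ fun k => x (Sum.inr k) := by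
    simp [dotProduct]
  simp only [h6, h5, integral_zero, mul_zero, add_zero] at h
  have hE0 : 0 ≤ E := (abs_nonneg _).trans (hE (Classical.arbitrary _) (Classical.arbitrary _))
  have := mul_le_mul_of_nonneg_left
    (integral_abs_coord_le (N := (N ⊕ Unit) ⊕ N') (Sum.inl (Sum.inr ()))) hE0
  linarith

end Pool.Agent.Work.MP_6a50bc_pr
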