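import Pool.Agent.Work.MP_6a50bc_pr.GBasic

/-! Gaussian integration by parts. -/

namespace Pool.Agent.Work.MP_6a50bc_pr

open MeasureTheory ProbabilityTheory Matrix Finset
open scoped ENNReal

variable {N P : Type*} [Fintype N] [Fintype P]

/-- Continuous functions of polynomial growth. -/
def PG (f : (N → ℝ) → ℝ) : Prop :=
  Continuous f ∧ ∃ (C : ℝ) (k : ℕ), 0 ≤ C ∧ ∀ x, |f x| ≤ C * (1 + nrm x) ^ k

lemma PG.integrable {f : (N → ℝ) → ℝ} (hf : PG f) : Integrable f (gv N) :=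
  let ⟨h, C, k, _, hb⟩ := hf
  integrable_of_le_pow h.aestronglyMeasurable C k hb

lemma PG.of_bdd {f : (N → ℝ) → ℝ} (hf : Continuous f) {C : ℝ} (h : ∀ x, |f x| ≤ C) : PG f :=
  ⟨hf, C, 0, (abs_nonneg _).trans (h 0), fun x => by simpa using h x⟩

lemma PG.const (c : ℝ) : PG fun _ : N → ℝ => c := PG.of_bdd continuous_const fun _ => le_rfl

lemma PG.coord (a : N) : PG fun x : N → ℝ => x a :=
  ⟨continuous_apply a, 1, 1, zero_le_one, fun x => by linarith [abs_le_nrm x a]⟩

lemma PG.add {f g : (N → ℝ) → ℝ} (hf : PG f) (hg : PG g) : PG fun x => f x + g x := by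
  obtain ⟨h1, C, k, hC, hb⟩ := hf
  obtain ⟨h2, C', k', hC', hb'⟩ := hg
  refine ⟨h1.add h2, C + C', k + k', by positivity, fun x => ?_⟩
  have h0 : 1 ≤ 1 + nrm x := by linarith [nrm_nonneg x]
  have h3 : (1 + nrm x) ^ k ≤ (1 + nrm x) ^ (k + k') := pow_le_pow_right₀ h0 (by omega)
  have h4 : (1 + nrm x) ^ k' ≤ (1 + nrm x) ^ (k + k') := pow_le_pow_right₀ h0 (by omega)
  have := abs_add_le (f x) (g x)
  nlinarith [hb x, hb' x, mul_le_mul_of_nonneg_left h3 hC, mul_le_mul_of_nonneg_left h4 hC']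

lemma PG.mul {f g : (N → ℝ) → ℝ} (hf : PG f) (hg : PG g) : PG fun x => f x * g x := by
  obtain ⟨h1, C, k, hC, hb⟩ := hf
  obtain ⟨h2, C', k', hC', hb'⟩ := hg
  refine ⟨h1.mul h2, C * C', k + k', by positivity, fun x => ?_⟩
  rw [abs_mul, pow_add, mul_mul_mul_comm]
  exact mul_le_mul (hb x) (hb' x) (abs_nonneg _) ((abs_nonneg _).trans (hb x))

lemma PG.sub {f g : (N → ℝ) → ℝ} (hf : PG f) (hg : PG g) : PG fun x => f x - g x := by
  simpa [sub_eq_add_neg] using hf.add ((PG.const (-1)).mul hg)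

lemma PG.abs {f : (N → ℝ) → ℝ} (hf : PG f) : PG fun x => |f x| :=
  let ⟨h, C, k, hC, hb⟩ := hf
  ⟨h.abs, C, k, hC, fun x => by simpa using hb x⟩

lemma PG.of_le {f g : (N → ℝ) → ℝ} (hf : Continuous f) (hg : PG g) (h : ∀ x, |f x| ≤ g x) :
    PG f :=
  let ⟨_, C, k, hC, hb⟩ := hg
  ⟨hf, C, k, hC, fun x => (h x).trans ((le_abs_self _).trans (hb x))⟩

lemma PG.sum {α : Type*} (s : Finset α) {f : α → (N → ℝ) → ℝ} (hf : ∀ a, PG (f a)) :
    PG fun x => ∑ a ∈ s, f a x := by
  classical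
  induction s using Finset.induction_on with
  | empty => simpa using PG.const 0
  | insert a s ha ih => simpa [sum_insert ha] using (hf a).add ih

lemma PG.dot {f g : (N → ℝ) → P → ℝ} (hf : ∀ p, PG fun x => f x p) (hg : ∀ p, PG fun x => g x p) :
    PG fun x => f x ⬝ᵥ g x := PG.sum _ fun p => (hf p).mul (hg p)

lemma PG.mulVec {Q : Type*} (M : Matrix Q P ℝ) {f : (N → ℝ) → P → ℝ} (hf : ∀ p, PG fun x => f x p)
    (q : Q) : PG fun x => (M *ᵥ f x) q := PG.dot (fun _ => PG.const _) hf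

lemma PG.qf (M : Matrix N N ℝ) : PG fun x => qf M x := PG.dot PG.coord (PG.mulVec M PG.coord)

lemma PG.cq (M : Matrix N N ℝ) : PG fun x => cq M x := (PG.qf M).sub (PG.const _)

/-- `g` is the gradient of `φ`, tested along differentiable paths. -/
def Grad (φ : (N → ℝ) → ℝ) (g : (N → ℝ) → N → ℝ) : Prop :=
  ∀ (x : ℝ → N → ℝ) (h : N → ℝ) (t : ℝ), (∀ a, HasDerivAt (fun s => x s a) (h a) t) →
    HasDerivAt (fun s => φ (x s)) (g (x t) ⬝ᵥ h) t

lemma Grad.congr {φ : (N → ℝ) → ℝ} {g g' : (N → ℝ) → N → ℝ} (h : Grad φ g) (e : ∀ x, g x = g' x) :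
    Grad φ g' := (funext e : g = g') ▸ h

lemma Grad.comp {G : (P → ℝ) → ℝ} {G' : (P → ℝ) → P → ℝ} (hG : Grad G G') {Z : (N → ℝ) → P → ℝ}
    {Z' : P → (N → ℝ) → N → ℝ} (hZ : ∀ p, Grad (fun x => Z x p) (Z' p)) :
    Grad (fun x => G (Z x)) fun x => ∑ p, G' (Z x) p • Z' p x := by
  intro x h t hx
  refine (hG (fun s => Z (x s)) (fun p => Z' p (x t) ⬝ᵥ h) t fun p => hZ p x h t hx).congr_deriv ?_
  symm
  simp [dotProduct, Finset.mul_sum, Finset.sum_mul, mul_assoc]
  exact Finset.sum_comm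

lemma Grad.mul {φ ψ : (N → ℝ) → ℝ} {g k : (N → ℝ) → N → ℝ} (hφ : Grad φ g) (hψ : Grad ψ k) :
    Grad (fun x => φ x * ψ x) fun x => ψ x • g x + φ x • k x := by
  intro x h t hx
  refine ((hφ x h t hx).fun_mul (hψ x h t hx)).congr_deriv ?_
  simp [add_dotProduct, smul_dotProduct, mul_comm]

lemma Grad.add {φ ψ : (N → ℝ) → ℝ} {g k : (N → ℝ) → N → ℝ} (hφ : Grad φ g) (hψ : Grad ψ k) :
    Grad (fun x => φ x + ψ x) fun x => g x + k x := by
  intro x h t hx
  refine ((hφ x h t hx).fun_add (hψ x h t hx)).congr_deriv ?_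
  simp [add_dotProduct]

lemma Grad.const (c : ℝ) : Grad (fun _ : N → ℝ => c) fun _ => 0 := by
  intro x h t _
  simpa using hasDerivAt_const t c

lemma Grad.const_mul {φ : (N → ℝ) → ℝ} {g : (N → ℝ) → N → ℝ} (hφ : Grad φ g) (c : ℝ) :
    Grad (fun x => c * φ x) fun x => c • g x := by
  simpa using (Grad.const c).mul hφ

lemma Grad.dot (v : N → ℝ) : Grad (fun x => v ⬝ᵥ x) fun _ => v := by
  intro x h t hx
  exact HasDerivAt.fun_sum fun a _ => (hx a).const_mul (v a)

lemma Grad.cq {M : Matrix N N ℝ} (hM : M.IsHermitian) :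
    Grad (fun x => cq M x) fun x => (2 : ℝ) • M *ᵥ x := by
  intro x h t hx
  have h1 : HasDerivAt (fun s => ∑ a, x s a * (M a ⬝ᵥ x s))
      (∑ a, (h a * (M a ⬝ᵥ x t) + x t a * (M a ⬝ᵥ h))) t :=
    HasDerivAt.fun_sum fun a _ => (hx a).mul (Grad.dot (M a) x h t hx)
  refine (h1.sub_const M.trace).congr_deriv ?_
  rw [sum_add_distrib, smul_dotProduct, dotProduct_comm, smul_eq_mul, two_mul]
  congr 1
  exact dot_mulVec_symm hM (x t) h

lemma ibp_real {ψ ψ' : ℝ → ℝ} (hd : ∀ t, HasDerivAt ψ (ψ' t) t)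
    (h0 : Integrable ψ (gaussianReal 0 1)) (h1 : Integrable ψ' (gaussianReal 0 1))
    (h2 : Integrable (fun t => t * ψ t) (gaussianReal 0 1)) :
    ∫ t, t * ψ t ∂(gaussianReal 0 1) = ∫ t, ψ' t ∂(gaussianReal 0 1) := by
  have key : ∀ f : ℝ → ℝ, Integrable f (gaussianReal 0 1) →
      Integrable fun t => f t * gaussianPDFReal 0 1 t := by
    intro f hf
    rw [gaussianReal_of_var_ne_zero 0 one_ne_zero, integrable_withDensity_iff_integrable_smul'
      (measurable_gaussianPDF _ _) (Filter.Eventually.of_forall fun _ => gaussianPDF_lt_top)] at hf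
    simpa [toReal_gaussianPDF, mul_comm] using hf
  have hv : ∀ t, HasDerivAt (gaussianPDFReal 0 1) (-(t * gaussianPDFReal 0 1 t)) t := by
    intro t
    have := ((((hasDerivAt_id t).sub_const 0).fun_pow 2).fun_neg.div_const
      (2 * ((1 : NNReal) : ℝ))).exp.const_mul (√(2 * Real.pi * ((1 : NNReal) : ℝ)))⁻¹
    refine HasDerivAt.congr_deriv this ?_
    simp [gaussianPDFReal]
    ring
  have h := integral_mul_deriv_eq_deriv_mul_of_integrable (u := ψ) (u' := ψ')
    (v := gaussianPDFReal 0 1) (v' := fun t => -(t * gaussianPDFReal 0 1 t))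
    (fun t _ => hd t) (fun t _ => hv t)
    ((key _ h2).neg.congr (Filter.Eventually.of_forall fun t => by simp; ring))
    (key _ h1) (key _ h0)
  rw [integral_gaussianReal_eq_integral_smul one_ne_zero,
    integral_gaussianReal_eq_integral_smul one_ne_zero]
  simp only [mul_neg, integral_neg, neg_inj] at h
  simp only [smul_eq_mul]
  calc _ = ∫ t, ψ t * (t * gaussianPDFReal 0 1 t) := by congr 1; funext t; ring
    _ = _ := by rw [h]; congr 1; funext t; ring

lemma mp_update_gv [DecidableEq N] (a : N) :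
    MeasurePreserving (fun q : (N → ℝ) × ℝ => Function.update q.1 a q.2)
      ((gv N).prod (gaussianReal 0 1)) (gv N) := by
  have h := mp_add_mulVec (A := diagonal fun b : N => if b = a then (0 : ℝ) else 1)
    (B := Matrix.of fun (b : N) (_ : Unit) => if b = a then (1 : ℝ) else 0) (by
      ext b c
      simp only [diagonal_transpose, diagonal_mul_diagonal, Matrix.add_apply, diagonal_apply, mul_apply,
        of_apply, transpose_apply, one_apply]
      by_cases h1 : b = a <;> by_cases h2 : c = a <;> by_cases h3 : b = c <;> simp_all)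
  have h2 := (MeasurePreserving.id (gv N)).prod (mp_eval_gv (κ := Unit) ())
  have hm : Measurable fun q : (N → ℝ) × ℝ => Function.update q.1 a q.2 := measurable_update'
  refine ⟨hm, ?_⟩
  rw [← h2.map_eq, Measure.map_map hm h2.measurable]
  refine Eq.trans ?_ h.map_eq
  congr 1
  funext q b
  by_cases hb : b = a
  · subst hb; simp [diagonal_apply, mulVec, dotProduct]
  · simp [diagonal_apply, hb, mulVec, dotProduct]

lemma ibp_coord {φ : (N → ℝ) → ℝ} {g : (N → ℝ) → N → ℝ} (hd : Grad φ g) (hφ : PG φ) (a : N)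
    (hg : PG fun x => g x a) : ∫ x, x a * φ x ∂(gv N) = ∫ x, g x a ∂(gv N) := by
  classical
  have mp := mp_update_gv a
  have i0 := mp.integrable_comp_of_integrable hφ.integrable
  have i1 := mp.integrable_comp_of_integrable hg.integrable
  have i2 := mp.integrable_comp_of_integrable ((PG.coord a).mul hφ).integrable
  simp only [Function.comp_def] at i0 i1 i2
  rw [← mp.map_eq, integral_map mp.measurable.aemeasurable
      ((PG.coord a).mul hφ).1.aestronglyMeasurable,
    integral_map mp.measurable.aemeasurable hg.1.aestronglyMeasurable,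
    integral_prod _ i2, integral_prod _ i1]
  refine integral_congr_ae ?_
  filter_upwards [i0.prod_right_ae, i1.prod_right_ae, i2.prod_right_ae] with x j0 j1 j2
  simp only [Function.update_self] at j2 ⊢
  refine ibp_real (fun t => ?_) j0 j1 j2
  have := hd (fun s => Function.update x a s) (Pi.single a 1) t fun b => by
    by_cases hb : b = a
    · subst hb; simpa using hasDerivAt_id' t
    · simpa [hb] using hasDerivAt_const t (x b)
  simpa using this

lemma ibp_lin {φ : (N → ℝ) → ℝ} {g : (N → ℝ) → N → ℝ} (hd : Grad φ g) (hφ : PG φ)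
    (hg : ∀ a, PG fun x => g x a) (w : N → ℝ) :
    ∫ x, φ x * (w ⬝ᵥ x) ∂(gv N) = ∫ x, g x ⬝ᵥ w ∂(gv N) := by
  have e1 : ∀ x, φ x * (w ⬝ᵥ x) = ∑ a, w a * (x a * φ x) := fun x => by
    simp only [dotProduct, Finset.mul_sum]; exact sum_congr rfl fun a _ => by ring
  have e2 : ∀ x, g x ⬝ᵥ w = ∑ a, w a * g x a := fun x => dotProduct_comm _ _
  simp only [e1, e2]
  rw [integral_finsetSum _ fun a _ => ((PG.const _).mul ((PG.coord a).mul hφ)).integrable,
    integral_finsetSum _ fun a _ => ((PG.const _).mul (hg a)).integrable]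
  refine sum_congr rfl fun a _ => ?_
  rw [integral_const_mul, integral_const_mul, ibp_coord hd hφ a (hg a)]

lemma ibp_quad {φ : (N → ℝ) → ℝ} {g : (N → ℝ) → N → ℝ} (hd : Grad φ g) (hφ : PG φ)
    (hg : ∀ a, PG fun x => g x a) (M : Matrix N N ℝ) :
    ∫ x, φ x * cq M x ∂(gv N) = ∫ x, g x ⬝ᵥ M *ᵥ x ∂(gv N) := by
  have e1 : ∀ x, φ x * cq M x = ∑ a, (x a * (φ x * (M a ⬝ᵥ x)) - φ x * M a a) := fun x => by
    simp only [cq, qf, trace, Matrix.diag, mul_sub, sum_sub_distrib]
    rw [dotProduct, Finset.mul_sum, Finset.mul_sum]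
    congr 1
    exact sum_congr rfl fun a _ => by simp only [mulVec]; ring
  have hm : ∀ a, PG fun x => M a ⬝ᵥ x := fun a => PG.dot (fun _ => PG.const _) PG.coord
  simp only [e1]
  rw [integral_finsetSum _ fun a _ =>
    (((PG.coord a).mul (hφ.mul (hm a))).sub (hφ.mul (PG.const _))).integrable]
  have e2 : ∀ x, g x ⬝ᵥ M *ᵥ x = ∑ a, g x a * (M *ᵥ x) a := fun x => rfl
  simp only [e2]
  rw [integral_finsetSum _ fun a _ => ((hg a).mul (PG.mulVec M PG.coord a)).integrable]
  refine sum_congr rfl fun a _ => ?_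
  rw [integral_sub ((PG.coord a).mul (hφ.mul (hm a))).integrable (hφ.mul (PG.const _)).integrable,
    ibp_coord (hd.mul (Grad.dot (M a))) (hφ.mul (hm a)) a
      (by simpa using ((hm a).mul (hg a)).add (hφ.mul (PG.const (M a a)))), ← integral_sub
      (by simpa using (((hm a).mul (hg a)).add (hφ.mul (PG.const (M a a)))).integrable)
      (hφ.mul (PG.const _)).integrable]
  refine integral_congr_ae (Filter.Eventually.of_forall fun x => ?_)
  simp [mulVec, mul_comm]

end Pool.Agent.Work.MP_6a50bc_pr
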