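import Mathlib
import Pool.Agent.Work.MP_6a50bc_pr.Sing
import Pool.Agent.Work.MP_6a50bc_pr.Quad
import Pool.Agent.Work.MP_6a50bc_pr.LowerAux5

-- merged part: Pool.Agent.Work.MP_6a50bc_pr.LargeNum
section
/-! Numerical inequalities for the case of many points. -/

namespace Pool.Agent.Work.MP_6a50bc_pr.LargeNum

/-- The normalised parameters.  `K = ρ / e`, `q` is `√n / d`, `φ` the normalised trace defect. -/
structure Par (w ρ K q τ m₁ m₂ φ : ℝ) : Prop where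
  hρ : 1 ≤ ρ
  hK : ρ ≤ K
  hw : 10 ^ 300 * K ^ 100 ≤ w
  hq : 1 / ρ ≤ q ^ 2
  hq0 : 0 < q
  hq' : q ≤ 1 / 2
  hτ : 1 / (4 * K) ≤ τ
  hp : 1 / (16 * K) ≤ τ * m₁
  hτ' : τ ≤ 3
  ha : m₂ + τ * m₁ = q ^ 2
  hm₁ : q ^ 2 / 4 ≤ m₁
  hm₁' : m₁ ≤ 1
  hm₂ : 0 ≤ m₂
  hφ0 : 0 ≤ φ
  hφ : m₁ * φ ^ 2 = 2 * τ
  hφ1 : 1 / (2 * K) ≤ φ

lemma key {s b a θ ω : ℝ} (hs : 0 < s) (hb : b ^ 2 ≤ s)
    (h : s * (2 * a ^ 2 + θ ^ 2) ≤ 2 * (ω + b * a) ^ 2) : (s - b ^ 2) * θ ^ 2 ≤ 2 * ω ^ 2 := by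
  refine le_of_mul_le_mul_left ?_ hs
  linarith only [h, hb, mul_le_mul_of_nonneg_left h (sub_nonneg.2 hb), sq_nonneg (b * ω - (s - b ^ 2) * a)]

lemma up_norm {ε q d D A T w₀ w₁ Res ω ζ : ℝ} (hD : 0 < D) (hd : d = D ^ 2) (hε : 0 < ε)
    (hε1 : ε ≤ 1) (hq : 0 < q) (hζ : 0 ≤ ζ)
    (h : ε * (q * d) / 1000 * ((1 - ε) * (q * d) * √(2 * A ^ 2 + T ^ 2) - √2 * (w₀ + w₁ * A) -
      ε * d * D) ≤ Res) (hRes : 1000 * Res ≤ ζ * (ε * q * d ^ 2 * D)) (hw₀ : w₀ ≤ ω * d * D) :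
    (1 - ε) ^ 2 * q ^ 2 * (2 * (A / D) ^ 2 + (T / D) ^ 2) ≤
      2 * (ω + ε + ζ + w₁ / d * (A / D)) ^ 2 := by
  have hd0 : 0 < d := by rw [hd]; positivity
  have h2 : (1 : ℝ) ≤ √2 := Real.one_le_sqrt.2 (by norm_num)
  have h1 : (1 - ε) * (q * d) * √(2 * A ^ 2 + T ^ 2) - √2 * (w₀ + w₁ * A) - ε * d * D ≤
      ζ * d * D := by
    refine le_of_mul_le_mul_left ?_ (show 0 < ε * (q * d) / 1000 by positivity)
    linarith only [h, hRes]
  have h3 : (1 - ε) * (q * d) * √(2 * A ^ 2 + T ^ 2) ≤ √2 * ((ω + ε + ζ) * d * D + w₁ * A) := by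
    have : (ε + ζ) * d * D ≤ √2 * ((ε + ζ) * d * D) := le_mul_of_one_le_left (by positivity) h2
    linarith only [h1, this, hw₀, mul_le_mul_of_nonneg_left hw₀ (Real.sqrt_nonneg 2)]
  have h4 := pow_le_pow_left₀ (mul_nonneg (mul_nonneg (sub_nonneg.2 hε1) (by positivity))
    (Real.sqrt_nonneg _)) h3 2
  rw [mul_pow, mul_pow, mul_pow, mul_pow, Real.sq_sqrt (by positivity),
    Real.sq_sqrt (by positivity)] at h4
  refine le_of_mul_le_mul_right ?_ (show 0 < (d * D) ^ 2 by positivity)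
  convert h4 using 1 <;> field_simp

namespace Par

variable {w ρ K q τ m₁ m₂ φ : ℝ} (P : Par w ρ K q τ m₁ m₂ φ)
include P

lemma K1 : 1 ≤ K := P.hρ.trans P.hK

lemma K0 : 0 < K := one_pos.trans_le P.K1

lemma ρ0 : 0 < ρ := one_pos.trans_le P.hρ

lemma le_w {c : ℝ} {k : ℕ} (hc : c ≤ 10 ^ 300) (hk : k ≤ 100) : c * K ^ k ≤ w :=
  (mul_le_mul hc (pow_le_pow_right₀ P.K1 hk) (pow_nonneg P.K0.le _) (by positivity)).trans P.hw

lemma w1 : 1 ≤ w := by
  simpa using P.le_w (c := 1) (k := 0) (one_le_pow₀ (by norm_num)) (by norm_num)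

lemma w0 : 0 < w := one_pos.trans_le P.w1

lemma le_pow {c : ℝ} {k j : ℕ} (hc : c ≤ 10 ^ 300) (hk : k ≤ 100) (hj : j ≠ 0) :
    c * K ^ k ≤ w ^ j := (P.le_w hc hk).trans (le_self_pow₀ P.w1 hj)

lemma τ0 : 0 < τ := lt_of_lt_of_le (by have := P.K0; positivity) P.hτ

lemma m₁0 : 0 < m₁ := lt_of_lt_of_le (by have := P.hq0; positivity) P.hm₁

lemma q_ge : 1 ≤ ρ * q := by
  have h1 := P.hq
  have h2 := P.ρ0
  rw [div_le_iff₀ h2] at h1
  nlinarith only [h1, P.hq0, P.hq']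

lemma m₁_ge : 1 ≤ 4 * ρ * m₁ := by
  have h1 := P.hq
  rw [div_le_iff₀ P.ρ0] at h1
  nlinarith only [h1, P.hm₁, P.ρ0]

lemma q2 : q ^ 2 ≤ 1 / 4 := by nlinarith only [P.hq0, P.hq']

lemma φ_sq_le : φ ^ 2 ≤ 24 * ρ := by nlinarith only [P.m₁_ge, P.hφ, P.hτ', P.ρ0, sq_nonneg φ]

lemma φ_le : φ ≤ 5 * ρ := by
  refine le_of_sq_le_sq (by nlinarith only [P.φ_sq_le, P.hρ]) (by have := P.ρ0; positivity) 

lemma pφ : τ * m₁ * φ ^ 2 = 2 * τ ^ 2 := by rw [mul_assoc, P.hφ]; ring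

lemma gap {ε β g : ℝ} (hε : 0 ≤ ε) (hβ : β ^ 2 ≤ m₂ - g) :
    τ * m₁ + g - ε / 2 ≤ (1 - ε) ^ 2 * q ^ 2 - β ^ 2 := by
  linarith only [hβ, hε, P.ha, P.q2, sq_nonneg (ε * q), mul_le_mul_of_nonneg_left P.q2 hε]

lemma gapA {β : ℝ} (hβ : β ^ 2 ≤ m₂ - 0) :
    1 / (32 * K) ≤ (1 - 1 / (64 * K)) ^ 2 * q ^ 2 - β ^ 2 := by
  have hK := P.K0
  have h1 := P.gap (ε := 1 / (64 * K)) (by positivity) hβ
  have h2 : 1 / (32 * K) ≤ 1 / (16 * K) - 1 / (64 * K) / 2 := by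
    rw [← sub_nonneg]; ring_nf; positivity
  linarith only [h1, h2, P.hp]

lemma normA {β θ ω : ℝ} (hβ0 : 0 ≤ β) (hβ : β ^ 2 ≤ m₂ - 0) (hω0 : 0 ≤ ω)
    (hω : ω ≤ 10 ^ 6 * K ^ 2)
    (h : (1 - 1 / (64 * K)) ^ 2 * q ^ 2 * (2 * (10 ^ 8 * K ^ 3) ^ 2 + θ ^ 2) ≤
      2 * (ω + β * (10 ^ 8 * K ^ 3)) ^ 2) : False := by
  have hK := P.K0
  have h1 := P.gapA hβ
  have hβ1 : β ≤ 1 / 2 := by
    refine le_of_sq_le_sq ?_ (by norm_num)
    linarith only [hβ, P.ha, P.q2, mul_pos P.τ0 P.m₁0]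
  set s := (1 - 1 / (64 * K)) ^ 2 * q ^ 2
  have hs : 0 ≤ s := by positivity
  have h2 : (s - β ^ 2) * (10 ^ 8 * K ^ 3) ^ 2 ≤ ω ^ 2 + 2 * β * (ω * (10 ^ 8 * K ^ 3)) := by
    linarith only [h, hs, mul_nonneg hs (sq_nonneg θ)]
  have h3 := mul_le_mul_of_nonneg_right h1 (sq_nonneg (10 ^ 8 * K ^ 3))
  have h4 : 1 / (32 * K) * (10 ^ 8 * K ^ 3) ^ 2 = 10 ^ 16 / 32 * K ^ 5 := by field_simp
  have h5 : ω * (10 ^ 8 * K ^ 3) ≤ 10 ^ 14 * K ^ 5 := by
    linarith only [hω, hK, mul_le_mul_of_nonneg_right hω (show 0 ≤ 10 ^ 8 * K ^ 3 by positivity)]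
  have h6 : ω ^ 2 ≤ 10 ^ 12 * K ^ 5 := by
    have := pow_le_pow_left₀ hω0 hω 2
    linarith only [this, pow_le_pow_right₀ P.K1 (show 4 ≤ 5 by norm_num)]
  have h7 : 2 * β * (ω * (10 ^ 8 * K ^ 3)) ≤ ω * (10 ^ 8 * K ^ 3) :=
    mul_le_of_le_one_left (by positivity) (by linarith only [hβ1])
  have h8 : 0 < K ^ 5 := by positivity
  linarith only [h2, h3, h4, h5, h6, h7, h8]

lemma traceA {β θ ω a : ℝ} (hβ : β ^ 2 ≤ m₂ - 0) (hω0 : 0 ≤ ω) (hω : ω ≤ 12)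
    (h : (1 - 1 / (64 * K)) ^ 2 * q ^ 2 * (2 * a ^ 2 + θ ^ 2) ≤ 2 * (ω + β * a) ^ 2) :
    |θ| ≤ 100 * K := by
  have hK := P.K0
  have h1 := P.gapA hβ
  have h0 : 0 < 1 / (32 * K) := by positivity
  have h2 := key (by linarith only [h1, h0, sq_nonneg β]) (by linarith only [h1, h0]) h
  have h3 : 1 / (32 * K) * θ ^ 2 ≤ 288 := by
    linarith only [h2, h1, hω0, hω, mul_le_mul_of_nonneg_right h1 (sq_nonneg θ), pow_le_pow_left₀ hω0 hω 2]
  rw [one_div_mul_eq_div, div_le_iff₀ (by positivity)] at h3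
  exact abs_le_of_sq_le_sq (by nlinarith only [h3, P.K1]) (by positivity)

lemma inv_le_one (c : ℝ) (k : ℕ) (hc : 1 ≤ c) : 1 / (c * K ^ k) ≤ 1 := by
  have := one_le_pow₀ (n := k) P.K1
  rw [div_le_one (by positivity)]; nlinarith only [hc, this]

lemma traceB {β θ ω a ε σ : ℝ} (hε : ε = 1 / (10 ^ 24 * K ^ 7)) (hσ : σ = 1 / (10 ^ 20 * K ^ 4))
    (hβ : β ^ 2 ≤ m₂ - 0) (hω0 : 0 ≤ ω) (hω : ω ≤ τ + 3 * ε)
    (h : (1 - ε) ^ 2 * q ^ 2 * (2 * a ^ 2 + θ ^ 2) ≤ 2 * (ω + β * a) ^ 2) : θ < φ + σ / 4 := by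
  by_contra hc
  push Not at hc
  have hK := P.K0
  have hε0 : 0 < ε := by rw [hε]; positivity
  have hσ0 : 0 < σ := by rw [hσ]; positivity
  have hε1 : ε ≤ 1 := hε ▸ P.inv_le_one _ _ (by norm_num)
  have hσ1 : σ ≤ 1 := hσ ▸ P.inv_le_one _ _ (by norm_num)
  have e1 : 10 ^ 4 * K ^ 3 * ε = σ := by rw [hε, hσ]; field_simp
  have e2 : ε ≤ 1 / (16 * K) := by
    rw [hε]
    exact one_div_le_one_div_of_le (by positivity)
      (by linarith only [hK, le_self_pow₀ P.K1 (show 7 ≠ 0 by norm_num)])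
  have h1 := P.gap hε0.le hβ
  have hp := P.hp
  have h0 : 0 ≤ τ * m₁ - ε / 2 := by linarith only [hε0, e2, hp]
  have h2 := key (by linarith only [hε0, e2, h1, hp, sq_nonneg β]) (by linarith only [hε0, e2, h1, hp]) h
  have h3 : φ ^ 2 + φ * σ / 2 ≤ θ ^ 2 := by
    linarith only [hσ0, hc, pow_le_pow_left₀ (by have := P.hφ0; positivity) hc 2, sq_nonneg σ]
  have h4 : (τ * m₁ - ε / 2) * (φ ^ 2 + φ * σ / 2) ≤ 2 * ω ^ 2 :=
    (mul_le_mul (by linarith only [h1]) h3 (by have := P.hφ0; positivity) (by linarith only [hε0, e2, h1, hp])).trans h2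
  have h5 : ω ^ 2 ≤ τ ^ 2 + 27 * ε := by
    linarith only [hω0, hω, hε0, hε1, pow_le_pow_left₀ hω0 hω 2, mul_le_mul_of_nonneg_right P.hτ' hε0.le,
      mul_le_mul_of_nonneg_right hε1 hε0.le]
  have h6 : 1 / (16 * K) * (1 / (2 * K)) ≤ τ * m₁ * φ :=
    mul_le_mul hp P.hφ1 (by positivity) (by linarith only [hε0, e2, hp, show 0 < 1 / (16 * K) by positivity])
  have h7 : φ ^ 2 + φ * σ / 2 ≤ 27 * K := by
    linarith only [hK, hσ1, P.φ_sq_le, P.φ_le, P.hK, P.ρ0, mul_le_mul_of_nonneg_left hσ1 P.hφ0]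
  have h8 : τ * m₁ * φ * σ / 2 ≤ 68 * K * ε := by
    linarith only [hε0, h4, h5, h7, P.pφ, mul_le_mul_of_nonneg_left h7 hε0.le, mul_le_mul_of_nonneg_left P.K1 hε0.le]
  have h9 : 1 / (16 * K) * (1 / (2 * K)) * σ = 10 ^ 4 / 32 * (K * ε) := by
    rw [← e1]; field_simp; norm_num
  linarith only [h8, h9, h6, hσ0, hK, hε0, mul_le_mul_of_nonneg_right h6 hσ0.le, mul_pos hK hε0]

lemma traceC {β θ ω a ε σ g : ℝ} (hε : ε = 1 / (10 ^ 24 * K ^ 7))
    (hσ : σ = 1 / (10 ^ 20 * K ^ 4)) (hg : 1 / (10 ^ 18 * K ^ 3) ≤ g)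
    (hβ : β ^ 2 ≤ m₂ - g) (hω0 : 0 ≤ ω) (hω : ω ≤ τ + 3 * ε) (hθ : φ - 2 * σ ≤ θ)
    (h : (1 - ε) ^ 2 * q ^ 2 * (2 * a ^ 2 + θ ^ 2) ≤ 2 * (ω + β * a) ^ 2) : False := by
  have hK := P.K0
  have hε0 : 0 < ε := by rw [hε]; positivity
  have hσ0 : 0 < σ := by rw [hσ]; positivity
  have hε1 : ε ≤ 1 := hε ▸ P.inv_le_one _ _ (by norm_num)
  have e1 : 10 ^ 4 * K ^ 3 * ε = σ := by rw [hε, hσ]; field_simp
  have e2 : 1 / (10 ^ 18 * K ^ 3) = 100 * K * σ := by rw [hσ]; field_simp; norm_num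
  have e3 : 1 ≤ 2 * K * φ := by
    have := P.hφ1
    rwa [div_le_iff₀ (by positivity), mul_comm] at this
  have K2 : 1 ≤ K ^ 2 := one_le_pow₀ P.K1
  have e4 : 5000 * ε ≤ φ * σ := by
    rw [← e1]
    linarith only [K2, e3, hK, hε0, mul_le_mul_of_nonneg_right (mul_le_mul K2 e3 zero_le_one (by positivity)) hε0.le]
  have e5 : ε ≤ σ := by
    rw [← e1]; linarith only [hσ0, e1, hε0, mul_le_mul_of_nonneg_right (one_le_pow₀ (n := 3) P.K1) hε0.le]
  have e6 : 4 * K * σ ≤ 1 := by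
    rw [hσ, mul_one_div, div_le_one (by positivity)]
    linarith only [hK, le_self_pow₀ P.K1 (show 4 ≠ 0 by norm_num)]
  have hφ0 : 0 < φ := lt_of_lt_of_le (by positivity) P.hφ1
  have e7 : 2 * σ ≤ φ := le_of_mul_le_mul_left (by linarith only [e3, e6]) (show 0 < 2 * K by positivity)
  rw [e2] at hg
  have hg1 : ε ≤ g := by linarith only [hg, hσ0, e5, mul_le_mul_of_nonneg_right P.K1 hσ0.le]
  have h1 := P.gap hε0.le hβ
  have hp := mul_pos P.τ0 P.m₁0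
  have h2 := key (by linarith only [hε0, hg1, h1, hp, sq_nonneg β]) (by linarith only [hε0, hg1, h1, hp]) h
  have h3 : (φ - 2 * σ) ^ 2 ≤ θ ^ 2 := pow_le_pow_left₀ (by linarith only [e7]) hθ 2
  have h4 : (τ * m₁ + g / 2) * (φ - 2 * σ) ^ 2 ≤ 2 * ω ^ 2 :=
    (mul_le_mul (by linarith only [hg1, h1]) h3 (by positivity) (by linarith only [hε0, hg1, h1, hp])).trans h2
  have h5 : ω ^ 2 ≤ τ ^ 2 + 27 * ε := by
    linarith only [hω0, hω, hε0, hε1, pow_le_pow_left₀ hω0 hω 2, mul_le_mul_of_nonneg_right P.hτ' hε0.le,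
      mul_le_mul_of_nonneg_right hε1 hε0.le]
  have h6 : τ * m₁ + g / 2 ≤ 1 / 4 := by linarith only [hβ, hε0, hg1, P.ha, P.q2, sq_nonneg β]
  have h7 : (τ * m₁ + g / 2) * (φ ^ 2 - 4 * (φ * σ)) ≤ 2 * ω ^ 2 := by
    refine le_trans (mul_le_mul_of_nonneg_left (by linarith only [sq_nonneg σ]) (by linarith only [hε0, hg1, hp])) h4
  have h8 : 50 * (φ * σ) ≤ g * φ ^ 2 := by
    linarith only [hg, e3, hφ0, hσ0, mul_le_mul_of_nonneg_right hg (sq_nonneg φ),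
      mul_le_mul_of_nonneg_right e3 (mul_pos hφ0 hσ0).le]
  linarith only [hε0, e4, h5, h7, h8, h6, hφ0, hσ0, P.pφ, mul_le_mul_of_nonneg_right h6 (mul_pos hφ0 hσ0).le]

lemma lowerAO {ε σ c u : ℝ} (hε : ε = 1 / (10 ^ 24 * K ^ 7)) (hσ : σ = 1 / (10 ^ 20 * K ^ 4))
    (hc0 : 0 ≤ c) (hc1 : c * m₁ ≤ 1) (hc2 : 1 - u ≤ c * m₁) (hu0 : 0 ≤ u)
    (hu : 1000 * ρ * u ≤ ε) :
    q * √(2 * (c * (√m₂ + u)) ^ 2 + (φ - σ / 8) ^ 2 + (20 * ρ * σ) ^ 2) + 4 * ε ≤
      √2 * (c * (q ^ 2 - 5 * u)) := by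
  have hK := P.K0
  have hρ := P.ρ0
  have hε0 : 0 < ε := by rw [hε]; positivity
  have hσ0 : 0 < σ := by rw [hσ]; positivity
  have hε1 : ε ≤ 1 := hε ▸ P.inv_le_one _ _ (by norm_num)
  have e1 : 10 ^ 4 * K ^ 3 * ε = σ := by rw [hε, hσ]; field_simp
  have e3 : 1 ≤ 2 * K * φ := by
    have := P.hφ1
    rwa [div_le_iff₀ (by positivity), mul_comm] at this
  have e6 : 10 ^ 4 * K ^ 3 * σ ≤ 1 := by
    rw [hσ, mul_one_div, div_le_one (by positivity)]
    linarith only [hK, pow_le_pow_right₀ P.K1 (show 3 ≤ 4 by norm_num), pow_pos hK 4]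
  have hφ0 : 0 < φ := lt_of_lt_of_le (by positivity) P.hφ1
  have hc4 : c ≤ 4 * ρ := by
    linarith [mul_le_mul_of_nonneg_left P.m₁_ge hc0, mul_le_mul_of_nonneg_left hc1 hρ.le]
  have hu1 : u ≤ 1 / 1000 := by linarith only [hu, hε1, hu0, mul_le_mul_of_nonneg_right P.hρ hu0]
  have hcm : 1 / 2 ≤ c := by linarith only [hc2, hu1, hc0, mul_le_mul_of_nonneg_left P.hm₁' hc0]
  have hs : √m₂ ≤ 1 := Real.sqrt_le_one.2 (by linarith only [P.ha, P.q2, mul_pos P.τ0 P.m₁0])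
  have hs2 : √m₂ ^ 2 = m₂ := Real.sq_sqrt P.hm₂
  have hs0 := Real.sqrt_nonneg m₂
  have r2 : √2 ^ 2 = (2 : ℝ) := Real.sq_sqrt (by norm_num)
  have r1 : (1 : ℝ) ≤ √2 := Real.one_le_sqrt.2 (by norm_num)
  have r3 : √2 ≤ (3 / 2 : ℝ) := Real.sqrt_le_iff.2 ⟨by norm_num, by norm_num⟩
  have hcu : c * u ≤ ε / 250 := by linarith only [hu, hc4, hu0, mul_le_mul_of_nonneg_right hc4 hu0]
  have hq2 : 1 ≤ ρ * q ^ 2 := by
    have := P.hq
    rwa [div_le_iff₀ hρ, mul_comm] at this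
  have hρε : 10 ^ 4 * ρ * ε ≤ 1 := by
    linarith only [e1, hσ, hε0, P.hK, le_self_pow₀ P.K1 (show 3 ≠ 0 by norm_num), hσ ▸ P.inv_le_one _ 4
      (show (1 : ℝ) ≤ 10 ^ 20 by norm_num), mul_le_mul_of_nonneg_right P.hK hε0.le,
      mul_le_mul_of_nonneg_right (le_self_pow₀ P.K1 (show 3 ≠ 0 by norm_num)) hε0.le]
  have hεq : 10 ^ 4 * ε ≤ q ^ 2 := le_of_mul_le_mul_left (by linarith only [hq2, hρε]) hρ
  have k1 : φ ^ 2 - 48 * ρ * u ≤ 2 * c ^ 2 * (τ * m₁) := by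
    have : 2 * c ^ 2 * (τ * m₁) = (c * m₁) ^ 2 * φ ^ 2 := by
      linear_combination (-(c ^ 2 * m₁)) * P.hφ
    rw [this]
    have h1 : 1 - 2 * u ≤ (c * m₁) ^ 2 := by
      linarith only [hu1, hc2, pow_le_pow_left₀ (by linarith only [hu1]) hc2 2, sq_nonneg u]
    linarith only [h1, hu0, mul_le_mul_of_nonneg_right h1 (sq_nonneg φ),
      mul_le_mul_of_nonneg_left P.φ_sq_le hu0]
  have k2 : (c * (√m₂ + u)) ^ 2 ≤ c ^ 2 * m₂ + ρ * ε := by
    have h1 : (√m₂ + u) ^ 2 ≤ m₂ + 3 * u := by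
      linarith only [hc1, hc2, hs2, hs, hu0, hu1, mul_le_mul_of_nonneg_right hs hu0, mul_le_mul_of_nonneg_right hu1 hu0]
    have h2 : c * (c * u) ≤ 4 * ρ * (ε / 250) := mul_le_mul hc4 hcu (by positivity) (by positivity)
    rw [mul_pow]
    linarith only [h2, h1, hρ, hε0, mul_le_mul_of_nonneg_left h1 (sq_nonneg c), mul_pos hρ hε0]
  have k3 : (φ - σ / 8) ^ 2 + (20 * ρ * σ) ^ 2 + 100 * (ρ * ε) ≤ φ ^ 2 := by
    have h1 : ρ ^ 2 ≤ K ^ 2 := pow_le_pow_left₀ hρ.le P.hK 2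
    have K2 : 1 ≤ K ^ 2 := one_le_pow₀ P.K1
    have h2 : 5000 * (K ^ 2 * σ) ≤ φ := by
      refine le_of_mul_le_mul_left ?_ (show 0 < 2 * K by positivity)
      linarith only [e3, e6]
    have h3 : 5000 * (K ^ 2 * ε) ≤ φ * σ := by
      rw [← e1]
      linarith only [e3, hK, hε0, mul_le_mul_of_nonneg_right e3 (show 0 ≤ K ^ 2 * ε by positivity)]
    have h4 : ρ * ε ≤ K ^ 2 * ε := mul_le_mul_of_nonneg_right
      (P.hK.trans (le_self_pow₀ P.K1 two_ne_zero)) hε0.le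
    linarith only [h3, h4, h2, hσ0, h1, K2, hφ0, mul_le_mul_of_nonneg_right h2 hσ0.le, mul_le_mul_of_nonneg_right h1 (sq_nonneg σ),
      mul_le_mul_of_nonneg_right K2 (sq_nonneg σ), mul_pos hφ0 hσ0]
  have k4 : 0 ≤ √2 * (c * q ^ 2) - 5 * ε := by
    linarith only [hε0, hεq, r1, hcm, mul_le_mul r1 (mul_le_mul_of_nonneg_right hcm (sq_nonneg q)) (by positivity)
      (by positivity)]
  have k5 : q * √(2 * (c * (√m₂ + u)) ^ 2 + (φ - σ / 8) ^ 2 + (20 * ρ * σ) ^ 2) ≤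
      √2 * (c * q ^ 2) - 5 * ε := by
    refine le_of_sq_le_sq ?_ k4
    rw [mul_pow, Real.sq_sqrt (by positivity)]
    have h1 : 2 * (c * (√m₂ + u)) ^ 2 + (φ - σ / 8) ^ 2 + (20 * ρ * σ) ^ 2 ≤
        2 * c ^ 2 * q ^ 2 - 60 * (ρ * ε) := by
      rw [← P.ha]
      linarith only [hu, hε0, k1, k2, k3, mul_le_mul_of_nonneg_right P.hρ hε0.le]
    have h2 : √2 * c * ε ≤ 6 * (ρ * ε) := by
      linarith only [r3, hc4, hc0, hε0, mul_le_mul_of_nonneg_right (mul_le_mul r3 hc4 hc0 (by norm_num)) hε0.le]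
    have h3 : (√2 * (c * q ^ 2) - 5 * ε) ^ 2 =
        q ^ 2 * (2 * c ^ 2 * q ^ 2 - 10 * (√2 * c * ε)) + 25 * ε ^ 2 := by
      linear_combination (c * q ^ 2) ^ 2 * r2
    rw [h3]
    linarith only [h1, h2, sq_nonneg ε, mul_le_mul_of_nonneg_left h1 (sq_nonneg q),
      mul_le_mul_of_nonneg_left h2 (sq_nonneg q)]
  linarith only [hε0, k5, r3, hcu, hcm, hu0, mul_le_mul r3 hcu (by positivity) (by norm_num)]

end Par

end Pool.Agent.Work.MP_6a50bc_pr.LargeNum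
end

-- merged part: Pool.Agent.Work.MP_6a50bc_pr.LargeAux1
section
-- merged part: Pool.Agent.Work.MP_6a50bc_pr.Goe
section
namespace Pool.Agent.Work.MP_6a50bc_pr

open MeasureTheory ProbabilityTheory Matrix Finset
open scoped ENNReal

variable {ι κ : Type*} [Fintype ι] [DecidableEq ι] [Fintype κ] [DecidableEq κ]

/-! Expected spectral functionals of the symmetric Gaussian matrix. -/

omit [Fintype κ] in
lemma GoeAux.goe_eq_sub (τ : ℝ) (B : κ → κ → ℝ) : goe τ B = goe 0 B - τ • (1 : Matrix κ κ ℝ) := by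
  simp [goe]

open GoeAux

lemma GoeAux.fro_goe_sub_tau (τ τ' : ℝ) (B : κ → κ → ℝ) :
    fro (goe τ B - goe τ' B) = √(Fintype.card κ) * |τ - τ'| := by
  have h : goe τ B - goe τ' B = (-(τ - τ')) • (1 : Matrix κ κ ℝ) := by
    rw [goe_eq_sub τ, goe_eq_sub τ']; module
  rw [h, fro_smul, fro_one, abs_neg, mul_comm]

lemma GoeAux.fro_pos_goe_le (τ : ℝ) (B : κ → κ → ℝ) :
    fro (pos (goe τ B)) ≤ (1 + |τ| * √(Fintype.card κ)) * (1 + fro (Matrix.of B)) := by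
  have h1 := fro_pos_le (goe_isHermitian τ B)
  have h2 := fro_sub_le (goe 0 B) (τ • (1 : Matrix κ κ ℝ))
  rw [← goe_eq_sub, fro_smul, fro_one] at h2
  have h3 := fro_goe_zero_le B
  have h4 := fro_nonneg (Matrix.of B)
  have h5 : 0 ≤ |τ| * √(Fintype.card κ) := by positivity
  nlinarith only [h1, h2, h3, h5, h4, mul_nonneg h5 h4]

lemma GoeAux.fro_pos_goe_le' {τ : ℝ} (hτ : 0 ≤ τ) (B : κ → κ → ℝ) :
    fro (pos (goe τ B)) ≤ fro (Matrix.of B) := by
  have h1 := fro_pos_le_fro_add (goe_isHermitian τ B)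
    (N := τ • (1 : Matrix κ κ ℝ)) (PosSemidef.one.smul hτ)
  rw [goe_eq_sub τ, sub_add_cancel, ← goe_eq_sub] at h1
  exact h1.trans (fro_goe_zero_le B)

lemma integrable_trace_pos (τ : ℝ) :
    Integrable (fun B : κ → κ → ℝ => (pos (goe τ B)).trace) (gm κ κ) := by
  have hc : Continuous fun B : κ → κ → ℝ => (pos (goe τ B)).trace :=
    (continuous_pos_goe continuous_const continuous_id).matrix_trace
  refine integrable_gm_of_le_pow hc.aestronglyMeasurable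
    (√(Fintype.card κ) * (1 + |τ| * √(Fintype.card κ))) 1 fun B => ?_
  refine (abs_trace_le _).trans ?_
  rw [pow_one, mul_assoc]
  exact mul_le_mul_of_nonneg_left (fro_pos_goe_le τ B) (Real.sqrt_nonneg _)

lemma integrable_fro_pos_sq (τ : ℝ) :
    Integrable (fun B : κ → κ → ℝ => fro (pos (goe τ B)) ^ 2) (gm κ κ) := by
  have hc : Continuous fun B : κ → κ → ℝ => fro (pos (goe τ B)) ^ 2 :=
    (continuous_fro (continuous_pos_goe continuous_const continuous_id)).pow 2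
  refine integrable_gm_of_le_pow hc.aestronglyMeasurable
    ((1 + |τ| * √(Fintype.card κ)) ^ 2) 2 fun B => ?_
  rw [abs_of_nonneg (sq_nonneg _), ← mul_pow]
  exact pow_le_pow_left₀ (fro_nonneg _) (fro_pos_goe_le τ B) 2

lemma ip_goe_pos (τ : ℝ) (B : κ → κ → ℝ) :
    ip (Matrix.of B) (pos (goe τ B)) = fro (pos (goe τ B)) ^ 2 + τ * (pos (goe τ B)).trace := by
  have h := ip_goe τ B (pos_posSemidef (goe τ B)).1
  rw [ip_pos_self (goe_isHermitian τ B)] at h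
  linarith

lemma mu1_nonneg (τ : ℝ) : 0 ≤ mu1 κ τ :=
  integral_nonneg fun B => (pos_posSemidef (goe τ B)).trace_nonneg

lemma mu2_nonneg (τ : ℝ) : 0 ≤ mu2 κ τ := integral_nonneg fun _ => sq_nonneg _

omit [DecidableEq ι] [DecidableEq κ] in
lemma GoeAux.integrable_fro_pow (k : ℕ) :
    Integrable (fun x : ι → κ → ℝ => fro (Matrix.of x) ^ k) (gm ι κ) := by
  have hc : Continuous fun x : ι → κ → ℝ => fro (Matrix.of x) ^ k :=
    (continuous_fro (continuous_of continuous_id)).pow k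
  refine integrable_gm_of_le_pow hc.aestronglyMeasurable 1 k fun x => ?_
  rw [abs_of_nonneg (pow_nonneg (fro_nonneg _) _), one_mul]
  exact pow_le_pow_left₀ (fro_nonneg _) (by linarith) k

lemma GoeAux.ip_single (A : Matrix κ κ ℝ) (a b : κ) : ip A (Matrix.single a b (1 : ℝ)) = A a b := by
  simp only [ip, Matrix.single_apply, mul_ite, mul_one, mul_zero]
  rw [sum_eq_single a, sum_eq_single b]
  · simp
  · intro j _ hj; simp [hj.symm]
  · simp
  · intro i _ hi; simp [hi.symm]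
  · simp

lemma GoeAux.integral_goe_entry_sq (a b : κ) :
    Integrable (fun B : κ → κ → ℝ => goe 0 B a b * goe 0 B a b) (gm κ κ) ∧
    ∫ B, goe 0 B a b * goe 0 B a b ∂(gm κ κ) = (1 + if a = b then 1 else 0) / 2 := by
  set S : Matrix κ κ ℝ := (1 / 2 : ℝ) • (Matrix.single a b 1 + Matrix.single b a 1) with hS
  have h1 : ∀ B : κ → κ → ℝ, goe 0 B a b * goe 0 B a b = ip (Matrix.of B) S ^ 2 := by
    intro B
    rw [hS, ip_smul_right, ip_add_right, ip_single, ip_single]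
    simp [goe]; ring
  simp only [h1]
  refine ⟨?_, ?_⟩
  · have hc : Continuous fun B : κ → κ → ℝ => ip (Matrix.of B) S ^ 2 :=
      (continuous_ip (continuous_of continuous_id) continuous_const).pow 2
    refine ((integrable_fro_pow (ι := κ) (κ := κ) 2).mul_const (fro S ^ 2)).mono'
      hc.aestronglyMeasurable (Filter.Eventually.of_forall fun B => ?_)
    rw [Real.norm_eq_abs, abs_pow, ← mul_pow]
    exact pow_le_pow_left₀ (abs_nonneg _) (abs_ip_le _ _) 2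
  · rw [integral_ip_sq, fro_sq]
    conv_lhs => enter [2]; rw [hS]
    rw [ip_smul_right, ip_add_right, ip_single, ip_single, hS]
    by_cases h : a = b
    · subst h; simp; norm_num
    · simp [h, Ne.symm h]; norm_num

lemma integral_fro_goe_sq :
    ∫ B, fro (goe 0 B) ^ 2 ∂(gm κ κ) = Fintype.card κ * (Fintype.card κ + 1) / 2 := by
  simp only [fro_sq, ip]
  rw [integral_finsetSum _ fun a _ =>
    integrable_finsetSum _ fun b _ => (integral_goe_entry_sq a b).1]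
  have h : ∀ a : κ, ∫ B, ∑ b, goe 0 B a b * goe 0 B a b ∂(gm κ κ) = (Fintype.card κ + 1) / 2 := by
    intro a
    rw [integral_finsetSum _ fun b _ => (integral_goe_entry_sq a b).1]
    simp only [fun b => (integral_goe_entry_sq a b).2]
    rw [← sum_div, sum_add_distrib]
    simp
  simp only [h]
  rw [sum_const, card_univ, nsmul_eq_mul]; ring

lemma mu2_zero : mu2 κ 0 = Fintype.card κ * (Fintype.card κ + 1) / 4 := by
  have hc : Continuous fun B : κ → κ → ℝ => fro (pos (goe 0 B)) ^ 2 :=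
    (continuous_fro (continuous_pos_goe continuous_const continuous_id)).pow 2
  have h1 : ∫ B, fro (pos (goe 0 (-B))) ^ 2 ∂(gm κ κ) = mu2 κ 0 := by
    rw [mu2]
    conv_rhs => rw [← (mp_neg (ι := κ) (κ := κ)).map_eq]
    rw [integral_map (mp_neg (ι := κ) (κ := κ)).measurable.aemeasurable hc.aestronglyMeasurable]
  have h2 : Integrable (fun B : κ → κ → ℝ => fro (pos (goe 0 (-B))) ^ 2) (gm κ κ) :=
    (mp_neg (ι := κ) (κ := κ)).integrable_comp_of_integrable (integrable_fro_pos_sq 0)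
  have h3 := integral_add (integrable_fro_pos_sq (κ := κ) 0) h2
  simp only [goe_neg, fro_pos_sq_add (goe_isHermitian 0 _)] at h3 h1
  rw [integral_fro_goe_sq, h1] at h3
  change _ = mu2 κ 0 + _ at h3
  linarith only [h3]

lemma mu2_le {τ : ℝ} (hτ : 0 ≤ τ) : mu2 κ τ ≤ (Fintype.card κ : ℝ) ^ 2 := by
  have h := integral_mono (integrable_fro_pos_sq (κ := κ) τ) (integrable_fro_pow (ι := κ) (κ := κ) 2)
    fun B => pow_le_pow_left₀ (fro_nonneg _) (fro_pos_goe_le' hτ B) 2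
  rw [integral_fro_sq] at h
  rw [pow_two]
  exact h

lemma GoeAux.integral_fro_le : ∫ B, fro (Matrix.of B) ∂(gm κ κ) ≤ Fintype.card κ := by
  have hc : Continuous fun x : κ × κ → ℝ => nrm x := continuous_nrm continuous_id
  have h := integral_nrm_le (κ := κ × κ)
  rw [← (mp_uncurry (ι := κ) (κ := κ)).map_eq,
    integral_map (mp_uncurry (ι := κ) (κ := κ)).measurable.aemeasurable hc.aestronglyMeasurable,
    Fintype.card_prod, Nat.cast_mul, Real.sqrt_mul_self (Nat.cast_nonneg _)] at h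
  simp only [fro_eq_nrm]
  exact h

omit [DecidableEq κ] in
lemma GoeAux.integrable_fro_of : Integrable (fun B : κ → κ → ℝ => fro (Matrix.of B)) (gm κ κ) := by
  simpa using integrable_fro_pow (ι := κ) (κ := κ) 1

lemma mu1_le {τ : ℝ} (hτ : 0 ≤ τ) : mu1 κ τ ≤ Fintype.card κ * √(Fintype.card κ) := by
  have h := integral_mono (integrable_trace_pos (κ := κ) τ)
    ((integrable_fro_of (κ := κ)).const_mul (√(Fintype.card κ))) fun B =>
      (le_abs_self _).trans ((abs_trace_le _).trans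
        (mul_le_mul_of_nonneg_left (fro_pos_goe_le' hτ B) (Real.sqrt_nonneg _)))
  rw [integral_const_mul] at h
  refine h.trans ?_
  rw [mul_comm (Fintype.card κ : ℝ)]
  exact mul_le_mul_of_nonneg_left integral_fro_le (Real.sqrt_nonneg _)

lemma GoeAux.fro_pos_goe_sub_tau (τ τ' : ℝ) (B : κ → κ → ℝ) :
    fro (pos (goe τ B) - pos (goe τ' B)) ≤ √(Fintype.card κ) * |τ - τ'| :=
  (fro_pos_sub_le (goe_isHermitian τ B) (goe_isHermitian τ' B)).trans (fro_goe_sub_tau τ τ' B).le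

lemma abs_mu1_sub_le (τ τ' : ℝ) : |mu1 κ τ - mu1 κ τ'| ≤ Fintype.card κ * |τ - τ'| := by
  rw [mu1, mu1, ← integral_sub (integrable_trace_pos τ) (integrable_trace_pos τ')]
  have h := norm_integral_le_of_norm_le_const (μ := gm κ κ)
    (f := fun B : κ → κ → ℝ => (pos (goe τ B)).trace - (pos (goe τ' B)).trace)
    (C := Fintype.card κ * |τ - τ'|) (Filter.Eventually.of_forall fun B => by
      rw [Real.norm_eq_abs, ← trace_sub]
      refine (abs_trace_le _).trans ?_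
      refine (mul_le_mul_of_nonneg_left (fro_pos_goe_sub_tau τ τ' B) (Real.sqrt_nonneg _)).trans ?_
      rw [← mul_assoc, Real.mul_self_sqrt (Nat.cast_nonneg _)])
  simpa using h

lemma GoeAux.integrable_ip_pos (τ : ℝ) :
    Integrable (fun B : κ → κ → ℝ => ip (Matrix.of B) (pos (goe τ B))) (gm κ κ) := by
  simp only [ip_goe_pos]
  exact (integrable_fro_pos_sq τ).add ((integrable_trace_pos τ).const_mul τ)

lemma GoeAux.integral_ip_pos (τ : ℝ) :
    ∫ B, ip (Matrix.of B) (pos (goe τ B)) ∂(gm κ κ) = mu2 κ τ + τ * mu1 κ τ := by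
  simp only [ip_goe_pos]
  rw [integral_add (integrable_fro_pos_sq τ) ((integrable_trace_pos τ).const_mul τ),
    integral_const_mul]
  rfl

lemma abs_mu_sub_le (τ τ' : ℝ) :
    |mu2 κ τ + τ * mu1 κ τ - (mu2 κ τ' + τ' * mu1 κ τ')| ≤
      Fintype.card κ * √(Fintype.card κ) * |τ - τ'| := by
  rw [← integral_ip_pos, ← integral_ip_pos,
    ← integral_sub (integrable_ip_pos τ) (integrable_ip_pos τ')]
  have h := norm_integral_le_of_norm_le (μ := gm κ κ)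
    (f := fun B : κ → κ → ℝ =>
      ip (Matrix.of B) (pos (goe τ B)) - ip (Matrix.of B) (pos (goe τ' B)))
    ((integrable_fro_of (κ := κ)).mul_const (√(Fintype.card κ) * |τ - τ'|))
    (Filter.Eventually.of_forall fun B => by
      rw [Real.norm_eq_abs, ← ip_sub_right]
      exact (abs_ip_le _ _).trans
        (mul_le_mul_of_nonneg_left (fro_pos_goe_sub_tau τ τ' B) (fro_nonneg _)))
  rw [integral_mul_const, Real.norm_eq_abs] at h
  refine h.trans ?_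
  rw [mul_assoc]
  exact mul_le_mul_of_nonneg_right integral_fro_le (by positivity)

lemma GoeAux.fro_pos_goe_sub_le (τ : ℝ) (B B' : κ → κ → ℝ) :
    fro (pos (goe τ B) - pos (goe τ B')) ≤ fro (Matrix.of B - Matrix.of B') :=
  (fro_pos_sub_le (goe_isHermitian τ B) (goe_isHermitian τ B')).trans (fro_goe_sub_le τ B B')

lemma tail_trace_pos (τ : ℝ) {η : ℝ} (hη : 0 < η) :
    gm κ κ {B | η ≤ |(pos (goe τ B)).trace - mu1 κ τ|} ≤
      ENNReal.ofReal (4 * Fintype.card κ / η ^ 2) := by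
  have h := conc_cheb_gm (ι := κ) (κ := κ) (f := fun B => (pos (goe τ B)).trace)
    (L := √(Fintype.card κ)) (fun B B' => by
      rw [← trace_sub]
      exact (abs_trace_le _).trans
        (mul_le_mul_of_nonneg_left (fro_pos_goe_sub_le τ B B') (Real.sqrt_nonneg _))) hη
  rwa [Real.sq_sqrt (Nat.cast_nonneg _)] at h

lemma tail_fro_pos (τ : ℝ) {η : ℝ} (hη : 0 < η) :
    gm κ κ {B | η ≤ |fro (pos (goe τ B)) - √(mu2 κ τ)|} ≤ ENNReal.ofReal (8 / η ^ 2) := by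
  obtain ⟨h1, h2, h3⟩ := conc_var_gm (ι := κ) (κ := κ) (f := fun B => fro (pos (goe τ B)))
    (L := 1) (fun B B' => by
      rw [one_mul]
      exact (abs_fro_sub_le _ _).trans (fro_pos_goe_sub_le τ B B'))
  set E := ∫ B, fro (pos (goe τ B)) ∂(gm κ κ) with hE
  have hE0 : 0 ≤ E := integral_nonneg fun B => fro_nonneg _
  have key : ∀ c : ℝ, Integrable (fun B : κ → κ → ℝ => (fro (pos (goe τ B)) - c) ^ 2) (gm κ κ) ∧
      ∫ B, (fro (pos (goe τ B)) - c) ^ 2 ∂(gm κ κ) = mu2 κ τ - 2 * c * E + c ^ 2 := by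
    intro c
    have e : (fun B : κ → κ → ℝ => (fro (pos (goe τ B)) - c) ^ 2) =
        fun B => fro (pos (goe τ B)) ^ 2 - 2 * c * fro (pos (goe τ B)) + c ^ 2 := by
      funext B; ring
    rw [e]
    have h4 : Integrable (fun B : κ → κ → ℝ =>
        fro (pos (goe τ B)) ^ 2 - 2 * c * fro (pos (goe τ B))) (gm κ κ) :=
      h2.sub (h1.const_mul (2 * c))
    refine ⟨h4.add (integrable_const _), ?_⟩
    rw [integral_add h4 (integrable_const _), integral_sub h2 (h1.const_mul (2 * c)),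
      integral_const_mul, integral_const]
    simp [mu2, hE]
  have hv := (key E).2
  have hv0 : 0 ≤ ∫ B, (fro (pos (goe τ B)) - E) ^ 2 ∂(gm κ κ) :=
    integral_nonneg fun _ => sq_nonneg _
  have hs := Real.sq_sqrt (mu2_nonneg (κ := κ) τ)
  have hs0 := Real.sqrt_nonneg (mu2 κ τ)
  set s := √(mu2 κ τ)
  have hEs : E ≤ s := by
    refine (abs_le_of_sq_le_sq' ?_ hs0).2
    nlinarith only [hv, hv0, hs]
  have h5 := measure_ge_le (key s).1 (fun _ => sq_nonneg _) (pow_pos hη 2)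
  refine le_trans (measure_mono fun B hB => ?_) (h5.trans (ENNReal.ofReal_le_ofReal ?_))
  · have hB' : η ≤ |fro (pos (goe τ B)) - s| := hB
    have := pow_le_pow_left₀ hη.le hB' 2
    rwa [sq_abs] at this
  · refine div_le_div_of_nonneg_right ?_ (sq_nonneg _)
    rw [(key s).2]
    nlinarith only [h3, hv, hs, hE0, hEs, mul_nonneg hE0 (sub_nonneg.mpr hEs)]

lemma tail_opn_three (hd : 10 ^ 4 ≤ Fintype.card κ) :
    gm κ κ {B | 3 * √(Fintype.card κ) < opn (Matrix.of B)} ≤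
      ENNReal.ofReal (1 / (Fintype.card κ : ℝ) ^ 5) := by
  have hd' : (10 ^ 4 : ℝ) ≤ Fintype.card κ := by exact_mod_cast hd
  set d : ℝ := (Fintype.card κ : ℝ) with hdd
  have hs : (100 : ℝ) ≤ √d := by
    refine Real.le_sqrt_of_sq_le ?_
    linarith
  have hs2 : √d ^ 2 = d := Real.sq_sqrt (by linarith)
  have h := opn_tail (ι := κ) (κ := κ) (t := √d - 4) (by linarith)
  refine le_trans (measure_mono fun B hB => ?_) (h.trans (ENNReal.ofReal_le_ofReal ?_))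
  · have hB' : 3 * √d < opn (Matrix.of B) := hB
    change √d + √d + 4 + (√d - 4) ≤ opn (Matrix.of B)
    linarith
  · have h1 : d / 9 ≤ (√d - 4) ^ 2 / 8 := by nlinarith only [hd', hs2, hs]
    have h2 : Real.exp (-(√d - 4) ^ 2 / 8) ≤ Real.exp (-(d / 9)) :=
      Real.exp_le_exp.mpr (by linarith only [h1])
    have h3 := Real.pow_div_factorial_le_exp (d / 9) (by positivity) 10
    have h4 : ((Nat.factorial 10 : ℕ) : ℝ) = 3628800 := by norm_num [Nat.factorial]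
    rw [h4] at h3
    have hd0 : 0 < d := by linarith only [hd']
    have h5 : (10 ^ 4 : ℝ) ^ 5 ≤ d ^ 5 := pow_le_pow_left₀ (by norm_num) hd' 5
    have h6 : 2 * d ^ 5 ≤ Real.exp (d / 9) := by
      refine le_trans ?_ h3
      have : (d / 9) ^ 10 / 3628800 = d ^ 5 * (d ^ 5 / (9 ^ 10 * 3628800)) := by ring
      rw [this, mul_comm]
      refine mul_le_mul_of_nonneg_left ?_ (by positivity)
      rw [le_div_iff₀ (by norm_num)]
      refine le_trans ?_ h5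
      norm_num
    rw [Real.exp_neg] at h2
    have h7 : 0 < Real.exp (d / 9) := Real.exp_pos _
    rw [le_div_iff₀ (by positivity)]
    calc 2 * Real.exp (-(√d - 4) ^ 2 / 8) * d ^ 5 ≤ 2 * (Real.exp (d / 9))⁻¹ * d ^ 5 := by gcongr
      _ = (2 * d ^ 5) / Real.exp (d / 9) := by ring
      _ ≤ 1 := (div_le_one h7).mpr h6

/-- The contribution of the event where the operator norm is large. -/
lemma GoeAux.integral_bad_le (hd : 10 ^ 4 ≤ Fintype.card κ) :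
    Integrable ({B : κ → κ → ℝ | 3 * √(Fintype.card κ) < opn (Matrix.of B)}.indicator
      fun B => fro (Matrix.of B) ^ 2) (gm κ κ) ∧
    ∫ B, {B : κ → κ → ℝ | 3 * √(Fintype.card κ) < opn (Matrix.of B)}.indicator
      (fun B => fro (Matrix.of B) ^ 2) B ∂(gm κ κ) ≤ 1 := by
  have hd' : (10 ^ 4 : ℝ) ≤ Fintype.card κ := by exact_mod_cast hd
  have ht := tail_opn_three hd
  have h4 := integral_fro_four (ι := κ) (κ := κ)
  set d : ℝ := (Fintype.card κ : ℝ) with hdd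
  set A := {B : κ → κ → ℝ | 3 * √d < opn (Matrix.of B)} with hA
  have hm : MeasurableSet A :=
    (isOpen_lt continuous_const (continuous_opn (continuous_of continuous_id))).measurableSet
  have hd0 : 0 < d := by linarith only [hd']
  have hi := (integrable_fro_pow (ι := κ) (κ := κ) 2).indicator hm
  refine ⟨hi, ?_⟩
  have hi2 : Integrable (A.indicator fun _ => d ^ 4 / 2) (gm κ κ) :=
    (integrable_const _).indicator hm
  have hi3 := (integrable_fro_pow (ι := κ) (κ := κ) 4).div_const (2 * d ^ 4)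
  have h1 := integral_mono hi (hi3.add hi2) fun B => by
    by_cases hB : B ∈ A
    · simp only [Pi.add_apply, Set.indicator_of_mem hB]
      have h0 : 0 < 2 * d ^ 4 := by positivity
      rw [← sub_le_iff_le_add, le_div_iff₀ h0]
      nlinarith only [sq_nonneg (fro (Matrix.of B) ^ 2 - d ^ 4)]
    · simp only [Pi.add_apply, Set.indicator_of_notMem hB, add_zero]
      exact div_nonneg (pow_nonneg (fro_nonneg _) _) (by positivity)
  refine h1.trans ?_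
  simp only [Pi.add_apply]
  rw [integral_add hi3 hi2, integral_div, h4, integral_indicator_const _ hm, smul_eq_mul]
  have h5 : (gm κ κ).real A ≤ 1 / d ^ 5 :=
    ENNReal.toReal_le_of_le_ofReal (by positivity) ht
  have h6 : (gm κ κ).real A * (d ^ 4 / 2) ≤ 1 / 4 := by
    refine (mul_le_mul_of_nonneg_right h5 (by positivity)).trans ?_
    have : 1 / d ^ 5 * (d ^ 4 / 2) = 1 / (2 * d) := by field_simp
    rw [this]
    exact one_div_le_one_div_of_le (by norm_num) (by linarith only [hd'])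
  have h7 : ((d * d) ^ 2 + 2 * (d * d)) / (2 * d ^ 4) ≤ 3 / 4 := by
    rw [div_le_iff₀ (by positivity)]
    have : 4 ≤ d * d := by nlinarith only [hd']
    nlinarith only [this, mul_le_mul_of_nonneg_left this (mul_self_nonneg d)]
  linarith only [h6, h7]

lemma GoeAux.pos_goe_eq_zero {τ : ℝ} {B : κ → κ → ℝ} (h : opn (Matrix.of B) ≤ τ) :
    pos (goe τ B) = 0 := by
  have h1 : (-goe τ B).PosSemidef := by
    refine posSemidef_iff_qf.mpr ⟨(goe_isHermitian τ B).neg, fun v => ?_⟩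
    rw [qf_neg, goe_eq_sub, qf_sub, qf_smul, qf_one]
    have h2 := (le_abs_self _).trans (abs_qf_le_opn (goe 0 B) v)
    have h3 := mul_le_mul_of_nonneg_right ((opn_goe_zero_le B).trans h) (dot_self_nonneg v)
    linarith
  simpa using pos_neg_of_posSemidef h1

lemma GoeAux.ip_pos_le_fro_sq {τ : ℝ} (hτ : 0 ≤ τ) (B : κ → κ → ℝ) :
    ip (Matrix.of B) (pos (goe τ B)) ≤ fro (Matrix.of B) ^ 2 := by
  rw [pow_two]
  exact (ip_le _ _).trans (mul_le_mul_of_nonneg_left (fro_pos_goe_le' hτ B) (fro_nonneg _))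

lemma GoeAux.mu_three_le (hd : 10 ^ 4 ≤ Fintype.card κ) :
    mu2 κ (3 * √(Fintype.card κ)) + 3 * √(Fintype.card κ) * mu1 κ (3 * √(Fintype.card κ)) ≤ 1 := by
  obtain ⟨h1, h2⟩ := integral_bad_le hd
  rw [← integral_ip_pos]
  refine le_trans (integral_mono (integrable_ip_pos _) h1 fun B => ?_) h2
  by_cases hB : B ∈ {B : κ → κ → ℝ | 3 * √(Fintype.card κ) < opn (Matrix.of B)}
  · rw [Set.indicator_of_mem hB]
    exact ip_pos_le_fro_sq (by positivity) B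
  · rw [Set.indicator_of_notMem hB]
    simp only [pos_goe_eq_zero (not_lt.mp hB), ip_zero_right, le_refl]

lemma GoeAux.mu_le_mu1 (hd : 10 ^ 4 ≤ Fintype.card κ) {τ : ℝ} (hτ : 0 ≤ τ) :
    mu2 κ τ + τ * mu1 κ τ ≤ 3 * √(Fintype.card κ) * mu1 κ τ + 1 := by
  obtain ⟨h1, h2⟩ := integral_bad_le hd
  have h3 := (integrable_trace_pos (κ := κ) τ).const_mul (3 * √(Fintype.card κ))
  rw [← integral_ip_pos]
  refine le_trans (integral_mono (integrable_ip_pos _) (h3.add h1) fun B => ?_) ?_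
  · have h4 := (pos_posSemidef (goe τ B)).trace_nonneg
    by_cases hB : B ∈ {B : κ → κ → ℝ | 3 * √(Fintype.card κ) < opn (Matrix.of B)}
    · simp only [Pi.add_apply, Set.indicator_of_mem hB]
      have h5 := ip_pos_le_fro_sq hτ B
      have h6 : 0 ≤ 3 * √(Fintype.card κ) * (pos (goe τ B)).trace := by positivity
      linarith
    · simp only [Pi.add_apply, Set.indicator_of_notMem hB, add_zero]
      exact (le_abs_self _).trans ((abs_ip_le_opn_mul_trace _ (pos_posSemidef _)).trans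
        (mul_le_mul_of_nonneg_right (not_lt.mp hB) h4))
  · simp only [Pi.add_apply]
    rw [integral_add h3 h1, integral_const_mul]
    change 3 * √(Fintype.card κ) * mu1 κ τ + _ ≤ _
    linarith

theorem goe_params (hd : 10 ^ 4 ≤ Fintype.card κ) {e n : ℝ} (he : 0 < e)
    (hn : 100 * (Fintype.card κ : ℝ) ≤ n) (hn' : n ≤ (1 - e) * (Fintype.card κ : ℝ) ^ 2 / 4) :
    ∃ τ, e * √(Fintype.card κ) / 4 ≤ τ ∧ τ ≤ 3 * √(Fintype.card κ) ∧
      mu2 κ τ + τ * mu1 κ τ = n ∧ n / (4 * √(Fintype.card κ)) ≤ mu1 κ τ := by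
  have hd' : (10 ^ 4 : ℝ) ≤ Fintype.card κ := by exact_mod_cast hd
  have h3 := mu_three_le hd
  have hL := abs_mu_sub_le (κ := κ)
  have h0 := mu2_zero (κ := κ)
  have hm := fun τ (hτ : 0 ≤ τ) => mu_le_mu1 hd hτ
  set d : ℝ := (Fintype.card κ : ℝ) with hdd
  have hd0 : 0 < d := by linarith only [hd']
  have hs0 : 0 < √d := Real.sqrt_pos.mpr hd0
  have hs2 : √d * √d = d := Real.mul_self_sqrt hd0.le
  set a : ℝ → ℝ := fun τ => mu2 κ τ + τ * mu1 κ τ with ha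
  have hc : Continuous a := by
    refine (LipschitzWith.of_dist_le' (K := d * √d) fun x y => ?_).continuous
    rw [Real.dist_eq, Real.dist_eq]
    exact hL x y
  have ha0 : a 0 = d * (d + 1) / 4 := by simp only [ha, h0, zero_mul, add_zero]
  have hed : 0 < e * d ^ 2 := by positivity
  have hmem : n ∈ Set.Icc (a (3 * √d)) (a 0) := by
    refine ⟨h3.trans (by linarith only [hn, hd']), ?_⟩
    rw [ha0]; nlinarith only [hn', hd', hed]
  obtain ⟨τ, ⟨hτ0, hτ3⟩, hτ⟩ :=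
    intermediate_value_Icc' (a := 0) (b := 3 * √d) (by positivity) hc.continuousOn hmem
  refine ⟨τ, ?_, hτ3, hτ, ?_⟩
  · have h1 : a 0 - a τ ≤ d * √d * |0 - τ| := (le_abs_self _).trans (hL 0 τ)
    rw [zero_sub, abs_neg, abs_of_nonneg hτ0, hτ, ha0] at h1
    have h2 : d * √d * (e * √d / 4) ≤ d * √d * τ := by
      have : d * √d * (e * √d / 4) = e * d ^ 2 / 4 := by
        calc d * √d * (e * √d / 4) = e * d * (√d * √d) / 4 := by ring
          _ = e * d ^ 2 / 4 := by rw [hs2]; ring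
      rw [this]; nlinarith only [hn', hd', h1]
    exact le_of_mul_le_mul_left h2 (by positivity)
  · have h1 := hm τ hτ0
    have h2 : mu2 κ τ + τ * mu1 κ τ = n := hτ
    rw [h2] at h1
    rw [div_le_iff₀ (by positivity)]
    nlinarith only [hn, hd', h1]

end Pool.Agent.Work.MP_6a50bc_pr
end

-- merged part: Pool.Agent.Work.MP_6a50bc_pr.SteinAux2
section
/-! Deterministic and elementary facts for the rank gap. -/

namespace Pool.Agent.Work.MP_6a50bc_pr.RG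

open MeasureTheory ProbabilityTheory Matrix Finset
open scoped ENNReal

variable {κ : Type*} [Fintype κ] [DecidableEq κ]

lemma sq_integral_le_rg {α : Type*} [MeasurableSpace α] {μ : Measure α} [IsProbabilityMeasure μ]
    {f : α → ℝ} (hf : Integrable f μ) (hf2 : Integrable (fun x => f x ^ 2) μ) :
    (∫ x, f x ∂μ) ^ 2 ≤ ∫ x, f x ^ 2 ∂μ := by
  set c := ∫ x, f x ∂μ with hc
  have h : ∫ x, (2 * c * f x - c ^ 2) ∂μ ≤ ∫ x, f x ^ 2 ∂μ :=
    integral_mono ((hf.const_mul _).sub (integrable_const _)) hf2 fun x => by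
      have := sq_nonneg (f x - c)
      dsimp only
      linarith
  rw [integral_sub (hf.const_mul _) (integrable_const _), integral_const_mul, integral_const,
    probReal_univ, one_smul, ← hc] at h
  linarith

lemma pos_goe_spec {B : κ → κ → ℝ} {U : Matrix κ κ ℝ} {l : κ → ℝ} (hU : Orth U)
    (h : goe 0 B = spec U l) (t : ℝ) : pos (goe t B) = spec U fun j => max (l j - t) 0 := by
  rw [goe_eq, h, ← spec_const hU, ← spec_sub, pos_spec hU]
  rfl

lemma fro_pos_goe_sq {B : κ → κ → ℝ} {U : Matrix κ κ ℝ} {l : κ → ℝ} (hU : Orth U)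
    (h : goe 0 B = spec U l) (t : ℝ) : fro (pos (goe t B)) ^ 2 = ∑ j, max (l j - t) 0 ^ 2 := by
  rw [pos_goe_spec hU h, fro_spec hU, nrm_sq]
  simp only [dotProduct, sq]

lemma trace_pos_goe {B : κ → κ → ℝ} {U : Matrix κ κ ℝ} {l : κ → ℝ} (hU : Orth U)
    (h : goe 0 B = spec U l) (t : ℝ) : (pos (goe t B)).trace = ∑ j, max (l j - t) 0 := by
  rw [pos_goe_spec hU h, trace_spec hU]

/-- The excess of the squared positive part over the level `η ^ 2`. -/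
def exc (η x : ℝ) : ℝ := max (x - η) 0 ^ 2 + 2 * η * max (x - η) 0

lemma exc_nonneg {η : ℝ} (hη : 0 < η) (x : ℝ) : 0 ≤ exc η x := by
  have := le_max_right (x - η) 0
  unfold exc
  positivity

lemma exc_le {η : ℝ} (hη : 0 < η) (x : ℝ) : exc η x ≤ max x 0 ^ 2 := by
  unfold exc
  rcases le_total x η with h | h
  · rw [max_eq_right (by linarith)]
    have := sq_nonneg (max x 0)
    linarith
  · rw [max_eq_left (by linarith), max_eq_left (by linarith)]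
    have := sq_nonneg η
    linarith

lemma le_exc {η : ℝ} (hη : 0 < η) (x : ℝ) : max x 0 ^ 2 ≤ η ^ 2 + exc η x := by
  unfold exc
  rcases le_total x η with h | h
  · rw [max_eq_right (by linarith : x - η ≤ 0)]
    have h1 : max x 0 ^ 2 ≤ η ^ 2 :=
      pow_le_pow_left₀ (le_max_right _ _) (max_le h hη.le) 2
    linarith
  · rw [max_eq_left (by linarith), max_eq_left (by linarith)]
    linarith

lemma exc_eq {η x : ℝ} (hη : 0 < η) (h : η < x) : max x 0 ^ 2 - exc η x = η ^ 2 := by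
  unfold exc
  rw [max_eq_left (by linarith), max_eq_left (by linarith)]
  ring

/-- Total excess of the positive part. -/
noncomputable def excF (τ η : ℝ) (B : κ → κ → ℝ) : ℝ :=
  fro (pos (goe (τ + η) B)) ^ 2 + 2 * η * (pos (goe (τ + η) B)).trace

lemma excF_eq {B : κ → κ → ℝ} {U : Matrix κ κ ℝ} {l : κ → ℝ} (hU : Orth U)
    (h : goe 0 B = spec U l) (τ η : ℝ) : excF τ η B = ∑ j, exc η (l j - τ) := by
  rw [excF, fro_pos_goe_sq hU h, trace_pos_goe hU h, mul_sum, ← sum_add_distrib]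
  refine sum_congr rfl fun j _ => ?_
  rw [exc, sub_sub]

lemma excF_nonneg (τ : ℝ) {η : ℝ} (hη : 0 < η) (B : κ → κ → ℝ) : 0 ≤ excF τ η B := by
  obtain ⟨U, l, hU, h⟩ := exists_spec (goe_isHermitian 0 B)
  rw [excF_eq hU h]
  exact sum_nonneg fun j _ => exc_nonneg hη _

lemma continuous_excF (τ η : ℝ) : Continuous fun B : κ → κ → ℝ => excF τ η B := by
  unfold excF
  have h : Continuous fun B : κ → κ → ℝ => pos (goe (τ + η) B) :=
    continuous_pos_goe continuous_const continuous_id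
  exact ((continuous_fro h).pow 2).add (continuous_const.mul h.matrix_trace)

lemma integrable_excF (τ η : ℝ) : Integrable (fun B : κ → κ → ℝ => excF τ η B) (gm κ κ) :=
  (integrable_fro_pos_sq _).add ((integrable_trace_pos _).const_mul _)

/-- Soft count of the eigenvalues above `τ`. -/
noncomputable def rk (τ η : ℝ) (B : κ → κ → ℝ) : ℝ :=
  (fro (pos (goe τ B)) ^ 2 - excF τ η B) / η ^ 2

lemma rk_eq {B : κ → κ → ℝ} {U : Matrix κ κ ℝ} {l : κ → ℝ} (hU : Orth U)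
    (h : goe 0 B = spec U l) (τ η : ℝ) :
    rk τ η B = ∑ j, (max (l j - τ) 0 ^ 2 - exc η (l j - τ)) / η ^ 2 := by
  rw [rk, fro_pos_goe_sq hU h, excF_eq hU h, ← sum_sub_distrib, sum_div]

lemma rk_nonneg (τ : ℝ) {η : ℝ} (hη : 0 < η) (B : κ → κ → ℝ) : 0 ≤ rk τ η B := by
  obtain ⟨U, l, hU, h⟩ := exists_spec (goe_isHermitian 0 B)
  rw [rk_eq hU h]
  exact sum_nonneg fun j _ => div_nonneg (sub_nonneg.mpr (exc_le hη _)) (sq_nonneg _)

lemma rk_le (τ : ℝ) {η : ℝ} (hη : 0 < η) (B : κ → κ → ℝ) : rk τ η B ≤ Fintype.card κ := by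
  obtain ⟨U, l, hU, h⟩ := exists_spec (goe_isHermitian 0 B)
  rw [rk_eq hU h]
  have := sum_le_card_nsmul univ (fun j => (max (l j - τ) 0 ^ 2 - exc η (l j - τ)) / η ^ 2) 1
    fun j _ => by
      rw [div_le_one (by positivity)]
      linarith [le_exc hη (l j - τ)]
  simpa using this

lemma card_le_rk {B : κ → κ → ℝ} {U : Matrix κ κ ℝ} {l : κ → ℝ} (hU : Orth U)
    (h : goe 0 B = spec U l) (τ : ℝ) {η : ℝ} (hη : 0 < η) :
    ((univ.filter fun j : κ => τ + η < l j).card : ℝ) ≤ rk τ η B := by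
  rw [rk_eq hU h, card_filter]
  push_cast
  refine sum_le_sum fun j _ => ?_
  split_ifs with hj
  · rw [exc_eq hη (by linarith), div_self (by positivity)]
  · exact div_nonneg (sub_nonneg.mpr (exc_le hη _)) (sq_nonneg _)

lemma continuous_rk (τ η : ℝ) : Continuous fun B : κ → κ → ℝ => rk τ η B := by
  unfold rk
  have h : Continuous fun B : κ → κ → ℝ => pos (goe τ B) :=
    continuous_pos_goe continuous_const continuous_id
  exact (((continuous_fro h).pow 2).sub (continuous_excF τ η)).div_const _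

lemma integrable_rk (τ η : ℝ) : Integrable (fun B : κ → κ → ℝ => rk τ η B) (gm κ κ) :=
  ((integrable_fro_pos_sq _).sub (integrable_excF τ η)).div_const _

lemma integrable_rk_sq (τ : ℝ) {η : ℝ} (hη : 0 < η) :
    Integrable (fun B : κ → κ → ℝ => rk τ η B ^ 2) (gm κ κ) := by
  refine (integrable_const ((Fintype.card κ : ℝ) ^ 2)).mono'
    ((continuous_rk τ η).pow 2).aestronglyMeasurable (Filter.Eventually.of_forall fun B => ?_)
  rw [Real.norm_eq_abs, abs_of_nonneg (sq_nonneg _)]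
  exact pow_le_pow_left₀ (rk_nonneg τ hη B) (rk_le τ hη B) 2

lemma integral_excF (τ : ℝ) {η : ℝ} (hη : 0 < η) :
    ∫ B, excF τ η B ∂(gm κ κ) = mu2 κ τ - η ^ 2 * ∫ B, rk τ η B ∂(gm κ κ) := by
  simp only [rk]
  rw [integral_div, integral_sub (integrable_fro_pos_sq _) (integrable_excF τ η), mu2]
  field_simp
  ring

/-- The positive part tested against a positive matrix of small rank. -/
lemma ip_pos_le_of_card (τ : ℝ) {η : ℝ} (hη : 0 < η) (B : κ → κ → ℝ) {U : Matrix κ κ ℝ}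
    (hU : Orth U) (l : κ → ℝ) {x : ℝ} (hx : ((univ.filter fun j => l j ≠ 0).card : ℝ) ≤ x) :
    ip (pos (goe τ B)) (spec U l) ≤ √(excF τ η B + η ^ 2 * x) * nrm l := by
  obtain ⟨V, m, hV, h⟩ := exists_spec (goe_isHermitian 0 B)
  set P := pos (goe τ B) with hP
  set Q : Matrix κ κ ℝ := spec V fun k => exc η (m k - τ) with hQ
  have hQp : Q.PosSemidef := spec_posSemidef _ fun k => exc_nonneg hη _
  have h1 : ∀ j, qf P (Uᵀ j) ^ 2 ≤ η ^ 2 + qf Q (Uᵀ j) := by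
    intro j
    set w := Vᵀ *ᵥ Uᵀ j with hw
    have hw1 : ∑ k, w k ^ 2 = 1 := by
      have := hV.transpose.dot_mulVec (Uᵀ j) (Uᵀ j)
      rw [hU.col_dot_self, ← hw] at this
      simpa only [dotProduct, sq] using this
    rw [hP, pos_goe_spec hV h, hQ, qf_spec, qf_spec, ← hw]
    have h2 := sum_mul_sq_le_sq_mul_sq univ (fun k => max (m k - τ) 0 * w k) w
    rw [hw1, mul_one] at h2
    have h3 : ∑ k, max (m k - τ) 0 * w k ^ 2 = ∑ k, max (m k - τ) 0 * w k * w k :=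
      sum_congr rfl fun k _ => by ring
    rw [h3]
    refine h2.trans ?_
    have h4 : η ^ 2 = ∑ k, η ^ 2 * w k ^ 2 := by rw [← mul_sum, hw1, mul_one]
    rw [h4, ← sum_add_distrib]
    refine sum_le_sum fun k _ => ?_
    rw [mul_pow, ← add_mul]
    exact mul_le_mul_of_nonneg_right (le_exc hη _) (sq_nonneg _)
  have h2 : ∑ j, qf Q (Uᵀ j) = excF τ η B := by
    have h3 := ip_spec Q U fun _ => 1
    rw [spec_const hU, one_smul, ip_one, hQ, trace_spec hV, ← excF_eq hV h] at h3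
    simpa using h3.symm
  set a : κ → ℝ := fun j => if l j ≠ 0 then qf P (Uᵀ j) else 0 with ha
  have h3 : ip P (spec U l) = a ⬝ᵥ l := by
    rw [ip_spec, dotProduct]
    refine sum_congr rfl fun j _ => ?_
    by_cases hj : l j = 0
    · simp [hj]
    · simp [ha, hj, mul_comm]
  rw [h3]
  refine (dot_le _ _).trans (mul_le_mul_of_nonneg_right (Real.sqrt_le_sqrt ?_) (nrm_nonneg l))
  have h4 : a ⬝ᵥ a ≤ ∑ j, (qf Q (Uᵀ j) + η ^ 2 * if l j ≠ 0 then 1 else 0) := by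
    refine sum_le_sum fun j _ => ?_
    have h5 := qf_nonneg hQp (Uᵀ j)
    have h6 := h1 j
    by_cases hj : l j = 0
    · simpa [ha, hj] using h5
    · simp only [ha, ne_eq, hj, not_false_eq_true, if_true]
      linarith
  rw [sum_add_distrib, h2, ← mul_sum] at h4
  rw [card_filter] at hx
  push_cast at hx
  have h5 := mul_le_mul_of_nonneg_left hx (sq_nonneg η)
  linarith

/-- The good set of the rank gap argument. -/
def goodG (t a c M : ℝ) : Set (κ → κ → ℝ) :=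
  {B | opn (Matrix.of B) ≤ M ∧ a ≤ (pos (goe t B)).trace ∧ c ≤ fro (pos (goe 0 (-B)))}

lemma measurableSet_goodG (t a c M : ℝ) : MeasurableSet (goodG (κ := κ) t a c M) := by
  have h1 : Continuous fun B : κ → κ → ℝ => pos (goe t B) :=
    continuous_pos_goe continuous_const continuous_id
  have h2 : Continuous fun B : κ → κ → ℝ => pos (goe 0 (-B)) :=
    continuous_pos_goe continuous_const continuous_neg
  have h3 : Continuous fun B : κ → κ → ℝ => opn (Matrix.of B) :=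
    continuous_opn (continuous_of continuous_id)
  exact ((isClosed_le h3 continuous_const).inter
    ((isClosed_le continuous_const h1.matrix_trace).inter
      (isClosed_le continuous_const (continuous_fro h2)))).measurableSet

lemma goodG_count {t t' a c M : ℝ} (hM : 0 < M) (ht : 0 ≤ t) (ht' : t' ≤ t)
    (hc : 0 ≤ c) {B : κ → κ → ℝ} (hB : B ∈ goodG t a c M) {U : Matrix κ κ ℝ} {l : κ → ℝ}
    (hU : Orth U) (h : goe 0 B = spec U l) :
    (∀ j : κ, l j ≤ M) ∧ a / M * (c ^ 2 / M ^ 2) ≤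
      ((univ.filter fun j : κ => t' < l j).card : ℝ) * (univ.filter fun j : κ => l j ≤ 0).card := by
  obtain ⟨h1, h2, h3⟩ := hB
  have h4 : ∀ j, |l j| ≤ M := fun j => by
    have := abs_le_opn_spec hU l j
    rw [← h] at this
    exact this.trans ((opn_goe_zero_le B).trans h1)
  refine ⟨fun j => (le_abs_self _).trans (h4 j), mul_le_mul ?_ ?_ (by positivity) (by positivity)⟩
  · rw [div_le_iff₀ hM, card_filter]
    push_cast
    rw [trace_pos_goe hU h] at h2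
    refine h2.trans ?_
    rw [sum_mul]
    refine sum_le_sum fun j _ => ?_
    have := (abs_le.mp (h4 j)).2
    split_ifs with hj
    · rw [one_mul]; exact max_le (by linarith) hM.le
    · rw [zero_mul]; exact max_le (by linarith [not_lt.mp hj]) le_rfl
  · rw [div_le_iff₀ (by positivity), card_filter]
    push_cast
    have h5 : goe 0 (-B) = spec U (-l) := by rw [goe_neg, h, spec_neg]
    have h6 := pow_le_pow_left₀ hc h3 2
    rw [fro_pos_goe_sq hU h5] at h6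
    refine h6.trans ?_
    rw [sum_mul]
    refine sum_le_sum fun j _ => ?_
    have := (abs_le.mp (h4 j)).1
    rw [Pi.neg_apply, sub_zero]
    split_ifs with hj
    · rw [one_mul]; exact pow_le_pow_left₀ (le_max_right _ _) (max_le (by linarith) hM.le) 2
    · rw [zero_mul, max_eq_right (by linarith [not_le.mp hj])]; simp

lemma half_le_goodG (hd : 10 ^ 4 ≤ Fintype.card κ) {t a : ℝ}
    (ha : 10 * √(Fintype.card κ) ≤ a) (h1 : 2 * a ≤ mu1 κ t) :
    1 / 2 ≤ (gm κ κ).real (goodG t a (2 / 5 * Fintype.card κ) (3 * √(Fintype.card κ))) := by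
  set d : ℝ := (Fintype.card κ : ℝ) with hdd
  have hd' : (10 : ℝ) ^ 4 ≤ d := by rw [hdd]; exact_mod_cast hd
  have hd0 : 0 < d := by linarith
  have hs : 0 < √d := Real.sqrt_pos.mpr hd0
  have ha0 : 0 < a := by linarith
  set A1 : Set (κ → κ → ℝ) := {B | 3 * √d < opn (Matrix.of B)}
  set A2 : Set (κ → κ → ℝ) := {B | a ≤ |(pos (goe t B)).trace - mu1 κ t|}
  set A3 : Set (κ → κ → ℝ) := {B | d / 10 ≤ |fro (pos (goe 0 B)) - √(mu2 κ 0)|}
  have hA3 : MeasurableSet A3 := by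
    have h2 : Continuous fun B : κ → κ → ℝ => pos (goe 0 B) :=
      continuous_pos_goe continuous_const continuous_id
    exact (isClosed_le continuous_const ((continuous_fro h2).sub continuous_const).abs).measurableSet
  have hm : d / 2 ≤ √(mu2 κ 0) := by
    refine Real.le_sqrt_of_sq_le ?_
    rw [mu2_zero, ← hdd]
    linarith only [hd']
  have hsub : (goodG t a (2 / 5 * d) (3 * √d))ᶜ ⊆ A1 ∪ A2 ∪ (fun B => -B) ⁻¹' A3 := by
    intro B hB
    by_contra hn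
    simp only [Set.mem_union, not_or, A1, A2, A3, Set.mem_ofPred_eq, Set.mem_preimage, not_lt,
      not_le] at hn
    obtain ⟨⟨h2, h3⟩, h4⟩ := hn
    exact hB ⟨h2, by linarith only [h1, h3, (abs_lt.mp h3).1], by linarith only [hm, h4, (abs_lt.mp h4).1]⟩
  have b1 : gm κ κ A1 ≤ ENNReal.ofReal (1 / 10) := by
    refine (tail_opn_three hd).trans (ENNReal.ofReal_le_ofReal ?_)
    refine one_div_le_one_div_of_le (by norm_num) ?_
    rw [← hdd]
    have : d ^ 1 ≤ d ^ 5 := pow_le_pow_right₀ (by linarith) (by norm_num)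
    linarith
  have b2 : gm κ κ A2 ≤ ENNReal.ofReal (1 / 10) := by
    refine (tail_trace_pos t ha0).trans (ENNReal.ofReal_le_ofReal ?_)
    rw [← hdd, div_le_iff₀ (by positivity)]
    have h2 := pow_le_pow_left₀ (by positivity) ha 2
    rw [mul_pow, Real.sq_sqrt hd0.le] at h2
    linarith only [hd', h2]
  have b3 : gm κ κ ((fun B => -B) ⁻¹' A3) ≤ ENNReal.ofReal (1 / 10) := by
    rw [mp_neg.measure_preimage hA3.nullMeasurableSet]
    refine (tail_fro_pos 0 (by positivity)).trans (ENNReal.ofReal_le_ofReal ?_)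
    rw [div_le_iff₀ (by positivity)]
    have h2 := pow_le_pow_left₀ (by positivity) hd' 2
    linarith only [h2]
  have hc : gm κ κ (goodG t a (2 / 5 * d) (3 * √d))ᶜ ≤ ENNReal.ofReal (1 / 2) := by
    refine (measure_mono hsub).trans ((measure_union_le _ _).trans ?_)
    refine (add_le_add ((measure_union_le _ _).trans (add_le_add b1 b2)) b3).trans ?_
    rw [← ENNReal.ofReal_add (by norm_num) (by norm_num),
      ← ENNReal.ofReal_add (by norm_num) (by norm_num)]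
    exact ENNReal.ofReal_le_ofReal (by norm_num)
  have h2 := ENNReal.toReal_le_of_le_ofReal (by norm_num) hc
  have h3 := probReal_compl_eq_one_sub (μ := gm κ κ)
    (measurableSet_goodG (κ := κ) t a (2 / 5 * d) (3 * √d))
  rw [measureReal_def] at h3
  linarith only [h2, h3]

end Pool.Agent.Work.MP_6a50bc_pr.RG
end

-- merged part: Pool.Agent.Work.MP_6a50bc_pr.UpperAux3
section
/-! Nets and the covering argument. -/

namespace Pool.Agent.Work.MP_6a50bc_pr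

open MeasureTheory ProbabilityTheory Matrix Finset
open scoped ENNReal

variable {ι κ : Type*} [Fintype ι] [DecidableEq ι] [Fintype κ] [DecidableEq κ]

namespace UpperAux

/-- The parameters: a frame, the large eigenvalues, the bulk norm and the field. -/
def Dom (κ : Type*) [Fintype κ] (k : ℕ) (d : ℝ) :
    Set (Matrix κ (Fin k) ℝ × (Fin k → ℝ) × ℝ × ℝ) :=
  {θ | Orth θ.1 ∧ nrm θ.2.1 ≤ d ∧ 0 ≤ θ.2.2.1 ∧ θ.2.2.1 ≤ d ∧ |θ.2.2.2| ≤ 2 * d}

lemma net_dom {k : ℕ} {d η : ℝ} (hd : (Fintype.card κ : ℝ) = d) (hd1 : 1 ≤ d) (hk : (k : ℝ) ≤ d)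
    (hη : 0 < η) :
    ∃ Θ : Finset (Matrix κ (Fin k) ℝ × (Fin k → ℝ) × ℝ × ℝ), (∀ θ ∈ Θ, θ ∈ Dom κ k d) ∧
      (Θ.card : ℝ) ≤ (4 * d / η + 2) ^ (Fintype.card κ * k + k + 2) ∧
      ∀ θ ∈ Dom κ k d, ∃ θ₀ ∈ Θ, fro (θ.1 - θ₀.1) ≤ d * η ∧ nrm (θ.2.1 - θ₀.2.1) ≤ d * η ∧
        |θ.2.2.1 - θ₀.2.2.1| ≤ d * η ∧ |θ.2.2.2 - θ₀.2.2.2| ≤ d * η := by
  obtain ⟨Θ, h1, h2, h3⟩ := exists_net (ι := (κ × Fin k) ⊕ Fin k ⊕ Bool)
    (fun θ : Matrix κ (Fin k) ℝ × (Fin k → ℝ) × ℝ × ℝ => Sum.elim (fun q => θ.1 q.1 q.2)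
      (Sum.elim θ.2.1 fun b => bif b then θ.2.2.1 else θ.2.2.2)) (Dom κ k d) (M := 2 * d)
    (by linarith) hη (by
      rintro ⟨V, s, a, T⟩ ⟨hV, hs, ha, ha', hT⟩ (⟨i, j⟩ | j | _ | _)
      · have h := abs_le_nrm (Vᵀ j) i
        rw [nrm_eq_one_iff.2 (hV.col_dot_self j)] at h
        exact h.trans (by linarith)
      · exact ((abs_le_nrm s j).trans hs).trans (by linarith)
      · exact hT
      · exact (abs_of_nonneg ha).trans_le (ha'.trans (by linarith)))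
  refine ⟨Θ, h1, ?_, fun θ hθ => ?_⟩
  · convert h2 using 2
    · ring
    · simp [add_assoc]
  · obtain ⟨θ₀, h4, h5⟩ := h3 θ hθ
    have h6 : η ≤ d * η := le_mul_of_one_le_left hη.le hd1
    refine ⟨θ₀, h4, (fro_le_of_abs_le hη.le fun i j => h5 (Sum.inl (i, j))).trans ?_,
      (nrm_le_of_abs_le hη.le fun j => h5 (Sum.inr (Sum.inl j))).trans ?_,
      (h5 (Sum.inr (Sum.inr true))).trans h6, (h5 (Sum.inr (Sum.inr false))).trans h6⟩
    · refine mul_le_mul_of_nonneg_right (Real.sqrt_le_iff.2 ⟨by linarith, ?_⟩) hη.le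
      rw [hd, Fintype.card_fin]; nlinarith only [hd, hk]
    · refine mul_le_mul_of_nonneg_right (Real.sqrt_le_iff.2 ⟨by linarith, ?_⟩) hη.le
      rw [Fintype.card_fin]; nlinarith only [hd, hk, hd1]

lemma net_mat {d η : ℝ} (hd : (Fintype.card κ : ℝ) = d) (hη : 0 < η) (C : Set (Matrix κ κ ℝ))
    (hC : ∀ S ∈ C, fro S ≤ 2 * d) :
    ∃ I : Finset (Matrix κ κ ℝ), (∀ S ∈ I, S ∈ C) ∧
      (I.card : ℝ) ≤ (4 * d / η + 2) ^ (Fintype.card κ * Fintype.card κ) ∧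
      ∀ S ∈ C, ∃ S₀ ∈ I, fro (S - S₀) ≤ d * η := by
  have hd0 : 0 ≤ d := hd ▸ Nat.cast_nonneg _
  obtain ⟨I, h1, h2, h3⟩ := exists_net (ι := κ × κ) (fun (S : Matrix κ κ ℝ) q => S q.1 q.2) C
    (M := 2 * d) (by linarith) hη fun S hS q => (abs_le_fro S q.1 q.2).trans (hC S hS)
  refine ⟨I, h1, ?_, fun S hS => ?_⟩
  · convert h2 using 2
    · ring
    · simp
  · obtain ⟨S₀, h4, h5⟩ := h3 S hS
    refine ⟨S₀, h4, (fro_le_of_abs_le hη.le fun i j => h5 (i, j)).trans_eq ?_⟩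
    rw [hd, Real.sqrt_mul_self hd0]

omit [DecidableEq ι] in
lemma net_vec {d η : ℝ} (l : ℝ) (hd : √(Fintype.card ι : ℝ) ≤ d) (hd1 : 1 ≤ d) (hη : 0 < η) :
    ∃ J : Finset (ι → ℝ), (∀ u ∈ J, nrm u ≤ 1 ∧ ∀ k, |u k| ≤ l) ∧
      (J.card : ℝ) ≤ (4 * d / η + 2) ^ Fintype.card ι ∧
      ∀ u : ι → ℝ, nrm u ≤ 1 → (∀ k, |u k| ≤ l) → ∃ v ∈ J, nrm (u - v) ≤ d * η := by
  obtain ⟨J, h1, h2, h3⟩ := exists_net (fun u : ι → ℝ => u) {u | nrm u ≤ 1 ∧ ∀ k, |u k| ≤ l}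
    (M := 2 * d) (by linarith) hη fun u hu k => ((abs_le_nrm u k).trans hu.1).trans (by linarith)
  refine ⟨J, h1, ?_, fun u hu hu' => ?_⟩
  · convert h2 using 2
    ring
  · obtain ⟨v, h4, h5⟩ := h3 u ⟨hu, hu'⟩
    exact ⟨v, h4, (nrm_le_of_abs_le hη.le h5).trans (mul_le_mul_of_nonneg_right hd hη.le)⟩

omit [DecidableEq ι] in
/-- A violating triple puts the sample into one of the events of the net. -/
lemma cover {k : ℕ} {d σ F δ ε w₀ w₁ c : ℝ} (hd : (Fintype.card κ : ℝ) = d) (hd1 : 1 ≤ d)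
    (hn : √(Fintype.card ι : ℝ) ≤ d) (hn0 : 0 < √(Fintype.card ι : ℝ)) (hε : 0 < ε) (hε1 : ε ≤ 1)
    (hσ : 0 < σ) (hσd : σ ≤ d) (hFd : F ≤ d) (hk : F ^ 2 ≤ k * σ ^ 2) (hkd : k ≤ Fintype.card κ)
    (hδ : 0 ≤ δ) (hδd : 40 * d ^ 3 * δ ≤ 1) (hw₁ : 0 ≤ w₁) (hw₁' : w₁ ≤ d)
    {Λ : Set (κ → ℝ)} (hΛ : ∀ l ∈ Λ, ∀ s : Finset κ, (fun j => if j ∈ s then l j else 0) ∈ Λ)
    {Φ₀ Φ₁ : (κ → κ → ℝ) → ℝ} (hp₁ : ∀ B, 0 ≤ Φ₁ B)
    (hΦ : ∀ B (U : Matrix κ κ ℝ), Orth U → ∀ l ∈ Λ,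
      ip (Matrix.of B) (spec U l) ≤ Φ₀ B + Φ₁ B * nrm l)
    {Θ : Finset (Matrix κ (Fin k) ℝ × (Fin k → ℝ) × ℝ × ℝ)} (hΘ : ∀ θ ∈ Θ, θ ∈ Dom κ k d)
    (hΘ' : ∀ θ ∈ Dom κ k d, ∃ θ₀ ∈ Θ, fro (θ.1 - θ₀.1) ≤ δ ∧ nrm (θ.2.1 - θ₀.2.1) ≤ δ ∧
      |θ.2.2.1 - θ₀.2.2.1| ≤ δ ∧ |θ.2.2.2 - θ₀.2.2.2| ≤ δ)
    {I : Matrix κ (Fin k) ℝ × (Fin k → ℝ) × ℝ × ℝ → Finset (Matrix κ κ ℝ)}
    (hI : ∀ θ, ∀ S ∈ Cls (θ.1 * θ.1ᵀ) σ F θ.2.2.1 (3 * d * δ) Φ₀ Φ₁, ∃ S₀ ∈ I θ, fro (S - S₀) ≤ δ)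
    {J : Finset (ι → ℝ)} (hJ : ∀ u ∈ J, nrm u ≤ 1 ∧ ∀ k, |u k| ≤ 1000 / (ε * √(Fintype.card ι)))
    {x : ι → κ → ℝ} (hx : ∀ i, x i ⬝ᵥ x i ≤ 4 * Fintype.card κ) {U : Matrix κ κ ℝ} (hU : Orth U)
    {l : κ → ℝ} (hl : l ∈ Λ) (hlF : nrm l ≤ F) {T : ℝ} (hT : |T| ≤ 2 * d)
    (hv : ∑ i, |cq (spec U l) (x i) - T| ≤ ε * √(Fintype.card ι) / 1000 *
      ((1 - ε) * √(Fintype.card ι) * √(2 * nrm l ^ 2 + T ^ 2) - √2 * (w₀ + w₁ * nrm l) - c)) :
    ∃ θ ∈ Θ, x ∈ Ev (I θ) J (spec θ.1 θ.2.1) θ.2.2.2 ((1 - ε) * √(Fintype.card ι) *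
      √(2 * θ.2.2.1 ^ 2 + 2 * fro (spec θ.1 θ.2.1) ^ 2 + θ.2.2.2 ^ 2) -
        √2 * (w₀ + w₁ * θ.2.2.1) - (c - 2)) := by
  obtain ⟨V, s, t, hV, ht, hsum, hV0, hnrm⟩ := exists_split hU l hσ
    ((pow_le_pow_left₀ (nrm_nonneg l) hlF 2).trans hk) hkd
  set lB : κ → ℝ := fun j => if j ∈ t then l j else 0 with hlB
  have hs : nrm s ≤ nrm l := by
    refine abs_le_of_sq_le_sq' ?_ (nrm_nonneg l) |>.2
    linarith only [hnrm, sq_nonneg (nrm lB)]
  have hb : nrm lB ≤ nrm l := by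
    refine abs_le_of_sq_le_sq' ?_ (nrm_nonneg l) |>.2
    linarith only [hnrm, sq_nonneg (nrm s)]
  obtain ⟨⟨V₀, s₀, a₀, T₀⟩, hθ, e1, e2, e3, e4⟩ := hΘ' (V, s, nrm lB, T)
    ⟨hV, hs.trans (hlF.trans hFd), nrm_nonneg _, hb.trans (hlF.trans hFd), hT⟩
  obtain ⟨hV₀, hs₀, ha₀, ha₀', hT₀⟩ := hΘ _ hθ
  dsimp only at e1 e2 e3 e4 hV₀ hs₀ ha₀ ha₀' hT₀
  obtain ⟨S', f1, f2, f3, f4, f5⟩ := compress hV₀ (spec_isHermitian U lB)
  have hop : opn (spec U lB) ≤ σ := opn_spec_le hU hσ.le fun j => by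
    simp only [hlB]
    split_ifs with h
    · exact ht j h
    · simpa using hσ.le
  have hdδ : δ ≤ d * δ := le_mul_of_one_le_left hδ hd1
  have g1 : fro (spec U lB - S') ≤ 2 * (d * δ) := by
    have : spec U lB * V₀ = -(spec U lB * (V - V₀)) := by rw [Matrix.mul_sub, hV0]; simp
    rw [this, fro_neg] at f5
    have := (fro_mul_le_left (spec U lB) (V - V₀)).trans
      (mul_le_mul (hop.trans hσd) e1 (fro_nonneg _) (by linarith only [hd1]))
    linarith only [f5, this]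
  rw [fro_spec hU] at f3
  obtain ⟨S₀, hS₀, g2⟩ := hI (V₀, s₀, a₀, T₀) S' ⟨f1, f2.trans hop, f3.trans (hb.trans hlF), f4, by
    have h1 := abs_fro_sub_le (spec U lB) S'
    rw [fro_spec hU] at h1
    rw [abs_le] at h1 e3 ⊢
    constructor <;> linarith only [e3, hdδ, g1, h1, hδ, f3, h1.1, h1.2, e3.1, e3.2], fun B => by
    have h1 := hΦ B U hU lB (hΛ l hl t)
    have h2 := abs_ip_le (Matrix.of B) (spec U lB - S')
    rw [ip_sub_right] at h2
    have h3 := mul_le_mul_of_nonneg_left (g1.trans (by linarith only [hδ, hdδ] : _ ≤ 3 * d * δ))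
      (fro_nonneg (Matrix.of B))
    have h4 := mul_le_mul_of_nonneg_left
      (by linarith only [hδ, hdδ, e3, (abs_le.1 e3).2] : nrm lB ≤ a₀ + 3 * d * δ) (hp₁ B)
    linarith only [h1, h3, h4, h2, (abs_le.1 h2).1]⟩
  refine ⟨_, hθ, hx, S₀, hS₀, fun u hu => ?_⟩
  dsimp only
  have g3 : fro (spec U l - spec V₀ s₀ - S₀) ≤ 6 * (d * δ) := by
    have h1 := fro_spec_sub_le hV hV₀ s s₀
    have h2 := mul_le_mul e1 hs₀ (nrm_nonneg _) hδ
    have h3 : spec U l - spec V₀ s₀ - S₀ =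
        (spec V s - spec V₀ s₀) + ((spec U lB - S') + (S' - S₀)) := by rw [hsum]; abel
    have h4 := fro_add_le (spec V s - spec V₀ s₀) ((spec U lB - S') + (S' - S₀))
    have h5 := fro_add_le (spec U lB - S') (S' - S₀)
    rw [h3]
    linarith only [e2, hdδ, g1, g2, h1, h2, h4, h5]
  have hsd : √(Fintype.card κ : ℝ) ≤ d := Real.sqrt_le_iff.2 ⟨by linarith only [hd1], by rw [hd]; nlinarith only [hd1]⟩
  have hd2 : d * δ ≤ d * (d * δ) := mul_le_mul_of_nonneg_left hdδ (by linarith only [hd1])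
  have hd3 : d * (d * δ) ≤ d * (d * (d * δ)) := mul_le_mul_of_nonneg_left hd2 (by linarith only [hd1])
  have g4 : ∀ i, u i * (T₀ - cq (spec V₀ s₀) (x i) - cq S₀ (x i)) ≤
      1000 / (ε * √(Fintype.card ι)) * |cq (spec U l) (x i) - T| +
        |u i| * (31 * (d * (d * δ))) := fun i => by
    have h1 := abs_cq_le (spec U l - spec V₀ s₀ - S₀) (x i)
    have h2 := mul_le_mul g3 (by linarith only [hd, hsd, hx i] : x i ⬝ᵥ x i + √(Fintype.card κ : ℝ) ≤ 5 * d)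
      (by linarith only [dot_self_nonneg (x i), Real.sqrt_nonneg (Fintype.card κ : ℝ)]) (by positivity)
    rw [cq_sub, cq_sub] at h1
    have h3 : |T₀ - cq (spec V₀ s₀) (x i) - cq S₀ (x i)| ≤
        |cq (spec U l) (x i) - T| + 31 * (d * (d * δ)) := by
      have h4 := le_abs_self (cq (spec U l) (x i) - T)
      have h5 := neg_abs_le (cq (spec U l) (x i) - T)
      rw [abs_le] at h1 e4 ⊢
      constructor <;> linarith only [e4, hdδ, hd2, h1, h2, h4, h5, h1.1, h1.2, e4.1, e4.2]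
    refine (le_abs_self _).trans ?_
    rw [abs_mul]
    refine (mul_le_mul_of_nonneg_left h3 (abs_nonneg _)).trans ?_
    rw [mul_add]
    exact add_le_add (mul_le_mul_of_nonneg_right ((hJ u hu).2 i) (abs_nonneg _)) le_rfl
  refine (sum_le_sum fun i _ => g4 i).trans ?_
  rw [sum_add_distrib, ← mul_sum, ← sum_mul]
  have g5 : (∑ i, |u i|) * (31 * (d * (d * δ))) ≤ d * (31 * (d * (d * δ))) :=
    mul_le_mul_of_nonneg_right ((sum_abs_le u).trans
      ((mul_le_of_le_one_right hn0.le (hJ u hu).1).trans hn)) (by positivity)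
  have g6 := mul_le_mul_of_nonneg_left hv
    (by positivity : 0 ≤ 1000 / (ε * √(Fintype.card ι : ℝ)))
  rw [← mul_assoc, show 1000 / (ε * √(Fintype.card ι : ℝ)) * (ε * √(Fintype.card ι) / 1000) = 1 by
    field_simp, one_mul] at g6
  have g7 : √(2 * nrm l ^ 2 + T ^ 2) ≤
      √(2 * a₀ ^ 2 + 2 * fro (spec V₀ s₀) ^ 2 + T₀ ^ 2) + 3 * δ := by
    rw [fro_spec hV₀, hnrm, show 2 * (nrm s ^ 2 + nrm lB ^ 2) = 2 * nrm lB ^ 2 + 2 * nrm s ^ 2 by ring]
    exact sqrt_le_add e3 ((abs_nrm_sub_le _ _).trans e2) e4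
  have g8 := mul_le_mul_of_nonneg_left g7
    (mul_nonneg (by linarith only [hε1]) hn0.le : 0 ≤ (1 - ε) * √(Fintype.card ι : ℝ))
  have g9 : (1 - ε) * √(Fintype.card ι : ℝ) * (3 * δ) ≤ d * (3 * δ) :=
    mul_le_mul_of_nonneg_right ((mul_le_of_le_one_left hn0.le (by linarith only [hε])).trans hn)
      (by positivity)
  have s2 : √2 ≤ 2 := Real.sqrt_le_iff.2 ⟨by norm_num, by norm_num⟩
  have g10 : √2 * (w₁ * (a₀ - nrm l)) ≤ 2 * (d * δ) := by
    refine (mul_le_mul_of_nonneg_left (mul_le_mul_of_nonneg_left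
      (by linarith only [hb, e3, (abs_le.1 e3).1] : a₀ - nrm l ≤ δ) hw₁) (Real.sqrt_nonneg _)).trans ?_
    exact mul_le_mul s2 (mul_le_mul_of_nonneg_right hw₁' hδ) (by positivity) (by norm_num)
  linarith only [hδd, hd2, hd3, g5, g6, g8, g9, g10]

lemma log_le_of_pow {c b y : ℝ} {m : ℕ} (hc : 0 ≤ c) (hb : 0 ≤ b) (hy : 0 ≤ y) (h : c ≤ b ^ m)
    (h' : b ≤ Real.exp y) : c ≤ Real.exp (y * m) ∧ Real.log c ≤ y * m := by
  have h1 : c ≤ Real.exp (y * m) := by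
    rw [mul_comm, Real.exp_nat_mul]; exact h.trans (pow_le_pow_left₀ hb h' m)
  refine ⟨h1, ?_⟩
  rcases hc.eq_or_lt with rfl | hc
  · rw [Real.log_zero]; positivity
  · exact (Real.log_le_iff_le_exp hc).2 h1

/-- The union bound over the net, with abstract parameters. -/
lemma core [Nonempty ι] [Nonempty κ] {k : ℕ} {d σ F η ε β t w₀ w₁ c y : ℝ}
    (hd : (Fintype.card κ : ℝ) = d) (hn' : (Fintype.card ι : ℝ) ≤ d ^ 2)
    (hlog : Real.log (Fintype.card ι) ≤ √(Fintype.card κ)) (hε : 0 < ε) (hε1 : ε ≤ 1)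
    (hn : 10 ^ 7 ≤ ε ^ 3 * Fintype.card ι) (hσ : 0 < σ) (hσd : σ ≤ d) (hF : 0 < F) (hFd : F ≤ d)
    (hk : F ^ 2 ≤ k * σ ^ 2) (hkd : k ≤ Fintype.card κ) (hη : 0 < η)
    (hηd : 40 * d ^ 3 * (d * η) ≤ 1) (hy0 : 0 ≤ y) (hy : 4 * d / η + 2 ≤ Real.exp y) (hβ : 0 < β)
    (ht : 0 < t) (hnd : √(Fintype.card κ) + 4 ≤ 2 * √(Fintype.card ι))
    (htF : t ^ 2 ≤ Fintype.card ι * (Fintype.card κ : ℝ) ^ 2 * F ^ 2)
    (hA : 2 * Real.exp (-(Fintype.card ι : ℝ) / 8) ≤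
      t ^ 2 / (200 * (Fintype.card ι * (Fintype.card κ : ℝ) ^ 2 * F ^ 2)))
    (hc : 2 * t + 2 * (y * d ^ 2) / β + 2 * F +
      1000 * β ^ 2 * (1000 / (ε * √(Fintype.card ι))) * σ ^ 3 * Fintype.card κ + 4 ≤ c)
    {Λ : Set (κ → ℝ)} (hΛ : ∀ l ∈ Λ, ∀ s : Finset κ, (fun j => if j ∈ s then l j else 0) ∈ Λ)
    {Φ₀ Φ₁ : (κ → κ → ℝ) → ℝ} (hi₀ : Integrable Φ₀ (gm κ κ)) (hi₁ : Integrable Φ₁ (gm κ κ))
    (hp₀ : ∀ B, 0 ≤ Φ₀ B) (hp₁ : ∀ B, 0 ≤ Φ₁ B) (h₀ : ∫ B, Φ₀ B ∂(gm κ κ) ≤ w₀)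
    (h₁ : ∫ B, Φ₁ B ∂(gm κ κ) ≤ w₁) (hw₁ : w₁ ≤ d)
    (hΦ : ∀ B (U : Matrix κ κ ℝ), Orth U → ∀ l ∈ Λ,
      ip (Matrix.of B) (spec U l) ≤ Φ₀ B + Φ₁ B * nrm l) :
    gm ι κ {x | ¬ ∀ U : Matrix κ κ ℝ, Orth U → ∀ l ∈ Λ, nrm l ≤ F → ∀ T : ℝ, |T| ≤ 2 * d →
        ε * √(Fintype.card ι) / 1000 *
          ((1 - ε) * √(Fintype.card ι) * √(2 * nrm l ^ 2 + T ^ 2) - √2 * (w₀ + w₁ * nrm l) - c) ≤
          ∑ i, |cq (spec U l) (x i) - T|} ≤
      ENNReal.ofReal (3 * Fintype.card ι * Real.exp (-(3 * √(Fintype.card κ)) / 4) +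
        Real.exp (y * (Fintype.card κ * k + k + 2 : ℕ)) *
        (200 * (Fintype.card ι * (Fintype.card κ : ℝ) ^ 2 * F ^ 2) / t ^ 2 *
          Real.exp (-(t / (8000 * F / ε)) ^ 2 / 8) + 2 * Real.exp (-(Fintype.card ι : ℝ) / 8) +
          Real.exp (-(ε ^ 2 * Fintype.card ι / 10 ^ 7)))) := by
  have hd1 : 1 ≤ d := by rw [← hd]; exact_mod_cast Fintype.card_pos
  have hn0 : (0 : ℝ) < Fintype.card ι := Nat.cast_pos.2 Fintype.card_pos
  have hs0 : 0 < √(Fintype.card ι : ℝ) := Real.sqrt_pos.2 hn0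
  have hs : √(Fintype.card ι : ℝ) ≤ d := Real.sqrt_le_iff.2 ⟨by linarith only [hσ, hσd], hn'⟩
  have hsd : √(Fintype.card κ : ℝ) ≤ d := Real.sqrt_le_iff.2 ⟨by linarith only [hσ, hσd], by rw [hd]; nlinarith only [hd1]⟩
  have hw0 : 0 ≤ w₁ := (integral_nonneg hp₁).trans h₁
  have hb : 0 ≤ 4 * d / η + 2 := by positivity
  have hδ : 0 ≤ d * η := by positivity
  obtain ⟨Θ, hΘ1, hΘ2, hΘ3⟩ := net_dom (k := k) hd hd1 (by rw [← hd]; exact_mod_cast hkd) hη
  choose I hI1 hI2 hI3 using fun θ : Matrix κ (Fin k) ℝ × (Fin k → ℝ) × ℝ × ℝ =>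
    net_mat hd hη (Cls (θ.1 * θ.1ᵀ) σ F θ.2.2.1 (3 * d * (d * η)) Φ₀ Φ₁) fun S hS => by
      linarith only [hσ, hσd, hFd, hS.2.2.1]
  obtain ⟨J, hJ1, hJ2, hJ3⟩ := net_vec (1000 / (ε * √(Fintype.card ι : ℝ))) hs hd1 hη
  rw [ENNReal.ofReal_add (by positivity) (by positivity), ENNReal.ofReal_mul (Real.exp_pos _).le]
  refine le_trans (measure_mono (t := {x : ι → κ → ℝ | ∃ i, 3 * √(Fintype.card κ : ℝ) * √(Fintype.card κ) <
    |x i ⬝ᵥ x i - (Fintype.card κ : ℝ)|} ∪ ⋃ θ ∈ Θ, Ev (I θ) J (spec θ.1 θ.2.1) θ.2.2.2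
      ((1 - ε) * √(Fintype.card ι) *
        √(2 * θ.2.2.1 ^ 2 + 2 * fro (spec θ.1 θ.2.1) ^ 2 + θ.2.2.2 ^ 2) -
        √2 * (w₀ + w₁ * θ.2.2.1) - (c - 2))) fun x hx => ?_)
    ((measure_union_le _ _).trans (add_le_add (tail_dot_self_gm _) ?_))
  · rw [Set.mem_setOf_eq] at hx
    push Not at hx
    obtain ⟨U, hU, l, hl, hlF, T, hT, hv⟩ := hx
    by_cases h : ∀ i, x i ⬝ᵥ x i ≤ 4 * Fintype.card κ
    · obtain ⟨θ, h1, h2⟩ := cover hd hd1 hs hs0 hε hε1 hσ hσd hFd hk hkd hδ hηd hw0 hw₁ hΛ hp₁ hΦ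
        hΘ1 hΘ3 hI3 hJ1 h hU hl hlF hT hv.le
      exact Or.inr (Set.mem_iUnion₂.2 ⟨θ, h1, h2⟩)
    · push Not at h
      obtain ⟨i, hi⟩ := h
      refine Or.inl ⟨i, lt_of_lt_of_le ?_ (le_abs_self _)⟩
      rw [mul_assoc, Real.mul_self_sqrt (Nat.cast_nonneg _)]
      linarith only [hi]
  · have aux : ∀ (f : _ → ℝ≥0∞) (p : ℝ≥0∞), (∀ θ ∈ Θ, f θ ≤ p) → ∑ θ ∈ Θ, f θ ≤
        ENNReal.ofReal (Real.exp (y * (Fintype.card κ * k + k + 2 : ℕ))) * p := fun f p h => by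
      refine (sum_le_card_nsmul _ _ _ h).trans ?_
      rw [nsmul_eq_mul, ← ENNReal.ofReal_natCast]
      exact mul_le_mul_left (ENNReal.ofReal_le_ofReal
        (log_le_of_pow (Nat.cast_nonneg _) hb hy0 hΘ2 hy).1) _
    refine (measure_biUnion_finset_le _ _).trans (aux _ _ fun θ hθ => ?_)
    obtain ⟨hV, hs', ha, ha', hT⟩ := hΘ1 θ hθ
    have l1 := (log_le_of_pow (Nat.cast_nonneg _) hb hy0 (hI2 θ) hy).2
    have l2 := (log_le_of_pow (Nat.cast_nonneg _) hb hy0 hJ2 hy).2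
    rw [Nat.cast_mul, hd, ← sq] at l1
    have l3 : (Real.log (I θ).card + Real.log J.card) / β ≤ 2 * (y * d ^ 2) / β :=
      div_le_div_of_nonneg_right (by linarith only [l1, l2, hn', hy0, mul_le_mul_of_nonneg_left hn' hy0]) hβ.le
    have s2 : √2 ≤ 2 := Real.sqrt_le_iff.2 ⟨by norm_num, by norm_num⟩
    have hd2 : d ≤ d ^ 2 := by nlinarith only [hd1]
    have l4 : √2 * (3 * d * (d * η)) *
        (w₁ + 1 + (Fintype.card κ : ℝ) ^ 2 + 2 * √(Fintype.card ι)) ≤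
        2 * (3 * d * (d * η)) * (5 * d ^ 2) :=
      mul_le_mul (mul_le_mul_of_nonneg_right s2 (by positivity)) (by rw [hd]; linarith only [hw₁, hd1, hs, hd2])
        (by positivity) (by positivity)
    have l5 : 0 ≤ d ^ 3 * (d * η) := by positivity
    refine theta_bound hlog (proj_transpose _) (proj_mul hV) (spec_isHermitian _ _)
      (spec_mul_proj hV _) hi₀ hi₁ hp₀ hp₁ h₀ h₁ hε hε1 hn ha (by positivity) hβ ht hF
      (δ := d * η) (M := 7 * d ^ 2) (by nlinarith only [mul_le_mul_of_nonneg_right ha' hδ, hδ, hd1]) ?_ ?_ hnd htF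
      hA (hI1 θ) hJ1 hJ3 (by linarith only [hηd, hc, l3, l4])
    · rw [fro_spec hV]
      have := mul_le_mul hs' (by linarith only [hd, hsd] : 4 * Fintype.card κ + √(Fintype.card κ : ℝ) ≤ 5 * d)
        (by positivity) (by linarith only [hσ, hσd])
      linarith only [hT, hd2, this]
    · have := mul_le_mul_of_nonneg_left (mul_le_mul_of_nonneg_right hs
        (by positivity : 0 ≤ 7 * d ^ 2)) hδ
      linarith only [hηd, this]

end UpperAux

end Pool.Agent.Work.MP_6a50bc_pr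
end

-- merged part: Pool.Agent.Work.MP_6a50bc_pr.Upper
section
namespace Pool.Agent.Work.MP_6a50bc_pr

open MeasureTheory ProbabilityTheory Matrix Finset
open scoped ENNReal

variable {ι κ : Type*} [Fintype ι] [DecidableEq ι] [Fintype κ] [DecidableEq κ]

/-- Matrices that violate the constraint of Gordon's auxiliary problem do not fit the points, even
approximately. -/
theorem upper {w ρ R ε w₀ w₁ : ℝ} (hd : (Fintype.card κ : ℝ) = w ^ 16) (hρ : 1 ≤ ρ) (hR : 1 ≤ R)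
    (hε : 0 < ε) (hε1 : ε ≤ 1) (hlog : Real.log (Fintype.card κ) ≤ ρ)
    (hn : (Fintype.card κ : ℝ) ^ 2 / ρ ≤ Fintype.card ι)
    (hn' : (Fintype.card ι : ℝ) ≤ (Fintype.card κ : ℝ) ^ 2)
    (hw : 10 ^ 12 * (ρ * R / ε) ^ 6 ≤ w)
    (Λ : Set (κ → ℝ)) (hΛ : ∀ l ∈ Λ, ∀ s : Finset κ, (fun j => if j ∈ s then l j else 0) ∈ Λ)
    (Φ₀ Φ₁ : (κ → κ → ℝ) → ℝ) (hi₀ : Integrable Φ₀ (gm κ κ)) (hi₁ : Integrable Φ₁ (gm κ κ))
    (hp₀ : ∀ B, 0 ≤ Φ₀ B) (hp₁ : ∀ B, 0 ≤ Φ₁ B) (h₀ : ∫ B, Φ₀ B ∂(gm κ κ) ≤ w₀)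
    (h₁ : ∫ B, Φ₁ B ∂(gm κ κ) ≤ w₁) (hw₁ : w₁ ≤ Fintype.card κ)
    (hΦ : ∀ B (U : Matrix κ κ ℝ), Orth U → ∀ l ∈ Λ,
      ip (Matrix.of B) (spec U l) ≤ Φ₀ B + Φ₁ B * nrm l) :
    gm ι κ {x | ¬ ∀ U : Matrix κ κ ℝ, Orth U → ∀ l ∈ Λ, nrm l ≤ R * √(Fintype.card κ) →
        ∀ T : ℝ, |T| ≤ 2 * Fintype.card κ →
          ε * √(Fintype.card ι) / 1000 *
            ((1 - ε) * √(Fintype.card ι) * √(2 * nrm l ^ 2 + T ^ 2) - √2 * (w₀ + w₁ * nrm l) -
              ε * Fintype.card κ * √(Fintype.card κ)) ≤ ∑ i, |cq (spec U l) (x i) - T|} ≤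
      ENNReal.ofReal (1 / w) := by
  obtain ⟨q, hρq, hRq, hq, hq', hw', hN⟩ := UpperAux.num_basic hρ hR hε hε1 (hd ▸ hn) hw
  have hq1 : 1 ≤ q := by linarith only [hρ, hρq, hq']
  have hw0 := UpperAux.pow_le_w hq1 hw' (Nat.zero_le 6)
  have hw1 := UpperAux.pow_le_w hq1 hw' (show 1 ≤ 6 by norm_num)
  rw [pow_zero] at hw0
  rw [pow_one] at hw1
  have hw2 : 1 ≤ w := by linarith
  have hp : ∀ {i j : ℕ}, i ≤ j → w ^ i ≤ w ^ j := fun h => pow_le_pow_right₀ hw2 h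
  have hp1 : ∀ {j : ℕ}, j ≠ 0 → w ≤ w ^ j := fun h => le_self_pow₀ hw2 h
  have hN1 : w ^ 31 ≤ Fintype.card ι := by
    have h1 := one_le_pow₀ hq1 (n := 5)
    have h2 : 0 < w ^ 31 := by positivity
    nlinarith only [hN, h2, h1]
  have hn0 : (0 : ℝ) < Fintype.card ι := lt_of_lt_of_le (by positivity) hN1
  have : Nonempty ι := Fintype.card_pos_iff.1 (Nat.cast_pos.1 hn0)
  have : Nonempty κ := Fintype.card_pos_iff.1 (Nat.cast_pos (α := ℝ).1 (by rw [hd]; positivity))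
  have hs : √(Fintype.card κ : ℝ) = w ^ 8 := by
    rw [hd, show w ^ 16 = (w ^ 8) ^ 2 by ring, Real.sqrt_sq (by positivity)]
  have hs' : w ^ 15 ≤ √(Fintype.card ι : ℝ) :=
    Real.le_sqrt_of_sq_le (by rw [← pow_mul]; exact (hp (by norm_num)).trans hN1)
  obtain ⟨k1, k2⟩ := UpperAux.num_card (k := (⌈R ^ 2 * w ^ 12⌉₊ : ℕ)) hρ hR (hq.trans_le hq') hw'
    (Nat.ceil_lt_add_one (by positivity)).le
  obtain ⟨m1, m2⟩ := UpperAux.num_net (d := Fintype.card κ)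
    (by rw [hd]; linarith only [hw0, hp1 (show 16 ≠ 0 by norm_num)]) hlog
  have key := UpperAux.core (ι := ι) (κ := κ) (k := ⌈R ^ 2 * w ^ 12⌉₊) (σ := w ^ 2) (F := R * w ^ 8)
    (β := 200 * ρ * w ^ 8 / ε) (t := ε * w ^ 24 / 8) (c := ε * w ^ 16 * w ^ 8) rfl hn'
    (by
      have h1 := Real.log_le_log hn0 hn'
      rw [Real.log_pow] at h1
      rw [hs]
      push_cast at h1
      linarith only [hlog, hρq, hq', hw0, hw1, h1, hp1 (show 8 ≠ 0 by norm_num)])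
    hε hε1
    (by
      have a1 : 1 ≤ (q * ε) ^ 3 * q ^ 2 * w ^ 31 := one_le_mul_of_one_le_of_one_le
        (one_le_mul_of_one_le_of_one_le (one_le_pow₀ (by linarith only [hρ, hρq])) (one_le_pow₀ hq1))
        (one_le_pow₀ hw2)
      have a2 := mul_le_mul_of_nonneg_left hN (by positivity : 0 ≤ ε ^ 3)
      nlinarith only [a1, a2])
    (by positivity) (by rw [hd]; exact hp (by norm_num)) (by positivity)
    (by
      rw [hd]
      calc R * w ^ 8 ≤ w * w ^ 8 := by gcongr; linarith only [hRq, hq', hw0, hw1]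
        _ = w ^ 9 := by ring
        _ ≤ _ := hp (by norm_num))
    (by
      calc (R * w ^ 8) ^ 2 = R ^ 2 * w ^ 12 * (w ^ 2) ^ 2 := by ring
        _ ≤ _ := by gcongr; exact Nat.le_ceil _)
    (by rw [← hd] at k1; exact_mod_cast k1) (by rw [hd]; positivity) m1 (by positivity) m2
    (by positivity) (by positivity)
    (by rw [hs]; linarith only [hw0, hs', hp (show 8 ≤ 15 by norm_num), hp1 (show 15 ≠ 0 by norm_num)])
    (by
      rw [hd]
      calc (ε * w ^ 24 / 8) ^ 2 = (ε / 8) ^ 2 * (w ^ 16) ^ 2 * (1 * w ^ 8) ^ 2 := by ring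
        _ ≤ _ := by
          gcongr
          nlinarith only [hε1, hN1, hn0, hw2, hε, one_le_pow₀ hw2 (n := 31)])
    (by rw [hd]; exact UpperAux.num_hA hR hε hRq hq1 hw2 hN)
    (by rw [hd]; exact UpperAux.num_hc hρ hε hρq hRq hq' hw' hs')
    hΛ hi₀ hi₁ hp₀ hp₁ h₀ h₁ hw₁ hΦ
  rw [hs, hd] at key ⊢
  rw [hd] at hn'
  refine key.trans (ENNReal.ofReal_le_ofReal ?_)
  have f1 := UpperAux.num_tail (by linarith only [hw0]) hn'
  have f2 := UpperAux.num_union (by linarith only [hw0]) k2 (by positivity)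
    (UpperAux.num_p hR hε hRq hq' hw' hN hn')
  push_cast
  rw [hd, show 1 / w = 1 / (2 * w) + 1 / (2 * w) by field_simp; ring]
  exact add_le_add f1 f2

end Pool.Agent.Work.MP_6a50bc_pr
end

-- merged part: Pool.Agent.Work.MP_6a50bc_pr.LargeAux0
section
namespace Pool.Agent.Work.MP_6a50bc_pr

open MeasureTheory ProbabilityTheory Matrix Finset
open scoped ENNReal

/-- The normalised parameters together with their relation to the sizes. -/
structure Ctx (ι κ : Type*) [Fintype ι] [Fintype κ] [DecidableEq κ]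
    (w ρ K q τ m₁ m₂ φ ε σ : ℝ) : Prop where
  P : LargeNum.Par w ρ K q τ m₁ m₂ φ
  hd : (Fintype.card κ : ℝ) = w ^ 16
  hn : (Fintype.card ι : ℝ) = q ^ 2 * w ^ 32
  hlog : Real.log (Fintype.card κ) ≤ ρ
  hμ₁ : mu1 κ (τ * w ^ 8) = m₁ * w ^ 24
  hμ₂ : mu2 κ (τ * w ^ 8) = m₂ * w ^ 32
  hε : ε = 1 / (10 ^ 24 * K ^ 7)
  hσ : σ = 1 / (10 ^ 20 * K ^ 4)

lemma pow_le_big {k : ℕ} (hk : k ≤ 300) : (10 : ℝ) ^ k ≤ 10 ^ 300 :=
  pow_le_pow_right₀ (by norm_num) hk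

lemma meas_not_le {α : Type*} [MeasurableSpace α] {μ : Measure α} {p p' : α → Prop} {c : ℝ≥0∞}
    (h : μ {x | ¬ p x} ≤ c) (hp : ∀ x, p x → p' x) : μ {x | ¬ p' x} ≤ c :=
  le_trans (measure_mono fun x hx h' => hx (hp x h')) h

namespace Ctx

variable {ι κ : Type*} [Fintype ι] [Fintype κ] [DecidableEq κ]
  {w ρ K q τ m₁ m₂ φ ε σ : ℝ} (C : Ctx ι κ w ρ K q τ m₁ m₂ φ ε σ)
include C

lemma w0 : 0 < w := C.P.w0

lemma K0 : 0 < K := C.P.K0

lemma big {a k : ℕ} (ha : a ≤ 300) (hk : k ≤ 100) : 10 ^ a * K ^ k ≤ w :=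
  C.P.le_w (pow_le_big ha) hk

lemma big' {a k j : ℕ} (ha : a ≤ 300) (hk : k ≤ 100) (hj : j ≠ 0) : 10 ^ a * K ^ k ≤ w ^ j :=
  C.P.le_pow (pow_le_big ha) hk hj

lemma sqrt_d : √(Fintype.card κ : ℝ) = w ^ 8 := by
  have := C.w0
  rw [C.hd, show w ^ 16 = (w ^ 8) ^ 2 by ring, Real.sqrt_sq (by positivity)]

lemma sqrt_n : √(Fintype.card ι : ℝ) = q * w ^ 16 := by
  have := C.w0
  have := C.P.hq0
  rw [C.hn, show q ^ 2 * w ^ 32 = (q * w ^ 16) ^ 2 by ring, Real.sqrt_sq (by positivity)]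

lemma n_ge : (Fintype.card κ : ℝ) ^ 2 / ρ ≤ Fintype.card ι := by
  have := C.w0
  rw [C.hd, C.hn]
  calc (w ^ 16) ^ 2 / ρ = 1 / ρ * w ^ 32 := by ring
    _ ≤ _ := mul_le_mul_of_nonneg_right C.P.hq (by positivity)

lemma n_le : (Fintype.card ι : ℝ) ≤ (Fintype.card κ : ℝ) ^ 2 := by
  have := C.w0
  rw [C.hd, C.hn]
  linarith only [this, mul_le_mul_of_nonneg_right C.P.q2 (show 0 ≤ w ^ 32 by positivity),
    show 0 ≤ w ^ 32 by positivity]

lemma d_ge : 10 ^ 4 ≤ Fintype.card κ := by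
  have h := C.big' (a := 4) (k := 0) (j := 16) (by norm_num) (by norm_num) (by norm_num)
  rw [← C.hd, pow_zero, mul_one] at h
  exact_mod_cast h

lemma ε0 : 0 < ε := by have := C.K0; rw [C.hε]; positivity

lemma σ0 : 0 < σ := by have := C.K0; rw [C.hσ]; positivity

lemma ε1 : ε ≤ 1 := C.hε ▸ C.P.inv_le_one _ _ (by norm_num)

lemma σ1 : σ ≤ 1 := C.hσ ▸ C.P.inv_le_one _ _ (by norm_num)

lemma εK : 10 ^ 24 * K ^ 7 * ε = 1 := by have := C.K0; rw [C.hε]; field_simp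

lemma εσ : 100 * ε ≤ σ := by
  have hK := C.K0
  have e1 : 10 ^ 4 * K ^ 3 * ε = σ := by rw [C.hε, C.hσ]; field_simp
  rw [← e1]
  linarith [mul_le_mul_of_nonneg_right (one_le_pow₀ (n := 3) C.P.K1) C.ε0.le, C.ε0]

lemma σφ : 2 * σ ≤ φ := by
  have hK := C.K0
  refine le_trans ?_ C.P.hφ1
  rw [C.hσ, mul_one_div, div_le_div_iff₀ (by positivity) (by positivity)]
  linarith [le_self_pow₀ C.P.K1 (show 4 ≠ 0 by norm_num)]

lemma Kq : 1 ≤ K * q := C.P.q_ge.trans (mul_le_mul_of_nonneg_right C.P.hK C.P.hq0.le)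

lemma m₂_le : m₂ ≤ 1 := by linarith only [C.P.ha, C.P.q2, mul_pos C.P.τ0 C.P.m₁0]

lemma exp_le : Real.exp (-(20 * ρ) / 4) ≤ 1 / w ^ 80 := by
  have hw := C.w0
  have h1 : w ^ 16 ≤ Real.exp ρ := by
    rw [← Real.log_le_iff_le_exp (by positivity), ← C.hd]; exact C.hlog
  rw [show -(20 * ρ) / 4 = -(5 * ρ) by ring, Real.exp_neg, one_div]
  refine inv_anti₀ (by positivity) ?_
  rw [show 5 * ρ = (5 : ℕ) * ρ by norm_num, Real.exp_nat_mul, show w ^ 80 = (w ^ 16) ^ 5 by ring]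
  exact pow_le_pow_left₀ (by positivity) h1 5

lemma prob1 : 3 * Fintype.card ι * Real.exp (-(20 * ρ) / 4) ≤ 1 / (2 * w) := by
  have hw := C.w0
  have h1 : (Fintype.card ι : ℝ) ≤ w ^ 32 := by
    have := C.n_le
    rw [C.hd] at this
    linarith
  have h2 := C.big' (a := 1) (k := 0) (j := 47) (by norm_num) (by norm_num) (by norm_num)
  calc 3 * Fintype.card ι * Real.exp (-(20 * ρ) / 4) ≤ 3 * w ^ 32 * (1 / w ^ 80) :=
        mul_le_mul (by linarith) C.exp_le (by positivity) (by positivity)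
    _ = 3 / (w ^ 47 * w) := by field_simp
    _ ≤ 1 / (2 * w) := by
        rw [div_le_div_iff₀ (by positivity) (by positivity)]
        nlinarith only [h2, hw]

lemma prob2 : Fintype.card ι * (10 ^ 6 * Fintype.card κ *
    Real.exp (-√(Fintype.card κ : ℝ) / 512)) ≤ 1 / (2 * w) := by
  have hw := C.w0
  have h1 : (Fintype.card ι : ℝ) ≤ w ^ 32 := by
    have := C.n_le
    rw [C.hd] at this
    linarith
  have h2 := C.big' (a := 40) (k := 0) (j := 7) (by norm_num) (by norm_num) (by norm_num)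
  have h3 := Real.pow_div_factorial_le_exp (w ^ 8 / 512) (by positivity) 7
  have h4 : 10 ^ 7 * w ^ 49 ≤ Real.exp (w ^ 8 / 512) := by
    refine le_trans ?_ h3
    rw [le_div_iff₀ (by positivity), div_pow, le_div_iff₀ (by positivity)]
    have h5 := mul_le_mul_of_nonneg_right h2 (show 0 ≤ w ^ 49 by positivity)
    have h6 : 0 ≤ w ^ 49 := by positivity
    norm_num [Nat.factorial] at h5 ⊢
    linarith
  rw [C.sqrt_d, C.hd, neg_div, Real.exp_neg]
  calc Fintype.card ι * (10 ^ 6 * w ^ 16 * (Real.exp (w ^ 8 / 512))⁻¹)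
      ≤ w ^ 32 * (10 ^ 6 * w ^ 16 * (10 ^ 7 * w ^ 49)⁻¹) :=
        mul_le_mul h1 (mul_le_mul_of_nonneg_left (inv_anti₀ (by positivity) h4) (by positivity))
          (by positivity) (by positivity)
    _ = 1 / (10 * w) := by field_simp
    _ ≤ 1 / (2 * w) := one_div_le_one_div_of_le (by positivity) (by linarith)

/-- The squared lengths of the points concentrate. -/
lemma dot_ev [DecidableEq ι] :
    gm ι κ {x | ¬ ∀ i, |x i ⬝ᵥ x i - w ^ 16| ≤ 20 * ρ * w ^ 8} ≤ ENNReal.ofReal (1 / (2 * w)) := by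
  have h := tail_dot_self_gm (ι := ι) (κ := κ) (20 * ρ)
  rw [C.sqrt_d, C.hd] at h
  refine le_trans (measure_mono fun x hx => ?_) (h.trans (ENNReal.ofReal_le_ofReal C.prob1))
  simpa using hx

end Ctx

end Pool.Agent.Work.MP_6a50bc_pr
end

-- merged part: Pool.Agent.Work.MP_6a50bc_pr.LargeAux1
section
namespace Pool.Agent.Work.MP_6a50bc_pr

open MeasureTheory ProbabilityTheory Matrix Finset
open scoped ENNReal

variable {ι κ : Type*} [Fintype ι] [Fintype κ] [DecidableEq κ]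

/-- Eigenvalue vectors with bounded nuclear norm, small negative part and few large entries. -/
def Lam (κ : Type*) [Fintype κ] (N l₀ : ℝ) (r : ℕ) : Set (κ → ℝ) :=
  {l | ∑ j, |l j| ≤ Fintype.card κ ∧ ∑ j, max (-l j) 0 ≤ N ∧
    (univ.filter fun j => l₀ ≤ l j).card < r}

lemma lam_closed {N l₀ : ℝ} {r : ℕ} (h0 : 0 < l₀) (l : κ → ℝ) (hl : l ∈ Lam κ N l₀ r)
    (s : Finset κ) : (fun j => if j ∈ s then l j else 0) ∈ Lam κ N l₀ r := by
  obtain ⟨h1, h2, h3⟩ := hl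
  refine ⟨le_trans (sum_le_sum fun j _ => ?_) h1, le_trans (sum_le_sum fun j _ => ?_) h2,
    lt_of_le_of_lt (card_le_card fun j hj => ?_) h3⟩
  · dsimp only; split_ifs <;> simp
  · dsimp only; split_ifs <;> simp
  · simp only [mem_filter, mem_univ, true_and] at hj ⊢
    split_ifs at hj
    · exact hj
    · linarith

lemma opn_goe_le {t : ℝ} (ht : 0 ≤ t) (B : κ → κ → ℝ) :
    opn (goe t B) ≤ opn (Matrix.of B) + t := by
  rw [goe_eq]
  refine (opn_sub_le _ _).trans (add_le_add (opn_goe_zero_le B) ?_)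
  rw [opn_smul, abs_of_nonneg ht]
  exact mul_le_of_le_one_right ht opn_one_le

lemma ip_le_lam {N l₀ t F : ℝ} {r : ℕ} (h0 : 0 < l₀) (ht : 0 ≤ t) (hF : 0 ≤ F) (B : κ → κ → ℝ)
    {U : Matrix κ κ ℝ} (hU : Orth U)
    (hΦ : ∀ l : κ → ℝ, (∀ j, 0 ≤ l j) → (univ.filter fun j => l j ≠ 0).card < r →
      ip (pos (goe t B)) (spec U l) ≤ F * nrm l) {l : κ → ℝ} (hl : l ∈ Lam κ N l₀ r) :
    ip (Matrix.of B) (spec U l) ≤ (t * Fintype.card κ + l₀ * (pos (goe t B)).trace +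
      (opn (Matrix.of B) + t) * N) + F * nrm l := by
  obtain ⟨h1, h2, h3⟩ := hl
  set a : κ → ℝ := fun j => if l₀ ≤ l j then l j else 0 with ha
  set b : κ → ℝ := fun j => if l₀ ≤ l j then 0 else max (l j) 0 with hb
  set c : κ → ℝ := fun j => max (-l j) 0 with hc
  have ha0 : ∀ j, 0 ≤ a j := fun j => by simp only [ha]; split_ifs <;> linarith
  have hb0 : ∀ j, 0 ≤ b j := fun j => by simp only [hb]; split_ifs <;> simp
  have hc0 : ∀ j, 0 ≤ c j := fun j => le_max_right _ _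
  have e : l = a + b - c := by
    funext j
    simp only [ha, hb, hc, Pi.add_apply, Pi.sub_apply]
    split_ifs with h
    · rw [max_eq_right (by linarith)]; ring
    · rw [zero_add, max_zero_sub_max_neg_zero_eq_self]
  have k0 := ip_goe t B (spec_isHermitian U l)
  have k1 : (spec U l).trace ≤ Fintype.card κ := by
    rw [trace_spec hU]; exact (sum_le_sum fun j _ => le_abs_self _).trans h1
  have k2 : ip (goe t B) (spec U a) ≤ F * nrm l := by
    refine (ip_le_ip_pos (goe_isHermitian t B) (spec_posSemidef U ha0)).trans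
      ((hΦ a ha0 (lt_of_le_of_lt (card_le_card fun j hj => ?_) h3)).trans
        (mul_le_mul_of_nonneg_left (nrm_mono fun j => ?_) hF))
    · simp only [mem_filter, mem_univ, true_and, ha] at hj ⊢
      by_contra h
      exact hj (if_neg h)
    · simp only [ha]; split_ifs <;> simp
  have k3 : ip (goe t B) (spec U b) ≤ l₀ * (pos (goe t B)).trace := by
    refine (ip_le_ip_pos (goe_isHermitian t B) (spec_posSemidef U hb0)).trans ?_
    rw [ip_comm]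
    refine ((le_abs_self _).trans (abs_ip_le_opn_mul_trace _ (pos_posSemidef _))).trans
      (mul_le_mul_of_nonneg_right (opn_spec_le hU h0.le fun j => ?_)
        (pos_posSemidef _).trace_nonneg)
    rw [abs_of_nonneg (hb0 j)]
    simp only [hb]
    split_ifs with h
    · exact h0.le
    · exact max_le (not_le.1 h).le h0.le
  have k4 : -ip (goe t B) (spec U c) ≤ (opn (Matrix.of B) + t) * N := by
    refine ((neg_le_abs _).trans (abs_ip_le_opn_mul_trace _ (spec_posSemidef U hc0))).trans ?_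
    rw [trace_spec hU]
    exact mul_le_mul (opn_goe_le ht B) h2 (sum_nonneg fun j _ => hc0 j)
      (add_nonneg (opn_nonneg _) ht)
  have k5 : ip (goe t B) (spec U l) =
      ip (goe t B) (spec U a) + ip (goe t B) (spec U b) - ip (goe t B) (spec U c) := by
    conv_lhs => rw [e]
    rw [spec_sub, spec_add, ip_sub_right, ip_add_right]
  linarith only [k0, k2, k3, k4, k5, k1, ht, mul_le_mul_of_nonneg_left k1 ht]

/-- The normalised conclusion of the upper bound. -/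
def UpEv (w q R ε ω β N l₀ : ℝ) (r : ℕ) (x : ι → κ → ℝ) : Prop :=
  ∀ U : Matrix κ κ ℝ, Orth U → ∀ l ∈ Lam κ N l₀ r, nrm l ≤ R * w ^ 8 → ∀ ζ : ℝ, 0 ≤ ζ →
    1000 * ∑ i, |w ^ 16 - qf (spec U l) (x i)| ≤ ζ * (ε * q * (w ^ 16) ^ 2 * w ^ 8) →
    (1 - ε) ^ 2 * q ^ 2 * (2 * (nrm l / w ^ 8) ^ 2 + ((w ^ 16 - ∑ j, l j) / w ^ 8) ^ 2) ≤
      2 * (ω + ε + ζ + β * (nrm l / w ^ 8)) ^ 2

lemma fro_pos_int (t : ℝ) :
    Integrable (fun B : κ → κ → ℝ => fro (pos (goe t B))) (gm κ κ) ∧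
      (∫ B, fro (pos (goe t B)) ∂(gm κ κ)) ^ 2 ≤ mu2 κ t := by
  have hm : MemLp (fun B : κ → κ → ℝ => fro (pos (goe t B))) 2 (gm κ κ) :=
    (memLp_two_iff_integrable_sq (by fun_prop : Continuous _).aestronglyMeasurable).2
      (integrable_fro_pos_sq t)
  refine ⟨hm.integrable one_le_two, ?_⟩
  have h := variance_nonneg (fun B : κ → κ → ℝ => fro (pos (goe t B))) (gm κ κ)
  rw [variance_eq_sub hm] at h
  exact sub_nonneg.1 h

namespace Ctx

variable {w ρ K q τ m₁ m₂ φ ε σ : ℝ} (C : Ctx ι κ w ρ K q τ m₁ m₂ φ ε σ)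
include C

theorem upper_app [DecidableEq ι] {ε' N ω g : ℝ} {r : ℕ} (h1 : ε ≤ ε') (h2 : ε' ≤ 1) (hN : 0 ≤ N)
    (hω : τ * w ^ 24 + ε * w ^ 24 + 6 * w ^ 8 * N ≤ ω * w ^ 24) (hg : 0 ≤ g)
    {Φ : (κ → κ → ℝ) → ℝ} (hi : Integrable Φ (gm κ κ)) (hp : ∀ B, 0 ≤ Φ B)
    (hE : (∫ B, Φ B ∂(gm κ κ)) ^ 2 ≤ (m₂ - g) * w ^ 32)
    (hΦ : ∀ B (U : Matrix κ κ ℝ) (l : κ → ℝ), Orth U → (∀ j, 0 ≤ l j) →
      (univ.filter fun j => l j ≠ 0).card < r →
      ip (pos (goe (τ * w ^ 8) B)) (spec U l) ≤ Φ B * nrm l) :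
    ∃ β, β ^ 2 ≤ m₂ - g ∧ 0 ≤ β ∧
      gm ι κ {x | ¬ UpEv w q (10 ^ 8 * K ^ 3) ε' ω β N ε r x} ≤ ENNReal.ofReal (1 / w) := by
  have hw := C.w0
  have hK := C.K0
  have hε := C.ε0
  have hτ := C.P.τ0
  have hρ := C.P.ρ0
  have hε' : 0 < ε' := hε.trans_le h1
  set w₁ := ∫ B, Φ B ∂(gm κ κ) with hw₁
  have hw₁0 : 0 ≤ w₁ := integral_nonneg hp
  refine ⟨w₁ / w ^ 16, ?_, by positivity, ?_⟩
  · rw [div_pow, div_le_iff₀ (by positivity)]
    exact hE.trans_eq (by ring)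
  have i1 := integrable_trace_pos (κ := κ) (τ * w ^ 8)
  obtain ⟨i2, i3⟩ := integral_opn_le (ι := κ) (κ := κ)
  have i4 : Integrable (fun B : κ → κ → ℝ => (opn (Matrix.of B) + τ * w ^ 8) * N) (gm κ κ) :=
    (i2.add (integrable_const _)).mul_const N
  have i5 : Integrable (fun B : κ → κ → ℝ => τ * w ^ 8 * Fintype.card κ +
      ε * (pos (goe (τ * w ^ 8) B)).trace) (gm κ κ) := (integrable_const _).add (i1.const_mul ε)
  have key := upper (ι := ι) (κ := κ) (w := w) (ρ := ρ) (R := 10 ^ 8 * K ^ 3) (ε := ε')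
    (w₀ := ω * w ^ 16 * w ^ 8) (w₁ := w₁) C.hd C.P.hρ
    (by linarith [one_le_pow₀ (n := 3) C.P.K1]) hε' h2 C.hlog C.n_ge C.n_le ?_ (Lam κ N ε r)
    (lam_closed hε) (fun B => τ * w ^ 8 * Fintype.card κ + ε * (pos (goe (τ * w ^ 8) B)).trace +
      (opn (Matrix.of B) + τ * w ^ 8) * N) Φ (i5.add i4) hi (fun B => ?_) hp ?_ le_rfl ?_
    (fun B U hU l hl => ip_le_lam hε (by positivity) (hp B) B hU (fun l => hΦ B U l hU) hl)
  · refine meas_not_le key fun x h U hU l hl hR ζ hζ hres => ?_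
    have h3 := h U hU l hl (by rwa [C.sqrt_d]) (w ^ 16 - ∑ j, l j) (by
      have h4 := (abs_sum_le_sum_abs l univ).trans hl.1
      rw [C.hd] at h4 ⊢
      rw [abs_le] at h4 ⊢
      constructor <;> linarith only [h4, show 0 ≤ w ^ 16 by positivity])
    rw [C.sqrt_d, C.sqrt_n, C.hd] at h3
    refine LargeNum.up_norm (by positivity) (by ring) hε' h2 C.P.hq0 hζ h3 ?_ le_rfl
    refine le_trans (le_of_eq ?_) hres
    congr 1
    refine sum_congr rfl fun i _ => ?_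
    rw [cq, trace_spec hU, abs_sub_comm]
    congr 1
    ring
  · refine le_trans ?_ (C.big (a := 204) (k := 66) (by norm_num) (by norm_num))
    have h3 : ρ * (10 ^ 8 * K ^ 3) / ε' ≤ 10 ^ 32 * K ^ 11 := by
      rw [div_le_iff₀ hε']
      calc ρ * (10 ^ 8 * K ^ 3) ≤ K * (10 ^ 8 * K ^ 3) * (10 ^ 24 * K ^ 7 * ε) := by
            rw [C.εK, mul_one]; exact mul_le_mul_of_nonneg_right C.P.hK (by positivity)
        _ = 10 ^ 32 * K ^ 11 * ε := by ring
        _ ≤ _ := mul_le_mul_of_nonneg_left h1 (by positivity)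
    calc 10 ^ 12 * (ρ * (10 ^ 8 * K ^ 3) / ε') ^ 6 ≤ 10 ^ 12 * (10 ^ 32 * K ^ 11) ^ 6 :=
          mul_le_mul_of_nonneg_left (pow_le_pow_left₀ (by positivity) h3 6) (by positivity)
      _ = _ := by ring
  · have := (pos_posSemidef (goe (τ * w ^ 8) B)).trace_nonneg
    have := opn_nonneg (Matrix.of B)
    positivity
  · rw [integral_add i5 i4, integral_add (integrable_const _) (i1.const_mul ε),
      integral_mul_const N, integral_add i2 (integrable_const _), integral_const_mul ε]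
    have h3 : ∫ B, (pos (goe (τ * w ^ 8) B)).trace ∂(gm κ κ) = m₁ * w ^ 24 := C.hμ₁
    simp only [integral_const, probReal_univ, smul_eq_mul, one_mul]
    rw [C.sqrt_d] at i3
    rw [h3, C.hd]
    have h4 : 1 ≤ w ^ 8 := one_le_pow₀ C.P.w1
    have h5 := mul_le_mul_of_nonneg_right C.P.hτ' (show 0 ≤ w ^ 8 by positivity)
    have h6 := mul_le_mul_of_nonneg_right C.P.hm₁' (show 0 ≤ ε * w ^ 24 by positivity)
    have h7 : (∫ B, opn (Matrix.of B) ∂(gm κ κ) + τ * w ^ 8) * N ≤ 6 * w ^ 8 * N :=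
      mul_le_mul_of_nonneg_right (by linarith) hN
    linarith
  · rw [C.hd]
    refine le_of_sq_le_sq (hE.trans ?_) (by positivity)
    linarith [mul_le_mul_of_nonneg_right (show m₂ - g ≤ 1 by linarith [C.m₂_le])
      (show 0 ≤ w ^ 32 by positivity)]

theorem upper_fro [DecidableEq ι] {ε' N ω : ℝ} (h1 : ε ≤ ε') (h2 : ε' ≤ 1) (hN : 0 ≤ N)
    (hω : τ * w ^ 24 + ε * w ^ 24 + 6 * w ^ 8 * N ≤ ω * w ^ 24) :
    ∃ β, β ^ 2 ≤ m₂ - 0 ∧ 0 ≤ β ∧
      gm ι κ {x | ¬ UpEv w q (10 ^ 8 * K ^ 3) ε' ω β N ε (Fintype.card κ + 1) x} ≤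
        ENNReal.ofReal (1 / w) := by
  obtain ⟨i1, i2⟩ := fro_pos_int (κ := κ) (τ * w ^ 8)
  refine C.upper_app h1 h2 hN hω le_rfl i1 (fun B => fro_nonneg _) ?_ fun B U l hU _ _ => ?_
  · rwa [sub_zero, ← C.hμ₂]
  · rw [← fro_spec hU]; exact ip_le _ _

end Ctx

end Pool.Agent.Work.MP_6a50bc_pr
end
end
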