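import Pool.Agent.Work.MP_6a50bc_pr.Defs

/-! Norms, inner products and quadratic forms. -/

namespace Pool.Agent.Work.MP_6a50bc_pr

open Matrix Finset

variable {ι κ m n p : Type*}

section Nrm

variable [Fintype κ]

lemma nrm_nonneg (v : κ → ℝ) : 0 ≤ nrm v := Real.sqrt_nonneg _

lemma dot_self_nonneg (v : κ → ℝ) : 0 ≤ v ⬝ᵥ v := sum_nonneg fun _ _ => mul_self_nonneg _

lemma nrm_sq (v : κ → ℝ) : nrm v ^ 2 = v ⬝ᵥ v := Real.sq_sqrt (dot_self_nonneg v)

lemma nrm_eq_norm (v : κ → ℝ) : nrm v = ‖(WithLp.toLp 2 v : EuclideanSpace ℝ κ)‖ := by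
  rw [EuclideanSpace.norm_eq, nrm]
  congr 1
  simp [dotProduct, sq]

lemma dot_eq_inner (v w : κ → ℝ) :
    v ⬝ᵥ w = inner ℝ (WithLp.toLp 2 v : EuclideanSpace ℝ κ) (WithLp.toLp 2 w) := by
  simp [PiLp.inner_apply, dotProduct, mul_comm]

lemma abs_dot_le (v w : κ → ℝ) : |v ⬝ᵥ w| ≤ nrm v * nrm w := by
  rw [dot_eq_inner, nrm_eq_norm, nrm_eq_norm]; exact abs_real_inner_le_norm _ _

lemma dot_le (v w : κ → ℝ) : v ⬝ᵥ w ≤ nrm v * nrm w := (le_abs_self _).trans (abs_dot_le v w)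

lemma nrm_add_le (v w : κ → ℝ) : nrm (v + w) ≤ nrm v + nrm w := by
  simp only [nrm_eq_norm, WithLp.toLp_add]; exact norm_add_le _ _

lemma nrm_sub_le (v w : κ → ℝ) : nrm (v - w) ≤ nrm v + nrm w := by
  simp only [nrm_eq_norm, WithLp.toLp_sub]; exact norm_sub_le _ _

lemma abs_nrm_sub_le (v w : κ → ℝ) : |nrm v - nrm w| ≤ nrm (v - w) := by
  simp only [nrm_eq_norm, WithLp.toLp_sub]; exact abs_norm_sub_norm_le _ _

lemma nrm_smul (c : ℝ) (v : κ → ℝ) : nrm (c • v) = |c| * nrm v := by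
  simp only [nrm_eq_norm, WithLp.toLp_smul, norm_smul, Real.norm_eq_abs]

@[simp] lemma nrm_neg (v : κ → ℝ) : nrm (-v) = nrm v := by simp [nrm]

lemma nrm_sub_comm (v w : κ → ℝ) : nrm (v - w) = nrm (w - v) := by rw [← nrm_neg, neg_sub]

@[simp] lemma nrm_zero : nrm (0 : κ → ℝ) = 0 := by simp [nrm]

lemma nrm_eq_zero {v : κ → ℝ} : nrm v = 0 ↔ v = 0 := by
  rw [nrm_eq_norm, norm_eq_zero]; simp

lemma nrm_pos {v : κ → ℝ} (h : v ≠ 0) : 0 < nrm v :=
  (nrm_nonneg v).lt_of_ne fun h' => h (nrm_eq_zero.mp h'.symm)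

lemma dot_self_pos {v : κ → ℝ} (h : v ≠ 0) : 0 < v ⬝ᵥ v := by
  rw [← nrm_sq]; exact pow_pos (nrm_pos h) 2

lemma nrm_le_iff {v : κ → ℝ} {c : ℝ} (hc : 0 ≤ c) : nrm v ≤ c ↔ v ⬝ᵥ v ≤ c ^ 2 :=
  Real.sqrt_le_left hc

lemma nrm_eq_one_iff {v : κ → ℝ} : nrm v = 1 ↔ v ⬝ᵥ v = 1 := Real.sqrt_eq_one

lemma abs_le_nrm (v : κ → ℝ) (i : κ) : |v i| ≤ nrm v := by
  refine Real.abs_le_sqrt ?_
  rw [sq]
  exact single_le_sum (f := fun j => v j * v j) (fun _ _ => mul_self_nonneg _) (mem_univ i)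

lemma nrm_le_of_abs_le {v : κ → ℝ} {η : ℝ} (hη : 0 ≤ η) (h : ∀ i, |v i| ≤ η) :
    nrm v ≤ √(Fintype.card κ) * η := by
  rw [nrm_le_iff (by positivity), mul_pow, Real.sq_sqrt (Nat.cast_nonneg _)]
  have := sum_le_card_nsmul univ (fun i => v i * v i) (η ^ 2) fun i _ => by
    rw [← sq]; exact sq_le_sq' (abs_le.mp (h i)).1 (abs_le.mp (h i)).2
  simpa [dotProduct] using this

lemma nrm_mono {v w : κ → ℝ} (h : ∀ i, |v i| ≤ |w i|) : nrm v ≤ nrm w :=
  Real.sqrt_le_sqrt (sum_le_sum fun i _ => by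
    rw [← sq, ← sq]; exact sq_le_sq.mpr (h i))

lemma sum_abs_le (v : κ → ℝ) : ∑ i, |v i| ≤ √(Fintype.card κ) * nrm v := by
  have h := dot_le (fun _ : κ => (1 : ℝ)) (fun i => |v i|)
  have h1 : nrm (fun i => |v i|) = nrm v :=
    le_antisymm (nrm_mono fun i => by simp) (nrm_mono fun i => by simp)
  rw [h1] at h
  simpa [dotProduct, nrm] using h

@[fun_prop] lemma continuous_nrm {X : Type*} [TopologicalSpace X] {f : X → κ → ℝ}
    (hf : Continuous f) : Continuous fun x => nrm (f x) := by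
  unfold nrm dotProduct; fun_prop

end Nrm

section Fro

variable [Fintype m] [Fintype n]

lemma ip_eq_dot (A B : Matrix m n ℝ) :
    ip A B = (fun q : m × n => A q.1 q.2) ⬝ᵥ fun q => B q.1 q.2 := by
  simp [ip, dotProduct, Fintype.sum_prod_type]

lemma fro_eq_nrm (A : Matrix m n ℝ) : fro A = nrm fun q : m × n => A q.1 q.2 := by
  rw [fro, ip_eq_dot, nrm]

lemma ip_comm (A B : Matrix m n ℝ) : ip A B = ip B A := by simp [ip, mul_comm]

lemma ip_add_left (A B C : Matrix m n ℝ) : ip (A + B) C = ip A C + ip B C := by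
  simp [ip, add_mul, sum_add_distrib]

lemma ip_add_right (A B C : Matrix m n ℝ) : ip A (B + C) = ip A B + ip A C := by
  simp [ip, mul_add, sum_add_distrib]

lemma ip_sub_left (A B C : Matrix m n ℝ) : ip (A - B) C = ip A C - ip B C := by
  simp [ip, sub_mul]

lemma ip_sub_right (A B C : Matrix m n ℝ) : ip A (B - C) = ip A B - ip A C := by
  simp [ip, mul_sub]

lemma ip_smul_left (c : ℝ) (A B : Matrix m n ℝ) : ip (c • A) B = c * ip A B := by
  simp [ip, mul_sum, mul_assoc]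

lemma ip_smul_right (c : ℝ) (A B : Matrix m n ℝ) : ip A (c • B) = c * ip A B := by
  simp [ip, mul_sum, mul_left_comm]

lemma ip_neg_left (A B : Matrix m n ℝ) : ip (-A) B = -ip A B := by simp [ip]

lemma ip_neg_right (A B : Matrix m n ℝ) : ip A (-B) = -ip A B := by simp [ip]

@[simp] lemma ip_zero_left (A : Matrix m n ℝ) : ip 0 A = 0 := by simp [ip]

@[simp] lemma ip_zero_right (A : Matrix m n ℝ) : ip A 0 = 0 := by simp [ip]

lemma ip_sum_left {α : Type*} (s : Finset α) (A : α → Matrix m n ℝ) (B : Matrix m n ℝ) :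
    ip (∑ a ∈ s, A a) B = ∑ a ∈ s, ip (A a) B := by
  classical
  induction s using Finset.induction_on with
  | empty => simp
  | insert a s h ih => rw [sum_insert h, sum_insert h, ip_add_left, ih]

lemma ip_sum_right {α : Type*} (s : Finset α) (A : Matrix m n ℝ) (B : α → Matrix m n ℝ) :
    ip A (∑ a ∈ s, B a) = ∑ a ∈ s, ip A (B a) := by
  rw [ip_comm, ip_sum_left]; simp_rw [ip_comm A]

lemma ip_transpose (A B : Matrix m n ℝ) : ip Aᵀ Bᵀ = ip A B := by
  simp only [ip, transpose_apply]; exact sum_comm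

lemma ip_eq_trace (A B : Matrix m n ℝ) : ip A B = (Aᵀ * B).trace := by
  simp only [ip, trace, diag_apply, mul_apply, transpose_apply]; exact sum_comm

lemma ip_eq_trace' (A B : Matrix m n ℝ) : ip A B = (A * Bᵀ).trace := by
  simp only [ip, trace, diag_apply, mul_apply, transpose_apply]

lemma ip_mul_left [Fintype p] (A : Matrix m n ℝ) (B : Matrix n p ℝ) (C : Matrix m p ℝ) :
    ip (A * B) C = ip B (Aᵀ * C) := by
  rw [ip_eq_trace, ip_eq_trace, transpose_mul, Matrix.mul_assoc]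

lemma ip_mul_right [Fintype p] (A : Matrix m n ℝ) (B : Matrix n p ℝ) (C : Matrix m p ℝ) :
    ip (A * B) C = ip A (C * Bᵀ) := by
  rw [ip_eq_trace', ip_eq_trace', transpose_mul, transpose_transpose, Matrix.mul_assoc]

lemma ip_self_nonneg (A : Matrix m n ℝ) : 0 ≤ ip A A :=
  sum_nonneg fun _ _ => sum_nonneg fun _ _ => mul_self_nonneg _

lemma fro_nonneg (A : Matrix m n ℝ) : 0 ≤ fro A := Real.sqrt_nonneg _

lemma fro_sq (A : Matrix m n ℝ) : fro A ^ 2 = ip A A := Real.sq_sqrt (ip_self_nonneg A)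

lemma fro_le_iff {A : Matrix m n ℝ} {c : ℝ} (hc : 0 ≤ c) : fro A ≤ c ↔ ip A A ≤ c ^ 2 :=
  Real.sqrt_le_left hc

lemma abs_ip_le (A B : Matrix m n ℝ) : |ip A B| ≤ fro A * fro B := by
  rw [ip_eq_dot, fro_eq_nrm, fro_eq_nrm]; exact abs_dot_le _ _

lemma ip_le (A B : Matrix m n ℝ) : ip A B ≤ fro A * fro B := (le_abs_self _).trans (abs_ip_le A B)

lemma fro_add_le (A B : Matrix m n ℝ) : fro (A + B) ≤ fro A + fro B := by
  simp only [fro_eq_nrm]; exact nrm_add_le _ _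

lemma fro_sub_le (A B : Matrix m n ℝ) : fro (A - B) ≤ fro A + fro B := by
  simp only [fro_eq_nrm]; exact nrm_sub_le _ _

lemma abs_fro_sub_le (A B : Matrix m n ℝ) : |fro A - fro B| ≤ fro (A - B) := by
  simp only [fro_eq_nrm]; exact abs_nrm_sub_le _ _

lemma fro_smul (c : ℝ) (A : Matrix m n ℝ) : fro (c • A) = |c| * fro A := by
  simp only [fro_eq_nrm]; exact nrm_smul c _

@[simp] lemma fro_neg (A : Matrix m n ℝ) : fro (-A) = fro A := by
  simp [fro, ip_neg_left, ip_neg_right]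

lemma fro_sub_comm (A B : Matrix m n ℝ) : fro (A - B) = fro (B - A) := by rw [← fro_neg, neg_sub]

@[simp] lemma fro_zero : fro (0 : Matrix m n ℝ) = 0 := by simp [fro]

lemma fro_eq_zero {A : Matrix m n ℝ} : fro A = 0 ↔ A = 0 := by
  rw [fro_eq_nrm, nrm_eq_zero]
  exact ⟨fun h => Matrix.ext fun i j => congrFun h (i, j), fun h => by subst h; rfl⟩

lemma fro_transpose (A : Matrix m n ℝ) : fro Aᵀ = fro A := by rw [fro, ip_transpose, fro]

lemma abs_le_fro (A : Matrix m n ℝ) (i : m) (j : n) : |A i j| ≤ fro A := by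
  rw [fro_eq_nrm]; exact abs_le_nrm (fun q : m × n => A q.1 q.2) (i, j)

lemma fro_le_of_abs_le {A : Matrix m n ℝ} {η : ℝ} (hη : 0 ≤ η) (h : ∀ i j, |A i j| ≤ η) :
    fro A ≤ √(Fintype.card m * Fintype.card n) * η := by
  have := nrm_le_of_abs_le (v := fun q : m × n => A q.1 q.2) hη fun q => h q.1 q.2
  rwa [← fro_eq_nrm, Fintype.card_prod, Nat.cast_mul] at this

lemma fro_sq_eq_sum_rows (A : Matrix m n ℝ) : fro A ^ 2 = ∑ i, A i ⬝ᵥ A i := fro_sq A

lemma ip_vecMulVec (A : Matrix m n ℝ) (v : m → ℝ) (w : n → ℝ) :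
    ip A (vecMulVec v w) = v ⬝ᵥ A *ᵥ w := by
  simp only [ip, vecMulVec_apply, dotProduct, mulVec, mul_sum]
  exact sum_congr rfl fun i _ => sum_congr rfl fun j _ => by ring

lemma fro_vecMulVec (v : m → ℝ) (w : n → ℝ) : fro (vecMulVec v w) = nrm v * nrm w := by
  rw [fro, nrm, nrm, ← Real.sqrt_mul (dot_self_nonneg v)]
  congr 1
  simp only [ip, vecMulVec_apply, dotProduct, sum_mul_sum]
  exact sum_congr rfl fun i _ => sum_congr rfl fun j _ => by ring

lemma ip_one [DecidableEq n] (S : Matrix n n ℝ) : ip S 1 = S.trace := by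
  rw [ip_eq_trace, Matrix.mul_one, trace_transpose]

lemma fro_one [DecidableEq n] : fro (1 : Matrix n n ℝ) = √(Fintype.card n) := by
  rw [fro, ip_one, trace_one]

lemma abs_trace_le [DecidableEq n] (S : Matrix n n ℝ) : |S.trace| ≤ √(Fintype.card n) * fro S := by
  rw [← ip_one, ← fro_one, mul_comm]; exact abs_ip_le _ _

@[fun_prop] lemma continuous_ip {X : Type*} [TopologicalSpace X] {f g : X → Matrix m n ℝ}
    (hf : Continuous f) (hg : Continuous g) : Continuous fun x => ip (f x) (g x) := by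
  unfold ip; fun_prop

@[fun_prop] lemma continuous_fro {X : Type*} [TopologicalSpace X] {f : X → Matrix m n ℝ}
    (hf : Continuous f) : Continuous fun x => fro (f x) := by
  unfold fro; fun_prop

lemma isCompact_fro_le (c : ℝ) : IsCompact {A : Matrix m n ℝ | fro A ≤ c} := by
  refine (isCompact_Icc (a := -c) (b := c)).matrix.of_isClosed_subset
    (isClosed_le (by fun_prop) continuous_const) fun A hA i j => ?_
  exact abs_le.mp ((abs_le_fro A i j).trans hA)

end Fro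

section Opn

variable [Fintype m] [Fintype n] [DecidableEq n]

lemma opn_nonneg (A : Matrix m n ℝ) : 0 ≤ opn A := norm_nonneg _

lemma nrm_mulVec_le (A : Matrix m n ℝ) (v : n → ℝ) : nrm (A *ᵥ v) ≤ opn A * nrm v := by
  rw [nrm_eq_norm, nrm_eq_norm]
  exact (LinearMap.toContinuousLinearMap (Matrix.toEuclideanLin A)).le_opNorm (WithLp.toLp 2 v)

lemma opn_le_of {A : Matrix m n ℝ} {c : ℝ} (hc : 0 ≤ c) (h : ∀ v, nrm (A *ᵥ v) ≤ c * nrm v) :
    opn A ≤ c := by
  refine ContinuousLinearMap.opNorm_le_bound _ hc fun v => ?_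
  have := h v.ofLp
  rwa [nrm_eq_norm, nrm_eq_norm] at this

lemma abs_dot_mulVec_le (A : Matrix m n ℝ) (w : m → ℝ) (v : n → ℝ) :
    |w ⬝ᵥ A *ᵥ v| ≤ opn A * nrm w * nrm v := by
  refine (abs_dot_le _ _).trans ?_
  rw [mul_comm (opn A), mul_assoc]
  exact mul_le_mul_of_nonneg_left (nrm_mulVec_le A v) (nrm_nonneg w)

lemma opn_le_of_dot {A : Matrix m n ℝ} {c : ℝ} (hc : 0 ≤ c)
    (h : ∀ w v, w ⬝ᵥ A *ᵥ v ≤ c * nrm w * nrm v) : opn A ≤ c := by
  refine opn_le_of hc fun v => ?_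
  have h1 := h (A *ᵥ v) v
  rw [← nrm_sq] at h1
  rcases (nrm_nonneg (A *ᵥ v)).eq_or_lt with h0 | h0
  · rw [← h0]; exact mul_nonneg hc (nrm_nonneg v)
  · nlinarith

lemma opn_le_fro (A : Matrix m n ℝ) : opn A ≤ fro A :=
  opn_le_of_dot (fro_nonneg A) fun w v => by
    rw [← ip_vecMulVec, mul_assoc, ← fro_vecMulVec]; exact ip_le _ _

lemma opn_add_le (A B : Matrix m n ℝ) : opn (A + B) ≤ opn A + opn B := by
  simp only [opn, map_add]; exact norm_add_le _ _

lemma opn_sub_le (A B : Matrix m n ℝ) : opn (A - B) ≤ opn A + opn B := by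
  simp only [opn, map_sub]; exact norm_sub_le _ _

lemma opn_smul (c : ℝ) (A : Matrix m n ℝ) : opn (c • A) = |c| * opn A := by
  simp only [opn, map_smul, norm_smul, Real.norm_eq_abs]

@[simp] lemma opn_neg (A : Matrix m n ℝ) : opn (-A) = opn A := by simp only [opn, map_neg, norm_neg]

@[simp] lemma opn_zero : opn (0 : Matrix m n ℝ) = 0 := by simp only [opn, map_zero, norm_zero]

lemma abs_opn_sub_le (A B : Matrix m n ℝ) : |opn A - opn B| ≤ fro (A - B) := by
  refine le_trans ?_ (opn_le_fro _)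
  simp only [opn, map_sub]; exact abs_norm_sub_norm_le _ _

lemma opn_transpose_le [DecidableEq m] (A : Matrix m n ℝ) : opn Aᵀ ≤ opn A :=
  opn_le_of_dot (opn_nonneg A) fun w v => by
    rw [dotProduct_mulVec, vecMul_transpose, dotProduct_comm, mul_right_comm]
    exact (le_abs_self _).trans (abs_dot_mulVec_le A v w)

lemma opn_transpose [DecidableEq m] (A : Matrix m n ℝ) : opn Aᵀ = opn A :=
  le_antisymm (opn_transpose_le A) (opn_transpose_le Aᵀ)

lemma opn_mul_le [Fintype p] [DecidableEq p] (A : Matrix m n ℝ) (B : Matrix n p ℝ) :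
    opn (A * B) ≤ opn A * opn B :=
  opn_le_of (mul_nonneg (opn_nonneg A) (opn_nonneg B)) fun v => by
    rw [← mulVec_mulVec, mul_assoc]
    exact (nrm_mulVec_le _ _).trans
      (mul_le_mul_of_nonneg_left (nrm_mulVec_le _ _) (opn_nonneg A))

lemma opn_one_le : opn (1 : Matrix n n ℝ) ≤ 1 := opn_le_of zero_le_one fun v => by simp

lemma fro_mul_le_left [Fintype p] (A : Matrix m n ℝ) (B : Matrix n p ℝ) :
    fro (A * B) ≤ opn A * fro B := by
  rw [← fro_transpose, ← fro_transpose B,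
    fro_le_iff (mul_nonneg (opn_nonneg A) (fro_nonneg _)), ← fro_sq, mul_pow,
    fro_sq_eq_sum_rows, fro_sq_eq_sum_rows, mul_sum]
  refine sum_le_sum fun j _ => ?_
  have h : (A * B)ᵀ j = A *ᵥ Bᵀ j := rfl
  rw [h, ← nrm_sq, ← nrm_sq, ← mul_pow]
  exact pow_le_pow_left₀ (nrm_nonneg _) (nrm_mulVec_le _ _) 2

lemma fro_mul_le_right [Fintype p] [DecidableEq p] (A : Matrix m n ℝ) (B : Matrix n p ℝ) :
    fro (A * B) ≤ fro A * opn B := by
  rw [← fro_transpose, transpose_mul, ← fro_transpose A, mul_comm, ← opn_transpose B]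
  exact fro_mul_le_left _ _

@[fun_prop] lemma continuous_opn {X : Type*} [TopologicalSpace X] {f : X → Matrix m n ℝ}
    (hf : Continuous f) : Continuous fun x => opn (f x) := by
  refine Continuous.comp (g := fun A : Matrix m n ℝ => opn A) ?_ hf
  rw [continuous_iff_continuousAt]
  intro A
  rw [ContinuousAt, tendsto_iff_dist_tendsto_zero]
  have h : Filter.Tendsto (fun B : Matrix m n ℝ => fro (B - A)) (nhds A) (nhds (fro (A - A))) :=
    (continuous_fro (continuous_id.sub continuous_const)).tendsto A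
  rw [sub_self, fro_zero] at h
  exact squeeze_zero (fun _ => dist_nonneg) (fun B => abs_opn_sub_le B A) h

end Opn

section Qf

variable [Fintype κ]

omit [Fintype κ] in
lemma isHermitian_iff {S : Matrix κ κ ℝ} : S.IsHermitian ↔ Sᵀ = S := by
  rw [IsHermitian, conjTranspose_eq_transpose_of_trivial]

lemma qf_eq_ip (S : Matrix κ κ ℝ) (g : κ → ℝ) : qf S g = ip S (vecMulVec g g) :=
  (ip_vecMulVec S g g).symm

lemma qf_add (S T : Matrix κ κ ℝ) (g : κ → ℝ) : qf (S + T) g = qf S g + qf T g := by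
  simp [qf, add_mulVec]

lemma qf_sub (S T : Matrix κ κ ℝ) (g : κ → ℝ) : qf (S - T) g = qf S g - qf T g := by
  simp [qf, sub_mulVec]

lemma qf_neg (S : Matrix κ κ ℝ) (g : κ → ℝ) : qf (-S) g = -qf S g := by simp [qf, neg_mulVec]

lemma qf_smul (c : ℝ) (S : Matrix κ κ ℝ) (g : κ → ℝ) : qf (c • S) g = c * qf S g := by
  simp [qf, smul_mulVec]

lemma qf_smul_vec (c : ℝ) (S : Matrix κ κ ℝ) (g : κ → ℝ) : qf S (c • g) = c ^ 2 * qf S g := by
  simp [qf, mulVec_smul]; ring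

@[simp] lemma qf_zero (g : κ → ℝ) : qf (0 : Matrix κ κ ℝ) g = 0 := by simp [qf]

@[simp] lemma qf_zero_vec (S : Matrix κ κ ℝ) : qf S 0 = 0 := by simp [qf]

lemma qf_one [DecidableEq κ] (g : κ → ℝ) : qf (1 : Matrix κ κ ℝ) g = g ⬝ᵥ g := by simp [qf]

lemma qf_sum {α : Type*} (s : Finset α) (S : α → Matrix κ κ ℝ) (g : κ → ℝ) :
    qf (∑ a ∈ s, S a) g = ∑ a ∈ s, qf (S a) g := by simp only [qf_eq_ip, ip_sum_left]

lemma qf_vecMulVec (v w g : κ → ℝ) : qf (vecMulVec v w) g = (v ⬝ᵥ g) * (w ⬝ᵥ g) := by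
  rw [qf, vecMulVec_mulVec, dotProduct_smul, dotProduct_comm g v]; simp

lemma qf_conj [Fintype m] (U : Matrix κ m ℝ) (S : Matrix κ κ ℝ) (v : m → ℝ) :
    qf (Uᵀ * S * U) v = qf S (U *ᵥ v) := by
  rw [qf, qf, ← mulVec_mulVec, ← mulVec_mulVec, dotProduct_mulVec, vecMul_transpose]

lemma qf_conj' [Fintype m] (U : Matrix m κ ℝ) (S : Matrix κ κ ℝ) (v : m → ℝ) :
    qf (U * S * Uᵀ) v = qf S (Uᵀ *ᵥ v) := qf_conj Uᵀ S v

lemma dot_mulVec_symm {S : Matrix κ κ ℝ} (hS : S.IsHermitian) (x y : κ → ℝ) :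
    x ⬝ᵥ S *ᵥ y = y ⬝ᵥ S *ᵥ x := by
  rw [dotProduct_mulVec, ← isHermitian_iff.mp hS, vecMul_transpose, dotProduct_comm,
    isHermitian_iff.mp hS]

lemma qf_add_vec {S : Matrix κ κ ℝ} (hS : S.IsHermitian) (x y : κ → ℝ) :
    qf S (x + y) = qf S x + 2 * (x ⬝ᵥ S *ᵥ y) + qf S y := by
  simp only [qf, mulVec_add, add_dotProduct, dotProduct_add, dot_mulVec_symm hS y x]; ring

lemma qf_sub_qf {S : Matrix κ κ ℝ} (hS : S.IsHermitian) (x y : κ → ℝ) :
    qf S x - qf S y = (x - y) ⬝ᵥ S *ᵥ (x + y) := by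
  simp only [qf, mulVec_add, sub_dotProduct, dotProduct_add, dot_mulVec_symm hS y x]; ring

lemma abs_qf_le_opn [DecidableEq κ] (S : Matrix κ κ ℝ) (g : κ → ℝ) :
    |qf S g| ≤ opn S * (g ⬝ᵥ g) := by
  have := abs_dot_mulVec_le S g g
  rwa [mul_assoc, ← sq, nrm_sq] at this

lemma abs_qf_le_fro (S : Matrix κ κ ℝ) (g : κ → ℝ) : |qf S g| ≤ fro S * (g ⬝ᵥ g) := by
  classical
  exact (abs_qf_le_opn S g).trans (mul_le_mul_of_nonneg_right (opn_le_fro S) (dot_self_nonneg g))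

lemma cq_add (S T : Matrix κ κ ℝ) (g : κ → ℝ) : cq (S + T) g = cq S g + cq T g := by
  simp only [cq, qf_add, trace_add]; ring

lemma cq_sub (S T : Matrix κ κ ℝ) (g : κ → ℝ) : cq (S - T) g = cq S g - cq T g := by
  simp only [cq, qf_sub, trace_sub]; ring

lemma cq_neg (S : Matrix κ κ ℝ) (g : κ → ℝ) : cq (-S) g = -cq S g := by
  simp only [cq, qf_neg, trace_neg]; ring

lemma cq_smul (c : ℝ) (S : Matrix κ κ ℝ) (g : κ → ℝ) : cq (c • S) g = c * cq S g := by
  simp only [cq, qf_smul, trace_smul, smul_eq_mul]; ring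

lemma abs_cq_le (S : Matrix κ κ ℝ) (g : κ → ℝ) :
    |cq S g| ≤ fro S * (g ⬝ᵥ g + √(Fintype.card κ)) := by
  classical
  have h1 := abs_qf_le_fro S g
  have h2 := abs_trace_le S
  have h3 := abs_sub (qf S g) S.trace
  rw [cq]; linarith

lemma posSemidef_iff_qf {S : Matrix κ κ ℝ} :
    S.PosSemidef ↔ S.IsHermitian ∧ ∀ v, 0 ≤ qf S v := by
  rw [posSemidef_iff_dotProduct_mulVec]; simp [qf]

lemma qf_nonneg {S : Matrix κ κ ℝ} (hS : S.PosSemidef) (v : κ → ℝ) : 0 ≤ qf S v :=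
  (posSemidef_iff_qf.mp hS).2 v

/-- Cauchy-Schwarz for a positive semidefinite form. -/
lemma dot_mulVec_sq_le {S : Matrix κ κ ℝ} (hS : S.PosSemidef) (x y : κ → ℝ) :
    (x ⬝ᵥ S *ᵥ y) ^ 2 ≤ qf S x * qf S y := by
  have h : ∀ t : ℝ, 0 ≤ qf S y * (t * t) + 2 * (x ⬝ᵥ S *ᵥ y) * t + qf S x := by
    intro t
    have := qf_nonneg hS (x + t • y)
    rw [qf_add_vec hS.1, qf_smul_vec, mulVec_smul, dotProduct_smul, smul_eq_mul] at this
    linarith
  have := discrim_le_zero h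
  rw [discrim] at this
  linarith

lemma qf_add_vec_le {S : Matrix κ κ ℝ} (hS : S.PosSemidef) (x y : κ → ℝ) :
    qf S (x + y) ≤ 2 * qf S x + 2 * qf S y := by
  have h1 := qf_add_vec hS.1 x y
  have h2 := qf_nonneg hS (x + (-1 : ℝ) • y)
  rw [qf_add_vec hS.1, qf_smul_vec, mulVec_smul, dotProduct_smul, smul_eq_mul] at h2
  linarith

@[fun_prop] lemma continuous_qf {X : Type*} [TopologicalSpace X] {f : X → Matrix κ κ ℝ}
    {g : X → κ → ℝ} (hf : Continuous f) (hg : Continuous g) :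
    Continuous fun x => qf (f x) (g x) := by
  unfold qf; fun_prop

@[fun_prop] lemma continuous_cq {X : Type*} [TopologicalSpace X] {f : X → Matrix κ κ ℝ}
    {g : X → κ → ℝ} (hf : Continuous f) (hg : Continuous g) :
    Continuous fun x => cq (f x) (g x) := by
  unfold cq; fun_prop

omit [Fintype κ] in
lemma isClosed_isHermitian : IsClosed {S : Matrix κ κ ℝ | S.IsHermitian} := by
  simp only [isHermitian_iff]
  exact isClosed_eq (by fun_prop) continuous_id

lemma isClosed_posSemidef : IsClosed {S : Matrix κ κ ℝ | S.PosSemidef} := by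
  simp only [posSemidef_iff_qf, Set.ofPred_and, Set.ofPred_forall]
  exact isClosed_isHermitian.inter
    (isClosed_iInter fun v => isClosed_le continuous_const (by fun_prop))

variable [Fintype ι]

lemma qf_gram (y : ι → ℝ) (g : ι → κ → ℝ) (v : κ → ℝ) :
    qf (gram y g) v = ∑ i, y i * (g i ⬝ᵥ v) ^ 2 := by
  simp only [gram, qf_sum, qf_smul, qf_vecMulVec, sq]

lemma ip_gram (y : ι → ℝ) (g : ι → κ → ℝ) (S : Matrix κ κ ℝ) :
    ip (gram y g) S = ∑ i, y i * qf S (g i) := by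
  simp only [gram, ip_sum_left, ip_smul_left, qf_eq_ip, ip_comm S]

omit [Fintype κ] in
lemma gram_isHermitian (y : ι → ℝ) (g : ι → κ → ℝ) : (gram y g).IsHermitian := by
  rw [IsHermitian, conjTranspose_eq_transpose_of_trivial]
  ext a b
  simp [gram, Matrix.sum_apply, vecMulVec_apply, mul_comm]

lemma gram_posSemidef {y : ι → ℝ} (hy : ∀ i, 0 ≤ y i) (g : ι → κ → ℝ) : (gram y g).PosSemidef :=
  posSemidef_iff_qf.mpr ⟨gram_isHermitian y g, fun v => by
    rw [qf_gram]; exact sum_nonneg fun i _ => mul_nonneg (hy i) (sq_nonneg _)⟩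

lemma trace_gram (y : ι → ℝ) (g : ι → κ → ℝ) : (gram y g).trace = ∑ i, y i * (g i ⬝ᵥ g i) := by
  classical
  simp only [← ip_one, ip_gram, qf_one]

omit [Fintype κ] in
lemma gram_one (g : ι → κ → ℝ) : gram 1 g = (Matrix.of g)ᵀ * Matrix.of g := by
  ext a b
  simp [gram, Matrix.sum_apply, vecMulVec_apply, mul_apply]

lemma qf_gram_one (g : ι → κ → ℝ) (v : κ → ℝ) :
    qf (gram 1 g) v = nrm (Matrix.of g *ᵥ v) ^ 2 := by
  rw [qf_gram, nrm_sq]
  simp [dotProduct, mulVec, sq]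

omit [Fintype κ] in
@[fun_prop] lemma continuous_gram {X : Type*} [TopologicalSpace X] {y : X → ι → ℝ}
    {g : X → ι → κ → ℝ} (hy : Continuous y) (hg : Continuous g) :
    Continuous fun x => gram (y x) (g x) := by
  refine continuous_matrix fun a b => ?_
  simp only [gram, Matrix.sum_apply, Matrix.smul_apply, vecMulVec_apply]
  fun_prop

end Qf

/-- Projection of a closed relation along a compact set is closed. -/
lemma isClosed_exists_compact {α β : Type*} [TopologicalSpace α] [TopologicalSpace β] {K : Set β}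
    (hK : IsCompact K) {r : α → β → Prop} (hr : IsClosed {q : α × β | r q.1 q.2}) :
    IsClosed {a | ∃ b ∈ K, r a b} := by
  have : CompactSpace K := isCompact_iff_compactSpace.mp hK
  have h := isClosedMap_fst_of_compactSpace (X := α) (Y := K) _
    (hr.preimage (f := fun q : α × K => (q.1, q.2.1)) (by fun_prop))
  convert h using 1
  ext a
  simp

section Mm

variable {I J : Type*} [Finite I] [Finite J] [Nonempty I] [Nonempty J]

omit [Finite I] [Nonempty J] in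
lemma le_mm {z : I → J → ℝ} {c : ℝ} (h : ∀ i, ∃ j, c ≤ z i j) : c ≤ mm z :=
  le_ciInf fun i => let ⟨j, hj⟩ := h i; hj.trans (Finite.le_ciSup (z i) j)

omit [Finite J] [Nonempty I] in
lemma mm_le {z : I → J → ℝ} {c : ℝ} (i : I) (h : ∀ j, z i j ≤ c) : mm z ≤ c :=
  (Finite.ciInf_le _ i).trans (ciSup_le h)

omit [Nonempty I] in
lemma exists_ge_mm (z : I → J → ℝ) (i : I) : ∃ j, mm z ≤ z i j := by
  obtain ⟨j, hj⟩ := Finite.exists_max (z i)
  exact ⟨j, mm_le i hj⟩

omit [Nonempty J] in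
lemma exists_le_mm (z : I → J → ℝ) : ∃ i, ∀ j, z i j ≤ mm z := by
  obtain ⟨i, hi⟩ := Finite.exists_min fun i => ⨆ j, z i j
  exact ⟨i, fun j => (Finite.le_ciSup (z i) j).trans (le_ciInf hi)⟩

lemma mm_le_mm_add {z z' : I → J → ℝ} {c : ℝ} (h : ∀ i j, z i j ≤ z' i j + c) :
    mm z ≤ mm z' + c := by
  obtain ⟨i, hi⟩ := exists_le_mm z'
  exact mm_le i fun j => (h i j).trans (by linarith [hi j])

lemma abs_mm_sub_le {z z' : I → J → ℝ} {c : ℝ} (h : ∀ i j, |z i j - z' i j| ≤ c) :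
    |mm z - mm z'| ≤ c := by
  have h1 := mm_le_mm_add (z := z) (z' := z') (c := c) fun i j => by
    linarith [(abs_le.mp (h i j)).2]
  have h2 := mm_le_mm_add (z := z') (z' := z) (c := c) fun i j => by
    linarith [(abs_le.mp (h i j)).1]
  exact abs_le.mpr ⟨by linarith, by linarith⟩

@[fun_prop] lemma continuous_mm {X : Type*} [TopologicalSpace X] {z : X → I → J → ℝ}
    (hz : Continuous z) : Continuous fun x => mm (z x) := by
  cases nonempty_fintype I
  cases nonempty_fintype J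
  refine Continuous.comp (g := fun w : I → J → ℝ => mm w) ?_ hz
  refine (LipschitzWith.of_dist_le_mul (K := 1) fun w w' => ?_).continuous
  rw [NNReal.coe_one, one_mul]
  exact abs_mm_sub_le fun i j => (dist_le_pi_dist (w i) (w' i) j).trans (dist_le_pi_dist w w' i)

end Mm

end Pool.Agent.Work.MP_6a50bc_pr
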