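import Pool.Agent.Work.MP_6a50bc_pr.GBasic

/-! One-dimensional Gaussian moments and their tensorisation. -/

namespace Pool.Agent.Work.MP_6a50bc_pr

open MeasureTheory ProbabilityTheory Matrix Finset
open scoped ENNReal

variable {ι κ : Type*} [Fintype ι] [Fintype κ]

lemma integral_mp {α β : Type*} [MeasurableSpace α] [MeasurableSpace β] {μ : Measure α}
    {ν : Measure β} {f : α → β} (hf : MeasurePreserving f μ ν) {F : β → ℝ}
    (hF : AEStronglyMeasurable F ν) : ∫ x, F (f x) ∂μ = ∫ y, F y ∂ν := by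
  rw [← hf.map_eq] at hF ⊢
  exact (integral_map hf.aemeasurable hF).symm

lemma g1_integrable_pow (k : ℕ) : Integrable (fun z : ℝ => z ^ k) (gaussianReal 0 1) :=
  ((memLp_id_gaussianReal' (μ := 0) (v := 1) k (by simp)).integrable_norm_pow').mono'
    (by fun_prop) (Filter.Eventually.of_forall fun z => by simp)

lemma g1_sq : ∫ z : ℝ, z ^ 2 ∂(gaussianReal 0 1) = 1 := by
  have h := variance_fun_id_gaussianReal (μ := 0) (v := 1)
  rw [variance_eq_integral measurable_id'.aemeasurable] at h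
  simpa using h

lemma g1_four : ∫ z : ℝ, z ^ 4 ∂(gaussianReal 0 1) = 3 := by
  have h := iteratedDeriv_mgf_zero (X := fun z : ℝ => z) (μ := gaussianReal 0 1) (by simp) 4
  have key : ∀ (p p' : ℝ → ℝ), (∀ t, HasDerivAt p (p' t) t) →
      deriv (fun t => p t * Real.exp (t ^ 2 / 2)) =
        fun t => (p' t + t * p t) * Real.exp (t ^ 2 / 2) := by
    intro p p' hp
    funext t
    have h1 : HasDerivAt (fun t : ℝ => t ^ 2 / 2) t t := by
      simpa using (hasDerivAt_pow 2 t).div_const 2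
    rw [((hp t).fun_mul h1.exp).deriv]
    ring
  have e0 : mgf (fun z : ℝ => z) (gaussianReal 0 1) =
      fun t => (fun _ => 1) t * Real.exp (t ^ 2 / 2) := by
    rw [mgf_fun_id_gaussianReal]; funext t; simp
  have e1 := key (fun _ => 1) (fun _ => 0) fun t => hasDerivAt_const t 1
  have e2 := key (fun t => 0 + t * 1) (fun _ => 1) fun t => by
    simpa using hasDerivAt_id' t
  have e3 := key (fun t => 1 + t * (0 + t * 1)) (fun t => 2 * t) fun t => by
    have e : (fun t : ℝ => 1 + t * (0 + t * 1)) = fun t => 1 + t ^ 2 := by funext s; ring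
    rw [e]
    exact ((hasDerivAt_pow 2 t).const_add 1).congr_deriv (by simp)
  have e4 := key (fun t => 2 * t + t * (1 + t * (0 + t * 1))) (fun t => 3 + 3 * t ^ 2) fun t => by
    have e : (fun t : ℝ => 2 * t + t * (1 + t * (0 + t * 1))) = fun t => 3 * t + t ^ 3 := by
      funext s; ring
    rw [e]
    exact (((hasDerivAt_id' t).const_mul 3).fun_add (hasDerivAt_pow 3 t)).congr_deriv (by simp)
  rw [e0, iteratedDeriv_succ, iteratedDeriv_succ, iteratedDeriv_succ, iteratedDeriv_one,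
    e1, e2, e3, e4] at h
  simp only [Pi.pow_apply] at h
  rw [← h]
  norm_num

lemma g1_chi : ∫ z : ℝ, (z ^ 2 - 1) ∂(gaussianReal 0 1) = 0 := by
  rw [integral_sub (g1_integrable_pow 2) (integrable_const _), g1_sq]; simp

lemma g1_chi_sq_integrable : Integrable (fun z : ℝ => (z ^ 2 - 1) ^ 2) (gaussianReal 0 1) := by
  have e : (fun z : ℝ => (z ^ 2 - 1) ^ 2) = fun z => z ^ 4 - 2 * z ^ 2 + 1 := by funext z; ring
  rw [e]
  exact ((g1_integrable_pow 4).sub ((g1_integrable_pow 2).const_mul 2)).add (integrable_const _)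

lemma g1_chi_sq : ∫ z : ℝ, (z ^ 2 - 1) ^ 2 ∂(gaussianReal 0 1) = 2 := by
  have e : (fun z : ℝ => (z ^ 2 - 1) ^ 2) = fun z => z ^ 4 - 2 * z ^ 2 + 1 := by funext z; ring
  have i1 : Integrable (fun z : ℝ => z ^ 4 - 2 * z ^ 2) (gaussianReal 0 1) :=
    (g1_integrable_pow 4).sub ((g1_integrable_pow 2).const_mul 2)
  rw [e, integral_add i1 (integrable_const _),
    integral_sub (g1_integrable_pow 4) ((g1_integrable_pow 2).const_mul 2), integral_const_mul,
    g1_four, g1_sq]
  norm_num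

lemma integral_exp_sq {b : ℝ} (hb : b < 1 / 2) :
    ∫ z, Real.exp (b * z ^ 2) ∂(gaussianReal 0 1) = Real.sqrt (1 / (1 - 2 * b)) := by
  rw [integral_gaussianReal_eq_integral_smul one_ne_zero]
  have e : (fun x : ℝ => gaussianPDFReal 0 1 x • Real.exp (b * x ^ 2)) =
      fun x => (Real.sqrt (2 * Real.pi))⁻¹ * Real.exp (-(1 / 2 - b) * x ^ 2) := by
    funext x
    simp only [gaussianPDFReal, NNReal.coe_one, mul_one, sub_zero, smul_eq_mul]
    rw [mul_assoc, ← Real.exp_add]
    congr 2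
    ring
  rw [e, integral_const_mul, integral_gaussian, ← Real.sqrt_inv, ← Real.sqrt_mul (by positivity)]
  congr 1
  have h1 : 1 / 2 - b ≠ 0 := by linarith
  have h2 : 1 - 2 * b ≠ 0 := by linarith
  have := Real.pi_pos
  field_simp

lemma integrable_exp_sq {b : ℝ} (hb : b < 1 / 2) :
    Integrable (fun z => Real.exp (b * z ^ 2)) (gaussianReal 0 1) := by
  refine Integrable.of_integral_ne_zero ?_
  rw [integral_exp_sq hb]
  exact (Real.sqrt_pos.2 (div_pos one_pos (by linarith))).ne'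

lemma inv_le_exp {y : ℝ} (hy : |y| ≤ 1 / 2) : 1 / (1 - y) ≤ Real.exp (y + y ^ 2) := by
  obtain ⟨h1, h2⟩ := abs_le.1 hy
  rw [div_le_iff₀ (by linarith)]
  rcases le_total y 0 with h | h
  · have h3 := Real.add_one_le_exp (y + y ^ 2)
    have h4 : 0 ≤ -y * y ^ 2 := mul_nonneg (by linarith) (sq_nonneg y)
    nlinarith
  · have h3 := Real.quadratic_le_exp_of_nonneg (x := y + y ^ 2) (by positivity)
    have h4 : 0 ≤ 1 - y - y ^ 2 - y ^ 3 := by nlinarith
    have h5 := mul_nonneg (sq_nonneg y) h4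
    nlinarith

lemma g1_exp_chi {x : ℝ} (hx : |x| ≤ 1 / 4) :
    Integrable (fun z : ℝ => Real.exp (x * (z ^ 2 - 1))) (gaussianReal 0 1) ∧
      ∫ z : ℝ, Real.exp (x * (z ^ 2 - 1)) ∂(gaussianReal 0 1) ≤ Real.exp (2 * x ^ 2) := by
  have hb : x < 1 / 2 := by linarith [(abs_le.1 hx).2]
  have e : (fun z : ℝ => Real.exp (x * (z ^ 2 - 1))) =
      fun z => Real.exp (-x) * Real.exp (x * z ^ 2) := by
    funext z; rw [← Real.exp_add]; congr 1; ring
  rw [e]
  refine ⟨(integrable_exp_sq hb).const_mul _, ?_⟩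
  rw [integral_const_mul, integral_exp_sq hb]
  have h1 := inv_le_exp (y := 2 * x) (by rw [abs_mul, abs_two]; linarith)
  have h2 : √(1 / (1 - 2 * x)) ≤ Real.exp (x + 2 * x ^ 2) := by
    rw [Real.sqrt_le_left (Real.exp_pos _).le, sq (Real.exp _), ← Real.exp_add]
    exact h1.trans_eq (by congr 1; ring)
  refine (mul_le_mul_of_nonneg_left h2 (Real.exp_pos _).le).trans_eq ?_
  rw [← Real.exp_add]; congr 1; ring

lemma integral_eval {φ : ℝ → ℝ} (hφ : Measurable φ) (a : κ) :
    ∫ g, φ (g a) ∂(gv κ) = ∫ z, φ z ∂(gaussianReal 0 1) :=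
  integral_mp (mp_eval_gv a) hφ.aestronglyMeasurable

lemma integrable_eval_mul {φ : ℝ → ℝ} (hφ : Measurable φ)
    (h2 : Integrable (fun z => φ z ^ 2) (gaussianReal 0 1)) (a b : κ) :
    Integrable (fun g : κ → ℝ => φ (g a) * φ (g b)) (gv κ) := by
  have h : MemLp φ 2 (gaussianReal 0 1) :=
    (memLp_two_iff_integrable_sq hφ.aestronglyMeasurable).2 h2
  exact (h.comp_measurePreserving (mp_eval_gv a)).integrable_mul
    (h.comp_measurePreserving (mp_eval_gv b))

lemma integral_eval_mul [DecidableEq κ] {φ : ℝ → ℝ} (hφ : Measurable φ)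
    (h1 : ∫ z, φ z ∂(gaussianReal 0 1) = 0) (a b : κ) :
    ∫ g, φ (g a) * φ (g b) ∂(gv κ) = if a = b then ∫ z, φ z ^ 2 ∂(gaussianReal 0 1) else 0 := by
  split_ifs with h
  · subst h
    rw [← integral_eval (hφ.pow_const 2) a]
    simp only [sq]
  · have hi := (iIndepFun_pi (μ := fun _ : κ => gaussianReal 0 1) (X := fun _ => φ)
      fun _ => hφ.aemeasurable).indepFun h
    have hm : ∀ c : κ, AEStronglyMeasurable (fun g : κ → ℝ => φ (g c)) (gv κ) := fun c =>
      (hφ.comp (measurable_pi_apply c)).aestronglyMeasurable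
    have := hi.integral_fun_mul_eq_mul_integral (hm a) (hm b)
    refine this.trans ?_
    have h3 := integral_eval hφ a
    rw [h1] at h3
    exact mul_eq_zero_of_left h3 _

lemma integral_sum_sq {φ : ℝ → ℝ} (hφ : Measurable φ) (h1 : ∫ z, φ z ∂(gaussianReal 0 1) = 0)
    (h2 : Integrable (fun z => φ z ^ 2) (gaussianReal 0 1)) (l : κ → ℝ) :
    ∫ g, (∑ j, l j * φ (g j)) ^ 2 ∂(gv κ) = (∫ z, φ z ^ 2 ∂(gaussianReal 0 1)) * (l ⬝ᵥ l) := by
  classical
  have e : ∀ g : κ → ℝ, (∑ j, l j * φ (g j)) ^ 2 = ∑ a, ∑ b, l a * l b * (φ (g a) * φ (g b)) := by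
    intro g
    rw [sq, sum_mul_sum]
    exact sum_congr rfl fun a _ => sum_congr rfl fun b _ => by ring
  simp only [e]
  rw [integral_finsetSum _ fun a _ => integrable_finsetSum _ fun b _ =>
    (integrable_eval_mul hφ h2 a b).const_mul _, dotProduct, mul_sum]
  refine sum_congr rfl fun a _ => ?_
  rw [integral_finsetSum _ fun b _ => (integrable_eval_mul hφ h2 a b).const_mul _]
  simp only [integral_const_mul, integral_eval_mul hφ h1, mul_ite, mul_zero, sum_ite_eq,
    mem_univ, if_true]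
  ring

lemma exp_sum_chi {l : κ → ℝ} (hl : ∀ j, |l j| ≤ 1 / 4) :
    Integrable (fun g : κ → ℝ => Real.exp (∑ j, l j * (g j ^ 2 - 1))) (gv κ) ∧
      ∫ g, Real.exp (∑ j, l j * (g j ^ 2 - 1)) ∂(gv κ) ≤ Real.exp (2 * (l ⬝ᵥ l)) := by
  simp only [Real.exp_sum]
  refine ⟨Integrable.fintype_prod (f := fun j z => Real.exp (l j * (z ^ 2 - 1)))
    fun j => (g1_exp_chi (hl j)).1, ?_⟩
  rw [gv, integral_fintype_prod_eq_prod (f := fun j z => Real.exp (l j * (z ^ 2 - 1))),
    dotProduct, mul_sum, Real.exp_sum]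
  exact prod_le_prod (fun j _ => integral_nonneg fun z => (Real.exp_pos _).le)
    fun j _ => (g1_exp_chi (hl j)).2.trans_eq (by rw [sq])

lemma pow_four_le_exp (x : ℝ) : x ^ 4 ≤ 12 * (Real.exp x + Real.exp (-x)) := by
  have h := Real.sum_le_exp_of_nonneg (abs_nonneg x) 6
  simp only [sum_range_succ, range_zero, sum_empty, Nat.factorial] at h
  norm_num at h
  have h0 := abs_nonneg x
  have h1 : Real.exp |x| ≤ Real.exp x + Real.exp (-x) := by
    rcases abs_choice x with h | h <;> rw [h] <;> linarith [Real.exp_pos x, Real.exp_pos (-x)]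
  have h2 : x ^ 4 = |x| ^ 4 := (Even.pow_abs (by decide) x).symm
  have h3 : 0 ≤ |x| ^ 3 * (|x| - 5 / 2) ^ 2 := by positivity
  have h4 : 0 ≤ |x| ^ 3 := by positivity
  rw [h2]
  nlinarith [sq_nonneg x]

lemma exp_eighth_le : Real.exp (1 / 8) ≤ 8 / 7 := by
  have h := Real.add_one_le_exp (-(1 / 8))
  have h2 : Real.exp (1 / 8) * Real.exp (-(1 / 8)) = 1 := by rw [← Real.exp_add]; simp
  nlinarith [Real.exp_pos (1 / 8)]

end Pool.Agent.Work.MP_6a50bc_pr
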