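import Pool.Agent.Work.MP_6a50bc_pr.Ibp

/-! A smooth approximation of the min-max function and its first three derivatives. -/

namespace Pool.Agent.Work.MP_6a50bc_pr

open MeasureTheory ProbabilityTheory Matrix Finset
open scoped ENNReal

variable {I J : Type*} [Fintype I] [Fintype J] [DecidableEq I] [DecidableEq J] [Nonempty I]
  [Nonempty J]

/-- Row partition function. -/
noncomputable def sA (β : ℝ) (z : I × J → ℝ) (i : I) : ℝ := ∑ j, Real.exp (β * z (i, j))

/-- Sum of the inverse row partition functions. -/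
noncomputable def sD (β : ℝ) (z : I × J → ℝ) : ℝ := ∑ i, (sA β z i)⁻¹

/-- The soft min-max function. -/
noncomputable def s0 (β : ℝ) (z : I × J → ℝ) : ℝ := -Real.log (sD β z) / β

/-- Gibbs weight inside a row. -/
noncomputable def sQ (β : ℝ) (z : I × J → ℝ) (p : I × J) : ℝ := Real.exp (β * z p) / sA β z p.1

/-- First derivative. -/
noncomputable def s1 (β : ℝ) (z : I × J → ℝ) (p : I × J) : ℝ :=
  sQ β z p * ((sA β z p.1)⁻¹ / sD β z)

/-- Indicator of a common row. -/
def row (p p' : I × J) : ℝ := if p.1 = p'.1 then 1 else 0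

/-- Indicator of equality. -/
def dlt (p p' : I × J) : ℝ := if p = p' then 1 else 0

/-- Derivative of the Gibbs weight. -/
noncomputable def sQ' (β : ℝ) (z : I × J → ℝ) (p p' : I × J) : ℝ :=
  β * sQ β z p * (dlt p p' - row p p' * sQ β z p')

/-- Logarithmic derivative of the first derivative. -/
noncomputable def sK (β : ℝ) (z : I × J → ℝ) (p p' : I × J) : ℝ :=
  dlt p p' - 2 * row p p' * sQ β z p' + s1 β z p'

/-- Second derivative. -/
noncomputable def s2 (β : ℝ) (z : I × J → ℝ) (p p' : I × J) : ℝ := β * s1 β z p * sK β z p p'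

/-- Third derivative. -/
noncomputable def s3 (β : ℝ) (z : I × J → ℝ) (p p' p'' : I × J) : ℝ :=
  β * (s2 β z p p'' * sK β z p p' + s1 β z p * (s2 β z p' p'' - 2 * row p p' * sQ' β z p' p''))

variable {β : ℝ}

omit [Fintype I] [DecidableEq I] [DecidableEq J] [Nonempty I] in
lemma sA_pos (z : I × J → ℝ) (i : I) : 0 < sA β z i :=
  sum_pos (fun _ _ => Real.exp_pos _) univ_nonempty

omit [DecidableEq I] [DecidableEq J] in
lemma sD_pos (z : I × J → ℝ) : 0 < sD β z :=
  sum_pos (fun i _ => inv_pos.mpr (sA_pos z i)) univ_nonempty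

omit [Fintype I] [DecidableEq I] [DecidableEq J] [Nonempty I] in
lemma sQ_pos (z : I × J → ℝ) (p : I × J) : 0 < sQ β z p := div_pos (Real.exp_pos _) (sA_pos z _)

omit [DecidableEq I] [DecidableEq J] in
lemma s1_pos (z : I × J → ℝ) (p : I × J) : 0 < s1 β z p :=
  mul_pos (sQ_pos z p) (div_pos (inv_pos.mpr (sA_pos z _)) (sD_pos z))

omit [DecidableEq J] [Nonempty I] [Nonempty J] in
lemma sum_row (p : I × J) (f : I × J → ℝ) : ∑ p', row p p' * f p' = ∑ j, f (p.1, j) := by
  simp [row, Fintype.sum_prod_type_right]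

omit [Nonempty I] [Nonempty J] in
lemma sum_dlt (p : I × J) (f : I × J → ℝ) : ∑ p', dlt p p' * f p' = f p := by simp [dlt]

omit [Fintype I] [DecidableEq I] [DecidableEq J] [Nonempty I] in
lemma sum_sq (z : I × J → ℝ) (i : I) : ∑ j, sQ β z (i, j) = 1 := by
  simp only [sQ]
  rw [← sum_div]
  exact div_self (sA_pos z i).ne'

omit [DecidableEq I] [DecidableEq J] in
lemma sum_s1 (z : I × J → ℝ) : ∑ p, s1 β z p = 1 := by
  simp only [s1, Fintype.sum_prod_type, ← sum_mul, sum_sq, one_mul]
  rw [← sum_div]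
  exact div_self (sD_pos z).ne'

section Path

variable {z : ℝ → I × J → ℝ} {h : I × J → ℝ} {t : ℝ}

omit [Fintype I] [DecidableEq I] [DecidableEq J] [Nonempty I] in
lemma hasDerivAt_sA (hz : ∀ a, HasDerivAt (fun s => z s a) (h a) t) (i : I) :
    HasDerivAt (fun s => sA β (z s) i)
      (β * sA β (z t) i * ∑ j, sQ β (z t) (i, j) * h (i, j)) t := by
  refine (HasDerivAt.fun_sum fun j _ => ((hz (i, j)).const_mul β).exp).congr_deriv ?_
  rw [mul_sum]
  refine sum_congr rfl fun j _ => ?_
  have := (sA_pos (β := β) (z t) i).ne'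
  simp only [sQ]
  field_simp

omit [Fintype I] [DecidableEq I] [DecidableEq J] [Nonempty I] in
lemma hasDerivAt_inv_sA (hz : ∀ a, HasDerivAt (fun s => z s a) (h a) t) (i : I) :
    HasDerivAt (fun s => (sA β (z s) i)⁻¹)
      (-β * (sA β (z t) i)⁻¹ * ∑ j, sQ β (z t) (i, j) * h (i, j)) t := by
  have := (sA_pos (β := β) (z t) i).ne'
  refine ((hasDerivAt_sA hz i).fun_inv this).congr_deriv ?_
  field_simp

omit [DecidableEq I] [DecidableEq J] in
lemma hasDerivAt_sD (hz : ∀ a, HasDerivAt (fun s => z s a) (h a) t) :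
    HasDerivAt (fun s => sD β (z s)) (-β * sD β (z t) * (s1 β (z t) ⬝ᵥ h)) t := by
  refine (HasDerivAt.fun_sum fun i _ => hasDerivAt_inv_sA hz i).congr_deriv ?_
  have := (sD_pos (β := β) (z t)).ne'
  simp only [dotProduct, Fintype.sum_prod_type, mul_sum, s1]
  refine sum_congr rfl fun i _ => sum_congr rfl fun j _ => ?_
  field_simp

omit [Fintype I] [DecidableEq I] [DecidableEq J] [Nonempty I] in
lemma hasDerivAt_sq (hz : ∀ a, HasDerivAt (fun s => z s a) (h a) t) (p : I × J) :
    HasDerivAt (fun s => sQ β (z s) p)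
      (β * sQ β (z t) p * (h p - ∑ j, sQ β (z t) (p.1, j) * h (p.1, j))) t := by
  have := (sA_pos (β := β) (z t) p.1).ne'
  refine (((hz p).const_mul β).exp.fun_div (hasDerivAt_sA hz p.1) this).congr_deriv ?_
  generalize ∑ j, sQ β (z t) (p.1, j) * h (p.1, j) = Q
  simp only [sQ]
  field_simp

end Path

omit [DecidableEq I] [DecidableEq J] in
lemma grad_s0 (hβ : β ≠ 0) : Grad (s0 β : (I × J → ℝ) → ℝ) (s1 β) := by
  intro z h t hz
  have := (sD_pos (β := β) (z t)).ne'
  refine (((hasDerivAt_sD hz).log this).fun_neg.div_const β).congr_deriv ?_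
  field_simp

omit [Nonempty I] in
lemma grad_sq (p : I × J) : Grad (fun z => sQ β z p) fun z => sQ' β z p := by
  intro z h t hz
  refine (hasDerivAt_sq hz p).congr_deriv ?_
  simp only [dotProduct, sQ', mul_assoc, ← mul_sum, sub_mul, sum_sub_distrib, sum_dlt, sum_row]

lemma grad_s1 (p : I × J) : Grad (fun z => s1 β z p) fun z => s2 β z p := by
  intro z h t hz
  have h1 := (sD_pos (β := β) (z t)).ne'
  refine ((hasDerivAt_sq hz p).fun_mul
    ((hasDerivAt_inv_sA hz p.1).fun_div (hasDerivAt_sD hz) h1)).congr_deriv ?_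
  have e : s2 β (z t) p ⬝ᵥ h = β * s1 β (z t) p *
      (h p - 2 * ∑ j, sQ β (z t) (p.1, j) * h (p.1, j) + s1 β (z t) ⬝ᵥ h) := by
    simp only [dotProduct, s2, sK, mul_assoc, ← mul_sum, sub_mul, add_mul, sum_sub_distrib,
      sum_add_distrib, sum_dlt, sum_row]
  rw [e]
  generalize ∑ j, sQ β (z t) (p.1, j) * h (p.1, j) = Q
  generalize s1 β (z t) ⬝ᵥ h = R
  simp only [s1]
  field_simp
  ring

lemma grad_s2 (p p' : I × J) : Grad (fun z => s2 β z p p') fun z => s3 β z p p' := by
  intro z h t hz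
  have hK := ((((grad_sq (β := β) p' z h t hz).const_mul (2 * row p p')).const_sub
    (dlt p p')).fun_add (grad_s1 (β := β) p' z h t hz))
  refine (((grad_s1 p z h t hz).const_mul β).fun_mul hK).congr_deriv ?_
  have e : s3 β (z t) p p' = (β * sK β (z t) p p') • s2 β (z t) p + (β * s1 β (z t) p) •
      (s2 β (z t) p' - (2 * row p p') • sQ' β (z t) p') := by
    funext p''
    simp only [s3, Pi.add_apply, Pi.smul_apply, Pi.sub_apply, smul_eq_mul]
    ring
  simp only [e, add_dotProduct, smul_dotProduct, sub_dotProduct, smul_eq_mul, sK]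
  ring

section Cont

omit [Fintype I] [DecidableEq I] [DecidableEq J] [Nonempty I] [Nonempty J] in
@[fun_prop] lemma continuous_sA (i : I) : Continuous fun z : I × J → ℝ => sA β z i := by
  unfold sA; fun_prop

omit [DecidableEq I] [DecidableEq J] [Nonempty I] in
@[fun_prop] lemma continuous_sD : Continuous fun z : I × J → ℝ => sD β z :=
  continuous_finsetSum _ fun i _ => (continuous_sA i).inv₀ fun z => (sA_pos z i).ne'

omit [DecidableEq I] [DecidableEq J] in
lemma continuous_s0 : Continuous fun z : I × J → ℝ => s0 β z :=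
  (continuous_sD.log fun z => (sD_pos z).ne').neg.div_const β

omit [Fintype I] [DecidableEq I] [DecidableEq J] [Nonempty I] in
@[fun_prop] lemma continuous_sq (p : I × J) : Continuous fun z : I × J → ℝ => sQ β z p :=
  Continuous.div (by fun_prop) (continuous_sA _) fun z => (sA_pos z _).ne'

omit [DecidableEq I] [DecidableEq J] in
@[fun_prop] lemma continuous_s1 (p : I × J) : Continuous fun z : I × J → ℝ => s1 β z p :=
  (continuous_sq p).mul (((continuous_sA _).inv₀ fun z => (sA_pos z _).ne').div continuous_sD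
    fun z => (sD_pos z).ne')

@[fun_prop] lemma continuous_s2 (p p' : I × J) :
    Continuous fun z : I × J → ℝ => s2 β z p p' := by
  unfold s2 sK; fun_prop

lemma continuous_s3 (p p' p'' : I × J) : Continuous fun z : I × J → ℝ => s3 β z p p' p'' := by
  unfold s3 sK sQ'; fun_prop

end Cont

omit [Fintype I] [Fintype J] [DecidableEq J] [Nonempty I] [Nonempty J] in
lemma row_nonneg (p p' : I × J) : 0 ≤ row p p' := by unfold row; split_ifs <;> norm_num

omit [Fintype I] [Fintype J] [Nonempty I] [Nonempty J] in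
lemma dlt_nonneg (p p' : I × J) : 0 ≤ dlt p p' := by unfold dlt; split_ifs <;> norm_num

lemma sum_abs_sK (z : I × J → ℝ) (p : I × J) : ∑ p', |sK β z p p'| ≤ 4 := by
  calc ∑ p', |sK β z p p'| ≤ ∑ p', (dlt p p' * 1 + 2 * (row p p' * sQ β z p') + s1 β z p') := by
        refine sum_le_sum fun p' _ => abs_le.mpr ?_
        have h1 := dlt_nonneg p p'
        have h2 := mul_nonneg (row_nonneg p p') (sQ_pos (β := β) z p').le
        have h3 := s1_pos (β := β) z p'
        rw [sK]
        constructor <;> linarith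
    _ = 4 := by
        rw [sum_add_distrib, sum_add_distrib, ← mul_sum, sum_dlt, sum_row, sum_sq, sum_s1]
        norm_num

lemma sum_abs_s2 (hβ : 0 ≤ β) (z : I × J → ℝ) (p : I × J) :
    ∑ p', |s2 β z p p'| ≤ 4 * β * s1 β z p := by
  have h0 := mul_nonneg hβ (s1_pos (β := β) z p).le
  simp only [s2, abs_mul _ (sK β z p _), abs_of_nonneg h0, ← mul_sum]
  nlinarith [sum_abs_sK (β := β) z p]

omit [Nonempty I] in
lemma sum_abs_sq' (hβ : 0 ≤ β) (z : I × J → ℝ) (p : I × J) :
    ∑ p', |sQ' β z p p'| ≤ 2 * β * sQ β z p := by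
  have h0 := mul_nonneg hβ (sQ_pos (β := β) z p).le
  have h1 : ∑ p', |dlt p p' - row p p' * sQ β z p'| ≤ 2 := by
    calc _ ≤ ∑ p', (dlt p p' * 1 + row p p' * sQ β z p') := by
          refine sum_le_sum fun p' _ => abs_le.mpr ?_
          have h1 := dlt_nonneg p p'
          have h2 := mul_nonneg (row_nonneg p p') (sQ_pos (β := β) z p').le
          constructor <;> linarith
      _ = 2 := by rw [sum_add_distrib, sum_dlt, sum_row, sum_sq]; norm_num
  simp only [sQ', abs_mul (β * sQ β z p), abs_of_nonneg h0, ← mul_sum]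
  nlinarith

lemma sum_abs_s3 (hβ : 0 ≤ β) (z : I × J → ℝ) :
    ∑ p, ∑ p', ∑ p'', |s3 β z p p' p''| ≤ 24 * β ^ 2 := by
  have h1 : ∀ p p', ∑ p'', |s3 β z p p' p''| ≤ β ^ 2 * s1 β z p *
      (4 * |sK β z p p'| + 4 * s1 β z p' + 4 * (row p p' * sQ β z p')) := by
    intro p p'
    have hp := (s1_pos (β := β) z p).le
    have hr := row_nonneg p p'
    calc ∑ p'', |s3 β z p p' p''| ≤ ∑ p'', (β * |sK β z p p'| * |s2 β z p p''| +
          β * s1 β z p * |s2 β z p' p''| + β * s1 β z p * (2 * row p p') * |sQ' β z p' p''|) := by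
          refine sum_le_sum fun p'' _ => ?_
          rw [s3, abs_mul, abs_of_nonneg hβ]
          have a1 := abs_add_le (s2 β z p p'' * sK β z p p')
            (s1 β z p * (s2 β z p' p'' - 2 * row p p' * sQ' β z p' p''))
          have a2 := abs_sub (s2 β z p' p'') (2 * row p p' * sQ' β z p' p'')
          rw [abs_mul, abs_mul, abs_of_nonneg hp] at a1
          rw [abs_mul, abs_of_nonneg (by positivity : 0 ≤ 2 * row p p')] at a2
          have a3 := mul_le_mul_of_nonneg_left a2 hp
          have a4 := mul_le_mul_of_nonneg_left (a1.trans (add_le_add le_rfl a3)) hβ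
          linarith
      _ ≤ β * |sK β z p p'| * (4 * β * s1 β z p) + β * s1 β z p * (4 * β * s1 β z p') +
          β * s1 β z p * (2 * row p p') * (2 * β * sQ β z p') := by
          rw [sum_add_distrib, sum_add_distrib, ← mul_sum, ← mul_sum, ← mul_sum]
          gcongr
          · exact sum_abs_s2 hβ z p
          · exact sum_abs_s2 hβ z p'
          · exact sum_abs_sq' hβ z p'
      _ = _ := by ring
  have h2 : ∀ p, ∑ p', ∑ p'', |s3 β z p p' p''| ≤ 24 * β ^ 2 * s1 β z p := by
    intro p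
    refine (sum_le_sum fun p' _ => h1 p p').trans ?_
    rw [← mul_sum, sum_add_distrib, sum_add_distrib, ← mul_sum, ← mul_sum, ← mul_sum, sum_row,
      sum_sq, sum_s1]
    have := mul_nonneg (sq_nonneg β) (s1_pos (β := β) z p).le
    nlinarith [sum_abs_sK (β := β) z p]
  refine (sum_le_sum fun p _ => h2 p).trans ?_
  rw [← mul_sum, sum_s1, mul_one]

lemma sum_s2_nonneg (hβ : 0 ≤ β) (z : I × J → ℝ) {Δ : I × J → I × J → ℝ} (h0 : ∀ p p', 0 ≤ Δ p p')
    (h1 : ∀ p p', p.1 = p'.1 → Δ p p' = 0) : 0 ≤ ∑ p, ∑ p', s2 β z p p' * Δ p p' := by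
  refine sum_nonneg fun p _ => sum_nonneg fun p' _ => ?_
  by_cases h : p.1 = p'.1
  · rw [h1 p p' h, mul_zero]
  · have : p ≠ p' := fun e => h (e ▸ rfl)
    simp only [s2, sK, dlt, row, if_neg h, if_neg this]
    have := s1_pos (β := β) z p
    have := s1_pos (β := β) z p'
    have := h0 p p'
    have : 0 ≤ (0 : ℝ) - 2 * 0 * sQ β z p' + s1 β z p' := by linarith
    positivity

omit [DecidableEq I] [DecidableEq J] in
lemma s0_le (hβ : 0 < β) (z : I × J → ℝ) :
    s0 β z ≤ mm (fun i j => z (i, j)) + Real.log (Fintype.card J) / β := by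
  obtain ⟨i, hi⟩ := exists_le_mm fun i j => z (i, j)
  set m := mm fun i j => z (i, j)
  have hJ : (0 : ℝ) < Fintype.card J := Nat.cast_pos.mpr Fintype.card_pos
  have h1 : sA β z i ≤ Fintype.card J * Real.exp (β * m) := by
    rw [← nsmul_eq_mul, ← card_univ, ← sum_const]
    exact sum_le_sum fun j _ => Real.exp_le_exp.mpr (mul_le_mul_of_nonneg_left (hi j) hβ.le)
  have h2 : (sA β z i)⁻¹ ≤ sD β z :=
    single_le_sum (f := fun i => (sA β z i)⁻¹) (fun i _ => (inv_pos.mpr (sA_pos z i)).le)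
      (mem_univ i)
  have h3 := Real.log_le_log (inv_pos.mpr (sA_pos z i)) h2
  have h4 := Real.log_le_log (sA_pos z i) h1
  rw [Real.log_mul hJ.ne' (Real.exp_pos _).ne', Real.log_exp] at h4
  rw [Real.log_inv] at h3
  rw [s0, div_le_iff₀ hβ, add_mul, div_mul_cancel₀ _ hβ.ne']
  linarith

omit [DecidableEq I] [DecidableEq J] in
lemma le_s0 (hβ : 0 < β) (z : I × J → ℝ) :
    mm (fun i j => z (i, j)) - Real.log (Fintype.card I) / β ≤ s0 β z := by
  set m := mm fun i j => z (i, j)
  have hI : (0 : ℝ) < Fintype.card I := Nat.cast_pos.mpr Fintype.card_pos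
  have h1 : sD β z ≤ Fintype.card I * Real.exp (-(β * m)) := by
    rw [← nsmul_eq_mul, ← card_univ, ← sum_const]
    refine sum_le_sum fun i _ => ?_
    obtain ⟨j, hj⟩ := exists_ge_mm (fun i j => z (i, j)) i
    rw [Real.exp_neg]
    refine inv_anti₀ (Real.exp_pos _) ?_
    exact (Real.exp_le_exp.mpr (mul_le_mul_of_nonneg_left hj hβ.le)).trans
      (single_le_sum (f := fun j => Real.exp (β * z (i, j))) (fun _ _ => (Real.exp_pos _).le)
        (mem_univ j))
  have h4 := Real.log_le_log (sD_pos z) h1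
  rw [Real.log_mul hI.ne' (Real.exp_pos _).ne', Real.log_exp] at h4
  rw [s0, le_div_iff₀ hβ, sub_mul, div_mul_cancel₀ _ hβ.ne']
  linarith

end Pool.Agent.Work.MP_6a50bc_pr
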